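import Pool.Agent.Lib.MP_13800a_gt.Homs

/-! TASK Base: (G1): the unit class of the point is not zero. -/

set_option autoImplicit false

open scoped Matrix Kronecker
open Matrix

namespace Pool.Agent.CRC

/-- continuous square root on the square -/
private theorem base_sqrt (D : UI × UI → ℂ) (hD : Continuous D) (h0 : ∀ p, D p ≠ 0) :
    ∃ G : UI × UI → ℂ, Continuous G ∧ (∀ p, G p ≠ 0) ∧ ∀ p, G p ^ 2 = D p := by
  let pr : ℝ × ℝ → UI × UI := fun p =>
    (Set.projIcc 0 1 zero_le_one p.1, Set.projIcc 0 1 zero_le_one p.2)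
  have hpr : Continuous pr := by
    refine Continuous.prodMk ?_ ?_
    · exact continuous_projIcc.comp continuous_fst
    · exact continuous_projIcc.comp continuous_snd
  let f : C(ℝ × ℝ, ℂ) := ⟨fun p => D (pr p), hD.comp hpr⟩
  obtain ⟨F, ⟨-, hF⟩, -⟩ := Complex.isCoveringMapOn_exp.existsUnique_continuousMap_lifts f
    (a₀ := ((0, 0) : ℝ × ℝ)) (e₀ := Complex.log (f (0, 0))) (Complex.exp_log (h0 _))
    (fun a => h0 _)
  refine ⟨fun p => Complex.exp (F (((p.1 : UI) : ℝ), ((p.2 : UI) : ℝ)) / 2), ?_, ?_, ?_⟩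
  · have : Continuous (fun p : UI × UI => F (((p.1 : UI) : ℝ), ((p.2 : UI) : ℝ))) :=
      F.continuous.comp (by fun_prop)
    fun_prop
  · intro p; exact Complex.exp_ne_zero _
  · intro p
    have h1 := congrFun hF (((p.1 : UI) : ℝ), ((p.2 : UI) : ℝ))
    have h2 : pr (((p.1 : UI) : ℝ), ((p.2 : UI) : ℝ)) = p := by
      ext
      · simp [pr]
      · simp [pr]
    rw [← Complex.exp_nat_mul]
    have h3 : ((2 : ℕ) : ℂ) * (F (((p.1 : UI) : ℝ), ((p.2 : UI) : ℝ)) / 2) =
        F (((p.1 : UI) : ℝ), ((p.2 : UI) : ℝ)) := by push_cast; ring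
    rw [h3]
    have h4 : f (((p.1 : UI) : ℝ), ((p.2 : UI) : ℝ)) = D p := by
      show D (pr _) = D p
      rw [h2]
    rw [← h4, ← h1]
    rfl

/-- two continuous functions with the same square -/
private theorem base_sq (f g : UI → ℂ) (hf : Continuous f) (hg : Continuous g)
    (hg0 : ∀ x, g x ≠ 0) (h : ∀ x, f x ^ 2 = g x ^ 2) : f 0 * g 1 = f 1 * g 0 := by
  have := (isPreconnected_univ : IsPreconnected (Set.univ : Set UI)).eq_or_eq_neg_of_sq_eq
    hf.continuousOn hg.continuousOn (fun x _ => h x) (fun {x} _ => hg0 x)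
  rcases this with h1 | h1
  · rw [h1 (Set.mem_univ 0), h1 (Set.mem_univ 1)]; ring
  · rw [h1 (Set.mem_univ 0), h1 (Set.mem_univ 1)]
    simp only [Pi.neg_apply]; ring

private theorem base_det_bs {ι κ : Type} [Fintype ι] [DecidableEq ι] [Fintype κ] [DecidableEq κ]
    (u : MM ι) (v : MM κ) : (bs u v).det = u.det * v.det := by
  unfold bs
  rw [Matrix.det_submatrix_equiv_self, Matrix.det_fromBlocks_zero₂₁]

private theorem base_det_amp {ι : Type} [Fintype ι] [DecidableEq ι] (a : Matrix ι ι ℂ) :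
    (amp a).det = a.det ^ 2 := by
  unfold amp
  rw [Matrix.det_kronecker]
  simp

private theorem base_det_oneU (t : UI) :
    (oneU t).det = Complex.exp (2 * Real.pi * Complex.I * (t : ℝ)) := by
  unfold oneU
  rw [Matrix.det_diagonal, Fintype.prod_prod_type]
  simp

/-- (G1). If `one` were null there would be `u : UI × UI → GL` with `u(s,0) = amp a`,
`u(s,1) = 1`, `u(0,t) = diag(e^{2πit},1) ⊕ 1`, `u(1,t) = 1`. A continuous logarithm `l` of `det u`
with `l(s,1) = 0` gives `exp (l(s,0)/2) = ± det a`, sign constant in `s`, `-1` for `s = 0`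
and `+1` for `s = 1`. -/
theorem kgood_base : Good 1 (id : Unit → Unit) 0 := by
  intro hgood
  rw [pow_zero] at hgood
  have hnull : Null 1 (1 : Matrix Unit Unit ℂ) (id : Unit → Unit) ∅ (fun _ t => oneU t) :=
    (KG.mk_eq_zero_iff (IsRep.one 1) (isEl_oneU (τ := (id : Unit → Unit)))).1 hgood
  obtain ⟨κ, fκ, dκ, σ, U, -, hU, hU0, hU1⟩ := hnull
  let D : UI × UI → ℂ := fun p => (U ((), p.1) p.2).det
  have hc : Continuous (fun p : UI × UI => U ((), p.1) p.2) :=
    hU.cont.comp (f := fun p : UI × UI => (((), p.1), p.2)) (by fun_prop)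
  have hD : Continuous D := hc.matrix_det
  have hD0 : ∀ p, D p ≠ 0 := by
    intro p
    exact ((Matrix.isUnit_iff_isUnit_det _).1 (hU.unit ((), p.1) p.2)).ne_zero
  obtain ⟨G, hG, hG0, hG2⟩ := base_sqrt D hD hD0
  -- the matrices `a`
  let A : UI → Matrix (Unit ⊕ κ) (Unit ⊕ κ) ℂ := fun s =>
    Matrix.of fun i j => U ((), s) 0 (i, 0) (j, 0)
  have hA : ∀ s, U ((), s) 0 = amp (A s) := by
    intro s
    obtain ⟨a, ha⟩ := hU.zero ((), s)
    have : A s = a := by
      ext i j
      show U ((), s) 0 (i, 0) (j, 0) = a i j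
      rw [ha]
      simp [amp]
    rw [this, ha]
  have hAc : Continuous A := by
    refine continuous_matrix fun i j => ?_
    have h1 : Continuous (fun s : UI => U ((), s) 0) :=
      hc.comp (f := fun s : UI => (s, (0 : UI))) (by fun_prop)
    exact h1.matrix_elem (i, 0) (j, 0)
  have hdet0 : ∀ s, D (s, 0) = (A s).det ^ 2 := by
    intro s
    show (U ((), s) 0).det = _
    rw [hA s, base_det_amp]
  have hA0 : (A 0).det = 1 := by
    have h1 : amp (A 0) = amp 1 := by
      rw [← hA 0, hU0, amp_one]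
      have : oneU 0 = 1 := by
        unfold oneU
        simp
      show bs (oneU 0) 1 = 1
      rw [this, bs_one]
    rw [amp_injective h1, Matrix.det_one]
  have hA1 : (A 1).det = 1 := by
    have h1 : amp (A 1) = amp 1 := by
      rw [← hA 1, hU1, amp_one]
    rw [amp_injective h1, Matrix.det_one]
  -- the four edges
  have e1 := base_sq (fun s => G (s, 1)) (fun _ => 1) (hG.comp (by fun_prop)) continuous_const
    (fun _ => one_ne_zero) (by
      intro s
      rw [hG2]
      show (U ((), s) 1).det = 1 ^ 2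
      rw [hU.one]; simp)
  have e2 := base_sq (fun t => G (0, t)) (fun t => Complex.exp (Real.pi * Complex.I * (t : ℝ)))
    (hG.comp (by fun_prop)) (by fun_prop) (fun _ => Complex.exp_ne_zero _) (by
      intro t
      rw [hG2]
      show (U ((), 0) t).det = _
      rw [hU0, base_det_bs, base_det_oneU, Matrix.det_one, mul_one, ← Complex.exp_nat_mul]
      congr 1
      push_cast; ring)
  have e3 := base_sq (fun t => G (1, t)) (fun _ => 1) (hG.comp (by fun_prop)) continuous_const
    (fun _ => one_ne_zero) (by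
      intro t
      rw [hG2]
      show (U ((), 1) t).det = 1 ^ 2
      rw [hU1]; simp)
  have e4 := base_sq (fun s => G (s, 0)) (fun s => (A s).det) (hG.comp (by fun_prop))
    hAc.matrix_det (by
      intro s hs
      exact hD0 (s, 0) (by rw [hdet0, hs]; simp)) (by
      intro s
      rw [hG2, hdet0])
  simp only [mul_one] at e1 e3
  simp only [hA0, hA1, mul_one] at e4
  have hpi : Complex.exp (Real.pi * Complex.I * (((1 : UI) : ℝ) : ℂ)) = -1 := by
    simp [Complex.exp_pi_mul_I]
  have hze : Complex.exp (Real.pi * Complex.I * (((0 : UI) : ℝ) : ℂ)) = 1 := by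
    simp
  rw [hpi, hze] at e2
  have h0 : G (0, 0) = 0 := by
    have : 2 * G (0, 0) = 0 := by linear_combination e4 + e3 - e1 - e2
    simpa using this
  exact hG0 _ h0

end Pool.Agent.CRC
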