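import Pool.Agent.Lib.MP_13800a_gt.S3

/-! TASK A2: equivariant null-homotopic maps `S3 → S3`.

`u = |z1|²`, `a = max 0 (.4 - u)`, `b = max 0 (min (u - .2) (.8 - u))`, `c = max 0 (u - .6)`,
`α = max 0 (.5 - u)`, `β = max 0 (u - .5)`;
`F z = (a z2^n + b z1^(n+n²) + c z1^n, α z1^(n+1) conj z2 + β z1^n)`.
`F (ζ' z) = ζ'^n F z` for `ζ'^(n²) = 1`. If `F1 = 0` then `F2^n` is a negative real number:
* `u ≤ .2`: `F1 = a z2^n ≠ 0`; `.4 ≤ u ≤ .6`: `F1 = b z1^(n+n²) ≠ 0`; `.8 ≤ u`: `F1 = c z1^n ≠ 0`;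
* `.2 < u < .4`: `z2^n = -(b/a) z1^(n+n²)`, `F2^n = α^n z1^(n²+n) conj(z2^n) = -(b/a) α^n |z1|^(2(n+n²)) < 0`;
* `.6 < u < .8`: `z1^(n²) = -c/b`, `F2^n = β^n z1^(n²) < 0`.
So `F ≠ 0` and `f = F/|F|` misses the point `(0, 1)`, hence is homotopic to the constant `(0, -1)`. -/

set_option autoImplicit false

namespace Pool.Agent.CRC

open Set Topology

/-- the coefficient functions -/
noncomputable def bcA (u : ℝ) : ℝ := max 0 (0.4 - u)
noncomputable def bcB (u : ℝ) : ℝ := max 0 (min (u - 0.2) (0.8 - u))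
noncomputable def bcC (u : ℝ) : ℝ := max 0 (u - 0.6)
noncomputable def bcAl (u : ℝ) : ℝ := max 0 (0.5 - u)
noncomputable def bcBe (u : ℝ) : ℝ := max 0 (u - 0.5)

/-- first coordinate -/
noncomputable def bondF1 (n : ℕ) (z : ℂ × ℂ) : ℂ :=
  (bcA (‖z.1‖ ^ 2) : ℂ) * z.2 ^ n + (bcB (‖z.1‖ ^ 2) : ℂ) * z.1 ^ (n + n * n)
    + (bcC (‖z.1‖ ^ 2) : ℂ) * z.1 ^ n

/-- second coordinate -/
noncomputable def bondF2 (n : ℕ) (z : ℂ × ℂ) : ℂ :=
  (bcAl (‖z.1‖ ^ 2) : ℂ) * (z.1 ^ (n + 1) * (starRingEnd ℂ) z.2) + (bcBe (‖z.1‖ ^ 2) : ℂ) * z.1 ^ n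

/-- the crucial property -/
theorem bondF2_pow_neg (n : ℕ) (hn : 0 < n) (z : ℂ × ℂ) (hz : ‖z.1‖ ^ 2 + ‖z.2‖ ^ 2 = 1)
    (h : bondF1 n z = 0) : ∃ r : ℝ, r < 0 ∧ bondF2 n z ^ n = (r : ℂ) := by
  obtain ⟨z1, z2⟩ := z
  simp only at hz
  unfold bondF1 at h
  simp only at h
  set u : ℝ := ‖z1‖ ^ 2 with hu
  have hu0 : 0 ≤ u := by positivity
  have hu1 : u ≤ 1 := by nlinarith [sq_nonneg ‖z2‖]
  have hz1 : 0 < u → z1 ≠ 0 := by
    intro h0 h1; rw [hu, h1, norm_zero] at h0; norm_num at h0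
  have hz2 : u < 1 → z2 ≠ 0 := by
    intro h0 h1; rw [h1, norm_zero] at hz; nlinarith
  rcases le_or_gt u 0.2 with c1 | c1
  · exfalso
    have hb : bcB u = 0 := by
      unfold bcB; exact max_eq_left (min_le_of_left_le (by linarith))
    have hc : bcC u = 0 := by unfold bcC; exact max_eq_left (by linarith)
    have ha : bcA u ≠ 0 := by
      unfold bcA; exact (lt_max_of_lt_right (by linarith)).ne'
    rw [hb, hc] at h
    simp only [Complex.ofReal_zero, zero_mul, add_zero] at h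
    rcases mul_eq_zero.1 h with h | h
    · exact ha (by exact_mod_cast h)
    · exact hz2 (by linarith) (pow_eq_zero_iff (by omega) |>.1 h)
  rcases lt_or_ge u 0.4 with c2 | c2
  · -- first region
    have hc : bcC u = 0 := by unfold bcC; exact max_eq_left (by linarith)
    have ha : 0 < bcA u := by
      unfold bcA; exact (lt_max_of_lt_right (by linarith))
    have hb : 0 < bcB u := by
      unfold bcB; exact lt_max_of_lt_right (lt_min (by linarith) (by linarith))
    have hal : 0 < bcAl u := by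
      unfold bcAl; exact (lt_max_of_lt_right (by linarith))
    have hbe : bcBe u = 0 := by unfold bcBe; exact max_eq_left (by linarith)
    rw [hc] at h
    simp only [Complex.ofReal_zero, zero_mul, add_zero] at h
    have ha' : (bcA u : ℂ) ≠ 0 := by exact_mod_cast ha.ne'
    have e1 : z2 ^ n = -((bcB u / bcA u : ℝ) : ℂ) * z1 ^ (n + n * n) := by
      field_simp
      push_cast
      field_simp
      linear_combination h
    refine ⟨-(bcAl u ^ n * (bcB u / bcA u) * u ^ (n + n * n)), ?_, ?_⟩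
    · have : 0 < u := by linarith
      have := pow_pos this (n + n * n)
      have := div_pos hb ha
      have := pow_pos hal n
      have : 0 < bcAl u ^ n * (bcB u / bcA u) * u ^ (n + n * n) := by positivity
      linarith
    · unfold bondF2
      simp only [← hu, hbe, Complex.ofReal_zero, zero_mul, add_zero]
      have e2 : ((starRingEnd ℂ) z2) ^ n
          = -((bcB u / bcA u : ℝ) : ℂ) * ((starRingEnd ℂ) z1) ^ (n + n * n) := by
        rw [← map_pow, e1, map_mul, map_neg, Complex.conj_ofReal, map_pow]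
      have e3 : z1 * (starRingEnd ℂ) z1 = (u : ℂ) := by
        rw [Complex.mul_conj, Complex.normSq_eq_norm_sq]
      rw [mul_pow, mul_pow, e2, ← pow_mul]
      have e4 : z1 ^ ((n + 1) * n) * (starRingEnd ℂ) z1 ^ (n + n * n)
          = (u : ℂ) ^ (n + n * n) := by
        rw [show (n + 1) * n = n + n * n by ring, ← mul_pow, e3]
      push_cast
      linear_combination (-(bcAl u : ℂ) ^ n * ((bcB u : ℂ) / bcA u)) * e4
  rcases le_or_gt u 0.6 with c3 | c3
  · exfalso
    have ha : bcA u = 0 := by unfold bcA; exact max_eq_left (by linarith)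
    have hc : bcC u = 0 := by unfold bcC; exact max_eq_left (by linarith)
    have hb : bcB u ≠ 0 := by
      unfold bcB; exact (lt_max_of_lt_right (lt_min (by linarith) (by linarith))).ne'
    rw [ha, hc] at h
    simp only [Complex.ofReal_zero, zero_mul, add_zero, zero_add] at h
    rcases mul_eq_zero.1 h with h | h
    · exact hb (by exact_mod_cast h)
    · exact hz1 (by linarith) (pow_eq_zero_iff (by positivity) |>.1 h)
  rcases lt_or_ge u 0.8 with c4 | c4
  · have ha : bcA u = 0 := by unfold bcA; exact max_eq_left (by linarith)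
    have hb : 0 < bcB u := by
      unfold bcB; exact lt_max_of_lt_right (lt_min (by linarith) (by linarith))
    have hc : 0 < bcC u := by
      unfold bcC; exact (lt_max_of_lt_right (by linarith))
    have hal : bcAl u = 0 := by
      unfold bcAl; exact max_eq_left (by linarith)
    have hbe : 0 < bcBe u := by unfold bcBe; exact (lt_max_of_lt_right (by linarith))
    rw [ha] at h
    simp only [Complex.ofReal_zero, zero_mul, zero_add] at h
    have hz1' := hz1 (by linarith)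
    have hb' : (bcB u : ℂ) ≠ 0 := by exact_mod_cast hb.ne'
    have e1 : z1 ^ (n * n) = ((-(bcC u / bcB u) : ℝ) : ℂ) := by
      have h1 : z1 ^ n * ((bcB u : ℂ) * z1 ^ (n * n) + bcC u) = 0 := by
        rw [← h]; ring
      rcases mul_eq_zero.1 h1 with h2 | h2
      · exact absurd (pow_eq_zero_iff (by omega) |>.1 h2) hz1'
      · push_cast
        field_simp
        linear_combination h2
    refine ⟨-(bcBe u ^ n * (bcC u / bcB u)), ?_, ?_⟩
    · have := div_pos hc hb
      have := pow_pos hbe n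
      have : 0 < bcBe u ^ n * (bcC u / bcB u) := by positivity
      linarith
    · unfold bondF2
      simp only [← hu, hal, Complex.ofReal_zero, zero_mul, zero_add]
      rw [mul_pow, ← pow_mul, e1]
      push_cast; ring
  · exfalso
    have ha : bcA u = 0 := by unfold bcA; exact max_eq_left (by linarith)
    have hb : bcB u = 0 := by
      unfold bcB; exact max_eq_left (min_le_of_right_le (by linarith))
    have hc : bcC u ≠ 0 := by unfold bcC; exact (lt_max_of_lt_right (by linarith)).ne'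
    rw [ha, hb] at h
    simp only [Complex.ofReal_zero, zero_mul, add_zero, zero_add] at h
    rcases mul_eq_zero.1 h with h | h
    · exact hc (by exact_mod_cast h)
    · exact hz1 (by linarith) (pow_eq_zero_iff (by omega) |>.1 h)

theorem bondF1_rot (n : ℕ) (c : ℂ) (hc : ‖c‖ = 1) (hcn : c ^ (n * n) = 1) (z : ℂ × ℂ) :
    bondF1 n (c * z.1, c * z.2) = c ^ n * bondF1 n z := by
  unfold bondF1
  simp only [norm_mul, hc, one_mul]
  rw [mul_pow, mul_pow, mul_pow, pow_add c, hcn]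
  ring

theorem bondF2_rot (n : ℕ) (c : ℂ) (hc : ‖c‖ = 1) (z : ℂ × ℂ) :
    bondF2 n (c * z.1, c * z.2) = c ^ n * bondF2 n z := by
  unfold bondF2
  simp only [norm_mul, hc, one_mul, map_mul]
  have h : c * (starRingEnd ℂ) c = 1 := by
    rw [Complex.mul_conj, Complex.normSq_eq_norm_sq, hc]; norm_num
  rw [mul_pow, mul_pow, pow_succ c]
  linear_combination ((bcAl (‖z.1‖ ^ 2) : ℂ) * c ^ n * z.1 ^ (n + 1) * (starRingEnd ℂ) z.2) * h

theorem continuous_bondF1 (n : ℕ) : Continuous (bondF1 n) := by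
  unfold bondF1 bcA bcB bcC
  fun_prop

theorem continuous_bondF2 (n : ℕ) : Continuous (bondF2 n) := by
  unfold bondF2 bcAl bcBe
  fun_prop

/-- Euclidean norm of a pair -/
noncomputable def bondN (p : ℂ × ℂ) : ℝ := Real.sqrt (‖p.1‖ ^ 2 + ‖p.2‖ ^ 2)

theorem bondN_pos {p : ℂ × ℂ} (h : p ≠ 0) : 0 < bondN p := by
  unfold bondN
  apply Real.sqrt_pos.2
  by_contra h'
  apply h
  have h1 : ‖p.1‖ ^ 2 = 0 := by nlinarith [sq_nonneg ‖p.1‖, sq_nonneg ‖p.2‖]
  have h2 : ‖p.2‖ ^ 2 = 0 := by nlinarith [sq_nonneg ‖p.1‖, sq_nonneg ‖p.2‖]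
  ext1
  · simpa using h1
  · simpa using h2

/-- normalisation -/
noncomputable def bondNrm (p : ℂ × ℂ) (h : p ≠ 0) : S3 :=
  ⟨(((bondN p)⁻¹ : ℝ) * p.1, ((bondN p)⁻¹ : ℝ) * p.2), by
    have h1 := bondN_pos h
    have h2 : bondN p ^ 2 = ‖p.1‖ ^ 2 + ‖p.2‖ ^ 2 := Real.sq_sqrt (by positivity)
    simp only [norm_mul, mul_pow, Complex.norm_real, norm_inv, Real.norm_eq_abs, abs_of_pos h1]
    rw [← mul_add, ← h2]
    field_simp⟩

theorem continuous_bondNrm {X : Type} [TopologicalSpace X] (g : X → ℂ × ℂ) (hg : Continuous g)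
    (h : ∀ x, g x ≠ 0) : Continuous (fun x => bondNrm (g x) (h x)) := by
  have h1 : Continuous (fun x => (bondN (g x))⁻¹) := by
    refine Continuous.inv₀ ?_ (fun x => (bondN_pos (h x)).ne')
    unfold bondN
    fun_prop
  refine Continuous.subtype_mk ?_ _
  exact ((Complex.continuous_ofReal.comp h1).mul (continuous_fst.comp hg)).prodMk
    ((Complex.continuous_ofReal.comp h1).mul (continuous_snd.comp hg))

theorem bondF_ne_zero (n : ℕ) (hn : 0 < n) (z : S3) : (bondF1 n z.1, bondF2 n z.1) ≠ (0 : ℂ × ℂ) := by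
  intro h
  have h1 : bondF1 n z.1 = 0 := congrArg Prod.fst h
  have h2 : bondF2 n z.1 = 0 := congrArg Prod.snd h
  obtain ⟨r, hr, e⟩ := bondF2_pow_neg n hn z.1 z.2 h1
  rw [h2, zero_pow (by omega)] at e
  have : r = 0 := by exact_mod_cast e.symm
  linarith

theorem exists_bond (n : ℕ) (hn : 0 < n) : ∃ f : S3 → S3, Continuous f ∧
    (∀ z, f (rot (ztC (n * n)) z) = rot (ztC n) (f z)) ∧
    ∃ H : unitInterval × S3 → S3, Continuous H ∧ (∀ z, H (0, z) = f z) ∧
      ∃ q, ∀ z, H (1, z) = q := by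
  let g : S3 → ℂ × ℂ := fun z => (bondF1 n z.1, bondF2 n z.1)
  have hg : Continuous g := ((continuous_bondF1 n).comp continuous_subtype_val).prodMk
    ((continuous_bondF2 n).comp continuous_subtype_val)
  let f : S3 → S3 := fun z => bondNrm (g z) (bondF_ne_zero n hn z)
  have hf : Continuous f := continuous_bondNrm g hg _
  have hmiss : ∀ z, (f z).1.1 = 0 → ∀ r : ℝ, 0 ≤ r → (f z).1.2 ≠ (r : ℂ) := by
    intro z h1 r hr h2
    have hp := bondN_pos (bondF_ne_zero n hn z)
    have e1 : bondF1 n z.1 = 0 := by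
      have : (((bondN (g z))⁻¹ : ℝ) : ℂ) * bondF1 n z.1 = 0 := h1
      rcases mul_eq_zero.1 this with h | h
      · exact absurd (by exact_mod_cast h) (inv_ne_zero hp.ne')
      · exact h
    have e2 : bondF2 n z.1 = ((bondN (g z) * r : ℝ) : ℂ) := by
      have : (((bondN (g z))⁻¹ : ℝ) : ℂ) * bondF2 n z.1 = r := h2
      have hne : ((bondN (g z) : ℝ) : ℂ) ≠ 0 := by exact_mod_cast hp.ne'
      push_cast at this ⊢
      rw [← this, ← mul_assoc, mul_inv_cancel₀ hne, one_mul]
    obtain ⟨r', hr', e⟩ := bondF2_pow_neg n hn z.1 z.2 e1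
    rw [e2, ← Complex.ofReal_pow] at e
    have e' : (bondN (g z) * r) ^ n = r' := by exact_mod_cast e
    have : 0 ≤ (bondN (g z) * r) ^ n := pow_nonneg (mul_nonneg hp.le hr) n
    linarith
  let k : unitInterval × S3 → ℂ × ℂ := fun p =>
    (((1 - p.1.1 : ℝ) : ℂ) * (f p.2).1.1, ((1 - p.1.1 : ℝ) : ℂ) * (f p.2).1.2 - ((p.1.1 : ℝ) : ℂ))
  have hk : Continuous k := by
    have h1 : Continuous (fun p : unitInterval × S3 => ((1 - p.1.1 : ℝ) : ℂ)) := by fun_prop
    have h2 : Continuous (fun p : unitInterval × S3 => ((p.1.1 : ℝ) : ℂ)) := by fun_prop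
    have h3 : Continuous (fun p : unitInterval × S3 => (f p.2).1.1) :=
      continuous_fst.comp (continuous_subtype_val.comp (hf.comp continuous_snd))
    have h4 : Continuous (fun p : unitInterval × S3 => (f p.2).1.2) :=
      continuous_snd.comp (continuous_subtype_val.comp (hf.comp continuous_snd))
    exact (h1.mul h3).prodMk ((h1.mul h4).sub h2)
  have hk0 : ∀ p, k p ≠ 0 := by
    rintro ⟨s, z⟩ h
    have h1 : ((1 - s.1 : ℝ) : ℂ) * (f z).1.1 = 0 := congrArg Prod.fst h
    have h2 : ((1 - s.1 : ℝ) : ℂ) * (f z).1.2 - ((s.1 : ℝ) : ℂ) = 0 := congrArg Prod.snd h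
    by_cases hs : s.1 = 1
    · rw [hs] at h2; norm_num at h2
    · have hs' : 0 < 1 - s.1 := by
        have := s.2.2
        exact sub_pos.2 (lt_of_le_of_ne this hs)
      have hs'' : ((1 - s.1 : ℝ) : ℂ) ≠ 0 := by exact_mod_cast hs'.ne'
      have e1 : (f z).1.1 = 0 := by
        rcases mul_eq_zero.1 h1 with h | h
        · exact absurd h hs''
        · exact h
      refine hmiss z e1 (s.1 / (1 - s.1)) (div_nonneg s.2.1 hs'.le) ?_
      have : (f z).1.2 = ((s.1 : ℝ) : ℂ) / ((1 - s.1 : ℝ) : ℂ) := by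
        rw [eq_div_iff hs'']; linear_combination h2
      rw [this]; push_cast; ring
  have bondN_S3 : ∀ z : S3, bondN z.1 = 1 := fun z => by
    unfold bondN; rw [z.2, Real.sqrt_one]
  refine ⟨f, hf, ?_, fun p => bondNrm (k p) (hk0 p), continuous_bondNrm k hk hk0, ?_, ⟨⟨(0, -1), by simp⟩, ?_⟩⟩
  · intro z
    have hc : ‖((ztC (n * n) : Circle) : ℂ)‖ = 1 := Circle.norm_coe _
    have hcn : ((ztC (n * n) : Circle) : ℂ) ^ (n * n) = 1 := by
      have := ztC_pow_self (n * n) (by positivity)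
      rw [← Circle.coe_pow, this, Circle.coe_one]
    have hcn' : ((ztC (n * n) : Circle) : ℂ) ^ n = ((ztC n : Circle) : ℂ) := by
      rw [← Circle.coe_pow, ztC_mul_pow n n (by omega) (by omega)]
    have e1 : bondF1 n (rot (ztC (n * n)) z).1 = ((ztC n : Circle) : ℂ) * bondF1 n z.1 := by
      rw [← hcn']; exact bondF1_rot n _ hc hcn z.1
    have e2 : bondF2 n (rot (ztC (n * n)) z).1 = ((ztC n : Circle) : ℂ) * bondF2 n z.1 := by
      rw [← hcn']; exact bondF2_rot n _ hc z.1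
    have e3 : bondN (g (rot (ztC (n * n)) z)) = bondN (g z) := by
      unfold bondN
      simp only [g, e1, e2, norm_mul, Circle.norm_coe, one_mul]
    apply Subtype.ext
    apply Prod.ext
    · show (((bondN (g (rot (ztC (n * n)) z)))⁻¹ : ℝ) : ℂ) * bondF1 n (rot (ztC (n * n)) z).1 =
        ((ztC n : Circle) : ℂ) * ((((bondN (g z))⁻¹ : ℝ) : ℂ) * bondF1 n z.1)
      rw [e3, e1]; ring
    · show (((bondN (g (rot (ztC (n * n)) z)))⁻¹ : ℝ) : ℂ) * bondF2 n (rot (ztC (n * n)) z).1 =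
        ((ztC n : Circle) : ℂ) * ((((bondN (g z))⁻¹ : ℝ) : ℂ) * bondF2 n z.1)
      rw [e3, e2]; ring
  · intro z
    have e : k (0, z) = (f z).1 := by
      simp [k]
    apply Subtype.ext
    show ((((bondN (k (0, z)))⁻¹ : ℝ) : ℂ) * (k (0, z)).1, (((bondN (k (0, z)))⁻¹ : ℝ) : ℂ) * (k (0, z)).2)
      = (f z).1
    rw [e, bondN_S3]
    simp
  · intro z
    have e : k (1, z) = (0, -1) := by
      simp [k]
    apply Subtype.ext
    show ((((bondN (k (1, z)))⁻¹ : ℝ) : ℂ) * (k (1, z)).1, (((bondN (k (1, z)))⁻¹ : ℝ) : ℂ) * (k (1, z)).2)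
      = (0, -1)
    rw [e]
    have : bondN (0, -1) = 1 := by unfold bondN; simp
    rw [this]
    simp

end Pool.Agent.CRC
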