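import Pool.Agent.Lib.MP_13800a_gt.TowerLim

/-! TASK T4: the limit of a tower with null-homotopic bonding maps is cell-like.

Proof. `e : A → I^ℕ` embedding, `U` open containing `e(A)`. `A = T.Lim` is a closed subset of the
compact metrisable space `Π = ∏ S j`; by Tietze (coordinatewise) `e` extends to continuous
`ê : Π → I^ℕ`. Let `r j : S j → Π`, `r j z = (p..p z, …, p z, z, pt, pt, …)` (continuous), so
`r j (proj j a)` agrees with `a` in the coordinates `≤ j`. For `j` large the straight line from
`e a` to `ê (r j (proj j a))` stays in `U` (compactness). The set `G = {z : S j | ê (r j z) ∈ U}` is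
open and contains `proj j (A) = ⋂ j' image of S j'`, so for `j'` large the image of `S j'` in `S j`
is in `G` (compactness). Now `ê ∘ r j ∘ proj j = ê ∘ r j ∘ (S j' → S j) ∘ p j' ∘ proj (j'+1)`, and
composing with a null-homotopy of `p j'` gives a homotopy in `U` to a constant. -/

set_option autoImplicit false

namespace Pool.Agent.CRC

open Set Topology

/-- composite bonding maps -/
def Tower.dn (T : Tower) (j : ℕ) : ∀ n, T.S (j + n) → T.S j
  | 0 => id
  | n + 1 => fun x => T.dn j n (T.p (j + n) x)

theorem Tower.dn_continuous (T : Tower) (j n : ℕ) : Continuous (T.dn j n) := by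
  induction n with
  | zero => exact continuous_id
  | succ n ih => exact ih.comp (T.pcont (j + n))

theorem Tower.dn_proj (T : Tower) (j n : ℕ) (x : T.Lim) :
    T.dn j n (T.proj (j + n) x) = T.proj j x := by
  induction n with
  | zero => rfl
  | succ n ih =>
    show T.dn j n (T.p (j + n) (T.proj (j + n + 1) x)) = _
    rw [T.p_proj, ih]

/-- the map `S j → Π` -/
private noncomputable def Tower.rr (T : Tower) : ∀ j, T.S j → (∀ i, T.S i)
  | 0 => fun z => Function.update (fun i => Classical.arbitrary (T.S i)) 0 z
  | j + 1 => fun z => Function.update (T.rr j (T.p j z)) (j + 1) z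

private theorem Tower.rr_self (T : Tower) (j : ℕ) (z : T.S j) : T.rr j z j = z := by
  cases j with
  | zero => simp [Tower.rr]
  | succ j => simp [Tower.rr]

private theorem Tower.rr_succ_of_le (T : Tower) (j i : ℕ) (h : i ≤ j) (z : T.S (j + 1)) :
    T.rr (j + 1) z i = T.rr j (T.p j z) i := by
  show Function.update (T.rr j (T.p j z)) (j + 1) z i = _
  rw [Function.update_of_ne (by omega)]

private theorem Tower.rr_continuous (T : Tower) (j : ℕ) : Continuous (T.rr j) := by
  induction j with
  | zero => exact Continuous.update continuous_const 0 continuous_id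
  | succ j ih => exact Continuous.update (ih.comp (T.pcont j)) (j + 1) continuous_id

private theorem Tower.rr_proj (T : Tower) (x : T.Lim) (j i : ℕ) (h : i ≤ j) :
    T.rr j (T.proj j x) i = T.proj i x := by
  induction j with
  | zero =>
    obtain rfl : i = 0 := by omega
    exact T.rr_self 0 _
  | succ j ih =>
    rcases Nat.lt_or_ge j i with h1 | h1
    · obtain rfl : i = j + 1 := by omega
      exact T.rr_self (j + 1) _
    · rw [T.rr_succ_of_le j i h1, T.p_proj, ih h1]

private theorem Tower.rr_compat (T : Tower) (j i : ℕ) (h : i < j) (z : T.S j) :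
    T.p i (T.rr j z (i + 1)) = T.rr j z i := by
  induction j with
  | zero => omega
  | succ j ih =>
    rcases Nat.lt_or_ge i j with h1 | h1
    · rw [T.rr_succ_of_le j i h1.le, T.rr_succ_of_le j (i + 1) h1, ih h1]
    · obtain rfl : i = j := by omega
      rw [T.rr_succ_of_le i i le_rfl, T.rr_self, T.rr_self]

private theorem Tower.rr_dn (T : Tower) (j n : ℕ) (z : T.S (j + n)) :
    T.rr (j + n) z j = T.dn j n z := by
  induction n with
  | zero => exact T.rr_self j z
  | succ n ih =>
    show T.rr (j + n + 1) z j = T.dn j n (T.p (j + n) z)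
    rw [T.rr_succ_of_le (j + n) j (by omega), ih]

/-- an open set containing the projection of the limit contains the image of a late stage -/
theorem Tower.exists_dn_mem (T : Tower) (j : ℕ) (G : Set (T.S j)) (hG : IsOpen G)
    (h : ∀ x : T.Lim, T.proj j x ∈ G) : ∃ n, ∀ z, T.dn j n z ∈ G := by
  by_contra hcon
  push Not at hcon
  let C : ℕ → Set (∀ i, T.S i) := fun n =>
    {y | (∀ i, i < j + n → T.p i (y (i + 1)) = y i) ∧ y j ∉ G}
  have hcl : ∀ n, IsClosed (C n) := by
    intro n
    have h1 : C n = (⋂ i, ⋂ (_ : i < j + n), {y : ∀ i, T.S i | T.p i (y (i + 1)) = y i}) ∩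
        {y | y j ∉ G} := by
      ext y; simp [C]
    rw [h1]
    refine IsClosed.inter ?_ ?_
    · refine isClosed_iInter fun i => isClosed_iInter fun _ => ?_
      exact isClosed_eq ((T.pcont i).comp (continuous_apply (i + 1))) (continuous_apply i)
    · exact (hG.preimage (continuous_apply j)).isClosed_compl
  obtain ⟨y, hy⟩ := IsCompact.nonempty_iInter_of_sequence_nonempty_isCompact_isClosed C
    (fun n y hy => ⟨fun i hi => hy.1 i (by omega), hy.2⟩)
    (fun n => by
      obtain ⟨z, hz⟩ := hcon n
      refine ⟨T.rr (j + n) z, fun i hi => T.rr_compat _ i hi z, ?_⟩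
      rw [T.rr_dn]
      exact hz)
    ((hcl 0).isCompact) hcl
  rw [Set.mem_iInter] at hy
  have hx : ∀ i, T.p i (y (i + 1)) = y i := fun i => (hy (i + 1)).1 i (by omega)
  exact (hy 0).2 (h ⟨y, hx⟩)

/-- straight line in the Hilbert cube -/
private noncomputable def segC (s : unitInterval) (x y : ℕ → unitInterval) (i : ℕ) :
    unitInterval :=
  ⟨(1 - (s : ℝ)) * (x i : ℝ) + (s : ℝ) * (y i : ℝ), by
    have h1 := s.2.1; have h2 := s.2.2; have h3 := (x i).2.1; have h4 := (x i).2.2
    have h5 := (y i).2.1; have h6 := (y i).2.2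
    constructor
    · nlinarith [mul_nonneg (sub_nonneg.mpr h2) h3, mul_nonneg h1 h5]
    · nlinarith [mul_le_mul_of_nonneg_left h4 (sub_nonneg.mpr h2),
        mul_le_mul_of_nonneg_left h6 h1]⟩

private theorem segC_continuous :
    Continuous fun q : unitInterval × (ℕ → unitInterval) × (ℕ → unitInterval) =>
      segC q.1 q.2.1 q.2.2 := by
  refine continuous_pi fun i => ?_
  unfold segC
  refine Continuous.subtype_mk ?_ _
  have h1 : Continuous fun q : unitInterval × (ℕ → unitInterval) × (ℕ → unitInterval) =>
      (q.1 : ℝ) := by fun_prop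
  have h2 : Continuous fun q : unitInterval × (ℕ → unitInterval) × (ℕ → unitInterval) =>
      ((q.2.1 i : unitInterval) : ℝ) := by fun_prop
  have h3 : Continuous fun q : unitInterval × (ℕ → unitInterval) × (ℕ → unitInterval) =>
      ((q.2.2 i : unitInterval) : ℝ) := by fun_prop
  exact ((continuous_const.sub h1).mul h2).add (h1.mul h3)

private theorem segC_zero (x y : ℕ → unitInterval) : segC 0 x y = x := by
  funext i; apply Subtype.ext; simp [segC]

private theorem segC_one (x y : ℕ → unitInterval) : segC 1 x y = y := by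
  funext i; apply Subtype.ext; simp [segC]

theorem Tower.cellLike (T : Tower)
    (h : ∀ j, ∃ H : unitInterval × T.S (j + 1) → T.S j, Continuous H ∧
      (∀ z, H (0, z) = T.p j z) ∧ ∃ q, ∀ z, H (1, z) = q) : CellLike T.Lim := by
  intro e he U hU hrU
  -- the inclusion into the product
  let ι : T.Lim → (∀ i, T.S i) := fun x i => T.proj i x
  have hιc : Continuous ι := continuous_pi fun i => T.continuous_proj i
  have hιi : Function.Injective ι := fun x y hxy => Subtype.ext hxy
  have hιe : IsClosedEmbedding ι := hιc.isClosedEmbedding hιi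
  obtain ⟨E, hE⟩ := ContinuousMap.exists_extension hιe (⟨e, he.continuous⟩ : C(T.Lim, ℕ → unitInterval))
  have hEe : ∀ a, E (ι a) = e a := fun a => by
    have := congrArg (fun f => f a) hE
    exact this
  -- choose j
  obtain ⟨j, hj⟩ : ∃ j, ∀ (s : unitInterval) (a : T.Lim),
      segC s (e a) (E (T.rr j (T.proj j a))) ∈ U := by
    by_contra hcon
    push Not at hcon
    choose s a hsa using hcon
    obtain ⟨⟨s0, a0⟩, φ, hφ, hlim⟩ := CompactSpace.tendsto_subseq (fun j => (s j, a j))
    have hs : Filter.Tendsto (fun n => s (φ n)) Filter.atTop (𝓝 s0) :=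
      (continuous_fst.tendsto _).comp hlim
    have ha : Filter.Tendsto (fun n => a (φ n)) Filter.atTop (𝓝 a0) :=
      (continuous_snd.tendsto _).comp hlim
    have hr : Filter.Tendsto (fun n => T.rr (φ n) (T.proj (φ n) (a (φ n)))) Filter.atTop
        (𝓝 (ι a0)) := by
      rw [tendsto_pi_nhds]
      intro i
      have h1 : Filter.Tendsto (fun n => T.proj i (a (φ n))) Filter.atTop (𝓝 (T.proj i a0)) :=
        ((T.continuous_proj i).tendsto a0).comp ha
      refine h1.congr' ?_
      filter_upwards [Filter.eventually_ge_atTop i] with n hn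
      rw [T.rr_proj _ _ i (hn.trans (StrictMono.le_apply hφ))]
    have hall : Filter.Tendsto (fun n => segC (s (φ n)) (e (a (φ n)))
        (E (T.rr (φ n) (T.proj (φ n) (a (φ n)))))) Filter.atTop
        (𝓝 (segC s0 (e a0) (E (ι a0)))) := by
      have h2 := (segC_continuous.tendsto (s0, e a0, E (ι a0))).comp
        (hs.prodMk_nhds (((he.continuous.tendsto a0).comp ha).prodMk_nhds
          ((E.continuous.tendsto (ι a0)).comp hr)))
      exact h2
    have hmem : segC s0 (e a0) (E (ι a0)) ∈ U := by
      have h3 : segC s0 (e a0) (E (ι a0)) = e a0 := by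
        rw [hEe]
        funext i
        apply Subtype.ext
        simp only [segC]
        ring
      rw [h3]
      exact hrU ⟨a0, rfl⟩
    obtain ⟨n, hn⟩ := (hall.eventually (hU.mem_nhds hmem)).exists
    exact hsa (φ n) hn
  -- the open set G
  obtain ⟨n, hn⟩ := T.exists_dn_mem j {z | E (T.rr j z) ∈ U}
    (hU.preimage (E.continuous.comp (T.rr_continuous j)))
    (fun x => by
      have := hj 1 x
      rwa [segC_one] at this)
  obtain ⟨H, hHc, hH0, q, hH1⟩ := h (j + n)
  let f0 : C(T.Lim, ℕ → unitInterval) := ⟨e, he.continuous⟩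
  let f1 : C(T.Lim, ℕ → unitInterval) := ⟨fun a => E (T.rr j (T.proj j a)),
    E.continuous.comp ((T.rr_continuous j).comp (T.continuous_proj j))⟩
  let f2 : C(T.Lim, ℕ → unitInterval) := ContinuousMap.const _ (E (T.rr j (T.dn j n q)))
  let F : ContinuousMap.Homotopy f0 f1 :=
    { toFun := fun p => segC p.1 (e p.2) (E (T.rr j (T.proj j p.2)))
      continuous_toFun := segC_continuous.comp (continuous_fst.prodMk
        ((he.continuous.comp continuous_snd).prodMk
          (E.continuous.comp ((T.rr_continuous j).comp ((T.continuous_proj j).comp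
            continuous_snd)))))
      map_zero_left := fun x => segC_zero _ _
      map_one_left := fun x => segC_one _ _ }
  let G : ContinuousMap.Homotopy f1 f2 :=
    { toFun := fun p => E (T.rr j (T.dn j n (H (p.1, T.proj (j + n + 1) p.2))))
      continuous_toFun := E.continuous.comp ((T.rr_continuous j).comp ((T.dn_continuous j n).comp
        (hHc.comp (continuous_fst.prodMk ((T.continuous_proj (j + n + 1)).comp
          continuous_snd)))))
      map_zero_left := fun x => by
        show E (T.rr j (T.dn j n (H (0, T.proj (j + n + 1) x)))) = E (T.rr j (T.proj j x))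
        rw [hH0, T.p_proj, T.dn_proj]
      map_one_left := fun x => by
        show E (T.rr j (T.dn j n (H (1, T.proj (j + n + 1) x)))) = E (T.rr j (T.dn j n q))
        rw [hH1] }
  refine ⟨F.trans G, (F.trans G).continuous, fun k => (F.trans G).apply_zero k,
    ⟨E (T.rr j (T.dn j n q)), fun k => (F.trans G).apply_one k⟩, ?_⟩
  intro t k
  rw [ContinuousMap.Homotopy.trans_apply]
  split_ifs with ht
  · exact hj _ _
  · exact hn _

end Pool.Agent.CRC
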