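import Pool.Agent.Lib.MP_13800a_gt.Sep

set_option autoImplicit false

/-!
# The center of a dendritic core
-/

namespace Pool.Agent.Lib.MP_13800a_gt

open Set

/-- Any two distinct points of the compact space `F` are separated by a third point. -/
def SepAll (F : Type) [TopologicalSpace F] : Prop :=
  ∀ a b : F, a ≠ b → ∃ c : F, Separates c a b

/-- `D` is a nonempty closed connected subset of `F`, preserved by all self-homeomorphisms of `F`,
such that any two distinct points of `D` are separated in `D` by a third point of `D`. -/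
def IsInvDendrite {F : Type} [TopologicalSpace F] (D : Set F) : Prop :=
  D.Nonempty ∧ IsClosed D ∧ IsPreconnected D ∧ (∀ h : F ≃ₜ F, h '' D = D) ∧
    ∀ a b : ↥D, a ≠ b → ∃ c : ↥D, Separates c a b

/-- The restriction of a homeomorphism to a subset. -/
def restr {F F' : Type} [TopologicalSpace F] [TopologicalSpace F'] (φ : F ≃ₜ F') {D : Set F}
    {D' : Set F'} (h : φ '' D = D') : ↥D ≃ₜ ↥D' :=
  (φ.image D).trans (Homeomorph.setCongr h)

theorem restr_apply {F F' : Type} [TopologicalSpace F] [TopologicalSpace F'] (φ : F ≃ₜ F')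
    {D : Set F} {D' : Set F'} (h : φ '' D = D') (x : ↥D) : ((restr φ h x : ↥D') : F') = φ x := rfl

theorem IsInvDendrite.image {F F' : Type} [TopologicalSpace F] [TopologicalSpace F'] {D : Set F}
    (hD : IsInvDendrite D) (φ : F ≃ₜ F') : IsInvDendrite (φ '' D) := by
  obtain ⟨h1, h2, h3, h4, h5⟩ := hD
  refine ⟨h1.image _, φ.isClosedMap _ h2, h3.image _ φ.continuous.continuousOn, fun h => ?_, ?_⟩
  · have h6 := h4 ((φ.trans h).trans φ.symm)
    conv_rhs => rw [← h6]
    rw [← image_comp, ← image_comp]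
    refine image_congr fun x _ => ?_
    simp
  · intro a b hab
    let ψ : ↥D ≃ₜ ↥(φ '' D) := restr φ rfl
    obtain ⟨c, hs⟩ := h5 (ψ.symm a) (ψ.symm b) (fun h => hab (ψ.symm.injective h))
    refine ⟨ψ c, ?_⟩
    have := hs.image ψ
    rwa [Homeomorph.apply_symm_apply, Homeomorph.apply_symm_apply] at this

/-- Invariant dendrites can be chosen consistently. -/
theorem exists_family {Y : Type} (F : Y → Type) [∀ y, TopologicalSpace (F y)]
    (h : ∀ y, ∃ C : Set (F y), IsInvDendrite C) :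
    ∃ C : ∀ y, Set (F y), (∀ y, IsInvDendrite (C y)) ∧
      ∀ y y' (φ : F y ≃ₜ F y'), φ '' C y = C y' := by
  classical
  let r : Setoid Y :=
    { r := fun y y' => Nonempty (F y ≃ₜ F y')
      iseqv := ⟨fun _ => ⟨Homeomorph.refl _⟩, fun ⟨e⟩ => ⟨e.symm⟩, fun ⟨e⟩ ⟨e'⟩ => ⟨e.trans e'⟩⟩ }
  let rep : Y → Y := fun y => (Quotient.mk r y).out
  have hrep : ∀ y, Nonempty (F (rep y) ≃ₜ F y) := fun y =>
    Quotient.exact (s := r) (Quotient.out_eq (Quotient.mk r y))
  let φ : ∀ y, F (rep y) ≃ₜ F y := fun y => (hrep y).some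
  choose C₀ hC₀ using h
  refine ⟨fun y => φ y '' C₀ (rep y), fun y => (hC₀ _).image _, fun y y' ψ => ?_⟩
  have hyy : rep y = rep y' := by
    have : Quotient.mk r y = Quotient.mk r y' := Quotient.sound ⟨ψ⟩
    show (Quotient.mk r y).out = (Quotient.mk r y').out
    rw [this]
  have key : ∀ z z' (_ : z = z') (e : F z ≃ₜ F y) (e' : F z' ≃ₜ F y'),
      ψ '' (e '' C₀ z) = e' '' C₀ z' := by
    rintro z _ rfl e e'
    have h5 := (hC₀ z).2.2.2.1 ((e.trans ψ).trans e'.symm)
    conv_rhs => rw [← h5]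
    rw [← image_comp, ← image_comp]
    refine image_congr fun x _ => ?_
    simp
  exact key _ _ hyy _ _

section Center

/-- Nonempty, closed, and any two points are separated by a third point of the set. -/
def Dend {F : Type} [TopologicalSpace F] (C : Set F) : Prop :=
  C.Nonempty ∧ IsClosed C ∧ ∀ a ∈ C, ∀ b ∈ C, a ≠ b → ∃ c ∈ C, Separates c a b

variable {X : Type} [MetricSpace X] {F : Type} [TopologicalSpace F]

/-- The radius of `C` seen from `c`. -/
noncomputable def rad (j : F → X) (C : Set F) (c : F) : ℝ :=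
  sSup ((fun k => wt (j '' Btw C c k)) '' C)

theorem le_rad {j : F → X} {C : Set F} {c k : F} (hk : k ∈ C) :
    wt (j '' Btw C c k) ≤ rad j C c := by
  refine le_csSup ⟨2, ?_⟩ (mem_image_of_mem _ hk)
  rintro _ ⟨k, -, rfl⟩
  exact wt_le_two _

theorem rad_le {j : F → X} {C : Set F} (hC : C.Nonempty) {c : F} {r : ℝ}
    (h : ∀ k ∈ C, wt (j '' Btw C c k) ≤ r) : rad j C c ≤ r := by
  refine csSup_le (hC.image _) ?_
  rintro _ ⟨k, hk, rfl⟩
  exact h k hk

/-- Two distinct points of `C` are not both centers. -/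
theorem exists_smaller_rad [PreconnectedSpace F] [T1Space F] [CompactSpace F] {j : F → X}
    (hj : Continuous j) (hji : Function.Injective j) {C : Set F} (hC : Dend C) {c c' : F}
    (hc : c ∈ C) (hc' : c' ∈ C) (hne : c ≠ c') :
    ∃ m ∈ C, rad j C m < max (rad j C c) (rad j C c') := by
  obtain ⟨m, hm, U, V, hU, hV, hd, hUV, hcU, hcV⟩ := hC.2.2 c hc c' hc' hne
  have hdist : ∀ (O : Set F) (x : F), IsOpen O → x ∈ O →
      ∃ η : ℝ, 0 < η ∧ ∀ z ∈ Oᶜ, η ≤ dist (j x) (j z) := by
    intro O x hO hx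
    have hcl : IsClosed (j '' Oᶜ) := (hO.isClosed_compl.isCompact.image hj).isClosed
    have hnot : j x ∈ (j '' Oᶜ)ᶜ := by
      rintro ⟨z, hz, hzx⟩
      exact hz (hji hzx ▸ hx)
    obtain ⟨η, hη, hball⟩ := Metric.isOpen_iff.1 hcl.isOpen_compl (j x) hnot
    refine ⟨η, hη, fun z hz => ?_⟩
    by_contra hlt
    push Not at hlt
    exact hball (show j z ∈ Metric.ball (j x) η by rw [Metric.mem_ball, dist_comm]; exact hlt)
      (mem_image_of_mem _ hz)
  obtain ⟨η, hη, hηd⟩ := hdist U c hU hcU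
  obtain ⟨η', hη', hηd'⟩ := hdist V c' hV hcV
  have htb : TotallyBounded (range j) := (isCompact_range hj).totallyBounded
  obtain ⟨g, hg, hgain⟩ := exists_gain htb (lt_min hη hη')
  refine ⟨m, hm, ?_⟩
  have hle : rad j C m ≤ max (rad j C c) (rad j C c') - g := by
    refine rad_le hC.1 fun k hk => ?_
    have hne' : (j '' Btw C m k).Nonempty := ⟨j m, mem_image_of_mem _ (left_mem_btw hm)⟩
    by_cases hkU : k ∈ U
    · have hsub := btw_side (C := C) hV hU hd.symm (by rw [union_comm, hUV]) (c := c') (k := k)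
        hcV (Or.inr hkU)
      have h1 := hgain (j '' Btw C m k) (image_subset_range _ _) hne' (j c') (by
        rintro _ ⟨z, hz, rfl⟩
        exact (min_le_right _ _).trans (hηd' z (hsub hz).1))
      have h2 : wt (insert (j c') (j '' Btw C m k)) ≤ wt (j '' Btw C c' k) := by
        refine wt_mono (insert_subset (mem_image_of_mem _ (left_mem_btw hc')) (image_mono ?_))
        exact fun z hz => (hsub hz).2
      have h3 := le_rad (j := j) (C := C) (c := c') hk
      have h4 := le_max_right (rad j C c) (rad j C c')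
      linarith
    · have hkV : k = m ∨ k ∈ V := by
        by_cases hkm : k = m
        · exact Or.inl hkm
        · have : k ∈ U ∪ V := hUV ▸ hkm
          exact Or.inr (this.resolve_left hkU)
      have hsub := btw_side (C := C) hU hV hd hUV (c := c) (k := k) hcU hkV
      have h1 := hgain (j '' Btw C m k) (image_subset_range _ _) hne' (j c) (by
        rintro _ ⟨z, hz, rfl⟩
        exact (min_le_left _ _).trans (hηd z (hsub hz).1))
      have h2 : wt (insert (j c) (j '' Btw C m k)) ≤ wt (j '' Btw C c k) := by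
        refine wt_mono (insert_subset (mem_image_of_mem _ (left_mem_btw hc)) (image_mono ?_))
        exact fun z hz => (hsub hz).2
      have h3 := le_rad (j := j) (C := C) (c := c) hk
      have h4 := le_max_left (rad j C c) (rad j C c')
      linarith
  linarith

theorem rad_le_add [PreconnectedSpace F] {j : F → X} {C : Set F}
    (hC : C.Nonempty) {c c' : F} (hc' : c' ∈ C) {ε : ℝ} (hε : 0 ≤ ε)
    (h : ∀ x ∈ Btw C c c', dist (j x) (j c') ≤ ε) : rad j C c ≤ rad j C c' + 4 * ε := by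
  refine rad_le hC fun k hk => ?_
  have h1 : wt (j '' Btw C c k) ≤ wt (j '' Btw C c' k) + 4 * ε := by
    refine wt_le_add hε ?_
    rintro _ ⟨x, hx, rfl⟩
    rcases btw_triangle hc' hx with h2 | h2
    · exact ⟨j c', mem_image_of_mem _ (left_mem_btw hc'), h x h2⟩
    · exact ⟨j x, mem_image_of_mem _ h2, by rw [dist_self]; exact hε⟩
  have h3 := le_rad (j := j) (C := C) (c := c') hk
  linarith

/-- The radius is a continuous function on `C`. -/
theorem continuousOn_rad [PreconnectedSpace F] [T1Space F] [CompactSpace F] {j : F → X}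
    (hj : Continuous j) {C : Set F} (hC : Dend C) : ContinuousOn (rad j C) C := by
  intro c hc
  rw [ContinuousWithinAt, Metric.tendsto_nhds]
  intro ε hε
  obtain ⟨W, hW, hcW, hWb⟩ := btw_shrink hC.2.1 hC.2.2 hc
    (O := j ⁻¹' Metric.ball (j c) (ε / 16)) (Metric.isOpen_ball.preimage hj)
    (Metric.mem_ball_self (by linarith))
  filter_upwards [self_mem_nhdsWithin, mem_nhdsWithin_of_mem_nhds (hW.mem_nhds hcW)] with c' hc' hc'W
  have hb := hWb c' hc'W hc'
  have h0 : dist (j c') (j c) < ε / 16 := hb (right_mem_btw hc')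
  have h1 : rad j C c ≤ rad j C c' + 4 * (ε / 8) := by
    refine rad_le_add hC.1 hc' (by linarith) fun x hx => ?_
    have h2 : dist (j x) (j c) < ε / 16 := hb hx
    have h3 := dist_triangle_right (j x) (j c') (j c)
    linarith
  have h4 : rad j C c' ≤ rad j C c + 4 * (ε / 16) := by
    refine rad_le_add hC.1 hc (by linarith) fun x hx => ?_
    rw [btw_comm] at hx
    exact (show dist (j x) (j c) < ε / 16 from hb hx).le
  rw [Real.dist_eq, abs_lt]
  constructor <;> linarith

/-- There is a center, and points away from it have a definitely larger radius. -/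
theorem exists_center [PreconnectedSpace F] [T1Space F] [CompactSpace F] {j : F → X}
    (hj : Continuous j) (hji : Function.Injective j) {C : Set F} (hC : Dend C) :
    ∃ c ∈ C, ∀ O : Set F, IsOpen O → c ∈ O →
      ∃ γ : ℝ, 0 < γ ∧ ∀ k ∈ C, k ∉ O → rad j C c + γ ≤ rad j C k := by
  have hcont := continuousOn_rad hj hC
  have hcomp : IsCompact C := hC.2.1.isCompact
  obtain ⟨c, hc, hmin⟩ := hcomp.exists_isMinOn hC.1 hcont
  refine ⟨c, hc, fun O hO hcO => ?_⟩
  rcases (C ∩ Oᶜ).eq_empty_or_nonempty with he | hne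
  · refine ⟨1, one_pos, fun k hk hkO => ?_⟩
    have : k ∈ C ∩ Oᶜ := ⟨hk, hkO⟩
    rw [he] at this
    exact absurd this (notMem_empty _)
  · have hcomp' : IsCompact (C ∩ Oᶜ) := hcomp.inter_right hO.isClosed_compl
    obtain ⟨k₀, hk₀, hmin'⟩ := hcomp'.exists_isMinOn hne (hcont.mono inter_subset_left)
    have hlt : rad j C c < rad j C k₀ := by
      rcases lt_or_eq_of_le (isMinOn_iff.1 hmin k₀ hk₀.1) with h | h
      · exact h
      · exfalso
        obtain ⟨m, hm, hlt⟩ := exists_smaller_rad hj hji hC hc hk₀.1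
          (fun h' => hk₀.2 (h' ▸ hcO))
        rw [← h, max_self] at hlt
        exact absurd (isMinOn_iff.1 hmin m hm) (not_le.2 hlt)
    refine ⟨rad j C k₀ - rad j C c, sub_pos.2 hlt, fun k hk hkO => ?_⟩
    have := isMinOn_iff.1 hmin' k ⟨hk, hkO⟩
    linarith

/-- Radii under an almost isometric homeomorphism. -/
theorem rad_image_le {F' : Type} [TopologicalSpace F'] {j : F → X} {j' : F' → X} (φ : F ≃ₜ F')
    {C : Set F} (hC : C.Nonempty) {ε : ℝ} (hε : 0 ≤ ε) (h : ∀ x, dist (j x) (j' (φ x)) ≤ ε)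
    {c : F} : rad j' (φ '' C) (φ c) ≤ rad j C c + 4 * ε := by
  refine rad_le (hC.image _) ?_
  rintro _ ⟨k, hk, rfl⟩
  rw [btw_image]
  have h1 : wt (j' '' (φ '' Btw C c k)) ≤ wt (j '' Btw C c k) + 4 * ε := by
    refine wt_le_add hε ?_
    rintro _ ⟨_, ⟨x, hx, rfl⟩, rfl⟩
    exact ⟨j x, mem_image_of_mem _ hx, by rw [dist_comm]; exact h x⟩
  have h3 := le_rad (j := j) (C := C) (c := c) hk
  linarith

end Center

/-- The main theorem: a completely regular proper map each of whose fibres contains an invariant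
dendrite has a continuous right inverse. -/
theorem exists_section {X Y : Type} [MetricSpace X] [MetricSpace Y] (f : X → Y)
    (hp : IsProperMap f)
    (hcr : ∀ ε : ℝ, 0 < ε → ∀ y : Y, ∃ δ : ℝ, 0 < δ ∧ ∀ y' : Y, dist y' y < δ →
        ∃ h : ↥(f ⁻¹' {y}) ≃ₜ ↥(f ⁻¹' {y'}),
          ∀ x : ↥(f ⁻¹' {y}), dist (x : X) ((h x : ↥(f ⁻¹' {y'})) : X) < ε)
    (hcore : ∀ y, ∃ D : Set ↥(f ⁻¹' {y}), IsInvDendrite D) :
    ∃ s : Y → X, Continuous s ∧ ∀ y, f (s y) = y := by
  obtain ⟨D, hD, hDφ⟩ := exists_family (fun y => ↥(f ⁻¹' {y})) hcore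
  have hcpt : ∀ y, CompactSpace ↥(f ⁻¹' {y}) := fun y =>
    isCompact_iff_compactSpace.1 (hp.isCompact_preimage isCompact_singleton)
  have hcptD : ∀ y, CompactSpace ↥(D y) := fun y =>
    isCompact_iff_compactSpace.1 ((hD y).2.1.isCompact)
  have hconn : ∀ y, PreconnectedSpace ↥(D y) := fun y =>
    isPreconnected_iff_preconnectedSpace.1 (hD y).2.2.1
  have hne : ∀ y, Nonempty ↥(D y) := fun y => (hD y).1.to_subtype
  -- the inclusion of `D y` in `X`
  let j : ∀ y, ↥(D y) → X := fun y x => ((x : ↥(f ⁻¹' {y})) : X)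
  have hj : ∀ y, Continuous (j y) := fun y => continuous_subtype_val.comp continuous_subtype_val
  have hji : ∀ y, Function.Injective (j y) := fun y =>
    Subtype.val_injective.comp Subtype.val_injective
  have hdend : ∀ y, Dend (univ : Set ↥(D y)) := fun y =>
    ⟨univ_nonempty, isClosed_univ, fun a _ b _ hab => by
      obtain ⟨c, hc⟩ := (hD y).2.2.2.2 a b hab
      exact ⟨c, mem_univ _, hc⟩⟩
  have hcent := fun y => exists_center (F := ↥(D y)) (j := j y) (hj y) (hji y) (hdend y)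
  choose c hc hgap using hcent
  refine ⟨fun y => j y (c y), ?_, fun y => ((c y : ↥(D y)) : ↥(f ⁻¹' {y})).2⟩
  rw [continuous_iff_continuousAt]
  intro y
  rw [Metric.continuousAt_iff]
  intro ε hε
  obtain ⟨γ, hγ, hγ'⟩ := hgap y (j y ⁻¹' Metric.ball (j y (c y)) (ε / 2))
    (Metric.isOpen_ball.preimage (hj y)) (Metric.mem_ball_self (by linarith))
  obtain ⟨δ, hδ, hδ'⟩ := hcr (min (ε / 2) (γ / 16)) (lt_min (by linarith) (by linarith)) y
  refine ⟨δ, hδ, fun {y'} hy' => ?_⟩
  obtain ⟨φ₀, hφ₀⟩ := hδ' y' hy'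
  let φ : ↥(D y) ≃ₜ ↥(D y') := restr φ₀ (hDφ y y' φ₀)
  have hφ : ∀ x, dist (j y x) (j y' (φ x)) < min (ε / 2) (γ / 16) := fun x => hφ₀ _
  have hε1 : ∀ x, dist (j y x) (j y' (φ x)) ≤ ε / 2 := fun x => (hφ x).le.trans (min_le_left _ _)
  have hε2 : ∀ x, dist (j y x) (j y' (φ x)) ≤ γ / 16 := fun x =>
    (hφ x).le.trans (min_le_right _ _)
  have himg : φ '' univ = univ := image_univ_of_surjective φ.surjective
  -- the center over `y'` is the image of a point near the center over `y`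
  set k : ↥(D y) := φ.symm (c y') with hk
  have hkc : φ k = c y' := φ.apply_symm_apply _
  have hnear : dist (j y k) (j y (c y)) < ε / 2 := by
    by_contra hfar
    have h1 := hγ' k (mem_univ _) hfar
    have h2 : rad (j y') univ (φ (c y)) ≤ rad (j y) univ (c y) + 4 * (γ / 16) := by
      have := rad_image_le (j := j y) (j' := j y') φ (C := univ) univ_nonempty
        (c := c y) (show (0 : ℝ) ≤ γ / 16 by linarith) hε2
      rwa [himg] at this
    have h3 : rad (j y) univ k ≤ rad (j y') univ (c y') + 4 * (γ / 16) := by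
      have := rad_image_le (j := j y') (j' := j y) φ.symm (C := univ) univ_nonempty
        (c := c y') (show (0 : ℝ) ≤ γ / 16 by linarith) (fun x => by
          have := hε2 (φ.symm x)
          rw [Homeomorph.apply_symm_apply] at this
          rw [dist_comm]
          exact this)
      rwa [show φ.symm '' univ = univ from
        image_univ_of_surjective φ.symm.surjective] at this
    have h5 : rad (j y') univ (c y') ≤ rad (j y') univ (φ (c y)) := by
      by_cases heq : φ (c y) = c y'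
      · rw [heq]
      · obtain ⟨γ', hγ'0, hγ''⟩ := hgap y' {φ (c y)}ᶜ isOpen_compl_singleton
          (fun h => heq h.symm)
        have := hγ'' (φ (c y)) (mem_univ _) (by simp)
        linarith
    linarith
  have h6 := hε1 k
  rw [hkc] at h6
  have h7 := dist_triangle_left (j y' (c y')) (j y (c y)) (j y k)
  show dist (j y' (c y')) (j y (c y)) < ε
  linarith

/-- Finite covering dimension at most `n`, by finite open covers. -/
def CovDimLE (n : ℕ) (X : Type) [TopologicalSpace X] : Prop :=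
  ∀ 𝒰 : Finset (Set X), (∀ U ∈ 𝒰, IsOpen U) → ⋃₀ (↑𝒰 : Set (Set X)) = Set.univ →
    ∃ 𝒱 : Finset (Set X), (∀ V ∈ 𝒱, IsOpen V) ∧ ⋃₀ (↑𝒱 : Set (Set X)) = Set.univ ∧
      (∀ V ∈ 𝒱, ∃ U ∈ 𝒰, V ⊆ U) ∧
      ∀ 𝒮 : Finset (Set X), 𝒮 ⊆ 𝒱 → n + 1 < 𝒮.card → ⋂₀ (↑𝒮 : Set (Set X)) = ∅

theorem CovDimLE.of_section {n : ℕ} {X Y : Type} [TopologicalSpace X] [TopologicalSpace Y]
    (h : CovDimLE n X) {f : X → Y} (hf : Continuous f) {s : Y → X} (hs : Continuous s)
    (hfs : ∀ y, f (s y) = y) : CovDimLE n Y := by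
  classical
  intro 𝒰 h𝒰 hcov
  obtain ⟨𝒱, h1, h2, h3, h4⟩ := h (𝒰.image fun U => f ⁻¹' U)
    (by
      intro V' hV'
      obtain ⟨U, hU, rfl⟩ := Finset.mem_image.1 hV'
      exact (h𝒰 U hU).preimage hf)
    (by
      rw [eq_univ_iff_forall]
      intro x
      have hx : f x ∈ ⋃₀ (↑𝒰 : Set (Set Y)) := hcov ▸ mem_univ _
      obtain ⟨U, hU, hxU⟩ := hx
      exact ⟨f ⁻¹' U, Finset.mem_coe.2 (Finset.mem_image_of_mem _ hU), hxU⟩)
  refine ⟨𝒱.image fun V => s ⁻¹' V, ?_, ?_, ?_, ?_⟩
  · intro V' hV'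
    obtain ⟨V, hV, rfl⟩ := Finset.mem_image.1 hV'
    exact (h1 V hV).preimage hs
  · rw [eq_univ_iff_forall]
    intro y
    have hy : s y ∈ ⋃₀ (↑𝒱 : Set (Set X)) := h2 ▸ mem_univ _
    obtain ⟨V, hV, hyV⟩ := hy
    exact ⟨s ⁻¹' V, Finset.mem_coe.2 (Finset.mem_image_of_mem _ hV), hyV⟩
  · intro V' hV'
    obtain ⟨V, hV, rfl⟩ := Finset.mem_image.1 hV'
    obtain ⟨U', hU', hVU⟩ := h3 V hV
    obtain ⟨U, hU, rfl⟩ := Finset.mem_image.1 hU'
    refine ⟨U, hU, fun y hy => ?_⟩
    have := hVU hy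
    rwa [mem_preimage, hfs] at this
  · intro 𝒮 h𝒮 hcard
    obtain ⟨𝒯, h𝒯, rfl⟩ := Finset.subset_image_iff.1 h𝒮
    have h5 := h4 𝒯 h𝒯 (hcard.trans_le Finset.card_image_le)
    rw [eq_empty_iff_forall_notMem]
    intro y hy
    have : s y ∈ ⋂₀ (↑𝒯 : Set (Set X)) := by
      intro V hV
      exact hy (s ⁻¹' V) (Finset.mem_coe.2 (Finset.mem_image_of_mem _ hV))
    rw [h5] at this
    exact this

end Pool.Agent.Lib.MP_13800a_gt
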