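import Pool.Agent.Lib.MP_13800a_gt.Group

/-! TASK Chop: (CHOP) and (SMALL) of section 2. Norms are the `L²` operator norms. -/

set_option autoImplicit false

open scoped Matrix Kronecker Matrix.Norms.L2Operator
open Matrix

namespace Pool.Agent.CRC

section
variable {n : ℕ} {Q ι : Type} [TopologicalSpace Q] [Fintype ι] [DecidableEq ι]
  {ρ : Matrix ι ι ℂ} {τ : Q → Q} {Z : Set Q} {u v : Q → UI → MM ι}

/-- telescoping -/
private theorem chop_tele (f : ℕ → MM ι) (hf : ∀ j, IsUnit (f j)) (N : ℕ) :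
    ((List.range N).map (fun j => f j * (f (j + 1))⁻¹)).prod = f 0 * (f N)⁻¹ := by
  induction N with
  | zero =>
    simp only [List.range_zero, List.map_nil, List.prod_nil]
    rw [Matrix.mul_nonsing_inv _ ((Matrix.isUnit_iff_isUnit_det _).mp (hf 0))]
  | succ N ih =>
    rw [List.range_succ, List.map_append, List.prod_append, ih]
    simp only [List.map_cons, List.map_nil, List.prod_cons, List.prod_nil, mul_one]
    rw [Matrix.mul_assoc, ← Matrix.mul_assoc (f N)⁻¹,
      Matrix.nonsing_inv_mul _ ((Matrix.isUnit_iff_isUnit_det _).mp (hf N)), Matrix.one_mul]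

/-- a null-homotopic element is a product of elements close to `1` -/
theorem ht_chop [CompactSpace Q] (h : Ht ρ τ Z u (fun _ _ => 1)) {η : ℝ} (hη : 0 < η) :
    ∃ l : List (Q → UI → MM ι),
      (∀ c ∈ l, IsEl ρ τ Z c ∧ ∀ q t, ‖c q t - 1‖ ≤ η) ∧
      ∀ q t, u q t = (l.map (fun c => c q t)).prod := by
  obtain ⟨U, hU, hU0, hU1⟩ := h
  -- the two variable quotient
  have hc1 : Continuous fun x : (Q × UI) × (UI × UI) => U (x.1.1, x.2.1) x.1.2 := by
    have : Continuous fun x : (Q × UI) × (UI × UI) => (((x.1.1, x.2.1), x.1.2) : (Q × UI) × UI) := by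
      fun_prop
    exact hU.cont.comp this
  have hc2 : Continuous fun x : (Q × UI) × (UI × UI) => (U (x.1.1, x.2.2) x.1.2)⁻¹ := by
    have : Continuous fun x : (Q × UI) × (UI × UI) => (((x.1.1, x.2.2), x.1.2) : (Q × UI) × UI) := by
      fun_prop
    exact hU.inv.cont.comp this
  have hF : Continuous fun x : (Q × UI) × (UI × UI) =>
      ‖U (x.1.1, x.2.1) x.1.2 * (U (x.1.1, x.2.2) x.1.2)⁻¹ - 1‖ :=
    ((hc1.mul hc2).sub continuous_const).norm
  have hδ : ∃ δ : ℝ, 0 < δ ∧ ∀ (q : Q) (t s s' : UI), |(s : ℝ) - s'| < δ →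
      ‖U (q, s) t * (U (q, s') t)⁻¹ - 1‖ ≤ η := by
    set K : Set ((Q × UI) × (UI × UI)) :=
      {x | η ≤ ‖U (x.1.1, x.2.1) x.1.2 * (U (x.1.1, x.2.2) x.1.2)⁻¹ - 1‖} with hK
    have hKc : IsCompact K := (isClosed_le continuous_const hF).isCompact
    rcases K.eq_empty_or_nonempty with he | hne
    · refine ⟨1, one_pos, fun q t s s' _ => ?_⟩
      by_contra hcon
      push Not at hcon
      have : ((q, t), (s, s')) ∈ K := hcon.le
      rw [he] at this
      exact this
    · have hcd : Continuous fun x : (Q × UI) × (UI × UI) => |(x.2.1 : ℝ) - x.2.2| := by fun_prop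
      obtain ⟨x, hx, hmin⟩ := hKc.exists_isMinOn hne hcd.continuousOn
      refine ⟨|(x.2.1 : ℝ) - x.2.2|, ?_, fun q t s s' hs => ?_⟩
      · rw [abs_pos]
        intro h0
        have h1 : x.2.1 = x.2.2 := Subtype.ext (sub_eq_zero.mp h0)
        have h2 : η ≤ ‖U (x.1.1, x.2.1) x.1.2 * (U (x.1.1, x.2.2) x.1.2)⁻¹ - 1‖ := hx
        rw [h1, Matrix.mul_nonsing_inv _ ((Matrix.isUnit_iff_isUnit_det _).mp (hU.unit _ _)),
          sub_self, norm_zero] at h2
        exact absurd h2 (not_le.mpr hη)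
      · by_contra hcon
        push Not at hcon
        have hmem : ((q, t), (s, s')) ∈ K := hcon.le
        have := hmin hmem
        exact absurd hs (not_lt.mpr this)
  obtain ⟨δ, hδ0, hδ⟩ := hδ
  obtain ⟨N, hN⟩ := exists_nat_gt (1 / δ)
  have hNpos : (0 : ℝ) < N := (by positivity : (0 : ℝ) ≤ 1 / δ).trans_lt hN
  let s : ℕ → UI := fun j => Set.projIcc (0 : ℝ) 1 zero_le_one ((j : ℝ) / N)
  have hs0 : s 0 = 0 := by
    show Set.projIcc (0 : ℝ) 1 zero_le_one (((0 : ℕ) : ℝ) / N) = 0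
    rw [Nat.cast_zero, zero_div]
    exact Set.projIcc_left _
  have hsN : s N = 1 := by
    show Set.projIcc (0 : ℝ) 1 zero_le_one ((N : ℝ) / N) = 1
    rw [div_self hNpos.ne']
    exact Set.projIcc_right _
  have hsd : ∀ j, |(s j : ℝ) - s (j + 1)| < δ := by
    intro j
    have h1 : |(s j : ℝ) - s (j + 1)| ≤ |(j : ℝ) / N - ((j + 1 : ℕ) : ℝ) / N| :=
      Set.abs_projIcc_sub_projIcc zero_le_one
    have h2 : (j : ℝ) / N - ((j + 1 : ℕ) : ℝ) / N = -(1 / N) := by
      push_cast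
      field_simp
      ring
    have h3 : (0 : ℝ) < 1 / N := by positivity
    have h4 : |(j : ℝ) / N - ((j + 1 : ℕ) : ℝ) / N| = 1 / N := by
      rw [h2, abs_neg, abs_of_pos h3]
    rw [h4] at h1
    refine lt_of_le_of_lt h1 ?_
    rw [div_lt_iff₀ hδ0] at hN
    rw [div_lt_iff₀ hNpos]
    linarith
  refine ⟨(List.range N).map (fun j q t => U (q, s j) t * (U (q, s (j + 1)) t)⁻¹), ?_, ?_⟩
  · intro c hc
    rw [List.mem_map] at hc
    obtain ⟨j, -, rfl⟩ := hc
    exact ⟨(hU.slice (s j)).mul (hU.slice (s (j + 1))).inv, fun q t => hδ q t _ _ (hsd j)⟩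
  · intro q t
    rw [List.map_map]
    have h1 := chop_tele (fun j => U (q, s j) t) (fun j => hU.unit _ _) N
    have h2 : ((fun c : Q → UI → MM ι => c q t) ∘
        fun (j : ℕ) (q : Q) (t : UI) => U (q, s j) t * (U (q, s (j + 1)) t)⁻¹) =
        fun j => U (q, s j) t * (U (q, s (j + 1)) t)⁻¹ := rfl
    rw [h2, h1]
    show u q t = U (q, s 0) t * (U (q, s N) t)⁻¹
    rw [hs0, hsN, hU0, hU1, inv_one, mul_one]

private theorem chop_unit {a : MM ι} (h : ‖a‖ < 1) : IsUnit (1 + a) := by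
  have h1 : ‖-a‖ < 1 := by rwa [norm_neg]
  have h2 := (Units.oneSub (-a) h1).isUnit
  rwa [Units.val_oneSub, sub_neg_eq_add] at h2

/-- the element `1 + s (c - 1)` -/
theorem isEl_segment (hu : IsEl ρ τ Z u) (h : ∀ q t, ‖u q t - 1‖ < 1) (s : UI) :
    IsEl ρ τ Z (fun q t => 1 + ((s : ℝ) : ℂ) • (u q t - 1)) where
  cont := by
    have := hu.cont
    fun_prop
  unit := by
    intro q t
    apply chop_unit
    rw [norm_smul, Complex.norm_real, Real.norm_of_nonneg s.2.1]
    calc (s : ℝ) * ‖u q t - 1‖ ≤ 1 * ‖u q t - 1‖ :=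
          mul_le_mul_of_nonneg_right s.2.2 (norm_nonneg _)
      _ < 1 := by rw [one_mul]; exact h q t
  zero := by
    intro q
    obtain ⟨a, ha⟩ := hu.zero q
    refine ⟨1 + ((s : ℝ) : ℂ) • (a - 1), ?_⟩
    rw [amp_add, amp_smul, amp_sub, amp_one, ha]
  one := by
    intro q
    rw [hu.one, sub_self, smul_zero, add_zero]
  rel := by
    intro q hq t
    rw [hu.rel q hq, sub_self, smul_zero, add_zero]
  eqv := by
    intro q t
    rw [add_mul, mul_add, smul_mul_assoc, mul_smul_comm, sub_mul, mul_sub, hu.eqv, one_mul, mul_one]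

theorem mk_small (hρ : IsRep n ρ) (hu : IsEl ρ τ Z u) (h : ∀ q t, ‖u q t - 1‖ < 1) :
    KG.mk hρ hu = 0 := by
  have h1 : Ht ρ τ Z (fun q t => 1 + (((0 : UI) : ℝ) : ℂ) • (u q t - 1))
      (fun q t => 1 + (((1 : UI) : ℝ) : ℂ) • (u q t - 1)) := by
    apply Ht.of_path (fun s q t => 1 + ((s : ℝ) : ℂ) • (u q t - 1))
    · have h2 : Continuous fun p : (Q × UI) × UI => u p.1.1 p.2 := by
        have : Continuous fun p : (Q × UI) × UI => ((p.1.1, p.2) : Q × UI) := by fun_prop
        exact hu.cont.comp this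
      exact continuous_const.add ((Complex.continuous_ofReal.comp (continuous_subtype_val.comp
        (continuous_snd.comp continuous_fst))).smul (h2.sub continuous_const))
    · intro s
      exact isEl_segment hu h s
  have h0 : (fun (q : Q) (t : UI) => (1 : MM ι) + (((0 : UI) : ℝ) : ℂ) • (u q t - 1)) =
      fun _ _ => 1 := by
    funext q t
    simp
  have h2 : (fun (q : Q) (t : UI) => (1 : MM ι) + (((1 : UI) : ℝ) : ℂ) • (u q t - 1)) = u := by
    funext q t
    simp
  rw [h0, h2] at h1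
  rw [← KG.mk_one (τ := τ) (Z := Z) hρ]
  exact KG.mk_ht hρ hu IsEl.const_one h1.symm

theorem mk_near (hρ : IsRep n ρ) (hu : IsEl ρ τ Z u) (hv : IsEl ρ τ Z v)
    (h : ∀ q t, ‖(u q t)⁻¹ * v q t - 1‖ < 1) : KG.mk hρ hu = KG.mk hρ hv := by
  have h1 := mk_small hρ (hu.inv.mul hv) h
  rw [KG.mk_mul hρ hu.inv hv, KG.mk_inv hρ hu] at h1
  exact neg_add_eq_zero.mp h1

theorem isEl_list_prod (l : List (Q → UI → MM ι)) (hl : ∀ c ∈ l, IsEl ρ τ Z c) :
    IsEl ρ τ Z (fun q t => (l.map (fun c => c q t)).prod) := by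
  induction l with
  | nil => exact IsEl.const_one
  | cons a l ih =>
    have h1 := ih (fun c hc => hl c (List.mem_cons_of_mem _ hc))
    have h2 := (hl a List.mem_cons_self).mul h1
    simp only [List.map_cons, List.prod_cons]
    exact h2

theorem mk_list_prod_eq_zero (hρ : IsRep n ρ) (l : List (Q → UI → MM ι))
    (hl : ∀ c ∈ l, IsEl ρ τ Z c) (h0 : ∀ c (hc : c ∈ l), KG.mk hρ (hl c hc) = 0) :
    KG.mk hρ (isEl_list_prod l hl) = 0 := by
  induction l with
  | nil => exact KG.mk_one hρ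
  | cons a l ih =>
    have h1 := ih (fun c hc => hl c (List.mem_cons_of_mem _ hc))
      (fun c hc => h0 c (List.mem_cons_of_mem _ hc))
    have h2 := h0 a List.mem_cons_self
    have h3 := KG.mk_mul hρ (hl a List.mem_cons_self)
      (isEl_list_prod l (fun c hc => hl c (List.mem_cons_of_mem _ hc)))
    rw [h1, h2, add_zero] at h3
    rw [← h3]
    apply KG.mk_congr
    · rfl
    · intro q t
      rw [List.map_cons, List.prod_cons]

/-- unitary invariance of the norm, in the form used for averaging -/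
theorem norm_conj_amp (hρ : IsRep n ρ) (k : ℕ) (x : MM ι) :
    ‖(amp (ρ ^ k))⁻¹ * x * amp (ρ ^ k)‖ = ‖x‖ := by
  have h1 : amp (ρ ^ k) ∈ Matrix.unitaryGroup (ι × Fin 2) ℂ := amp_mem_unitary (pow_mem hρ.1 k)
  have h2 : (amp (ρ ^ k))⁻¹ = star (amp (ρ ^ k)) := by
    apply Matrix.inv_eq_left_inv
    exact Matrix.mem_unitaryGroup_iff'.mp h1
  have h3 : star (amp (ρ ^ k)) ∈ Matrix.unitaryGroup (ι × Fin 2) ℂ := Unitary.star_mem h1
  rw [h2]
  rw [CStarRing.norm_mul_mem_unitary _ h1, CStarRing.norm_mem_unitary_mul _ h3]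

end

end Pool.Agent.CRC
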