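import Pool.Agent.Lib.MP_13800a_gt.Defs

/-! Definitions for section 3 (finite Toeplitz sections): trigonometric polynomial elements,
Toeplitz matrices, twisted representations. -/

set_option autoImplicit false

open scoped Matrix Kronecker
open Matrix

namespace Pool.Agent.CRC

section
variable {Q ι : Type} [TopologicalSpace Q] [Fintype ι] [DecidableEq ι]

/-- `C m q t` (`m ∈ ℤ`) are the coefficients of a trigonometric polynomial of degree `≤ d` which
satisfies (coefficientwise) the conditions of an element over `Q × Circle`, `Circle` being rotated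
by `ζ_n^k`. -/
structure IsTP (n d k : ℕ) (ρ : Matrix ι ι ℂ) (τ : Q → Q) (Z : Set Q)
    (C : ℤ → Q → UI → MM ι) : Prop where
  cont : ∀ m, Continuous (fun p : Q × UI => C m p.1 p.2)
  supp : ∀ m : ℤ, (d : ℤ) < |m| → ∀ q t, C m q t = 0
  zero : ∀ m q, ∃ a : Matrix ι ι ℂ, C m q 0 = amp a
  one : ∀ m q, C m q 1 = if m = 0 then 1 else 0
  rel : ∀ m, ∀ q ∈ Z, ∀ t, C m q t = if m = 0 then 1 else 0
  eqv : ∀ (m : ℤ) (q : Q) (t : UI), (zt n ^ k) ^ m • (C m (τ q) t * amp ρ) = amp ρ * C m q t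

/-- value at `z` of the trigonometric polynomial with coefficients `C m`, `|m| ≤ d` -/
noncomputable def evTP (d : ℕ) (C : ℤ → MM ι) (z : ℂ) : MM ι :=
  ∑ m ∈ Finset.Icc (-(d : ℤ)) d, z ^ m • C m

/-- block Toeplitz matrix of size `N`, the `(a,b)` block is `C (b - a)` -/
def toep (N : ℕ) (C : ℤ → MM ι) : MM (ι × Fin N) :=
  Matrix.of fun p r => C (((r.1.2 : ℕ) : ℤ) - ((p.1.2 : ℕ) : ℤ)) (p.1.1, p.2) (r.1.1, r.2)

/-- constant block diagonal matrix -/
def cdiag (N : ℕ) (v : MM ι) : MM (ι × Fin N) :=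
  Matrix.of fun p r => if p.1.2 = r.1.2 then v (p.1.1, p.2) (r.1.1, r.2) else 0

/-- coordinate projection onto the blocks `a` with `s a` -/
noncomputable def prj (ι : Type) [DecidableEq ι] (N : ℕ) (s : ℕ → Prop) [DecidablePred s] :
    Matrix (ι × Fin N) (ι × Fin N) ℂ :=
  Matrix.diagonal fun p => if s (p.2 : ℕ) then 1 else 0

/-- the twisted representation `ρ ⊗ diag (ζ_n^{ka})` -/
noncomputable def tRep (n k N : ℕ) (ρ : Matrix ι ι ℂ) : Matrix (ι × Fin N) (ι × Fin N) ℂ :=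
  ρ ⊗ₖ Matrix.diagonal (fun a : Fin N => zt n ^ (k * (a : ℕ)))

/-- `B_N = diag(v) ∏ T_N(C_i)` -/
noncomputable def BN (N : ℕ) (v : MM ι) (l : List (ℤ → MM ι)) : MM (ι × Fin N) :=
  cdiag N v * (l.map (toep N)).prod

end

end Pool.Agent.CRC
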