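import Pool.Agent.Lib.MP_13800a_gt.Chop
import Pool.Agent.Lib.MP_13800a_gt.TP

/-! TASK CutBN: cutting `B_N` into its two corners (section 3). -/

set_option autoImplicit false

open scoped Matrix Kronecker Matrix.Norms.L2Operator
open Matrix

namespace Pool.Agent.CRC

section
variable {n d k : ℕ} {Q ι : Type} [TopologicalSpace Q] [Fintype ι] [DecidableEq ι]
  {ρ : Matrix ι ι ℂ} {τ : Q → Q} {Z : Set Q}

private theorem cutbn_isEl {u : Q → UI → MM ι} (hu : IsEl ρ τ Z u) (Φ : MM ι → MM ι)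
    (hc : Continuous Φ) (hamp : ∀ a : Matrix ι ι ℂ, ∃ b : Matrix ι ι ℂ, Φ (amp a) = amp b)
    (h1 : Φ 1 = 1)
    (heq : ∀ x y : MM ι, x * amp ρ = amp ρ * y → Φ x * amp ρ = amp ρ * Φ y)
    (hunit : ∀ q t, IsUnit (Φ (u q t))) : IsEl ρ τ Z (fun q t => Φ (u q t)) where
  cont := hc.comp hu.cont
  unit := hunit
  zero := by
    intro q
    obtain ⟨a, ha⟩ := hu.zero q
    obtain ⟨b, hb⟩ := hamp a
    exact ⟨b, by rw [ha, hb]⟩
  one := by intro q; rw [hu.one, h1]
  rel := by intro q hq t; rw [hu.rel q hq t, h1]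
  eqv := by intro q t; exact heq _ _ (hu.eqv q t)

private theorem cutbn_amp_diagonal (f : ι → ℂ) :
    amp (Matrix.diagonal f) = Matrix.diagonal (fun x : ι × Fin 2 => f x.1) := by
  unfold amp
  rw [← Matrix.diagonal_one, Matrix.diagonal_kronecker_diagonal]
  congr 1
  ext x
  simp

private theorem cutbn_prj_mul (N : ℕ) (s s' : ℕ → Prop) [DecidablePred s] [DecidablePred s'] :
    prj ι N s * prj ι N s' = prj ι N (fun a => s a ∧ s' a) := by
  unfold prj
  rw [Matrix.diagonal_mul_diagonal]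
  congr 1
  ext x
  by_cases h : s (x.2 : ℕ) <;> by_cases h' : s' (x.2 : ℕ) <;> simp [h, h']

private theorem cutbn_unit_left {A B : MM ι} (h : IsUnit (A * B)) : IsUnit A ∧ IsUnit B := by
  rw [Matrix.isUnit_iff_isUnit_det, Matrix.det_mul, IsUnit.mul_iff] at h
  rw [Matrix.isUnit_iff_isUnit_det, Matrix.isUnit_iff_isUnit_det]
  exact h

/-- Cutting: with `Pt, Pm, Pb` the projections on the blocks `a < D`, `D ≤ a < N - D`,
`N - D ≤ a`, `B' = (1 - Pm) B + Pm = (1 + (Pt+Pb) B Pm) F R`, `F = Pt B Pt + (1 - Pt)`,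
`R = Pb B Pb + (1 - Pb)`; all are elements and `mk B = mk F + mk R`. -/
theorem cut_BN {N D : ℕ} (hND : 4 * D + 4 ≤ N) {ρN : Matrix (ι × Fin N) (ι × Fin N) ℂ}
    (hρN : IsRep n ρN)
    (hcomm : ∀ (s : ℕ → Prop) [DecidablePred s], prj ι N s * ρN = ρN * prj ι N s)
    {B : Q → UI → MM (ι × Fin N)} (hB : IsEl ρN τ Z B)
    (hband : ∀ q t (a b : Fin N), (D : ℤ) < |((b : ℕ) : ℤ) - ((a : ℕ) : ℤ)| →
      ∀ (i j : ι) (x y : Fin 2), B q t ((i, a), x) ((j, b), y) = 0)
    (hnear : ∀ q t, ‖(B q t)⁻¹‖ *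
      ‖amp (prj ι N (fun a => D ≤ a ∧ a + D < N)) * (B q t - 1)‖ < 1) :
    ∃ (hF : IsEl ρN τ Z (fun q t => amp (prj ι N (fun a => a < D)) * B q t *
        amp (prj ι N (fun a => a < D)) + amp (1 - prj ι N (fun a => a < D))))
      (hR : IsEl ρN τ Z (fun q t => amp (prj ι N (fun a => N ≤ a + D)) * B q t *
        amp (prj ι N (fun a => N ≤ a + D)) + amp (1 - prj ι N (fun a => N ≤ a + D)))),
      KG.mk hρN hB = KG.mk hρN hF + KG.mk hρN hR := by
  -- the projections
  obtain ⟨pt, hpt⟩ : ∃ p, p = prj ι N (fun a => a < D) := ⟨_, rfl⟩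
  obtain ⟨pb, hpb⟩ : ∃ p, p = prj ι N (fun a => N ≤ a + D) := ⟨_, rfl⟩
  obtain ⟨pm, hpm⟩ : ∃ p, p = prj ι N (fun a => D ≤ a ∧ a + D < N) := ⟨_, rfl⟩
  have htt : pt * pt = pt := by
    rw [hpt, cutbn_prj_mul]; unfold prj; congr 1; ext x; simp
  have hbb : pb * pb = pb := by
    rw [hpb, cutbn_prj_mul]; unfold prj; congr 1; ext x; simp
  have hmm : pm * pm = pm := by
    rw [hpm, cutbn_prj_mul]; unfold prj; congr 1; ext x; simp
  have hzero : ∀ (s s' : ℕ → Prop) [DecidablePred s] [DecidablePred s'],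
      (∀ a, ¬ (s a ∧ s' a)) → prj ι N s * prj ι N s' = 0 := by
    intro s s' _ _ h
    rw [cutbn_prj_mul]
    unfold prj
    rw [← Matrix.diagonal_zero]
    congr 1
    ext x
    simp only [h (x.2 : ℕ), if_false]
  have htb : pt * pb = 0 := by rw [hpt, hpb]; apply hzero; intro a; omega
  have hbt : pb * pt = 0 := by rw [hpt, hpb]; apply hzero; intro a; omega
  have htm : pt * pm = 0 := by rw [hpt, hpm]; apply hzero; intro a; omega
  have hmt : pm * pt = 0 := by rw [hpt, hpm]; apply hzero; intro a; omega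
  have hbm : pb * pm = 0 := by rw [hpb, hpm]; apply hzero; intro a; omega
  have hmb : pm * pb = 0 := by rw [hpb, hpm]; apply hzero; intro a; omega
  have hsum : pt + pm + pb = 1 := by
    rw [hpt, hpm, hpb]
    unfold prj
    rw [Matrix.diagonal_add, Matrix.diagonal_add, ← Matrix.diagonal_one]
    congr 1
    ext x
    by_cases h1 : (x.2 : ℕ) < D
    · have h2 : ¬ D ≤ (x.2 : ℕ) := by omega
      have h3 : ¬ N ≤ (x.2 : ℕ) + D := by omega
      simp [h1, h2, h3]
    · have h2 : D ≤ (x.2 : ℕ) := by omega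
      by_cases h3 : (x.2 : ℕ) + D < N
      · have h4 : ¬ N ≤ (x.2 : ℕ) + D := by omega
        simp [h1, h2, h3, h4]
      · have h4 : N ≤ (x.2 : ℕ) + D := by omega
        simp [h1, h2, h3, h4]
  have hct : pt * ρN = ρN * pt := by rw [hpt]; exact hcomm _
  have hcb : pb * ρN = ρN * pb := by rw [hpb]; exact hcomm _
  have hcm : pm * ρN = ρN * pm := by rw [hpm]; exact hcomm _
  -- amplified versions
  obtain ⟨Pt, hPt⟩ : ∃ P, P = amp pt := ⟨_, rfl⟩
  obtain ⟨Pb, hPb⟩ : ∃ P, P = amp pb := ⟨_, rfl⟩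
  obtain ⟨Pm, hPm⟩ : ∃ P, P = amp pm := ⟨_, rfl⟩
  have Htt : Pt * Pt = Pt := by rw [hPt, ← amp_mul, htt]
  have Hbb : Pb * Pb = Pb := by rw [hPb, ← amp_mul, hbb]
  have Hmm : Pm * Pm = Pm := by rw [hPm, ← amp_mul, hmm]
  have Htb : Pt * Pb = 0 := by rw [hPt, hPb, ← amp_mul, htb, amp_zero]
  have Hbt : Pb * Pt = 0 := by rw [hPt, hPb, ← amp_mul, hbt, amp_zero]
  have Htm : Pt * Pm = 0 := by rw [hPt, hPm, ← amp_mul, htm, amp_zero]
  have Hmt : Pm * Pt = 0 := by rw [hPt, hPm, ← amp_mul, hmt, amp_zero]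
  have Hbm : Pb * Pm = 0 := by rw [hPb, hPm, ← amp_mul, hbm, amp_zero]
  have Hmb : Pm * Pb = 0 := by rw [hPb, hPm, ← amp_mul, hmb, amp_zero]
  have Hsum : Pt + Pm + Pb = 1 := by
    rw [hPt, hPm, hPb, ← amp_add, ← amp_add, hsum, amp_one]
  have Hct : Pt * amp ρN = amp ρN * Pt := by rw [hPt, ← amp_mul, ← amp_mul, hct]
  have Hcb : Pb * amp ρN = amp ρN * Pb := by rw [hPb, ← amp_mul, ← amp_mul, hcb]
  have Hcm : Pm * amp ρN = amp ρN * Pm := by rw [hPm, ← amp_mul, ← amp_mul, hcm]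
  -- band condition
  have hdiag : ∀ (s s' : ℕ → Prop) [DecidablePred s] [DecidablePred s'] (q : Q) (t : UI),
      (∀ a b : Fin N, s a → s' b → (D : ℤ) < |((b : ℕ) : ℤ) - ((a : ℕ) : ℤ)|) →
      amp (prj ι N s) * B q t * amp (prj ι N s') = 0 := by
    intro s s' _ _ q t h
    unfold prj
    rw [cutbn_amp_diagonal, cutbn_amp_diagonal]
    ext ⟨⟨i, a⟩, x⟩ ⟨⟨j, b⟩, y⟩
    rw [Matrix.mul_diagonal, Matrix.diagonal_mul]
    by_cases ha : s (a : ℕ)
    · by_cases hb : s' (b : ℕ)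
      · rw [hband q t a b (h a b ha hb)]
        simp
      · simp [hb]
    · simp [ha]
  have Htb0 : ∀ q t, Pt * B q t * Pb = 0 := by
    intro q t
    rw [hPt, hPb, hpt, hpb]
    apply hdiag
    intro a b ha hb
    have := b.isLt
    rw [lt_abs]
    left
    omega
  have Hbt0 : ∀ q t, Pb * B q t * Pt = 0 := by
    intro q t
    rw [hPt, hPb, hpt, hpb]
    apply hdiag
    intro a b ha hb
    have := a.isLt
    rw [lt_abs]
    right
    omega
  -- `B'`
  have hB'unit : ∀ q t, ‖(B q t)⁻¹ * (B q t - Pm * (B q t - 1)) - 1‖ < 1 := by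
    intro q t
    have hu := hB.unit q t
    have h1 : (B q t)⁻¹ * B q t = 1 := Matrix.nonsing_inv_mul _
      ((Matrix.isUnit_iff_isUnit_det _).1 hu)
    have h2 : (B q t)⁻¹ * (B q t - Pm * (B q t - 1)) - 1 =
        -((B q t)⁻¹ * (Pm * (B q t - 1))) := by
      rw [mul_sub, h1]; abel
    rw [h2, norm_neg]
    refine lt_of_le_of_lt (norm_mul_le _ _) ?_
    rw [hPm, hpm]
    exact hnear q t
  have hB'U : ∀ q t, IsUnit (B q t - Pm * (B q t - 1)) := by
    intro q t
    have hu := hB.unit q t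
    have h1 : (B q t) * (B q t)⁻¹ = 1 := Matrix.mul_nonsing_inv _
      ((Matrix.isUnit_iff_isUnit_det _).1 hu)
    have h2 : B q t - Pm * (B q t - 1) =
        B q t * (1 - (1 - (B q t)⁻¹ * (B q t - Pm * (B q t - 1)))) := by
      rw [sub_sub_cancel, ← mul_assoc, h1, one_mul]
    rw [h2]
    refine hu.mul (isUnit_one_sub_of_norm_lt_one ?_)
    rw [norm_sub_rev]
    exact hB'unit q t
  have hB' : IsEl ρN τ Z (fun q t => B q t - Pm * (B q t - 1)) := by
    refine cutbn_isEl hB (fun x => x - Pm * (x - 1)) ?_ ?_ ?_ ?_ hB'U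
    · exact continuous_id.sub (continuous_const.mul (continuous_id.sub continuous_const))
    · intro a
      refine ⟨a - pm * (a - 1), ?_⟩
      rw [amp_sub, amp_mul, amp_sub, amp_one, hPm]
    · simp
    · intro x y hxy
      have : (x - 1) * amp ρN = amp ρN * (y - 1) := by rw [sub_mul, hxy, mul_sub]; simp
      calc (x - Pm * (x - 1)) * amp ρN = x * amp ρN - Pm * ((x - 1) * amp ρN) := by
            rw [sub_mul, mul_assoc]
        _ = amp ρN * y - (Pm * amp ρN) * (y - 1) := by rw [this, hxy, mul_assoc]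
        _ = amp ρN * (y - Pm * (y - 1)) := by rw [Hcm, mul_assoc, ← mul_sub]
  -- the unipotent factor
  have hX2 : ∀ (x y : MM (ι × Fin N)), (Pt + Pb) * x * Pm * ((Pt + Pb) * y * Pm) = 0 := by
    intro x y
    have : Pm * (Pt + Pb) = 0 := by rw [mul_add, Hmt, Hmb, add_zero]
    calc (Pt + Pb) * x * Pm * ((Pt + Pb) * y * Pm)
        = (Pt + Pb) * x * (Pm * (Pt + Pb)) * y * Pm := by simp only [mul_assoc]
      _ = 0 := by rw [this]; simp
  have hVunit : ∀ (c : ℂ) (x : MM (ι × Fin N)), IsUnit (1 + c • ((Pt + Pb) * x * Pm)) := by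
    intro c x
    have h1 : (1 + c • ((Pt + Pb) * x * Pm)) * (1 - c • ((Pt + Pb) * x * Pm)) = 1 := by
      rw [add_mul, mul_sub, mul_sub, smul_mul_smul_comm, hX2]; simp
    have h2 : (1 - c • ((Pt + Pb) * x * Pm)) * (1 + c • ((Pt + Pb) * x * Pm)) = 1 := by
      rw [sub_mul, mul_add, mul_add, smul_mul_smul_comm, hX2]; simp
    exact ⟨⟨_, _, h1, h2⟩, rfl⟩
  have hVs : ∀ c : ℂ, IsEl ρN τ Z (fun q t => 1 + c • ((Pt + Pb) * B q t * Pm)) := by
    intro c
    refine cutbn_isEl hB (fun x => 1 + c • ((Pt + Pb) * x * Pm)) ?_ ?_ ?_ ?_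
      (fun q t => hVunit c _)
    · exact continuous_const.add (((continuous_const.mul continuous_id).mul
        continuous_const).const_smul c)
    · intro a
      refine ⟨1 + c • ((pt + pb) * a * pm), ?_⟩
      rw [amp_add, amp_one, amp_smul, amp_mul, amp_mul, amp_add, hPm, hPt, hPb]
    · show 1 + c • ((Pt + Pb) * 1 * Pm) = 1
      rw [mul_one, add_mul, Htm, Hbm]; simp
    · intro x y hxy
      have h1 : (Pt + Pb) * amp ρN = amp ρN * (Pt + Pb) := by rw [add_mul, mul_add, Hct, Hcb]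
      calc (1 + c • ((Pt + Pb) * x * Pm)) * amp ρN
          = amp ρN + c • ((Pt + Pb) * x * (Pm * amp ρN)) := by
            rw [add_mul, one_mul, smul_mul_assoc, mul_assoc ((Pt + Pb) * x)]
        _ = amp ρN + c • ((Pt + Pb) * (x * amp ρN) * Pm) := by
            rw [Hcm]; simp only [mul_assoc]
        _ = amp ρN + c • (((Pt + Pb) * amp ρN) * y * Pm) := by
            rw [hxy]; simp only [mul_assoc]
        _ = amp ρN * (1 + c • ((Pt + Pb) * y * Pm)) := by
            rw [h1, mul_add (amp ρN) 1, mul_one, mul_smul_comm]; simp only [mul_assoc]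
  have hV0 : KG.mk hρN (hVs 1) = 0 := by
    have hht : Ht ρN τ Z (fun q t => 1 + (((0 : UI) : ℝ) : ℂ) • ((Pt + Pb) * B q t * Pm))
        (fun q t => 1 + (((1 : UI) : ℝ) : ℂ) • ((Pt + Pb) * B q t * Pm)) := by
      refine Ht.of_path (fun (s : UI) q t => 1 + (((s : ℝ) : ℂ)) • ((Pt + Pb) * B q t * Pm)) ?_
        (fun s => hVs _)
      refine continuous_const.add ?_
      have h1 : Continuous (fun p : (Q × UI) × UI => (((p.1.2 : UI) : ℝ) : ℂ)) := by fun_prop
      have h2 : Continuous (fun p : (Q × UI) × UI => B p.1.1 p.2) :=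
        hB.cont.comp (f := fun p : (Q × UI) × UI => (p.1.1, p.2)) (by fun_prop)
      exact h1.smul ((continuous_const.mul h2).mul continuous_const)
    have h1 := KG.mk_ht hρN hht.left hht.right hht
    have h2 : KG.mk hρN hht.left = 0 := by
      rw [← KG.mk_one (τ := τ) (Z := Z) hρN]
      apply KG.mk_congr _ _ _ _ rfl
      intro q t
      simp
    have h3 : KG.mk hρN (hVs 1) = KG.mk hρN hht.right := by
      apply KG.mk_congr _ _ _ _ rfl
      intro q t
      simp
    rw [h3, ← h1, h2]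
  -- `F` and `R`
  have hfac : ∀ q t, B q t - Pm * (B q t - 1) = (1 + (1 : ℂ) • ((Pt + Pb) * B q t * Pm)) *
      ((Pt * B q t * Pt + amp (1 - pt)) * (Pb * B q t * Pb + amp (1 - pb))) := by
    intro q t
    have e1 : amp (1 - pt) = Pm + Pb := by
      rw [amp_sub, amp_one, ← hPt, ← Hsum]; abel
    have e2 : amp (1 - pb) = Pt + Pm := by
      rw [amp_sub, amp_one, ← hPb, ← Hsum]; abel
    have e3 : (Pt * B q t * Pt + amp (1 - pt)) * (Pb * B q t * Pb + amp (1 - pb)) =
        Pt * B q t * Pt + Pb * B q t * Pb + Pm := by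
      rw [e1, e2]
      have a1 : Pt * B q t * Pt * (Pb * B q t * Pb) = 0 := by
        calc Pt * B q t * Pt * (Pb * B q t * Pb) = Pt * B q t * (Pt * Pb) * B q t * Pb := by
              simp only [mul_assoc]
          _ = 0 := by rw [Htb]; simp
      have a2 : Pt * B q t * Pt * (Pt + Pm) = Pt * B q t * Pt := by
        rw [mul_add, mul_assoc (Pt * B q t), Htt, mul_assoc (Pt * B q t), Htm]; simp
      have a3 : (Pm + Pb) * (Pb * B q t * Pb) = Pb * B q t * Pb := by
        rw [← mul_assoc, ← mul_assoc, add_mul, Hmb, Hbb, zero_add]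
      have a4 : (Pm + Pb) * (Pt + Pm) = Pm := by
        rw [add_mul, mul_add, mul_add, Hmt, Hmm, Hbt, Hbm]; simp
      rw [add_mul, mul_add, a1, a2, mul_add, a3, a4]
      abel
    rw [e3, one_smul, add_mul, one_mul]
    have a5 : (Pt + Pb) * B q t * Pm * (Pt * B q t * Pt + Pb * B q t * Pb + Pm) =
        (Pt + Pb) * B q t * Pm := by
      rw [mul_assoc ((Pt + Pb) * B q t)]
      congr 1
      rw [mul_add, mul_add, ← mul_assoc, ← mul_assoc, Hmt, ← mul_assoc, ← mul_assoc, Hmb, Hmm]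
      simp
    rw [a5]
    have a6 : B q t = (Pt + Pm + Pb) * B q t * (Pt + Pm + Pb) := by rw [Hsum]; simp
    have a7 : Pt * B q t = Pt * B q t * Pt + Pt * B q t * Pm := by
      calc Pt * B q t = Pt * B q t * (Pt + Pm + Pb) := by rw [Hsum, mul_one]
        _ = _ := by rw [mul_add, mul_add, Htb0, add_zero]
    have a8 : Pb * B q t = Pb * B q t * Pb + Pb * B q t * Pm := by
      calc Pb * B q t = Pb * B q t * (Pt + Pm + Pb) := by rw [Hsum, mul_one]
        _ = _ := by rw [mul_add, mul_add, Hbt0, zero_add]; abel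
    have a9 : B q t - Pm * (B q t - 1) = Pt * B q t + Pb * B q t + Pm := by
      calc B q t - Pm * (B q t - 1) = (Pt + Pm + Pb) * B q t - Pm * (B q t - 1) := by
            rw [Hsum, one_mul]
        _ = _ := by rw [mul_sub, mul_one, add_mul, add_mul]; abel
    rw [a9, add_mul (Pt) (Pb), add_mul]
    nth_rewrite 1 [a7]
    nth_rewrite 1 [a8]
    abel
  have hFR : ∀ q t, IsUnit (Pt * B q t * Pt + amp (1 - pt)) ∧
      IsUnit (Pb * B q t * Pb + amp (1 - pb)) := by
    intro q t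
    have h1 := hB'U q t
    rw [hfac q t] at h1
    exact cutbn_unit_left (cutbn_unit_left h1).2
  have hcorner : ∀ (p : Matrix (ι × Fin N) (ι × Fin N) ℂ) (P : MM (ι × Fin N)), P = amp p →
      p * p = p → p * ρN = ρN * p → (∀ q t, IsUnit (P * B q t * P + amp (1 - p))) →
      IsEl ρN τ Z (fun q t => P * B q t * P + amp (1 - p)) := by
    intro p P hP hpp hpc hun
    have HP : P * P = P := by rw [hP, ← amp_mul, hpp]
    have Hc : P * amp ρN = amp ρN * P := by rw [hP, ← amp_mul, ← amp_mul, hpc]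
    have e1 : amp (1 - p) = 1 - P := by rw [amp_sub, amp_one, hP]
    refine cutbn_isEl hB (fun x => P * x * P + amp (1 - p)) ?_ ?_ ?_ ?_ hun
    · exact ((continuous_const.mul continuous_id).mul continuous_const).add continuous_const
    · intro a
      refine ⟨p * a * p + (1 - p), ?_⟩
      rw [amp_add, amp_mul, amp_mul, hP]
    · show P * 1 * P + amp (1 - p) = 1
      rw [mul_one, HP, e1]; abel
    · intro x y hxy
      show (P * x * P + amp (1 - p)) * amp ρN = amp ρN * (P * y * P + amp (1 - p))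
      rw [e1]
      calc (P * x * P + (1 - P)) * amp ρN
          = P * x * (P * amp ρN) + (amp ρN - P * amp ρN) := by
            rw [add_mul, sub_mul, one_mul, mul_assoc (P * x)]
        _ = P * (x * amp ρN) * P + (amp ρN - amp ρN * P) := by rw [Hc]; simp only [mul_assoc]
        _ = (P * amp ρN) * y * P + (amp ρN - amp ρN * P) := by rw [hxy]; simp only [mul_assoc]
        _ = amp ρN * (P * y * P + (1 - P)) := by
            rw [Hc, mul_add, mul_sub, mul_one]; simp only [mul_assoc]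
  have hF := hcorner pt Pt hPt htt hct (fun q t => (hFR q t).1)
  have hR := hcorner pb Pb hPb hbb hcb (fun q t => (hFR q t).2)
  have hmain : KG.mk hρN hB = KG.mk hρN hF + KG.mk hρN hR := by
    rw [mk_near hρN hB hB' hB'unit, ← KG.mk_mul hρN hF hR]
    have h1 := KG.mk_mul hρN (hVs 1) (hF.mul hR)
    rw [hV0, zero_add] at h1
    rw [← h1]
    exact KG.mk_congr _ _ _ _ rfl hfac
  subst hPt hPb hPm
  subst hpt hpb hpm
  exact ⟨hF, hR, hmain⟩

end

end Pool.Agent.CRC
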