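import Mathlib

/-!
# MP_13800a_gt (frozen statement S12786): definitions

`MM ι`     : complex matrices indexed by `ι × Fin 2`;
`amp a`    : `a ⊗ 1₂`;
`IsRep`    : unitary `ρ` with `ρ ^ n = 1`;
`IsEl`     : elements (mod 2 K-theory cycles);
`Null`     : stable null-homotopies;
`KObj`     : objects `(ι, ρ, u)`.
-/

set_option autoImplicit false

open scoped Matrix Kronecker
open Matrix

namespace Pool.Agent.CRC

/-- the unit interval as a type -/
abbrev UI : Type := ↥unitInterval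

/-- doubled square matrices -/
abbrev MM (ι : Type) : Type := Matrix (ι × Fin 2) (ι × Fin 2) ℂ

/-- amplification `a ⊗ 1₂` -/
noncomputable def amp {ι κ : Type} (a : Matrix ι κ ℂ) : Matrix (ι × Fin 2) (κ × Fin 2) ℂ :=
  a ⊗ₖ (1 : Matrix (Fin 2) (Fin 2) ℂ)

/-- block sum of (rectangular) matrices, used for representations -/
def dg {ι κ ι' κ' : Type} (a : Matrix ι ι' ℂ) (b : Matrix κ κ' ℂ) :
    Matrix (ι ⊕ κ) (ι' ⊕ κ') ℂ :=
  Matrix.fromBlocks a 0 0 b

/-- block sum of doubled matrices -/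
def bs {ι κ : Type} (u : MM ι) (v : MM κ) : MM (ι ⊕ κ) :=
  (Matrix.fromBlocks u 0 0 v).submatrix (Equiv.sumProdDistrib ι κ (Fin 2))
    (Equiv.sumProdDistrib ι κ (Fin 2))

/-- unitary matrices of order (dividing) `n` -/
def IsRep (n : ℕ) {ι : Type} [Fintype ι] [DecidableEq ι] (ρ : Matrix ι ι ℂ) : Prop :=
  ρ ∈ Matrix.unitaryGroup ι ℂ ∧ ρ ^ n = 1

/-- elements over `(Q, τ, Z)` with representation `ρ` -/
structure IsEl {Q ι : Type} [TopologicalSpace Q] [Fintype ι] [DecidableEq ι]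
    (ρ : Matrix ι ι ℂ) (τ : Q → Q) (Z : Set Q) (u : Q → UI → MM ι) : Prop where
  cont : Continuous (fun p : Q × UI => u p.1 p.2)
  unit : ∀ q t, IsUnit (u q t)
  zero : ∀ q, ∃ a : Matrix ι ι ℂ, u q 0 = amp a
  one : ∀ q, u q 1 = 1
  rel : ∀ q ∈ Z, ∀ t, u q t = 1
  eqv : ∀ q t, u (τ q) t * amp ρ = amp ρ * u q t

/-- homotopies of elements: `U` is an element over `Q × UI` -/
def IsHt {Q ι : Type} [TopologicalSpace Q] [Fintype ι] [DecidableEq ι]
    (ρ : Matrix ι ι ℂ) (τ : Q → Q) (Z : Set Q) (U : Q × UI → UI → MM ι)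
    (u v : Q → UI → MM ι) : Prop :=
  IsEl ρ (Prod.map τ id) (Z ×ˢ (Set.univ : Set UI)) U ∧
    (∀ q t, U (q, 0) t = u q t) ∧ (∀ q t, U (q, 1) t = v q t)

/-- existence of a homotopy -/
def Ht {Q ι : Type} [TopologicalSpace Q] [Fintype ι] [DecidableEq ι]
    (ρ : Matrix ι ι ℂ) (τ : Q → Q) (Z : Set Q) (u v : Q → UI → MM ι) : Prop :=
  ∃ U : Q × UI → UI → MM ι, IsHt ρ τ Z U u v

/-- `u` is stably null-homotopic: after adding the element `1` on some representation of order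
`n` it becomes homotopic to `1`. -/
def Null (n : ℕ) {Q ι : Type} [TopologicalSpace Q] [Fintype ι] [DecidableEq ι]
    (ρ : Matrix ι ι ℂ) (τ : Q → Q) (Z : Set Q) (u : Q → UI → MM ι) : Prop :=
  ∃ (κ : Type) (_ : Fintype κ) (_ : DecidableEq κ) (σ : Matrix κ κ ℂ)
    (U : Q × UI → UI → MM (ι ⊕ κ)), IsRep n σ ∧
    IsHt (dg ρ σ) τ Z U (fun q t => bs (u q t) (1 : MM κ)) (fun _ _ => 1)

/-- objects of the category defining the group `KG n τ Z` -/
structure KObj (n : ℕ) {Q : Type} [TopologicalSpace Q] (τ : Q → Q) (Z : Set Q) : Type 1 where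
  ι : Type
  [fi : Fintype ι]
  [de : DecidableEq ι]
  ρ : Matrix ι ι ℂ
  u : Q → UI → MM ι
  hρ : IsRep n ρ
  hu : IsEl ρ τ Z u

attribute [instance] KObj.fi KObj.de

/-- the standard primitive `n`-th root of unity -/
noncomputable def zt (n : ℕ) : ℂ := Complex.exp (2 * Real.pi * Complex.I / n)

/-- the same root of unity as an element of `Circle` -/
noncomputable def ztC (n : ℕ) : Circle := Circle.exp (2 * Real.pi / n)

/-- the closed unit polydisc in `ℂ^m` (sup norm) -/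
abbrev DB (m : ℕ) : Type := Metric.closedBall (0 : Fin m → ℂ) 1

/-- its boundary, the unit sphere of the sup norm -/
abbrev SB (m : ℕ) : Type := Metric.sphere (0 : Fin m → ℂ) 1

/-- Euclidean 3-space -/
abbrev R3 : Type := EuclideanSpace ℝ (Fin 3)

/-- the round 2-sphere -/
abbrev S2 : Type := Metric.sphere (0 : R3) 1

/-- Data for a blow-up (section 5, version of helper70): `T`, `R` closed invariant sets covering
`E` and an equivariant map `sb : T → (ZMod n → S2)`. -/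
structure BUData (n n' : ℕ) {E : Type} [TopologicalSpace E] (τ : E → E) where
  dvd : n ∣ n'
  T : Set E
  R : Set E
  hT : IsClosed T
  hR : IsClosed R
  cover : T ∪ R = Set.univ
  hTi : ∀ z ∈ T, τ z ∈ T
  hRi : ∀ z ∈ R, τ z ∈ R
  sb : E → ZMod n → S2
  hsb : ContinuousOn sb T
  hsbe : ∀ z ∈ T, ∀ c, sb (τ z) c = sb z (c + 1)

/-- the blow-up: the full fibre `ZMod n' → S2` over `R`, one point over `T \ R` -/
def BUData.set {n n' : ℕ} {E : Type} [TopologicalSpace E] {τ : E → E} (D : BUData n n' τ) :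
    Set (E × (ZMod n' → S2)) :=
  {p | p.1 ∈ D.R ∨ (p.1 ∈ D.T ∧ ∀ c, p.2 c = D.sb p.1 (ZMod.castHom D.dvd (ZMod n) c))}

/-- the action on the blow-up -/
def BUData.map {n n' : ℕ} {E : Type} [TopologicalSpace E] {τ : E → E} (D : BUData n n' τ) :
    D.set → D.set :=
  fun p => ⟨(τ p.1.1, fun c => p.1.2 (c + 1)), by
    rcases p.2 with h | ⟨h, h'⟩
    · exact Or.inl (D.hRi _ h)
    · refine Or.inr ⟨D.hTi _ h, fun c => ?_⟩
      show p.1.2 (c + 1) = _
      rw [h' (c + 1), D.hsbe _ h, map_add, map_one]⟩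

end Pool.Agent.CRC
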