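import Pool.Agent.Lib.MP_13800a_gt.Group

/-! TASK Two: `x + x = 0` in `KG n τ Z` (section 1 of the blueprint, 2x = 0). -/

set_option autoImplicit false

open scoped Matrix Kronecker
open Matrix

namespace Pool.Agent.CRC

section two
variable {ι : Type}

/-- the flip of the two `Fin 2` factors -/
private def two_fl (ι : Type) : Equiv.Perm ((ι × Fin 2) × Fin 2) where
  toFun p := ((p.1.1, p.2), p.1.2)
  invFun p := ((p.1.1, p.2), p.1.2)
  left_inv _ := rfl
  right_inv _ := rfl

private def two_e (ι : Type) : ι ⊕ ι ≃ ι × Fin 2 where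
  toFun := Sum.elim (fun i => (i, 0)) (fun i => (i, 1))
  invFun p := if p.2 = 0 then Sum.inl p.1 else Sum.inr p.1
  left_inv p := by
    rcases p with i | i <;> simp
  right_inv p := by
    rcases p with ⟨i, a⟩
    fin_cases a <;> simp

variable [Fintype ι] [DecidableEq ι]

private noncomputable def two_F (ι : Type) [DecidableEq ι] :
    Matrix ((ι × Fin 2) × Fin 2) ((ι × Fin 2) × Fin 2) ℂ :=
  (two_fl ι).toPEquiv.toMatrix

private theorem two_conj (M : MM (ι × Fin 2)) :
    two_F ι * M * two_F ι = M.submatrix (two_fl ι) (two_fl ι) := by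
  unfold two_F
  rw [PEquiv.toMatrix_toPEquiv_mul, PEquiv.mul_toMatrix_toPEquiv]
  rfl

private theorem two_FF : two_F ι * two_F ι = 1 := by
  have h := two_conj (ι := ι) 1
  rw [mul_one] at h
  rw [h]
  exact Matrix.submatrix_one_equiv (two_fl ι)

private theorem two_comm (a : Matrix ι ι ℂ) :
    two_F ι * amp (amp a) = amp (amp a) * two_F ι := by
  have h : two_F ι * amp (amp a) * two_F ι = amp (amp a) := by
    rw [two_conj]
    ext ⟨⟨i, x⟩, y⟩ ⟨⟨j, x'⟩, y'⟩
    simp [amp, two_fl, Matrix.kroneckerMap_apply]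
    ring
  calc two_F ι * amp (amp a) = two_F ι * amp (amp a) * (two_F ι * two_F ι) := by
        rw [two_FF, mul_one]
    _ = (two_F ι * amp (amp a) * two_F ι) * two_F ι := by simp only [mul_assoc]
    _ = _ := by rw [h]

private noncomputable def two_R (ι : Type) [DecidableEq ι] [Fintype ι] (z : ℂ) :
    MM (ι × Fin 2) :=
  1 - ((1 - z) / 2) • (1 - two_F ι)

private theorem two_RR (z w : ℂ) (h : z * w = 1) : two_R ι z * two_R ι w = 1 := by
  unfold two_R
  have h1 : (1 - two_F ι) * (1 - two_F ι) = (2 : ℂ) • (1 - two_F ι) := by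
    rw [sub_mul, mul_sub, mul_sub, two_FF, one_mul, mul_one, one_mul, two_smul]
    abel
  have h2 : (1 - ((1 - z) / 2) • (1 - two_F ι)) * (1 - ((1 - w) / 2) • (1 - two_F ι))
      = 1 - ((1 - z) / 2 + (1 - w) / 2 - (1 - z) / 2 * ((1 - w) / 2) * 2) • (1 - two_F ι) := by
    generalize (1 - two_F ι) = X at h1 ⊢
    simp only [sub_mul, mul_sub, one_mul, mul_one, smul_mul_assoc, mul_smul_comm, h1, smul_smul]
    module
  rw [h2]
  have h3 : (1 - z) / 2 + (1 - w) / 2 - (1 - z) / 2 * ((1 - w) / 2) * 2 = 0 := by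
    linear_combination -(1 / 2 : ℂ) * h
  rw [h3, zero_smul, sub_zero]

private theorem two_R_one : two_R ι 1 = 1 := by
  simp [two_R]

private theorem two_R_neg_one : two_R ι (-1) = two_F ι := by
  unfold two_R
  have : (1 - (-1 : ℂ)) / 2 = 1 := by norm_num
  rw [this, one_smul]
  abel

private theorem two_R_comm (z : ℂ) (a : Matrix ι ι ℂ) :
    two_R ι z * amp (amp a) = amp (amp a) * two_R ι z := by
  unfold two_R
  rw [sub_mul, mul_sub, Matrix.smul_mul, Matrix.mul_smul, sub_mul, mul_sub, two_comm, one_mul,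
    mul_one]

private theorem two_R_continuous : Continuous (fun z : ℂ => two_R ι z) := by
  unfold two_R
  fun_prop

/-- the first homotopy -/
private theorem two_ht1 {Q : Type} [TopologicalSpace Q] {τ : Q → Q} {Z : Set Q}
    {ρ : Matrix ι ι ℂ} {u : Q → UI → MM ι} (hu : IsEl ρ τ Z u) :
    Ht (amp ρ) τ Z (fun q t => amp (u q t))
      (fun q t => two_F ι * amp (u q t) * two_F ι) := by
  set z : UI → ℂ := fun s => Complex.exp (Real.pi * Complex.I * (s : ℝ)) with hz
  set w : UI → ℂ := fun s => Complex.exp (-(Real.pi * Complex.I * (s : ℝ))) with hw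
  have hzw : ∀ s, z s * w s = 1 := fun s => by
    simp only [hz, hw]
    rw [← Complex.exp_add, add_neg_cancel, Complex.exp_zero]
  have hwz : ∀ s, w s * z s = 1 := fun s => by rw [mul_comm]; exact hzw s
  have hzc : Continuous z := by
    simp only [hz]
    fun_prop
  have hwc : Continuous w := by
    simp only [hw]
    fun_prop
  have hW := Ht.of_path (ρ := amp ρ) (τ := τ) (Z := Z)
    (fun s q t => two_R ι (z s) * amp (u q t) * two_R ι (w s)) (by
      have h1 : Continuous (fun p : (Q × UI) × UI => two_R ι (z p.1.2)) :=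
        two_R_continuous.comp (hzc.comp (by fun_prop))
      have h2 : Continuous (fun p : (Q × UI) × UI => two_R ι (w p.1.2)) :=
        two_R_continuous.comp (hwc.comp (by fun_prop))
      have h3 : Continuous (fun p : (Q × UI) × UI => amp (u p.1.1 p.2)) :=
        continuous_amp.comp (hu.cont.comp (f := fun p : (Q × UI) × UI => (p.1.1, p.2))
          (by fun_prop))
      exact (h1.matrix_mul h3).matrix_mul h2) (by
      intro s
      refine ⟨?_, ?_, ?_, ?_, ?_, ?_⟩
      · have h3 : Continuous (fun p : Q × UI => amp (u p.1 p.2)) := continuous_amp.comp hu.cont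
        exact (continuous_const.matrix_mul h3).matrix_mul continuous_const
      · intro q t
        refine IsUnit.mul (IsUnit.mul ?_ ((isUnit_amp_iff _).2 (hu.unit q t))) ?_
        · exact IsUnit.of_mul_eq_one _ (two_RR _ _ (hzw s))
        · exact IsUnit.of_mul_eq_one _ (two_RR _ _ (hwz s))
      · intro q
        obtain ⟨a, ha⟩ := hu.zero q
        refine ⟨amp a, ?_⟩
        rw [ha, two_R_comm, mul_assoc, two_RR _ _ (hzw s), mul_one]
      · intro q
        rw [hu.one q, amp_one, mul_one, two_RR _ _ (hzw s)]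
      · intro q hq t
        rw [hu.rel q hq t, amp_one, mul_one, two_RR _ _ (hzw s)]
      · intro q t
        calc two_R ι (z s) * amp (u (τ q) t) * two_R ι (w s) * amp (amp ρ)
            = two_R ι (z s) * amp (u (τ q) t) * (two_R ι (w s) * amp (amp ρ)) := by
              simp only [mul_assoc]
          _ = two_R ι (z s) * (amp (u (τ q) t) * amp (amp ρ)) * two_R ι (w s) := by
              rw [two_R_comm]; simp only [mul_assoc]
          _ = two_R ι (z s) * (amp (amp ρ) * amp (u q t)) * two_R ι (w s) := by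
              rw [← amp_mul, hu.eqv q t, amp_mul]
          _ = (two_R ι (z s) * amp (amp ρ)) * amp (u q t) * two_R ι (w s) := by
              simp only [mul_assoc]
          _ = _ := by rw [two_R_comm]; simp only [mul_assoc])
  have e0 : z 0 = 1 := by simp [hz]
  have e1 : w 0 = 1 := by simp [hw]
  have e2 : z 1 = -1 := by simp [hz, Complex.exp_pi_mul_I]
  have e3 : w 1 = -1 := by
    have := hzw 1
    rw [e2] at this
    linear_combination -this
  simp only [e0, e1, e2, e3, two_R_one, two_R_neg_one, one_mul, mul_one] at hW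
  exact hW

/-- the second homotopy -/
private theorem two_ht2 {Q : Type} [TopologicalSpace Q] {τ : Q → Q} {Z : Set Q}
    {ρ : Matrix ι ι ℂ} {u : Q → UI → MM ι} (hu : IsEl ρ τ Z u) :
    Ht (amp ρ) τ Z (fun q t => amp (u q t)) (fun _ _ => (1 : MM (ι × Fin 2))) := by
  have hW := Ht.of_path (ρ := amp ρ) (τ := τ) (Z := Z)
    (fun s q t => amp (u q (unitInterval.symm (unitInterval.symm t * unitInterval.symm s)))) (by
      refine continuous_amp.comp (hu.cont.comp (f := fun p : (Q × UI) × UI =>
        (p.1.1, unitInterval.symm (unitInterval.symm p.2 * unitInterval.symm p.1.2))) ?_)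
      fun_prop) (by
      intro s
      refine ⟨?_, ?_, ?_, ?_, ?_, ?_⟩
      · refine continuous_amp.comp (hu.cont.comp (f := fun p : Q × UI =>
          (p.1, unitInterval.symm (unitInterval.symm p.2 * unitInterval.symm s))) ?_)
        fun_prop
      · intro q t
        exact (isUnit_amp_iff _).2 (hu.unit q _)
      · intro q
        exact ⟨_, rfl⟩
      · intro q
        rw [unitInterval.symm_one, zero_mul, unitInterval.symm_zero, hu.one, amp_one]
      · intro q hq t
        rw [hu.rel q hq, amp_one]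
      · intro q t
        rw [← amp_mul, hu.eqv, amp_mul])
  simp only [unitInterval.symm_zero, unitInterval.symm_one, mul_one, mul_zero,
    unitInterval.symm_symm, hu.one, amp_one] at hW
  exact hW

end two

theorem KG.add_self {n : ℕ} {Q : Type} [TopologicalSpace Q] {τ : Q → Q} {Z : Set Q}
    (x : KG n τ Z) : x + x = 0 := by
  obtain ⟨ι, _, _, ρ, u, hρ, hu, rfl⟩ := x.ind
  rw [← KG.mk_bs hρ hu hρ hu, ← KG.mk_reindex (hρ.dsum hρ) (hu.bsum hu) (two_e ι)]
  have h1 := two_ht1 hu
  have h2 := two_ht2 hu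
  have h3 : KG.mk (n := n) hρ.ampl h1.right = KG.mk hρ.ampl (IsEl.const_one (ρ := amp ρ)) :=
    KG.mk_ht _ _ _ (h1.symm.trans h2)
  rw [KG.mk_one hρ.ampl] at h3
  rw [← h3]
  refine KG.mk_congr _ _ _ _ ?_ ?_
  · ext ⟨i, x⟩ ⟨j, y⟩
    fin_cases x <;> fin_cases y <;> simp [dg, amp, two_e, Matrix.kroneckerMap_apply]
  · intro q t
    rw [two_conj]
    ext ⟨⟨i, x⟩, y⟩ ⟨⟨j, x'⟩, y'⟩
    fin_cases x <;> fin_cases x' <;>
      simp [bs, amp, two_e, two_fl, Matrix.kroneckerMap_apply, Equiv.sumProdDistrib]

end Pool.Agent.CRC
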