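import Pool.Agent.Lib.MP_13800a_gt.Homs
import Pool.Agent.Lib.MP_13800a_gt.Two

/-! TASK Pow: identities between powers of `1 + L` in characteristic two. -/

set_option autoImplicit false

namespace Pool.Agent.CRC

/-- powers of intertwined endomorphisms -/
theorem end_pow_comm {M N : Type*} [AddCommGroup M] [AddCommGroup N] (f : M →+ N)
    (a : AddMonoid.End M) (b : AddMonoid.End N) (h : ∀ x, f (a x) = b (f x)) (m : ℕ) (x : M) :
    f ((a ^ m) x) = (b ^ m) (f x) := by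
  induction m generalizing x with
  | zero => simp
  | succ m ih =>
    rw [pow_succ, pow_succ]
    show f ((a ^ m) (a x)) = (b ^ m) (b (f x))
    rw [ih, h]

section
variable {n : ℕ} {Q Q1 : Type} [TopologicalSpace Q] [TopologicalSpace Q1] {τ : Q → Q}
  {τ1 : Q1 → Q1} {Z : Set Q} {Z1 : Set Q1}

theorem end_add_self (A : AddMonoid.End (KG n τ Z)) : A + A = 0 := by
  ext x
  exact KG.add_self (A x)

theorem end_neg (A : AddMonoid.End (KG n τ Z)) : -A = A :=
  neg_eq_of_add_eq_zero_left (end_add_self A)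

theorem one_add_pow_two_pow (A : AddMonoid.End (KG n τ Z)) (a : ℕ) :
    (1 + A) ^ (2 ^ a) = 1 + A ^ (2 ^ a) := by
  induction a with
  | zero => simp
  | succ a ih =>
    rw [pow_succ, pow_mul, ih, pow_mul, pow_two, pow_two]
    have h := end_add_self (A ^ 2 ^ a)
    calc (1 + A ^ 2 ^ a) * (1 + A ^ 2 ^ a)
        = 1 + (A ^ 2 ^ a + A ^ 2 ^ a) + A ^ 2 ^ a * A ^ 2 ^ a := by noncomm_ring
      _ = 1 + A ^ 2 ^ a * A ^ 2 ^ a := by rw [h, add_zero]

theorem one_add_pow_two_pow_sub_one (A : AddMonoid.End (KG n τ Z)) (b : ℕ) :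
    (1 + A) ^ (2 ^ b - 1) = ∑ i ∈ Finset.range (2 ^ b), A ^ i := by
  induction b with
  | zero => simp
  | succ b ih =>
    have e1 : 2 ^ (b + 1) - 1 = (2 ^ b - 1) + 2 ^ b := by
      have : 1 ≤ 2 ^ b := Nat.one_le_two_pow
      rw [pow_succ]; omega
    have e2 : 2 ^ (b + 1) = 2 ^ b + 2 ^ b := by rw [pow_succ]; omega
    rw [e1, pow_add, ih, one_add_pow_two_pow, e2, Finset.sum_range_add, mul_add, mul_one,
      Finset.sum_mul]
    congr 1
    refine Finset.sum_congr rfl fun i _ => ?_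
    rw [← pow_add, add_comm]

theorem one_add_Lh_pow_n (hn : ∃ a, n = 2 ^ a) :
    (1 + Lh : AddMonoid.End (KG n τ Z)) ^ n = 0 := by
  obtain ⟨a, ha⟩ := hn
  have h1 : (1 + Lh : AddMonoid.End (KG n τ Z)) ^ n
      = 1 + (Lh : AddMonoid.End (KG n τ Z)) ^ n := by
    have := one_add_pow_two_pow (Lh : AddMonoid.End (KG n τ Z)) a
    rw [← ha] at this
    exact this
  rw [h1, Lh_pow_n]
  exact end_add_self 1

/-- one factor -/
theorem pow_one_add_Lh_pow_one (k : ℕ) :
    1 + (Lh : AddMonoid.End (KG n τ Z)) ^ k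
      = (1 + Lh) * ∑ i ∈ Finset.range k, (Lh : AddMonoid.End (KG n τ Z)) ^ i := by
  have h := mul_geom_sum (Lh : AddMonoid.End (KG n τ Z)) k
  rw [sub_eq_add_neg, sub_eq_add_neg, end_neg (1 : AddMonoid.End (KG n τ Z))] at h
  rw [add_comm (1 : AddMonoid.End (KG n τ Z)) Lh, h, add_comm]

/-- `∏ (1 + L^{k_i})` (over `m` factors) is `(1+L)^m` times something. -/
theorem prod_one_add_Lh_pow (l : List ℕ) :
    ∃ A : AddMonoid.End (KG n τ Z), (l.map (fun k => 1 + (Lh : AddMonoid.End (KG n τ Z)) ^ k)).prod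
      = (1 + Lh) ^ l.length * A := by
  induction l with
  | nil => exact ⟨1, by simp⟩
  | cons k l ih =>
    obtain ⟨A, hA⟩ := ih
    refine ⟨(∑ i ∈ Finset.range k, (Lh : AddMonoid.End (KG n τ Z)) ^ i) * A, ?_⟩
    rw [List.map_cons, List.prod_cons, hA, pow_one_add_Lh_pow_one, List.length_cons, pow_succ',
      mul_assoc, mul_assoc]
    congr 1
    rw [← mul_assoc, ← mul_assoc]
    congr 1
    have hc : Commute (∑ i ∈ Finset.range k, (Lh : AddMonoid.End (KG n τ Z)) ^ i) (1 + Lh) := by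
      refine Commute.sum_left _ _ _ fun i _ => ?_
      exact (Commute.one_right _).add_right ((Commute.refl Lh).pow_left i)
    exact hc.pow_right _

theorem pull_one_add_pow {j : Q1 → Q} (h : PullData τ τ1 Z Z1 j) (m : ℕ) (x : KG n τ Z) :
    pull h (((1 + Lh : AddMonoid.End (KG n τ Z)) ^ m) x)
      = ((1 + Lh : AddMonoid.End (KG n τ1 Z1)) ^ m) (pull h x) := by
  refine end_pow_comm (pull h) _ _ (fun y => ?_) m x
  have h1 := pull_Lh h 1 y
  rw [pow_one, pow_one] at h1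
  show pull h (y + Lh y) = pull h y + Lh (pull h y)
  rw [map_add, h1]

theorem pull_one_add_Lh_pow {j : Q1 → Q} (h : PullData τ τ1 Z Z1 j) (k : ℕ) (x : KG n τ Z) :
    pull h ((1 + (Lh : AddMonoid.End (KG n τ Z)) ^ k) x)
      = (1 + (Lh : AddMonoid.End (KG n τ1 Z1)) ^ k) (pull h x) := by
  show pull h (x + (Lh ^ k) x) = pull h x + (Lh ^ k) (pull h x)
  rw [map_add, pull_Lh h k x]

theorem infl_one_add_pow (g : ℕ) (hn : n ≠ 0) (hg : g ≠ 0) (m : ℕ) (x : KG n τ Z) :
    infl g (((1 + Lh : AddMonoid.End (KG n τ Z)) ^ m) x)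
      = ((1 + Lh ^ g : AddMonoid.End (KG (n * g) τ Z)) ^ m) (infl g x) := by
  refine end_pow_comm (infl g) _ _ (fun y => ?_) m x
  have h1 := infl_Lh g hn hg 1 y
  rw [pow_one, mul_one] at h1
  show infl g (y + Lh y) = infl g y + (Lh ^ g) (infl g y)
  rw [map_add, h1]

end

end Pool.Agent.CRC
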