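import Pool.Agent.Lib.MP_13800a_gt.Exact
import Pool.Agent.Lib.MP_13800a_gt.Pow

/-! TASK Index: (G5). -/

set_option autoImplicit false

namespace Pool.Agent.CRC

private theorem index_norm_zt (n : ℕ) : ‖zt n‖ = 1 := by
  have h : zt n = Complex.exp (((2 * Real.pi / n : ℝ) : ℂ) * Complex.I) := by
    unfold zt
    congr 1
    push_cast
    ring
  rw [h]
  exact Complex.norm_exp_ofReal_mul_I _

private theorem index_zt_pow {n n0 : ℕ} (hn : n ≠ 0) (hn0 : n0 ∣ n) : zt n ^ (n / n0) = zt n0 := by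
  obtain ⟨c, rfl⟩ := hn0
  have h0 : n0 ≠ 0 := by rintro rfl; simp at hn
  have hc : c ≠ 0 := by rintro rfl; simp at hn
  rw [Nat.mul_div_cancel_left c (Nat.pos_of_ne_zero h0)]
  unfold zt
  rw [← Complex.exp_nat_mul]
  congr 1
  have h0' : (n0 : ℂ) ≠ 0 := by exact_mod_cast h0
  have hc' : (c : ℂ) ≠ 0 := by exact_mod_cast hc
  push_cast
  field_simp

/-- (G5) `B_i = {|Φ_i| ≥ δ}`; `1 + L^{n/n0}` acts as zero on the groups over `B_i`
(`Lh_pow_eq_self`, `KG.add_self`); apply `exact_set` `a` times. -/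
theorem kgood_index {n n0 m a : ℕ} {E : Type} [TopologicalSpace E] [CompactSpace E] [T2Space E]
    {τ : E → E} (hn : ∃ k, n = 2 ^ k) (hn0 : n0 ∣ n) (hτ : Continuous τ) (hτn : τ^[n] = id)
    (h : Good n τ m) (Φ : Fin a → E → ℂ) (hc : ∀ b, Continuous (Φ b))
    (he : ∀ b x, Φ b (τ x) = zt n0 * Φ b x) (h0 : ∀ x, ∃ b, Φ b x ≠ 0) :
    m < a * (n / n0) := by
  obtain ⟨k, rfl⟩ := hn
  have hnpos : 0 < 2 ^ k := by positivity
  obtain ⟨k0, hk0, rfl⟩ := (Nat.dvd_prime_pow Nat.prime_two).1 hn0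
  have hw : 2 ^ k / 2 ^ k0 = 2 ^ (k - k0) := Nat.pow_div hk0 (by norm_num)
  -- a uniform lower bound
  obtain ⟨δ, hδ, hδ'⟩ : ∃ δ : ℝ, 0 < δ ∧ ∀ x, ∃ b, δ ≤ ‖Φ b x‖ := by
    by_cases hE : Nonempty E
    · have hcont : Continuous (fun x => ∑ b, ‖Φ b x‖) :=
        continuous_finsetSum _ (fun b _ => (hc b).norm)
      obtain ⟨x0, -, hx0⟩ := isCompact_univ.exists_isMinOn Set.univ_nonempty hcont.continuousOn
      have hpos : 0 < ∑ b, ‖Φ b x0‖ := by
        obtain ⟨b, hb⟩ := h0 x0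
        exact Finset.sum_pos' (fun _ _ => norm_nonneg _) ⟨b, Finset.mem_univ _, norm_pos_iff.2 hb⟩
      have ha : 0 < a := by
        obtain ⟨b, -⟩ := h0 x0
        exact b.pos
      refine ⟨(∑ b, ‖Φ b x0‖) / a, by positivity, fun x => ?_⟩
      by_contra hcon
      push Not at hcon
      have h1 : ∑ b, ‖Φ b x‖ < ∑ _b : Fin a, (∑ b, ‖Φ b x0‖) / a := by
        refine Finset.sum_lt_sum_of_nonempty ?_ (fun b _ => hcon b)
        exact ⟨⟨0, ha⟩, Finset.mem_univ _⟩
      have h2 : ∑ _b : Fin a, (∑ b, ‖Φ b x0‖) / a = ∑ b, ‖Φ b x0‖ := by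
        rw [Finset.sum_const, Finset.card_univ, Fintype.card_fin, nsmul_eq_mul]
        have : (a : ℝ) ≠ 0 := by exact_mod_cast ha.ne'
        field_simp
      have h3 : ∑ b, ‖Φ b x0‖ ≤ ∑ b, ‖Φ b x‖ := hx0 (Set.mem_univ x)
      linarith
    · exact ⟨1, one_pos, fun x => (hE ⟨x⟩).elim⟩
  set C : Fin a → Set E := fun b => {x | δ ≤ ‖Φ b x‖} with hCdef
  have hC : ∀ b, IsClosed (C b) := fun b => isClosed_le continuous_const (hc b).norm
  have hCi : ∀ b, ∀ q ∈ C b, τ q ∈ C b := by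
    intro b q hq
    simp only [hCdef, Set.mem_ofPred_eq] at hq ⊢
    rw [he, norm_mul, index_norm_zt, one_mul]
    exact hq
  have key : ∀ i ≤ a, ∃ Z : Set E, IsClosed Z ∧ (∀ q ∈ Z, τ q ∈ Z) ∧
      (∀ b : Fin a, (b : ℕ) < i → C b ⊆ Z) ∧ ∃ y : KG (2 ^ k) τ Z,
        ∀ h : PullData τ τ Z (∅ : Set E) (id : E → E),
          pull h y = ((1 + Lh : AddMonoid.End (KG (2 ^ k) τ (∅ : Set E))) ^ (i * 2 ^ (k - k0)))
            (oneK (2 ^ k) τ) := by
    intro i
    induction i with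
    | zero =>
      intro _
      refine ⟨∅, isClosed_empty, by simp, by simp, oneK (2 ^ k) τ, fun h => ?_⟩
      rw [pull_id, Nat.zero_mul, pow_zero]
      rfl
    | succ i ih =>
      intro hi
      obtain ⟨Z, hZ, hZi, hZC, y, hy⟩ := ih (by omega)
      set b : Fin a := ⟨i, by omega⟩ with hb
      have hP : PullData τ (fun c : C b => (⟨τ c.1, hCi b c.1 c.2⟩ : C b)) Z
          (Subtype.val ⁻¹' Z) (Subtype.val : C b → E) :=
        ⟨continuous_subtype_val, fun _ => rfl, fun _ hq => hq⟩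
      have hx : pull hP ((1 + (Lh : AddMonoid.End (KG (2 ^ k) τ Z)) ^ (2 ^ (k - k0)) :
          AddMonoid.End (KG (2 ^ k) τ Z)) y) = 0 := by
        rw [pull_one_add_Lh_pow]
        show pull hP y + (Lh ^ (2 ^ (k - k0))) (pull hP y) = 0
        have hL : (Lh ^ (2 ^ (k - k0))) (pull hP y) = pull hP y := by
          refine Lh_pow_eq_self (s := fun c : C b => Φ b c.1)
            ((hc b).comp continuous_subtype_val) ?_ ?_ _
          · intro q hq
            have := q.2
            simp only [hCdef, Set.mem_ofPred_eq] at this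
            rw [hq, norm_zero] at this
            linarith
          · intro q
            show Φ b (τ q.1) = _
            rw [he, ← hw, index_zt_pow hnpos.ne' hn0]
        rw [hL]
        exact KG.add_self _
      obtain ⟨y', hy'⟩ := exact_set hnpos hτ hτn hZ hZi (C b) (hC b) (hCi b) hP _ hx
      refine ⟨Z ∪ C b, hZ.union (hC b), ?_, ?_, y', ?_⟩
      · rintro q (hq | hq)
        · exact Or.inl (hZi q hq)
        · exact Or.inr (hCi b q hq)
      · intro c hci
        rcases Nat.lt_succ_iff_lt_or_eq.1 hci with h1 | h1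
        · exact (hZC c h1).trans Set.subset_union_left
        · have : c = b := Fin.ext h1
          rw [this]
          exact Set.subset_union_right
      · intro h'
        have hZe : PullData τ τ Z (∅ : Set E) (id : E → E) :=
          PullData.rel_id (Set.empty_subset _)
        have h1 : pull h' y' = pull hZe
            (pull (PullData.rel_id (τ := τ) (Set.subset_union_left : Z ⊆ Z ∪ C b)) y') :=
          (pull_pull (PullData.rel_id (τ := τ) (Set.subset_union_left : Z ⊆ Z ∪ C b)) hZe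
            (show PullData τ τ (Z ∪ C b) (∅ : Set E) ((id : E → E) ∘ (id : E → E)) from h') y').symm
        rw [h1, hy', pull_one_add_Lh_pow, hy hZe, Nat.succ_mul, Nat.add_comm, pow_add,
          ← one_add_pow_two_pow]
        rfl
  obtain ⟨Z, -, -, hZC, y, hy⟩ := key a le_rfl
  have hZu : Z = Set.univ := by
    refine Set.eq_univ_of_forall (fun x => ?_)
    obtain ⟨b, hb⟩ := hδ' x
    exact hZC b b.2 hb
  subst hZu
  have hzero := hy (PullData.rel_id (Set.empty_subset _))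
  rw [KG.eq_zero_of_univ y, map_zero] at hzero
  rw [hw]
  by_contra hcon
  push Not at hcon
  obtain ⟨r, rfl⟩ := Nat.exists_eq_add_of_le hcon
  apply h
  rw [Nat.add_comm, pow_add]
  show ((1 + Lh : AddMonoid.End (KG (2 ^ k) τ (∅ : Set E))) ^ r)
    (((1 + Lh : AddMonoid.End (KG (2 ^ k) τ (∅ : Set E))) ^ (a * 2 ^ (k - k0))) (oneK (2 ^ k) τ)) = 0
  rw [← hzero, map_zero]

end Pool.Agent.CRC
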