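import Pool.Agent.Lib.MP_13800a_gt.Pow

/-! TASK Inv: invariants under the subgroup acting trivially (the map `π_G` of section 6) and
(G2). -/

set_option autoImplicit false

open scoped Matrix Kronecker
open Matrix

namespace Pool.Agent.CRC

section
variable {n g : ℕ} {Q : Type} [TopologicalSpace Q] {τ : Q → Q} {Z : Set Q}

/-- the projection onto the invariants of `ρ ^ n` -/
noncomputable def invE (n g : ℕ) {ι : Type} [Fintype ι] [DecidableEq ι] (ρ : Matrix ι ι ℂ) :
    Matrix ι ι ℂ := ((g : ℂ)⁻¹) • ∑ j ∈ Finset.range g, (ρ ^ n) ^ j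

section ring
variable {R : Type*} [Ring R]

theorem inv_alg_compl {e : R} (hi : e * e = e) : (1 - e) * (1 - e) = 1 - e := by
  calc (1 - e) * (1 - e) = 1 - e - e + e * e := by noncomm_ring
    _ = _ := by rw [hi]; noncomm_ring

theorem inv_alg_int [Algebra ℂ R] (z : ℂ) {e ρ : R} (hi : e * e = e) (hc : ρ * e = e * ρ) :
    e * (z • ρ * e + (1 - e)) = z • (ρ * e + (1 - e)) * e := by
  have h1 : e * (ρ * e) = ρ * e := by
    calc e * (ρ * e) = (e * ρ) * e := by noncomm_ring
      _ = ρ * (e * e) := by rw [← hc]; noncomm_ring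
      _ = ρ * e := by rw [hi]
  have h2 : e * (1 - e) = 0 := by rw [mul_sub, mul_one, hi, sub_self]
  have h3 : (1 - e) * e = 0 := by rw [sub_mul, one_mul, hi, sub_self]
  have h4 : ρ * e * e = ρ * e := by rw [mul_assoc, hi]
  rw [smul_mul_assoc, smul_mul_assoc, mul_add, mul_smul_comm, h1, h2, add_mul, h3, h4, add_zero,
    add_zero]

theorem inv_alg_int' [Algebra ℂ R] (z : ℂ) {e ρ : R} (hi : e * e = e) (hc : ρ * e = e * ρ) :
    e * z • (ρ * e + (1 - e)) = (z • ρ * e + (1 - e)) * e := by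
  have h1 : e * (ρ * e) = ρ * e := by
    calc e * (ρ * e) = (e * ρ) * e := by noncomm_ring
      _ = ρ * (e * e) := by rw [← hc]; noncomm_ring
      _ = ρ * e := by rw [hi]
  have h2 : e * (1 - e) = 0 := by rw [mul_sub, mul_one, hi, sub_self]
  have h3 : (1 - e) * e = 0 := by rw [sub_mul, one_mul, hi, sub_self]
  have h4 : ρ * e * e = ρ * e := by rw [mul_assoc, hi]
  rw [mul_smul_comm, mul_add, h1, h2, add_mul, h3, smul_mul_assoc, smul_mul_assoc, h4, add_zero,
    add_zero]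

theorem inv_alg_right {e y : R} (hi : e * e = e) : (y * e + (1 - e)) * (1 - e) = 1 - e := by
  calc (y * e + (1 - e)) * (1 - e) = y * (e - e * e) + (1 - e - e + e * e) := by noncomm_ring
    _ = _ := by rw [hi]; simp

theorem inv_alg_left {e y : R} (hi : e * e = e) (h : y * e = e * y) :
    (1 - e) * (y * e + (1 - e)) = 1 - e := by
  rw [h]
  calc (1 - e) * (e * y + (1 - e)) = (e - e * e) * y + (1 - e - e + e * e) := by noncomm_ring
    _ = _ := by rw [hi]; simp

theorem inv_alg_conj {e y : R} (hi : e * e = e) (h : y * e = e * y) :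
    e * (y * e + (1 - e)) * e + (1 - e) = y * e + (1 - e) := by
  congr 1
  calc e * (y * e + (1 - e)) * e = (e * y) * (e * e) + (e * e - e * e * e) := by noncomm_ring
    _ = (y * e) * e := by rw [hi, hi, ← h]; simp
    _ = y * (e * e) := by noncomm_ring
    _ = y * e := by rw [hi]

end ring

section alg
variable {ι κ : Type} [Fintype ι] [DecidableEq ι] [Fintype κ] [DecidableEq κ]

omit [Fintype ι] [DecidableEq ι] [Fintype κ] [DecidableEq κ] in
theorem inv_dg_sub (a a' : Matrix ι ι ℂ) (b b' : Matrix κ κ ℂ) :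
    dg a b - dg a' b' = dg (a - a') (b - b') := by
  unfold dg
  ext (i | i) (j | j) <;> simp

omit [Fintype ι] [DecidableEq ι] [Fintype κ] [DecidableEq κ] in
theorem inv_dg_add (a a' : Matrix ι ι ℂ) (b b' : Matrix κ κ ℂ) :
    dg a b + dg a' b' = dg (a + a') (b + b') := by
  unfold dg
  rw [Matrix.fromBlocks_add, add_zero, add_zero]

theorem inv_pow_mul (hg : g ≠ 0) {ρ : Matrix ι ι ℂ} (hρ : ρ ^ (n * g) = 1) :
    ρ ^ n * invE n g ρ = invE n g ρ := by
  unfold invE
  rw [mul_smul_comm, Finset.mul_sum]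
  congr 1
  have h1 : ∀ j, ρ ^ n * (ρ ^ n) ^ j = (ρ ^ n) ^ (j + 1) := fun j => (pow_succ' _ _).symm
  simp only [h1]
  obtain ⟨g', rfl⟩ := Nat.exists_eq_succ_of_ne_zero hg
  rw [Finset.sum_range_succ, Finset.sum_range_succ', ← pow_mul, hρ, pow_zero]

theorem inv_comm_rho (ρ : Matrix ι ι ℂ) : ρ * invE n g ρ = invE n g ρ * ρ := by
  unfold invE
  rw [mul_smul_comm, Finset.mul_sum, smul_mul_assoc, Finset.sum_mul]
  congr 1
  refine Finset.sum_congr rfl fun j _ => ?_
  rw [← pow_mul, ← pow_succ, ← pow_succ']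

theorem inv_idem (hg : g ≠ 0) {ρ : Matrix ι ι ℂ} (hρ : ρ ^ (n * g) = 1) :
    invE n g ρ * invE n g ρ = invE n g ρ := by
  have h1 : ∀ j : ℕ, (ρ ^ n) ^ j * invE n g ρ = invE n g ρ := by
    intro j
    induction j with
    | zero => rw [pow_zero, one_mul]
    | succ j ih => rw [pow_succ, mul_assoc, inv_pow_mul hg hρ, ih]
  conv_lhs => enter [1]; unfold invE
  rw [smul_mul_assoc, Finset.sum_mul, Finset.sum_congr rfl (fun j _ => h1 j), Finset.sum_const,
    Finset.card_range, ← Nat.cast_smul_eq_nsmul ℂ, smul_smul,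
    inv_mul_cancel₀ (Nat.cast_ne_zero.2 hg), one_smul]

theorem inv_pow_eq (hg : g ≠ 0) {ρ : Matrix ι ι ℂ} (hρ : ρ ^ (n * g) = 1) (m : ℕ) :
    (ρ * invE n g ρ + (1 - invE n g ρ)) ^ m = ρ ^ m * invE n g ρ + (1 - invE n g ρ) := by
  have hi := inv_idem (n := n) hg hρ
  have hc := inv_comm_rho (n := n) (g := g) ρ
  induction m with
  | zero => simp
  | succ m ih =>
    rw [pow_succ, ih, pow_succ]
    generalize invE n g ρ = e at *
    have h1 : ρ ^ m * e * (ρ * e) = ρ ^ m * ρ * e := by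
      calc ρ ^ m * e * (ρ * e) = ρ ^ m * (e * ρ) * e := by noncomm_ring
        _ = ρ ^ m * ρ * (e * e) := by rw [← hc]; noncomm_ring
        _ = _ := by rw [hi]
    have h2 : ρ ^ m * e * (1 - e) = 0 := by
      calc ρ ^ m * e * (1 - e) = ρ ^ m * (e - e * e) := by noncomm_ring
        _ = 0 := by rw [hi, sub_self, mul_zero]
    have h3 : (1 - e) * (ρ * e) = 0 := by
      calc (1 - e) * (ρ * e) = ρ * e - (e * ρ) * e := by noncomm_ring
        _ = ρ * (e - e * e) := by rw [← hc]; noncomm_ring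
        _ = 0 := by rw [hi, sub_self, mul_zero]
    have h4 : (1 - e) * (1 - e) = 1 - e := by
      calc (1 - e) * (1 - e) = 1 - e - e + e * e := by noncomm_ring
        _ = _ := by rw [hi]; noncomm_ring
    rw [add_mul, mul_add, mul_add, h1, h2, h3, h4]
    abel

theorem inv_star (hg : g ≠ 0) {ρ : Matrix ι ι ℂ} (hρ : IsRep (n * g) ρ) :
    star (invE n g ρ) = invE n g ρ := by
  have hu := hρ.1
  have hu1 : star ρ * ρ = 1 := (Matrix.mem_unitaryGroup_iff').1 hu
  have hu2 : ρ * star ρ = 1 := (Matrix.mem_unitaryGroup_iff).1 hu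
  -- `e` is fixed by `star ρ ^ n`
  have h1 : star ρ ^ n * invE n g ρ = invE n g ρ := by
    have h2 : star ρ ^ n * ρ ^ n = 1 := by
      rw [← star_pow]
      exact (Matrix.mem_unitaryGroup_iff').1 (pow_mem hu n)
    calc star ρ ^ n * invE n g ρ = star ρ ^ n * (ρ ^ n * invE n g ρ) := by
          rw [inv_pow_mul hg hρ.2]
      _ = _ := by rw [← mul_assoc, h2, one_mul]
  have h2 : ∀ j : ℕ, (star ρ ^ n) ^ j * invE n g ρ = invE n g ρ := by
    intro j
    induction j with
    | zero => rw [pow_zero, one_mul]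
    | succ j ih => rw [pow_succ, mul_assoc, h1, ih]
  have h3 : star (invE n g ρ) * invE n g ρ = invE n g ρ := by
    conv_lhs => enter [1]; unfold invE
    rw [star_smul, star_sum, smul_mul_assoc, Finset.sum_mul]
    have h4 : ∀ j ∈ Finset.range g, star ((ρ ^ n) ^ j) * invE n g ρ = invE n g ρ := by
      intro j _
      rw [star_pow, star_pow, h2]
    rw [Finset.sum_congr rfl h4, Finset.sum_const,
      Finset.card_range, ← Nat.cast_smul_eq_nsmul ℂ, smul_smul]
    have h5 : star ((g : ℂ)⁻¹) = (g : ℂ)⁻¹ := by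
      rw [star_inv₀, star_natCast]
    rw [h5, inv_mul_cancel₀ (Nat.cast_ne_zero.2 hg), one_smul]
  have h6 : star (star (invE n g ρ) * invE n g ρ) = star (invE n g ρ) * invE n g ρ := by
    rw [star_mul, star_star]
  rw [h3] at h6
  exact h6

theorem inv_dg (ρ : Matrix ι ι ℂ) (σ : Matrix κ κ ℂ) :
    invE n g (dg ρ σ) = dg (invE n g ρ) (invE n g σ) := by
  unfold invE
  have h1 : ∀ s : Finset ℕ, ∑ j ∈ s, (dg ρ σ ^ n) ^ j
      = dg (∑ j ∈ s, (ρ ^ n) ^ j) (∑ j ∈ s, (σ ^ n) ^ j) := by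
    intro s
    induction s using Finset.induction_on with
    | empty =>
      simp only [Finset.sum_empty]
      unfold dg
      exact (Matrix.fromBlocks_zero).symm
    | insert a s ha ih =>
      rw [Finset.sum_insert ha, Finset.sum_insert ha, Finset.sum_insert ha, ih, dg_pow, dg_pow]
      unfold dg
      rw [Matrix.fromBlocks_add, add_zero, add_zero]
  rw [h1, dg_smul]

theorem inv_dg_comb (ρ : Matrix ι ι ℂ) (σ : Matrix κ κ ℂ) :
    dg ρ σ * invE n g (dg ρ σ) + (1 - invE n g (dg ρ σ))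
      = dg (ρ * invE n g ρ + (1 - invE n g ρ)) (σ * invE n g σ + (1 - invE n g σ)) := by
  rw [inv_dg, dg_mul, ← dg_one, inv_dg_sub, inv_dg_add]

theorem inv_bs_comb (ρ : Matrix ι ι ℂ) (σ : Matrix κ κ ℂ) (u : MM ι) (v : MM κ) :
    bs u v * amp (invE n g (dg ρ σ)) + amp (1 - invE n g (dg ρ σ))
      = bs (u * amp (invE n g ρ) + amp (1 - invE n g ρ))
          (v * amp (invE n g σ) + amp (1 - invE n g σ)) := by
  have h1 : (1 : Matrix (ι ⊕ κ) (ι ⊕ κ) ℂ) - invE n g (dg ρ σ)
      = dg (1 - invE n g ρ) (1 - invE n g σ) := by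
    rw [inv_dg, ← dg_one, inv_dg_sub]
  rw [h1, inv_dg, ← bs_amp, ← bs_amp, bs_mul, bs_add]

end alg

theorem isRep_inv (hg : g ≠ 0) {ι : Type} [Fintype ι] [DecidableEq ι] {ρ : Matrix ι ι ℂ}
    (hρ : IsRep (n * g) ρ) : IsRep n (ρ * invE n g ρ + (1 - invE n g ρ)) := by
  refine ⟨?_, ?_⟩
  · rw [Matrix.mem_unitaryGroup_iff']
    have hs := inv_star hg hρ
    have hi := inv_idem hg hρ.2
    have hu1 : star ρ * ρ = 1 := (Matrix.mem_unitaryGroup_iff').1 hρ.1
    have hc := inv_comm_rho (n := n) (g := g) ρ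
    rw [star_add, star_mul, star_sub, star_one, hs]
    generalize invE n g ρ = e at *
    have h1 : e * star ρ * (ρ * e) = e := by
      calc e * star ρ * (ρ * e) = e * (star ρ * ρ) * e := by noncomm_ring
        _ = e := by rw [hu1, mul_one, hi]
    have h3 : (1 - e) * (ρ * e) = 0 := by
      calc (1 - e) * (ρ * e) = ρ * e - (e * ρ) * e := by noncomm_ring
        _ = ρ * (e - e * e) := by rw [← hc]; noncomm_ring
        _ = 0 := by rw [hi, sub_self, mul_zero]
    have h2 : e * star ρ * (1 - e) = 0 := by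
      have := congrArg star h3
      rw [star_mul, star_mul, star_sub, star_one, hs, star_zero] at this
      exact this
    have h4 : (1 - e) * (1 - e) = 1 - e := by
      calc (1 - e) * (1 - e) = 1 - e - e + e * e := by noncomm_ring
        _ = _ := by rw [hi]; noncomm_ring
    rw [add_mul, mul_add, mul_add, h1, h2, h3, h4]
    abel
  · rw [inv_pow_eq hg hρ.2, inv_pow_mul hg hρ.2]
    abel

theorem inv_comm_amp {ι : Type} [Fintype ι] [DecidableEq ι] {ρ : Matrix ι ι ℂ} {x : MM ι}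
    (h : x * amp (ρ ^ n) = amp (ρ ^ n) * x) :
    x * amp (invE n g ρ) = amp (invE n g ρ) * x := by
  have hs : ∀ s : Finset ℕ, x * amp (∑ j ∈ s, (ρ ^ n) ^ j) = amp (∑ j ∈ s, (ρ ^ n) ^ j) * x := by
    intro s
    induction s using Finset.induction_on with
    | empty => simp [amp_zero]
    | insert a s ha ih =>
      rw [Finset.sum_insert ha, amp_add, mul_add, add_mul, ih, amp_pow]
      congr 1
      exact (Commute.pow_right (show Commute x (amp (ρ ^ n)) from h) a).eq
  unfold invE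
  rw [amp_smul, mul_smul_comm, smul_mul_assoc, hs]

theorem inv_isEl_comm {ι : Type} [Fintype ι] [DecidableEq ι] {ρ : Matrix ι ι ℂ}
    (hτn : τ^[n] = id) {u : Q → UI → MM ι} (hu : IsEl ρ τ Z u) (q : Q) (t : UI) :
    u q t * amp (invE n g ρ) = amp (invE n g ρ) * u q t := by
  apply inv_comm_amp
  have h := hu.eqv_iter n q t
  rw [hτn] at h
  exact h

theorem isEl_inv (hg : g ≠ 0) (hτn : τ^[n] = id) {ι : Type} [Fintype ι] [DecidableEq ι]
    {ρ : Matrix ι ι ℂ} (hρ : IsRep (n * g) ρ) {u : Q → UI → MM ι} (hu : IsEl ρ τ Z u) :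
    IsEl (ρ * invE n g ρ + (1 - invE n g ρ)) τ Z
      (fun q t => u q t * amp (invE n g ρ) + amp (1 - invE n g ρ)) := by
  have hE : amp (invE n g ρ) * amp (invE n g ρ) = amp (invE n g ρ) := by
    rw [← amp_mul, inv_idem hg hρ.2]
  have hcomm := fun q t => inv_isEl_comm (g := g) hτn hu q t
  have hρc : amp ρ * amp (invE n g ρ) = amp (invE n g ρ) * amp ρ := by
    rw [← amp_mul, ← amp_mul, inv_comm_rho]
  refine ⟨?_, ?_, ?_, ?_, ?_, ?_⟩
  · exact (hu.cont.mul continuous_const).add continuous_const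
  · intro q t
    -- explicit inverse
    have hui := hu.unit q t
    have h1 : u q t * (u q t)⁻¹ = 1 :=
      Matrix.mul_nonsing_inv _ ((Matrix.isUnit_iff_isUnit_det _).1 hui)
    have hc := hcomm q t
    rw [amp_sub, amp_one]
    generalize amp (invE n g ρ) = E at *
    generalize u q t = x at *
    have h2 : (x * E + (1 - E)) * (E * x⁻¹ + (1 - E)) = 1 := by
      have a1 : x * E * (E * x⁻¹) = E := by
        calc x * E * (E * x⁻¹) = x * (E * E) * x⁻¹ := by noncomm_ring
          _ = (x * E) * x⁻¹ := by rw [hE]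
          _ = E * (x * x⁻¹) := by rw [hc]; noncomm_ring
          _ = E := by rw [h1, mul_one]
      have a2 : x * E * (1 - E) = 0 := by
        calc x * E * (1 - E) = x * (E - E * E) := by noncomm_ring
          _ = 0 := by rw [hE, sub_self, mul_zero]
      have a3 : (1 - E) * (E * x⁻¹) = 0 := by
        calc (1 - E) * (E * x⁻¹) = (E - E * E) * x⁻¹ := by noncomm_ring
          _ = 0 := by rw [hE, sub_self, zero_mul]
      have a4 : (1 - E) * (1 - E) = 1 - E := by
        calc (1 - E) * (1 - E) = 1 - E - E + E * E := by noncomm_ring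
          _ = _ := by rw [hE]; noncomm_ring
      rw [add_mul, mul_add, mul_add, a1, a2, a3, a4]
      abel
    exact IsUnit.of_mul_eq_one _ h2
  · intro q
    obtain ⟨a, ha⟩ := hu.zero q
    exact ⟨a * invE n g ρ + (1 - invE n g ρ), by rw [ha, amp_add, amp_mul]⟩
  · intro q
    show u q 1 * amp (invE n g ρ) + amp (1 - invE n g ρ) = 1
    rw [hu.one, one_mul, ← amp_add, ← amp_one]
    congr 1
    abel
  · intro q hq t
    show u q t * amp (invE n g ρ) + amp (1 - invE n g ρ) = 1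
    rw [hu.rel q hq t, one_mul, ← amp_add, ← amp_one]
    congr 1
    abel
  · intro q t
    show (u (τ q) t * amp (invE n g ρ) + amp (1 - invE n g ρ)) *
      amp (ρ * invE n g ρ + (1 - invE n g ρ)) = amp (ρ * invE n g ρ + (1 - invE n g ρ)) *
        (u q t * amp (invE n g ρ) + amp (1 - invE n g ρ))
    have he := hu.eqv q t
    have hc1 := hcomm q t
    have hc2 := hcomm (τ q) t
    rw [amp_add, amp_mul, amp_sub, amp_one]
    generalize amp (invE n g ρ) = E at *
    generalize amp ρ = P at *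
    generalize u q t = x at *
    generalize u (τ q) t = y at *
    have b1 : y * E * (P * E) = P * E * (x * E) := by
      calc y * E * (P * E) = y * (E * P) * E := by noncomm_ring
        _ = (y * P) * (E * E) := by rw [← hρc]; noncomm_ring
        _ = P * x * (E * E) := by rw [he]
        _ = P * (x * E) * E := by noncomm_ring
        _ = P * (E * x) * E := by rw [hc1]
        _ = P * E * (x * E) := by noncomm_ring
    have b2 : y * E * (1 - E) = 0 := by
      calc y * E * (1 - E) = y * (E - E * E) := by noncomm_ring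
        _ = 0 := by rw [hE, sub_self, mul_zero]
    have b3 : (1 - E) * (P * E) = 0 := by
      calc (1 - E) * (P * E) = P * E - (E * P) * E := by noncomm_ring
        _ = P * (E - E * E) := by rw [← hρc]; noncomm_ring
        _ = 0 := by rw [hE, sub_self, mul_zero]
    have b4 : P * E * (1 - E) = 0 := by
      calc P * E * (1 - E) = P * (E - E * E) := by noncomm_ring
        _ = 0 := by rw [hE, sub_self, mul_zero]
    have b5 : (1 - E) * (x * E) = 0 := by
      calc (1 - E) * (x * E) = (1 - E) * (E * x) := by rw [hc1]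
        _ = (E - E * E) * x := by noncomm_ring
        _ = 0 := by rw [hE, sub_self, zero_mul]
    rw [add_mul, mul_add, mul_add, add_mul, mul_add, mul_add, b1, b2, b3, b4, b5]

noncomputable def KObj.invO (hg : g ≠ 0) (hτn : τ^[n] = id) (x : KObj (n * g) τ Z) : KObj n τ Z :=
  { ι := x.ι
    ρ := x.ρ * invE n g x.ρ + (1 - invE n g x.ρ)
    u := fun q t => x.u q t * amp (invE n g x.ρ) + amp (1 - invE n g x.ρ)
    hρ := isRep_inv hg x.hρ
    hu := isEl_inv hg hτn x.hρ x.hu }

theorem KObj.invO_add (hg : g ≠ 0) (hτn : τ^[n] = id) (x y : KObj (n * g) τ Z) :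
    KG.mkO ((x.add y).invO hg hτn) = KG.mkO (x.invO hg hτn) + KG.mkO (y.invO hg hτn) := by
  have h1 : KG.mkO ((x.add y).invO hg hτn)
      = KG.mk ((x.invO hg hτn).hρ.dsum (y.invO hg hτn).hρ)
          ((x.invO hg hτn).hu.bsum (y.invO hg hτn).hu) := by
    refine KG.mk_congr ((x.add y).invO hg hτn).hρ ((x.add y).invO hg hτn).hu _ _ ?_ ?_
    · exact inv_dg_comb x.ρ y.ρ
    · intro q t
      exact inv_bs_comb x.ρ y.ρ (x.u q t) (y.u q t)
  rw [h1, KG.mk_bs]
  rfl

theorem KObj.invO_null (hg : g ≠ 0) (hτn : τ^[n] = id) (x : KObj (n * g) τ Z)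
    (hx : Null (n * g) x.ρ τ Z x.u) : KG.mkO (x.invO hg hτn) = 0 := by
  have hgoal : Null n (x.ρ * invE n g x.ρ + (1 - invE n g x.ρ)) τ Z
      (fun q t => x.u q t * amp (invE n g x.ρ) + amp (1 - invE n g x.ρ)) := by
    obtain ⟨κ, fκ, dκ, σ, U, hσ, hU⟩ := hx
    have hτn' : (Prod.map τ (id : UI → UI))^[n] = id := by
      rw [Prod.map_iterate, hτn, Function.iterate_id]
      rfl
    have hU' := isEl_inv hg hτn' (x.hρ.dsum hσ) hU.1
    rw [inv_dg_comb] at hU'
    refine ⟨κ, fκ, dκ, σ * invE n g σ + (1 - invE n g σ), _, isRep_inv hg hσ, hU', ?_, ?_⟩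
    · intro q t
      have h0 : U (q, 0) t = bs (x.u q t) (1 : MM κ) := hU.2.1 q t
      show U (q, 0) t * amp (invE n g (dg x.ρ σ)) + amp (1 - invE n g (dg x.ρ σ)) =
        bs (x.u q t * amp (invE n g x.ρ) + amp (1 - invE n g x.ρ)) (1 : MM κ)
      rw [h0, inv_bs_comb, one_mul]
      congr 1
      rw [← amp_add, ← amp_one]
      congr 1
      abel
    · intro q t
      have h0 : U (q, 1) t = 1 := hU.2.2 q t
      show U (q, 1) t * amp (invE n g (dg x.ρ σ)) + amp (1 - invE n g (dg x.ρ σ)) = 1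
      rw [h0, one_mul, ← amp_add, ← amp_one]
      congr 1
      abel
  exact (KG.mk_eq_zero_iff (isRep_inv hg x.hρ) (isEl_inv hg hτn x.hρ x.hu)).2 hgoal

/-- the homomorphism `π_G : KG (n g) → KG n` -/
noncomputable def invH (hg : g ≠ 0) (hτn : τ^[n] = id) : KG (n * g) τ Z →+ KG n τ Z :=
  KG.lift (fun x => KG.mkO (x.invO hg hτn)) (KObj.invO_add hg hτn) (KObj.invO_null hg hτn)

theorem inv_invH_mk (hg : g ≠ 0) (hτn : τ^[n] = id) {ι : Type} [Fintype ι] [DecidableEq ι]
    {ρ : Matrix ι ι ℂ} (hρ : IsRep (n * g) ρ) {u : Q → UI → MM ι} (hu : IsEl ρ τ Z u) :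
    invH hg hτn (KG.mk hρ hu) = KG.mk (isRep_inv hg hρ) (isEl_inv hg hτn hρ hu) := rfl

theorem inv_infl_mk (g : ℕ) {ι : Type} [Fintype ι] [DecidableEq ι]
    {ρ : Matrix ι ι ℂ} (hρ : IsRep n ρ) {u : Q → UI → MM ι} (hu : IsEl ρ τ Z u) :
    ∃ hρ' : IsRep (n * g) ρ, infl g (KG.mk hρ hu) = KG.mk hρ' hu := by
  have h : ResData n (n * g) 1 τ τ Z Z (id : Q → Q) :=
    ⟨by simp, continuous_id, by simp, fun _ h => h⟩
  have hρ' : IsRep (n * g) ρ := by
    have := hρ.pow (n1 := n * g) (m := 1) h.dvd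
    rwa [pow_one] at this
  refine ⟨hρ', ?_⟩
  have h1 : infl g (KG.mk hρ hu) = KG.mk (hρ.pow h.dvd) (hu.res h) := rfl
  rw [h1]
  exact KG.mk_congr _ _ _ _ (pow_one ρ) fun q t => rfl

theorem invH_infl (hg : g ≠ 0) (hn : n ≠ 0) (hτn : τ^[n] = id) (y : KG n τ Z) :
    invH hg hτn (infl g y) = y := by
  obtain ⟨ι, fι, dι, ρ, u, hρ, hu, rfl⟩ := KG.ind y
  obtain ⟨hρ', h1⟩ := inv_infl_mk g hρ hu
  rw [h1, inv_invH_mk]
  have he : invE n g ρ = 1 := by
    unfold invE
    simp only [hρ.2, one_pow]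
    rw [Finset.sum_const, Finset.card_range, ← Nat.cast_smul_eq_nsmul ℂ, smul_smul,
      inv_mul_cancel₀ (Nat.cast_ne_zero.2 hg), one_smul]
  refine KG.mk_congr _ _ _ _ ?_ ?_
  · rw [he, mul_one, sub_self, add_zero]
  · intro q t
    rw [he, sub_self, amp_one, amp_zero, mul_one, add_zero]

theorem invH_Lh_infl (hg : g ≠ 0) (hn : n ≠ 0) (hτn : τ^[n] = id) {i : ℕ} (hi : 0 < i)
    (hig : i < g) (y : KG n τ Z) : invH hg hτn ((Lh ^ i) (infl g y)) = 0 := by
  obtain ⟨ι, fι, dι, ρ, u, hρ, hu, rfl⟩ := KG.ind y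
  obtain ⟨hρ', h1⟩ := inv_infl_mk g hρ hu
  rw [h1, Lh_pow_mk, inv_invH_mk]
  have hz : zt (n * g) ^ n = zt g := by
    rw [mul_comm n g]; exact zt_mul_pow g n hn
  have he : invE n g (zt (n * g) ^ i • ρ) = 0 := by
    unfold invE
    have h2 : (zt (n * g) ^ i • ρ) ^ n = (zt g ^ i) • (1 : Matrix ι ι ℂ) := by
      rw [smul_pow, hρ.2, ← pow_mul, mul_comm i n, pow_mul, hz]
    have h3 : ∀ j : ℕ, ((zt g ^ i) • (1 : Matrix ι ι ℂ)) ^ j = ((zt g ^ i) ^ j) • 1 := by
      intro j
      rw [smul_pow, one_pow]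
    simp only [h2, h3]
    rw [← Finset.sum_smul]
    have h4 : ∑ j ∈ Finset.range g, (zt g ^ i) ^ j = 0 := by
      have hp := zt_isPrimitiveRoot hg
      have hne : zt g ^ i ≠ 1 := by
        intro hcon
        have := (hp.pow_eq_one_iff_dvd i).1 hcon
        exact absurd (Nat.le_of_dvd hi this) (by omega)
      have h5 : (zt g ^ i) ^ g = 1 := by rw [← pow_mul, mul_comm, pow_mul, zt_pow_self, one_pow]
      have h6 := mul_geom_sum (zt g ^ i) g
      rw [h5, sub_self] at h6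
      rcases mul_eq_zero.1 h6 with h7 | h7
      · exact absurd (sub_eq_zero.1 h7) hne
      · exact h7
    rw [h4, zero_smul, smul_zero]
  have h5 : KG.mk (isRep_inv hg (hρ'.smul i)) (isEl_inv hg hτn (hρ'.smul i)
      (hu.smulRep (zt (n * g) ^ i))) = KG.mk (IsRep.one n)
        (IsEl.const_one (ρ := (1 : Matrix ι ι ℂ)) (τ := τ) (Z := Z)) := by
    refine KG.mk_congr _ _ _ _ ?_ ?_
    · rw [he, mul_zero, sub_zero, zero_add]
    · intro q t
      rw [he, sub_zero, amp_one, amp_zero, mul_zero, zero_add]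
  rw [h5, KG.mk_one]

theorem invH_Lh_g (hg : g ≠ 0) (hn : n ≠ 0) (hτn : τ^[n] = id) (x : KG (n * g) τ Z) :
    invH hg hτn ((Lh ^ g) x) = Lh (invH hg hτn x) := by
  obtain ⟨ι, fι, dι, ρ, u, hρ, hu, rfl⟩ := KG.ind x
  rw [Lh_pow_mk, inv_invH_mk, inv_invH_mk]
  have hL : Lh (KG.mk (isRep_inv hg hρ) (isEl_inv hg hτn hρ hu))
      = KG.mk ((isRep_inv hg hρ).smul 1) ((isEl_inv hg hτn hρ hu).smulRep (zt n ^ 1)) := by
    have := Lh_pow_mk 1 (isRep_inv hg hρ) (isEl_inv hg hτn hρ hu)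
    rw [pow_one Lh] at this
    exact this
  rw [hL]
  have hz : zt (n * g) ^ g = zt n := zt_mul_pow n g hg
  have he : invE n g (zt (n * g) ^ g • ρ) = invE n g ρ := by
    unfold invE
    rw [smul_pow, hz, zt_pow_self, one_smul]
  have hi := inv_idem hg hρ.2
  have hc := inv_comm_rho (n := n) (g := g) ρ
  -- the partial isometry `e`
  have hcomm := fun q t => inv_isEl_comm (g := g) hτn hu q t
  have hE : amp (invE n g ρ) * amp (invE n g ρ) = amp (invE n g ρ) := by
    rw [← amp_mul, hi]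
  have hP : PartData ((zt (n * g) ^ g • ρ) * invE n g (zt (n * g) ^ g • ρ) +
      (1 - invE n g (zt (n * g) ^ g • ρ))) (zt n ^ 1 • (ρ * invE n g ρ + (1 - invE n g ρ))) τ
      (fun q t => u q t * amp (invE n g (zt (n * g) ^ g • ρ)) +
        amp (1 - invE n g (zt (n * g) ^ g • ρ))) (fun _ => invE n g ρ) (fun _ => invE n g ρ) := by
    rw [he, hz, pow_one]
    refine ⟨continuous_const, continuous_const, fun _ => ?_, fun _ => ?_, fun _ => ?_, fun _ => ?_,
      fun q t => ?_, fun q t => ?_⟩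
    · rw [hi, hi]
    · rw [hi, hi]
    · exact inv_alg_int (zt n) hi hc
    · exact inv_alg_int' (zt n) hi hc
    · show (u q t * amp (invE n g ρ) + amp (1 - invE n g ρ)) * amp (1 - invE n g ρ * invE n g ρ)
        = amp (1 - invE n g ρ * invE n g ρ)
      rw [hi, amp_sub, amp_one]
      exact inv_alg_right hE
    · show amp (1 - invE n g ρ * invE n g ρ) * (u q t * amp (invE n g ρ) + amp (1 - invE n g ρ))
        = amp (1 - invE n g ρ * invE n g ρ)
      rw [hi, amp_sub, amp_one]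
      exact inv_alg_left hE (hcomm q t)
  have h2 := KG.mk_part (isRep_inv hg (hρ.smul g)) ((isRep_inv hg hρ).smul 1)
    (isEl_inv hg hτn (hρ.smul g) (hu.smulRep (zt (n * g) ^ g))) hP
  rw [← h2]
  refine KG.mk_congr _ _ _ _ rfl ?_
  intro q t
  have h1 := hcomm q t
  show amp (invE n g ρ) * (u q t * amp (invE n g (zt (n * g) ^ g • ρ)) +
        amp (1 - invE n g (zt (n * g) ^ g • ρ))) * amp (invE n g ρ)
        + amp (1 - invE n g ρ * invE n g ρ) = u q t * amp (invE n g ρ) + amp (1 - invE n g ρ)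
  rw [he, hi, amp_sub, amp_one]
  exact inv_alg_conj hE h1

/-- (G2) inflation -/
theorem kgood_infl (hn : ∃ a, n = 2 ^ a) (hg : ∃ b, g = 2 ^ b) (hτn : τ^[n] = id) {m : ℕ}
    (h : Good n τ m) : Good (n * g) τ ((m + 1) * g - 1) := by
  obtain ⟨a, ha⟩ := hn
  obtain ⟨b, rfl⟩ := hg
  have hn0 : n ≠ 0 := by rw [ha]; positivity
  have hg0 : 2 ^ b ≠ 0 := by positivity
  intro hcon
  apply h
  have he : (m + 1) * 2 ^ b - 1 = 2 ^ b * m + (2 ^ b - 1) := by
    have : 1 ≤ 2 ^ b := Nat.one_le_iff_ne_zero.2 hg0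
    rw [add_mul, one_mul, Nat.add_sub_assoc this, mul_comm]
  rw [he, pow_add, pow_mul, one_add_pow_two_pow, one_add_pow_two_pow_sub_one,
    ← infl_oneK] at hcon
  set g : ℕ := 2 ^ b with hgd
  set S : AddMonoid.End (KG (n * g) τ (∅ : Set Q)) := ∑ i ∈ Finset.range g, Lh ^ i with hS
  have h2 : invH hg0 hτn (((1 + Lh ^ g : AddMonoid.End (KG (n * g) τ (∅ : Set Q))) ^ m)
      (S (infl g (oneK n τ))))
      = ((1 + Lh : AddMonoid.End (KG n τ (∅ : Set Q))) ^ m)
        (invH hg0 hτn (S (infl g (oneK n τ)))) := by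
    refine end_pow_comm (invH hg0 hτn) _ _ (fun x => ?_) m _
    show invH hg0 hτn (x + (Lh ^ g) x) = invH hg0 hτn x + Lh (invH hg0 hτn x)
    rw [map_add, invH_Lh_g hg0 hn0]
  have h3 : invH hg0 hτn (S (infl g (oneK n τ))) = oneK n τ := by
    have h4 : S (infl g (oneK n τ)) = ∑ i ∈ Finset.range g, (Lh ^ i) (infl g (oneK n τ)) := by
      rw [hS]
      exact AddMonoidHom.finsetSum_apply _ _ _
    rw [h4, map_sum,
      Finset.sum_eq_single_of_mem 0 (Finset.mem_range.2 (Nat.pos_of_ne_zero hg0))]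
    · rw [pow_zero]
      exact invH_infl hg0 hn0 hτn (oneK n τ)
    · intro i hi hi0
      exact invH_Lh_infl hg0 hn0 hτn (Nat.pos_of_ne_zero hi0) (Finset.mem_range.1 hi) _
  have h5 : (((1 + Lh ^ g : AddMonoid.End (KG (n * g) τ (∅ : Set Q))) ^ m)
      (S (infl g (oneK n τ)))) = 0 := hcon
  rw [h5, map_zero, h3] at h2
  exact h2.symm

end

end Pool.Agent.CRC
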