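import Pool.Agent.Lib.MP_13800a_gt.SSDefs

/-! TASK SSZT: the sets `ZT` are closed and invariant; basic facts on the shift. -/

set_option autoImplicit false

open scoped Matrix Kronecker OnePoint
open Matrix

namespace Pool.Agent.CRC

theorem sszt_mem_suppW {n' : ℕ} [NeZero n'] (w : ZMod n' → PP) (c : ZMod n') :
    c ∈ suppW w ↔ w c ≠ ∞ := by
  simp [suppW]

section
variable {K : Type} [TopologicalSpace K] {n' h : ℕ} [NeZero n'] [NeZero h]
  {τ : K → K} {ZK : Set K}

/-- closedness of the sets `ZT` -/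
theorem isClosed_ZT (hZK : IsClosed ZK) (F : Finset (Finset (ZMod n')))
    (hdown : ∀ A ∈ F, ∀ B, B ⊆ A → B ∈ F) : IsClosed (ZT ZK F) := by
  refine (hZK.prod isClosed_univ).union ?_
  rw [← isOpen_compl_iff]
  have h1 : {p : K × (ZMod n' → PP) | suppW p.2 ∈ F}ᶜ =
      ⋃ A : {A : Finset (ZMod n') // A ∉ F}, ⋂ c ∈ A.1,
        {p : K × (ZMod n' → PP) | p.2 c ≠ ∞} := by
    ext p
    simp only [Set.mem_compl_iff, Set.mem_setOf_eq, Set.mem_iUnion, Set.mem_iInter]
    constructor
    · intro hp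
      exact ⟨⟨suppW p.2, hp⟩, fun c hc => (sszt_mem_suppW p.2 c).1 hc⟩
    · rintro ⟨⟨A, hA⟩, hp⟩ hF
      exact hA (hdown _ hF A fun c hc => (sszt_mem_suppW p.2 c).2 (hp c hc))
  rw [h1]
  refine isOpen_iUnion fun A => ?_
  refine isOpen_biInter_finset fun c _ => ?_
  have h2 : Continuous fun p : K × (ZMod n' → PP) => p.2 c := by fun_prop
  exact (isClosed_singleton (x := (∞ : PP))).isOpen_compl.preimage h2

theorem ZT_invariant (hZi : ∀ x ∈ ZK, τ x ∈ ZK) (F : Finset (Finset (ZMod n')))
    (hshift : ∀ A ∈ F, ∀ j : ZMod n', A.image (fun c => c + j) ∈ F) :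
    ∀ p ∈ ZT ZK F, shT n' τ p ∈ ZT ZK F := by
  rintro p (hp | hp)
  · exact Or.inl ⟨hZi _ hp.1, trivial⟩
  · right
    have h1 : suppW (shT n' τ p).2 = (suppW p.2).image (fun c => c + (-1)) := by
      ext c
      rw [sszt_mem_suppW, Finset.mem_image]
      constructor
      · intro hc
        exact ⟨c + 1, (sszt_mem_suppW _ _).2 hc, by ring⟩
      · rintro ⟨d, hd, rfl⟩
        rw [sszt_mem_suppW] at hd
        show p.2 (d + -1 + 1) ≠ ∞
        rwa [neg_add_cancel_right]
    show suppW (shT n' τ p).2 ∈ F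
    rw [h1]
    exact hshift _ hp _

theorem continuous_shT {n : ℕ} (hτ : Continuous τ) : Continuous (shT n τ) := by
  unfold shT
  refine (hτ.comp continuous_fst).prodMk (continuous_pi fun c => ?_)
  exact (continuous_apply (c + 1)).comp continuous_snd

theorem shT_iterate {n m : ℕ} (hτ : τ^[m] = id) (hn : n ∣ m) : (shT n τ)^[m] = id := by
  have key : ∀ (k : ℕ) (p : K × (ZMod n → PP)),
      (shT n τ)^[k] p = (τ^[k] p.1, fun c => p.2 (c + k)) := by
    intro k
    induction k with
    | zero => intro p; simp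
    | succ k ih =>
      intro p
      rw [Function.iterate_succ_apply, ih, Function.iterate_succ_apply]
      simp only [shT]
      congr 1
      funext c
      push_cast
      rw [add_assoc]
  funext p
  rw [key, hτ]
  have h0 : ((m : ℕ) : ZMod n) = 0 := (ZMod.natCast_eq_zero_iff m n).2 hn
  simp [h0]

theorem continuous_jM {n : ℕ} (hd : n ∣ n') : Continuous (jM K hd) := by
  unfold jM
  refine continuous_fst.prodMk (continuous_pi fun c => ?_)
  exact (continuous_apply (ZMod.castHom hd (ZMod n) c)).comp continuous_snd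

theorem jM_shT {n : ℕ} (hd : n ∣ n') (p : K × (ZMod n → PP)) :
    jM K hd (shT n τ p) = shT n' τ (jM K hd p) := by
  simp only [jM, shT, map_add, map_one]

end

end Pool.Agent.CRC
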