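import Pool.Agent.Lib.MP_13800a_gt.Mat
import Pool.Agent.Lib.MP_13800a_gt.TP

/-! TASK Ker: approximation by trigonometric polynomial elements, (KER) of section 3. -/

set_option autoImplicit false

open scoped Matrix Kronecker Matrix.Norms.L2Operator
open Matrix

namespace Pool.Agent.CRC

/-- binomial weights -/
noncomputable def ker_b (d : ℕ) (m : ℤ) : ℕ := (2 * d).choose ((d : ℤ) + m).toNat

theorem ker_sum_b (d : ℕ) (w : ℂ) (hw : ‖w‖ = 1) :
    ∑ m ∈ Finset.Icc (-(d : ℤ)) d, (ker_b d m : ℂ) * w ^ m = (((‖1 + w‖ ^ 2) ^ d : ℝ) : ℂ) := by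
  have hw0 : w ≠ 0 := by rintro rfl; simp at hw
  have h1 : ∑ m ∈ Finset.Icc (-(d : ℤ)) d, (ker_b d m : ℂ) * w ^ m =
      ∑ k ∈ Finset.range (2 * d + 1), ((2 * d).choose k : ℂ) * w ^ ((k : ℤ) - d) := by
    refine Finset.sum_bij' (fun m _ => ((d : ℤ) + m).toNat) (fun k _ => (k : ℤ) - d) ?_ ?_ ?_ ?_ ?_
    · intro m hm
      simp only [Finset.mem_Icc, Finset.mem_range] at hm ⊢
      omega
    · intro k hk
      simp only [Finset.mem_Icc, Finset.mem_range] at hk ⊢
      omega
    · intro m hm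
      simp only [Finset.mem_Icc] at hm ⊢
      omega
    · intro k hk
      simp only [Finset.mem_range] at hk ⊢
      omega
    · intro m hm
      simp only [Finset.mem_Icc] at hm
      have : (((((d : ℤ) + m).toNat : ℕ) : ℤ) - d) = m := by omega
      rw [this]
      rfl
  rw [h1]
  have h2 : ∑ k ∈ Finset.range (2 * d + 1), ((2 * d).choose k : ℂ) * w ^ ((k : ℤ) - d) =
      w ^ (-(d : ℤ)) * (w + 1) ^ (2 * d) := by
    rw [add_pow, Finset.mul_sum]
    apply Finset.sum_congr rfl
    intro k _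
    rw [sub_eq_add_neg, zpow_add₀ hw0, _root_.zpow_natCast, one_pow]
    ring
  rw [h2, pow_mul, _root_.zpow_neg, _root_.zpow_natCast, ← _root_.inv_pow, ← mul_pow,
    Complex.inv_eq_conj hw, Complex.ofReal_pow]
  congr 1
  push_cast
  rw [← Complex.mul_conj']
  have h3 : (starRingEnd ℂ) w * w = 1 := by
    rw [← Complex.inv_eq_conj hw, inv_mul_cancel₀ hw0]
  simp only [map_add, map_one]
  linear_combination (w + 1) * h3

theorem ker_orth (N : ℕ) [NeZero N] (m : ℤ) (hm : |m| < N) :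
    ∑ j : ZMod N, ((ZMod.toCircle j : Circle) : ℂ) ^ (-m) = if m = 0 then (N : ℂ) else 0 := by
  have h : ∀ j : ZMod N, ((ZMod.toCircle j : Circle) : ℂ) ^ (-m) =
      ZMod.stdAddChar (j * ((-m : ℤ) : ZMod N)) := by
    intro j
    rw [← ZMod.stdAddChar_apply, ← AddChar.map_zsmul_eq_zpow, zsmul_eq_mul, mul_comm]
  simp_rw [h]
  rw [AddChar.sum_mulShift _ (ZMod.isPrimitive_stdAddChar N)]
  have h2 : ((-m : ℤ) : ZMod N) = 0 ↔ m = 0 := by
    rw [ZMod.intCast_zmod_eq_zero_iff_dvd, dvd_neg]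
    constructor
    · intro h
      exact Int.eq_zero_of_abs_lt_dvd h hm
    · rintro rfl
      exact dvd_zero _
  by_cases h0 : m = 0
  · rw [if_pos (h2.mpr h0), if_pos h0, ZMod.card]
  · rw [if_neg (fun h => h0 (h2.mp h)), if_neg h0]
    simp

/-- the normalising factor -/
noncomputable def ker_M (N d : ℕ) : ℝ := (N : ℝ) * ((2 * d).choose d : ℝ)

theorem ker_M_pos (N d : ℕ) [NeZero N] : 0 < ker_M N d := by
  unfold ker_M
  have h1 : 0 < (2 * d).choose d := Nat.choose_pos (by omega)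
  have h2 : 0 < N := Nat.pos_of_ne_zero (NeZero.ne N)
  positivity

/-- the kernel -/
noncomputable def ker_p (N d : ℕ) [NeZero N] (j : ZMod N) (z : Circle) : ℝ :=
  (‖1 + ((z * (ZMod.toCircle j)⁻¹ : Circle) : ℂ)‖ ^ 2) ^ d / ker_M N d

theorem ker_p_nonneg (N d : ℕ) [NeZero N] (j : ZMod N) (z : Circle) : 0 ≤ ker_p N d j z :=
  div_nonneg (by positivity) (ker_M_pos N d).le

/-- coefficients -/
noncomputable def ker_C {ι : Type} (N d : ℕ) [NeZero N] (c : Circle → MM ι) (m : ℤ) : MM ι :=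
  if |m| ≤ d then ((ker_b d m : ℂ) / (ker_M N d : ℂ)) •
    ∑ j : ZMod N, ((ZMod.toCircle j : Circle) : ℂ) ^ (-m) • c (ZMod.toCircle j) else 0

theorem ker_ev {ι : Type} [Fintype ι] [DecidableEq ι] (N d : ℕ) [NeZero N] (c : Circle → MM ι)
    (z : Circle) :
    evTP d (ker_C N d c) z = ∑ j : ZMod N, (ker_p N d j z : ℂ) • c (ZMod.toCircle j) := by
  unfold evTP
  have h1 : ∀ m ∈ Finset.Icc (-(d : ℤ)) d, (z : ℂ) ^ m • ker_C N d c m =
      ∑ j : ZMod N, (((ker_b d m : ℂ) * (((z * (ZMod.toCircle j)⁻¹ : Circle) : ℂ)) ^ m) /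
        (ker_M N d : ℂ)) • c (ZMod.toCircle j) := by
    intro m hm
    rw [Finset.mem_Icc] at hm
    rw [ker_C, if_pos (abs_le.mpr ⟨hm.1, hm.2⟩), Finset.smul_sum, Finset.smul_sum]
    apply Finset.sum_congr rfl
    intro j _
    rw [smul_smul, smul_smul]
    congr 1
    rw [Circle.coe_mul, Circle.coe_inv, mul_zpow, _root_.inv_zpow, _root_.zpow_neg]
    ring
  rw [Finset.sum_congr rfl h1, Finset.sum_comm]
  apply Finset.sum_congr rfl
  intro j _
  rw [← Finset.sum_smul, ← Finset.sum_div, ker_sum_b d _ (Circle.norm_coe _)]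
  unfold ker_p
  push_cast
  rfl

theorem ker_p_sum (N d : ℕ) [NeZero N] (hN : d < N) (z : Circle) :
    ∑ j : ZMod N, ker_p N d j z = 1 := by
  have hM := (ker_M_pos N d).ne'
  have hMc : (ker_M N d : ℂ) ≠ 0 := by exact_mod_cast hM
  have h1 : ∀ j : ZMod N, (ker_p N d j z : ℂ) =
      ∑ m ∈ Finset.Icc (-(d : ℤ)) d, ((ker_b d m : ℂ) * (z : ℂ) ^ m) / (ker_M N d : ℂ) *
        ((ZMod.toCircle j : Circle) : ℂ) ^ (-m) := by
    intro j
    unfold ker_p
    rw [Complex.ofReal_div, ← ker_sum_b d _ (Circle.norm_coe _), Finset.sum_div]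
    apply Finset.sum_congr rfl
    intro m _
    rw [Circle.coe_mul, Circle.coe_inv, mul_zpow, _root_.inv_zpow, _root_.zpow_neg]
    ring
  have h2 : ((∑ j : ZMod N, ker_p N d j z : ℝ) : ℂ) = 1 := by
    rw [Complex.ofReal_sum, Finset.sum_congr rfl (fun j _ => h1 j), Finset.sum_comm]
    rw [Finset.sum_eq_single (0 : ℤ)]
    · rw [← Finset.mul_sum, ker_orth N 0 (by simpa using Nat.pos_of_ne_zero (NeZero.ne N)),
        if_pos rfl]
      unfold ker_b ker_M
      have h3 : ((2 * d).choose d : ℂ) ≠ 0 := by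
        have : 0 < (2 * d).choose d := Nat.choose_pos (by omega)
        exact_mod_cast this.ne'
      have h4 : (N : ℂ) ≠ 0 := by exact_mod_cast NeZero.ne N
      simp only [add_zero, Int.toNat_natCast, zpow_zero, mul_one]
      push_cast
      field_simp
    · intro m hm hm0
      rw [Finset.mem_Icc] at hm
      rw [← Finset.mul_sum, ker_orth N m, if_neg hm0, mul_zero]
      have : |m| ≤ d := abs_le.mpr ⟨hm.1, hm.2⟩
      have h5 : (d : ℤ) < N := by exact_mod_cast hN
      linarith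
    · intro h
      exact absurd (Finset.mem_Icc.mpr ⟨by omega, by omega⟩) h
  exact_mod_cast h2

theorem ker_isTP {n k : ℕ} {Q ι : Type} [TopologicalSpace Q] [Fintype ι]
    [DecidableEq ι] {ρ : Matrix ι ι ℂ} {τ : Q → Q} {Z : Set Q} (hn : 0 < n) (d : ℕ)
    [NeZero (n * (2 * d + 1))] {c : Q × Circle → UI → MM ι}
    (hc : IsEl ρ (Prod.map τ (fun z : Circle => ztC n ^ k * z)) (Z ×ˢ (Set.univ : Set Circle)) c) :
    IsTP n d k ρ τ Z (fun m q t => ker_C (n * (2 * d + 1)) d (fun z => c (q, z) t) m) := by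
  set N := n * (2 * d + 1) with hN
  have hNd : (d : ℤ) < (N : ℤ) := by
    have : 2 * d + 1 ≤ N := Nat.le_mul_of_pos_left _ hn
    have h2 : d < N := by omega
    exact_mod_cast h2
  have hM := (ker_M_pos N d).ne'
  have hNc : (N : ℂ) ≠ 0 := by exact_mod_cast NeZero.ne N
  have hBc : ((2 * d).choose d : ℂ) ≠ 0 := by
    have : 0 < (2 * d).choose d := Nat.choose_pos (by omega)
    exact_mod_cast this.ne'
  have hconst : ∀ m : ℤ, ker_C N d (fun _ => (1 : MM ι)) m = if m = 0 then 1 else 0 := by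
    intro m
    unfold ker_C
    by_cases hm : |m| ≤ d
    · rw [if_pos hm, ← Finset.sum_smul, ker_orth N m (lt_of_le_of_lt hm hNd), smul_smul]
      by_cases h0 : m = 0
      · rw [if_pos h0, if_pos h0, h0]
        have : (ker_b d 0 : ℂ) / (ker_M N d : ℂ) * (N : ℂ) = 1 := by
          unfold ker_b ker_M
          simp only [add_zero, Int.toNat_natCast]
          push_cast
          field_simp
        rw [this, one_smul]
      · rw [if_neg h0, if_neg h0, mul_zero, zero_smul]
    · rw [if_neg hm]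
      have h0 : m ≠ 0 := by
        rintro rfl
        apply hm
        simp
      rw [if_neg h0]
  refine ⟨?_, ?_, ?_, ?_, ?_, ?_⟩
  · intro m
    unfold ker_C
    by_cases hm : |m| ≤ d
    · simp only [if_pos hm]
      have hin : ∀ j : ZMod N, Continuous (fun p : Q × UI =>
          ((ZMod.toCircle j : Circle) : ℂ) ^ (-m) • c (p.1, ZMod.toCircle j) p.2) := by
        intro j
        have h1 : Continuous (fun p : Q × UI => ((p.1, ZMod.toCircle j), p.2)) := by fun_prop
        exact (continuous_const_smul _).comp (hc.cont.comp h1)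
      exact (continuous_const_smul _).comp (continuous_finsetSum _ (fun j _ => hin j))
    · simp only [if_neg hm]
      exact continuous_const
  · intro m hm q t
    unfold ker_C
    rw [if_neg (not_le.mpr hm)]
  · intro m q
    choose a ha using fun z : Circle => hc.zero (q, z)
    unfold ker_C
    by_cases hm : |m| ≤ d
    · refine ⟨((ker_b d m : ℂ) / (ker_M N d : ℂ)) •
        ∑ j : ZMod N, ((ZMod.toCircle j : Circle) : ℂ) ^ (-m) • a (ZMod.toCircle j), ?_⟩
      rw [if_pos hm, amp_smul]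
      congr 1
      have hsum : ∀ S : Finset (ZMod N), ∀ g : ZMod N → Matrix ι ι ℂ,
          amp (∑ j ∈ S, g j) = ∑ j ∈ S, amp (g j) := fun S g =>
        map_sum (AddMonoidHom.mk' (amp : Matrix ι ι ℂ → MM ι) amp_add) g S
      rw [hsum]
      apply Finset.sum_congr rfl
      intro j _
      rw [amp_smul, ← ha]
    · exact ⟨0, by rw [if_neg hm, amp_zero]⟩
  · intro m q
    have : (fun z : Circle => c (q, z) 1) = fun _ => (1 : MM ι) := by
      funext z
      exact hc.one _
    simp only [this]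
    exact hconst m
  · intro m q hq t
    have : (fun z : Circle => c (q, z) t) = fun _ => (1 : MM ι) := by
      funext z
      exact hc.rel _ ⟨hq, Set.mem_univ _⟩ t
    simp only [this]
    exact hconst m
  · intro m q t
    unfold ker_C
    by_cases hm : |m| ≤ d
    · rw [if_pos hm, if_pos hm]
      -- the rotation as a shift of the index
      obtain ⟨s, hs⟩ : ∃ s : ZMod N, (ZMod.toCircle s : Circle) = ztC n ^ k := by
        refine ⟨(((2 * d + 1) * k : ℕ) : ZMod N), ?_⟩
        apply Circle.ext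
        rw [ZMod.toCircle_natCast, Circle.coe_pow, coe_ztC, zt, ← Complex.exp_nat_mul]
        congr 1
        rw [hN]
        have h1 : (n : ℂ) ≠ 0 := by exact_mod_cast hn.ne'
        have h2 : (2 * (d : ℂ) + 1) ≠ 0 := by exact_mod_cast (show (2 * d + 1) ≠ 0 by omega)
        push_cast
        field_simp
      have hzs : zt n ^ k = ((ZMod.toCircle s : Circle) : ℂ) := by
        rw [hs, Circle.coe_pow, coe_ztC]
      have hz0 : ∀ j : ZMod N, ((ZMod.toCircle j : Circle) : ℂ) ≠ 0 := fun j => Circle.coe_ne_zero _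
      have key : ∀ j : ZMod N, amp ρ * (((ZMod.toCircle j : Circle) : ℂ) ^ (-m) •
            c (q, ZMod.toCircle j) t) =
          (zt n ^ k) ^ m • ((((ZMod.toCircle (s + j) : Circle) : ℂ) ^ (-m) •
            c (τ q, ZMod.toCircle (s + j)) t) * amp ρ) := by
        intro j
        have h1 := hc.eqv (q, ZMod.toCircle j) t
        simp only [Prod.map_apply] at h1
        rw [Matrix.mul_smul, ← h1, ← hs, AddChar.map_add_eq_mul, Matrix.smul_mul, smul_smul, hzs]
        congr 1
        rw [Circle.coe_mul, mul_zpow, ← mul_assoc, ← zpow_add₀ (hz0 s), add_neg_cancel, zpow_zero,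
          one_mul]
      rw [Matrix.smul_mul, Matrix.mul_smul, smul_comm]
      congr 1
      rw [Matrix.sum_mul, Matrix.mul_sum, Finset.sum_congr rfl (fun j _ => key j),
        ← Finset.smul_sum]
      congr 1
      exact (Fintype.sum_equiv (Equiv.addLeft s)
        (fun j => (((ZMod.toCircle (s + j) : Circle) : ℂ) ^ (-m) •
            c (τ q, ZMod.toCircle (s + j)) t) * amp ρ) _ (fun j => rfl)).symm
    · rw [if_neg hm, if_neg hm, Matrix.zero_mul, Matrix.mul_zero, smul_zero]

theorem ker_unif {Q ι : Type} [TopologicalSpace Q] [CompactSpace Q] [Fintype ι]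
    [DecidableEq ι] {c : Q × Circle → UI → MM ι}
    (hc : Continuous (fun p : (Q × Circle) × UI => c p.1 p.2)) {ε : ℝ} (hε : 0 < ε) :
    ∃ δ : ℝ, 0 < δ ∧ ∀ q t (z z' : Circle), dist z z' < δ → ‖c (q, z) t - c (q, z') t‖ ≤ ε := by
  have h1 : Continuous (fun p : Circle × (Q × UI) => c (p.2.1, p.1) p.2.2) := by
    have h2 : Continuous (fun p : Circle × (Q × UI) => ((p.2.1, p.1), p.2.2)) := by fun_prop
    exact hc.comp h2
  let F : C(Circle, C(Q × UI, MM ι)) := ContinuousMap.curry ⟨_, h1⟩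
  have hF := CompactSpace.uniformContinuous_of_continuous F.continuous
  obtain ⟨δ, hδ, h⟩ := Metric.uniformContinuous_iff.mp hF ε hε
  refine ⟨δ, hδ, fun q t z z' hz => ?_⟩
  have h3 := h hz
  have h4 := (F z).dist_apply_le_dist (g := F z') (q, t)
  rw [dist_eq_norm] at h4
  exact h4.trans h3.le

theorem ker_far (N d : ℕ) [NeZero N] (hd : 0 < d) (z : Circle) {δ : ℝ} (hδ0 : 0 < δ)
    (hδ1 : δ ≤ 1) :
    ∑ j : ZMod N with δ ≤ dist z (ZMod.toCircle j), ker_p N d j z ≤
      2 * (d * (1 - δ ^ 2 / 4) ^ d) := by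
  have hNpos : (0 : ℝ) < N := by exact_mod_cast Nat.pos_of_ne_zero (NeZero.ne N)
  have hB : (4 : ℝ) ^ d ≤ 2 * d * ((2 * d).choose d : ℝ) := by
    have := Nat.four_pow_le_two_mul_self_mul_centralBinom d hd
    rw [Nat.centralBinom_eq_two_mul_choose] at this
    exact_mod_cast this
  have hBpos : (0 : ℝ) < ((2 * d).choose d : ℝ) := by
    have : 0 < (2 * d).choose d := Nat.choose_pos (by omega)
    exact_mod_cast this
  have hb : ∀ j ∈ (Finset.univ.filter fun j : ZMod N => δ ≤ dist z (ZMod.toCircle j)),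
      ker_p N d j z ≤ 2 * (d * (1 - δ ^ 2 / 4) ^ d) / N := by
    intro j hj
    have hj' := (Finset.mem_filter.mp hj).2
    set w : ℂ := ((z * (ZMod.toCircle j)⁻¹ : Circle) : ℂ) with hw
    have hw1 : ‖w‖ = 1 := Circle.norm_coe _
    have hdist : dist z (ZMod.toCircle j) = ‖w - 1‖ := by
      show dist (z : ℂ) ((ZMod.toCircle j : Circle) : ℂ) = _
      rw [dist_eq_norm, hw, Circle.coe_mul, Circle.coe_inv]
      have h0 : ((ZMod.toCircle j : Circle) : ℂ) ≠ 0 := Circle.coe_ne_zero _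
      have h1 : (z : ℂ) - (ZMod.toCircle j : Circle) =
          ((z : ℂ) * ((ZMod.toCircle j : Circle) : ℂ)⁻¹ - 1) * (ZMod.toCircle j : Circle) := by
        field_simp
      rw [h1, norm_mul, Circle.norm_coe, mul_one]
    have hpar : ‖1 + w‖ ^ 2 = 4 - ‖w - 1‖ ^ 2 := by
      have h1 := Complex.sq_norm (1 + w)
      have h2 := Complex.sq_norm (w - 1)
      have h3 := Complex.sq_norm w
      rw [hw1] at h3
      rw [h1, h2]
      rw [Complex.normSq_apply] at h3 ⊢
      rw [Complex.normSq_apply]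
      simp only [Complex.add_re, Complex.add_im, Complex.sub_re, Complex.sub_im, Complex.one_re,
        Complex.one_im]
      linarith
    have hle : ‖1 + w‖ ^ 2 ≤ 4 * (1 - δ ^ 2 / 4) := by
      rw [hpar]
      rw [hdist] at hj'
      nlinarith
    have h5 : (‖1 + w‖ ^ 2) ^ d ≤ 4 ^ d * (1 - δ ^ 2 / 4) ^ d := by
      rw [← mul_pow]
      exact pow_le_pow_left₀ (by positivity) hle d
    have h6 : 0 ≤ 1 - δ ^ 2 / 4 := by nlinarith
    unfold ker_p ker_M
    rw [div_le_div_iff₀ (by positivity) hNpos]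
    calc (‖1 + w‖ ^ 2) ^ d * (N : ℝ) ≤ (4 ^ d * (1 - δ ^ 2 / 4) ^ d) * N :=
          mul_le_mul_of_nonneg_right h5 hNpos.le
      _ ≤ ((2 * d * ((2 * d).choose d : ℝ)) * (1 - δ ^ 2 / 4) ^ d) * N := by
          apply mul_le_mul_of_nonneg_right _ hNpos.le
          exact mul_le_mul_of_nonneg_right hB (pow_nonneg h6 _)
      _ = _ := by ring
  calc ∑ j : ZMod N with δ ≤ dist z (ZMod.toCircle j), ker_p N d j z
      ≤ ∑ _j : ZMod N with δ ≤ dist z (ZMod.toCircle _j), 2 * (d * (1 - δ ^ 2 / 4) ^ d) / N :=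
        Finset.sum_le_sum hb
    _ ≤ ∑ _j : ZMod N, 2 * (d * (1 - δ ^ 2 / 4) ^ d) / N := by
        apply Finset.sum_le_sum_of_subset_of_nonneg (Finset.filter_subset _ _)
        intro j _ _
        have h6 : 0 ≤ 1 - δ ^ 2 / 4 := by nlinarith
        positivity
    _ = 2 * (d * (1 - δ ^ 2 / 4) ^ d) := by
        rw [Finset.sum_const, Finset.card_univ, ZMod.card, nsmul_eq_mul]
        field_simp

/-- Discrete positive kernel: `N0 = n (2d+1)`,
`C m q t = binom(2d,d+m)/(N0 binom(2d,d)) ∑_{ω^N0=1} ω^{-m} c (q,ω) t`, so that the value at `z` is the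
convex combination `∑_ω p_ω(z) c(q,ω)`, `p_ω(z) = |1+z ω̄|^{2d}/(N0 binom(2d,d))`.
The mass at distance `≥ δ` of `z` is at most `(2d+1)(1-δ²/4)^d`. -/
theorem ker_approx {n k : ℕ} {Q ι : Type} [TopologicalSpace Q] [CompactSpace Q] [Fintype ι]
    [DecidableEq ι] {ρ : Matrix ι ι ℂ} {τ : Q → Q} {Z : Set Q} (hn : 0 < n)
    {c : Q × Circle → UI → MM ι}
    (hc : IsEl ρ (Prod.map τ (fun z : Circle => ztC n ^ k * z)) (Z ×ˢ (Set.univ : Set Circle)) c)
    {e : ℝ} (h4 : ∀ q t, ‖c q t - 1‖ ≤ e) {η : ℝ} (hη : 0 < η) :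
    ∃ d0 : ℕ, ∀ d ≥ d0, ∃ C : ℤ → Q → UI → MM ι, IsTP n d k ρ τ Z C ∧
      (∀ q t (z : Circle), ‖evTP d (fun m => C m q t) z - c (q, z) t‖ ≤ η) ∧
      (∀ q t (z : Circle), ‖evTP d (fun m => C m q t) z - 1‖ ≤ e) := by
  obtain ⟨δ', hδ', hunif⟩ := ker_unif hc.cont (half_pos hη)
  set δ := min δ' 1 with hδ
  have hδ0 : 0 < δ := lt_min hδ' one_pos
  have hδ1 : δ ≤ 1 := min_le_right _ _
  have hr0 : 0 ≤ 1 - δ ^ 2 / 4 := by nlinarith
  have hr1 : 1 - δ ^ 2 / 4 < 1 := by
    have : 0 < δ ^ 2 := by positivity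
    linarith
  have hlim := tendsto_self_mul_const_pow_of_lt_one hr0 hr1
  have hlim2 : Filter.Tendsto (fun d : ℕ => 2 * |e| * (2 * ((d : ℝ) * (1 - δ ^ 2 / 4) ^ d)))
      Filter.atTop (nhds 0) := by
    have := (hlim.const_mul 2).const_mul (2 * |e|)
    simpa using this
  obtain ⟨d1, hd1⟩ := (hlim2.eventually (gt_mem_nhds (half_pos hη))).exists_forall_of_atTop
  refine ⟨max d1 1, fun d hd => ?_⟩
  have hdpos : 0 < d := lt_of_lt_of_le one_pos ((le_max_right _ _).trans hd)
  have hd1' := hd1 d ((le_max_left _ _).trans hd)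
  have : NeZero (n * (2 * d + 1)) := ⟨Nat.mul_ne_zero hn.ne' (by omega)⟩
  refine ⟨_, ker_isTP hn d hc, ?_, ?_⟩
  · intro q t z
    have hsum := ker_p_sum (n * (2 * d + 1)) d (by
      have : 2 * d + 1 ≤ n * (2 * d + 1) := Nat.le_mul_of_pos_left _ hn
      omega) z
    have hev := ker_ev (n * (2 * d + 1)) d (fun z => c (q, z) t) z
    have hdec : evTP d (ker_C (n * (2 * d + 1)) d (fun z => c (q, z) t)) z - c (q, z) t =
        ∑ j : ZMod (n * (2 * d + 1)), (ker_p (n * (2 * d + 1)) d j z : ℂ) •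
          (c (q, ZMod.toCircle j) t - c (q, z) t) := by
      rw [hev]
      simp only [smul_sub]
      rw [Finset.sum_sub_distrib, ← Finset.sum_smul, ← Complex.ofReal_sum, hsum,
        Complex.ofReal_one, one_smul]
    show ‖evTP d (ker_C (n * (2 * d + 1)) d (fun z => c (q, z) t)) z - c (q, z) t‖ ≤ η
    rw [hdec]
    refine (norm_sum_le _ _).trans ?_
    have hterm : ∀ j : ZMod (n * (2 * d + 1)), ‖(ker_p (n * (2 * d + 1)) d j z : ℂ) •
          (c (q, ZMod.toCircle j) t - c (q, z) t)‖ ≤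
        ker_p (n * (2 * d + 1)) d j z * (η / 2) +
          (if δ ≤ dist z (ZMod.toCircle j) then ker_p (n * (2 * d + 1)) d j z * (2 * |e|)
            else 0) := by
      intro j
      have hp := ker_p_nonneg (n * (2 * d + 1)) d j z
      rw [norm_smul, Complex.norm_real, Real.norm_eq_abs, abs_of_nonneg hp]
      by_cases hj : δ ≤ dist z (ZMod.toCircle j)
      · rw [if_pos hj]
        have h1 : ‖c (q, ZMod.toCircle j) t - c (q, z) t‖ ≤ 2 * |e| := by
          have h2 : c (q, ZMod.toCircle j) t - c (q, z) t =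
              (c (q, ZMod.toCircle j) t - 1) - (c (q, z) t - 1) := by abel
          rw [h2]
          refine (norm_sub_le _ _).trans ?_
          have h3 := h4 (q, ZMod.toCircle j) t
          have h5 := h4 (q, z) t
          have h6 := le_abs_self e
          linarith
        have h7 := mul_le_mul_of_nonneg_left h1 hp
        have h8 := mul_nonneg hp (half_pos hη).le
        linarith
      · rw [if_neg hj, add_zero]
        apply mul_le_mul_of_nonneg_left _ hp
        apply hunif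
        rw [dist_comm]
        exact lt_of_lt_of_le (not_le.mp hj) (min_le_left _ _)
    refine (Finset.sum_le_sum (fun j _ => hterm j)).trans ?_
    rw [Finset.sum_add_distrib, ← Finset.sum_mul, hsum, one_mul, ← Finset.sum_filter,
      ← Finset.sum_mul]
    have hfar := ker_far (n * (2 * d + 1)) d hdpos z hδ0 hδ1
    have h9 := mul_le_mul_of_nonneg_right hfar (show 0 ≤ 2 * |e| by positivity)
    linarith
  · intro q t z
    have hsum := ker_p_sum (n * (2 * d + 1)) d (by
      have : 2 * d + 1 ≤ n * (2 * d + 1) := Nat.le_mul_of_pos_left _ hn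
      omega) z
    have hev := ker_ev (n * (2 * d + 1)) d (fun z => c (q, z) t) z
    have hdec : evTP d (ker_C (n * (2 * d + 1)) d (fun z => c (q, z) t)) z - 1 =
        ∑ j : ZMod (n * (2 * d + 1)), (ker_p (n * (2 * d + 1)) d j z : ℂ) •
          (c (q, ZMod.toCircle j) t - 1) := by
      rw [hev]
      simp only [smul_sub]
      rw [Finset.sum_sub_distrib, ← Finset.sum_smul, ← Complex.ofReal_sum, hsum,
        Complex.ofReal_one, one_smul]
    show ‖evTP d (ker_C (n * (2 * d + 1)) d (fun z => c (q, z) t)) z - 1‖ ≤ e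
    rw [hdec]
    refine (norm_sum_le _ _).trans ?_
    have hterm : ∀ j : ZMod (n * (2 * d + 1)), ‖(ker_p (n * (2 * d + 1)) d j z : ℂ) •
          (c (q, ZMod.toCircle j) t - 1)‖ ≤ ker_p (n * (2 * d + 1)) d j z * e := by
      intro j
      have hp := ker_p_nonneg (n * (2 * d + 1)) d j z
      rw [norm_smul, Complex.norm_real, Real.norm_eq_abs, abs_of_nonneg hp]
      exact mul_le_mul_of_nonneg_left (h4 _ _) hp
    refine (Finset.sum_le_sum (fun j _ => hterm j)).trans ?_
    rw [← Finset.sum_mul, hsum, one_mul]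

end Pool.Agent.CRC
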