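import Pool.Agent.Lib.MP_13800a_gt.TSCore
import Pool.Agent.Lib.MP_13800a_gt.Ker

/-! TASK TSMain: the theorem (TS) of section 3 from `ht_chop`, `ker_approx`, `ts_core`. -/

set_option autoImplicit false

open scoped Matrix Kronecker Matrix.Norms.L2Operator
open Matrix

namespace Pool.Agent.CRC

theorem tsmain_norm_one_le {ι : Type} [Fintype ι] [DecidableEq ι] : ‖(1 : MM ι)‖ ≤ 1 := by
  rcases subsingleton_or_nontrivial (MM ι) with h | h
  · rw [Subsingleton.elim (1 : MM ι) 0, norm_zero]; exact zero_le_one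
  · exact (CStarRing.norm_one (E := MM ι)).le

theorem tsmain_norm_le {ι : Type} [Fintype ι] [DecidableEq ι] {c : MM ι}
    (h : ‖c - 1‖ ≤ 1 / 4) : ‖c‖ ≤ 5 / 4 := by
  have h1 : ‖c‖ ≤ ‖c - 1‖ + ‖(1 : MM ι)‖ := by
    simpa using norm_add_le (c - 1) (1 : MM ι)
  have h2 := tsmain_norm_one_le (ι := ι)
  linarith

theorem tsmain_norm_prod {X ι : Type} [Fintype ι] [DecidableEq ι] (f : X → MM ι)
    (l : List X) (hf : ∀ x ∈ l, ‖f x‖ ≤ 5 / 4) : ‖(l.map f).prod‖ ≤ (5 / 4) ^ l.length := by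
  induction l with
  | nil => simpa using tsmain_norm_one_le (ι := ι)
  | cons a l ih =>
    rw [List.map_cons, List.prod_cons, List.length_cons, pow_succ, mul_comm ((5 / 4 : ℝ) ^ _)]
    refine (norm_mul_le _ _).trans ?_
    exact mul_le_mul (hf a (by simp)) (ih fun x hx => hf x (by simp [hx])) (norm_nonneg _)
      (by norm_num)

theorem tsmain_norm_prod_sub {X ι : Type} [Fintype ι] [DecidableEq ι] (f g : X → MM ι)
    {η : ℝ} (hη : 0 ≤ η) (l : List X) (hf : ∀ x ∈ l, ‖f x‖ ≤ 5 / 4) (hg : ∀ x ∈ l, ‖g x‖ ≤ 5 / 4)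
    (hfg : ∀ x ∈ l, ‖f x - g x‖ ≤ η) :
    ‖(l.map f).prod - (l.map g).prod‖ ≤ l.length * (5 / 4) ^ l.length * η := by
  induction l with
  | nil => simp
  | cons a l ih =>
    have ih' := ih (fun x hx => hf x (by simp [hx])) (fun x hx => hg x (by simp [hx]))
      (fun x hx => hfg x (by simp [hx]))
    have hP := tsmain_norm_prod f l (fun x hx => hf x (by simp [hx]))
    rw [List.map_cons, List.prod_cons, List.map_cons, List.prod_cons, List.length_cons]
    have he : f a * (l.map f).prod - g a * (l.map g).prod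
        = (f a - g a) * (l.map f).prod + g a * ((l.map f).prod - (l.map g).prod) := by
      noncomm_ring
    rw [he]
    have h1 : ‖(f a - g a) * (l.map f).prod‖ ≤ η * (5 / 4) ^ l.length :=
      (norm_mul_le _ _).trans (mul_le_mul (hfg a (by simp)) hP (norm_nonneg _) hη)
    have h2 : ‖g a * ((l.map f).prod - (l.map g).prod)‖
        ≤ 5 / 4 * (l.length * (5 / 4) ^ l.length * η) :=
      (norm_mul_le _ _).trans (mul_le_mul (hg a (by simp)) ih' (norm_nonneg _) (by norm_num))
    have h3 : (0 : ℝ) ≤ (5 / 4) ^ l.length * η := by positivity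
    push_cast
    rw [pow_succ]
    refine (norm_add_le _ _).trans ?_
    nlinarith [h1, h2, h3]

theorem ts_main {n k : ℕ} {Q : Type} [TopologicalSpace Q] [CompactSpace Q]
    {τ : Q → Q} {Z : Set Q} (hn : 0 < n)
    (h : PullData τ (Prod.map τ (fun z : Circle => ztC n ^ k * z)) Z
      (Z ×ˢ (Set.univ : Set Circle)) Prod.fst) (x : KG n τ Z) (hx : pull h x = 0) :
    ∃ w : KG n τ Z, x = w + (Lh ^ k) w := by
  obtain ⟨ι, fι, dι, ρ, u, hρ, hu, rfl⟩ := KG.ind x
  rw [pull_mk, KG.mk_eq_zero_iff] at hx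
  obtain ⟨κ, fκ, dκ, σ, U, hσ, hU⟩ := hx
  -- the stabilised element
  set u' : Q → UI → MM (ι ⊕ κ) := fun q t => bs (u q t) (1 : MM κ) with hu'd
  have hu' : IsEl (dg ρ σ) τ Z u' := hu.bsum IsEl.const_one
  have hmk : KG.mk (hρ.dsum hσ) hu' = KG.mk hρ hu := by
    have h1 := KG.mk_bs hρ hu hσ (IsEl.const_one (ρ := σ) (τ := τ) (Z := Z))
    rw [KG.mk_one, add_zero] at h1
    exact h1
  rw [← hmk]
  obtain ⟨l, hl, hprod⟩ := ht_chop (⟨U, hU⟩ : Ht (dg ρ σ) _ _ _ _) (η := 1 / 4) (by norm_num)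
  -- bounds for `u'` and its inverse
  obtain ⟨A, hA⟩ := (isCompact_univ (X := Q × UI)).exists_bound_of_continuousOn
    hu'.inv.cont.continuousOn
  obtain ⟨B, hB⟩ := (isCompact_univ (X := Q × UI)).exists_bound_of_continuousOn
    hu'.cont.continuousOn
  set R := l.length with hR
  set A' : ℝ := |A| + 1 with hA'
  set B' : ℝ := |B| + 1 with hB'
  have hA'0 : 0 < A' := by positivity
  have hB'0 : 0 < B' := by positivity
  set K : ℝ := (4 / 3) ^ R * B' * (A' * ((R + 1) * (5 / 4) ^ R)) with hK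
  have hK0 : 0 < K := by positivity
  set η : ℝ := 1 / (2 * K) with hη
  have hη0 : 0 < η := by positivity
  -- approximation
  have key : ∃ d : ℕ, ∀ c ∈ l, ∃ C : ℤ → Q → UI → MM (ι ⊕ κ), IsTP n d k (dg ρ σ) τ Z C ∧
      (∀ q t (z : Circle), ‖evTP d (fun m => C m q t) z - c (q, z) t‖ ≤ η) ∧
      (∀ q t (z : Circle), ‖evTP d (fun m => C m q t) z - 1‖ ≤ 1 / 4) := by
    have h1 : ∃ d0 : ℕ, ∀ d ≥ d0, ∀ c ∈ l, ∃ C : ℤ → Q → UI → MM (ι ⊕ κ),
        IsTP n d k (dg ρ σ) τ Z C ∧
        (∀ q t (z : Circle), ‖evTP d (fun m => C m q t) z - c (q, z) t‖ ≤ η) ∧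
        (∀ q t (z : Circle), ‖evTP d (fun m => C m q t) z - 1‖ ≤ 1 / 4) := by
      clear hprod hR hK hη hmk
      clear_value η
      clear hK0
      clear_value K R
      induction l with
      | nil => exact ⟨0, fun d _ c hc => absurd hc (by simp)⟩
      | cons a l ih =>
        obtain ⟨d1, hd1⟩ := ih fun c hc => hl c (by simp [hc])
        have ha := hl a (by simp)
        obtain ⟨d2, hd2⟩ := ker_approx hn ha.1 (e := 1 / 4) ha.2 hη0
        refine ⟨max d1 d2, fun d hd c hc => ?_⟩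
        rcases List.mem_cons.1 hc with rfl | hc
        · exact hd2 d ((le_max_right _ _).trans hd)
        · exact hd1 d ((le_max_left _ _).trans hd) c hc
    obtain ⟨d0, hd0⟩ := h1
    exact ⟨d0, hd0 d0 le_rfl⟩
  obtain ⟨d, hd⟩ := key
  choose! F hF using hd
  set M : ℝ := A' * ((R + 1) * (5 / 4) ^ R) * η with hM
  have hM0 : 0 < M := by positivity
  refine ts_core (d := d) hn (hρ.dsum hσ) hu' (l.map F) ?_ ?_ (M := M) ?_ ?_
  · intro C hC
    obtain ⟨c, hc, rfl⟩ := List.mem_map.1 hC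
    exact (hF c hc).1
  · intro C hC q t z
    obtain ⟨c, hc, rfl⟩ := List.mem_map.1 hC
    exact (hF c hc).2.2 q t z
  · intro q t
    rw [List.length_map]
    have h1 : ‖u' q t‖ ≤ B' := by
      have := hB (q, t) (Set.mem_univ _)
      have h2 := le_abs_self B
      simp only [hB']
      linarith
    calc (4 / 3 : ℝ) ^ l.length * ‖u' q t‖ * M ≤ (4 / 3 : ℝ) ^ l.length * B' * M := by
          gcongr
      _ = K * η := by rw [hM, hK]; ring
      _ = 1 / 2 := by rw [hη]; field_simp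
      _ < 1 := by norm_num
  · intro q t z
    have h1 : (List.map (fun C : ℤ → Q → UI → MM (ι ⊕ κ) => evTP d (fun m => C m q t) z)
        (List.map F l)).prod = (l.map (fun c => evTP d (fun m => F c m q t) z)).prod := by
      rw [List.map_map]; rfl
    rw [h1]
    have h2 : u' q t = (l.map (fun c => c (q, z) t)).prod := hprod (q, z) t
    have h3 : (u' q t)⁻¹ * (l.map (fun c => evTP d (fun m => F c m q t) z)).prod - 1
        = (u' q t)⁻¹ * ((l.map (fun c => evTP d (fun m => F c m q t) z)).prod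
            - (l.map (fun c => c (q, z) t)).prod) := by
      rw [mul_sub, ← h2, Matrix.nonsing_inv_mul _ ((Matrix.isUnit_iff_isUnit_det _).1 (hu'.unit q t))]
    rw [h3]
    have h4 : ‖(u' q t)⁻¹‖ ≤ A' := by
      have := hA (q, t) (Set.mem_univ _)
      have h2 := le_abs_self A
      simp only [hA']
      linarith
    have h5 := tsmain_norm_prod_sub (fun c => evTP d (fun m => F c m q t) z)
      (fun c : Q × Circle → UI → MM (ι ⊕ κ) => c (q, z) t) hη0.le l
      (fun c hc => tsmain_norm_le ((hF c hc).2.2 q t z))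
      (fun c hc => tsmain_norm_le ((hl c hc).2 (q, z) t))
      (fun c hc => (hF c hc).2.1 q t z)
    refine (norm_mul_le _ _).trans ?_
    calc ‖(u' q t)⁻¹‖ * _ ≤ A' * (l.length * (5 / 4) ^ l.length * η) :=
          mul_le_mul h4 h5 (norm_nonneg _) hA'0.le
      _ ≤ M := by
          rw [hM, mul_assoc A']
          gcongr
          simp [hR]

end Pool.Agent.CRC
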