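import Pool.Agent.Lib.MP_13800a_gt.Pow
import Pool.Agent.Lib.MP_13800a_gt.TSMain

/-! TASK TSD: the theorem (TSD) of section 3 (polydiscs). -/

set_option autoImplicit false

open scoped Matrix Kronecker
open Matrix

namespace Pool.Agent.CRC

/-- rotation of the polydisc by `ζ_n^{k i}` in the `i`-th coordinate -/
noncomputable def rotD (n : ℕ) {m : ℕ} (k : Fin m → ℕ) (d : DB m) : DB m :=
  ⟨fun i => zt n ^ (k i) * d.1 i, by
    have h : ‖zt n‖ = 1 := norm_zt n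
    have hd : ‖d.1‖ ≤ 1 := mem_closedBall_zero_iff.1 d.2
    simp only [mem_closedBall_zero_iff]
    refine (pi_norm_le_iff_of_nonneg zero_le_one).2 fun i => ?_
    rw [norm_mul, norm_pow, h, one_pow, one_mul]
    exact (norm_le_pi_norm d.1 i).trans hd⟩

/-- the centre of the polydisc -/
noncomputable def zeroD (m : ℕ) : DB m := ⟨0, by simp⟩

/-- the closed unit disc -/
abbrev tsd_D : Type := Metric.closedBall (0 : ℂ) 1

/-- rotation of the disc -/
noncomputable def tsd_rot (n k : ℕ) (d : tsd_D) : tsd_D :=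
  ⟨zt n ^ k * d.1, by
    have hd : ‖d.1‖ ≤ 1 := mem_closedBall_zero_iff.1 d.2
    rw [mem_closedBall_zero_iff, norm_mul, norm_pow, norm_zt, one_pow, one_mul]
    exact hd⟩

/-- the centre of the disc -/
noncomputable def tsd_zero : tsd_D := ⟨0, by simp⟩

theorem tsd_comp {Q Q1 Q2 : Type} [TopologicalSpace Q] [TopologicalSpace Q1]
    [TopologicalSpace Q2] {τ : Q → Q} {τ1 : Q1 → Q1} {τ2 : Q2 → Q2} {Z : Set Q} {Z1 : Set Q1}
    {Z2 : Set Q2} {j : Q1 → Q} {j' : Q2 → Q1} (h : PullData τ τ1 Z Z1 j)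
    (h' : PullData τ1 τ2 Z1 Z2 j') : PullData τ τ2 Z Z2 (j ∘ j') :=
  ⟨h.cont.comp h'.cont, fun q => (congrArg j (h'.eqv q)).trans (h.eqv _),
    fun _ hq => h.rel _ (h'.rel _ hq)⟩

/-- the case of one disc -/
theorem tsd_one {n k : ℕ} {Q : Type} [TopologicalSpace Q] [CompactSpace Q]
    {τ : Q → Q} {Z : Set Q} (hn : 0 < n)
    (h0 : PullData (Prod.map τ (tsd_rot n k)) τ
      ((Z ×ˢ (Set.univ : Set tsd_D)) ∪ {p | ‖(p.2.1 : ℂ)‖ = 1}) Z
      (fun q => (q, tsd_zero)))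
    (v : KG n (Prod.map τ (tsd_rot n k))
      ((Z ×ˢ (Set.univ : Set tsd_D)) ∪ {p | ‖(p.2.1 : ℂ)‖ = 1})) :
    ∃ w : KG n τ Z, pull h0 v = (1 + (Lh : AddMonoid.End (KG n τ Z)) ^ k) w := by
  have h : PullData τ (Prod.map τ (fun z : Circle => ztC n ^ k * z)) Z
      (Z ×ˢ (Set.univ : Set Circle)) Prod.fst :=
    ⟨continuous_fst, fun _ => rfl, fun q hq => hq.1⟩
  -- the radial homotopy
  let F : (Q × Circle) × UI → Q × tsd_D := fun p =>
    (p.1.1, ⟨((p.2 : ℝ) : ℂ) * (p.1.2 : ℂ), by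
      rw [mem_closedBall_zero_iff, norm_mul, Circle.norm_coe, mul_one, Complex.norm_real,
        Real.norm_eq_abs, abs_of_nonneg p.2.2.1]
      exact p.2.2.2⟩)
  have hFc : Continuous F := by
    refine Continuous.prodMk (continuous_fst.comp continuous_fst) ?_
    refine Continuous.subtype_mk ?_ _
    exact (Complex.continuous_ofReal.comp (continuous_subtype_val.comp continuous_snd)).mul
      (continuous_induced_dom.comp (continuous_snd.comp continuous_fst))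
  have hFe : ∀ (q : Q × Circle) (s : UI),
      F ((Prod.map τ (fun z : Circle => ztC n ^ k * z)) q, s)
        = (Prod.map τ (tsd_rot n k)) (F (q, s)) := by
    intro q s
    refine Prod.ext rfl (Subtype.ext ?_)
    show ((s : ℝ) : ℂ) * ((ztC n ^ k * q.2 : Circle) : ℂ) = zt n ^ k * (((s : ℝ) : ℂ) * (q.2 : ℂ))
    rw [Circle.coe_mul, Circle.coe_pow, coe_ztC]
    ring
  have hFZ : ∀ q ∈ (Z ×ˢ (Set.univ : Set Circle)), ∀ s, F (q, s) ∈
      ((Z ×ˢ (Set.univ : Set tsd_D)) ∪ {p : Q × tsd_D | ‖(p.2.1 : ℂ)‖ = 1}) :=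
    fun q hq s => Or.inl ⟨hq.1, Set.mem_univ _⟩
  have hF0 : PullData (Prod.map τ (tsd_rot n k)) (Prod.map τ (fun z : Circle => ztC n ^ k * z))
      ((Z ×ˢ (Set.univ : Set tsd_D)) ∪ {p | ‖(p.2.1 : ℂ)‖ = 1}) (Z ×ˢ (Set.univ : Set Circle))
      (fun q => F (q, 0)) :=
    ⟨hFc.comp (Continuous.prodMk continuous_id continuous_const), fun q => hFe q 0,
      fun q hq => hFZ q hq 0⟩
  have hF1 : PullData (Prod.map τ (tsd_rot n k)) (Prod.map τ (fun z : Circle => ztC n ^ k * z))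
      ((Z ×ˢ (Set.univ : Set tsd_D)) ∪ {p | ‖(p.2.1 : ℂ)‖ = 1}) (Z ×ˢ (Set.univ : Set Circle))
      (fun q => F (q, 1)) :=
    ⟨hFc.comp (Continuous.prodMk continuous_id continuous_const), fun q => hFe q 1,
      fun q hq => hFZ q hq 1⟩
  have hF1u : PullData (Prod.map τ (tsd_rot n k)) (Prod.map τ (fun z : Circle => ztC n ^ k * z))
      ((Z ×ˢ (Set.univ : Set tsd_D)) ∪ {p | ‖(p.2.1 : ℂ)‖ = 1}) (Set.univ : Set (Q × Circle))
      (fun q => F (q, 1)) :=
    ⟨hF1.cont, hF1.eqv, fun q _ => Or.inr (by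
      show ‖(((1 : UI) : ℝ) : ℂ) * (q.2 : ℂ)‖ = 1
      rw [norm_mul, Circle.norm_coe]
      simp)⟩
  have hid : PullData (Prod.map τ (fun z : Circle => ztC n ^ k * z))
      (Prod.map τ (fun z : Circle => ztC n ^ k * z)) (Set.univ : Set (Q × Circle))
      (Z ×ˢ (Set.univ : Set Circle)) id := PullData.rel_id (Set.subset_univ _)
  have e1 : pull h (pull h0 v) = pull hF0 v := by
    rw [pull_pull h0 h (tsd_comp h0 h)]
    refine pull_congr _ _ (fun q => ?_) v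
    refine Prod.ext rfl (Subtype.ext ?_)
    show (0 : ℂ) = (((0 : UI) : ℝ) : ℂ) * (q.2 : ℂ)
    simp
  have e2 : pull hF0 v = pull hF1 v := pull_homotopy hFc hFe hFZ hF0 hF1 v
  have e3 : pull hF1 v = 0 := by
    rw [← pull_pull hF1u hid hF1, KG.eq_zero_of_univ (pull hF1u v), map_zero]
  obtain ⟨w, hw⟩ := ts_main (k := k) hn h (pull h0 v) (by rw [e1, e2, e3])
  exact ⟨w, hw⟩

theorem tsd_pull_prod {n : ℕ} {Q Q1 : Type} [TopologicalSpace Q] [TopologicalSpace Q1] {τ : Q → Q}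
    {τ1 : Q1 → Q1} {Z : Set Q} {Z1 : Set Q1} {j : Q1 → Q} (h : PullData τ τ1 Z Z1 j) (l : List ℕ)
    (x : KG n τ Z) :
    pull h ((l.map (fun k => 1 + (Lh : AddMonoid.End (KG n τ Z)) ^ k)).prod x)
      = (l.map (fun k => 1 + (Lh : AddMonoid.End (KG n τ1 Z1)) ^ k)).prod (pull h x) := by
  induction l with
  | nil => rfl
  | cons a l ih =>
    rw [List.map_cons, List.prod_cons, List.map_cons, List.prod_cons]
    show pull h ((1 + (Lh : AddMonoid.End (KG n τ Z)) ^ a) (((l.map (fun k => 1 +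
      (Lh : AddMonoid.End (KG n τ Z)) ^ k)).prod) x)) = (1 + (Lh : AddMonoid.End (KG n τ1 Z1)) ^ a)
        (((l.map (fun k => 1 + (Lh : AddMonoid.End (KG n τ1 Z1)) ^ k)).prod) (pull h x))
    rw [← ih]
    exact pull_one_add_Lh_pow h a _

theorem tsd_commute {n : ℕ} {Q : Type} [TopologicalSpace Q] {τ : Q → Q} {Z : Set Q} (a : ℕ)
    (l : List ℕ) : Commute (1 + (Lh : AddMonoid.End (KG n τ Z)) ^ a)
      (l.map (fun k => 1 + (Lh : AddMonoid.End (KG n τ Z)) ^ k)).prod := by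
  refine Commute.list_prod_right _ _ fun y hy => ?_
  obtain ⟨b, -, rfl⟩ := List.mem_map.1 hy
  exact (Commute.one_left _).add_left ((Commute.one_right _).add_right
    ((Commute.refl _).pow_pow a b))

theorem tsd_aux {n : ℕ} (hn : 0 < n) (m : ℕ) : ∀ (k : Fin m → ℕ) (Q : Type) [TopologicalSpace Q]
    [CompactSpace Q] (τ : Q → Q) (Z : Set Q)
    (h0 : PullData (Prod.map τ (rotD n k)) τ
      ((Z ×ˢ (Set.univ : Set (DB m))) ∪ {p | ‖(p.2.1 : Fin m → ℂ)‖ = 1}) Z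
      (fun q => (q, zeroD m)))
    (v : KG n (Prod.map τ (rotD n k))
      ((Z ×ˢ (Set.univ : Set (DB m))) ∪ {p | ‖(p.2.1 : Fin m → ℂ)‖ = 1})),
    ∃ w : KG n τ Z, pull h0 v =
      ((List.ofFn k).map (fun k => 1 + (Lh : AddMonoid.End (KG n τ Z)) ^ k)).prod w := by
  induction m with
  | zero =>
    intro k Q _ _ τ Z h0 v
    exact ⟨pull h0 v, by simp⟩
  | succ m ih =>
    intro k Q _ _ τ Z h0 v
    -- norms of the vectors `(z, d)`
    have hle : ∀ (z : tsd_D) (d : DB m), ‖(Fin.cons z.1 d.1 : Fin (m + 1) → ℂ)‖ ≤ 1 := by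
      intro z d
      refine (pi_norm_le_iff_of_nonneg zero_le_one).2 fun i => ?_
      refine Fin.cases ?_ (fun i => ?_) i
      · exact mem_closedBall_zero_iff.1 z.2
      · exact (norm_le_pi_norm d.1 i).trans (mem_closedBall_zero_iff.1 d.2)
    let φ : (Q × tsd_D) × DB m → Q × DB (m + 1) := fun p =>
      (p.1.1, ⟨Fin.cons p.1.2.1 p.2.1, mem_closedBall_zero_iff.2 (hle p.1.2 p.2)⟩)
    have hφc : Continuous φ := by
      refine Continuous.prodMk (continuous_fst.comp continuous_fst) ?_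
      refine Continuous.subtype_mk (continuous_pi fun i => ?_) _
      refine Fin.cases ?_ (fun i => ?_) i
      · exact continuous_subtype_val.comp (continuous_snd.comp continuous_fst)
      · exact (continuous_apply i).comp (continuous_subtype_val.comp continuous_snd)
    have hφ : PullData (Prod.map τ (rotD n k))
        (Prod.map (Prod.map τ (tsd_rot n (k 0))) (rotD n (fun i : Fin m => k i.succ)))
        ((Z ×ˢ (Set.univ : Set (DB (m + 1)))) ∪ {p | ‖(p.2.1 : Fin (m + 1) → ℂ)‖ = 1})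
        ((((Z ×ˢ (Set.univ : Set tsd_D)) ∪ {p | ‖(p.2.1 : ℂ)‖ = 1}) ×ˢ (Set.univ : Set (DB m))) ∪
          {p | ‖(p.2.1 : Fin m → ℂ)‖ = 1}) φ := by
      refine ⟨hφc, fun p => ?_, fun p hp => ?_⟩
      · refine Prod.ext rfl (Subtype.ext (funext fun i => ?_))
        refine Fin.cases ?_ (fun i => ?_) i
        · rfl
        · rfl
      · rcases hp with ⟨hp | hp, -⟩ | hp
        · exact Or.inl ⟨hp.1, Set.mem_univ _⟩
        · refine Or.inr (le_antisymm (hle p.1.2 p.2) ?_)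
          have h1 := norm_le_pi_norm (Fin.cons p.1.2.1 p.2.1 : Fin (m + 1) → ℂ) 0
          rw [Fin.cons_zero] at h1
          have h2 : ‖(p.1.2.1 : ℂ)‖ = 1 := hp
          rw [h2] at h1
          exact h1
        · refine Or.inr (le_antisymm (hle p.1.2 p.2) ?_)
          have h2 : ‖(p.2.1 : Fin m → ℂ)‖ = 1 := hp
          refine h2.symm.le.trans ?_
          refine (pi_norm_le_iff_of_nonneg (norm_nonneg _)).2 fun i => ?_
          have h1 := norm_le_pi_norm (Fin.cons p.1.2.1 p.2.1 : Fin (m + 1) → ℂ) i.succ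
          rw [Fin.cons_succ] at h1
          exact h1
    have h2 : PullData (Prod.map (Prod.map τ (tsd_rot n (k 0))) (rotD n (fun i : Fin m => k i.succ)))
        (Prod.map τ (tsd_rot n (k 0)))
        ((((Z ×ˢ (Set.univ : Set tsd_D)) ∪ {p | ‖(p.2.1 : ℂ)‖ = 1}) ×ˢ (Set.univ : Set (DB m))) ∪
          {p | ‖(p.2.1 : Fin m → ℂ)‖ = 1})
        ((Z ×ˢ (Set.univ : Set tsd_D)) ∪ {p | ‖(p.2.1 : ℂ)‖ = 1})
        (fun q => (q, zeroD m)) := by
      refine ⟨Continuous.prodMk continuous_id continuous_const, fun q => ?_,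
        fun q hq => Or.inl ⟨hq, Set.mem_univ _⟩⟩
      refine Prod.ext rfl (Subtype.ext (funext fun i => ?_))
      show (0 : ℂ) = zt n ^ (k i.succ) * 0
      rw [mul_zero]
    have h1 : PullData (Prod.map τ (tsd_rot n (k 0))) τ
        ((Z ×ˢ (Set.univ : Set tsd_D)) ∪ {p | ‖(p.2.1 : ℂ)‖ = 1}) Z
        (fun q => (q, tsd_zero)) := by
      refine ⟨Continuous.prodMk continuous_id continuous_const, fun q => ?_,
        fun q hq => Or.inl ⟨hq, Set.mem_univ _⟩⟩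
      refine Prod.ext rfl (Subtype.ext ?_)
      show (0 : ℂ) = zt n ^ (k 0) * 0
      rw [mul_zero]
    obtain ⟨w2, hw2⟩ := ih (fun i : Fin m => k i.succ) (Q × tsd_D) (Prod.map τ (tsd_rot n (k 0)))
      ((Z ×ˢ (Set.univ : Set tsd_D)) ∪ {p | ‖(p.2.1 : ℂ)‖ = 1}) h2 (pull hφ v)
    obtain ⟨w, hw⟩ := tsd_one hn h1 w2
    refine ⟨w, ?_⟩
    have h21 : PullData (Prod.map τ (rotD n k)) (Prod.map τ (tsd_rot n (k 0)))
        ((Z ×ˢ (Set.univ : Set (DB (m + 1)))) ∪ {p | ‖(p.2.1 : Fin (m + 1) → ℂ)‖ = 1})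
        ((Z ×ˢ (Set.univ : Set tsd_D)) ∪ {p | ‖(p.2.1 : ℂ)‖ = 1})
        (φ ∘ fun q => (q, zeroD m)) := tsd_comp hφ h2
    have h211 : PullData (Prod.map τ (rotD n k)) τ
        ((Z ×ˢ (Set.univ : Set (DB (m + 1)))) ∪ {p | ‖(p.2.1 : Fin (m + 1) → ℂ)‖ = 1}) Z
        ((φ ∘ fun q => (q, zeroD m)) ∘ fun q => (q, tsd_zero)) := tsd_comp h21 h1
    have e : pull h0 v = pull h1 (pull h2 (pull hφ v)) := by
      rw [pull_pull hφ h2 h21, pull_pull h21 h1 h211]
      refine pull_congr _ _ (fun q => ?_) v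
      refine Prod.ext rfl (Subtype.ext (funext fun i => ?_))
      refine Fin.cases ?_ (fun i => ?_) i
      · rfl
      · rfl
    rw [e, hw2, tsd_pull_prod, hw, List.ofFn_succ, List.map_cons, List.prod_cons,
      (tsd_commute (k 0) _).eq]
    rfl

theorem tsd {n m : ℕ} (k : Fin m → ℕ) {Q : Type} [TopologicalSpace Q] [CompactSpace Q]
    {τ : Q → Q} {Z : Set Q} (hn : 0 < n)
    (h0 : PullData (Prod.map τ (rotD n k)) τ
      ((Z ×ˢ (Set.univ : Set (DB m))) ∪ {p | ‖(p.2.1 : Fin m → ℂ)‖ = 1}) Z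
      (fun q => (q, zeroD m)))
    (v : KG n (Prod.map τ (rotD n k))
      ((Z ×ˢ (Set.univ : Set (DB m))) ∪ {p | ‖(p.2.1 : Fin m → ℂ)‖ = 1})) :
    ∃ w : KG n τ Z, pull h0 v =
      ((List.ofFn k).map (fun k => 1 + (Lh : AddMonoid.End (KG n τ Z)) ^ k)).prod w :=
  tsd_aux hn m k Q τ Z h0 v

end Pool.Agent.CRC
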