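import Pool.Agent.Lib.MP_13800a_gt.SSCont
import Pool.Agent.Lib.MP_13800a_gt.SSZT
import Pool.Agent.Lib.MP_13800a_gt.TSD

/-! TASK SSEl: `us`, `uM` and `v` are elements. -/

set_option autoImplicit false

open scoped Matrix Kronecker OnePoint
open Matrix

namespace Pool.Agent.CRC

theorem ssel_resW_mem {n' : ℕ} {S : Finset (ZMod n')} {w : ZMod n' → PP} {c : ZMod n'}
    (hc : c ∈ S) : resW S w c = w c := by
  simp [resW, hc]

theorem ssel_resW_notMem {n' : ℕ} {S : Finset (ZMod n')} {w : ZMod n' → PP} {c : ZMod n'}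
    (hc : c ∉ S) : resW S w c = ∞ := by
  simp [resW, hc]

theorem ssel_continuous_resW {n' : ℕ} (S : Finset (ZMod n')) :
    Continuous (fun w : ZMod n' → PP => resW S w) := by
  refine continuous_pi fun c => ?_
  by_cases hc : c ∈ S
  · simp only [ssel_resW_mem hc]
    exact continuous_apply c
  · simp only [ssel_resW_notMem hc]
    exact continuous_const

theorem ssel_supp_resW {n' : ℕ} [NeZero n'] (S : Finset (ZMod n')) (w : ZMod n' → PP) :
    suppW (resW S w) ⊆ suppW w := by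
  intro c hc
  rw [sszt_mem_suppW] at hc ⊢
  by_cases h : c ∈ S
  · rwa [ssel_resW_mem h] at hc
  · exact absurd (ssel_resW_notMem h) hc

theorem ssel_mem_Sj {n' h : ℕ} [NeZero n'] (hh : h ∣ n') (Sb : Finset (ZMod h)) (j : ZMod h)
    (c : ZMod n') : c ∈ Sj hh Sb j ↔ ZMod.castHom hh (ZMod h) c + j ∈ Sb := by
  rw [Sj, Finset.mem_filter]
  simp only [Finset.mem_univ, true_and]

theorem ssel_mem_Sj_succ {n' h : ℕ} [NeZero n'] (hh : h ∣ n') (Sb : Finset (ZMod h)) (j : ZMod h)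
    (c : ZMod n') : c ∈ Sj hh Sb (j + 1) ↔ c + 1 ∈ Sj hh Sb j := by
  rw [ssel_mem_Sj, ssel_mem_Sj, map_add, map_one, add_assoc, add_comm 1 j]

theorem ssel_addP_infty (z : ℂ) : addP ∞ z = ∞ := rfl

theorem ssel_phiD_mul {z : ℂ} (hz : ‖z‖ = 1) (d : ℂ) : phiD (z * d) = z * phiD d := by
  rw [phiD, phiD, norm_mul, hz, one_mul]
  ring

theorem ssel_norm_rotD {n' m : ℕ} (k : Fin m → ℕ) (d : DB m) :
    ‖((rotD n' k d).1 : Fin m → ℂ)‖ = ‖(d.1 : Fin m → ℂ)‖ := by
  have h1 : ∀ i, ‖(rotD n' k d).1 i‖₊ = ‖d.1 i‖₊ := by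
    intro i
    have h2 : (rotD n' k d).1 i = zt n' ^ (k i) * d.1 i := rfl
    have h3 : ‖zt n'‖₊ = 1 := by
      ext
      exact norm_zt n'
    rw [h2, nnnorm_mul, nnnorm_pow, h3, one_pow, one_mul]
  simp only [Pi.norm_def, h1]

section
variable {K : Type} [TopologicalSpace K] {n' h : ℕ} [NeZero n'] [NeZero h]
  {τ : K → K} {ZK : Set K}

theorem isEl_us {ι : Type} [Fintype ι] [DecidableEq ι] {ρ : Matrix ι ι ℂ}
    {u : K × (ZMod n' → PP) → UI → MM ι} (hh : h ∣ n') (Sb : Finset (ZMod h))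
    (F : Finset (Finset (ZMod n')))
    (hdown : ∀ A ∈ F, ∀ B, B ⊆ A → B ∈ F) (hu : IsEl ρ (shT n' τ) (ZT ZK F) u) :
    IsEl ρ (Prod.map (shT n' τ) (fun j : ZMod h => j + 1)) (ZT ZK F ×ˢ (Set.univ : Set (ZMod h)))
      (usEl hh Sb u) := by
  have hcont : Continuous (fun p : (K × (ZMod n' → PP)) × ZMod h =>
      ((p.1.1, resW (Sj hh Sb p.2) p.1.2) : K × (ZMod n' → PP))) := by
    rw [continuous_prod_of_discrete_right]
    intro j
    exact (continuous_fst).prodMk ((ssel_continuous_resW (Sj hh Sb j)).comp continuous_snd)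
  have hcont2 : Continuous (fun p : ((K × (ZMod n' → PP)) × ZMod h) × UI =>
      (((p.1.1.1, resW (Sj hh Sb p.1.2) p.1.1.2) : K × (ZMod n' → PP)), p.2)) :=
    (hcont.comp continuous_fst).prodMk continuous_snd
  refine ⟨hu.cont.comp hcont2, fun q t => hu.unit _ _, fun q => hu.zero _, fun q => hu.one _,
    ?_, ?_⟩
  · rintro p ⟨hp, -⟩ t
    apply hu.rel
    rcases hp with hp | hp
    · exact Or.inl ⟨hp.1, trivial⟩
    · right
      exact hdown _ hp _ (ssel_supp_resW _ _)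
  · rintro ⟨⟨x, w⟩, j⟩ t
    have h1 : usEl hh Sb u (Prod.map (shT n' τ) (fun j : ZMod h => j + 1) ((x, w), j)) t =
        u (shT n' τ (x, resW (Sj hh Sb j) w)) t := by
      show u (τ x, resW (Sj hh Sb (j + 1)) (fun c => w (c + 1))) t = _
      unfold shT
      simp only
      congr 2
      funext c
      by_cases hc : c ∈ Sj hh Sb (j + 1)
      · rw [ssel_resW_mem hc, ssel_resW_mem ((ssel_mem_Sj_succ hh Sb j c).1 hc)]
      · rw [ssel_resW_notMem hc,
          ssel_resW_notMem (fun h => hc ((ssel_mem_Sj_succ hh Sb j c).2 h))]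
    rw [h1]
    exact hu.eqv _ _

end

section
variable {K ι : Type} [TopologicalSpace K] [CompactSpace K] [T2Space K]
  [Fintype ι] [DecidableEq ι] {n n' h : ℕ} [NeZero n'] [NeZero h]
  {τ : K → K} {ZK : Set K} {ρ : Matrix ι ι ℂ} {u : K × (ZMod n' → PP) → UI → MM ι}

omit [CompactSpace K] [T2Space K] [TopologicalSpace K] [NeZero h] in
theorem ssel_supp_empty {w : ZMod n' → PP} (hw : ∀ c, w c = ∞) : suppW w = ∅ := by
  rw [Finset.eq_empty_iff_forall_notMem]
  intro c hc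
  rw [sszt_mem_suppW] at hc
  exact hc (hw c)

theorem isEl_uM (hd : n ∣ n') (hh : h ∣ n') (Sb : Finset (ZMod h)) (F : Finset (Finset (ZMod n')))
    (hdown : ∀ A ∈ F, ∀ B, B ⊆ A → B ∈ F) (hempty : ∅ ∈ F) (hu : IsEl ρ (shT n' τ) (ZT ZK F) u) :
    IsEl ρ (Prod.map (shT n τ) (fun j : ZMod h => j + 1)) (ZM n ZK ×ˢ (Set.univ : Set (ZMod h)))
      (uMEl hd hh Sb u) := by
  have h1 := isEl_us hh Sb F hdown hu
  refine h1.comp (f := Prod.map (jM K hd) (id : ZMod h → ZMod h)) ?_ ?_ ?_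
  · exact (continuous_jM hd).prodMap continuous_id
  · rintro ⟨p, j⟩
    simp only [Prod.map_apply, id_eq, jM_shT]
  · rintro ⟨⟨x, w⟩, j⟩ ⟨hp, -⟩
    refine ⟨?_, trivial⟩
    rcases hp with hp | hp
    · exact Or.inl ⟨hp.1, trivial⟩
    · right
      have h2 : suppW (jM K hd (x, w)).2 = ∅ := ssel_supp_empty fun c => hp _
      show suppW (jM K hd (x, w)).2 ∈ F
      rw [h2]
      exact hempty

/-- `v` is an element over `Q_z × D^m` relative to `Z × D^m ∪ Q_z × ∂D^m` -/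
theorem isEl_vEl {m : ℕ} (hn' : ∃ a, n' = 2 ^ a) (hd : n ∣ n') (hh : h ∣ n')
    (Sb : Finset (ZMod h)) (s0 : ZMod h) (hs0 : s0 ∈ Sb) (k : Fin m → ℕ)
    (hk : Function.Injective k) (hkX : ∀ i, k i ∈ XX n n' h)
    (F : Finset (Finset (ZMod n'))) (hdown : ∀ A ∈ F, ∀ B, B ⊆ A → B ∈ F) (hempty : ∅ ∈ F)
    (hS : ∀ (j : ZMod h) (A : Finset (ZMod n')), A ⊂ Sj hh Sb j → A ∈ F)
    (hu : IsEl ρ (shT n' τ) (ZT ZK F) u) :
    IsEl ρ (Prod.map (Prod.map (shT n τ) (fun j : ZMod h => j + 1)) (rotD n' k))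
      (((ZM n ZK ×ˢ (Set.univ : Set (ZMod h))) ×ˢ (Set.univ : Set (DB m))) ∪
        {p | ‖(p.2.1 : Fin m → ℂ)‖ = 1}) (vEl hd hh Sb s0 k u) := by
  classical
  have hrel : ∀ (j : ZMod h) (x : K) (w : ZMod n' → PP), (∀ c, c ∉ Sj hh Sb j → w c = ∞) →
      (∃ c ∈ Sj hh Sb j, w c = ∞) → ∀ t, u (x, w) t = 1 := by
    rintro j x w h1 ⟨c, hc, hc2⟩ t
    apply hu.rel
    right
    refine hS j _ ?_
    rw [Finset.ssubset_iff_of_subset]
    · exact ⟨c, hc, fun h2 => (sszt_mem_suppW _ _).1 h2 hc2⟩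
    · intro d hd2
      rw [sszt_mem_suppW] at hd2
      by_contra hcon
      exact hd2 (h1 d hcon)
  have hpos : ∀ (p : ((K × (ZMod n → PP)) × ZMod h) × DB m) (t : UI),
      ‖(p.2.1 : Fin m → ℂ)‖ < 1 → vEl hd hh Sb s0 k u p t =
        u (p.1.1.1, wP hd hh Sb s0 k p.1.1.2 p.1.2 p.2) t := by
    intro p t hp
    simp only [vEl]
    rw [if_pos hp]
  have hneg : ∀ (p : ((K × (ZMod n → PP)) × ZMod h) × DB m) (t : UI),
      ¬ ‖(p.2.1 : Fin m → ℂ)‖ < 1 → vEl hd hh Sb s0 k u p t = 1 := by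
    intro p t hp
    simp only [vEl]
    rw [if_neg hp]
    exact Matrix.ext fun a b => by by_cases h : a = b <;> simp [Matrix.one_apply, h]
  refine ⟨continuous_vEl hn' hd hh Sb s0 hs0 k hk hkX u hu.cont hrel, ?_, ?_, ?_, ?_, ?_⟩
  · intro p t
    by_cases hp : ‖(p.2.1 : Fin m → ℂ)‖ < 1
    · rw [hpos p t hp]; exact hu.unit _ _
    · rw [hneg p t hp]; exact isUnit_one
  · intro p
    by_cases hp : ‖(p.2.1 : Fin m → ℂ)‖ < 1
    · rw [hpos p 0 hp]; exact hu.zero _
    · rw [hneg p 0 hp]; exact ⟨1, amp_one.symm⟩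
  · intro p
    by_cases hp : ‖(p.2.1 : Fin m → ℂ)‖ < 1
    · rw [hpos p 1 hp]; exact hu.one _
    · rw [hneg p 1 hp]
  · rintro p hpz t
    by_cases hp : ‖(p.2.1 : Fin m → ℂ)‖ < 1
    · rw [hpos p t hp]
      rcases hpz with ⟨⟨h1, -⟩, -⟩ | h1
      · apply hu.rel
        rcases h1 with h1 | h1
        · exact Or.inl ⟨h1.1, trivial⟩
        · right
          have h2 : suppW (wP hd hh Sb s0 k p.1.1.2 p.1.2 p.2) = ∅ := by
            apply ssel_supp_empty
            intro c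
            simp only [wP]
            rw [h1 (ZMod.castHom hd (ZMod n) c)]
            split_ifs
            · rfl
            · rfl
            · rfl
          show suppW (wP hd hh Sb s0 k p.1.1.2 p.1.2 p.2) ∈ F
          rw [h2]
          exact hempty
      · exact absurd h1 (ne_of_lt hp)
    · rw [hneg p t hp]
  · rintro ⟨⟨⟨x, w⟩, j⟩, d⟩ t
    by_cases hp : ‖(d.1 : Fin m → ℂ)‖ < 1
    · have hp' : ‖((rotD n' k d).1 : Fin m → ℂ)‖ < 1 := by rwa [ssel_norm_rotD]
      rw [hpos (((x, w), j), d) t hp]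
      show vEl hd hh Sb s0 k u (((τ x, fun c => w (c + 1)), j + 1), rotD n' k d) t * amp ρ = _
      rw [hpos (((τ x, fun c => w (c + 1)), j + 1), rotD n' k d) t hp']
      have h1 : wP hd hh Sb s0 k (fun c => w (c + 1)) (j + 1) (rotD n' k d) =
          fun c => wP hd hh Sb s0 k w j d (c + 1) := by
        funext c
        simp only [wP]
        have e1 : ZMod.castHom hh (ZMod h) (c + 1) + j = ZMod.castHom hh (ZMod h) c + (j + 1) := by
          rw [map_add, map_one]; ring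
        have e2 : ZMod.castHom hd (ZMod n) (c + 1) = ZMod.castHom hd (ZMod n) c + 1 := by
          rw [map_add, map_one]
        rw [e1, e2]
        have e3 : ∀ i, zt n' ^ (k i * c.val) * phiD ((rotD n' k d).1 i) =
            zt n' ^ (k i * (c + 1).val) * phiD (d.1 i) := by
          intro i
          have f1 : (rotD n' k d).1 i = zt n' ^ (k i) * d.1 i := rfl
          rw [f1, ssel_phiD_mul (by rw [norm_pow, norm_zt, one_pow]), ← mul_assoc, ← pow_add]
          congr 1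
          have f2 : (c + 1).val = (c.val + 1) % n' := by
            rw [ZMod.val_add, ZMod.val_one_eq_one_mod, Nat.add_mod_mod]
          have f3 : zt n' ^ (k i * (c.val + 1)) = zt n' ^ (k i * (c + 1).val) := by
            rw [f2, mul_comm (k i), mul_comm (k i), pow_mul, pow_mul]
            congr 1
            conv_lhs => rw [← Nat.mod_add_div (c.val + 1) n']
            rw [pow_add, pow_mul, zt_pow_self, one_pow, mul_one]
          rw [← f3]
          congr 1
        simp only [e3]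
      have h2 := hu.eqv (x, wP hd hh Sb s0 k w j d) t
      simp only [shT] at h2
      simp only
      rw [h1]
      exact h2
    · have hp' : ¬ ‖((rotD n' k d).1 : Fin m → ℂ)‖ < 1 := by rwa [ssel_norm_rotD]
      rw [hneg (((x, w), j), d) t hp]
      show vEl hd hh Sb s0 k u (((τ x, fun c => w (c + 1)), j + 1), rotD n' k d) t * amp ρ = _
      rw [hneg (((τ x, fun c => w (c + 1)), j + 1), rotD n' k d) t hp', one_mul, mul_one]

end

end Pool.Agent.CRC
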