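import Pool.Agent.Lib.MP_13800a_gt.SSDefs

/-! TASK SSMin: combinatorics of the filtration (section 4). -/

set_option autoImplicit false

open scoped Matrix Kronecker OnePoint
open Matrix

namespace Pool.Agent.CRC

theorem ssmin_shift_shift {n' : ℕ} (S : Finset (ZMod n')) (a b : ZMod n') :
    (S.image (fun x => x + a)).image (fun x => x + b) = S.image (fun x => x + (a + b)) := by
  rw [Finset.image_image]
  congr 1
  funext x
  simp [add_assoc]

theorem ssmin_shift_zero {n' : ℕ} (S : Finset (ZMod n')) :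
    S.image (fun x => x + (0 : ZMod n')) = S := by
  simp

/-- the shift of `Sj` -/
theorem ssmin_Sj_shift {h n' : ℕ} [NeZero n'] (hh : h ∣ n') (Sb : Finset (ZMod h)) (i : ZMod h)
    (c : ZMod n') :
    (Sj hh Sb i).image (fun x => x + c) = Sj hh Sb (i - ZMod.castHom hh (ZMod h) c) := by
  ext x
  simp only [Finset.mem_image, Sj, Finset.mem_filter, Finset.mem_univ, true_and]
  constructor
  · rintro ⟨y, hy, rfl⟩
    rw [map_add]
    convert hy using 1
    ring
  · intro hx
    refine ⟨x - c, ?_, by ring⟩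
    rw [map_sub]
    convert hx using 1
    ring

/-- combinatorics: a set `S` not in `F` of minimal cardinality, its period `h` and the reduced set
`Sb ⊆ ZMod h` with trivial stabiliser. -/
theorem exists_min_set {n' : ℕ} [NeZero n'] (hn' : ∃ a, n' = 2 ^ a)
    (F : Finset (Finset (ZMod n'))) (hempty : ∅ ∈ F)
    (hshift : ∀ A ∈ F, ∀ j : ZMod n', A.image (fun c => c + j) ∈ F) (hF : F ≠ Finset.univ) :
    ∃ (h : ℕ) (_ : NeZero h) (hh : h ∣ n') (Sb : Finset (ZMod h)), Sb.Nonempty ∧
      (∀ j, Sj hh Sb j ∉ F) ∧ (∀ j (A : Finset (ZMod n')), A ⊂ Sj hh Sb j → A ∈ F) ∧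
      (∀ i j, Sj hh Sb i = Sj hh Sb j → i = j) ∧
      (∀ i (c : ZMod n'), ∃ j, (Sj hh Sb i).image (fun x => x + c) = Sj hh Sb j) := by
  classical
  -- minimal set
  have hne : (Finset.univ.filter fun S : Finset (ZMod n') => S ∉ F).Nonempty := by
    by_contra hcon
    rw [Finset.not_nonempty_iff_eq_empty, Finset.filter_eq_empty_iff] at hcon
    apply hF
    ext S
    simp only [Finset.mem_univ, iff_true]
    by_contra hS
    exact hcon (Finset.mem_univ S) hS
  obtain ⟨S, hS, hmin⟩ := Finset.exists_min_image _ (fun S : Finset (ZMod n') => S.card) hne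
  simp only [Finset.mem_filter, Finset.mem_univ, true_and] at hS hmin
  have hmin' : ∀ A : Finset (ZMod n'), A.card < S.card → A ∈ F := by
    intro A hA
    by_contra hAF
    exact absurd (hmin A hAF) (not_le.mpr hA)
  have hSne : S.Nonempty := by
    rw [Finset.nonempty_iff_ne_empty]
    rintro rfl
    exact hS hempty
  -- the period
  have hn'pos : 0 < n' := Nat.pos_of_ne_zero (NeZero.ne n')
  have hex : ∃ m : ℕ, 0 < m ∧ S.image (fun x => x + (m : ZMod n')) = S :=
    ⟨n', hn'pos, by simp⟩
  let h := Nat.find hex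
  have hpos : 0 < h := (Nat.find_spec hex).1
  have hper : S.image (fun x => x + (h : ZMod n')) = S := (Nat.find_spec hex).2
  have hhmin : ∀ m : ℕ, 0 < m → m < h → S.image (fun x => x + (m : ZMod n')) ≠ S :=
    fun m hm hm' hcon => Nat.find_min hex hm' ⟨hm, hcon⟩
  have hpermul : ∀ q : ℕ, S.image (fun x => x + ((h * q : ℕ) : ZMod n')) = S := by
    intro q
    induction q with
    | zero => simp
    | succ q ih =>
      have : (((h * (q + 1) : ℕ)) : ZMod n') = ((h * q : ℕ) : ZMod n') + (h : ZMod n') := by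
        push_cast
        ring
      rw [this, ← ssmin_shift_shift, ih, hper]
  have hdvd : ∀ m : ℕ, S.image (fun x => x + (m : ZMod n')) = S → h ∣ m := by
    intro m hm
    have h1 : S.image (fun x => x + ((m % h : ℕ) : ZMod n')) = S := by
      have h2 : ((m : ℕ) : ZMod n') = ((h * (m / h) : ℕ) : ZMod n') + ((m % h : ℕ) : ZMod n') := by
        rw [← Nat.cast_add, Nat.div_add_mod]
      rw [h2, ← ssmin_shift_shift, hpermul] at hm
      exact hm
    by_contra hnd
    have h3 : 0 < m % h := Nat.pos_of_ne_zero fun h0 => hnd (Nat.dvd_of_mod_eq_zero h0)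
    exact hhmin _ h3 (Nat.mod_lt _ hpos) h1
  have hh : h ∣ n' := hdvd n' (by simp)
  haveI : NeZero h := ⟨hpos.ne'⟩
  let Sb : Finset (ZMod h) := S.image (ZMod.castHom hh (ZMod h))
  -- elements congruent mod h
  have hcong : ∀ x y : ZMod n', ZMod.castHom hh (ZMod h) x = ZMod.castHom hh (ZMod h) y →
      x ∈ S → y ∈ S := by
    intro x y hxy hx
    have h1 : (ZMod.castHom hh (ZMod h)) (y - x) = 0 := by rw [map_sub, hxy, sub_self]
    have h2 : h ∣ (y - x).val := by
      rw [← ZMod.natCast_eq_zero_iff]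
      rw [ZMod.castHom_apply, ← ZMod.natCast_val] at h1
      exact h1
    obtain ⟨q, hq⟩ := h2
    have h3 : y = x + ((h * q : ℕ) : ZMod n') := by
      rw [← hq, ZMod.natCast_zmod_val]
      ring
    rw [← hpermul q, Finset.mem_image]
    exact ⟨x, hx, h3.symm⟩
  have hS0 : Sj hh Sb 0 = S := by
    ext x
    simp only [Sj, Finset.mem_filter, Finset.mem_univ, true_and, add_zero, Sb, Finset.mem_image]
    constructor
    · rintro ⟨y, hy, hxy⟩
      exact hcong y x hxy hy
    · intro hx
      exact ⟨x, hx, rfl⟩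
  have hsurj : ∀ j : ZMod h, ∃ c : ZMod n', ZMod.castHom hh (ZMod h) c = j :=
    ZMod.castHom_surjective hh
  have hSj : ∀ c : ZMod n', Sj hh Sb (ZMod.castHom hh (ZMod h) c) = S.image (fun x => x + (-c)) := by
    intro c
    rw [← hS0, ssmin_Sj_shift, map_neg, sub_neg_eq_add, zero_add]
  have hback : ∀ c : ZMod n', (Sj hh Sb (ZMod.castHom hh (ZMod h) c)).image (fun x => x + c) = S := by
    intro c
    rw [hSj, ssmin_shift_shift]
    simp
  refine ⟨h, inferInstance, hh, Sb, hSne.image _, ?_, ?_, ?_, ?_⟩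
  · intro j hj
    obtain ⟨c, rfl⟩ := hsurj j
    apply hS
    rw [← hback c]
    exact hshift _ hj c
  · intro j A hA
    obtain ⟨c, rfl⟩ := hsurj j
    apply hmin'
    refine (Finset.card_lt_card hA).trans_le ?_
    rw [hSj]
    exact Finset.card_image_le
  · intro i j hij
    obtain ⟨a, rfl⟩ := hsurj i
    obtain ⟨b, rfl⟩ := hsurj j
    rw [hSj, hSj] at hij
    have h1 : S.image (fun x => x + (a - b)) = S := by
      have h2 := congrArg (fun T : Finset (ZMod n') => T.image (fun x => x + a)) hij
      simp only [ssmin_shift_shift, neg_add_cancel, ssmin_shift_zero] at h2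
      have h3 : a - b = -b + a := by ring
      rw [h3, ← h2]
    have h4 : h ∣ (a - b).val := by
      apply hdvd
      rw [ZMod.natCast_zmod_val]
      exact h1
    rw [← sub_eq_zero, ← map_sub, ZMod.castHom_apply, ← ZMod.natCast_val,
      ZMod.natCast_eq_zero_iff]
    exact h4
  · intro i c
    exact ⟨_, ssmin_Sj_shift hh Sb i c⟩

theorem iterate_add_one {h n' : ℕ} (hh : h ∣ n') : (fun j : ZMod h => j + 1)^[n'] = id := by
  have key : ∀ m : ℕ, (fun j : ZMod h => j + 1)^[m] = fun j => j + (m : ZMod h) := by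
    intro m
    induction m with
    | zero => funext j; simp
    | succ m ih =>
      rw [Function.iterate_succ', ih]
      funext j
      simp only [Function.comp_apply]
      push_cast
      ring
  rw [key]
  funext j
  rw [(ZMod.natCast_eq_zero_iff n' h).mpr hh]
  simp

end Pool.Agent.CRC
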