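import Pool.Agent.Lib.MP_13800a_gt.Tr

/-! TASK TrEq: the lemma (TR-EQ) of section 2. -/

set_option autoImplicit false
set_option linter.unusedSectionVars false

open scoped Matrix Kronecker
open Matrix

namespace Pool.Agent.CRC

section treq
variable {Q S ι : Type} [Fintype S] [DecidableEq S] [Fintype ι] [DecidableEq ι]

/-- the embedding `i ↦ c e_{*,i} + σ e_{i,s}` -/
def treqJ (c σ : ℂ) (s : S) : Matrix (ι ⊕ (ι × S)) ι ℂ :=
  Matrix.of fun x j => match x with
    | .inl i => if i = j then c else 0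
    | .inr p => if p = (j, s) then σ else 0

theorem treqJ_inl (c σ : ℂ) (s : S) (i j : ι) :
    treqJ c σ s (Sum.inl i) j = if i = j then c else 0 := rfl

theorem treqJ_inr (c σ : ℂ) (s : S) (p : ι × S) (j : ι) :
    treqJ c σ s (Sum.inr p) j = if p = (j, s) then σ else 0 := rfl

theorem treqJ_mul (c σ : ℂ) (h : c ^ 2 + σ ^ 2 = 1) (s : S) :
    (treqJ (ι := ι) c σ s)ᵀ * treqJ (ι := ι) c σ s = 1 := by
  ext j k
  rw [Matrix.mul_apply, Fintype.sum_sum_type]
  simp only [Matrix.transpose_apply, treqJ_inl, treqJ_inr]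
  have h1 : ∑ x : ι, (if x = j then c else 0) * (if x = k then c else 0) =
      if j = k then c ^ 2 else 0 := by
    rw [Finset.sum_eq_single j]
    · by_cases hjk : j = k
      · simp [hjk, sq]
      · simp [hjk]
    · intro b _ hb; simp [hb]
    · intro hb; exact absurd (Finset.mem_univ _) hb
  have h2 : ∑ x : ι × S, (if x = (j, s) then σ else 0) * (if x = (k, s) then σ else 0) =
      if j = k then σ ^ 2 else 0 := by
    rw [Finset.sum_eq_single (j, s)]
    · by_cases hjk : j = k
      · simp [hjk, sq]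
      · simp [hjk]
    · intro b _ hb; simp [hb]
    · intro hb; exact absurd (Finset.mem_univ _) hb
  rw [h1, h2, Matrix.one_apply]
  split_ifs
  · exact h
  · ring

theorem treq_unit {c σ : ℂ} (h : c ^ 2 + σ ^ 2 = 1) (s : S) {v : MM ι} (hv : IsUnit v) :
    IsUnit (1 + amp (treqJ (ι := ι) c σ s) * (v - 1) * amp (treqJ (ι := ι) c σ s)ᵀ) := by
  have hJ : amp (treqJ (ι := ι) c σ s)ᵀ * amp (treqJ (ι := ι) c σ s) = 1 := by
    rw [← amp_mul, treqJ_mul c σ h s, amp_one]
  obtain ⟨w, rfl⟩ := hv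
  set A := amp (treqJ (ι := ι) c σ s) with hA
  set B := amp (treqJ (ι := ι) c σ s)ᵀ with hB
  have key : ∀ x y : MM ι, x * y = 1 →
      (1 + A * (x - 1) * B) * (1 + A * (y - 1) * B) = 1 := by
    intro x y hxy
    have h1 : A * (x - 1) * B * (A * (y - 1) * B) = A * ((x - 1) * (y - 1)) * B := by
      calc A * (x - 1) * B * (A * (y - 1) * B)
          = A * (x - 1) * (B * A) * (y - 1) * B := by simp only [Matrix.mul_assoc]
        _ = A * ((x - 1) * (y - 1)) * B := by rw [hJ, Matrix.mul_one]; simp only [Matrix.mul_assoc]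
    rw [add_mul, mul_add, one_mul, one_mul, mul_add, mul_one, h1]
    have h2 : (x - 1) * (y - 1) = 1 - x - y + 1 := by
      rw [sub_mul, mul_sub, hxy, mul_one, one_mul]; abel
    rw [h2]
    have h3 : A * (y - 1) * B + (A * (x - 1) * B + A * (1 - x - y + 1) * B) = 0 := by
      rw [← Matrix.add_mul, ← Matrix.mul_add, ← Matrix.add_mul, ← Matrix.mul_add]
      have : (y - 1 + (x - 1 + (1 - x - y + 1)) : MM ι) = 0 := by abel
      rw [this, Matrix.mul_zero, Matrix.zero_mul]
    rw [add_assoc, h3, add_zero]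
  exact isUnit_iff_exists.2 ⟨1 + A * (((w⁻¹ : (MM ι)ˣ) : MM ι) - 1) * B,
    key _ _ (Units.mul_inv w), key _ _ (Units.inv_mul w)⟩

/-- the homotopy -/
noncomputable def treqW (c σ : ℂ) (us : Q × S → UI → MM ι) (q : Q) (t : UI) :
    MM (ι ⊕ (ι × S)) :=
  1 + ∑ s, amp (treqJ (ι := ι) c σ s) * (us (q, s) t - 1) * amp (treqJ (ι := ι) c σ s)ᵀ

theorem treq_rep (c σ : ℂ) (π : S → S) (ρ : Matrix ι ι ℂ) (s : S) :
    dg ρ (trRep π ρ) * treqJ (ι := ι) c σ s = treqJ (ι := ι) c σ (π s) * ρ := by
  ext x j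
  rw [Matrix.mul_apply, Matrix.mul_apply, Fintype.sum_sum_type]
  rcases x with i | ⟨i, a⟩
  · simp only [dg, Matrix.fromBlocks_apply₁₁, Matrix.fromBlocks_apply₁₂, Matrix.zero_apply,
      zero_mul, Finset.sum_const_zero, add_zero, treqJ_inl]
    simp [mul_comm]
  · simp only [dg, Matrix.fromBlocks_apply₂₁, Matrix.fromBlocks_apply₂₂, Matrix.zero_apply,
      zero_mul, Finset.sum_const_zero, zero_add, treqJ_inr, trRep, Matrix.kroneckerMap_apply,
      permMat, Matrix.of_apply]
    rw [Finset.sum_eq_single (j, s)]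
    · by_cases ha : a = π s
      · subst ha
        simp only [if_true, mul_one]
        rw [Finset.sum_eq_single i]
        · simp [mul_comm]
        · intro b _ hb
          rw [if_neg (fun h => hb (congrArg Prod.fst h).symm), zero_mul]
        · intro hb; exact absurd (Finset.mem_univ _) hb
      · simp only [if_true, if_neg ha, mul_zero, zero_mul]
        symm
        apply Finset.sum_eq_zero
        intro b _
        rw [if_neg (fun h => ha (congrArg Prod.snd h)), zero_mul]
    · intro b _ hb; rw [if_neg hb, mul_zero]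
    · intro hb; exact absurd (Finset.mem_univ _) hb

theorem treq_rep' (c σ : ℂ) {π : S → S} (hπ : Function.Bijective π) (ρ : Matrix ι ι ℂ) (s : S) :
    (treqJ (ι := ι) c σ (π s))ᵀ * dg ρ (trRep π ρ) = ρ * (treqJ (ι := ι) c σ s)ᵀ := by
  ext j x
  rw [Matrix.mul_apply, Matrix.mul_apply, Fintype.sum_sum_type]
  simp only [Matrix.transpose_apply]
  rcases x with i | ⟨i, a⟩
  · simp only [dg, Matrix.fromBlocks_apply₁₁, Matrix.fromBlocks_apply₂₁, Matrix.zero_apply,
      mul_zero, Finset.sum_const_zero, add_zero, treqJ_inl]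
    simp [mul_comm]
  · simp only [dg, Matrix.fromBlocks_apply₁₂, Matrix.fromBlocks_apply₂₂, Matrix.zero_apply,
      mul_zero, Finset.sum_const_zero, zero_add, treqJ_inr, trRep, Matrix.kroneckerMap_apply,
      permMat, Matrix.of_apply]
    rw [Finset.sum_eq_single (j, π s)]
    · by_cases ha : a = s
      · subst ha
        simp only [if_true, mul_one]
        rw [Finset.sum_eq_single i]
        · simp [mul_comm]
        · intro b _ hb
          rw [if_neg (fun h => hb (congrArg Prod.fst h).symm), mul_zero]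
        · intro hb; exact absurd (Finset.mem_univ _) hb
      · have ha' : ¬ π s = π a := fun h => ha (hπ.1 h).symm
        simp only [if_true, if_neg ha', mul_zero]
        symm
        apply Finset.sum_eq_zero
        intro b _
        rw [if_neg (fun h => ha (congrArg Prod.snd h)), mul_zero]
    · intro b _ hb; rw [if_neg hb, zero_mul]
    · intro hb; exact absurd (Finset.mem_univ _) hb

/-- the index in `ι` -/
def treqI : ι ⊕ (ι × S) → ι
  | .inl i => i
  | .inr p => p.1

/-- the coefficient -/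
def treqC (c σ : ℂ) (s : S) : ι ⊕ (ι × S) → ℂ
  | .inl _ => c
  | .inr p => if p.2 = s then σ else 0

theorem treqJ_eq (c σ : ℂ) (s : S) (x : ι ⊕ (ι × S)) (j : ι) :
    treqJ (ι := ι) c σ s x j = if treqI x = j then treqC c σ s x else 0 := by
  rcases x with i | ⟨i, s'⟩
  · rfl
  · rw [treqJ_inr]
    simp only [treqI, treqC, Prod.mk.injEq]
    by_cases h1 : i = j <;> by_cases h2 : s' = s <;> simp [h1, h2]

theorem treq_mulL {μ : Type} (c σ : ℂ) (s : S) (M : Matrix (ι × Fin 2) μ ℂ)
    (x : (ι ⊕ (ι × S)) × Fin 2) (y : μ) :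
    (amp (treqJ (ι := ι) c σ s) * M : Matrix _ _ ℂ) x y =
      treqC c σ s x.1 * M (treqI x.1, x.2) y := by
  rw [Matrix.mul_apply, Finset.sum_eq_single (treqI x.1, x.2)]
  · rw [amp, Matrix.kroneckerMap_apply, treqJ_eq, if_pos rfl, Matrix.one_apply, if_pos rfl, mul_one]
  · rintro ⟨i, a⟩ _ hb
    rw [amp, Matrix.kroneckerMap_apply, treqJ_eq, Matrix.one_apply]
    by_cases h1 : treqI x.1 = i
    · by_cases h2 : x.2 = a
      · exact absurd (by rw [h1, h2]) hb
      · rw [if_neg h2, mul_zero, zero_mul]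
    · rw [if_neg h1, zero_mul, zero_mul]
  · intro hb; exact absurd (Finset.mem_univ _) hb

theorem treq_mulR {μ : Type} (c σ : ℂ) (s : S) (M : Matrix μ (ι × Fin 2) ℂ)
    (x : μ) (y : (ι ⊕ (ι × S)) × Fin 2) :
    (M * amp (treqJ (ι := ι) c σ s)ᵀ : Matrix _ _ ℂ) x y =
      M x (treqI y.1, y.2) * treqC c σ s y.1 := by
  rw [Matrix.mul_apply, Finset.sum_eq_single (treqI y.1, y.2)]
  · rw [amp, Matrix.kroneckerMap_apply, Matrix.transpose_apply, treqJ_eq, if_pos rfl,
      Matrix.one_apply, if_pos rfl, mul_one]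
  · rintro ⟨i, a⟩ _ hb
    rw [amp, Matrix.kroneckerMap_apply, Matrix.transpose_apply, treqJ_eq, Matrix.one_apply]
    by_cases h1 : treqI y.1 = i
    · by_cases h2 : a = y.2
      · exact absurd (by rw [h1, h2]) hb
      · rw [if_neg h2, mul_zero, mul_zero]
    · rw [if_neg h1, zero_mul, mul_zero]
  · intro hb; exact absurd (Finset.mem_univ _) hb

theorem treqW_apply (c σ : ℂ) (us : Q × S → UI → MM ι) (q : Q) (t : UI)
    (x y : (ι ⊕ (ι × S)) × Fin 2) :
    treqW c σ us q t x y = (1 : MM (ι ⊕ (ι × S))) x y +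
      ∑ s, treqC c σ s x.1 * (us (q, s) t (treqI x.1, x.2) (treqI y.1, y.2) -
        (1 : MM ι) (treqI x.1, x.2) (treqI y.1, y.2)) * treqC c σ s y.1 := by
  rw [treqW, Matrix.add_apply, Matrix.sum_apply]
  congr 1
  refine Finset.sum_congr rfl fun s _ => ?_
  rw [treq_mulR, treq_mulL, Matrix.sub_apply]

theorem bs_apply {κ μ : Type} (u : MM κ) (v : MM μ) (x y : (κ ⊕ μ) × Fin 2) :
    bs u v x y = match x, y with
      | (.inl i, a), (.inl j, b) => u (i, a) (j, b)
      | (.inr i, a), (.inr j, b) => v (i, a) (j, b)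
      | _, _ => 0 := by
  rcases x with ⟨i | i, a⟩ <;> rcases y with ⟨j | j, b⟩ <;> rfl

/-- the two end points -/
theorem treqW_one_zero {Q : Type} (us : Q × S → UI → MM ι) (u : Q → UI → MM ι) (q : Q) (t : UI)
    (h : u q t - 1 = ∑ s, (us (q, s) t - 1)) :
    treqW 1 0 us q t = bs (u q t) (1 : MM (ι × S)) := by
  have h1 : ∀ i j : ι × Fin 2, u q t i j = (1 : MM ι) i j + ∑ s, (us (q, s) t i j - (1 : MM ι) i j) := by
    intro i j
    have := congrFun (congrFun h i) j
    rw [Matrix.sub_apply, Matrix.sum_apply] at this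
    simp only [Matrix.sub_apply] at this
    rw [← this]; ring
  ext x y
  rw [treqW_apply, bs_apply]
  rcases x with ⟨i | i, a⟩ <;> rcases y with ⟨j | j, b⟩
  · simp only [treqC, treqI, one_mul, mul_one]
    rw [h1]
    congr 1
    simp [Matrix.one_apply]
  · simp [treqC, treqI, Matrix.one_apply]
  · simp [treqC, treqI, Matrix.one_apply]
  · simp [treqC, treqI, Matrix.one_apply]

theorem treqW_zero_one {Q : Type} (us : Q × S → UI → MM ι) (q : Q) (t : UI) :
    treqW 0 1 us q t = bs (1 : MM ι) (trEl us q t) := by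
  ext x y
  rw [treqW_apply, bs_apply]
  rcases x with ⟨i | i, a⟩ <;> rcases y with ⟨j | j, b⟩
  · simp [treqC, treqI, Matrix.one_apply]
  · simp [treqC, treqI, Matrix.one_apply]
  · simp [treqC, treqI, Matrix.one_apply]
  · simp only [treqC, treqI, trEl, Matrix.of_apply]
    rw [Finset.sum_eq_single i.2]
    · by_cases h : i.2 = j.2
      · rw [if_pos rfl, if_pos h, if_pos h.symm]
        have : (1 : MM (ι ⊕ (ι × S))) (Sum.inr i, a) (Sum.inr j, b) =
            (1 : MM ι) (i.1, a) (j.1, b) := by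
          simp only [Matrix.one_apply, Prod.mk.injEq, Sum.inr.injEq]
          congr 1
          rw [Prod.ext_iff]
          simp [h]
        rw [this]
        change (1 : MM ι) (i.1, a) (j.1, b) + 1 * (us (q, i.2) t (i.1, a) (j.1, b) -
          (1 : MM ι) (i.1, a) (j.1, b)) * 1 = us (q, i.2) t (i.1, a) (j.1, b)
        ring
      · rw [if_pos rfl, if_neg h, if_neg (fun h' => h h'.symm)]
        have : (1 : MM (ι ⊕ (ι × S))) (Sum.inr i, a) (Sum.inr j, b) = 0 := by
          rw [Matrix.one_apply, if_neg]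
          intro h'
          exact h (congrArg Prod.snd (Sum.inr_injective (congrArg Prod.fst h')))
        rw [this]; ring
    · intro s _ hs; rw [if_neg (fun h => hs h.symm)]; ring
    · intro hb; exact absurd (Finset.mem_univ _) hb

/-- the homotopy consists of elements -/
theorem isEl_treqW {Q : Type} [TopologicalSpace Q] [TopologicalSpace S] [DiscreteTopology S]
    {τ : Q → Q} {Z : Set Q} {π : S → S} (hπ : Function.Bijective π) {ρ : Matrix ι ι ℂ}
    {u : Q → UI → MM ι} {us : Q × S → UI → MM ι}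
    (hus : IsEl ρ (Prod.map τ π) (Z ×ˢ (Set.univ : Set S)) us)
    (h : ∀ q, ((∀ t, u q t = 1) ∧ ∀ s t, us (q, s) t = 1) ∨
      ∃ s0, (∀ t, us (q, s0) t = u q t) ∧ ∀ s, s ≠ s0 → ∀ t, us (q, s) t = 1)
    {c σ : ℂ} (hc : c ^ 2 + σ ^ 2 = 1) :
    IsEl (dg ρ (trRep π ρ)) τ Z (treqW c σ us) where
  cont := by
    apply continuous_const.add
    refine continuous_finsetSum _ fun s _ => ?_
    have h1 : Continuous (fun p : Q × UI => us (p.1, s) p.2) :=
      hus.cont.comp ((continuous_fst.prodMk continuous_const).prodMk continuous_snd)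
    exact (continuous_const.matrix_mul (h1.sub continuous_const)).matrix_mul continuous_const
  unit := by
    intro q t
    rcases h q with ⟨-, h2⟩ | ⟨s0, h1, h2⟩
    · have : treqW c σ us q t = 1 := by
        unfold treqW
        rw [Finset.sum_eq_zero, add_zero]
        intro s _
        rw [h2 s t, sub_self, Matrix.mul_zero, Matrix.zero_mul]
      rw [this]; exact isUnit_one
    · have : treqW c σ us q t = 1 + amp (treqJ (ι := ι) c σ s0) * (us (q, s0) t - 1) *
          amp (treqJ (ι := ι) c σ s0)ᵀ := by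
        unfold treqW
        rw [Finset.sum_eq_single s0]
        · intro s _ hs
          rw [h2 s hs t, sub_self, Matrix.mul_zero, Matrix.zero_mul]
        · intro hb; exact absurd (Finset.mem_univ _) hb
      rw [this]
      exact treq_unit hc s0 (hus.unit _ _)
  zero := by
    intro q
    choose a ha using fun s => hus.zero (q, s)
    refine ⟨1 + ∑ s, treqJ (ι := ι) c σ s * (a s - 1) * (treqJ (ι := ι) c σ s)ᵀ, ?_⟩
    rw [amp_add, amp_one, treqW]
    congr 1
    have h3 : ∀ (s : Finset S), amp (∑ s ∈ s, treqJ (ι := ι) c σ s * (a s - 1) *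
        (treqJ (ι := ι) c σ s)ᵀ) = ∑ s ∈ s, amp (treqJ (ι := ι) c σ s) * (us (q, s) 0 - 1) *
        amp (treqJ (ι := ι) c σ s)ᵀ := by
      intro s
      induction s using Finset.induction_on with
      | empty => rw [Finset.sum_empty, Finset.sum_empty, amp_zero]
      | insert x s hx ih =>
        rw [Finset.sum_insert hx, Finset.sum_insert hx, amp_add, ih, amp_mul, amp_mul, amp_sub,
          amp_one, ha]
    exact (h3 Finset.univ).symm
  one := by
    intro q
    unfold treqW
    rw [Finset.sum_eq_zero, add_zero]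
    intro s _
    rw [hus.one, sub_self, Matrix.mul_zero, Matrix.zero_mul]
  rel := by
    intro q hq t
    unfold treqW
    rw [Finset.sum_eq_zero, add_zero]
    intro s _
    rw [hus.rel (q, s) ⟨hq, Set.mem_univ _⟩ t, sub_self, Matrix.mul_zero, Matrix.zero_mul]
  eqv := by
    intro q t
    unfold treqW
    rw [add_mul, mul_add, one_mul, mul_one, Finset.sum_mul, Finset.mul_sum]
    congr 1
    rw [← (Equiv.ofBijective π hπ).sum_comp]
    refine Finset.sum_congr rfl fun s _ => ?_
    simp only [Equiv.ofBijective_apply]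
    have h1 := hus.eqv (q, s) t
    have h2 : Prod.map τ π (q, s) = (τ q, π s) := rfl
    rw [h2] at h1
    have h3 : (us (τ q, π s) t - 1) * amp ρ = amp ρ * (us (q, s) t - 1) := by
      rw [sub_mul, mul_sub, h1, one_mul, mul_one]
    have h4 : amp (treqJ (ι := ι) c σ (π s))ᵀ * amp (dg ρ (trRep π ρ)) =
        amp ρ * amp (treqJ (ι := ι) c σ s)ᵀ := by
      rw [← amp_mul, ← amp_mul, treq_rep' c σ hπ]
    have h5 : amp (dg ρ (trRep π ρ)) * amp (treqJ (ι := ι) c σ s) =
        amp (treqJ (ι := ι) c σ (π s)) * amp ρ := by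
      rw [← amp_mul, ← amp_mul, treq_rep c σ]
    calc amp (treqJ (ι := ι) c σ (π s)) * (us (τ q, π s) t - 1) *
          amp (treqJ (ι := ι) c σ (π s))ᵀ * amp (dg ρ (trRep π ρ))
        = amp (treqJ (ι := ι) c σ (π s)) * (us (τ q, π s) t - 1) *
          (amp (treqJ (ι := ι) c σ (π s))ᵀ * amp (dg ρ (trRep π ρ))) := by
          simp only [Matrix.mul_assoc]
      _ = amp (treqJ (ι := ι) c σ (π s)) * ((us (τ q, π s) t - 1) * amp ρ) *
          amp (treqJ (ι := ι) c σ s)ᵀ := by rw [h4]; simp only [Matrix.mul_assoc]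
      _ = (amp (treqJ (ι := ι) c σ (π s)) * amp ρ) * (us (q, s) t - 1) *
          amp (treqJ (ι := ι) c σ s)ᵀ := by rw [h3]; simp only [Matrix.mul_assoc]
      _ = amp (dg ρ (trRep π ρ)) * (amp (treqJ (ι := ι) c σ s) * (us (q, s) t - 1) *
          amp (treqJ (ι := ι) c σ s)ᵀ) := by rw [← h5]; simp only [Matrix.mul_assoc]

end treq

/-- If at each point `q` either `u q = 1` and all `us (q, s) = 1`, or there is one `s0` with
`us (q, s0) = u q` and `us (q, s) = 1` for `s ≠ s0`, then `mk u = tr (mk us)`.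
Homotopy on `ι × Option S`:
`1 + cos² (u-1) ⊗ E_** + cos sin ∑ (u_s - 1) ⊗ (E_*s + E_s*) + sin² ∑ (u_s-1) ⊗ E_ss`. -/
theorem mk_eq_tr {n : ℕ} {Q S ι : Type} [TopologicalSpace Q]
    [Fintype S] [DecidableEq S] [TopologicalSpace S] [DiscreteTopology S]
    [Fintype ι] [DecidableEq ι] {τ : Q → Q} {Z : Set Q} {π : S → S}
    (hπ : π^[n] = id) (hn : 0 < n) {ρ : Matrix ι ι ℂ} (hρ : IsRep n ρ)
    {u : Q → UI → MM ι} {us : Q × S → UI → MM ι} (hu : IsEl ρ τ Z u)
    (hus : IsEl ρ (Prod.map τ π) (Z ×ˢ (Set.univ : Set S)) us)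
    (h : ∀ q, ((∀ t, u q t = 1) ∧ ∀ s t, us (q, s) t = 1) ∨
      ∃ s0, (∀ t, us (q, s0) t = u q t) ∧ ∀ s, s ≠ s0 → ∀ t, us (q, s) t = 1) :
    KG.mk hρ hu = tr hπ hn (KG.mk hρ hus) := by
  have hb := bijective_of_iterate hπ hn
  rw [tr_mk]
  set σr := isRep_trRep hρ hπ hn with hσr
  have hsum : ∀ q t, u q t - 1 = ∑ s, (us (q, s) t - 1) := by
    intro q t
    rcases h q with ⟨h1, h2⟩ | ⟨s0, h1, h2⟩
    · rw [h1, sub_self, Finset.sum_eq_zero]
      intro s _; rw [h2, sub_self]
    · rw [Finset.sum_eq_single s0, h1]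
      · intro s _ hs; rw [h2 s hs, sub_self]
      · intro hb; exact absurd (Finset.mem_univ _) hb
  -- the path
  have hcs : ∀ θ : ℝ, ((Real.cos θ : ℝ) : ℂ) ^ 2 + ((Real.sin θ : ℝ) : ℂ) ^ 2 = 1 := by
    intro θ
    have := Real.cos_sq_add_sin_sq θ
    exact_mod_cast this
  have hpath : Ht (dg ρ (trRep π ρ)) τ Z (fun q t => bs (u q t) (1 : MM (ι × S)))
      (fun q t => bs (1 : MM ι) (trEl us q t)) := by
    have h1 := Ht.of_path (ρ := dg ρ (trRep π ρ)) (τ := τ) (Z := Z)
      (fun (s : UI) q t => treqW (((Real.cos (Real.pi / 2 * (s : ℝ)) : ℝ) : ℂ))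
        (((Real.sin (Real.pi / 2 * (s : ℝ)) : ℝ) : ℂ)) us q t) ?_ ?_
    · have e0 : (fun q t => treqW (((Real.cos (Real.pi / 2 * ((0 : UI) : ℝ)) : ℝ) : ℂ))
          (((Real.sin (Real.pi / 2 * ((0 : UI) : ℝ)) : ℝ) : ℂ)) us q t) =
          (fun q t => bs (u q t) (1 : MM (ι × S))) := by
        funext q t
        simp only [Set.Icc.coe_zero, mul_zero, Real.cos_zero, Real.sin_zero,
          Complex.ofReal_one, Complex.ofReal_zero]
        exact treqW_one_zero us u q t (hsum q t)
      have e1 : (fun q t => treqW (((Real.cos (Real.pi / 2 * ((1 : UI) : ℝ)) : ℝ) : ℂ))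
          (((Real.sin (Real.pi / 2 * ((1 : UI) : ℝ)) : ℝ) : ℂ)) us q t) =
          (fun q t => bs (1 : MM ι) (trEl us q t)) := by
        funext q t
        simp only [Set.Icc.coe_one, mul_one, Real.cos_pi_div_two, Real.sin_pi_div_two,
          Complex.ofReal_one, Complex.ofReal_zero]
        exact treqW_zero_one us q t
      have h2 := h1
      rw [e0, e1] at h2
      exact h2
    · have hus' : ∀ s : S, Continuous (fun p : (Q × UI) × UI => us (p.1.1, s) p.2) := fun s =>
        hus.cont.comp (((continuous_fst.comp continuous_fst).prodMk continuous_const).prodMk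
          continuous_snd)
      have hcos : Continuous (fun p : (Q × UI) × UI =>
          (((Real.cos (Real.pi / 2 * (p.1.2 : ℝ)) : ℝ) : ℂ))) := by fun_prop
      have hsin : Continuous (fun p : (Q × UI) × UI =>
          (((Real.sin (Real.pi / 2 * (p.1.2 : ℝ)) : ℝ) : ℂ))) := by fun_prop
      refine continuous_matrix fun x y => ?_
      simp only [treqW_apply]
      refine continuous_const.add (continuous_finsetSum _ fun s _ => ?_)
      have hC : ∀ x : ι ⊕ (ι × S), Continuous (fun p : (Q × UI) × UI =>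
          treqC (((Real.cos (Real.pi / 2 * (p.1.2 : ℝ)) : ℝ) : ℂ))
            (((Real.sin (Real.pi / 2 * (p.1.2 : ℝ)) : ℝ) : ℂ)) s x) := by
        intro x
        rcases x with i | i
        · exact hcos
        · by_cases hi : i.2 = s
          · simp only [treqC, if_pos hi]; exact hsin
          · simp only [treqC, if_neg hi]; exact continuous_const
      exact ((hC x.1).mul (((hus' s).matrix_elem _ _).sub continuous_const)).mul (hC y.1)
    · intro s
      exact isEl_treqW hb hus h (hcs _)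
  have k1 := KG.mk_ht (hρ.dsum σr) hpath.left hpath.right hpath
  have k2 := KG.mk_bs hρ hu σr (IsEl.const_one (ρ := trRep π ρ) (τ := τ) (Z := Z))
  have k3 := KG.mk_bs hρ (IsEl.const_one (ρ := ρ) (τ := τ) (Z := Z)) σr (isEl_trEl hb hus)
  rw [KG.mk_one σr, add_zero] at k2
  rw [KG.mk_one hρ, zero_add] at k3
  rw [← k2, ← k3]
  exact k1

end Pool.Agent.CRC
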