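import Pool.Agent.Lib.MP_13800a_gt.Exact
import Pool.Agent.Lib.MP_13800a_gt.SSEl
import Pool.Agent.Lib.MP_13800a_gt.SSMin
import Pool.Agent.Lib.MP_13800a_gt.TrEq

/-! TASK SSFilt: the filtration step of section 4. -/

set_option autoImplicit false

open scoped Matrix Kronecker OnePoint
open Matrix

namespace Pool.Agent.CRC

section
variable {K : Type} [TopologicalSpace K] {n' h : ℕ} [NeZero n'] [NeZero h]
  {τ : K → K} {ZK : Set K}

theorem ssfilt_suppW_resW (S : Finset (ZMod n')) (w : ZMod n' → PP) (c : ZMod n') :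
    c ∈ suppW (resW S w) ↔ c ∈ S ∧ c ∈ suppW w := by
  classical
  simp only [suppW, resW, Finset.mem_filter, Finset.mem_univ, true_and]
  by_cases hc : c ∈ S <;> simp [hc]

theorem ssfilt_mem_suppW (w : ZMod n' → PP) (c : ZMod n') : c ∈ suppW w ↔ w c ≠ ∞ := by
  classical
  simp only [suppW, Finset.mem_filter, Finset.mem_univ, true_and]

theorem ssfilt_resW_self (S : Finset (ZMod n')) (w : ZMod n' → PP) (h : suppW w = S) :
    resW S w = w := by
  classical
  funext c
  simp only [resW]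
  by_cases hc : c ∈ S
  · simp [hc]
  · have h1 : c ∉ suppW w := by rw [h]; exact hc
    rw [ssfilt_mem_suppW, not_not] at h1
    simp [hc, h1]

/-- one step: `y - tr z` comes from an element relative to the larger family -/
theorem filt_step [CompactSpace K] [T2Space K] (hτ : Continuous τ) (hτn : τ^[n'] = id)
    (hZK : IsClosed ZK) (hZi : ∀ x ∈ ZK, τ x ∈ ZK) (hh : h ∣ n')
    (Sb : Finset (ZMod h)) (F F' : Finset (Finset (ZMod n')))
    (hdown : ∀ A ∈ F, ∀ B, B ⊆ A → B ∈ F)
    (hshift : ∀ A ∈ F, ∀ j : ZMod n', A.image (fun c => c + j) ∈ F)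
    (hF' : ∀ A, A ∈ F' ↔ A ∈ F ∨ ∃ j, A = Sj hh Sb j)
    (hnot : ∀ j, Sj hh Sb j ∉ F)
    (hS : ∀ (j : ZMod h) (A : Finset (ZMod n')), A ⊂ Sj hh Sb j → A ∈ F)
    (hinj : ∀ i j, Sj hh Sb i = Sj hh Sb j → i = j)
    (horb : ∀ i (c : ZMod n'), ∃ j, (Sj hh Sb i).image (fun x => x + c) = Sj hh Sb j)
    {ι : Type} [Fintype ι] [DecidableEq ι] {ρ : Matrix ι ι ℂ}
    {u : K × (ZMod n' → PP) → UI → MM ι} (hρ : IsRep n' ρ)
    (hu : IsEl ρ (shT n' τ) (ZT ZK F) u) (hFF : ZT ZK F ⊆ ZT ZK F') :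
    ∃ y' : KG n' (shT n' τ) (ZT ZK F'),
      KG.mk hρ hu = tr (iterate_add_one hh) (NeZero.pos n') (KG.mk hρ (isEl_us hh Sb F hdown hu))
        + pull (PullData.rel_id hFF) y' := by
  classical
  have hdown' : ∀ A ∈ F', ∀ B, B ⊆ A → B ∈ F' := by
    intro A hA B hBA
    rw [hF'] at hA ⊢
    rcases hA with hA | ⟨j, rfl⟩
    · exact Or.inl (hdown A hA B hBA)
    · rcases eq_or_ssubset_of_subset hBA with h1 | h1
      · exact Or.inr ⟨j, h1⟩
      · exact Or.inl (hS j B h1)
  have hshift' : ∀ A ∈ F', ∀ j : ZMod n', A.image (fun c => c + j) ∈ F' := by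
    intro A hA c
    rw [hF'] at hA ⊢
    rcases hA with hA | ⟨i, rfl⟩
    · exact Or.inl (hshift A hA c)
    · exact Or.inr (horb i c)
  have hCc := isClosed_ZT (K := K) hZK F' hdown'
  have hCi := ZT_invariant (τ := τ) hZi F' hshift'
  have hZc := isClosed_ZT (K := K) hZK F hdown
  have hZi' := ZT_invariant (τ := τ) hZi F hshift
  have hsc : Continuous (shT n' τ) := continuous_shT hτ
  have hsn : (shT n' τ)^[n'] = id := shT_iterate hτn (dvd_refl _)
  have hpos := NeZero.pos n'
  obtain ⟨hus, hhus⟩ : ∃ hus, hus = isEl_us (τ := τ) (ZK := ZK) hh Sb F hdown hu := ⟨_, rfl⟩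
  have hP : PullData (shT n' τ)
      (fun c : (ZT ZK F' : Set (K × (ZMod n' → PP))) =>
        (⟨shT n' τ c.1, hCi c.1 c.2⟩ : (ZT ZK F' : Set (K × (ZMod n' → PP)))))
      (ZT ZK F) (Subtype.val ⁻¹' (ZT ZK F)) Subtype.val :=
    ⟨continuous_subtype_val, fun _ => rfl, fun q hq => hq⟩
  have hP' : PullData (Prod.map (shT n' τ) (fun j : ZMod h => j + 1))
      (Prod.map (fun c : (ZT ZK F' : Set (K × (ZMod n' → PP))) =>
        (⟨shT n' τ c.1, hCi c.1 c.2⟩ : (ZT ZK F' : Set (K × (ZMod n' → PP)))))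
        (fun j : ZMod h => j + 1))
      (ZT ZK F ×ˢ (Set.univ : Set (ZMod h)))
      ((Subtype.val ⁻¹' (ZT ZK F)) ×ˢ (Set.univ : Set (ZMod h))) (Prod.map Subtype.val id) :=
    ⟨continuous_subtype_val.prodMap continuous_id, fun _ => rfl, fun q hq => ⟨hq.1, trivial⟩⟩
  have key : pull hP (KG.mk hρ hu) = pull hP (tr (iterate_add_one hh) hpos (KG.mk hρ hus)) := by
    rw [tr_pull (iterate_add_one hh) hpos hP hP', pull_mk, pull_mk]
    apply mk_eq_tr (iterate_add_one hh) hpos hρ
    rintro ⟨⟨x, w⟩, hq⟩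
    have hx : x ∈ ZK ∨ suppW w ∈ F' := by
      rcases hq with hq | hq
      · exact Or.inl hq.1
      · exact Or.inr hq
    have hone : ∀ w' : ZMod n' → PP, (x ∈ ZK ∨ suppW w' ∈ F) → ∀ t, u (x, w') t = 1 := by
      intro w' h' t
      apply hu.rel
      rcases h' with h' | h'
      · exact Or.inl ⟨h', trivial⟩
      · exact Or.inr h'
    by_cases hxF : x ∈ ZK ∨ suppW w ∈ F
    · left
      refine ⟨hone w hxF, ?_⟩
      intro s t
      show u (x, resW (Sj hh Sb s) w) t = 1
      apply hone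
      rcases hxF with h1 | h1
      · exact Or.inl h1
      · right
        apply hdown _ h1
        intro c hc
        exact ((ssfilt_suppW_resW _ _ _).1 hc).2
    · right
      push Not at hxF
      have h1 : suppW w ∈ F' := by
        rcases hx with h1 | h1
        · exact absurd h1 hxF.1
        · exact h1
      rw [hF'] at h1
      obtain ⟨j0, hj0⟩ : ∃ j, suppW w = Sj hh Sb j := by
        rcases h1 with h1 | h1
        · exact absurd h1 hxF.2
        · exact h1
      refine ⟨j0, ?_, ?_⟩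
      · intro t
        show u (x, resW (Sj hh Sb j0) w) t = u (x, w) t
        rw [ssfilt_resW_self _ _ hj0]
      · intro s hs t
        show u (x, resW (Sj hh Sb s) w) t = 1
        apply hone
        right
        apply hS j0
        refine ⟨?_, ?_⟩
        · intro c hc
          rw [← hj0]
          exact ((ssfilt_suppW_resW _ _ _).1 hc).2
        · intro hcon
          have hsub : Sj hh Sb j0 ⊆ Sj hh Sb s := by
            intro c hc
            exact ((ssfilt_suppW_resW _ _ _).1 (hcon hc)).1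
          rcases eq_or_ssubset_of_subset hsub with h2 | h2
          · exact hs (hinj _ _ h2.symm)
          · exact hnot j0 (hS s _ h2)
  have hx0 : pull hP (KG.mk hρ hu - tr (iterate_add_one hh) hpos (KG.mk hρ hus)) = 0 := by
    rw [map_sub, key, sub_self]
  obtain ⟨y, hy⟩ := exact_set hpos hsc hsn hZc hZi' (ZT ZK F') hCc hCi hP _ hx0
  have hsub : ZT ZK F' ⊆ ZT ZK F ∪ ZT ZK F' := Set.subset_union_right
  refine ⟨pull (PullData.rel_id (τ := shT n' τ) hsub) y, ?_⟩
  have h3 : pull (PullData.rel_id hFF) (pull (PullData.rel_id (τ := shT n' τ) hsub) y) =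
      KG.mk hρ hu - tr (iterate_add_one hh) hpos (KG.mk hρ hus) := by
    rw [← hy]
    exact pull_pull _ _ (PullData.rel_id (τ := shT n' τ)
      (Set.subset_union_left : ZT ZK F ⊆ ZT ZK F ∪ ZT ZK F')) y
  rw [h3, ← hhus]
  abel

end

end Pool.Agent.CRC
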