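import Pool.Agent.Lib.MP_13800a_gt.SSTwo
import Pool.Agent.Lib.MP_13800a_gt.SSFilt

/-! TASK SS: the theorem (SS) of section 4 from `exists_min_set`, `filt_step`, `ss_two`. -/

set_option autoImplicit false

open scoped Matrix Kronecker OnePoint
open Matrix

namespace Pool.Agent.CRC

section
variable {K : Type} [TopologicalSpace K] {n n' : ℕ} {τ : K → K} {ZK : Set K}

theorem pullData_jM (hd : n ∣ n') : PullData (shT n' τ) (shT n τ) (ZM n' ZK) (ZM n ZK) (jM K hd) := by
  refine ⟨?_, ?_, ?_⟩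
  · exact continuous_fst.prodMk (continuous_pi fun c => (continuous_apply _).comp continuous_snd)
  · rintro ⟨x, w⟩
    simp only [jM, shT, map_add, map_one]
  · rintro ⟨x, w⟩ hq
    rcases hq with hq | hq
    · exact Or.inl ⟨hq.1, trivial⟩
    · exact Or.inr fun c => hq _

theorem ss_pullData [NeZero n'] (hd : n ∣ n') (F : Finset (Finset (ZMod n'))) (hempty : ∅ ∈ F) :
    PullData (shT n' τ) (shT n τ) (ZT ZK F) (ZM n ZK) (jM K hd) := by
  refine ⟨(pullData_jM (τ := τ) (ZK := ZK) hd).cont, (pullData_jM (τ := τ) (ZK := ZK) hd).eqv, ?_⟩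
  rintro ⟨x, w⟩ hq
  rcases hq with hq | hq
  · exact Or.inl ⟨hq.1, trivial⟩
  · right
    have h1 : suppW (jM K hd (x, w)).2 = ∅ := by
      ext c
      rw [ssfilt_mem_suppW]
      have : (jM K hd (x, w)).2 c = ∞ := hq _
      simp [this]
    show suppW (jM K hd (x, w)).2 ∈ F
    rw [h1]
    exact hempty

theorem ss_eq_zero_of_univ {Q : Type} [TopologicalSpace Q] {τ : Q → Q} {n : ℕ} {Z : Set Q}
    (hZ : Z = Set.univ) (y : KG n τ Z) : y = 0 := by
  subst hZ
  exact KG.eq_zero_of_univ y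

theorem ss_claim [CompactSpace K] [T2Space K] [NeZero n'] (hn : ∃ a, n = 2 ^ a)
    (hn' : ∃ a, n' = 2 ^ a) (hd : n ∣ n') (hτ : Continuous τ) (hτn : τ^[n'] = id)
    (hZK : IsClosed ZK) (hZi : ∀ x ∈ ZK, τ x ∈ ZK) (N : ℕ) :
    ∀ (F : Finset (Finset (ZMod n'))) (hempty : ∅ ∈ F)
      (_ : ∀ A ∈ F, ∀ B, B ⊆ A → B ∈ F)
      (_ : ∀ A ∈ F, ∀ j : ZMod n', A.image (fun c => c + j) ∈ F)
      (_ : (Finset.univ \ F).card ≤ N) (y : KG n' (shT n' τ) (ZT ZK F)),
      pull (ss_pullData (τ := τ) (ZK := ZK) hd F hempty) y +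
        (Lh ^ n) (pull (ss_pullData (τ := τ) (ZK := ZK) hd F hempty) y) = 0 := by
  classical
  induction N with
  | zero =>
    intro F hempty hdown hshift hcard y
    have hF : F = Finset.univ := by
      have h1 : (Finset.univ \ F) = ∅ := Finset.card_eq_zero.1 (Nat.le_zero.1 hcard)
      rw [Finset.sdiff_eq_empty_iff_subset] at h1
      exact Finset.univ_subset_iff.1 h1
    have hZ : ZT ZK F = Set.univ := by
      rw [hF]
      exact Set.eq_univ_of_forall fun p => Or.inr (Finset.mem_univ _)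
    rw [ss_eq_zero_of_univ hZ y, map_zero, map_zero, add_zero]
  | succ N ih =>
    intro F hempty hdown hshift hcard y
    by_cases hF : F = Finset.univ
    · have hZ : ZT ZK F = Set.univ := by
        rw [hF]
        exact Set.eq_univ_of_forall fun p => Or.inr (Finset.mem_univ _)
      rw [ss_eq_zero_of_univ hZ y, map_zero, map_zero, add_zero]
    obtain ⟨h, hh0, hh, Sb, hne, hnot, hS, hinj, horb⟩ := exists_min_set hn' F hempty hshift hF
    obtain ⟨F', hF'⟩ : ∃ F' : Finset (Finset (ZMod n')), ∀ A, A ∈ F' ↔ A ∈ F ∨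
        ∃ j, A = Sj hh Sb j := by
      refine ⟨F ∪ Finset.univ.image (Sj hh Sb), fun A => ?_⟩
      simp only [Finset.mem_union, Finset.mem_image, Finset.mem_univ, true_and, eq_comm]
    have hFF' : F ⊆ F' := fun A hA => (hF' A).2 (Or.inl hA)
    have hempty' : ∅ ∈ F' := hFF' hempty
    have hdown' : ∀ A ∈ F', ∀ B, B ⊆ A → B ∈ F' := by
      intro A hA B hBA
      rw [hF'] at hA ⊢
      rcases hA with hA | ⟨j, rfl⟩
      · exact Or.inl (hdown A hA B hBA)
      · rcases eq_or_ssubset_of_subset hBA with h1 | h1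
        · exact Or.inr ⟨j, h1⟩
        · exact Or.inl (hS j B h1)
    have hshift' : ∀ A ∈ F', ∀ j : ZMod n', A.image (fun c => c + j) ∈ F' := by
      intro A hA c
      rw [hF'] at hA ⊢
      rcases hA with hA | ⟨i, rfl⟩
      · exact Or.inl (hshift A hA c)
      · exact Or.inr (horb i c)
    have hZZ : ZT ZK F ⊆ ZT ZK F' := by
      rintro p (hp | hp)
      · exact Or.inl hp
      · exact Or.inr (hFF' hp)
    have hcard' : (Finset.univ \ F').card ≤ N := by
      have h1 : (Finset.univ \ F').card < (Finset.univ \ F).card := by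
        apply Finset.card_lt_card
        refine ⟨Finset.sdiff_subset_sdiff subset_rfl hFF', fun hcon => ?_⟩
        have h2 : Sj hh Sb 0 ∈ Finset.univ \ F := by
          rw [Finset.mem_sdiff]
          exact ⟨Finset.mem_univ _, hnot 0⟩
        have h3 := hcon h2
        rw [Finset.mem_sdiff] at h3
        exact h3.2 ((hF' _).2 (Or.inr ⟨0, rfl⟩))
      omega
    obtain ⟨ι, _, _, ρ, u, hρ, hu, rfl⟩ := KG.ind y
    obtain ⟨y', hy'⟩ := filt_step hτ hτn hZK hZi hh Sb F F' hdown hshift hF' hnot hS hinj horb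
      hρ hu hZZ
    have e1 : pull (ss_pullData (τ := τ) (ZK := ZK) hd F hempty)
        (pull (PullData.rel_id hZZ) y') =
        pull (ss_pullData (τ := τ) (ZK := ZK) hd F' hempty') y' :=
      pull_pull _ _ (ss_pullData (τ := τ) (ZK := ZK) hd F' hempty') y'
    have hP' : PullData (Prod.map (shT n' τ) (fun j : ZMod h => j + 1))
        (Prod.map (shT n τ) (fun j : ZMod h => j + 1))
        (ZT ZK F ×ˢ (Set.univ : Set (ZMod h)))
        (ZM n ZK ×ˢ (Set.univ : Set (ZMod h))) (Prod.map (jM K hd) id) := by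
      have h0 := ss_pullData (τ := τ) (ZK := ZK) hd F hempty
      refine ⟨h0.cont.prodMap continuous_id, ?_, fun q hq => ⟨h0.rel _ hq.1, trivial⟩⟩
      rintro ⟨q, j⟩
      simp only [Prod.map, id]
      rw [h0.eqv]
    have e2 : pull (ss_pullData (τ := τ) (ZK := ZK) hd F hempty)
        (tr (iterate_add_one hh) (NeZero.pos n') (KG.mk hρ (isEl_us hh Sb F hdown hu))) =
        tr (iterate_add_one hh) (NeZero.pos n')
          (KG.mk hρ (isEl_uM (τ := τ) hd hh Sb F hdown hempty hu)) := by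
      rw [tr_pull (iterate_add_one hh) (NeZero.pos n') _ hP', pull_mk]
      rfl
    rw [hy', map_add, e1, e2]
    have e3 := ih F' hempty' hdown' hshift' hcard' y'
    have e4 := ss_two (τ := τ) (ZK := ZK) hn hn' hd hh Sb hne F hdown hempty hS hρ hu
    have e5 : tr (iterate_add_one hh) (NeZero.pos n')
          (KG.mk hρ (isEl_uM (τ := τ) hd hh Sb F hdown hempty hu)) +
        (Lh ^ n) (tr (iterate_add_one hh) (NeZero.pos n')
          (KG.mk hρ (isEl_uM (τ := τ) hd hh Sb F hdown hempty hu))) = 0 := by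
      rw [← tr_Lh, ← map_add, e4, map_zero]
    rw [map_add]
    calc _ = (tr (iterate_add_one hh) (NeZero.pos n')
          (KG.mk hρ (isEl_uM (τ := τ) hd hh Sb F hdown hempty hu)) +
        (Lh ^ n) (tr (iterate_add_one hh) (NeZero.pos n')
          (KG.mk hρ (isEl_uM (τ := τ) hd hh Sb F hdown hempty hu)))) +
        (pull (ss_pullData (τ := τ) (ZK := ZK) hd F' hempty') y' +
        (Lh ^ n) (pull (ss_pullData (τ := τ) (ZK := ZK) hd F' hempty') y')) := by abel
      _ = 0 := by rw [e3, e5, add_zero]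

theorem ss_main [CompactSpace K] [T2Space K] [NeZero n'] (hn : ∃ a, n = 2 ^ a)
    (hn' : ∃ a, n' = 2 ^ a) (hd : n ∣ n') (hτ : Continuous τ) (hτn : τ^[n'] = id)
    (hZK : IsClosed ZK) (hZi : ∀ x ∈ ZK, τ x ∈ ZK) (y : KG n' (shT n' τ) (ZM n' ZK)) :
    pull (pullData_jM hd) y + (Lh ^ n) (pull (pullData_jM hd) y) = 0 := by
  classical
  have hempty : (∅ : Finset (ZMod n')) ∈ ({∅} : Finset (Finset (ZMod n'))) :=
    Finset.mem_singleton_self _
  have hZ : ZT ZK ({∅} : Finset (Finset (ZMod n'))) ⊆ ZM n' ZK := by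
    rintro ⟨x, w⟩ (hp | hp)
    · exact Or.inl hp
    · right
      intro c
      have h1 : suppW w = ∅ := Finset.mem_singleton.1 hp
      by_contra hc
      have h2 : c ∈ suppW w := (ssfilt_mem_suppW w c).2 hc
      rw [h1] at h2
      exact absurd h2 (Finset.notMem_empty c)
  have e1 : pull (ss_pullData (τ := τ) (ZK := ZK) hd {∅} hempty)
      (pull (PullData.rel_id (τ := shT n' τ) hZ) y) = pull (pullData_jM hd) y :=
    pull_pull _ _ (pullData_jM hd) y
  have e2 := ss_claim hn hn' hd hτ hτn hZK hZi (Finset.univ \ ({∅} : Finset (Finset (ZMod n')))).card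
    {∅} hempty (by
      intro A hA B hBA
      rw [Finset.mem_singleton] at hA ⊢
      rw [hA] at hBA
      exact Finset.subset_empty.1 hBA) (by
      intro A hA j
      rw [Finset.mem_singleton] at hA ⊢
      rw [hA, Finset.image_empty]) le_rfl (pull (PullData.rel_id (τ := shT n' τ) hZ) y)
  rw [e1] at e2
  exact e2

end

end Pool.Agent.CRC
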