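import Pool.Agent.Lib.MP_13800a_gt.OSKDefs
import Pool.Agent.Lib.MP_13800a_gt.SS

/-! TASK OSKNull. -/

set_option autoImplicit false

open scoped Matrix Kronecker OnePoint
open Matrix

namespace Pool.Agent.CRC

section
variable {n n' : ℕ} {E : Type} [TopologicalSpace E] {τ : E → E} (D : BUData n n' τ)
variable {ι : Type} [Fintype ι] [DecidableEq ι] {ρ : Matrix ι ι ℂ} {U : D.set × UI → UI → MM ι}
  {u : E → UI → MM ι}

/-- the map `((z,s),w) ↦ ((z, hS ∘ w), s)` -/
noncomputable def osknull_P1 (n' : ℕ) {n : ℕ} {τ : E → E} (D : BUData n n' τ)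
    (q : ((D.T ∩ D.R : Set E) × UI) × (ZMod n' → PP)) : D.set × UI :=
  (⟨(q.1.1.1, fun c => hS (q.2 c)), Or.inl q.1.1.2.2⟩, q.1.2)

/-- the map `((z,s),w) ↦ (secR z, s)` -/
noncomputable def osknull_P2 (n' : ℕ) {n : ℕ} {τ : E → E} (D : BUData n n' τ)
    (q : ((D.T ∩ D.R : Set E) × UI) × (ZMod n' → PP)) : D.set × UI :=
  (D.secR ⟨q.1.1.1, q.1.1.2.2⟩, q.1.2)

theorem osknull_cont1 : Continuous (osknull_P1 n' D) := by
  refine Continuous.prodMk ?_ (continuous_snd.comp continuous_fst)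
  refine Continuous.subtype_mk ?_ _
  refine Continuous.prodMk ?_ ?_
  · exact continuous_subtype_val.comp (continuous_fst.comp continuous_fst)
  · exact continuous_pi fun c => hS.continuous.comp ((continuous_apply c).comp continuous_snd)

theorem osknull_cont2 : Continuous (osknull_P2 n' D) := by
  refine Continuous.prodMk ?_ (continuous_snd.comp continuous_fst)
  refine Continuous.subtype_mk ?_ _
  refine Continuous.prodMk ?_ continuous_const
  have h : Continuous fun q : ((D.T ∩ D.R : Set E) × UI) × (ZMod n' → PP) => (q.1.1.1 : E) :=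
    continuous_subtype_val.comp (continuous_fst.comp continuous_fst)
  exact h

theorem osknull_eqv1 (q : ((D.T ∩ D.R : Set E) × UI) × (ZMod n' → PP)) :
    osknull_P1 n' D (shT n' (Prod.map D.mapTR (id : UI → UI)) q) =
      Prod.map D.map (id : UI → UI) (osknull_P1 n' D q) := rfl

theorem osknull_eqv2 (q : ((D.T ∩ D.R : Set E) × UI) × (ZMod n' → PP)) :
    osknull_P2 n' D (shT n' (Prod.map D.mapTR (id : UI → UI)) q) =
      Prod.map D.map (id : UI → UI) (osknull_P2 n' D q) := rfl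

/-- the element `U((z, hS ∘ w), s) U(secR z, s)⁻¹` -/
noncomputable def osknull_v (U : D.set × UI → UI → MM ι) :
    ((D.T ∩ D.R : Set E) × UI) × (ZMod n' → PP) → UI → MM ι :=
  fun q t => U (osknull_P1 n' D q) t * (U (osknull_P2 n' D q) t)⁻¹

theorem osknull_isEl (hU : IsHt ρ D.map (∅ : Set D.set) U (fun p t => u p.1.1 t)
    (fun _ _ => 1)) :
    IsEl ρ (shT n' (Prod.map D.mapTR (id : UI → UI)))
      (ZM n' (endsZ (D.T ∩ D.R : Set E))) (osknull_v D U) := by
  obtain ⟨hel, h0, h1⟩ := hU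
  have e1 : IsEl ρ (shT n' (Prod.map D.mapTR (id : UI → UI)))
      (∅ : Set (((D.T ∩ D.R : Set E) × UI) × (ZMod n' → PP)))
      (fun q t => U (osknull_P1 n' D q) t) :=
    hel.comp (osknull_cont1 D) (osknull_eqv1 D) (fun q hq => absurd hq (Set.notMem_empty q))
  have e2 : IsEl ρ (shT n' (Prod.map D.mapTR (id : UI → UI)))
      (∅ : Set (((D.T ∩ D.R : Set E) × UI) × (ZMod n' → PP)))
      (fun q t => U (osknull_P2 n' D q) t) :=
    hel.comp (osknull_cont2 D) (osknull_eqv2 D) (fun q hq => absurd hq (Set.notMem_empty q))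
  have e3 := e1.mul e2.inv
  refine ⟨e3.cont, e3.unit, e3.zero, e3.one, ?_, e3.eqv⟩
  intro q hq t
  have key : U (osknull_P1 n' D q) t = U (osknull_P2 n' D q) t := by
    rcases hq with hq | hq
    · rcases hq.1 with h2 | h2
      · have a1 : osknull_P1 n' D q = ((osknull_P1 n' D q).1, 0) := by
          rw [← h2]; rfl
        have a2 : osknull_P2 n' D q = ((osknull_P2 n' D q).1, 0) := by
          rw [← h2]; rfl
        rw [a1, a2, h0, h0]
        rfl
      · have a1 : osknull_P1 n' D q = ((osknull_P1 n' D q).1, 1) := by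
          rw [← h2]; rfl
        have a2 : osknull_P2 n' D q = ((osknull_P2 n' D q).1, 1) := by
          rw [← h2]; rfl
        rw [a1, a2, h1, h1]
    · have a1 : osknull_P1 n' D q = osknull_P2 n' D q := by
        have a3 : (fun c => hS (q.2 c)) = (fun _ : ZMod n' => ptS) := by
          funext c
          rw [hq c]
          rfl
        simp only [osknull_P1, osknull_P2, BUData.secR, a3]
      rw [a1]
  show U (osknull_P1 n' D q) t * (U (osknull_P2 n' D q) t)⁻¹ = 1
  rw [key]
  exact Matrix.mul_nonsing_inv _ ((Matrix.isUnit_iff_isUnit_det _).1 (hel.unit _ _))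

theorem osknull_mapTR_iterate (m : ℕ) (z : (D.T ∩ D.R : Set E)) :
    ((D.mapTR^[m]) z).1 = τ^[m] z.1 := by
  induction m with
  | zero => rfl
  | succ m ih =>
    rw [Function.iterate_succ_apply', Function.iterate_succ_apply', ← ih]
    rfl

theorem osknull_iter_id {a b : ℕ} (hd : a ∣ b) {f : E → E} (h : f^[a] = id) : f^[b] = id := by
  obtain ⟨k, rfl⟩ := hd
  rw [Function.iterate_mul, h, Function.iterate_id]

theorem osknull_iterate (hτn : τ^[n] = id) :
    (Prod.map D.mapTR (id : UI → UI))^[n'] = id := by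
  have h1 : D.mapTR^[n'] = id := by
    funext z
    apply Subtype.ext
    rw [osknull_mapTR_iterate, osknull_iter_id D.dvd hτn]
    rfl
  rw [Prod.map_iterate, h1, Function.iterate_id]
  rfl

theorem osknull_continuous_mapTR (hτ : Continuous τ) : Continuous D.mapTR :=
  (hτ.comp continuous_subtype_val).subtype_mk _

/-- the graph `(z,s) ↦ ((z,s), hS.symm ∘ sb z)` -/
noncomputable def osknull_g (q : (D.T ∩ D.R : Set E) × UI) :
    ((D.T ∩ D.R : Set E) × UI) × (ZMod n → PP) :=
  (q, fun c => hS.symm (D.sb q.1.1 c))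

theorem osknull_pullData_g :
    PullData (shT n (Prod.map D.mapTR (id : UI → UI))) (Prod.map D.mapTR (id : UI → UI))
      (ZM n (endsZ (D.T ∩ D.R : Set E))) (endsZ (D.T ∩ D.R : Set E)) (osknull_g D) := by
  refine ⟨?_, ?_, fun q hq => Or.inl ⟨hq, trivial⟩⟩
  · refine Continuous.prodMk continuous_id (continuous_pi fun c => ?_)
    refine hS.symm.continuous.comp ((continuous_apply c).comp ?_)
    exact D.hsb.comp_continuous (continuous_subtype_val.comp continuous_fst)
      (fun q => q.1.2.1)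
  · rintro ⟨z, s⟩
    have h1 : ∀ c, D.sb (τ z.1) c = D.sb z.1 (c + 1) := D.hsbe z.1 z.2.1
    show ((D.mapTR z, s), fun c => hS.symm (D.sb (τ z.1) c)) =
      ((D.mapTR z, s), fun c => hS.symm (D.sb z.1 (c + 1)))
    simp only [h1]

/-- OSKa: `mk om + L^n mk om = 0`, from `ss_main` with `K = (T ∩ R) × UI`,
`y = mk of (z,s,w) ↦ U((z, hS ∘ w), s) U(secR z, s)⁻¹`, pulled back along
`(z,s) ↦ ((z,s), hS.symm ∘ sb z)`. -/
theorem BUData.om_null [CompactSpace E] [T2Space E] [NeZero n'] (hn : ∃ a, n = 2 ^ a)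
    (hn' : ∃ a, n' = 2 ^ a) (hτ : Continuous τ) (hτn : τ^[n] = id) (hρ : IsRep n' ρ)
    (hU : IsHt ρ D.map (∅ : Set D.set) U (fun p t => u p.1.1 t) (fun _ _ => 1)) :
    KG.mk hρ (D.isEl_om hU) + (Lh ^ n) (KG.mk hρ (D.isEl_om hU)) = 0 := by
  have : CompactSpace (D.T ∩ D.R : Set E) :=
    isCompact_iff_compactSpace.1 (D.hT.inter D.hR).isCompact
  have hcl : IsClosed (endsZ (D.T ∩ D.R : Set E)) := by
    have h1 : IsClosed {p : (D.T ∩ D.R : Set E) × UI | p.2 = 0} :=
      isClosed_eq continuous_snd continuous_const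
    have h2 : IsClosed {p : (D.T ∩ D.R : Set E) × UI | p.2 = 1} :=
      isClosed_eq continuous_snd continuous_const
    exact h1.union h2
  have key := ss_main (K := (D.T ∩ D.R : Set E) × UI) (ZK := endsZ (D.T ∩ D.R : Set E)) hn hn'
    D.dvd ((osknull_continuous_mapTR D hτ).prodMap continuous_id) (osknull_iterate D hτn) hcl
    (fun x hx => hx) (KG.mk hρ (osknull_isEl D hU))
  have key2 := congrArg (pull (osknull_pullData_g D)) key
  rw [map_zero, map_add, pull_Lh, pull_mk, pull_mk] at key2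
  have e : KG.mk hρ (D.isEl_om hU) = KG.mk hρ (((osknull_isEl D hU).comp
      (pullData_jM (K := (D.T ∩ D.R : Set E) × UI) (τ := Prod.map D.mapTR (id : UI → UI))
        (ZK := endsZ (D.T ∩ D.R : Set E)) D.dvd).cont
      (pullData_jM (K := (D.T ∩ D.R : Set E) × UI) (τ := Prod.map D.mapTR (id : UI → UI))
        (ZK := endsZ (D.T ∩ D.R : Set E)) D.dvd).eqv
      (pullData_jM (K := (D.T ∩ D.R : Set E) × UI) (τ := Prod.map D.mapTR (id : UI → UI))
        (ZK := endsZ (D.T ∩ D.R : Set E)) D.dvd).rel).comp (osknull_pullData_g D).cont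
      (osknull_pullData_g D).eqv (osknull_pullData_g D).rel) := by
    apply KG.mk_congr _ _ _ _ rfl
    rintro ⟨z, s⟩ t
    have h1 : D.secT ⟨z.1, z.2.1⟩ =
        (osknull_P1 n' D (jM ((D.T ∩ D.R : Set E) × UI) D.dvd (osknull_g D (z, s)))).1 := by
      apply Subtype.ext
      show (z.1, fun c => D.sb z.1 (ZMod.castHom D.dvd (ZMod n) c)) =
        (z.1, fun c => hS (hS.symm (D.sb z.1 (ZMod.castHom D.dvd (ZMod n) c))))
      simp only [Homeomorph.apply_symm_apply]
    show U (D.secT ⟨z.1, z.2.1⟩, s) t * (U (D.secR ⟨z.1, z.2.2⟩, s) t)⁻¹ =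
      U (osknull_P1 n' D (jM ((D.T ∩ D.R : Set E) × UI) D.dvd (osknull_g D (z, s)))) t *
      (U (osknull_P2 n' D (jM ((D.T ∩ D.R : Set E) × UI) D.dvd (osknull_g D (z, s)))) t)⁻¹
    rw [h1]
    rfl
  rw [e]
  exact key2

end

end Pool.Agent.CRC
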