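import Pool.Agent.Lib.MP_13800a_gt.OSKGlue
import Pool.Agent.Lib.MP_13800a_gt.OSKNull

/-! TASK OSK: the one-step kernel lemma (version of helper70) and (G3'). -/

set_option autoImplicit false

open scoped Matrix Kronecker OnePoint
open Matrix

namespace Pool.Agent.CRC

section
variable {n n' : ℕ} {E : Type} [TopologicalSpace E] {τ : E → E} (D : BUData n n' τ)

private theorem osk_iter_dvd {Y : Type} {f : Y → Y} {a b : ℕ} (h : f^[a] = id) (hd : a ∣ b) :
    f^[b] = id := by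
  obtain ⟨c, rfl⟩ := hd
  rw [Function.iterate_mul, h, Function.iterate_id]

private theorem osk_mapT_iter (m : ℕ) (z : D.T) : ((D.mapT^[m] z : D.T) : E) = τ^[m] z.1 := by
  induction m generalizing z with
  | zero => rfl
  | succ m ih => rw [Function.iterate_succ_apply, ih, Function.iterate_succ_apply]; rfl

private theorem osk_core [CompactSpace E] [T2Space E] [NeZero n'] (hn : ∃ a, n = 2 ^ a)
    (hn' : ∃ a, n' = 2 ^ a) (hτ : Continuous τ) (hτn : τ^[n] = id)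
    {ι : Type} [Fintype ι] [DecidableEq ι] {ρ : Matrix ι ι ℂ} {u : E → UI → MM ι}
    {U : D.set × UI → UI → MM ι} (hρ : IsRep n' ρ) (hu : IsEl ρ τ (∅ : Set E) u)
    (hU : IsHt ρ D.map (∅ : Set D.set) U (fun p t => u p.1.1 t) (fun _ _ => 1)) :
    KG.mk hρ hu + (Lh ^ n) (KG.mk hρ hu) = 0 := by
  have key := D.om_null hn hn' hτ hτn hρ hU
  rw [Lh_pow_mk, ← KG.mk_bs, KG.mk_eq_zero_iff] at key
  obtain ⟨κ, _, _, σ, W, hσ, hW⟩ := key
  rw [Lh_pow_mk, ← KG.mk_bs, KG.mk_eq_zero_iff]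
  set ρ2 := dg (dg ρ (zt n' ^ n • ρ)) σ with hρ2def
  have hρ2 : IsRep n' ρ2 := (hρ.dsum (hρ.smul n)).dsum hσ
  have hcT : CompactSpace D.T := isCompact_iff_compactSpace.1 D.hT.isCompact
  have hcTR : CompactSpace (D.T ∩ D.R : Set E) :=
    isCompact_iff_compactSpace.1 (D.hT.inter D.hR).isCompact
  have hmT : Continuous D.mapT := Continuous.subtype_mk (hτ.comp continuous_subtype_val) _
  have hτn' : τ^[n'] = id := osk_iter_dvd hτn D.dvd
  -- the inclusion
  let j : (D.T ∩ D.R : Set E) × UI → D.T × UI := fun p => (⟨p.1.1, p.1.2.1⟩, p.2)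
  have hj : Continuous j := by
    refine Continuous.prodMk ?_ continuous_snd
    exact Continuous.subtype_mk (continuous_subtype_val.comp continuous_fst) _
  have hji : Function.Injective j := by
    rintro ⟨⟨a, ha⟩, s⟩ ⟨⟨b, hb⟩, t⟩ h
    simp only [j, Prod.mk.injEq, Subtype.mk.injEq] at h
    obtain ⟨rfl, rfl⟩ := h
    rfl
  have hcomp : (Prod.map D.mapT (id : UI → UI))^[n'] = id := by
    have h1 : D.mapT^[n'] = id := by
      funext z
      apply Subtype.ext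
      rw [osk_mapT_iter, hτn']; rfl
    rw [Prod.map_iterate, h1, Function.iterate_id]
    rfl
  have hZcl : IsClosed (endsZ D.T) := by
    have : endsZ D.T = (Prod.snd : D.T × UI → UI) ⁻¹' {0, 1} := by
      ext p; simp [endsZ]
    rw [this]
    exact IsClosed.preimage continuous_snd (Set.Finite.isClosed (by simp))
  have hjZ : j ⁻¹' (endsZ D.T) = endsZ (D.T ∩ D.R : Set E) := rfl
  obtain ⟨Om, hOm, hOmj, -⟩ := ext_el (Q := D.T × UI) (B := (D.T ∩ D.R : Set E) × UI) (j := j)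
    (τ := Prod.map D.mapT (id : UI → UI)) (τB := Prod.map D.mapTR (id : UI → UI))
    (Z := endsZ D.T) (n := n') (NeZero.pos n') (hmT.prodMap continuous_id) hcomp hZcl
    (fun q hq => hq) hj hji (fun b => rfl) hρ2 (om := fun q t => bs (bs (D.om U q t) (D.om U q t)) 1)
    (by rw [hjZ]; exact ⟨W, hW⟩)
  -- the two pieces
  have UT : IsEl ρ (Prod.map D.mapT (id : UI → UI)) (∅ : Set (D.T × UI))
      (fun p t => U (D.secT p.1, p.2) t) := by
    refine hU.1.comp (f := fun p : D.T × UI => (D.secT p.1, p.2)) ?_ ?_ ?_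
    · exact (D.continuous_secT.comp continuous_fst).prodMk continuous_snd
    · intro q
      simp only [Prod.map, D.secT_map, id]
    · intro q hq; exact hq.elim
  have UR : IsEl ρ (Prod.map D.mapR (id : UI → UI)) (∅ : Set (D.R × UI))
      (fun p t => U (D.secR p.1, p.2) t) := by
    refine hU.1.comp (f := fun p : D.R × UI => (D.secR p.1, p.2)) ?_ ?_ ?_
    · exact (D.continuous_secR.comp continuous_fst).prodMk continuous_snd
    · intro q
      simp only [Prod.map, D.secR_map, id]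
    · intro q hq; exact hq.elim
  have hT : IsEl ρ2 (Prod.map D.mapT (id : UI → UI)) (∅ : Set (D.T × UI))
      (fun p t => (Om p t)⁻¹ * bs (bs (U (D.secT p.1, p.2) t) (U (D.secT p.1, p.2) t)) 1) :=
    ((hOm.mono (Set.empty_subset _)).inv).mul
      ((UT.bsum (UT.smulRep (zt n' ^ n))).bsum IsEl.const_one)
  have hR : IsEl ρ2 (Prod.map D.mapR (id : UI → UI)) (∅ : Set (D.R × UI))
      (fun p t => bs (bs (U (D.secR p.1, p.2) t) (U (D.secR p.1, p.2) t)) 1) :=
    (UR.bsum (UR.smulRep (zt n' ^ n))).bsum IsEl.const_one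
  have hu2 : IsEl ρ2 τ (∅ : Set E) (fun q t => bs (bs (u q t) (u q t)) 1) :=
    (hu.bsum (hu.smulRep (zt n' ^ n))).bsum IsEl.const_one
  have hend0 : ∀ (z : D.T) t, Om (z, 0) t = 1 := fun z t => hOm.rel _ (Or.inl rfl) t
  have hend1 : ∀ (z : D.T) t, Om (z, 1) t = 1 := fun z t => hOm.rel _ (Or.inr rfl) t
  have := D.glue hu2 _ _ hT hR ?_ ?_ ?_ ?_ ?_
  · obtain ⟨V, hV⟩ := this
    exact ⟨κ, inferInstance, inferInstance, σ, V, hσ, hV⟩
  · intro z t
    simp only [hend0, inv_one, one_mul, hU.2.1]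
    rfl
  · intro z t
    simp only [hend1, inv_one, one_mul, hU.2.2, bs_one]
  · intro z t
    simp only [hU.2.1]
    rfl
  · intro z t
    simp only [hU.2.2, bs_one]
  · intro z h1 h2 s t
    have e1 := hOmj (⟨z, h1, h2⟩, s) t
    have e2 : Om (⟨z, h1⟩, s) t = bs (bs (D.om U (⟨z, h1, h2⟩, s) t) (D.om U (⟨z, h1, h2⟩, s) t)) 1 :=
      e1
    simp only [e2]
    have uT : IsUnit (U (D.secT ⟨z, h1⟩, s) t) := hU.1.unit _ _
    have uR : IsUnit (U (D.secR ⟨z, h2⟩, s) t) := hU.1.unit _ _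
    have hom : D.om U (⟨z, h1, h2⟩, s) t = U (D.secT ⟨z, h1⟩, s) t * (U (D.secR ⟨z, h2⟩, s) t)⁻¹ := rfl
    have e3 : bs (bs (U (D.secT ⟨z, h1⟩, s) t) (U (D.secT ⟨z, h1⟩, s) t)) (1 : MM κ)
        = bs (bs (D.om U (⟨z, h1, h2⟩, s) t) (D.om U (⟨z, h1, h2⟩, s) t)) 1 *
          bs (bs (U (D.secR ⟨z, h2⟩, s) t) (U (D.secR ⟨z, h2⟩, s) t)) 1 := by
      rw [bs_mul, bs_mul, hom, one_mul, Matrix.mul_assoc,
        Matrix.nonsing_inv_mul _ ((Matrix.isUnit_iff_isUnit_det _).1 uR), Matrix.mul_one]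
    rw [e3, ← Matrix.mul_assoc, Matrix.nonsing_inv_mul, Matrix.one_mul]
    apply (Matrix.isUnit_iff_isUnit_det _).1
    rw [isUnit_bs_iff, isUnit_bs_iff]
    refine ⟨⟨?_, ?_⟩, isUnit_one⟩ <;>
    · rw [hom]
      exact uT.mul ((Matrix.isUnit_nonsing_inv_iff).2 uR)

/-- OSKc: the one-step kernel lemma -/
theorem osk [CompactSpace E] [T2Space E] [NeZero n'] (hn : ∃ a, n = 2 ^ a)
    (hn' : ∃ a, n' = 2 ^ a) (hτ : Continuous τ) (hτn : τ^[n] = id)
    (h : PullData τ D.map (∅ : Set E) (∅ : Set D.set) (fun p => p.1.1))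
    (x : KG n' τ (∅ : Set E)) (hx : pull h x = 0) : x + (Lh ^ n) x = 0 := by
  obtain ⟨ι, _, _, ρ, u, hρ, hu, rfl⟩ := KG.ind x
  rw [pull_mk, KG.mk_eq_zero_iff] at hx
  obtain ⟨κ, _, _, σ, U, hσ, hU⟩ := hx
  have e : KG.mk hρ hu = KG.mk (hρ.dsum hσ) (hu.bsum (IsEl.const_one (ρ := σ))) :=
    ((KG.mk_bs hρ hu hσ IsEl.const_one).trans (by rw [KG.mk_one, add_zero])).symm
  rw [e]
  exact osk_core D hn hn' hτ hτn (hρ.dsum hσ) (hu.bsum IsEl.const_one) hU

/-- (G3') -/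
theorem kgood_bu [CompactSpace E] [T2Space E] {M : ℕ} (hn : ∃ a, n = 2 ^ a)
    (hn' : ∃ a, n' = 2 ^ a) (hτ : Continuous τ) (hτn : τ^[n] = id)
    (hG : Good n' τ M) (hM : n ≤ M) : Good n' D.map (M - n) := by
  have hne : NeZero n' := ⟨by obtain ⟨a, rfl⟩ := hn'; positivity⟩
  have h : PullData τ D.map (∅ : Set E) (∅ : Set D.set) (fun p => p.1.1) :=
    ⟨continuous_fst.comp continuous_subtype_val, fun _ => rfl, fun _ h => h.elim⟩
  intro h0
  apply hG
  have e1 : ((1 + Lh : AddMonoid.End (KG n' D.map (∅ : Set D.set))) ^ (M - n)) (oneK n' D.map)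
      = pull h (((1 + Lh : AddMonoid.End (KG n' τ (∅ : Set E))) ^ (M - n)) (oneK n' τ)) := by
    rw [pull_one_add_pow, pull_oneK]
  rw [e1] at h0
  have e2 := osk D hn hn' hτ hτn h _ h0
  have e3 : (1 + Lh : AddMonoid.End (KG n' τ (∅ : Set E))) ^ M
      = (1 + Lh ^ n) * (1 + Lh) ^ (M - n) := by
    have : (1 + Lh : AddMonoid.End (KG n' τ (∅ : Set E))) ^ n = 1 + Lh ^ n := by
      obtain ⟨a, rfl⟩ := hn
      exact one_add_pow_two_pow _ a
    rw [← this, ← pow_add, Nat.add_sub_cancel' hM]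
  rw [e3]
  exact e2

end

end Pool.Agent.CRC
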