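import Pool.Agent.Lib.MP_13800a_gt.Chop

/-! TASK Tietze: equivariant Tietze extension of elements close to `1` (section 2). -/

set_option autoImplicit false

open scoped Matrix Kronecker Matrix.Norms.L2Operator
open Matrix

namespace Pool.Agent.CRC

/-- the projection onto amplified matrices -/
noncomputable def tietze_P {ι : Type} (x : MM ι) : MM ι :=
  amp (Matrix.of fun i k => x (i, 0) (k, 0))

theorem tietze_P_amp {ι : Type} (a : Matrix ι ι ℂ) : tietze_P (amp a) = amp a := by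
  unfold tietze_P
  congr 1
  ext i k
  simp [amp]

theorem tietze_P_cont {ι : Type} : Continuous (tietze_P : MM ι → MM ι) := by
  refine continuous_amp.comp (continuous_matrix fun i k => ?_)
  exact continuous_id.matrix_elem (i, 0) (k, 0)

theorem tietze_comm {m : Type} [Fintype m] [DecidableEq m] {X Y R : Matrix m m ℂ}
    (h : X * R = R * Y) (a : ℂ) : (a • X + 1) * R = R * (a • Y + 1) := by
  rw [add_mul, smul_mul_assoc, h, mul_add, mul_smul_comm, one_mul, mul_one]

/-- extension of matrix valued functions from `j B`, zero on `Z` -/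
theorem tietze_ext {Q B ι : Type} [TopologicalSpace Q] [CompactSpace Q] [T2Space Q]
    [TopologicalSpace B] [CompactSpace B] {Z : Set Q} {j : B → Q}
    (hZ : IsClosed Z) (hj : Continuous j) (hji : Function.Injective j)
    (k : B → UI → MM ι) (hk : Continuous fun p : B × UI => k p.1 p.2)
    (hkZ : ∀ b, j b ∈ Z → ∀ t, k b t = 0) [Fintype ι] :
    ∃ κ : Q → UI → MM ι, Continuous (fun p : Q × UI => κ p.1 p.2) ∧
      (∀ b t, κ (j b) t = k b t) ∧ ∀ q ∈ Z, ∀ t, κ q t = 0 := by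
  classical
  let e : B × UI → Q × UI := Prod.map j id
  have he : Topology.IsClosedEmbedding e :=
    (hj.prodMap continuous_id).isClosedEmbedding (hji.prodMap Function.injective_id)
  let g : Q × UI → MM ι := fun p => if h : ∃ b, j b = p.1 then k h.choose p.2 else 0
  have hge : ∀ b t, g (j b, t) = k b t := by
    intro b t
    have h : ∃ b', j b' = j b := ⟨b, rfl⟩
    have h1 : g (j b, t) = k h.choose t := dif_pos h
    rw [h1, hji h.choose_spec]
  have hgZ : ∀ q ∈ Z, ∀ t, g (q, t) = 0 := by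
    intro q hq t
    by_cases h : ∃ b, j b = q
    · obtain ⟨b, rfl⟩ := h
      rw [hge, hkZ b hq]
    · exact dif_neg h
  have h1 : ContinuousOn g (Set.range e) := by
    rw [continuousOn_iff_continuous_domRestrict]
    have h2 : (Set.range e).domRestrict g =
        (fun p : B × UI => k p.1 p.2) ∘ (he.toIsEmbedding.toHomeomorph).symm := by
      funext x
      obtain ⟨p, hp⟩ := x
      obtain ⟨⟨b, t⟩, rfl⟩ := hp
      have h3 : (he.toIsEmbedding.toHomeomorph).symm ⟨e (b, t), ⟨(b, t), rfl⟩⟩ = (b, t) := by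
        rw [Homeomorph.symm_apply_eq]
        rfl
      simp only [Function.comp_apply, h3]
      exact hge b t
    rw [h2]
    exact hk.comp (Homeomorph.continuous _)
  have h2 : ContinuousOn g (Z ×ˢ (Set.univ : Set UI)) :=
    (continuousOn_const (c := (0 : MM ι))).congr (fun p hp => hgZ p.1 hp.1 p.2)
  have hcl1 : IsClosed (Set.range e) := he.isClosed_range
  have hcl2 : IsClosed (Z ×ˢ (Set.univ : Set UI)) := hZ.prod isClosed_univ
  have h3 := ContinuousOn.union_of_isClosed h1 h2 hcl1 hcl2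
  have : TietzeExtension (MM ι) :=
    inferInstanceAs (TietzeExtension ((ι × Fin 2) → (ι × Fin 2) → ℂ))
  obtain ⟨G, hG⟩ := ContinuousMap.exists_restrict_eq (Y := MM ι) (hcl1.union hcl2)
    ⟨_, continuousOn_iff_continuous_domRestrict.1 h3⟩
  have hG' : ∀ p ∈ Set.range e ∪ Z ×ˢ (Set.univ : Set UI), G p = g p := by
    intro p hp
    exact congrArg (fun F : C(_, MM ι) => F ⟨p, hp⟩) hG
  refine ⟨fun q t => G (q, t), G.continuous, ?_, ?_⟩
  · intro b t
    change G (j b, t) = k b t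
    rw [hG' (j b, t) (Or.inl ⟨(b, t), rfl⟩), hge]
  · intro q hq t
    change G (q, t) = 0
    rw [hG' (q, t) (Or.inr ⟨hq, Set.mem_univ _⟩), hgZ q hq t]

/-- Extension of a small element. First extend `a - 1` (`t = 0`) from `j B ∪ Z` to `Q`, then
`κ = c - 1` from `(j B ∪ Z) × UI ∪ Q × {0,1}` to `Q × UI` by the Tietze theorem with norm bound,
finally average `(1/n) ∑ amp(ρ)^{-i} κ(τ^i q,t) amp(ρ)^i`. -/
theorem tietze_el {n : ℕ} {Q B ι : Type} [TopologicalSpace Q] [CompactSpace Q] [T2Space Q]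
    [TopologicalSpace B] [CompactSpace B] [Fintype ι] [DecidableEq ι]
    {ρ : Matrix ι ι ℂ} {τ : Q → Q} {τB : B → B} {Z : Set Q} {j : B → Q}
    (hn : 0 < n) (hτ : Continuous τ) (hτn : τ^[n] = id) (hZ : IsClosed Z)
    (hZi : ∀ q ∈ Z, τ q ∈ Z) (hj : Continuous j) (hji : Function.Injective j)
    (hje : ∀ b, j (τB b) = τ (j b)) (hρ : IsRep n ρ)
    {c : B → UI → MM ι} (hc : IsEl ρ τB (j ⁻¹' Z) c) {η : ℝ} (hη0 : 0 ≤ η) (hη : η < 1)
    (hcη : ∀ b t, ‖c b t - 1‖ ≤ η) :
    ∃ c' : Q → UI → MM ι, IsEl ρ τ Z c' ∧ (∀ q t, ‖c' q t - 1‖ ≤ η) ∧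
      ∀ b t, c' (j b) t = c b t := by
  rcases hη0.eq_or_lt with h0 | hηp
  · refine ⟨fun _ _ => 1, IsEl.const_one, ?_, ?_⟩
    · intro q t; simp [← h0]
    · intro b t
      have h1 := hcη b t
      rw [← h0] at h1
      have h2 : c b t - 1 = 0 := norm_eq_zero.1 (le_antisymm h1 (norm_nonneg _))
      exact (sub_eq_zero.1 h2).symm
  -- the first extension
  obtain ⟨κ₁, hκ₁c, hκ₁j, hκ₁Z⟩ := tietze_ext hZ hj hji (fun b t => c b t - 1)
    (hc.cont.sub continuous_const) (fun b hb t => by rw [hc.rel b hb t, sub_self])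
  let κ₂ : Q → UI → MM ι := fun q t => κ₁ q t -
    ((1 - (t : ℝ) : ℝ) : ℂ) • (κ₁ q 0 - tietze_P (κ₁ q 0)) - (((t : ℝ) : ℂ)) • κ₁ q 1
  have hκ₂c : Continuous (fun p : Q × UI => κ₂ p.1 p.2) := by
    have h0 : Continuous (fun p : Q × UI => κ₁ p.1 0) :=
      hκ₁c.comp (continuous_fst.prodMk continuous_const)
    have h1 : Continuous (fun p : Q × UI => κ₁ p.1 1) :=
      hκ₁c.comp (continuous_fst.prodMk continuous_const)
    have ht : Continuous (fun p : Q × UI => (p.2 : ℝ)) :=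
      continuous_subtype_val.comp continuous_snd
    have hs1 : Continuous (fun p : Q × UI => ((1 - (p.2 : ℝ) : ℝ) : ℂ)) :=
      Complex.continuous_ofReal.comp (continuous_const.sub ht)
    have hs2 : Continuous (fun p : Q × UI => (((p.2 : ℝ) : ℝ) : ℂ)) :=
      Complex.continuous_ofReal.comp ht
    exact (hκ₁c.sub (hs1.smul (h0.sub (tietze_P_cont.comp h0)))).sub (hs2.smul h1)
  have hκ₂j : ∀ b t, κ₂ (j b) t = c b t - 1 := by
    intro b t
    have h0 : tietze_P (κ₁ (j b) 0) = κ₁ (j b) 0 := by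
      obtain ⟨a, ha⟩ := hc.zero b
      have : κ₁ (j b) 0 = amp (a - 1) := by rw [hκ₁j, ha, amp_sub, amp_one]
      rw [this, tietze_P_amp]
    have h1 : κ₁ (j b) 1 = 0 := by rw [hκ₁j, hc.one, sub_self]
    simp only [κ₂]
    rw [h0, h1, hκ₁j]
    simp
  have hP0 : tietze_P (0 : MM ι) = 0 := by
    have := tietze_P_amp (0 : Matrix ι ι ℂ)
    rwa [amp_zero] at this
  have hκ₂Z : ∀ q ∈ Z, ∀ t, κ₂ q t = 0 := by
    intro q hq t
    simp only [κ₂]
    rw [hκ₁Z q hq t, hκ₁Z q hq 0, hκ₁Z q hq 1, hP0]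
    simp
  have hκ₂0 : ∀ q, ∃ a : Matrix ι ι ℂ, κ₂ q 0 = amp a := by
    intro q
    refine ⟨Matrix.of fun i k => κ₁ q 0 (i, 0) (k, 0), ?_⟩
    change κ₂ q 0 = tietze_P (κ₁ q 0)
    simp only [κ₂]
    simp
  have hκ₂1 : ∀ q, κ₂ q 1 = 0 := by
    intro q
    simp only [κ₂]
    simp
  -- the representation
  have hu : ∀ k : ℕ, IsUnit (amp (ρ ^ k)).det := fun k =>
    (Matrix.isUnit_iff_isUnit_det _).1 ((isUnit_amp_iff _).2 (hρ.isUnit.pow k))
  have hτk : ∀ k : ℕ, Continuous (τ^[k]) := fun k => hτ.iterate k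
  -- averaging
  let F : ℕ → Q → UI → MM ι := fun k q t => (amp (ρ ^ k))⁻¹ * κ₂ (τ^[k] q) t * amp (ρ ^ k)
  let κ₃ : Q → UI → MM ι := fun q t => ((n : ℂ)⁻¹) • ∑ k ∈ Finset.range n, F k q t
  have hFc : ∀ k, Continuous (fun p : Q × UI => F k p.1 p.2) := by
    intro k
    have h1 : Continuous (fun p : Q × UI => κ₂ (τ^[k] p.1) p.2) :=
      hκ₂c.comp (((hτk k).comp continuous_fst).prodMk continuous_snd)
    exact (continuous_const.mul h1).mul continuous_const
  have hκ₃c : Continuous (fun p : Q × UI => κ₃ p.1 p.2) := by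
    have h1 : Continuous (fun p : Q × UI => ∑ k ∈ Finset.range n, F k p.1 p.2) :=
      continuous_finsetSum _ fun k _ => hFc k
    have h2 : Continuous (fun _ : Q × UI => (n : ℂ)⁻¹) := continuous_const
    exact h2.smul h1
  have hn0 : (n : ℂ) ≠ 0 := Nat.cast_ne_zero.2 hn.ne'
  have hjk : ∀ (k : ℕ) (b : B), τ^[k] (j b) = j (τB^[k] b) := by
    intro k
    induction k with
    | zero => intro b; rfl
    | succ m ih => intro b; rw [Function.iterate_succ_apply, ← hje, ih, Function.iterate_succ_apply]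
  have hκ₃j : ∀ b t, κ₃ (j b) t = c b t - 1 := by
    intro b t
    have h1 : ∀ k, F k (j b) t = c b t - 1 := by
      intro k
      simp only [F]
      rw [hjk, hκ₂j, Matrix.mul_assoc, sub_mul, one_mul, hc.eqv_iter k b t, ← mul_sub_one,
        ← Matrix.mul_assoc, Matrix.nonsing_inv_mul _ (hu k), one_mul]
    simp only [κ₃]
    rw [Finset.sum_congr rfl (fun k _ => h1 k), Finset.sum_const, Finset.card_range,
      ← Nat.cast_smul_eq_nsmul ℂ, smul_smul, inv_mul_cancel₀ hn0, one_smul]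
  have hZk : ∀ (k : ℕ), ∀ q ∈ Z, τ^[k] q ∈ Z := by
    intro k
    induction k with
    | zero => intro q hq; exact hq
    | succ m ih => intro q hq; rw [Function.iterate_succ_apply]; exact ih _ (hZi q hq)
  have hκ₃Z : ∀ q ∈ Z, ∀ t, κ₃ q t = 0 := by
    intro q hq t
    have h1 : ∀ k, F k q t = 0 := by
      intro k
      simp only [F]
      rw [hκ₂Z _ (hZk k q hq) t, Matrix.mul_zero, Matrix.zero_mul]
    simp only [κ₃]
    rw [Finset.sum_congr rfl (fun k _ => h1 k)]
    simp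
  have hκ₃0 : ∀ q, ∃ a : Matrix ι ι ℂ, κ₃ q 0 = amp a := by
    intro q
    choose a ha using hκ₂0
    have h1 : ∀ k, F k q 0 = amp ((ρ ^ k)⁻¹ * a (τ^[k] q) * ρ ^ k) := by
      intro k
      simp only [F]
      rw [ha, ← amp_inv, ← amp_mul, ← amp_mul]
    have h2 : ∀ m : ℕ, ∃ b : Matrix ι ι ℂ, ∑ k ∈ Finset.range m, F k q 0 = amp b := by
      intro m
      induction m with
      | zero => exact ⟨0, by rw [amp_zero]; simp⟩
      | succ m ih =>
        obtain ⟨b, hb⟩ := ih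
        exact ⟨b + (ρ ^ m)⁻¹ * a (τ^[m] q) * ρ ^ m, by
          rw [Finset.sum_range_succ, hb, h1, ← amp_add]⟩
    obtain ⟨b, hb⟩ := h2 n
    exact ⟨(n : ℂ)⁻¹ • b, by simp only [κ₃]; rw [hb, amp_smul]⟩
  have hκ₃1 : ∀ q, κ₃ q 1 = 0 := by
    intro q
    have h1 : ∀ k, F k q 1 = 0 := by
      intro k
      simp only [F]
      rw [hκ₂1, Matrix.mul_zero, Matrix.zero_mul]
    simp only [κ₃]
    rw [Finset.sum_congr rfl (fun k _ => h1 k)]
    simp
  have hκ₃e : ∀ q t, κ₃ (τ q) t * amp ρ = amp ρ * κ₃ q t := by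
    intro q t
    have h1 : ∀ k, F k (τ q) t * amp ρ = amp ρ * F (k + 1) q t := by
      intro k
      simp only [F]
      rw [Function.iterate_succ_apply, pow_succ' ρ k]
      have e1 : amp (ρ * ρ ^ k) = amp ρ * amp (ρ ^ k) := amp_mul _ _
      have e2 : amp (ρ ^ k) * amp ρ = amp ρ * amp (ρ ^ k) := by
        rw [← amp_mul, ← amp_mul, ← pow_succ, ← pow_succ']
      have hu1 : IsUnit (amp ρ).det := by
        have := hu 1
        rwa [pow_one] at this
      have e3 : (amp (ρ * ρ ^ k))⁻¹ = (amp ρ)⁻¹ * (amp (ρ ^ k))⁻¹ := by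
        rw [e1, ← e2, Matrix.mul_inv_rev]
      rw [e3, e1]
      simp only [Matrix.mul_assoc]
      rw [← Matrix.mul_assoc (amp ρ) (amp ρ)⁻¹, Matrix.mul_nonsing_inv _ hu1, Matrix.one_mul, e2]
    have h2 : F n q t = F 0 q t := by
      simp only [F]
      rw [hτn, hρ.2]
      simp
    have h3 : ∑ k ∈ Finset.range n, F (k + 1) q t = ∑ k ∈ Finset.range n, F k q t := by
      have h4 := Finset.sum_range_succ (fun k => F k q t) n
      have h5 := Finset.sum_range_succ' (fun k => F k q t) n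
      rw [h4, h2] at h5
      exact (add_right_cancel h5).symm
    simp only [κ₃]
    rw [smul_mul_assoc, Finset.sum_mul, Finset.sum_congr rfl (fun k _ => h1 k), ← Finset.mul_sum,
      h3, mul_smul_comm]
  have hnorm : ∀ q t, ‖κ₃ (τ q) t‖ = ‖κ₃ q t‖ := by
    intro q t
    have h1 := norm_conj_amp hρ 1 (κ₃ (τ q) t)
    have hu1 := hu 1
    rw [pow_one] at h1 hu1
    rw [← h1, Matrix.mul_assoc, hκ₃e, ← Matrix.mul_assoc, Matrix.nonsing_inv_mul _ hu1,
      Matrix.one_mul]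
  -- retraction onto the ball
  let s : Q → UI → ℝ := fun q t => (max 1 (‖κ₃ q t‖ / η))⁻¹
  have hs0 : ∀ q t, 0 < s q t := fun q t => inv_pos.2 (lt_of_lt_of_le one_pos (le_max_left _ _))
  have hsc : Continuous (fun p : Q × UI => s p.1 p.2) := by
    refine Continuous.inv₀ (continuous_const.max (hκ₃c.norm.div_const η)) ?_
    intro p
    exact (lt_of_lt_of_le one_pos (le_max_left _ _)).ne'
  have hsb : ∀ q t, ‖((s q t : ℝ) : ℂ) • κ₃ q t‖ ≤ η := by
    intro q t
    rw [norm_smul, Complex.norm_real, Real.norm_of_nonneg (hs0 q t).le]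
    have hm : 0 < max 1 (‖κ₃ q t‖ / η) := lt_of_lt_of_le one_pos (le_max_left _ _)
    have h1 : ‖κ₃ q t‖ ≤ η * max 1 (‖κ₃ q t‖ / η) := by
      have := le_max_right 1 (‖κ₃ q t‖ / η)
      rw [div_le_iff₀ hηp] at this
      linarith
    simp only [s]
    rw [inv_mul_le_iff₀ hm]
    linarith
  have hcomm : ∀ q t, ((s q t : ℝ) : ℂ) • κ₃ q t + 1 - 1 = ((s q t : ℝ) : ℂ) • κ₃ q t :=
    fun q t => by simp
  refine ⟨fun q t => ((s q t : ℝ) : ℂ) • κ₃ q t + 1, ⟨?_, ?_, ?_, ?_, ?_, ?_⟩, ?_, ?_⟩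
  · exact ((Complex.continuous_ofReal.comp hsc).smul hκ₃c).add continuous_const
  · intro q t
    have h1 : IsUnit (1 - (-(((s q t : ℝ) : ℂ) • κ₃ q t))) := by
      apply isUnit_one_sub_of_norm_lt_one
      rw [norm_neg]
      exact (hsb q t).trans_lt hη
    have h2 : (1 - (-(((s q t : ℝ) : ℂ) • κ₃ q t))) = ((s q t : ℝ) : ℂ) • κ₃ q t + 1 := by
      rw [sub_neg_eq_add, add_comm]
    rwa [h2] at h1
  · intro q
    obtain ⟨a, ha⟩ := hκ₃0 q
    exact ⟨((s q 0 : ℝ) : ℂ) • a + 1, by rw [ha, amp_add, amp_smul, amp_one]⟩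
  · intro q
    rw [hκ₃1, smul_zero, zero_add]
  · intro q hq t
    rw [hκ₃Z q hq t, smul_zero, zero_add]
  · intro q t
    have h1 : s (τ q) t = s q t := by simp only [s]; rw [hnorm]
    rw [h1]
    exact tietze_comm (hκ₃e q t) _
  · intro q t
    simp only
    rw [hcomm]
    exact hsb q t
  · intro b t
    have h1 : s (j b) t = 1 := by
      simp only [s]
      rw [hκ₃j, max_eq_left, inv_one]
      rw [div_le_one hηp]
      exact hcη b t
    simp only
    rw [h1, hκ₃j]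
    simp

end Pool.Agent.CRC
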