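import Pool.Agent.Lib.MP_13800a_gt.Homs
import Pool.Agent.Lib.MP_13800a_gt.Tietze

/-! TASK Exact: (EXT) and exactness (E1) of section 2. -/

set_option autoImplicit false

open scoped Matrix Kronecker Matrix.Norms.L2Operator
open Matrix

namespace Pool.Agent.CRC

section
variable {n : ℕ} {Q B : Type} [TopologicalSpace Q] [CompactSpace Q] [T2Space Q]
  [TopologicalSpace B] [CompactSpace B] {τ : Q → Q} {τB : B → B} {Z : Set Q} {j : B → Q}

theorem ext_el {ι : Type} [Fintype ι] [DecidableEq ι] {ρ : Matrix ι ι ℂ}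
    (hn : 0 < n) (hτ : Continuous τ) (hτn : τ^[n] = id) (hZ : IsClosed Z)
    (hZi : ∀ q ∈ Z, τ q ∈ Z) (hj : Continuous j) (hji : Function.Injective j)
    (hje : ∀ b, j (τB b) = τ (j b)) (hρ : IsRep n ρ)
    {om : B → UI → MM ι} (hom : Ht ρ τB (j ⁻¹' Z) om (fun _ _ => 1)) :
    ∃ (om' : Q → UI → MM ι) (h : IsEl ρ τ Z om'), (∀ b t, om' (j b) t = om b t) ∧
      KG.mk hρ h = 0 := by
  classical
  obtain ⟨l, hl, hprod⟩ := ht_chop hom (η := 1 / 2) (by norm_num)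
  have hT : ∀ c ∈ l, ∃ c' : Q → UI → MM ι, IsEl ρ τ Z c' ∧ (∀ q t, ‖c' q t - 1‖ ≤ 1 / 2) ∧
      ∀ b t, c' (j b) t = c b t := fun c hc =>
    tietze_el hn hτ hτn hZ hZi hj hji hje hρ (hl c hc).1 (by norm_num) (by norm_num) (hl c hc).2
  choose! g hg1 hg2 hg3 using hT
  have hl' : ∀ c ∈ l.map g, IsEl ρ τ Z c := by
    intro c hc
    obtain ⟨a, ha, rfl⟩ := List.mem_map.1 hc
    exact hg1 a ha
  refine ⟨_, isEl_list_prod (l.map g) hl', ?_, ?_⟩
  · intro b t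
    rw [hprod, List.map_map]
    congr 1
    refine List.map_congr_left (fun c hc => ?_)
    exact hg3 c hc b t
  · refine mk_list_prod_eq_zero hρ (l.map g) hl' (fun c hc => ?_)
    refine mk_small hρ _ (fun q t => ?_)
    obtain ⟨a, ha, rfl⟩ := List.mem_map.1 hc
    exact (hg2 a ha q t).trans_lt (by norm_num)

/-- exactness: an element vanishing on `B` comes from an element relative to `Z ∪ j B` -/
theorem exact_el (hn : 0 < n) (hτ : Continuous τ) (hτn : τ^[n] = id) (hZ : IsClosed Z)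
    (hZi : ∀ q ∈ Z, τ q ∈ Z) (hji : Function.Injective j)
    (h : PullData τ τB Z (j ⁻¹' Z) j) (x : KG n τ Z) (hx : pull h x = 0) :
    ∃ y : KG n τ (Z ∪ Set.range j),
      pull (PullData.rel_id (τ := τ) (Set.subset_union_left : Z ⊆ Z ∪ Set.range j)) y = x := by
  obtain ⟨ι, _, _, ρ, u, hρ, hu, rfl⟩ := x.ind
  rw [pull_mk, KG.mk_eq_zero_iff] at hx
  obtain ⟨κ, _, _, σ, U, hσ, hU⟩ := hx
  obtain ⟨om', hom', hj', hmk⟩ := ext_el hn hτ hτn hZ hZi h.cont hji h.eqv (hρ.dsum hσ) ⟨U, hU⟩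
  have hv : IsEl (dg ρ σ) τ Z (fun q t => bs (u q t) (1 : MM κ)) := hu.bsum IsEl.const_one
  have hw := hv.mul hom'.inv
  have hw' : IsEl (dg ρ σ) τ (Z ∪ Set.range j)
      (fun q t => bs (u q t) (1 : MM κ) * (om' q t)⁻¹) := by
    refine ⟨hw.cont, hw.unit, hw.zero, hw.one, ?_, hw.eqv⟩
    rintro q (hq | ⟨b, rfl⟩) t
    · exact hw.rel q hq t
    · rw [hj' b t]
      exact Matrix.mul_nonsing_inv _ ((Matrix.isUnit_iff_isUnit_det _).1 (hv.unit (j b) t))
  refine ⟨KG.mk (hρ.dsum hσ) hw', ?_⟩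
  rw [pull_mk]
  have e1 : KG.mk (n := n) (hρ.dsum hσ) (hw'.comp (τ' := τ) (Z' := Z)
      (PullData.rel_id (τ := τ) (Set.subset_union_left : Z ⊆ Z ∪ Set.range j)).cont
      (PullData.rel_id (τ := τ) (Set.subset_union_left : Z ⊆ Z ∪ Set.range j)).eqv
      (PullData.rel_id (τ := τ) (Set.subset_union_left : Z ⊆ Z ∪ Set.range j)).rel)
      = KG.mk (hρ.dsum hσ) hw := KG.mk_congr _ _ _ _ rfl (fun _ _ => rfl)
  rw [e1, KG.mk_mul (hρ.dsum hσ) hv hom'.inv, KG.mk_inv (hρ.dsum hσ) hom', hmk, neg_zero,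
    add_zero, KG.mk_bs hρ hu hσ IsEl.const_one, KG.mk_one hσ, add_zero]

/-- exactness for a closed invariant subset -/
theorem exact_set (hn : 0 < n) (hτ : Continuous τ) (hτn : τ^[n] = id) (hZ : IsClosed Z)
    (hZi : ∀ q ∈ Z, τ q ∈ Z) (C : Set Q) (hC : IsClosed C) (hCi : ∀ q ∈ C, τ q ∈ C)
    (h : PullData τ (fun c : C => (⟨τ c.1, hCi c.1 c.2⟩ : C)) Z (Subtype.val ⁻¹' Z)
      (Subtype.val : C → Q)) (x : KG n τ Z) (hx : pull h x = 0) :
    ∃ y : KG n τ (Z ∪ C),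
      pull (PullData.rel_id (τ := τ) (Set.subset_union_left : Z ⊆ Z ∪ C)) y = x := by
  have : CompactSpace C := isCompact_iff_compactSpace.1 hC.isCompact
  have key := exact_el hn hτ hτn hZ hZi Subtype.val_injective h x hx
  have aux : ∀ C' : Set Q, C' = C → (∃ y : KG n τ (Z ∪ C'),
      pull (PullData.rel_id (τ := τ) (Set.subset_union_left : Z ⊆ Z ∪ C')) y = x) →
      ∃ y : KG n τ (Z ∪ C),
        pull (PullData.rel_id (τ := τ) (Set.subset_union_left : Z ⊆ Z ∪ C)) y = x := by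
    rintro _ rfl h
    exact h
  exact aux _ Subtype.range_coe key

end

end Pool.Agent.CRC
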