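import Pool.Agent.Lib.MP_13800a_gt.TSD
import Pool.Agent.Lib.MP_13800a_gt.Exact

/-! TASK Sphere: (TYPE II) of section 3 and (G4). -/

set_option autoImplicit false

open scoped Matrix Kronecker
open Matrix

namespace Pool.Agent.CRC

/-- scalar multiplication by `ζ_n` on the boundary of the polydisc -/
noncomputable def rotSm (n : ℕ) {m : ℕ} (d : SB m) : SB m :=
  ⟨fun i => zt n * d.1 i, by
    have h : ‖zt n‖ = 1 := norm_zt n
    have hd : ‖d.1‖ = 1 := mem_sphere_zero_iff_norm.1 d.2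
    simp only [mem_sphere_iff_norm, sub_zero]
    have : (fun i => zt n * d.1 i) = zt n • d.1 := rfl
    rw [this, norm_smul, h, hd, one_mul]⟩

theorem sphere_rotD_continuous (n : ℕ) {m : ℕ} (k : Fin m → ℕ) : Continuous (rotD n k) := by
  refine Continuous.subtype_mk ?_ _
  refine continuous_pi fun i => ?_
  exact continuous_const.mul ((continuous_apply i).comp continuous_subtype_val)

theorem sphere_rotD_iter (n : ℕ) {m : ℕ} (k : Fin m → ℕ) (r : ℕ) (d : DB m) (i : Fin m) :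
    (((rotD n k)^[r] d).1 : Fin m → ℂ) i = (zt n ^ (k i)) ^ r * d.1 i := by
  induction r with
  | zero => simp
  | succ r ih =>
    rw [Function.iterate_succ_apply']
    show zt n ^ (k i) * (((rotD n k)^[r] d).1 : Fin m → ℂ) i = _
    rw [ih, pow_succ']
    ring

theorem sphere_rotD_iter_n (n : ℕ) {m : ℕ} (k : Fin m → ℕ) :
    (rotD n k)^[n] = id := by
  funext d
  refine Subtype.ext (funext fun i => ?_)
  rw [sphere_rotD_iter, ← pow_mul, mul_comm (k i) n, pow_mul, zt_pow_self, one_pow, one_mul]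
  rfl

theorem sphere_prod_iter {A B : Type} (f : A → A) (g : B → B) (r : ℕ) :
    (Prod.map f g)^[r] = Prod.map (f^[r]) (g^[r]) := by
  induction r with
  | zero => rfl
  | succ r ih =>
    rw [Function.iterate_succ, ih, Function.iterate_succ, Function.iterate_succ]
    rfl

/-- inclusion of the boundary of the polydisc -/
noncomputable def sphere_incl {m : ℕ} (d : SB m) : DB m :=
  ⟨d.1, Metric.sphere_subset_closedBall d.2⟩

/-- pull back to `Q × ∂(D^m)` is injective for `m ≥ n`, `n` a power of two -/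
theorem pull_sphere_injective {n m : ℕ} (hn : ∃ a, n = 2 ^ a) (hm : n ≤ m) {Q : Type}
    [TopologicalSpace Q] [CompactSpace Q] [T2Space Q] {τ : Q → Q} {Z : Set Q}
    (hτ : Continuous τ) (hτn : τ^[n] = id) (hZ : IsClosed Z) (hZi : ∀ q ∈ Z, τ q ∈ Z)
    (h : PullData τ (Prod.map τ (rotSm n : SB m → SB m)) Z (Z ×ˢ (Set.univ : Set (SB m))) Prod.fst)
    (x : KG n τ Z) (hx : pull h x = 0) : x = 0 := by
  have hnpos : 0 < n := by
    obtain ⟨a, ha⟩ := hn
    rw [ha]; positivity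
  -- the disc
  have hD : PullData τ (Prod.map τ (rotD n (fun _ : Fin m => 1))) Z
      (Z ×ˢ (Set.univ : Set (DB m))) Prod.fst :=
    ⟨continuous_fst, fun _ => rfl, fun q hq => hq.1⟩
  have hrot : ∀ d : SB m, sphere_incl (rotSm n d) = rotD n (fun _ : Fin m => 1) (sphere_incl d) := by
    intro d
    refine Subtype.ext (funext fun i => ?_)
    show zt n * d.1 i = zt n ^ 1 * d.1 i
    rw [pow_one]
  have hJ : PullData (Prod.map τ (rotD n (fun _ : Fin m => 1)))
      (Prod.map τ (rotSm n : SB m → SB m)) (Z ×ˢ (Set.univ : Set (DB m)))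
      ((Prod.map id sphere_incl) ⁻¹' (Z ×ˢ (Set.univ : Set (DB m)))) (Prod.map id sphere_incl) := by
    refine ⟨?_, ?_, fun q hq => hq⟩
    · refine continuous_id.prodMap ?_
      exact Continuous.subtype_mk continuous_subtype_val _
    · rintro ⟨q, d⟩
      exact Prod.ext rfl (hrot d)
  have hcomp : PullData τ (Prod.map τ (rotSm n : SB m → SB m)) Z
      ((Prod.map id sphere_incl) ⁻¹' (Z ×ˢ (Set.univ : Set (DB m))))
      (Prod.fst ∘ (Prod.map id sphere_incl : Q × SB m → Q × DB m)) :=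
    ⟨continuous_fst, fun _ => rfl, fun q hq => hq.1⟩
  have hid : PullData (Prod.map τ (rotSm n : SB m → SB m)) (Prod.map τ (rotSm n : SB m → SB m))
      (Z ×ˢ (Set.univ : Set (SB m)))
      ((Prod.map id sphere_incl) ⁻¹' (Z ×ˢ (Set.univ : Set (DB m)))) (id : Q × SB m → Q × SB m) :=
    PullData.rel_id (fun q hq => ⟨hq.1, Set.mem_univ _⟩)
  have hcomp2 : PullData τ (Prod.map τ (rotSm n : SB m → SB m)) Z
      ((Prod.map id sphere_incl) ⁻¹' (Z ×ˢ (Set.univ : Set (DB m))))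
      ((Prod.fst : Q × SB m → Q) ∘ id) :=
    ⟨continuous_fst, fun _ => rfl, fun q hq => hq.1⟩
  have h1 : pull hJ (pull hD x) = 0 := by
    rw [pull_pull hD hJ hcomp, pull_congr hcomp hcomp2 (fun _ => rfl), ← pull_pull h hid hcomp2,
      hx, map_zero]
  have hZ' : IsClosed (Z ×ˢ (Set.univ : Set (DB m))) := hZ.prod isClosed_univ
  obtain ⟨y, hy⟩ := exact_el hnpos (hτ.prodMap (sphere_rotD_continuous n _))
    (by rw [sphere_prod_iter, hτn, sphere_rotD_iter_n]; rfl) hZ'
    (fun q hq => ⟨hZi _ hq.1, Set.mem_univ _⟩)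
    (by
      rintro ⟨q, d⟩ ⟨q', d'⟩ he
      have e1 : q = q' := congrArg Prod.fst he
      have e2 : sphere_incl d = sphere_incl d' := congrArg Prod.snd he
      have e3 : d.1 = d'.1 := congrArg (fun z : DB m => z.1) e2
      exact Prod.ext e1 (Subtype.ext e3)) hJ (pull hD x) h1
  have hsub : ((Z ×ˢ (Set.univ : Set (DB m))) ∪ {p : Q × DB m | ‖(p.2.1 : Fin m → ℂ)‖ = 1})
      ⊆ (Z ×ˢ (Set.univ : Set (DB m))) ∪
        Set.range (Prod.map id sphere_incl : Q × SB m → Q × DB m) := by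
    rintro ⟨q, d⟩ (hq | hq)
    · exact Or.inl hq
    · refine Or.inr ⟨(q, ⟨d.1, mem_sphere_zero_iff_norm.2 hq⟩), rfl⟩
  set v := pull (PullData.rel_id (τ := Prod.map τ (rotD n (fun _ : Fin m => 1))) hsub) y with hv
  have h0 : PullData (Prod.map τ (rotD n (fun _ : Fin m => 1))) τ
      ((Z ×ˢ (Set.univ : Set (DB m))) ∪ {p | ‖(p.2.1 : Fin m → ℂ)‖ = 1}) Z
      (fun q => (q, zeroD m)) := by
    refine ⟨by fun_prop, fun q => ?_, fun q hq => Or.inl ⟨hq, Set.mem_univ _⟩⟩
    refine Prod.ext rfl (Subtype.ext (funext fun i => ?_))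
    show (0 : ℂ) = zt n ^ 1 * 0
    rw [mul_zero]
  have h00 : PullData (Prod.map τ (rotD n (fun _ : Fin m => 1))) τ
      (Z ×ˢ (Set.univ : Set (DB m))) Z (fun q => (q, zeroD m)) :=
    ⟨h0.cont, h0.eqv, fun q hq => ⟨hq, Set.mem_univ _⟩⟩
  -- `pull h0 v = x`
  have h2 : pull h0 v = x := by
    have hc3 : PullData (Prod.map τ (rotD n (fun _ : Fin m => 1))) τ
        ((Z ×ˢ (Set.univ : Set (DB m))) ∪
          Set.range (Prod.map id sphere_incl : Q × SB m → Q × DB m)) Z
        (id ∘ (fun q : Q => (q, zeroD m))) :=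
      ⟨h0.cont, h0.eqv, fun q hq => Or.inl ⟨hq, Set.mem_univ _⟩⟩
    rw [hv, pull_pull _ h0 hc3]
    have hc4 : pull h00 (pull (PullData.rel_id (τ := Prod.map τ (rotD n (fun _ : Fin m => 1)))
        (Set.subset_union_left : (Z ×ˢ (Set.univ : Set (DB m))) ⊆ (Z ×ˢ (Set.univ : Set (DB m))) ∪
          Set.range (Prod.map id sphere_incl : Q × SB m → Q × DB m))) y) = pull hc3 y :=
      pull_pull _ h00 hc3 y
    rw [← hc4, hy]
    have hc5 : PullData τ τ Z Z ((Prod.fst : Q × DB m → Q) ∘ (fun q : Q => (q, zeroD m))) :=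
      ⟨continuous_id, fun _ => rfl, fun q hq => hq⟩
    rw [pull_pull hD h00 hc5]
    have hc6 : PullData τ τ Z Z (id : Q → Q) := ⟨continuous_id, fun _ => rfl, fun q hq => hq⟩
    rw [pull_congr hc5 hc6 (fun _ => rfl), pull_id]
  obtain ⟨w, hw⟩ := tsd (fun _ : Fin m => 1) hnpos h0 v
  rw [h2] at hw
  obtain ⟨A, hA⟩ := prod_one_add_Lh_pow (n := n) (τ := τ) (Z := Z) (List.ofFn (fun _ : Fin m => 1))
  have h3 : (1 + Lh : AddMonoid.End (KG n τ Z)) ^ m = 0 := by
    obtain ⟨r, hr⟩ := Nat.exists_eq_add_of_le hm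
    rw [hr, pow_add, one_add_Lh_pow_n hn, zero_mul]
  rw [hA, List.length_ofFn, h3, zero_mul] at hw
  exact hw

/-- (G4) -/
theorem kgood_sphere {n m : ℕ} (hn : ∃ a, n = 2 ^ a) {E : Type}
    [TopologicalSpace E] [CompactSpace E] [T2Space E] {τ : E → E}
    (hτ : Continuous τ) (hτn : τ^[n] = id) (h : Good n τ m) :
    Good n (Prod.map τ (rotSm n : SB n → SB n)) m := by
  intro h0
  refine h ?_
  have hA : PullData τ (Prod.map τ (rotSm n : SB n → SB n)) ∅ (∅ ×ˢ (Set.univ : Set (SB n)))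
      Prod.fst := ⟨continuous_fst, fun _ => rfl, fun q hq => hq.1⟩
  have hB : PullData τ (Prod.map τ (rotSm n : SB n → SB n)) ∅ ∅ Prod.fst :=
    ⟨continuous_fst, fun _ => rfl, fun q hq => hq.elim⟩
  have hsub : (∅ : Set E) ×ˢ (Set.univ : Set (SB n)) ⊆ ∅ := by
    rintro q hq
    exact hq.1.elim
  refine pull_sphere_injective hn le_rfl hτ hτn isClosed_empty (fun q hq => hq.elim) hA _ ?_
  have hc : PullData τ (Prod.map τ (rotSm n : SB n → SB n)) ∅ (∅ ×ˢ (Set.univ : Set (SB n)))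
      ((Prod.fst : E × SB n → E) ∘ id) := ⟨continuous_fst, fun _ => rfl, fun q hq => hq.1⟩
  rw [pull_congr hA hc (fun _ => rfl), ← pull_pull hB (PullData.rel_id hsub) hc,
    pull_one_add_pow, pull_oneK, h0, map_zero]

end Pool.Agent.CRC
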