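import Pool.Agent.Lib.MP_13800a_gt.Base
import Pool.Agent.Lib.MP_13800a_gt.Index
import Pool.Agent.Lib.MP_13800a_gt.Inv
import Pool.Agent.Lib.MP_13800a_gt.OSK
import Pool.Agent.Lib.MP_13800a_gt.Sphere

/-! Interface of the K-theoretic part. -/

set_option autoImplicit false

namespace Pool.Agent.CRC

/-- scalar rotation of the unit sphere of the sup norm -/
noncomputable def rotS (n : ℕ) (z : SB n) : SB n :=
  ⟨zt n • z.1, by
    have h := z.2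
    rw [mem_sphere_zero_iff_norm] at h ⊢
    rw [norm_smul, norm_zt, h, one_mul]⟩

theorem good_base : Good 1 (id : Unit → Unit) 0 := kgood_base

theorem good_infl {E : Type} [TopologicalSpace E] [CompactSpace E] [T2Space E] {τ : E → E}
    (hτ : Continuous τ) {a b m : ℕ} (hn : τ^[2 ^ a] = id) (h : Good (2 ^ a) τ m) :
    Good (2 ^ a * 2 ^ b) τ ((m + 1) * 2 ^ b - 1) :=
  kgood_infl ⟨a, rfl⟩ ⟨b, rfl⟩ hn h

theorem good_bu {E : Type} [TopologicalSpace E] [CompactSpace E] [T2Space E] {τ : E → E}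
    (hτ : Continuous τ) {a b M : ℕ} (hn : τ^[2 ^ a] = id) (D : BUData (2 ^ a) (2 ^ a * 2 ^ b) τ)
    (h : Good (2 ^ a * 2 ^ b) τ M) (hM : 2 ^ a ≤ M) :
    Good (2 ^ a * 2 ^ b) D.map (M - 2 ^ a) :=
  kgood_bu D ⟨a, rfl⟩ ⟨a + b, (pow_add 2 a b).symm⟩ hτ hn h hM

theorem good_sphere {E : Type} [TopologicalSpace E] [CompactSpace E] [T2Space E] {τ : E → E}
    (hτ : Continuous τ) {a m : ℕ} (hn : τ^[2 ^ a] = id) (h : Good (2 ^ a) τ m) :
    Good (2 ^ a) (Prod.map τ (rotS (2 ^ a))) m :=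
  kgood_sphere ⟨a, rfl⟩ hτ hn h

theorem good_index {E : Type} [TopologicalSpace E] [CompactSpace E] [T2Space E] {τ : E → E}
    (hτ : Continuous τ) {c m : ℕ} (hn : τ^[2 ^ c] = id) (h : Good (2 ^ c) τ m) {c0 : ℕ}
    (hc : c0 ≤ c) {a : ℕ} (Φ : Fin a → E → ℂ) (hΦ : ∀ b, Continuous (Φ b))
    (he : ∀ b x, Φ b (τ x) = zt (2 ^ c0) * Φ b x) (h0 : ∀ x, ∃ b, Φ b x ≠ 0) :
    m < a * 2 ^ (c - c0) := by
  have := kgood_index ⟨c, rfl⟩ (pow_dvd_pow 2 hc) hτ hn h Φ hΦ he h0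
  rwa [Nat.pow_div hc (by norm_num)] at this

end Pool.Agent.CRC
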