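import Pool.Agent.Lib.MP_13800a_gt.Mg.G001
import Pool.Agent.Lib.MP_13800a_gt.GoodI

/-! TASK Y4: the orbit space has infinite dimension. -/

set_option autoImplicit false

namespace Pool.Agent.CRC

open Set Topology

theorem Tower.not_finDim (T : Tower) (hs : ∀ j, Function.Surjective (T.p j))
    (hg : ∀ j, ∃ m : ℕ, (2 / 3 : ℝ) * 2 ^ T.k j ≤ m + 1 ∧ Good (2 ^ T.k j) (T.τ j) m) :
    ¬ FinDim (Orb T.isKAct) := by
  intro hfd
  obtain ⟨a, ha⟩ := T.exists_Phi hfd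
  -- choose the stage `j0` with `a < (2/3) 2 ^ k j0`
  obtain ⟨j0, hj0⟩ : ∃ j0, (a : ℝ) < 2 / 3 * 2 ^ T.k j0 := by
    refine ⟨2 * a, ?_⟩
    have h1 : 2 * a ≤ T.k (2 * a) := T.kmono.id_le _
    have h2 : ∀ b : ℕ, (b : ℝ) + 1 ≤ 2 ^ b := by
      intro b
      exact_mod_cast Nat.lt_two_pow_self (n := b)
    have h3 : (2 : ℝ) ^ (2 * a) ≤ 2 ^ T.k (2 * a) := pow_le_pow_right₀ (by norm_num) h1
    have h4 := h2 (2 * a)
    push_cast at h4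
    have h5 : (0 : ℝ) ≤ a := Nat.cast_nonneg a
    nlinarith
  obtain ⟨Φ, hΦ, he, h0⟩ := ha j0
  obtain ⟨j, Ψ, hj, hΨ, he', h0'⟩ := T.exists_stage_Phi hs j0 a Φ hΦ he h0
  obtain ⟨m, hm, hgood⟩ := hg j
  have hk : T.k j0 ≤ T.k j := T.kmono.monotone hj
  have h6 := good_index (T.iso j).continuous (by funext x; exact T.ord j x) hgood hk Ψ hΨ he' h0'
  have h7 : ((m + 1 : ℕ) : ℝ) ≤ ((a * 2 ^ (T.k j - T.k j0) : ℕ) : ℝ) := by exact_mod_cast h6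
  push_cast at h7
  have h8 : (2 : ℝ) ^ T.k j = 2 ^ T.k j0 * 2 ^ (T.k j - T.k j0) := by
    rw [← pow_add]; congr 1; omega
  have h9 : (0 : ℝ) < 2 ^ (T.k j - T.k j0) := by positivity
  rw [h8] at hm
  nlinarith [mul_lt_mul_of_pos_right hj0 h9]

end Pool.Agent.CRC
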