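import Pool.Agent.Lib.MP_13800a_gt.Mat

/-! TASK El: closure properties of elements and homotopies. -/

set_option autoImplicit false

open scoped Matrix Kronecker
open Matrix

namespace Pool.Agent.CRC

section IsEl
variable {Q Q' ι κ : Type} [TopologicalSpace Q] [TopologicalSpace Q']
  [Fintype ι] [DecidableEq ι] [Fintype κ] [DecidableEq κ]
  {ρ : Matrix ι ι ℂ} {ρ' : Matrix κ κ ℂ} {τ : Q → Q} {τ' : Q' → Q'} {Z : Set Q} {Z' : Set Q'}
  {u v : Q → UI → MM ι} {w : Q → UI → MM κ}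

private theorem el_cont_inv {X ν : Type} [TopologicalSpace X] [Fintype ν] [DecidableEq ν]
    {f : X → Matrix ν ν ℂ} (hf : Continuous f) (hu : ∀ x, IsUnit (f x)) :
    Continuous (fun x => (f x)⁻¹) := by
  have h1 : (fun x => (f x)⁻¹) = fun x => (f x).det⁻¹ • (f x).adjugate := by
    funext x
    rw [Matrix.inv_def, Ring.inverse_eq_inv']
  rw [h1]
  have h2 : Continuous (fun x => (f x).det⁻¹) := by
    apply Continuous.inv₀ hf.matrix_det
    intro x
    exact ((Matrix.isUnit_iff_isUnit_det _).1 (hu x)).ne_zero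
  exact h2.smul hf.matrix_adjugate

theorem IsEl.const_one : IsEl ρ τ Z (fun _ _ => (1 : MM ι)) where
  cont := continuous_const
  unit := fun _ _ => isUnit_one
  zero := fun _ => ⟨1, amp_one.symm⟩
  one := fun _ => rfl
  rel := fun _ _ _ => rfl
  eqv := fun _ _ => by rw [one_mul, mul_one]

theorem IsEl.mul (hu : IsEl ρ τ Z u) (hv : IsEl ρ τ Z v) :
    IsEl ρ τ Z (fun q t => u q t * v q t) where
  cont := hu.cont.matrix_mul hv.cont
  unit := fun q t => (hu.unit q t).mul (hv.unit q t)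
  zero := fun q => by
    obtain ⟨a, ha⟩ := hu.zero q
    obtain ⟨b, hb⟩ := hv.zero q
    exact ⟨a * b, by rw [ha, hb, amp_mul]⟩
  one := fun q => by rw [hu.one, hv.one, one_mul]
  rel := fun q hq t => by rw [hu.rel q hq t, hv.rel q hq t, one_mul]
  eqv := fun q t => by rw [mul_assoc, hv.eqv, ← mul_assoc, hu.eqv, mul_assoc]

theorem IsEl.inv (hu : IsEl ρ τ Z u) : IsEl ρ τ Z (fun q t => (u q t)⁻¹) where
  cont := el_cont_inv hu.cont (fun p => hu.unit p.1 p.2)
  unit := fun q t => Matrix.isUnit_nonsing_inv_iff.2 (hu.unit q t)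
  zero := fun q => by
    obtain ⟨a, ha⟩ := hu.zero q
    exact ⟨a⁻¹, by rw [ha, amp_inv]⟩
  one := fun q => by rw [hu.one, inv_one]
  rel := fun q hq t => by rw [hu.rel q hq t, inv_one]
  eqv := fun q t => by
    have h1 : IsUnit (u (τ q) t).det := (Matrix.isUnit_iff_isUnit_det _).1 (hu.unit _ _)
    have h2 : IsUnit (u q t).det := (Matrix.isUnit_iff_isUnit_det _).1 (hu.unit _ _)
    calc (u (τ q) t)⁻¹ * amp ρ = (u (τ q) t)⁻¹ * (amp ρ * u q t) * (u q t)⁻¹ := by
          rw [mul_assoc, mul_assoc (amp ρ), Matrix.mul_nonsing_inv _ h2, mul_one]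
      _ = (u (τ q) t)⁻¹ * (u (τ q) t * amp ρ) * (u q t)⁻¹ := by rw [hu.eqv]
      _ = amp ρ * (u q t)⁻¹ := by
          rw [← mul_assoc (u (τ q) t)⁻¹, Matrix.nonsing_inv_mul _ h1, one_mul]

theorem IsEl.bsum (hu : IsEl ρ τ Z u) (hw : IsEl ρ' τ Z w) :
    IsEl (dg ρ ρ') τ Z (fun q t => bs (u q t) (w q t)) where
  cont := continuous_bs.comp (hu.cont.prodMk hw.cont)
  unit := fun q t => (isUnit_bs_iff _ _).2 ⟨hu.unit q t, hw.unit q t⟩
  zero := fun q => by
    obtain ⟨a, ha⟩ := hu.zero q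
    obtain ⟨b, hb⟩ := hw.zero q
    exact ⟨dg a b, by rw [ha, hb, bs_amp]⟩
  one := fun q => by rw [hu.one, hw.one, bs_one]
  rel := fun q hq t => by rw [hu.rel q hq t, hw.rel q hq t, bs_one]
  eqv := fun q t => by rw [← bs_amp, bs_mul, bs_mul, hu.eqv, hw.eqv]

theorem IsEl.comp {f : Q' → Q} (hu : IsEl ρ τ Z u) (hf : Continuous f)
    (he : ∀ q, f (τ' q) = τ (f q)) (hZ : ∀ q ∈ Z', f q ∈ Z) :
    IsEl ρ τ' Z' (fun q t => u (f q) t) where
  cont := hu.cont.comp ((hf.comp continuous_fst).prodMk continuous_snd)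
  unit := fun q t => hu.unit _ t
  zero := fun q => hu.zero _
  one := fun q => hu.one _
  rel := fun q hq t => hu.rel _ (hZ q hq) t
  eqv := fun q t => by rw [he]; exact hu.eqv _ t

theorem IsEl.mono {Z₂ : Set Q} (hu : IsEl ρ τ Z u) (h : Z₂ ⊆ Z) : IsEl ρ τ Z₂ u where
  cont := hu.cont
  unit := hu.unit
  zero := hu.zero
  one := hu.one
  rel := fun q hq t => hu.rel q (h hq) t
  eqv := hu.eqv

/-- scalar multiples of the representation -/
theorem IsEl.smulRep (hu : IsEl ρ τ Z u) (c : ℂ) : IsEl (c • ρ) τ Z u where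
  cont := hu.cont
  unit := hu.unit
  zero := hu.zero
  one := hu.one
  rel := hu.rel
  eqv := fun q t => by rw [amp_smul, Matrix.mul_smul, hu.eqv, Matrix.smul_mul]

/-- iterated equivariance -/
theorem IsEl.eqv_iter (hu : IsEl ρ τ Z u) (m : ℕ) (q : Q) (t : UI) :
    u (τ^[m] q) t * amp (ρ ^ m) = amp (ρ ^ m) * u q t := by
  induction m with
  | zero => rw [pow_zero, amp_one, mul_one, one_mul]; rfl
  | succ m ih =>
    rw [Function.iterate_succ_apply', pow_succ', amp_mul, ← mul_assoc, hu.eqv, mul_assoc, ih,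
      mul_assoc]

/-- powers of the representation (restriction to a subgroup) -/
theorem IsEl.powRep (hu : IsEl ρ τ Z u) (m : ℕ) : IsEl (ρ ^ m) (τ^[m]) Z u where
  cont := hu.cont
  unit := hu.unit
  zero := hu.zero
  one := hu.one
  rel := hu.rel
  eqv := fun q t => hu.eqv_iter m q t

theorem IsEl.reindex (hu : IsEl ρ τ Z u) (e : ι ≃ κ) :
    IsEl (ρ.submatrix e.symm e.symm) τ Z
      (fun q t => (u q t).submatrix (Prod.map e.symm id) (Prod.map e.symm id)) where
  cont := hu.cont.matrix_submatrix _ _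
  unit := fun q t => by
    have h := (Matrix.isUnit_submatrix_equiv (A := u q t)
      (Equiv.prodCongr e.symm (Equiv.refl (Fin 2)))
      (Equiv.prodCongr e.symm (Equiv.refl (Fin 2)))).2 (hu.unit q t)
    exact h
  zero := fun q => by
    obtain ⟨a, ha⟩ := hu.zero q
    exact ⟨a.submatrix e.symm e.symm, by rw [ha, amp_submatrix]⟩
  one := fun q => by
    rw [hu.one]
    exact Matrix.submatrix_one_equiv (Equiv.prodCongr e.symm (Equiv.refl (Fin 2)))
  rel := fun q hq t => by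
    rw [hu.rel q hq t]
    exact Matrix.submatrix_one_equiv (Equiv.prodCongr e.symm (Equiv.refl (Fin 2)))
  eqv := fun q t => by
    rw [← amp_submatrix]
    have h1 := Matrix.submatrix_mul_equiv (u (τ q) t) (amp ρ)
      (Prod.map e.symm id : κ × Fin 2 → ι × Fin 2) (Equiv.prodCongr e.symm (Equiv.refl (Fin 2)))
      (Prod.map e.symm id : κ × Fin 2 → ι × Fin 2)
    have h2 := Matrix.submatrix_mul_equiv (amp ρ) (u q t)
      (Prod.map e.symm id : κ × Fin 2 → ι × Fin 2) (Equiv.prodCongr e.symm (Equiv.refl (Fin 2)))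
      (Prod.map e.symm id : κ × Fin 2 → ι × Fin 2)
    have h3 : (u (τ q) t * amp ρ) = (amp ρ * u q t) := hu.eqv q t
    rw [h3] at h1
    exact h1.trans h2.symm

/-- slices of a homotopy -/
theorem IsEl.slice {U : Q × UI → UI → MM ι}
    (hU : IsEl ρ (Prod.map τ id) (Z ×ˢ (Set.univ : Set UI)) U) (s : UI) :
    IsEl ρ τ Z (fun q t => U (q, s) t) :=
  IsEl.comp (f := fun q : Q => (q, s)) hU (by fun_prop) (fun _ => rfl)
    (fun _ hq => ⟨hq, Set.mem_univ _⟩)

/-- an element over `Q` as a constant homotopy -/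
theorem IsEl.constHt (hu : IsEl ρ τ Z u) :
    IsEl ρ (Prod.map τ id) (Z ×ˢ (Set.univ : Set UI)) (fun (p : Q × UI) t => u p.1 t) :=
  IsEl.comp (f := fun p : Q × UI => p.1) hu continuous_fst (fun _ => rfl) (fun _ hq => hq.1)

end IsEl

section Ht
variable {Q Q' ι κ : Type} [TopologicalSpace Q] [TopologicalSpace Q']
  [Fintype ι] [DecidableEq ι] [Fintype κ] [DecidableEq κ]
  {ρ : Matrix ι ι ℂ} {ρ' : Matrix κ κ ℂ} {τ : Q → Q} {τ' : Q' → Q'} {Z : Set Q} {Z' : Set Q'}
  {u v w : Q → UI → MM ι} {u' v' : Q → UI → MM κ}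

theorem Ht.left (h : Ht ρ τ Z u v) : IsEl ρ τ Z u := by
  obtain ⟨U, hU, h0, _⟩ := h
  have h2 : u = fun q t => U (q, 0) t := by
    funext q t
    exact (h0 q t).symm
  rw [h2]
  exact hU.slice 0

theorem Ht.right (h : Ht ρ τ Z u v) : IsEl ρ τ Z v := by
  obtain ⟨U, hU, _, h1⟩ := h
  have h2 : v = fun q t => U (q, 1) t := by
    funext q t
    exact (h1 q t).symm
  rw [h2]
  exact hU.slice 1

theorem Ht.refl (hu : IsEl ρ τ Z u) : Ht ρ τ Z u u :=
  ⟨fun p t => u p.1 t, hu.constHt, fun _ _ => rfl, fun _ _ => rfl⟩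

theorem Ht.symm (h : Ht ρ τ Z u v) : Ht ρ τ Z v u := by
  obtain ⟨U, hU, h0, h1⟩ := h
  refine ⟨fun p t => U (p.1, unitInterval.symm p.2) t, ?_, ?_, ?_⟩
  · exact IsEl.comp (f := fun p : Q × UI => (p.1, unitInterval.symm p.2)) hU (by fun_prop)
      (fun _ => rfl) (fun _ hq => ⟨hq.1, Set.mem_univ _⟩)
  · intro q t
    show U (q, unitInterval.symm 0) t = v q t
    rw [unitInterval.symm_zero]
    exact h1 q t
  · intro q t
    show U (q, unitInterval.symm 1) t = u q t
    rw [unitInterval.symm_one]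
    exact h0 q t

private noncomputable def el_a (s : UI) : UI := Set.projIcc 0 1 zero_le_one (2 * (s : ℝ))

private noncomputable def el_b (s : UI) : UI := Set.projIcc 0 1 zero_le_one (2 * (s : ℝ) - 1)

private theorem el_a_cont : Continuous el_a := by
  unfold el_a
  exact continuous_projIcc.comp (by fun_prop)

private theorem el_b_cont : Continuous el_b := by
  unfold el_b
  exact continuous_projIcc.comp (by fun_prop)

/-- gluing of homotopies -/
theorem Ht.trans (h : Ht ρ τ Z u v) (h' : Ht ρ τ Z v w) : Ht ρ τ Z u w := by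
  classical
  obtain ⟨U, hU, hU0, hU1⟩ := h
  obtain ⟨V, hV, hV0, hV1⟩ := h'
  have hA : IsEl ρ (Prod.map τ id) (Z ×ˢ (Set.univ : Set UI))
      (fun (p : Q × UI) t => U (p.1, el_a p.2) t) :=
    IsEl.comp (f := fun p : Q × UI => (p.1, el_a p.2)) hU
      (continuous_fst.prodMk (el_a_cont.comp continuous_snd)) (fun _ => rfl)
      (fun _ hq => ⟨hq.1, Set.mem_univ _⟩)
  have hB : IsEl ρ (Prod.map τ id) (Z ×ˢ (Set.univ : Set UI))
      (fun (p : Q × UI) t => V (p.1, el_b p.2) t) :=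
    IsEl.comp (f := fun p : Q × UI => (p.1, el_b p.2)) hV
      (continuous_fst.prodMk (el_b_cont.comp continuous_snd)) (fun _ => rfl)
      (fun _ hq => ⟨hq.1, Set.mem_univ _⟩)
  refine ⟨fun p t => if (p.2 : ℝ) ≤ 1 / 2 then U (p.1, el_a p.2) t else V (p.1, el_b p.2) t,
    ⟨?_, ?_, ?_, ?_, ?_, ?_⟩, ?_, ?_⟩
  · apply Continuous.if_le hA.cont hB.cont (by fun_prop) continuous_const
    rintro ⟨⟨q, s⟩, t⟩ hs
    have hs' : (s : ℝ) = 1 / 2 := hs
    have ha : el_a s = 1 := by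
      unfold el_a
      rw [hs']
      apply Subtype.ext
      simp [Set.projIcc]
    have hb : el_b s = 0 := by
      unfold el_b
      rw [hs']
      apply Subtype.ext
      simp [Set.projIcc]
    show U (q, el_a s) t = V (q, el_b s) t
    rw [ha, hb, hU1, hV0]
  · intro p t
    split_ifs
    · exact hA.unit p t
    · exact hB.unit p t
  · intro p
    split_ifs
    · exact hA.zero p
    · exact hB.zero p
  · intro p
    split_ifs
    · exact hA.one p
    · exact hB.one p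
  · intro p hp t
    split_ifs
    · exact hA.rel p hp t
    · exact hB.rel p hp t
  · intro p t
    have h1 : (Prod.map τ id p).2 = p.2 := rfl
    rw [h1]
    split_ifs
    · exact hA.eqv p t
    · exact hB.eqv p t
  · intro q t
    have h1 : ((0 : UI) : ℝ) ≤ 1 / 2 := by norm_num
    have h2 : el_a 0 = 0 := by
      unfold el_a
      apply Subtype.ext
      simp [Set.projIcc]
    show (if ((0 : UI) : ℝ) ≤ 1 / 2 then U (q, el_a 0) t else V (q, el_b 0) t) = u q t
    rw [if_pos h1, h2, hU0]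
  · intro q t
    have h1 : ¬ ((1 : UI) : ℝ) ≤ 1 / 2 := by norm_num
    have h2 : el_b 1 = 1 := by
      unfold el_b
      apply Subtype.ext
      simp only [Set.projIcc, Set.Icc.coe_one]
      norm_num
    show (if ((1 : UI) : ℝ) ≤ 1 / 2 then U (q, el_a 1) t else V (q, el_b 1) t) = w q t
    rw [if_neg h1, h2, hV1]

theorem Ht.mul {u₂ v₂ : Q → UI → MM ι} (h : Ht ρ τ Z u v) (h' : Ht ρ τ Z u₂ v₂) :
    Ht ρ τ Z (fun q t => u q t * u₂ q t) (fun q t => v q t * v₂ q t) := by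
  obtain ⟨U, hU, hU0, hU1⟩ := h
  obtain ⟨V, hV, hV0, hV1⟩ := h'
  exact ⟨fun p t => U p t * V p t, hU.mul hV, fun q t => by dsimp only; rw [hU0, hV0],
    fun q t => by dsimp only; rw [hU1, hV1]⟩

theorem Ht.inv (h : Ht ρ τ Z u v) : Ht ρ τ Z (fun q t => (u q t)⁻¹) (fun q t => (v q t)⁻¹) := by
  obtain ⟨U, hU, hU0, hU1⟩ := h
  exact ⟨fun p t => (U p t)⁻¹, hU.inv, fun q t => by dsimp only; rw [hU0], fun q t => by dsimp only; rw [hU1]⟩

theorem Ht.bsum (h : Ht ρ τ Z u v) (h' : Ht ρ' τ Z u' v') :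
    Ht (dg ρ ρ') τ Z (fun q t => bs (u q t) (u' q t)) (fun q t => bs (v q t) (v' q t)) := by
  obtain ⟨U, hU, hU0, hU1⟩ := h
  obtain ⟨V, hV, hV0, hV1⟩ := h'
  exact ⟨fun p t => bs (U p t) (V p t), hU.bsum hV, fun q t => by dsimp only; rw [hU0, hV0],
    fun q t => by dsimp only; rw [hU1, hV1]⟩

theorem Ht.comp {f : Q' → Q} (h : Ht ρ τ Z u v) (hf : Continuous f)
    (he : ∀ q, f (τ' q) = τ (f q)) (hZ : ∀ q ∈ Z', f q ∈ Z) :
    Ht ρ τ' Z' (fun q t => u (f q) t) (fun q t => v (f q) t) := by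
  obtain ⟨U, hU, hU0, hU1⟩ := h
  refine ⟨fun p t => U (f p.1, p.2) t, ?_, fun q t => hU0 _ t, fun q t => hU1 _ t⟩
  exact IsEl.comp (f := fun p : Q' × UI => (f p.1, p.2)) hU
    ((hf.comp continuous_fst).prodMk continuous_snd)
    (fun p => Prod.ext (he p.1) rfl) (fun p hp => ⟨hZ _ hp.1, Set.mem_univ _⟩)

theorem Ht.reindex (h : Ht ρ τ Z u v) (e : ι ≃ κ) :
    Ht (ρ.submatrix e.symm e.symm) τ Z
      (fun q t => (u q t).submatrix (Prod.map e.symm id) (Prod.map e.symm id))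
      (fun q t => (v q t).submatrix (Prod.map e.symm id) (Prod.map e.symm id)) := by
  obtain ⟨U, hU, hU0, hU1⟩ := h
  exact ⟨fun p t => (U p t).submatrix (Prod.map e.symm id) (Prod.map e.symm id), hU.reindex e,
    fun q t => by dsimp only; rw [hU0], fun q t => by dsimp only; rw [hU1]⟩

theorem Ht.smulRep (h : Ht ρ τ Z u v) (c : ℂ) : Ht (c • ρ) τ Z u v := by
  obtain ⟨U, hU, hU0, hU1⟩ := h
  exact ⟨U, hU.smulRep c, hU0, hU1⟩

theorem Ht.powRep (h : Ht ρ τ Z u v) (m : ℕ) : Ht (ρ ^ m) (τ^[m]) Z u v := by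
  obtain ⟨U, hU, hU0, hU1⟩ := h
  refine ⟨U, ?_, hU0, hU1⟩
  have h1 := hU.powRep m
  rw [Prod.map_iterate, Function.iterate_id] at h1
  exact h1

/-- A homotopy given by an explicit path: `W s q t` with real parameter. This is the convenient
constructor: continuous `W : UI → Q → UI → MM ι`, each `W s` an element. -/
theorem Ht.of_path (W : UI → Q → UI → MM ι)
    (hc : Continuous (fun p : (Q × UI) × UI => W p.1.2 p.1.1 p.2))
    (hW : ∀ s, IsEl ρ τ Z (W s)) : Ht ρ τ Z (W 0) (W 1) := by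
  refine ⟨fun p t => W p.2 p.1 t, ⟨hc, ?_, ?_, ?_, ?_, ?_⟩, fun _ _ => rfl, fun _ _ => rfl⟩
  · intro p t
    exact (hW p.2).unit p.1 t
  · intro p
    exact (hW p.2).zero p.1
  · intro p
    exact (hW p.2).one p.1
  · intro p hp t
    exact (hW p.2).rel p.1 hp.1 t
  · intro p t
    exact (hW p.2).eqv p.1 t

end Ht

end Pool.Agent.CRC
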