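import Pool.Agent.Lib.MP_13800a_gt.Mg.G002
import Pool.Agent.Lib.MP_13800a_gt.CellTower
import Pool.Agent.Lib.MP_13800a_gt.Bond

/-! TASK A4: the space `A`. -/

set_option autoImplicit false

namespace Pool.Agent.CRC

open Set Topology

theorem two_pow_two_pow_succ (j : ℕ) : 2 ^ 2 ^ (j + 1) = 2 ^ 2 ^ j * 2 ^ 2 ^ j := by
  rw [← pow_add]; congr 1; rw [pow_succ]; ring

/-- the tower `S3 ← S3 ← …` with `k j = 2 ^ j` and `p j = exists_bond (2 ^ 2 ^ j)` -/
noncomputable def towerA : Tower where
  S := fun _ => S3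
  k := fun j => 2 ^ j
  kmono := by
    intro a b h
    exact Nat.pow_lt_pow_right (by norm_num) h
  τ := fun j => rot (ztC (2 ^ 2 ^ j))
  iso := fun j => rot_isometry _
  ord := fun j x => by
    rw [rot_iterate, ztC_pow_self _ (by positivity), rot_one]
  free := fun j x i h0 h1 => by
    rw [rot_iterate, Ne, rot_eq_self_iff, ztC_pow_eq_one_iff _ _ (by positivity)]
    exact fun h => absurd (Nat.le_of_dvd h0 h) (by omega)
  p := fun j => (exists_bond (2 ^ 2 ^ j) (by positivity)).choose
  pcont := fun j => (exists_bond (2 ^ 2 ^ j) (by positivity)).choose_spec.1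
  equi := fun j x => by
    rw [two_pow_two_pow_succ]
    exact (exists_bond (2 ^ 2 ^ j) (by positivity)).choose_spec.2.1 x

theorem exists_A : ∃ (A : Type) (_ : MetricSpace A) (_ : CompactSpace A) (_ : Nonempty A)
    (act : ℤ_[2] → A → A), IsKAct act ∧ HA act ∧ CellLike A := by
  refine ⟨towerA.Lim, inferInstance, inferInstance, inferInstance, towerA.act,
    towerA.isKAct, towerA.ha_of_levels 64 ?_, towerA.cellLike ?_⟩
  · intro j r hr
    exact level_HA (2 ^ 2 ^ j) (by positivity) r hr
  · intro j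
    exact (exists_bond (2 ^ 2 ^ j) (by positivity)).choose_spec.2.2

end Pool.Agent.CRC
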