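import Mathlib

/-! # Definitions for the part of the proof of S12786 that does not use K-theory:
2-adic actions, orbit spaces, covering dimension, cell-like spaces, towers. -/

set_option autoImplicit false

namespace Pool.Agent.CRC

open Set Topology

/-- A free isometric continuous action of the (additive) group of 2-adic integers. -/
structure IsKAct {S : Type} [MetricSpace S] (act : ℤ_[2] → S → S) : Prop where
  zero : ∀ x, act 0 x = x
  add : ∀ a b x, act (a + b) x = act a (act b x)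
  cont : Continuous fun p : ℤ_[2] × S => act p.1 p.2
  isom : ∀ a, Isometry (act a)
  free : ∀ a x, act a x = x → a = 0

/-- Finite covering dimension, exactly as in the frozen statement. -/
def FinDim (Y : Type) [TopologicalSpace Y] : Prop :=
  ∃ n : ℕ, ∀ 𝒰 : Finset (Set Y), (∀ U ∈ 𝒰, IsOpen U) →
    ⋃₀ (↑𝒰 : Set (Set Y)) = Set.univ →
    ∃ 𝒱 : Finset (Set Y), (∀ V ∈ 𝒱, IsOpen V) ∧
      ⋃₀ (↑𝒱 : Set (Set Y)) = Set.univ ∧ (∀ V ∈ 𝒱, ∃ U ∈ 𝒰, V ⊆ U) ∧
      ∀ 𝒮 : Finset (Set Y), 𝒮 ⊆ 𝒱 → n + 1 < 𝒮.card →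
        ⋂₀ (↑𝒮 : Set (Set Y)) = ∅

/-- Cell-like, exactly as the condition on the fibres in the frozen statement. -/
def CellLike (A : Type) [TopologicalSpace A] : Prop :=
  ∀ e : A → (ℕ → unitInterval), Topology.IsEmbedding e →
    ∀ U : Set (ℕ → unitInterval), IsOpen U → Set.range e ⊆ U →
      ∃ H : unitInterval × A → (ℕ → unitInterval), Continuous H ∧
        (∀ k : A, H ((0 : unitInterval), k) = e k) ∧
        (∃ q : ℕ → unitInterval, ∀ k : A, H ((1 : unitInterval), k) = q) ∧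
        ∀ (t : unitInterval) (k : A), H (t, k) ∈ U

section Orb

variable {S : Type} [MetricSpace S] {act : ℤ_[2] → S → S}

/-- The orbit of a point, as a nonempty compact set. -/
def orb (h : IsKAct act) (s : S) : TopologicalSpace.NonemptyCompacts S :=
  ⟨⟨Set.range fun k => act k s, isCompact_range
      (h.cont.comp (Continuous.prodMk continuous_id continuous_const))⟩,
    Set.range_nonempty _⟩

/-- The orbit space, with the Hausdorff metric. -/
abbrev Orb (h : IsKAct act) : Type := ↥(Set.range (orb h))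

/-- The orbit map. -/
def pr (h : IsKAct act) (s : S) : Orb h := ⟨orb h s, s, rfl⟩

end Orb

/-- Property (HE). -/
def HE {E : Type} [MetricSpace E] (act : ℤ_[2] → E → E) : Prop :=
  ∀ ε : ℝ, 0 < ε → ∃ (N m : ℕ) (V : Fin m → Set E),
    (∀ i, IsOpen (V i)) ∧ (∀ i, ∀ x ∈ V i, ∀ y ∈ V i, dist x y < ε) ∧
    (∀ i, ∀ k : ℤ_[2], (2 : ℤ_[2]) ^ N ∣ k → ∀ x ∈ V i, act k x ∈ V i) ∧
    (∀ x, ∃ i, x ∈ V i) ∧ ∀ x, Set.ncard {i | x ∈ V i} ≤ 3

/-- Property (HA). -/
def HA {A : Type} [MetricSpace A] (act : ℤ_[2] → A → A) : Prop :=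
  ∃ M : ℕ, ∀ (N : ℕ) (ε : ℝ), 0 < ε → ∃ (N' : ℕ) (m : ℕ) (T : Fin m → Set A), N ≤ N' ∧
    (∀ i, IsOpen (T i)) ∧ (∀ i, ∀ x ∈ T i, ∀ y ∈ T i, dist x y < ε) ∧
    (∀ i, ∀ k : ℤ_[2], ∀ x ∈ T i, act k x ∈ T i → (2 : ℤ_[2]) ^ N' ∣ k) ∧
    (∀ x, ∃ i, ∃ k, act k x ∈ T i) ∧ ∀ x, Set.ncard {i | ∃ k, act k x ∈ T i} ≤ M

/-- A tower of compact metric spaces with free isometric actions of the groups `Z/2^(k j)`. -/
structure Tower where
  S : ℕ → Type
  [ms : ∀ j, MetricSpace (S j)]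
  [cs : ∀ j, CompactSpace (S j)]
  [ne : ∀ j, Nonempty (S j)]
  k : ℕ → ℕ
  kmono : StrictMono k
  τ : ∀ j, S j → S j
  iso : ∀ j, Isometry (τ j)
  ord : ∀ j x, (τ j)^[2 ^ k j] x = x
  free : ∀ j x i, 0 < i → i < 2 ^ k j → (τ j)^[i] x ≠ x
  p : ∀ j, S (j + 1) → S j
  pcont : ∀ j, Continuous (p j)
  equi : ∀ j x, p j (τ (j + 1) x) = τ j (p j x)

attribute [instance] Tower.ms Tower.cs Tower.ne

namespace Tower

variable (T : Tower)

/-- The inverse limit of a tower. -/
def Lim : Type := {x : ∀ j, T.S j // ∀ j, T.p j (x (j + 1)) = x j}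

/-- The metric on the limit. -/
noncomputable instance : MetricSpace T.Lim :=
  letI : MetricSpace (∀ j, T.S j) := PiCountable.metricSpace
  inferInstanceAs (MetricSpace {x : ∀ j, T.S j // ∀ j, T.p j (x (j + 1)) = x j})

/-- Projection to the stage `j`. -/
def proj (j : ℕ) (x : T.Lim) : T.S j := x.1 j

/-- The number by which a 2-adic integer acts at stage `j`. -/
noncomputable def num (j : ℕ) (a : ℤ_[2]) : ℕ := (PadicInt.toZModPow (p := 2) (T.k j) a).val

theorem iter_mod (j i : ℕ) (x : T.S j) : (T.τ j)^[i % 2 ^ T.k j] x = (T.τ j)^[i] x := by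
  conv_rhs => rw [← Nat.mod_add_div i (2 ^ T.k j)]
  rw [Function.iterate_add_apply, Function.iterate_mul]
  congr 1
  have : ∀ l, ((T.τ j)^[2 ^ T.k j])^[l] x = x := by
    intro l
    induction l with
    | zero => rfl
    | succ l ih => rw [Function.iterate_succ_apply, T.ord, ih]
  rw [this]

theorem num_succ (j : ℕ) (a : ℤ_[2]) : T.num (j + 1) a % 2 ^ T.k j = T.num j a := by
  have h := PadicInt.cast_toZModPow (p := 2) (T.k j) (T.k (j + 1))
    (T.kmono.monotone (Nat.le_succ j)) a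
  unfold num
  rw [← h, ZMod.cast_eq_val, ZMod.val_natCast]

theorem p_iter (j i : ℕ) (x : T.S (j + 1)) :
    T.p j ((T.τ (j + 1))^[i] x) = (T.τ j)^[i] (T.p j x) := by
  induction i generalizing x with
  | zero => rfl
  | succ i ih => rw [Function.iterate_succ_apply, ih, T.equi, Function.iterate_succ_apply]

/-- The action of the 2-adic integers on the limit. -/
noncomputable def act (a : ℤ_[2]) (x : T.Lim) : T.Lim :=
  ⟨fun j => (T.τ j)^[T.num j a] (x.1 j), fun j => by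
    rw [T.p_iter, x.2 j, ← T.iter_mod, T.num_succ]⟩

@[simp] theorem proj_act (j : ℕ) (a : ℤ_[2]) (x : T.Lim) :
    T.proj j (T.act a x) = (T.τ j)^[T.num j a] (T.proj j x) := rfl

theorem p_proj (j : ℕ) (x : T.Lim) : T.p j (T.proj (j + 1) x) = T.proj j x := x.2 j

end Tower

end Pool.Agent.CRC
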