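import Pool.Agent.Lib.MP_13800a_gt.Macro3
import Pool.Agent.Lib.MP_13800a_gt.OrbDefs

/-! TASK T5: the tower for `E`. Iterate `State.mcr` from `pointState` with `ε = (1/4)^j` and
`δ = (1/3) (1/2)^(j+1)`; the ratios stay `≥ 2/3`. -/

set_option autoImplicit false

namespace Pool.Agent.CRC

open Set Topology

/-- states with a lower bound for the ratio -/
private def SR (j : ℕ) : Type 1 := {X : State // 2 / 3 + 1 / 3 * (1 / 2 : ℝ) ^ j ≤ X.ratio}

/-- one step of the iteration -/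
private def IsStep (j : ℕ) (X : State) (Y : State) (f : Cov Y X) : Prop :=
  X.k < Y.k ∧ ∃ (m : ℕ) (V : Fin m → Set Y.S), (∀ i, IsOpen (V i)) ∧
      (∀ i, ∀ x ∈ V i, ∀ y ∈ V i, dist (f.q x) (f.q y) < (1 / 4 : ℝ) ^ j) ∧
      (∀ x, ∃ i, x ∈ V i) ∧ (∀ x, Set.ncard {i | x ∈ V i} ≤ 3)

private theorem exists_next (j : ℕ) (X : SR j) :
    ∃ (Y : SR (j + 1)) (f : Cov Y.1 X.1), IsStep j X.1 Y.1 f := by
  have hp : (0 : ℝ) < (1 / 2) ^ (j + 1) := by positivity
  have hX := X.2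
  have h2 : (1 / 2 : ℝ) ^ j = 2 * (1 / 2) ^ (j + 1) := by rw [pow_succ]; ring
  obtain ⟨Y, f, m, V, hk, hVo, hVd, hVc, hVn, hr⟩ := X.1.mcr ((1 / 4 : ℝ) ^ j)
    (1 / 3 * (1 / 2) ^ (j + 1)) (by positivity) (by positivity) (by linarith)
  exact ⟨⟨Y, by linarith⟩, f, hk, m, V, hVo, hVd, hVc, hVn⟩

private noncomputable def nextS (j : ℕ) (X : SR j) : SR (j + 1) := (exists_next j X).choose

private noncomputable def nextF (j : ℕ) (X : SR j) : Cov (nextS j X).1 X.1 :=
  (exists_next j X).choose_spec.choose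

private theorem nextStep (j : ℕ) (X : SR j) : IsStep j X.1 (nextS j X).1 (nextF j X) :=
  (exists_next j X).choose_spec.choose_spec

private noncomputable def SQ : ∀ j : ℕ, SR j
  | 0 => ⟨pointState, by rw [pointState_ratio]; norm_num⟩
  | j + 1 => nextS j (SQ j)

private noncomputable def SF (j : ℕ) : Cov (SQ (j + 1)).1 (SQ j).1 := nextF j (SQ j)

private theorem SStep (j : ℕ) : IsStep j (SQ j).1 (SQ (j + 1)).1 (SF j) := nextStep j (SQ j)

theorem exists_towerE : ∃ T : Tower, (∀ j, Function.Surjective (T.p j)) ∧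
    (∀ j x y, dist (T.p j x) (T.p j y) ≤ dist x y) ∧
    (∀ j, ∃ (m : ℕ) (V : Fin m → Set (T.S (j + 1))), (∀ i, IsOpen (V i)) ∧
      (∀ i, ∀ x ∈ V i, ∀ y ∈ V i, dist (T.p j x) (T.p j y) < (1 / 4 : ℝ) ^ j) ∧
      (∀ x, ∃ i, x ∈ V i) ∧ ∀ x, Set.ncard {i | x ∈ V i} ≤ 3) ∧
    (∀ j, ∃ m : ℕ, (2 / 3 : ℝ) * 2 ^ T.k j ≤ m + 1 ∧ Good (2 ^ T.k j) (T.τ j) m) := by
  refine ⟨{ S := fun j => (SQ j).1.S
            ms := fun j => (SQ j).1.ms
            cs := fun j => (SQ j).1.cs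
            ne := fun j => (SQ j).1.ne
            k := fun j => (SQ j).1.k
            kmono := strictMono_nat_of_lt_succ fun j => (SStep j).1
            τ := fun j => (SQ j).1.τ
            iso := fun j => (SQ j).1.iso
            ord := fun j => (SQ j).1.ord
            free := fun j => (SQ j).1.free
            p := fun j => (SF j).q
            pcont := fun j => (SF j).continuous
            equi := fun j => (SF j).equi }, fun j => (SF j).surj, fun j => (SF j).lip,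
            fun j => (SStep j).2, fun j => ⟨(SQ j).1.m, ?_, (SQ j).1.good⟩⟩
  have h1 := (SQ j).2
  have h2 : (0 : ℝ) < 1 / 3 * (1 / 2) ^ j := by positivity
  have h3 : (2 / 3 : ℝ) ≤ (SQ j).1.ratio := by linarith
  have h4 : (0 : ℝ) < 2 ^ (SQ j).1.k := by positivity
  unfold State.ratio at h3
  rwa [le_div_iff₀ h4] at h3

end Pool.Agent.CRC
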