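import Pool.Agent.Lib.MP_13800a_gt.TowerLim

/-! TASK T2: property (HE) for the limit of a tower. -/

set_option autoImplicit false

namespace Pool.Agent.CRC

open Set Topology

private theorem Tower.proj_dist_mono (T : Tower)
    (hlip : ∀ j x y, dist (T.p j x) (T.p j y) ≤ dist x y) (i l : ℕ) (x y : T.Lim) :
    dist (T.proj i x) (T.proj i y) ≤ dist (T.proj (i + l) x) (T.proj (i + l) y) := by
  induction l with
  | zero => exact le_rfl
  | succ l ih =>
    refine ih.trans ?_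
    rw [← T.p_proj (i + l) x, ← T.p_proj (i + l) y]
    exact hlip (i + l) _ _

private theorem Tower.dist_le_of_proj (T : Tower)
    (hlip : ∀ j x y, dist (T.p j x) (T.p j y) ≤ dist x y) (j : ℕ) (x y : T.Lim)
    (h : dist (T.proj j x) (T.proj j y) < (1 / 4 : ℝ) ^ j) : dist x y ≤ 4 * (3 / 4 : ℝ) ^ j := by
  have hterm : ∀ i, min ((2 : ℝ)⁻¹ ^ i) (dist (T.proj i x) (T.proj i y)) ≤
      (3 / 4 : ℝ) ^ j * (3 / 4 : ℝ) ^ i := by
    intro i
    rw [← pow_add]
    rcases le_total i j with hij | hij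
    · obtain ⟨l, rfl⟩ := Nat.exists_eq_add_of_le hij
      have h1 := T.proj_dist_mono hlip i l x y
      refine (min_le_right _ _).trans (h1.trans (h.le.trans ?_))
      calc (1 / 4 : ℝ) ^ (i + l) ≤ ((3 / 4 : ℝ) ^ 2) ^ (i + l) :=
            pow_le_pow_left₀ (by norm_num) (by norm_num) _
        _ = (3 / 4 : ℝ) ^ (2 * (i + l)) := (pow_mul _ _ _).symm
        _ ≤ (3 / 4 : ℝ) ^ (i + l + i) :=
            pow_le_pow_of_le_one (by norm_num) (by norm_num) (by omega)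
    · refine (min_le_left _ _).trans ?_
      calc (2 : ℝ)⁻¹ ^ i ≤ ((3 / 4 : ℝ) ^ 2) ^ i :=
            pow_le_pow_left₀ (by norm_num) (by norm_num) _
        _ = (3 / 4 : ℝ) ^ (2 * i) := (pow_mul _ _ _).symm
        _ ≤ (3 / 4 : ℝ) ^ (j + i) :=
            pow_le_pow_of_le_one (by norm_num) (by norm_num) (by omega)
  have hgeo : Summable fun i : ℕ => (3 / 4 : ℝ) ^ j * (3 / 4 : ℝ) ^ i :=
    (summable_geometric_of_lt_one (by norm_num) (by norm_num)).mul_left _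
  have hsum : Summable fun i : ℕ => min ((2 : ℝ)⁻¹ ^ i) (dist (T.proj i x) (T.proj i y)) :=
    Summable.of_nonneg_of_le (fun i => le_min (by positivity) dist_nonneg) hterm hgeo
  rw [T.dist_eq]
  refine (hsum.tsum_le_tsum hterm hgeo).trans ?_
  rw [tsum_mul_left, tsum_geometric_of_lt_one (by norm_num) (by norm_num)]
  have : (1 - 3 / 4 : ℝ)⁻¹ = 4 := by norm_num
  rw [this, mul_comm]

/-- `dist x y ≤ ∑_{i ≤ j} dist (x i) (y i) + ∑_{i > j} 2^{-i} ≤ (j+1) dist (x j) (y j) + 2^{-j}`;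
pull back the cover of stage `j + 1` for large `j`; use `N = k (j + 1)`. -/
theorem Tower.he_of_covers (T : Tower)
    (hlip : ∀ j x y, dist (T.p j x) (T.p j y) ≤ dist x y)
    (hcov : ∀ j, ∃ (m : ℕ) (V : Fin m → Set (T.S (j + 1))), (∀ i, IsOpen (V i)) ∧
      (∀ i, ∀ x ∈ V i, ∀ y ∈ V i, dist (T.p j x) (T.p j y) < (1 / 4 : ℝ) ^ j) ∧
      (∀ x, ∃ i, x ∈ V i) ∧ ∀ x, Set.ncard {i | x ∈ V i} ≤ 3) : HE T.act := by
  intro ε hε
  obtain ⟨j, hj⟩ := exists_pow_lt_of_lt_one (show 0 < ε / 4 by linarith)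
    (show (3 / 4 : ℝ) < 1 by norm_num)
  obtain ⟨m, V, hVo, hVd, hVc, hVn⟩ := hcov j
  refine ⟨T.k (j + 1), m, fun i => T.proj (j + 1) ⁻¹' V i,
    fun i => (hVo i).preimage (T.continuous_proj (j + 1)), ?_, ?_, fun x => hVc _,
    fun x => hVn _⟩
  · intro i x hx y hy
    have h1 := hVd i _ hx _ hy
    rw [T.p_proj, T.p_proj] at h1
    have h2 := T.dist_le_of_proj hlip j x y h1
    linarith
  · intro i a ha x hx
    show T.proj (j + 1) (T.act a x) ∈ V i
    rw [(T.proj_act_eq_iff (j + 1) a x).mpr ha]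
    exact hx

end Pool.Agent.CRC
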