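import Pool.Agent.Lib.MP_13800a_gt.Defs

/-! Definitions for section 4. `P = OnePoint ℂ`. -/

set_option autoImplicit false

open scoped Matrix Kronecker OnePoint
open Matrix

namespace Pool.Agent.CRC

/-- the Riemann sphere -/
abbrev PP : Type := OnePoint ℂ

section
variable {K : Type} {n n' h m : ℕ}

/-- the action `(x, w) ↦ (τ x, w (· + 1))` on `K × (ZMod n → P)` -/
def shT (n : ℕ) {K : Type} (τ : K → K) : K × (ZMod n → PP) → K × (ZMod n → PP) :=
  fun p => (τ p.1, fun c => p.2 (c + 1))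

/-- the inclusion `K × (ZMod n → P) → K × (ZMod n' → P)` induced by reduction modulo `n` -/
def jM (K : Type) (hd : n ∣ n') : K × (ZMod n → PP) → K × (ZMod n' → PP) :=
  fun p => (p.1, fun c => p.2 (ZMod.castHom hd (ZMod n) c))

/-- the support `{c : w c ≠ ∞}` -/
noncomputable def suppW [NeZero n'] (w : ZMod n' → PP) : Finset (ZMod n') := by
  classical exact Finset.univ.filter fun c => w c ≠ ∞

/-- the relative set attached to a family of subsets of `ZMod n'` -/
def ZT [NeZero n'] (ZK : Set K) (F : Finset (Finset (ZMod n'))) : Set (K × (ZMod n' → PP)) :=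
  (ZK ×ˢ Set.univ) ∪ {p | suppW p.2 ∈ F}

/-- the basic relative set: `Z_K × all` and the constant function `∞` -/
def ZM (n : ℕ) (ZK : Set K) : Set (K × (ZMod n → PP)) :=
  (ZK ×ˢ Set.univ) ∪ {p | ∀ c, p.2 c = ∞}

/-- `w^S`: `w` on `S`, `∞` outside -/
noncomputable def resW (S : Finset (ZMod n')) (w : ZMod n' → PP) : ZMod n' → PP := by
  classical exact fun c => if c ∈ S then w c else ∞

/-- `S_j = {c : (c mod h) + j ∈ Sb}` -/
def Sj [NeZero n'] (hh : h ∣ n') (Sb : Finset (ZMod h)) (j : ZMod h) : Finset (ZMod n') :=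
  Finset.univ.filter fun c => ZMod.castHom hh (ZMod h) c + j ∈ Sb

/-- `(x, w, j) ↦ u (x, w^{S_j})` -/
noncomputable def usEl [NeZero n'] {ι : Type} (hh : h ∣ n') (Sb : Finset (ZMod h))
    (u : K × (ZMod n' → PP) → UI → MM ι) : (K × (ZMod n' → PP)) × ZMod h → UI → MM ι :=
  fun p t => u (p.1.1, resW (Sj hh Sb p.2) p.1.2) t

/-- `(x, w, j) ↦ u (x, (w ∘ cast)^{S_j})` -/
noncomputable def uMEl [NeZero n'] {ι : Type} (hd : n ∣ n') (hh : h ∣ n') (Sb : Finset (ZMod h))
    (u : K × (ZMod n' → PP) → UI → MM ι) : (K × (ZMod n → PP)) × ZMod h → UI → MM ι :=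
  fun p t => u (p.1.1, resW (Sj hh Sb p.2) (jM K hd p.1).2) t

/-- `w + z` on the Riemann sphere (`∞ + z = ∞`) -/
def addP (w : PP) (z : ℂ) : PP := OnePoint.map (fun x => x + z) w

/-- `φ(d) = d / (1 - |d|)` -/
noncomputable def phiD (d : ℂ) : ℂ := ((1 - ‖d‖ : ℝ) : ℂ)⁻¹ * d

/-- the exponents used in section 4: `X = {i < n'/h : n'/max(h,n) ∤ i}` -/
def XX (n n' h : ℕ) : Finset ℕ :=
  (Finset.range (n' / h)).filter fun i => ¬ (n' / max h n) ∣ i

/-- `w'(c)` of section 4; `k : Fin m → ℕ` enumerates the exponents, `d` is a point of the polydisc -/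
noncomputable def wP [NeZero n'] (hd : n ∣ n') (hh : h ∣ n') (Sb : Finset (ZMod h)) (s0 : ZMod h)
    (k : Fin m → ℕ) (w : ZMod n → PP) (j : ZMod h) (d : DB m) : ZMod n' → PP := by
  classical
  exact fun c =>
    if ZMod.castHom hh (ZMod h) c + j = s0 then
      addP (w (ZMod.castHom hd (ZMod n) c)) (∑ i, zt n' ^ (k i * c.val) * phiD (d.1 i))
    else if ZMod.castHom hh (ZMod h) c + j ∈ Sb then w (ZMod.castHom hd (ZMod n) c)
    else ∞

/-- `v(x,w,j,d) = u(x,w')` in the interior of the polydisc, `1` on the boundary -/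
noncomputable def vEl [NeZero n'] {ι : Type} (hd : n ∣ n') (hh : h ∣ n')
    (Sb : Finset (ZMod h)) (s0 : ZMod h) (k : Fin m → ℕ) (u : K × (ZMod n' → PP) → UI → MM ι) :
    ((K × (ZMod n → PP)) × ZMod h) × DB m → UI → MM ι := by
  classical
  exact fun p t =>
    if ‖(p.2.1 : Fin m → ℂ)‖ < 1 then u (p.1.1.1, wP hd hh Sb s0 k p.1.1.2 p.1.2 p.2) t else 1

end

end Pool.Agent.CRC
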