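import Pool.Agent.Lib.MP_13800a_gt.Mat
import Pool.Agent.Lib.MP_13800a_gt.SSDefs

/-! TASK Fourier: the finite Fourier estimate of section 4 and the count of exponents. -/

set_option autoImplicit false

namespace Pool.Agent.CRC

/-- divisors of a power of two: the maximum is a common multiple -/
theorem fourier_max_dvd {n n' h : ℕ} (hn' : ∃ a, n' = 2 ^ a) (hd : n ∣ n') (hh : h ∣ n') :
    n ∣ max h n ∧ h ∣ max h n ∧ max h n ∣ n' := by
  obtain ⟨a, rfl⟩ := hn'
  obtain ⟨p, hp, rfl⟩ := (Nat.dvd_prime_pow Nat.prime_two).mp hd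
  obtain ⟨q, hq, rfl⟩ := (Nat.dvd_prime_pow Nat.prime_two).mp hh
  rcases le_total p q with hpq | hpq
  · have h1 : (2:ℕ) ^ p ≤ 2 ^ q := Nat.pow_le_pow_right (by norm_num) hpq
    rw [max_eq_left h1]
    exact ⟨pow_dvd_pow 2 hpq, dvd_rfl, pow_dvd_pow 2 hq⟩
  · have h1 : (2:ℕ) ^ q ≤ 2 ^ p := Nat.pow_le_pow_right (by norm_num) hpq
    rw [max_eq_right h1]
    exact ⟨dvd_rfl, pow_dvd_pow 2 hpq, pow_dvd_pow 2 hp⟩

theorem card_XX {n n' h : ℕ} (hn' : ∃ a, n' = 2 ^ a) (hd : n ∣ n') (hh : h ∣ n') :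
    n' / h ≤ n + (XX n n' h).card := by
  obtain ⟨h1, h2, h3⟩ := fourier_max_dvd hn' hd hh
  have hn'pos : 0 < n' := by
    obtain ⟨a, rfl⟩ := hn'
    positivity
  have hnpos : 0 < n := Nat.pos_of_dvd_of_pos hd hn'pos
  have hhpos : 0 < h := Nat.pos_of_dvd_of_pos hh hn'pos
  have hMpos : 0 < max h n := lt_max_of_lt_left hhpos
  obtain ⟨q, hq⟩ := h2
  have hqn : q ≤ n := by
    rcases le_total n h with hle | hle
    · rw [max_eq_left hle] at hq
      have : q = 1 := by
        have h4 : h * q = h * 1 := by rw [← hq, mul_one]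
        exact Nat.eq_of_mul_eq_mul_left hhpos h4
      omega
    · rw [max_eq_right hle] at hq
      rw [hq]
      exact Nat.le_mul_of_pos_left q hhpos
  set e := n' / max h n with he
  have hne : n' = max h n * e := (Nat.mul_div_cancel' h3).symm
  have hepos : 0 < e := Nat.div_pos (Nat.le_of_dvd hn'pos h3) hMpos
  have hdiv : n' / h = q * e := by
    rw [hne, hq, mul_assoc, Nat.mul_div_cancel_left _ hhpos]
  have hsplit : (Finset.range (n' / h)).card =
      ((Finset.range (n' / h)).filter fun i => e ∣ i).card + (XX n n' h).card := by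
    rw [XX, ← Finset.card_filter_add_card_filter_not (s := Finset.range (n' / h)) (p := fun i => e ∣ i)]
  have hcount : ((Finset.range (n' / h)).filter fun i => e ∣ i).card ≤ q := by
    have hsub : ((Finset.range (n' / h)).filter fun i => e ∣ i) ⊆
        (Finset.range q).image (fun t => e * t) := by
      intro x hx
      simp only [Finset.mem_filter, Finset.mem_range] at hx
      obtain ⟨hx1, t, rfl⟩ := hx
      simp only [Finset.mem_image, Finset.mem_range]
      refine ⟨t, ?_, rfl⟩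
      rw [hdiv, mul_comm q e] at hx1
      exact lt_of_mul_lt_mul_left hx1 (Nat.zero_le e)
    calc _ ≤ ((Finset.range q).image (fun t => e * t)).card := Finset.card_le_card hsub
      _ ≤ (Finset.range q).card := Finset.card_image_le
      _ = q := Finset.card_range q
  rw [Finset.card_range] at hsplit
  omega

/-- the additive character `c ↦ ζ^{c k}` on `ZMod n'` -/
theorem fourier_char_add {n' : ℕ} [NeZero n'] (k : ℕ) (a b : ZMod n') :
    zt n' ^ (k * (a + b).val) = zt n' ^ (k * a.val) * zt n' ^ (k * b.val) := by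
  have h1 : ∀ m : ℕ, zt n' ^ (k * (m % n')) = zt n' ^ (k * m) := by
    intro m
    conv_rhs => rw [← Nat.mod_add_div m n']
    rw [mul_add, pow_add]
    have : k * (n' * (m / n')) = n' * (k * (m / n')) := by ring
    rw [this, pow_mul (zt n') n', zt_pow_self, one_pow, mul_one]
  rw [ZMod.val_add, h1, mul_add, pow_add]

/-- `|φ_i| ≤ max |w'(c)|` over `c ≡ s (mod h)`, for `w'(c) = w(c mod n) + ∑_{i} ζ^{k_i c} φ_i`,
`k : Fin m → ℕ` injective with values in `X`. -/
theorem fourier_bound {n n' h m : ℕ} [NeZero n'] (hn' : ∃ a, n' = 2 ^ a) (hd : n ∣ n')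
    (hh : h ∣ n') (k : Fin m → ℕ) (hk : Function.Injective k) (hkX : ∀ i, k i ∈ XX n n' h)
    (w : ZMod n → ℂ) (φ : Fin m → ℂ) (s : ZMod h) (i : Fin m) :
    ∃ c : ZMod n', ZMod.castHom hh (ZMod h) c = s ∧
      ‖φ i‖ ≤ ‖w (ZMod.castHom hd (ZMod n) c) + ∑ i, zt n' ^ (k i * c.val) * φ i‖ := by
  classical
  obtain ⟨hM1, hM2, hM3⟩ := fourier_max_dvd hn' hd hh
  have hn'pos : 0 < n' := Nat.pos_of_ne_zero (NeZero.ne n')
  have hhpos : 0 < h := Nat.pos_of_dvd_of_pos hh hn'pos
  have hnpos : 0 < n := Nat.pos_of_dvd_of_pos hd hn'pos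
  set M := max h n with hMdef
  have hMpos : 0 < M := lt_max_of_lt_left hhpos
  have hprim : IsPrimitiveRoot (zt n') n' := zt_isPrimitiveRoot hn'pos.ne'
  set G : Finset (ZMod n') := Finset.univ.filter fun c => ZMod.castHom hh (ZMod h) c = s with hG
  have hGne : G.Nonempty := by
    obtain ⟨c, hc⟩ := ZMod.castHom_surjective hh s
    exact ⟨c, Finset.mem_filter.mpr ⟨Finset.mem_univ c, hc⟩⟩
  set W : ZMod n' → ℂ := fun c => w (ZMod.castHom hd (ZMod n) c) + ∑ i, zt n' ^ (k i * c.val) * φ i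
    with hW
  -- the translation argument
  have htrans : ∀ (g : ZMod n' → ℂ) (r : ZMod n') (θ : ℂ), ZMod.castHom hh (ZMod h) r = 0 →
      θ ≠ 1 → (∀ c, g (c + r) = θ * g c) → ∑ c ∈ G, g c = 0 := by
    intro g r θ hr hθ hg
    have h1 : ∑ c ∈ G, g c = ∑ c ∈ G, g (c + r) := by
      symm
      apply Finset.sum_bij (fun c _ => c + r)
      · intro c hc
        simp only [hG, Finset.mem_filter, Finset.mem_univ, true_and] at hc ⊢
        rw [map_add, hr, add_zero, hc]
      · intro a _ b _ hab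
        exact add_right_cancel hab
      · intro c hc
        refine ⟨c - r, ?_, by ring⟩
        simp only [hG, Finset.mem_filter, Finset.mem_univ, true_and] at hc ⊢
        rw [map_sub, hr, sub_zero, hc]
      · intro c _
        rfl
    have h2 : ∑ c ∈ G, g (c + r) = θ * ∑ c ∈ G, g c := by
      rw [Finset.mul_sum]
      exact Finset.sum_congr rfl fun c _ => hg c
    rw [h2] at h1
    have h3 : (1 - θ) * ∑ c ∈ G, g c = 0 := by linear_combination h1
    rcases mul_eq_zero.mp h3 with h4 | h4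
    · exact absurd (sub_eq_zero.mp h4).symm hθ
    · exact h4
  -- conjugate character: `zt n' ^ (k' * c.val)` with `k' = n' * K - k`
  -- we use inverses
  have hz0 : zt n' ≠ 0 := hprim.ne_zero hn'pos.ne'
  set χ : ℕ → ZMod n' → ℂ := fun l c => zt n' ^ (l * c.val) with hχ
  have hχ0 : ∀ l c, χ l c ≠ 0 := fun l c => pow_ne_zero _ hz0
  have hχadd : ∀ l a b, χ l (a + b) = χ l a * χ l b := fun l a b => fourier_char_add l a b
  have hχnorm : ∀ l c, ‖χ l c‖ = 1 := by
    intro l c
    simp only [hχ, norm_pow, norm_zt, one_pow]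
  have hχnat : ∀ l (t : ℕ), χ l (t : ZMod n') = zt n' ^ (l * t) := by
    intro l t
    simp only [hχ, ZMod.val_natCast]
    conv_rhs => rw [← Nat.mod_add_div t n']
    rw [mul_add, pow_add]
    have : l * (n' * (t / n')) = n' * (l * (t / n')) := by ring
    rw [this, pow_mul (zt n') n', zt_pow_self, one_pow, mul_one]
  -- values of k
  have hki : ∀ l, k l < n' / h ∧ ¬ (n' / M) ∣ k l := by
    intro l
    have := hkX l
    simpa [XX] using this
  -- the total sum
  have hsum : ∑ c ∈ G, (χ (k i) c)⁻¹ * W c = (G.card : ℂ) * φ i := by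
    have h1 : ∀ c, (χ (k i) c)⁻¹ * W c = (χ (k i) c)⁻¹ * w (ZMod.castHom hd (ZMod n) c) +
        ∑ l, (χ (k i) c)⁻¹ * χ (k l) c * φ l := by
      intro c
      simp only [hW, mul_add, Finset.mul_sum]
      congr 1
      refine Finset.sum_congr rfl fun l _ => ?_
      simp only [hχ]
      ring
    simp_rw [h1]
    rw [Finset.sum_add_distrib, Finset.sum_comm]
    have h2 : ∑ c ∈ G, (χ (k i) c)⁻¹ * w (ZMod.castHom hd (ZMod n) c) = 0 := by
      apply htrans _ (M : ZMod n') ((zt n' ^ (k i * M))⁻¹)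
      · rw [map_natCast, ZMod.natCast_eq_zero_iff]
        exact hM2
      · rw [Ne, inv_eq_one, hprim.pow_eq_one_iff_dvd]
        intro hdv
        apply (hki i).2
        obtain ⟨q, hq⟩ := hM3
        rw [hq, Nat.mul_div_cancel_left _ hMpos]
        rw [hq, mul_comm (k i) M] at hdv
        exact Nat.dvd_of_mul_dvd_mul_left hMpos hdv
      · intro c
        have h3 : ZMod.castHom hd (ZMod n) (c + (M : ZMod n')) = ZMod.castHom hd (ZMod n) c := by
          rw [map_add, map_natCast, (ZMod.natCast_eq_zero_iff M n).mpr hM1, add_zero]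
        rw [h3, hχadd, hχnat, mul_inv]
        ring
    rw [h2, zero_add]
    rw [Finset.sum_eq_single i]
    · have h4 : ∀ c ∈ G, (χ (k i) c)⁻¹ * χ (k i) c * φ i = φ i := by
        intro c _
        rw [inv_mul_cancel₀ (hχ0 _ _), one_mul]
      rw [Finset.sum_congr rfl h4, Finset.sum_const, nsmul_eq_mul]
    · intro l _ hli
      have h5 : k l ≠ k i := fun hcon => hli (hk hcon)
      apply htrans _ (h : ZMod n') ((zt n' ^ (k i * h))⁻¹ * zt n' ^ (k l * h))
      · rw [map_natCast, ZMod.natCast_eq_zero_iff]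
      · intro hcon
        have h6 : zt n' ^ (k l * h) = zt n' ^ (k i * h) := by
          have h7 : zt n' ^ (k i * h) ≠ 0 := pow_ne_zero _ hz0
          calc zt n' ^ (k l * h) = zt n' ^ (k i * h) * ((zt n' ^ (k i * h))⁻¹ * zt n' ^ (k l * h)) := by
                rw [← mul_assoc, mul_inv_cancel₀ h7, one_mul]
            _ = zt n' ^ (k i * h) := by rw [hcon, mul_one]
        have hlt : ∀ l, k l * h < n' := by
          intro l
          calc k l * h < (n' / h) * h := Nat.mul_lt_mul_of_pos_right (hki l).1 hhpos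
            _ = n' := Nat.div_mul_cancel hh
        have h8 := hprim.pow_inj (hlt l) (hlt i) h6
        exact h5 (Nat.eq_of_mul_eq_mul_right hhpos h8)
      · intro c
        rw [hχadd, hχadd, hχnat, hχnat, mul_inv]
        ring
    · intro hi
      exact absurd (Finset.mem_univ i) hi
  -- conclusion
  by_contra hcon
  push Not at hcon
  have hlt : ∀ c ∈ G, ‖(χ (k i) c)⁻¹ * W c‖ < ‖φ i‖ := by
    intro c hc
    rw [norm_mul, norm_inv, hχnorm, inv_one, one_mul]
    exact hcon c (Finset.mem_filter.mp hc).2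
  have h9 : ‖∑ c ∈ G, (χ (k i) c)⁻¹ * W c‖ < (G.card : ℝ) * ‖φ i‖ := by
    calc ‖∑ c ∈ G, (χ (k i) c)⁻¹ * W c‖ ≤ ∑ c ∈ G, ‖(χ (k i) c)⁻¹ * W c‖ := norm_sum_le _ _
      _ < ∑ _c ∈ G, ‖φ i‖ := Finset.sum_lt_sum_of_nonempty hGne hlt
      _ = (G.card : ℝ) * ‖φ i‖ := by rw [Finset.sum_const, nsmul_eq_mul]
  rw [hsum, norm_mul, Complex.norm_natCast] at h9
  exact lt_irrefl _ h9

end Pool.Agent.CRC
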