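import Mathlib

/-! Interface of the K-part: `good_base`, `good_infl`, `good_bu`, `good_sphere`, `good_index`. -/
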