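import Pool.Agent.Lib.MP_13800a_gt.NullC

/-! TASK Group: the abelian group `KG n τ Z` and its basic API. -/

set_option autoImplicit false

open scoped Matrix Kronecker
open Matrix

namespace Pool.Agent.CRC

section group_bs
variable {ι κ μ ν ι' κ' : Type}

private theorem group_bs_ll (u : MM ι) (v : MM κ) (i j : ι) (a b : Fin 2) :
    bs u v (Sum.inl i, a) (Sum.inl j, b) = u (i, a) (j, b) := rfl

private theorem group_bs_lr (u : MM ι) (v : MM κ) (i : ι) (j : κ) (a b : Fin 2) :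
    bs u v (Sum.inl i, a) (Sum.inr j, b) = 0 := rfl

private theorem group_bs_rl (u : MM ι) (v : MM κ) (i : κ) (j : ι) (a b : Fin 2) :
    bs u v (Sum.inr i, a) (Sum.inl j, b) = 0 := rfl

private theorem group_bs_rr (u : MM ι) (v : MM κ) (i j : κ) (a b : Fin 2) :
    bs u v (Sum.inr i, a) (Sum.inr j, b) = v (i, a) (j, b) := rfl

private theorem group_bs_comm (u : MM ι) (v : MM κ) :
    (bs u v).submatrix (Prod.map (Equiv.sumComm ι κ).symm id)
      (Prod.map (Equiv.sumComm ι κ).symm id) = bs v u := by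
  ext ⟨i | i, a⟩ ⟨j | j, b⟩ <;> rfl

private theorem group_dg_comm (u : Matrix ι ι ℂ) (v : Matrix κ κ ℂ) :
    (dg u v).submatrix (Equiv.sumComm ι κ).symm (Equiv.sumComm ι κ).symm = dg v u := by
  ext (i | i) (j | j) <;> rfl

private theorem group_bs_assoc (u : MM ι) (v : MM κ) (w : MM μ) :
    (bs (bs u v) w).submatrix (Prod.map (Equiv.sumAssoc ι κ μ).symm id)
      (Prod.map (Equiv.sumAssoc ι κ μ).symm id) = bs u (bs v w) := by
  ext ⟨i | i | i, a⟩ ⟨j | j | j, b⟩ <;> rfl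

private theorem group_dg_assoc (u : Matrix ι ι ℂ) (v : Matrix κ κ ℂ) (w : Matrix μ μ ℂ) :
    (dg (dg u v) w).submatrix (Equiv.sumAssoc ι κ μ).symm (Equiv.sumAssoc ι κ μ).symm =
      dg u (dg v w) := by
  ext (i | i | i) (j | j | j) <;> rfl

private theorem group_bs_four (a : MM ι) (b : MM κ) (c : MM μ) (d : MM ν) :
    (bs (bs a b) (bs c d)).submatrix (Prod.map (Equiv.sumSumSumComm ι κ μ ν).symm id)
      (Prod.map (Equiv.sumSumSumComm ι κ μ ν).symm id) = bs (bs a c) (bs b d) := by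
  ext ⟨(i | i) | (i | i), a⟩ ⟨(j | j) | (j | j), b⟩ <;> rfl

private theorem group_dg_four (a : Matrix ι ι ℂ) (b : Matrix κ κ ℂ) (c : Matrix μ μ ℂ)
    (d : Matrix ν ν ℂ) :
    (dg (dg a b) (dg c d)).submatrix (Equiv.sumSumSumComm ι κ μ ν).symm
      (Equiv.sumSumSumComm ι κ μ ν).symm = dg (dg a c) (dg b d) := by
  ext ((i | i) | (i | i)) ((j | j) | (j | j)) <;> rfl

private theorem group_bs_congr (u : MM ι) (v : MM κ) (e : κ ≃ κ') :
    (bs u v).submatrix (Prod.map (Equiv.sumCongr (Equiv.refl ι) e).symm id)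
      (Prod.map (Equiv.sumCongr (Equiv.refl ι) e).symm id) =
      bs u (v.submatrix (Prod.map e.symm id) (Prod.map e.symm id)) := by
  ext ⟨i | i, a⟩ ⟨j | j, b⟩ <;> rfl

private theorem group_dg_congr (u : Matrix ι ι ℂ) (v : Matrix κ κ ℂ) (e : κ ≃ κ') :
    (dg u v).submatrix (Equiv.sumCongr (Equiv.refl ι) e).symm
      (Equiv.sumCongr (Equiv.refl ι) e).symm = dg u (v.submatrix e.symm e.symm) := by
  ext (i | i) (j | j) <;> rfl

private theorem group_inv_sub [Fintype ι] [DecidableEq ι] [Fintype κ] [DecidableEq κ] (u : MM ι)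
    (e : ι ≃ κ) :
    (u.submatrix (Prod.map e.symm id) (Prod.map e.symm id))⁻¹ =
      u⁻¹.submatrix (Prod.map e.symm id) (Prod.map e.symm id) :=
  Matrix.inv_submatrix_equiv u (e.symm.prodCongr (Equiv.refl (Fin 2)))
    (e.symm.prodCongr (Equiv.refl (Fin 2)))

end group_bs

section
variable {n : ℕ} {Q : Type} [TopologicalSpace Q] {τ : Q → Q} {Z : Set Q}

section group_null
variable {ι κ μ ν : Type} [Fintype ι] [DecidableEq ι] [Fintype κ] [DecidableEq κ]
  [Fintype μ] [DecidableEq μ] [Fintype ν] [DecidableEq ν]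
  {ρ : Matrix ι ι ℂ} {ρ₁ : Matrix κ κ ℂ} {ρ₂ : Matrix μ μ ℂ} {ρ₃ : Matrix ν ν ℂ}
  {u : Q → UI → MM ι} {v : Q → UI → MM κ} {w : Q → UI → MM μ} {x : Q → UI → MM ν}

private theorem group_null_comm (h : Null n (dg ρ ρ₁) τ Z (fun q t => bs (u q t) (v q t))) :
    Null n (dg ρ₁ ρ) τ Z (fun q t => bs (v q t) (u q t)) := by
  have := h.reindex (Equiv.sumComm ι κ)
  simpa only [group_bs_comm, group_dg_comm] using this

private theorem group_null_four
    (h : Null n (dg (dg ρ ρ₁) (dg ρ₂ ρ₃)) τ Z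
      (fun q t => bs (bs (u q t) (v q t)) (bs (w q t) (x q t)))) :
    Null n (dg (dg ρ ρ₂) (dg ρ₁ ρ₃)) τ Z
      (fun q t => bs (bs (u q t) (w q t)) (bs (v q t) (x q t))) := by
  have := h.reindex (Equiv.sumSumSumComm ι κ μ ν)
  simpa only [group_bs_four, group_dg_four] using this

private theorem group_null_self (hρ : IsRep n ρ) (hu : IsEl ρ τ Z u) :
    Null n (dg ρ ρ) τ Z (fun q t => bs (u q t) (u q t)⁻¹) := by
  rw [Null.mul_iff hρ hu hu.inv]
  have : (fun q t => u q t * (u q t)⁻¹) = fun (_ : Q) (_ : UI) => (1 : MM ι) := by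
    funext q t
    exact Matrix.mul_nonsing_inv _ ((Matrix.isUnit_iff_isUnit_det _).1 (hu.unit q t))
  rw [this]
  exact Null.one

private theorem group_inv_inv (hu : IsEl ρ τ Z u) (q : Q) (t : UI) : ((u q t)⁻¹)⁻¹ = u q t :=
  Matrix.nonsing_inv_nonsing_inv _ ((Matrix.isUnit_iff_isUnit_det _).1 (hu.unit q t))

private theorem group_null_self' (hρ : IsRep n ρ) (hu : IsEl ρ τ Z u) :
    Null n (dg ρ ρ) τ Z (fun q t => bs (u q t)⁻¹ (u q t)) :=
  group_null_comm (group_null_self hρ hu)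

private theorem group_bs_inv (hu : IsEl ρ τ Z u) (hv : IsEl ρ₁ τ Z v) (q : Q) (t : UI) :
    (bs (u q t) (v q t))⁻¹ = bs (u q t)⁻¹ (v q t)⁻¹ := bs_inv (hu.unit q t) (hv.unit q t)

private theorem group_bs_isUnit_left {a : MM ι} {b : MM κ} (h : IsUnit (bs a b)) : IsUnit a :=
  ((isUnit_bs_iff a b).1 h).1

end group_null

/-- block sum of objects -/
def KObj.add (x y : KObj n τ Z) : KObj n τ Z :=
  { ι := x.ι ⊕ y.ι
    ρ := dg x.ρ y.ρ
    u := fun q t => bs (x.u q t) (y.u q t)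
    hρ := x.hρ.dsum y.hρ
    hu := x.hu.bsum y.hu }

/-- inverse object -/
noncomputable def KObj.neg (x : KObj n τ Z) : KObj n τ Z :=
  { ι := x.ι
    ρ := x.ρ
    u := fun q t => (x.u q t)⁻¹
    hρ := x.hρ
    hu := x.hu.inv }

/-- zero object -/
def KObj.zero (n : ℕ) (τ : Q → Q) (Z : Set Q) : KObj n τ Z :=
  { ι := Empty
    ρ := 1
    u := fun _ _ => 1
    hρ := IsRep.one n
    hu := IsEl.const_one }

/-- stable equivalence of objects -/
def KEquiv (x y : KObj n τ Z) : Prop :=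
  Null n (x.add y.neg).ρ τ Z (x.add y.neg).u

private theorem group_symm {x y : KObj n τ Z} (h : KEquiv x y) : KEquiv y x := by
  have h1 : Null n (dg x.ρ y.ρ) τ Z (fun q t => (bs (x.u q t) (y.u q t)⁻¹)⁻¹) := h.inv
  have h2 : (fun q t => (bs (x.u q t) (y.u q t)⁻¹)⁻¹) =
      fun q t => bs (x.u q t)⁻¹ (y.u q t) := by
    funext q t
    rw [group_bs_inv x.hu y.hu.inv, group_inv_inv y.hu]
  rw [h2] at h1
  exact group_null_comm h1

private theorem group_trans {x y z : KObj n τ Z} (h : KEquiv x y) (h' : KEquiv y z) :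
    KEquiv x z := by
  have h1 : Null n (dg (dg x.ρ y.ρ) (dg y.ρ z.ρ)) τ Z
      (fun q t => bs (bs (x.u q t) (y.u q t)⁻¹) (bs (y.u q t) (z.u q t)⁻¹)) := Null.bsum h h'
  -- move `y` next to `y⁻¹`
  have h2 : Null n (dg (dg y.ρ z.ρ) (dg x.ρ y.ρ)) τ Z
      (fun q t => bs (bs (y.u q t) (z.u q t)⁻¹) (bs (x.u q t) (y.u q t)⁻¹)) :=
    group_null_comm h1
  have h3 : Null n (dg (dg z.ρ y.ρ) (dg x.ρ y.ρ)) τ Z
      (fun q t => bs (bs (z.u q t)⁻¹ (y.u q t)) (bs (x.u q t) (y.u q t)⁻¹)) := by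
    have := h2.reindex ((Equiv.sumComm y.ι z.ι).sumCongr (Equiv.refl (x.ι ⊕ y.ι)))
    have e1 : ∀ (a : MM y.ι) (b : MM z.ι) (c : MM (x.ι ⊕ y.ι)),
        (bs (bs a b) c).submatrix
          (Prod.map ((Equiv.sumComm y.ι z.ι).sumCongr (Equiv.refl (x.ι ⊕ y.ι))).symm id)
          (Prod.map ((Equiv.sumComm y.ι z.ι).sumCongr (Equiv.refl (x.ι ⊕ y.ι))).symm id) =
          bs (bs b a) c := by
      intro a b c
      ext ⟨(i | i) | i, a⟩ ⟨(j | j) | j, b⟩ <;> rfl
    have e2 : ∀ (a : Matrix y.ι y.ι ℂ) (b : Matrix z.ι z.ι ℂ)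
        (c : Matrix (x.ι ⊕ y.ι) (x.ι ⊕ y.ι) ℂ),
        (dg (dg a b) c).submatrix
          ((Equiv.sumComm y.ι z.ι).sumCongr (Equiv.refl (x.ι ⊕ y.ι))).symm
          ((Equiv.sumComm y.ι z.ι).sumCongr (Equiv.refl (x.ι ⊕ y.ι))).symm =
          dg (dg b a) c := by
      intro a b c
      ext ((i | i) | i) ((j | j) | j) <;> rfl
    simpa only [e1, e2] using this
  have h4 : Null n (dg (dg z.ρ x.ρ) (dg y.ρ y.ρ)) τ Z
      (fun q t => bs (bs (z.u q t)⁻¹ (x.u q t)) (bs (y.u q t) (y.u q t)⁻¹)) :=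
    group_null_four h3
  have h5 : Null n (dg z.ρ x.ρ) τ Z (fun q t => bs (z.u q t)⁻¹ (x.u q t)) :=
    Null.cancel (y.hρ.dsum y.hρ) (z.hu.inv.bsum x.hu) h4 (group_null_self y.hρ y.hu)
  exact group_null_comm h5

theorem kequiv_equivalence : Equivalence (KEquiv (n := n) (τ := τ) (Z := Z)) :=
  ⟨fun x => group_null_self x.hρ x.hu, group_symm, group_trans⟩

private theorem group_kequiv_reindex (x y : KObj n τ Z) (e : x.ι ≃ y.ι)
    (h : y.ρ = x.ρ.submatrix e.symm e.symm)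
    (h' : ∀ q t, y.u q t = (x.u q t).submatrix (Prod.map e.symm id) (Prod.map e.symm id)) :
    KEquiv x y := by
  have h1 := (group_null_self x.hρ x.hu).reindex (Equiv.sumCongr (Equiv.refl x.ι) e)
  simp only [group_bs_congr, group_dg_congr, ← group_inv_sub, ← h, ← h'] at h1
  exact h1

instance kSetoid (n : ℕ) (τ : Q → Q) (Z : Set Q) : Setoid (KObj n τ Z) :=
  ⟨KEquiv, kequiv_equivalence⟩

/-- the equivariant mod 2 `K₁`-group of matrix functions -/
def KG (n : ℕ) {Q : Type} [TopologicalSpace Q] (τ : Q → Q) (Z : Set Q) : Type 1 :=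
  Quotient (kSetoid n τ Z)

theorem KObj.add_congr {x x' y y' : KObj n τ Z} (h : KEquiv x x') (h' : KEquiv y y') :
    KEquiv (x.add y) (x'.add y') := by
  have h1 : Null n (dg (dg x.ρ x'.ρ) (dg y.ρ y'.ρ)) τ Z
      (fun q t => bs (bs (x.u q t) (x'.u q t)⁻¹) (bs (y.u q t) (y'.u q t)⁻¹)) := Null.bsum h h'
  have h2 := group_null_four h1
  have h3 : (fun q t => bs (bs (x.u q t) (y.u q t)) (bs (x'.u q t)⁻¹ (y'.u q t)⁻¹)) =
      fun q t => bs (bs (x.u q t) (y.u q t)) (bs (x'.u q t) (y'.u q t))⁻¹ := by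
    funext q t
    rw [group_bs_inv x'.hu y'.hu]
  rw [h3] at h2
  exact h2

theorem KObj.neg_congr {x x' : KObj n τ Z} (h : KEquiv x x') : KEquiv x.neg x'.neg := by
  have h1 : Null n (dg x.ρ x'.ρ) τ Z (fun q t => (bs (x.u q t) (x'.u q t)⁻¹)⁻¹) := h.inv
  have h2 : (fun q t => (bs (x.u q t) (x'.u q t)⁻¹)⁻¹) =
      fun q t => bs (x.u q t)⁻¹ ((x'.u q t)⁻¹)⁻¹ := by
    funext q t
    rw [group_bs_inv x.hu x'.hu.inv]
  rw [h2] at h1
  exact h1

theorem KObj.add_assoc (x y z : KObj n τ Z) :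
    KEquiv ((x.add y).add z) (x.add (y.add z)) :=
  group_kequiv_reindex _ _ (Equiv.sumAssoc x.ι y.ι z.ι)
    (group_dg_assoc x.ρ y.ρ z.ρ).symm (fun q t => (group_bs_assoc (x.u q t) (y.u q t) (z.u q t)).symm)

theorem KObj.add_comm (x y : KObj n τ Z) : KEquiv (x.add y) (y.add x) :=
  group_kequiv_reindex _ _ (Equiv.sumComm x.ι y.ι)
    (group_dg_comm x.ρ y.ρ).symm (fun q t => (group_bs_comm (x.u q t) (y.u q t)).symm)

theorem KObj.zero_add (x : KObj n τ Z) : KEquiv ((KObj.zero n τ Z).add x) x :=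
  group_kequiv_reindex _ _ (Equiv.emptySum Empty x.ι)
    (by ext i j; rfl) (fun q t => by ext ⟨i, a⟩ ⟨j, b⟩; rfl)

theorem KObj.neg_add (x : KObj n τ Z) : KEquiv (x.neg.add x) (KObj.zero n τ Z) := by
  have h1 : Null n (1 : Matrix Empty Empty ℂ) τ Z (fun _ _ => ((1 : MM Empty))⁻¹) := by
    rw [inv_one]
    exact Null.one
  exact Null.bsum (group_null_self' x.hρ x.hu) h1

/-- class of an object -/
def KG.mkO (x : KObj n τ Z) : KG n τ Z := Quotient.mk (kSetoid n τ Z) x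

instance : Add (KG n τ Z) :=
  ⟨fun a b => Quotient.map₂ KObj.add (fun _ _ h _ _ h' => KObj.add_congr h h') a b⟩

instance : Zero (KG n τ Z) := ⟨KG.mkO (KObj.zero n τ Z)⟩

noncomputable instance : Neg (KG n τ Z) :=
  ⟨fun a => Quotient.map KObj.neg (fun _ _ h => KObj.neg_congr h) a⟩

noncomputable instance : AddCommGroup (KG n τ Z) where
  add_assoc a b c := by
    induction a using Quotient.ind; induction b using Quotient.ind; induction c using Quotient.ind
    exact Quotient.sound (KObj.add_assoc _ _ _)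
  zero_add a := by
    induction a using Quotient.ind
    exact Quotient.sound (KObj.zero_add _)
  add_zero a := by
    induction a using Quotient.ind
    exact Quotient.sound (kequiv_equivalence.trans (KObj.add_comm _ _) (KObj.zero_add _))
  add_comm a b := by
    induction a using Quotient.ind; induction b using Quotient.ind
    exact Quotient.sound (KObj.add_comm _ _)
  neg_add_cancel a := by
    induction a using Quotient.ind
    exact Quotient.sound (KObj.neg_add _)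
  nsmul := nsmulRec
  zsmul := zsmulRec

/-- class of an element -/
def KG.mk {ι : Type} [Fintype ι] [DecidableEq ι] {ρ : Matrix ι ι ℂ} {u : Q → UI → MM ι}
    (hρ : IsRep n ρ) (hu : IsEl ρ τ Z u) : KG n τ Z :=
  KG.mkO { ι := ι, ρ := ρ, u := u, hρ := hρ, hu := hu }

theorem KG.ind (x : KG n τ Z) : ∃ (ι : Type) (_ : Fintype ι) (_ : DecidableEq ι)
    (ρ : Matrix ι ι ℂ) (u : Q → UI → MM ι) (hρ : IsRep n ρ) (hu : IsEl ρ τ Z u),
    x = KG.mk hρ hu := by
  induction x using Quotient.ind with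
  | _ x => exact ⟨x.ι, x.fi, x.de, x.ρ, x.u, x.hρ, x.hu, rfl⟩

section mk
variable {ι κ : Type} [Fintype ι] [DecidableEq ι] [Fintype κ] [DecidableEq κ]
  {ρ : Matrix ι ι ℂ} {ρ' : Matrix κ κ ℂ} {u v : Q → UI → MM ι} {w : Q → UI → MM κ}

theorem KG.mk_congr {ρ₂ : Matrix ι ι ℂ} (hρ : IsRep n ρ) (hu : IsEl ρ τ Z u) (hρ₂ : IsRep n ρ₂)
    (hv : IsEl ρ₂ τ Z v) (h : ρ = ρ₂) (h' : ∀ q t, u q t = v q t) :
    KG.mk hρ hu = KG.mk hρ₂ hv := by
  subst h
  obtain rfl : u = v := funext fun q => funext fun t => h' q t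
  rfl

theorem KG.mk_eq_zero_iff (hρ : IsRep n ρ) (hu : IsEl ρ τ Z u) :
    KG.mk hρ hu = 0 ↔ Null n ρ τ Z u := by
  constructor
  · intro h
    have h1 : Null n (dg ρ (1 : Matrix Empty Empty ℂ)) τ Z
        (fun q t => bs (u q t) ((1 : MM Empty))⁻¹) := Quotient.exact h
    simp only [inv_one] at h1
    exact Null.cancel_one (IsRep.one n) h1
  · intro h
    have h1 : Null n (1 : Matrix Empty Empty ℂ) τ Z (fun _ _ => ((1 : MM Empty))⁻¹) := by
      rw [inv_one]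
      exact Null.one
    exact Quotient.sound (Null.bsum h h1)

theorem KG.mk_bs (hρ : IsRep n ρ) (hu : IsEl ρ τ Z u) (hρ' : IsRep n ρ') (hw : IsEl ρ' τ Z w) :
    KG.mk (hρ.dsum hρ') (hu.bsum hw) = KG.mk hρ hu + KG.mk hρ' hw := rfl

theorem KG.mk_one (hρ : IsRep n ρ) :
    KG.mk hρ (IsEl.const_one (ρ := ρ) (τ := τ) (Z := Z)) = 0 :=
  (KG.mk_eq_zero_iff hρ _).2 Null.one

theorem KG.mk_ht (hρ : IsRep n ρ) (hu : IsEl ρ τ Z u) (hv : IsEl ρ τ Z v) (h : Ht ρ τ Z u v) :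
    KG.mk hρ hu = KG.mk hρ hv :=
  Quotient.sound (Null.of_ht (h.bsum (Ht.refl hv.inv)) (group_null_self hρ hv))

theorem KG.mk_mul (hρ : IsRep n ρ) (hu : IsEl ρ τ Z u) (hv : IsEl ρ τ Z v) :
    KG.mk hρ (hu.mul hv) = KG.mk hρ hu + KG.mk hρ hv := by
  rw [← KG.mk_bs hρ hu hρ hv, KG.mk_ht (hρ.dsum hρ) (hu.bsum hv)
    ((hu.mul hv).bsum IsEl.const_one) (ht_rot hu hv), KG.mk_bs hρ (hu.mul hv) hρ IsEl.const_one,
    KG.mk_one, add_zero]

theorem KG.mk_inv (hρ : IsRep n ρ) (hu : IsEl ρ τ Z u) :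
    KG.mk hρ hu.inv = - KG.mk hρ hu := rfl

theorem KG.mk_reindex (hρ : IsRep n ρ) (hu : IsEl ρ τ Z u) (e : ι ≃ κ) :
    KG.mk (hρ.reindex e) (hu.reindex e) = KG.mk hρ hu :=
  (Quotient.sound (group_kequiv_reindex
    { ι := ι, ρ := ρ, u := u, hρ := hρ, hu := hu }
    { ι := κ, ρ := _, u := _, hρ := hρ.reindex e, hu := hu.reindex e } e rfl
    fun _ _ => rfl)).symm

/-- the partial isometry lemma -/
theorem KG.mk_part (hρ : IsRep n ρ) (hρ' : IsRep n ρ') (hu : IsEl ρ τ Z u)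
    {w : Q → Matrix κ ι ℂ} {w' : Q → Matrix ι κ ℂ} (h : PartData ρ ρ' τ u w w') :
    KG.mk hρ' (h.isEl hu) = KG.mk hρ hu := by
  have h1 := KG.mk_ht (hρ.dsum hρ') (hu.bsum IsEl.const_one)
    (IsEl.const_one.bsum (h.isEl hu)) (h.ht hu)
  rw [KG.mk_bs hρ hu hρ' IsEl.const_one, KG.mk_bs hρ IsEl.const_one hρ' (h.isEl hu), KG.mk_one,
    KG.mk_one, add_zero, _root_.zero_add] at h1
  exact h1.symm

/-- an element over a group relative to everything is zero -/
theorem KG.eq_zero_of_univ (x : KG n τ (Set.univ : Set Q)) : x = 0 := by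
  obtain ⟨ι, _, _, ρ, u, hρ, hu, rfl⟩ := KG.ind x
  rw [KG.mk_eq_zero_iff]
  obtain rfl : u = fun _ _ => 1 := funext fun q => funext fun t => hu.rel q trivial t
  exact Null.one

end mk

/-- Universal property: additive functions on objects killing null objects descend. -/
noncomputable def KG.lift {M : Type*} [AddCommGroup M] (F : KObj n τ Z → M)
    (hadd : ∀ x y, F (x.add y) = F x + F y) (hnull : ∀ x, Null n x.ρ τ Z x.u → F x = 0) :
    KG n τ Z →+ M :=
  AddMonoidHom.mk' (fun a => Quotient.lift F (by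
    intro x y h
    have h1 : F (x.add y.neg) = 0 := hnull _ h
    have h2 : F (y.add y.neg) = 0 := hnull _ (kequiv_equivalence.refl y)
    rw [hadd] at h1 h2
    exact add_right_cancel (h1.trans h2.symm)) a) (by
    intro a b
    induction a using Quotient.ind; induction b using Quotient.ind
    exact hadd _ _)

theorem KG.lift_mk {M : Type*} [AddCommGroup M] (F : KObj n τ Z → M)
    (hadd : ∀ x y, F (x.add y) = F x + F y) (hnull : ∀ x, Null n x.ρ τ Z x.u → F x = 0)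
    {ι : Type} [Fintype ι] [DecidableEq ι] {ρ : Matrix ι ι ℂ} {u : Q → UI → MM ι}
    (hρ : IsRep n ρ) (hu : IsEl ρ τ Z u) :
    KG.lift F hadd hnull (KG.mk hρ hu) = F { ι := ι, ρ := ρ, u := u, hρ := hρ, hu := hu } := rfl

end

end Pool.Agent.CRC
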