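import Pool.Agent.Lib.MP_13800a_gt.Group

/-! TASK Homs: the homomorphisms `Lh`, `res`, `pull`, `infl` and their commutation rules. -/

set_option autoImplicit false

open scoped Matrix Kronecker
open Matrix

namespace Pool.Agent.CRC

section
variable {n n1 n2 : ℕ} {Q Q1 Q2 : Type} [TopologicalSpace Q] [TopologicalSpace Q1]
  [TopologicalSpace Q2] {τ : Q → Q} {τ1 : Q1 → Q1} {τ2 : Q2 → Q2}
  {Z : Set Q} {Z1 : Set Q1} {Z2 : Set Q2}

/-- the object `(ζ_n ρ, u)` -/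
noncomputable def KObj.tw (x : KObj n τ Z) : KObj n τ Z :=
  { ι := x.ι
    ρ := zt n ^ 1 • x.ρ
    u := x.u
    hρ := x.hρ.smul 1
    hu := x.hu.smulRep _ }

private theorem homs_null_smul {ι : Type} [Fintype ι] [DecidableEq ι] {ρ : Matrix ι ι ℂ}
    {u : Q → UI → MM ι} (h : Null n ρ τ Z u) (k : ℕ) : Null n (zt n ^ k • ρ) τ Z u := by
  obtain ⟨κ, fκ, dκ, σ, U, hσ, hU, h0, h1⟩ := h
  refine ⟨κ, fκ, dκ, zt n ^ k • σ, U, hσ.smul k, ?_, h0, h1⟩
  rw [← dg_smul]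
  exact hU.smulRep _

theorem KObj.tw_add (x y : KObj n τ Z) :
    KG.mkO (x.add y).tw = KG.mkO x.tw + KG.mkO y.tw := by
  have h := KG.mk_bs (x.hρ.smul 1) (x.hu.smulRep (zt n ^ 1)) (y.hρ.smul 1)
    (y.hu.smulRep (zt n ^ 1))
  refine Eq.trans ?_ h
  exact KG.mk_congr (x.add y).tw.hρ (x.add y).tw.hu _ _ (dg_smul _ _ _) (fun _ _ => rfl)

theorem KObj.tw_null (x : KObj n τ Z) (h : Null n x.ρ τ Z x.u) : KG.mkO x.tw = 0 :=
  (KG.mk_eq_zero_iff x.tw.hρ x.tw.hu).mpr (homs_null_smul h 1)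

/-- the twist `L : (ρ, u) ↦ (ζ_n ρ, u)` -/
noncomputable def Lh : AddMonoid.End (KG n τ Z) :=
  KG.lift (fun x => KG.mkO x.tw) KObj.tw_add KObj.tw_null

theorem Lh_pow_mk (k : ℕ) {ι : Type} [Fintype ι] [DecidableEq ι] {ρ : Matrix ι ι ℂ}
    {u : Q → UI → MM ι} (hρ : IsRep n ρ) (hu : IsEl ρ τ Z u) :
    (Lh ^ k) (KG.mk hρ hu) = KG.mk (hρ.smul k) (hu.smulRep (zt n ^ k)) := by
  induction k with
  | zero =>
    rw [pow_zero]
    exact KG.mk_congr _ _ _ _ (by rw [pow_zero, one_smul]) (fun _ _ => rfl)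
  | succ k ih =>
    rw [pow_succ']
    refine Eq.trans (congrArg (fun z => (Lh : AddMonoid.End (KG n τ Z)) z) ih) ?_
    refine Eq.trans (KG.lift_mk _ _ _ (hρ.smul k) (hu.smulRep (zt n ^ k))) ?_
    exact KG.mk_congr _ _ _ _ (by simp only; rw [smul_smul, ← pow_add, add_comm])
      (fun _ _ => rfl)

theorem Lh_pow_n : (Lh : AddMonoid.End (KG n τ Z)) ^ n = 1 := by
  refine AddMonoidHom.ext (fun x => ?_)
  obtain ⟨ι, fι, dι, ρ, u, hρ, hu, rfl⟩ := KG.ind x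
  refine (Lh_pow_mk n hρ hu).trans ?_
  exact KG.mk_congr _ _ _ _ (by rw [zt_pow_self, one_smul]) (fun _ _ => rfl)

/-- Data for restriction maps: `j : Q1 → Q` continuous with `j ∘ τ1 = τ^m ∘ j`. -/
structure ResData (n n1 m : ℕ) (τ : Q → Q) (τ1 : Q1 → Q1) (Z : Set Q) (Z1 : Set Q1)
    (j : Q1 → Q) : Prop where
  dvd : n ∣ m * n1
  cont : Continuous j
  eqv : ∀ q, j (τ1 q) = τ^[m] (j q)
  rel : ∀ q ∈ Z1, j q ∈ Z

theorem IsEl.res {m : ℕ} {j : Q1 → Q} (h : ResData n n1 m τ τ1 Z Z1 j)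
    {ι : Type} [Fintype ι] [DecidableEq ι] {ρ : Matrix ι ι ℂ}
    {u : Q → UI → MM ι} (hu : IsEl ρ τ Z u) :
    IsEl (ρ ^ m) τ1 Z1 (fun q t => u (j q) t) where
  cont := hu.cont.comp ((h.cont.comp continuous_fst).prodMk continuous_snd)
  unit := fun q t => hu.unit _ _
  zero := fun q => hu.zero _
  one := fun q => hu.one _
  rel := fun q hq t => hu.rel _ (h.rel q hq) t
  eqv := fun q t => by rw [h.eqv q]; exact hu.eqv_iter m (j q) t

/-- the object `(ρ ^ m, u ∘ j)` -/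
noncomputable def KObj.res {m : ℕ} {j : Q1 → Q} (h : ResData n n1 m τ τ1 Z Z1 j)
    (x : KObj n τ Z) : KObj n1 τ1 Z1 :=
  { ι := x.ι
    ρ := x.ρ ^ m
    u := fun q t => x.u (j q) t
    hρ := x.hρ.pow h.dvd
    hu := x.hu.res h }

theorem KObj.res_add {m : ℕ} {j : Q1 → Q} (h : ResData n n1 m τ τ1 Z Z1 j) (x y : KObj n τ Z) :
    KG.mkO ((x.add y).res h) = KG.mkO (x.res h) + KG.mkO (y.res h) := by
  have h1 := KG.mk_bs (x.res h).hρ (x.res h).hu (y.res h).hρ (y.res h).hu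
  refine Eq.trans ?_ h1
  exact KG.mk_congr ((x.add y).res h).hρ ((x.add y).res h).hu _ _ (dg_pow _ _ _) (fun _ _ => rfl)

theorem KObj.res_null {m : ℕ} {j : Q1 → Q} (h : ResData n n1 m τ τ1 Z Z1 j) (x : KObj n τ Z)
    (hx : Null n x.ρ τ Z x.u) : KG.mkO (x.res h) = 0 := by
  refine (KG.mk_eq_zero_iff (x.res h).hρ (x.res h).hu).mpr ?_
  obtain ⟨κ, fκ, dκ, σ, U, hσ, hU, h0, h1⟩ := hx
  have hR : ResData n n1 m (Prod.map τ (id : UI → UI)) (Prod.map τ1 (id : UI → UI))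
      (Z ×ˢ (Set.univ : Set UI)) (Z1 ×ˢ (Set.univ : Set UI)) (Prod.map j (id : UI → UI)) := by
    refine ⟨h.dvd, h.cont.prodMap continuous_id, ?_, ?_⟩
    · rintro ⟨q, s⟩
      rw [Prod.map_iterate, Function.iterate_id]
      simp only [Prod.map_apply, id_eq]
      rw [h.eqv q]
    · rintro ⟨q, s⟩ hq
      exact ⟨h.rel q hq.1, Set.mem_univ _⟩
  refine ⟨κ, fκ, dκ, σ ^ m, fun p t => U (Prod.map j (id : UI → UI) p) t, hσ.pow h.dvd, ?_, ?_, ?_⟩
  · have h2 := hU.res hR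
    rw [dg_pow] at h2
    exact h2
  · intro q t
    exact h0 (j q) t
  · intro q t
    exact h1 (j q) t

/-- the restriction homomorphism `(ρ, u) ↦ (ρ ^ m, u ∘ j)` -/
noncomputable def res {m : ℕ} {j : Q1 → Q} (h : ResData n n1 m τ τ1 Z Z1 j) :
    KG n τ Z →+ KG n1 τ1 Z1 :=
  KG.lift (fun x => KG.mkO (x.res h)) (KObj.res_add h) (KObj.res_null h)

theorem res_mk {m : ℕ} {j : Q1 → Q} (h : ResData n n1 m τ τ1 Z Z1 j)
    {ι : Type} [Fintype ι] [DecidableEq ι] {ρ : Matrix ι ι ℂ}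
    {u : Q → UI → MM ι} (hρ : IsRep n ρ) (hu : IsEl ρ τ Z u) :
    res h (KG.mk hρ hu) = KG.mk (hρ.pow h.dvd) (hu.res h) := rfl

/-- commutation with twists -/
theorem res_Lh {m : ℕ} {j : Q1 → Q} (h : ResData n n1 m τ τ1 Z Z1 j) (hn : n ≠ 0) (hn1 : n1 ≠ 0)
    {k k' : ℕ} (hk : k * m * n1 = k' * n) (x : KG n τ Z) :
    res h ((Lh ^ k) x) = (Lh ^ k') (res h x) := by
  obtain ⟨ι, fι, dι, ρ, u, hρ, hu, rfl⟩ := KG.ind x
  rw [Lh_pow_mk, res_mk, res_mk, Lh_pow_mk]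
  refine KG.mk_congr _ _ _ _ ?_ (fun _ _ => rfl)
  rw [smul_pow, ← pow_mul]
  congr 1
  unfold zt
  rw [← Complex.exp_nat_mul, ← Complex.exp_nat_mul]
  congr 1
  have h1 : (n : ℂ) ≠ 0 := Nat.cast_ne_zero.mpr hn
  have h2 : (n1 : ℂ) ≠ 0 := Nat.cast_ne_zero.mpr hn1
  have h3 : (k : ℂ) * m * n1 = k' * n := by exact_mod_cast hk
  push_cast
  field_simp
  linear_combination h3

theorem res_res {m m' : ℕ} {j : Q1 → Q} {j' : Q2 → Q1} (h : ResData n n1 m τ τ1 Z Z1 j)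
    (h' : ResData n1 n2 m' τ1 τ2 Z1 Z2 j') (h'' : ResData n n2 (m * m') τ τ2 Z Z2 (j ∘ j'))
    (x : KG n τ Z) : res h' (res h x) = res h'' x := by
  obtain ⟨ι, fι, dι, ρ, u, hρ, hu, rfl⟩ := KG.ind x
  rw [res_mk, res_mk, res_mk]
  exact KG.mk_congr _ _ _ _ (by rw [← pow_mul]) (fun _ _ => rfl)

/-- Data for pull backs. -/
structure PullData (τ : Q → Q) (τ1 : Q1 → Q1) (Z : Set Q) (Z1 : Set Q1) (j : Q1 → Q) : Prop where
  cont : Continuous j
  eqv : ∀ q, j (τ1 q) = τ (j q)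
  rel : ∀ q ∈ Z1, j q ∈ Z

theorem PullData.toRes (n : ℕ) {j : Q1 → Q} (h : PullData τ τ1 Z Z1 j) :
    ResData n n 1 τ τ1 Z Z1 j :=
  ⟨by simp, h.cont, by simpa using h.eqv, h.rel⟩

/-- pull back -/
noncomputable def pull {j : Q1 → Q} (h : PullData τ τ1 Z Z1 j) : KG n τ Z →+ KG n τ1 Z1 :=
  res (h.toRes n)

theorem pull_mk {j : Q1 → Q} (h : PullData τ τ1 Z Z1 j)
    {ι : Type} [Fintype ι] [DecidableEq ι] {ρ : Matrix ι ι ℂ}
    {u : Q → UI → MM ι} (hρ : IsRep n ρ) (hu : IsEl ρ τ Z u) :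
    pull h (KG.mk hρ hu) = KG.mk hρ (hu.comp h.cont h.eqv h.rel) := by
  unfold pull
  rw [res_mk]
  exact KG.mk_congr _ _ _ _ (pow_one _) (fun _ _ => rfl)

theorem pull_Lh {j : Q1 → Q} (h : PullData τ τ1 Z Z1 j) (k : ℕ) (x : KG n τ Z) :
    pull h ((Lh ^ k) x) = (Lh ^ k) (pull h x) := by
  obtain ⟨ι, fι, dι, ρ, u, hρ, hu, rfl⟩ := KG.ind x
  rw [Lh_pow_mk, pull_mk, pull_mk, Lh_pow_mk]

theorem pull_pull {j : Q1 → Q} {j' : Q2 → Q1} (h : PullData τ τ1 Z Z1 j)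
    (h' : PullData τ1 τ2 Z1 Z2 j') (h'' : PullData τ τ2 Z Z2 (j ∘ j')) (x : KG n τ Z) :
    pull h' (pull h x) = pull h'' x := by
  obtain ⟨ι, fι, dι, ρ, u, hρ, hu, rfl⟩ := KG.ind x
  rw [pull_mk, pull_mk, pull_mk]

theorem pull_congr {j j' : Q1 → Q} (h : PullData τ τ1 Z Z1 j) (h' : PullData τ τ1 Z Z1 j')
    (hj : ∀ q, j q = j' q) (x : KG n τ Z) : pull h x = pull h' x := by
  obtain ⟨ι, fι, dι, ρ, u, hρ, hu, rfl⟩ := KG.ind x
  rw [pull_mk, pull_mk]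
  exact KG.mk_congr _ _ _ _ rfl (fun q t => by rw [hj q])

theorem pull_id (h : PullData τ τ Z Z (id : Q → Q)) (x : KG n τ Z) : pull h x = x := by
  obtain ⟨ι, fι, dι, ρ, u, hρ, hu, rfl⟩ := KG.ind x
  rw [pull_mk]

/-- homotopy invariance of pull backs -/
theorem pull_homotopy {F : Q1 × UI → Q} (hF : Continuous F)
    (he : ∀ q s, F (τ1 q, s) = τ (F (q, s))) (hZ : ∀ q ∈ Z1, ∀ s, F (q, s) ∈ Z)
    (h0 : PullData τ τ1 Z Z1 (fun q => F (q, 0))) (h1 : PullData τ τ1 Z Z1 (fun q => F (q, 1)))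
    (x : KG n τ Z) : pull h0 x = pull h1 x := by
  obtain ⟨ι, fι, dι, ρ, u, hρ, hu, rfl⟩ := KG.ind x
  rw [pull_mk, pull_mk]
  refine KG.mk_ht _ _ _ ⟨fun p t => u (F p) t, ?_, fun _ _ => rfl, fun _ _ => rfl⟩
  exact hu.comp hF (fun p => he p.1 p.2) (fun p hp => hZ p.1 hp.1 p.2)

/-- forgetting part of the relative set -/
theorem PullData.rel_id {Z' : Set Q} (h : Z' ⊆ Z) : PullData τ τ Z Z' (id : Q → Q) :=
  ⟨continuous_id, fun _ => rfl, fun _ hq => h hq⟩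

/-- inflation `KG n → KG (n g)` -/
noncomputable def infl (g : ℕ) : KG n τ Z →+ KG (n * g) τ Z :=
  res (m := 1) (j := (id : Q → Q)) ⟨by simp, continuous_id, by simp, fun _ h => h⟩

theorem infl_Lh (g : ℕ) (hn : n ≠ 0) (hg : g ≠ 0) (k : ℕ) (x : KG n τ Z) :
    infl g ((Lh ^ k) x) = (Lh ^ (g * k)) (infl g x) :=
  res_Lh _ hn (mul_ne_zero hn hg) (by ring) x

/-- (A7) If there is an equivariant function without zeros of weight `ζ_n^k` then `L^k = id`. -/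
theorem Lh_pow_eq_self {s : Q → ℂ} (hs : Continuous s) (hs0 : ∀ q, s q ≠ 0) {k : ℕ}
    (he : ∀ q, s (τ q) = zt n ^ k * s q) (x : KG n τ Z) : (Lh ^ k) x = x := by
  obtain ⟨ι, fι, dι, ρ, u, hρ, hu, rfl⟩ := KG.ind x
  rw [Lh_pow_mk]
  have hmul : ∀ q, s q * (s q)⁻¹ = 1 := fun q => mul_inv_cancel₀ (hs0 q)
  have hz : ∀ q, ((s q)⁻¹ • (1 : Matrix ι ι ℂ)) * (s q • (1 : Matrix ι ι ℂ)) = 1 := by
    intro q
    rw [Matrix.smul_mul, Matrix.one_mul, smul_smul, mul_comm, hmul q, one_smul]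
  have hz' : ∀ q, (s q • (1 : Matrix ι ι ℂ)) * ((s q)⁻¹ • (1 : Matrix ι ι ℂ)) = 1 := by
    intro q
    rw [Matrix.smul_mul, Matrix.one_mul, smul_smul, hmul q, one_smul]
  have hP : PartData ρ (zt n ^ k • ρ) τ u (fun q => s q • (1 : Matrix ι ι ℂ))
      (fun q => (s q)⁻¹ • (1 : Matrix ι ι ℂ)) := by
    refine ⟨hs.smul continuous_const, (hs.inv₀ hs0).smul continuous_const, ?_, ?_, ?_, ?_, ?_, ?_⟩
    · intro q
      rw [hz' q, Matrix.one_mul]
    · intro q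
      rw [hz q, Matrix.one_mul]
    · intro q
      rw [Matrix.smul_mul, Matrix.one_mul, Matrix.smul_mul, Matrix.mul_smul, Matrix.mul_one,
        smul_smul, he q]
    · intro q
      rw [Matrix.smul_mul, Matrix.one_mul, Matrix.mul_smul, Matrix.mul_one, smul_smul, he q]
      congr 1
      have h1 : zt n ^ k ≠ 0 := pow_ne_zero _ (zt_ne_zero n)
      have h2 := hs0 q
      field_simp
    · intro q t
      rw [hz q, sub_self, amp_zero, Matrix.mul_zero]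
    · intro q t
      rw [hz q, sub_self, amp_zero, Matrix.zero_mul]
  rw [← KG.mk_part hρ (hρ.smul k) hu hP]
  refine KG.mk_congr _ _ _ _ rfl (fun q t => ?_)
  unfold conjEl
  rw [hz' q, sub_self, amp_zero, add_zero, amp_smul, amp_smul, amp_one, Matrix.smul_mul,
    Matrix.one_mul, Matrix.mul_smul, Matrix.mul_one, smul_smul, mul_comm, hmul q, one_smul]

/-- the unit class, represented by `diag (e^{2π i t}, 1)` on the trivial representation -/
noncomputable def oneU : UI → MM Unit := fun t =>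
  Matrix.diagonal (fun p => if p.2 = 0 then Complex.exp (2 * Real.pi * Complex.I * (t : ℝ)) else 1)

theorem isEl_oneU : IsEl (1 : Matrix Unit Unit ℂ) τ (∅ : Set Q) (fun _ t => oneU t) where
  cont := by
    unfold oneU
    refine Continuous.matrix_diagonal (continuous_pi (fun p => ?_))
    by_cases hp : p.2 = 0
    · simp only [hp, if_true]
      fun_prop
    · simp only [hp, if_false]
      exact continuous_const
  unit := by
    intro q t
    unfold oneU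
    rw [Matrix.isUnit_iff_isUnit_det, Matrix.det_diagonal, isUnit_iff_ne_zero,
      Finset.prod_ne_zero_iff]
    intro p _
    split_ifs
    · exact Complex.exp_ne_zero _
    · exact one_ne_zero
  zero := by
    intro q
    refine ⟨1, ?_⟩
    rw [amp_one]
    unfold oneU
    simp
  one := by
    intro q
    unfold oneU
    have h1 : Complex.exp (2 * Real.pi * Complex.I * (((1 : UI) : ℝ) : ℂ)) = 1 := by
      rw [Set.Icc.coe_one, Complex.ofReal_one, mul_one]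
      exact Complex.exp_two_pi_mul_I
    simp only [h1, ite_self]
    exact Matrix.diagonal_one
  rel := fun q hq => absurd hq (Set.notMem_empty q)
  eqv := by
    intro q t
    rw [amp_one, Matrix.mul_one, Matrix.one_mul]

noncomputable def oneK (n : ℕ) (τ : Q → Q) : KG n τ (∅ : Set Q) :=
  KG.mk (IsRep.one n) (isEl_oneU (τ := τ))

theorem pull_oneK {j : Q1 → Q} (h : PullData τ τ1 (∅ : Set Q) (∅ : Set Q1) j) :
    pull h (oneK n τ) = oneK n τ1 := by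
  unfold oneK
  rw [pull_mk]

theorem infl_oneK (g : ℕ) : infl g (oneK n τ) = oneK (n * g) τ := by
  unfold oneK infl
  rw [res_mk]
  exact KG.mk_congr _ _ _ _ (one_pow _) (fun _ _ => rfl)

/-- `(1+L)^m · one ≠ 0` -/
def Good (n : ℕ) (τ : Q → Q) (m : ℕ) : Prop :=
  ((1 + Lh : AddMonoid.End (KG n τ (∅ : Set Q))) ^ m) (oneK n τ) ≠ 0

end

end Pool.Agent.CRC
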