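import Pool.Agent.Lib.MP_13800a_gt.Mg.G003
import Pool.Agent.Lib.MP_13800a_gt.Mg.G004

/-! TASK M3: all 4-subsets, and the resulting cover. -/

set_option autoImplicit false

namespace Pool.Agent.CRC

open Set Topology

private theorem kill_list (Y : State) (δ η : ℝ) (hη : 0 < η) (hc : δ < Y.ratio) {m : ℕ}
    (φ : Fin m → Y.S → ℝ) (hφ : IsFam φ) (l : List (Fin 4 → Fin m))
    (hl : ∀ ι ∈ l, Function.Injective ι) (hlen : l.length * η ≤ δ) :
    ∃ (Z : State) (g : Cov Z Y) (φ' : Fin m → Z.S → ℝ), IsFam φ' ∧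
      (∀ i z, 0 < φ' i z → 0 < φ i (g.q z)) ∧
      (∀ ι ∈ l, ∀ z, ∃ a, φ' (ι a) z = 0) ∧
      Y.ratio - l.length * η ≤ Z.ratio := by
  induction l with
  | nil =>
    exact ⟨Y, Cov.refl Y, φ, hφ, fun i z h => h, fun ι hι => absurd hι (by simp), by simp⟩
  | cons ι l ih =>
    have hlen' : ((l.length : ℝ) + 1) * η ≤ δ := by
      rw [List.length_cons] at hlen
      push_cast at hlen
      exact hlen
    obtain ⟨Z, g, φ', hφ', hpos, hzero, hr⟩ := ih (fun κ hκ => hl κ (List.mem_cons_of_mem _ hκ))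
      (by nlinarith)
    obtain ⟨W, h, φ'', hφ'', hpos', hzero', hr'⟩ :=
      kill_one Z η hη (by nlinarith) φ' hφ' ι (hl ι List.mem_cons_self)
    refine ⟨W, g.comp h, φ'', hφ'', fun i z hz => hpos i _ (hpos' i z hz), ?_, ?_⟩
    · intro κ hκ z
      rcases List.mem_cons.1 hκ with rfl | hκ'
      · exact hzero' z
      · obtain ⟨a, ha⟩ := hzero κ hκ' (h.q z)
        refine ⟨a, le_antisymm (not_lt.1 fun hlt => ?_) (hφ''.nonneg _ _)⟩
        exact (hpos' _ _ hlt).ne' ha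
    · rw [List.length_cons]
      push_cast
      linarith

/-- induction over a list (or `Finset`) of injective maps `Fin 4 → Fin m` -/
theorem kill_all (Y : State) (δ : ℝ) (hδ : 0 < δ) (hc : δ < Y.ratio) {m : ℕ}
    (φ : Fin m → Y.S → ℝ) (hφ : IsFam φ) :
    ∃ (Z : State) (g : Cov Z Y) (φ' : Fin m → Z.S → ℝ), IsFam φ' ∧
      (∀ i z, 0 < φ' i z → 0 < φ i (g.q z)) ∧
      (∀ ι : Fin 4 → Fin m, Function.Injective ι → ∀ z, ∃ a, φ' (ι a) z = 0) ∧
      Y.ratio - δ ≤ Z.ratio := by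
  classical
  set l : List (Fin 4 → Fin m) :=
    (Finset.univ.filter fun ι : Fin 4 → Fin m => Function.Injective ι).toList with hl
  have hmem : ∀ ι, ι ∈ l ↔ Function.Injective ι := fun ι => by
    rw [hl, Finset.mem_toList, Finset.mem_filter]
    simp
  have hpos : (0 : ℝ) < l.length + 1 := by positivity
  have hη0 : 0 < δ / (l.length + 1) := div_pos hδ hpos
  have hle : (l.length : ℝ) * (δ / (l.length + 1)) ≤ δ := by
    rw [← mul_div_assoc, div_le_iff₀ hpos]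
    nlinarith
  obtain ⟨Z, g, φ', hφ', hp, hz, hr⟩ := kill_list Y δ (δ / (l.length + 1)) hη0 hc φ hφ l
    (fun ι hι => (hmem ι).1 hι) hle
  exact ⟨Z, g, φ', hφ', hp, fun ι hι => hz ι ((hmem ι).2 hι), by linarith⟩

/-- first a `State.step` with `T0 = ∅` to make `k` strictly bigger, then `exists_fam`, `kill_all` -/
theorem State.mcr (X : State) (ε δ : ℝ) (hε : 0 < ε) (hδ : 0 < δ) (hc : δ < X.ratio) :
    ∃ (Y : State) (f : Cov Y X) (m : ℕ) (V : Fin m → Set Y.S), X.k < Y.k ∧ (∀ i, IsOpen (V i)) ∧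
      (∀ i, ∀ x ∈ V i, ∀ y ∈ V i, dist (f.q x) (f.q y) < ε) ∧
      (∀ x, ∃ i, x ∈ V i) ∧ (∀ x, Set.ncard {i | x ∈ V i} ≤ 3) ∧
      X.ratio - δ ≤ Y.ratio := by
  obtain ⟨Y, f, -, hk, -, -, hr⟩ := State.step X (δ / 2) (by linarith) (by linarith) ∅
    isClosed_empty (fun z hz => absurd hz (notMem_empty z))
    (fun _ => ⟨EuclideanSpace.single 0 1, by simp⟩) (continuousOn_empty _)
  obtain ⟨m, φ, hφ, hsm⟩ := exists_fam (S := Y.S) ε hε
  obtain ⟨Z, g, φ', hφ', hp, hz, hr'⟩ := kill_all Y (δ / 2) (by linarith) (by linarith) φ hφ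
  refine ⟨Z, f.comp g, m, fun i => {z | 0 < φ' i z}, hk.trans_le g.kle, ?_, ?_, ?_, ?_, by linarith⟩
  · exact fun i => isOpen_lt continuous_const (hφ'.cont i)
  · intro i x hx y hy
    exact lt_of_le_of_lt (f.lip _ _) (hsm i _ _ (hp i x hx) (hp i y hy))
  · exact hφ'.pos
  · intro x
    by_contra hcon
    rw [not_le] at hcon
    have hfin : {i | x ∈ {z | 0 < φ' i z}}.Finite := toFinite _
    obtain ⟨T, hT, hTc⟩ := Finset.exists_subset_card_eq
      (s := hfin.toFinset) (n := 4) (by rw [← ncard_eq_toFinset_card _ hfin]; exact hcon)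
    let ι : Fin 4 → Fin m := fun a => (T.orderEmbOfFin hTc) a
    have hι : Function.Injective ι := (T.orderEmbOfFin hTc).injective
    obtain ⟨a, ha⟩ := hz ι hι x
    have h1 : ι a ∈ T := T.orderEmbOfFin_mem hTc a
    have h2 : ι a ∈ {i | x ∈ {z | 0 < φ' i z}} := hfin.mem_toFinset.1 (hT h1)
    exact (ne_of_gt (show 0 < φ' (ι a) x from h2)) ha

end Pool.Agent.CRC
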