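import Pool.Agent.Lib.MP_13800a_gt.Defs

/-! TASK Mat: matrix algebra of `amp`, `dg`, `bs`. -/

set_option autoImplicit false

open scoped Matrix Kronecker
open Matrix

namespace Pool.Agent.CRC

section amp
variable {ι κ μ : Type}

theorem amp_mul [Fintype κ] (a : Matrix ι κ ℂ) (b : Matrix κ μ ℂ) :
    amp (a * b) = amp a * amp b := by
  rw [amp, amp, amp, ← Matrix.mul_kronecker_mul, Matrix.mul_one]

theorem amp_one [DecidableEq ι] : amp (1 : Matrix ι ι ℂ) = 1 := by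
  rw [amp, Matrix.one_kronecker_one]

theorem amp_zero : amp (0 : Matrix ι κ ℂ) = 0 := by
  rw [amp, Matrix.zero_kronecker]

theorem amp_add (a b : Matrix ι κ ℂ) : amp (a + b) = amp a + amp b := by
  rw [amp, amp, amp, Matrix.add_kronecker]

theorem amp_sub (a b : Matrix ι κ ℂ) : amp (a - b) = amp a - amp b := by
  ext i j
  simp [amp, Matrix.kroneckerMap_apply, sub_mul]

theorem amp_smul (c : ℂ) (a : Matrix ι κ ℂ) : amp (c • a) = c • amp a := by
  rw [amp, amp, Matrix.smul_kronecker]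

theorem amp_pow [Fintype ι] [DecidableEq ι] (a : Matrix ι ι ℂ) (m : ℕ) :
    amp (a ^ m) = amp a ^ m := by
  induction m with
  | zero => simp [amp_one]
  | succ k ih => rw [pow_succ, pow_succ, amp_mul, ih]

theorem amp_injective : Function.Injective (amp : Matrix ι κ ℂ → _) := by
  intro a b h
  ext i j
  have := congrFun (congrFun h (i, 0)) (j, 0)
  simpa [amp, Matrix.kroneckerMap_apply] using this

theorem continuous_amp : Continuous (amp : Matrix ι κ ℂ → _) := by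
  refine continuous_matrix fun i j => ?_
  simp only [amp, Matrix.kroneckerMap_apply]
  exact (continuous_id.matrix_elem i.1 j.1).mul continuous_const

theorem isUnit_amp_iff [Fintype ι] [DecidableEq ι] (a : Matrix ι ι ℂ) :
    IsUnit (amp a) ↔ IsUnit a := by
  rw [Matrix.isUnit_iff_isUnit_det, Matrix.isUnit_iff_isUnit_det, amp, Matrix.det_kronecker]
  simp

theorem amp_inv [Fintype ι] [DecidableEq ι] (a : Matrix ι ι ℂ) : amp a⁻¹ = (amp a)⁻¹ := by
  rw [amp, amp, Matrix.inv_kronecker, inv_one]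

theorem amp_mem_unitary [Fintype ι] [DecidableEq ι] {ρ : Matrix ι ι ℂ}
    (h : ρ ∈ Matrix.unitaryGroup ι ℂ) : amp ρ ∈ Matrix.unitaryGroup (ι × Fin 2) ℂ := by
  rw [Matrix.mem_unitaryGroup_iff] at h ⊢
  rw [Matrix.star_eq_conjTranspose] at h ⊢
  rw [amp, Matrix.conjTranspose_kronecker, ← Matrix.mul_kronecker_mul, h]
  simp

theorem amp_submatrix {ι' κ' : Type} (a : Matrix ι κ ℂ) (f : ι' → ι) (g : κ' → κ) :
    (amp a).submatrix (Prod.map f id) (Prod.map g id) = amp (a.submatrix f g) := by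
  ext ⟨i, s⟩ ⟨j, t⟩
  rfl

end amp

section dg
variable {ι κ : Type} [Fintype ι] [DecidableEq ι] [Fintype κ] [DecidableEq κ]

theorem dg_mul (a a' : Matrix ι ι ℂ) (b b' : Matrix κ κ ℂ) :
    dg a b * dg a' b' = dg (a * a') (b * b') := by
  simp [dg, Matrix.fromBlocks_multiply]

theorem dg_one : dg (1 : Matrix ι ι ℂ) (1 : Matrix κ κ ℂ) = 1 := by
  rw [dg, Matrix.fromBlocks_one]

theorem dg_pow (a : Matrix ι ι ℂ) (b : Matrix κ κ ℂ) (m : ℕ) :
    dg a b ^ m = dg (a ^ m) (b ^ m) := by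
  induction m with
  | zero => simp [dg_one]
  | succ k ih => rw [pow_succ, pow_succ, pow_succ, ih, dg_mul]

theorem dg_smul (c : ℂ) (a : Matrix ι ι ℂ) (b : Matrix κ κ ℂ) :
    c • dg a b = dg (c • a) (c • b) := by
  simp [dg, Matrix.fromBlocks_smul]

theorem IsRep.dsum {n : ℕ} {ρ : Matrix ι ι ℂ} {σ : Matrix κ κ ℂ} (h : IsRep n ρ) (h' : IsRep n σ) :
    IsRep n (dg ρ σ) := by
  refine ⟨?_, ?_⟩
  · have h1 := h.1
    have h2 := h'.1
    rw [Matrix.mem_unitaryGroup_iff, Matrix.star_eq_conjTranspose] at h1 h2 ⊢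
    rw [dg, Matrix.fromBlocks_conjTranspose, Matrix.fromBlocks_multiply]
    simp [h1, h2]
  · rw [dg_pow, h.2, h'.2, dg_one]

theorem IsRep.one (n : ℕ) : IsRep n (1 : Matrix ι ι ℂ) := by
  exact ⟨one_mem _, one_pow n⟩

theorem IsRep.pow {n n1 m : ℕ} {ρ : Matrix ι ι ℂ} (h : IsRep n ρ) (hm : n ∣ m * n1) :
    IsRep n1 (ρ ^ m) := by
  refine ⟨pow_mem h.1 m, ?_⟩
  obtain ⟨k, hk⟩ := hm
  rw [← pow_mul, hk, pow_mul, h.2, one_pow]

theorem IsRep.reindex {n : ℕ} {ρ : Matrix ι ι ℂ} (h : IsRep n ρ) (e : ι ≃ κ) :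
    IsRep n (ρ.submatrix e.symm e.symm) := by
  have hpow : ∀ m : ℕ, (ρ.submatrix e.symm e.symm) ^ m = (ρ ^ m).submatrix e.symm e.symm := by
    intro m
    induction m with
    | zero => simp
    | succ k ih => rw [pow_succ, pow_succ, ih, Matrix.submatrix_mul_equiv]
  refine ⟨?_, ?_⟩
  · have h1 := h.1
    rw [Matrix.mem_unitaryGroup_iff, Matrix.star_eq_conjTranspose] at h1 ⊢
    rw [Matrix.conjTranspose_submatrix, Matrix.submatrix_mul_equiv, h1]
    simp
  · rw [hpow, h.2]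
    simp

theorem IsRep.ampl {n : ℕ} {ρ : Matrix ι ι ℂ} (h : IsRep n ρ) : IsRep n (amp ρ) := by
  exact ⟨amp_mem_unitary h.1, by rw [← amp_pow, h.2, amp_one]⟩

theorem IsRep.isUnit {n : ℕ} {ρ : Matrix ι ι ℂ} (h : IsRep n ρ) : IsUnit ρ := by
  have h1 := h.1
  exact (Unitary.toUnits ⟨ρ, h1⟩).isUnit

theorem zt_pow_self (n : ℕ) : zt n ^ n = 1 := by
  rcases eq_or_ne n 0 with rfl | hn
  · simp
  · have hn' : (n : ℂ) ≠ 0 := by exact_mod_cast hn
    rw [zt, ← Complex.exp_nat_mul, mul_div_cancel₀ _ hn', Complex.exp_two_pi_mul_I]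

theorem norm_zt (n : ℕ) : ‖zt n‖ = 1 := by
  have h : zt n = Complex.exp (((2 * Real.pi / n : ℝ) : ℂ) * Complex.I) := by
    rw [zt]
    congr 1
    push_cast
    ring
  rw [h, Complex.norm_exp_ofReal_mul_I]

theorem zt_ne_zero (n : ℕ) : zt n ≠ 0 := by
  exact Complex.exp_ne_zero _

theorem zt_isPrimitiveRoot {n : ℕ} (hn : n ≠ 0) : IsPrimitiveRoot (zt n) n := by
  exact Complex.isPrimitiveRoot_exp n hn

theorem coe_ztC (n : ℕ) : (ztC n : ℂ) = zt n := by
  rw [ztC, Circle.coe_exp, zt]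
  congr 1
  push_cast
  ring

/-- `ζ_{ng}^g = ζ_n` -/
theorem zt_mul_pow (n g : ℕ) (hg : g ≠ 0) : zt (n * g) ^ g = zt n := by
  have hg' : (g : ℂ) ≠ 0 := by exact_mod_cast hg
  rw [zt, ← Complex.exp_nat_mul, zt]
  congr 1
  rcases eq_or_ne n 0 with rfl | hn
  · simp
  · have hn' : (n : ℂ) ≠ 0 := by exact_mod_cast hn
    push_cast
    field_simp

theorem IsRep.smul {n : ℕ} {ρ : Matrix ι ι ℂ} (h : IsRep n ρ) (k : ℕ) :
    IsRep n (zt n ^ k • ρ) := by
  have hs : starRingEnd ℂ (zt n ^ k) * zt n ^ k = 1 := by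
    rw [Complex.conj_mul', norm_pow, norm_zt]
    simp
  refine ⟨?_, ?_⟩
  · have h1 := h.1
    rw [Matrix.mem_unitaryGroup_iff, Matrix.star_eq_conjTranspose] at h1 ⊢
    rw [Matrix.conjTranspose_smul, Matrix.smul_mul, Matrix.mul_smul, smul_smul, h1]
    rw [mul_comm] at hs
    rw [show zt n ^ k * star (zt n ^ k) = 1 from hs, one_smul]
  · rw [smul_pow, h.2, ← pow_mul, mul_comm k n, pow_mul, zt_pow_self, one_pow, one_smul]

end dg

section bs
variable {ι κ : Type} [Fintype ι] [DecidableEq ι] [Fintype κ] [DecidableEq κ]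

theorem bs_mul (u u' : MM ι) (v v' : MM κ) : bs u v * bs u' v' = bs (u * u') (v * v') := by
  rw [bs, bs, bs, Matrix.submatrix_mul_equiv, Matrix.fromBlocks_multiply]
  simp

theorem bs_one : bs (1 : MM ι) (1 : MM κ) = 1 := by
  rw [bs, Matrix.fromBlocks_one]
  simp

theorem bs_add (u u' : MM ι) (v v' : MM κ) : bs u v + bs u' v' = bs (u + u') (v + v') := by
  ext ⟨i, s⟩ ⟨j, t⟩
  rcases i with i | i <;> rcases j with j | j <;> simp [bs]

theorem bs_smul (c : ℂ) (u : MM ι) (v : MM κ) : c • bs u v = bs (c • u) (c • v) := by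
  ext ⟨i, s⟩ ⟨j, t⟩
  rcases i with i | i <;> rcases j with j | j <;> simp [bs]

theorem bs_amp (a : Matrix ι ι ℂ) (b : Matrix κ κ ℂ) : bs (amp a) (amp b) = amp (dg a b) := by
  ext ⟨i, s⟩ ⟨j, t⟩
  rcases i with i | i <;> rcases j with j | j <;>
    simp [bs, dg, amp, Matrix.kroneckerMap_apply]

theorem isUnit_bs_iff (u : MM ι) (v : MM κ) : IsUnit (bs u v) ↔ IsUnit u ∧ IsUnit v := by
  rw [bs, Matrix.isUnit_submatrix_equiv, Matrix.isUnit_fromBlocks_zero₂₁]

theorem bs_inv {u : MM ι} {v : MM κ} (hu : IsUnit u) (hv : IsUnit v) :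
    (bs u v)⁻¹ = bs u⁻¹ v⁻¹ := by
  rw [Matrix.isUnit_iff_isUnit_det] at hu hv
  apply Matrix.inv_eq_left_inv
  rw [bs_mul, Matrix.nonsing_inv_mul _ hu, Matrix.nonsing_inv_mul _ hv, bs_one]

theorem continuous_bs : Continuous (fun p : MM ι × MM κ => bs p.1 p.2) := by
  refine continuous_matrix fun i j => ?_
  obtain ⟨i, s⟩ := i
  obtain ⟨j, t⟩ := j
  rcases i with i | i <;> rcases j with j | j <;>
    simp only [bs, Matrix.submatrix_apply, Equiv.sumProdDistrib_apply_left,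
      Equiv.sumProdDistrib_apply_right, Matrix.fromBlocks_apply₁₁, Matrix.fromBlocks_apply₁₂,
      Matrix.fromBlocks_apply₂₁, Matrix.fromBlocks_apply₂₂, Matrix.zero_apply]
  · exact continuous_fst.matrix_elem _ _
  · exact continuous_const
  · exact continuous_const
  · exact continuous_snd.matrix_elem _ _

theorem bs_injective {u u' : MM ι} {v v' : MM κ} (h : bs u v = bs u' v') : u = u' ∧ v = v' := by
  constructor
  · ext ⟨i, s⟩ ⟨j, t⟩
    have := congrFun (congrFun h (Sum.inl i, s)) (Sum.inl j, t)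
    simpa [bs] using this
  · ext ⟨i, s⟩ ⟨j, t⟩
    have := congrFun (congrFun h (Sum.inr i, s)) (Sum.inr j, t)
    simpa [bs] using this

end bs

end Pool.Agent.CRC
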