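import Pool.Agent.Lib.MP_13800a_gt.OrbDefs

/-! TASK O1: basic facts about orbit spaces. -/

set_option autoImplicit false

namespace Pool.Agent.CRC

open Set Topology

variable {S : Type} [MetricSpace S] {act : ℤ_[2] → S → S}

private theorem coe_orb (h : IsKAct act) (s : S) :
    ((orb h s : TopologicalSpace.NonemptyCompacts S) : Set S) = Set.range fun k => act k s := rfl

private theorem dist_pr_eq (h : IsKAct act) (s t : S) :
    dist (pr h s) (pr h t) =
      Metric.hausdorffDist (Set.range fun k => act k s) (Set.range fun k => act k t) := rfl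

/-- `hausdorffDist_le_of_mem_dist` -/
theorem dist_pr_le (h : IsKAct act) (s t : S) : dist (pr h s) (pr h t) ≤ dist s t := by
  rw [dist_pr_eq]
  refine Metric.hausdorffDist_le_of_mem_dist dist_nonneg ?_ ?_
  · rintro _ ⟨k, rfl⟩
    exact ⟨act k t, ⟨k, rfl⟩, le_of_eq ((h.isom k).dist_eq s t)⟩
  · rintro _ ⟨k, rfl⟩
    refine ⟨act k s, ⟨k, rfl⟩, le_of_eq ?_⟩
    rw [(h.isom k).dist_eq t s, dist_comm]

/-- `Metric.exists_dist_lt_of_hausdorffDist_lt` -/
theorem exists_act_of_dist_lt (h : IsKAct act) {s t : S} {r : ℝ}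
    (hd : dist (pr h s) (pr h t) < r) : ∃ k, dist s (act k t) < r := by
  rw [dist_pr_eq] at hd
  have hfin : Metric.hausdorffEDist (Set.range fun k => act k s) (Set.range fun k => act k t) ≠ ⊤ :=
    Metric.hausdorffEDist_ne_top_of_nonempty_of_bounded (orb h s).nonempty (orb h t).nonempty
      (orb h s).isCompact.isBounded (orb h t).isCompact.isBounded
  have hs : s ∈ Set.range fun k => act k s := ⟨0, h.zero s⟩
  obtain ⟨y, ⟨k, rfl⟩, hy⟩ := Metric.exists_dist_lt_of_hausdorffDist_lt hs hd hfin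
  exact ⟨k, hy⟩

theorem pr_eq_iff (h : IsKAct act) {s t : S} : pr h s = pr h t ↔ ∃ k, act k t = s := by
  constructor
  · intro he
    have h1 : orb h s = orb h t := congrArg Subtype.val he
    have h2 : s ∈ ((orb h t : TopologicalSpace.NonemptyCompacts S) : Set S) := by
      rw [← h1]; exact ⟨0, h.zero s⟩
    exact h2
  · rintro ⟨k, rfl⟩
    apply Subtype.ext
    apply TopologicalSpace.NonemptyCompacts.ext
    change (Set.range fun l => act l (act k t)) = Set.range fun l => act l t
    ext x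
    constructor
    · rintro ⟨l, rfl⟩
      exact ⟨l + k, h.add l k t⟩
    · rintro ⟨l, rfl⟩
      refine ⟨l - k, ?_⟩
      change act (l - k) (act k t) = act l t
      rw [← h.add, sub_add_cancel]

theorem pr_act (h : IsKAct act) (k : ℤ_[2]) (s : S) : pr h (act k s) = pr h s :=
  (pr_eq_iff h).2 ⟨k, rfl⟩

theorem pr_surjective (h : IsKAct act) : Function.Surjective (pr h) := by
  rintro ⟨_, s, rfl⟩
  exact ⟨s, rfl⟩

theorem continuous_pr (h : IsKAct act) : Continuous (pr h) :=
  (LipschitzWith.of_dist_le_mul (K := 1) fun s t => by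
    simpa using dist_pr_le h s t).continuous

theorem isOpenMap_pr (h : IsKAct act) : IsOpenMap (pr h) := by
  intro U hU
  rw [Metric.isOpen_iff]
  rintro _ ⟨s, hs, rfl⟩
  obtain ⟨ε, hε, hb⟩ := Metric.isOpen_iff.1 hU s hs
  refine ⟨ε, hε, ?_⟩
  intro y hy
  obtain ⟨t, rfl⟩ := pr_surjective h y
  rw [Metric.mem_ball, dist_comm] at hy
  obtain ⟨k, hk⟩ := exists_act_of_dist_lt h hy
  refine ⟨act k t, hb ?_, pr_act h k t⟩
  rw [Metric.mem_ball, dist_comm]
  exact hk

theorem compactSpace_orb [CompactSpace S] (h : IsKAct act) : CompactSpace (Orb h) := by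
  refine ⟨?_⟩
  rw [← (pr_surjective h).range_eq]
  exact isCompact_range (continuous_pr h)

end Pool.Agent.CRC
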