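import Pool.Agent.Lib.MP_13800a_gt.OrbDefs

/-! TASK T1: the limit of a tower: compactness, the action is free and isometric. -/

set_option autoImplicit false

namespace Pool.Agent.CRC

open Set Topology

namespace Tower

variable (T : Tower)

private theorem continuous_val :
    Continuous (fun x : T.Lim => (x.1 : ∀ j, T.S j)) := by
  let _ : MetricSpace (∀ j, T.S j) := PiCountable.metricSpace
  exact continuous_subtype_val

theorem continuous_proj (j : ℕ) : Continuous (T.proj j) :=
  (continuous_apply j).comp T.continuous_val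

theorem continuous_iff {X : Type} [TopologicalSpace X] {f : X → T.Lim} :
    Continuous f ↔ ∀ j, Continuous fun x => T.proj j (f x) := by
  constructor
  · intro h j
    exact (T.continuous_proj j).comp h
  · intro h
    have h1 : Continuous (fun x => ((f x).1 : ∀ j, T.S j)) := continuous_pi h
    let _ : MetricSpace (∀ j, T.S j) := PiCountable.metricSpace
    exact continuous_induced_rng.2 h1

instance : CompactSpace T.Lim := by
  have hcl : IsClosed {x : ∀ j, T.S j | ∀ j, T.p j (x (j + 1)) = x j} := by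
    rw [show {x : ∀ j, T.S j | ∀ j, T.p j (x (j + 1)) = x j}
      = ⋂ j, {x : ∀ j, T.S j | T.p j (x (j + 1)) = x j} by ext x; simp]
    exact isClosed_iInter fun j =>
      isClosed_eq ((T.pcont j).comp (continuous_apply (j + 1))) (continuous_apply j)
  have h2 : CompactSpace {x : ∀ j, T.S j // ∀ j, T.p j (x (j + 1)) = x j} :=
    isCompact_iff_compactSpace.1 hcl.isCompact
  let _ : MetricSpace (∀ j, T.S j) := PiCountable.metricSpace
  exact h2

/-- push a point of stage `j` down to stage `i ≤ j` (arbitrary values above) -/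
private theorem push (N : ℕ) (y : T.S N) :
    ∃ x : ∀ j, T.S j, x N = y ∧ ∀ j, j < N → T.p j (x (j + 1)) = x j := by
  induction N with
  | zero =>
    classical
    exact ⟨fun j => if h : j = 0 then h ▸ y else Classical.arbitrary _, by simp, fun j hj => by omega⟩
  | succ N ih =>
    obtain ⟨x, hx, hx'⟩ := ih (T.p N y)
    classical
    refine ⟨fun j => if h : N + 1 = j then h ▸ y else x j, by simp, fun j hj => ?_⟩
    by_cases hj' : j = N
    · subst hj'
      simp [hx]
    · have h1 : ¬ (N + 1 = j + 1) := by omega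
      have h2 : ¬ (N + 1 = j) := by omega
      simp only [h1, h2, dif_neg, not_false_eq_true]
      exact hx' j (by omega)

/-- the limit of nonempty compact spaces is nonempty -/
instance : Nonempty T.Lim := by
  have key : (⋂ N : ℕ, {x : ∀ j, T.S j | ∀ j, j < N → T.p j (x (j + 1)) = x j}).Nonempty := by
    apply IsCompact.nonempty_iInter_of_sequence_nonempty_isCompact_isClosed
    · intro N x hx j hj
      exact hx j (by omega)
    · intro N
      obtain ⟨x, -, hx⟩ := T.push N (Classical.arbitrary _)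
      exact ⟨x, hx⟩
    · apply IsClosed.isCompact
      rw [show {x : ∀ j, T.S j | ∀ j, j < 0 → T.p j (x (j + 1)) = x j} = univ by ext x; simp]
      exact isClosed_univ
    · intro N
      rw [show {x : ∀ j, T.S j | ∀ j, j < N → T.p j (x (j + 1)) = x j}
        = ⋂ j, ⋂ (_ : j < N), {x : ∀ j, T.S j | T.p j (x (j + 1)) = x j} by ext x; simp]
      exact isClosed_iInter fun j => isClosed_iInter fun _ =>
        isClosed_eq ((T.pcont j).comp (continuous_apply (j + 1))) (continuous_apply j)
  obtain ⟨x, hx⟩ := key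
  exact ⟨⟨x, fun j => (mem_iInter.1 hx (j + 1)) j (Nat.lt_succ_self j)⟩⟩

theorem proj_surjective (h : ∀ j, Function.Surjective (T.p j)) (j : ℕ) :
    Function.Surjective (T.proj j) := by
  intro y
  obtain ⟨x, hx, hx'⟩ := T.push j y
  choose g hg using h
  -- lift upwards
  let up : ∀ i, T.S (j + i) := fun i => Nat.rec (motive := fun i => T.S (j + i)) y
    (fun i z => g (j + i) z) i
  have hup : ∀ i, T.p (j + i) (up (i + 1)) = up i := fun i => hg (j + i) (up i)
  classical
  let z : ∀ i, T.S i := fun i => if h : j ≤ i then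
    (Nat.add_sub_cancel' h) ▸ up (i - j) else x i
  have hz : ∀ i, z (j + i) = up i := by
    intro i
    have e : j ≤ j + i := by omega
    simp only [z, e, dif_pos]
    have : ∀ (m : ℕ) (hm : m = i) (hm' : j + m = j + i),
        (hm' ▸ up m : T.S (j + i)) = up i := by
      intro m hm hm'
      subst hm
      rfl
    exact this (j + i - j) (by omega) _
  have hz' : ∀ i, i < j → z i = x i := by
    intro i hi
    have e : ¬ j ≤ i := by omega
    simp only [z, e, dif_neg, not_false_eq_true]
  refine ⟨⟨z, fun i => ?_⟩, ?_⟩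
  · by_cases hi : j ≤ i
    · obtain ⟨m, rfl⟩ := Nat.exists_eq_add_of_le hi
      have e1 : z (j + m + 1) = up (m + 1) := hz (m + 1)
      rw [hz m, e1]
      exact hup m
    · by_cases hi' : i + 1 = j
      · subst hi'
        have e1 : z (i + 1) = y := hz 0
        rw [e1, hz' i (by omega), ← hx]
        exact hx' i (by omega)
      · rw [hz' i (by omega), hz' (i + 1) (by omega)]
        exact hx' i (by omega)
  · show z j = y
    exact hz 0

/-- the metric of the limit: `dist x y = ∑' j, min (2⁻¹ ^ j) (dist (x j) (y j))` -/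
theorem dist_eq (x y : T.Lim) :
    dist x y = ∑' j, min ((2 : ℝ)⁻¹ ^ j) (dist (T.proj j x) (T.proj j y)) := rfl

private theorem smb (x y : T.Lim) :
    Summable fun j => min ((2 : ℝ)⁻¹ ^ j) (dist (T.proj j x) (T.proj j y)) := by
  refine .of_nonneg_of_le (fun i => ?_) (fun i => min_le_left _ _)
    (summable_geometric_of_lt_one (by norm_num) (by norm_num))
  exact le_min (by positivity) dist_nonneg

private theorem proj_eq_of_le {x y : T.Lim} {j : ℕ} (h : T.proj j x = T.proj j y) :
    ∀ i, i ≤ j → T.proj i x = T.proj i y := by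
  induction j with
  | zero =>
    intro i hi
    obtain rfl : i = 0 := by omega
    exact h
  | succ j ih =>
    intro i hi
    rcases Nat.lt_or_ge i (j + 1) with hi' | hi'
    · refine ih ?_ i (by omega)
      rw [← T.p_proj j x, ← T.p_proj j y, h]
    · obtain rfl : i = j + 1 := by omega
      exact h

/-- points whose coordinates at a late stage agree are close -/
theorem dist_lt_of_proj_eq (ε : ℝ) (hε : 0 < ε) : ∃ j0, ∀ j, j0 ≤ j → ∀ x y : T.Lim,
    T.proj j x = T.proj j y → dist x y < ε := by
  obtain ⟨j0, hj0⟩ := exists_pow_lt_of_lt_one hε (by norm_num : (2 : ℝ)⁻¹ < 1)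
  refine ⟨j0, fun j hj x y hxy => ?_⟩
  have hle := T.proj_eq_of_le hxy
  rw [T.dist_eq]
  have hs := T.smb x y
  have h1 : ∑' i, min ((2 : ℝ)⁻¹ ^ i) (dist (T.proj i x) (T.proj i y)) =
      ∑' i, min ((2 : ℝ)⁻¹ ^ (i + (j + 1)))
        (dist (T.proj (i + (j + 1)) x) (T.proj (i + (j + 1)) y)) := by
    rw [← hs.sum_add_tsum_nat_add (j + 1), Finset.sum_eq_zero, zero_add]
    intro i hi
    rw [hle i (by have := Finset.mem_range.1 hi; omega), dist_self]
    exact min_eq_right (by positivity)
  rw [h1]
  have hs1 := (summable_nat_add_iff (f := fun i => min ((2 : ℝ)⁻¹ ^ i)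
    (dist (T.proj i x) (T.proj i y))) (j + 1)).2 hs
  have hg : Summable fun i : ℕ => (2 : ℝ)⁻¹ ^ (i + (j + 1)) :=
    (summable_nat_add_iff (f := fun i => (2 : ℝ)⁻¹ ^ i) (j + 1)).2
      (summable_geometric_of_lt_one (by norm_num) (by norm_num))
  calc _ ≤ ∑' i : ℕ, (2 : ℝ)⁻¹ ^ (i + (j + 1)) :=
        hs1.tsum_le_tsum (fun i => min_le_left _ _) hg
    _ = (2 : ℝ)⁻¹ ^ j := by
        simp_rw [pow_add]
        rw [tsum_mul_right, tsum_geometric_of_lt_one (by norm_num) (by norm_num)]
        norm_num
        ring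
    _ ≤ (2 : ℝ)⁻¹ ^ j0 := pow_le_pow_of_le_one (by norm_num) (by norm_num) hj
    _ < ε := hj0

/-- points whose coordinates at a late stage are close are close (compactness) -/
theorem dist_lt_of_proj_dist_lt (ε : ℝ) (hε : 0 < ε) : ∃ j0, ∀ j, j0 ≤ j → ∃ δ : ℝ, 0 < δ ∧
    ∀ x y : T.Lim, dist (T.proj j x) (T.proj j y) < δ → dist x y < ε := by
  obtain ⟨j0, hj0⟩ := T.dist_lt_of_proj_eq ε hε
  refine ⟨j0, fun j hj => ?_⟩
  have hC : IsCompact {q : T.Lim × T.Lim | ε ≤ dist q.1 q.2} :=
    (isClosed_le continuous_const continuous_dist).isCompact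
  have hf : Continuous fun q : T.Lim × T.Lim => dist (T.proj j q.1) (T.proj j q.2) :=
    ((T.continuous_proj j).comp continuous_fst).dist ((T.continuous_proj j).comp continuous_snd)
  rcases Set.eq_empty_or_nonempty {q : T.Lim × T.Lim | ε ≤ dist q.1 q.2} with he | hne
  · refine ⟨1, one_pos, fun x y _ => ?_⟩
    by_contra hcon
    have : (x, y) ∈ {q : T.Lim × T.Lim | ε ≤ dist q.1 q.2} := not_lt.1 hcon
    rw [he] at this
    exact this
  · obtain ⟨q, hq, hmin⟩ := hC.exists_isMinOn hne hf.continuousOn
    refine ⟨dist (T.proj j q.1) (T.proj j q.2), ?_, fun x y hxy => ?_⟩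
    · rw [dist_pos]
      intro heq
      exact absurd (hj0 j hj q.1 q.2 heq) (not_lt.2 hq)
    · by_contra hcon
      have : (x, y) ∈ {q : T.Lim × T.Lim | ε ≤ dist q.1 q.2} := not_lt.1 hcon
      exact absurd (hmin this) (not_le.2 hxy)

/-- the number `num j a` is `0` iff `2 ^ k j` divides `a` -/
theorem num_eq_zero_iff (j : ℕ) (a : ℤ_[2]) : T.num j a = 0 ↔ (2 : ℤ_[2]) ^ T.k j ∣ a := by
  unfold num
  rw [ZMod.val_eq_zero, ← RingHom.mem_ker, PadicInt.ker_toZModPow, Ideal.mem_span_singleton]
  norm_cast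

theorem num_lt (j : ℕ) (a : ℤ_[2]) : T.num j a < 2 ^ T.k j := ZMod.val_lt _

theorem num_natCast (j i : ℕ) (x : T.S j) : (T.τ j)^[T.num j (i : ℤ_[2])] x = (T.τ j)^[i] x := by
  unfold num
  rw [map_natCast, ZMod.val_natCast, T.iter_mod]

theorem num_one (j : ℕ) (x : T.S j) : (T.τ j)^[T.num j 1] x = T.τ j x := by
  have := T.num_natCast j 1 x
  rwa [Nat.cast_one] at this

/-- if the coordinates at stage `j` of `x` and `act a x` agree then `2 ^ k j ∣ a`, and conversely -/
theorem proj_act_eq_iff (j : ℕ) (a : ℤ_[2]) (x : T.Lim) :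
    T.proj j (T.act a x) = T.proj j x ↔ (2 : ℤ_[2]) ^ T.k j ∣ a := by
  rw [← T.num_eq_zero_iff, T.proj_act]
  constructor
  · intro h
    by_contra h0
    exact T.free j (T.proj j x) (T.num j a) (Nat.pos_of_ne_zero h0) (T.num_lt j a) h
  · intro h
    rw [h]
    rfl

private theorem ext' {x y : T.Lim} (h : ∀ j, T.proj j x = T.proj j y) : x = y :=
  Subtype.ext (funext h)

private theorem num_add (j : ℕ) (a b : ℤ_[2]) :
    T.num j (a + b) = (T.num j a + T.num j b) % 2 ^ T.k j := by
  unfold num
  rw [map_add, ZMod.val_add]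

private theorem continuous_num (j : ℕ) : Continuous (T.num j) := by
  rw [continuous_discrete_rng]
  intro c
  rw [isOpen_iff_mem_nhds]
  intro a ha
  rw [Metric.mem_nhds_iff]
  refine ⟨(2 : ℝ) ^ (-(T.k j : ℤ)), by positivity, fun b hb => ?_⟩
  rw [Metric.mem_ball, dist_eq_norm] at hb
  have h1 : b - a ∈ (Ideal.span {((2 : ℕ) : ℤ_[2]) ^ T.k j} : Ideal ℤ_[2]) := by
    rw [← PadicInt.norm_le_pow_iff_mem_span_pow]
    exact_mod_cast hb.le
  rw [← PadicInt.ker_toZModPow, RingHom.mem_ker, map_sub, sub_eq_zero] at h1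
  show (PadicInt.toZModPow (p := 2) (T.k j) b).val = c
  rw [h1]
  exact ha

/-- the action is a free isometric action -/
theorem isKAct : IsKAct T.act where
  zero x := T.ext' fun j => by
    rw [T.proj_act_eq_iff]
    exact dvd_zero _
  add a b x := T.ext' fun j => by
    rw [T.proj_act, T.proj_act, T.proj_act, T.num_add, T.iter_mod, Function.iterate_add_apply]
  cont := by
    rw [T.continuous_iff]
    intro j
    have h1 : Continuous fun q : ℕ × T.S j => (T.τ j)^[q.1] q.2 := by
      rw [continuous_prod_of_discrete_left]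
      exact fun i => (T.iso j).continuous.iterate i
    exact h1.comp (((T.continuous_num j).comp continuous_fst).prodMk
      ((T.continuous_proj j).comp continuous_snd))
  isom a := by
    refine Isometry.of_dist_eq fun x y => ?_
    rw [T.dist_eq, T.dist_eq]
    congr 1
    ext j
    rw [T.proj_act, T.proj_act]
    congr 1
    have : ∀ i, Isometry ((T.τ j)^[i]) := by
      intro i
      induction i with
      | zero => exact isometry_id
      | succ i ih => exact ih.comp (T.iso j)
    exact (this _).dist_eq _ _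
  free a x h := by
    have h1 : ∀ j, (2 : ℤ_[2]) ^ T.k j ∣ a := fun j => by
      rw [← T.proj_act_eq_iff j a x, h]
    have h2 : ∀ j : ℕ, ‖a‖ ≤ (2 : ℝ)⁻¹ ^ j := by
      intro j
      have h3 : (2 : ℤ_[2]) ^ j ∣ a := (pow_dvd_pow _ (T.kmono.le_apply)).trans (h1 j)
      have h4 : a ∈ (Ideal.span {((2 : ℕ) : ℤ_[2]) ^ j} : Ideal ℤ_[2]) := by
        rw [Ideal.mem_span_singleton]
        exact_mod_cast h3
      rw [← PadicInt.norm_le_pow_iff_mem_span_pow] at h4
      rw [inv_pow, ← zpow_natCast, ← zpow_neg]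
      exact_mod_cast h4
    have h5 : ‖a‖ ≤ 0 :=
      ge_of_tendsto' (tendsto_pow_atTop_nhds_zero_of_lt_one (by norm_num)
        (by norm_num : (2 : ℝ)⁻¹ < 1)) h2
    exact norm_le_zero_iff.1 h5

end Tower

end Pool.Agent.CRC
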