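import Pool.Agent.Lib.MP_13800a_gt.OrbDefs
import Pool.Agent.Lib.MP_13800a_gt.Defs

/-! TASK A1: the sphere `S3 ⊂ ℂ²` with its rotations. -/

set_option autoImplicit false

namespace Pool.Agent.CRC

open Set Topology

/-- the 3-sphere (with the sup metric of `ℂ × ℂ`) -/
abbrev S3 : Type := {z : ℂ × ℂ // ‖z.1‖ ^ 2 + ‖z.2‖ ^ 2 = 1}

/-- rotation by a unit complex number -/
def rot (c : Circle) (z : S3) : S3 := ⟨((c : ℂ) * z.1.1, (c : ℂ) * z.1.2), by
  simpa using z.2⟩

instance : CompactSpace S3 := by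
  have h : IsCompact {z : ℂ × ℂ | ‖z.1‖ ^ 2 + ‖z.2‖ ^ 2 = 1} := by
    apply Metric.isCompact_of_isClosed_isBounded
    · exact isClosed_eq (by fun_prop) continuous_const
    · refine (Metric.isBounded_closedBall (x := (0 : ℂ × ℂ)) (r := 1)).subset ?_
      intro z hz
      have hz' : ‖z.1‖ ^ 2 + ‖z.2‖ ^ 2 = 1 := hz
      rw [mem_closedBall_zero_iff, Prod.norm_def, max_le_iff]
      have h1 := norm_nonneg z.1
      have h2 := norm_nonneg z.2
      constructor <;> nlinarith
  exact isCompact_iff_compactSpace.mp h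

instance : Nonempty S3 := ⟨⟨(1, 0), by simp⟩⟩

theorem rot_isometry (c : Circle) : Isometry (rot c) := by
  apply Isometry.of_dist_eq
  intro x y
  rw [Subtype.dist_eq, Subtype.dist_eq, Prod.dist_eq, Prod.dist_eq]
  simp only [rot, dist_eq_norm, ← mul_sub, norm_mul, Circle.norm_coe, one_mul]

theorem rot_mul (c d : Circle) (z : S3) : rot (c * d) z = rot c (rot d z) := by
  apply Subtype.ext
  simp only [rot, Circle.coe_mul, mul_assoc]

theorem rot_one (z : S3) : rot 1 z = z := by
  apply Subtype.ext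
  simp only [rot, Circle.coe_one, one_mul, Prod.mk.eta]

theorem rot_iterate (c : Circle) (i : ℕ) (z : S3) : (rot c)^[i] z = rot (c ^ i) z := by
  induction i with
  | zero => rw [pow_zero, rot_one]; rfl
  | succ i ih => rw [Function.iterate_succ_apply', ih, ← rot_mul, pow_succ']

theorem rot_eq_self_iff (c : Circle) (z : S3) : rot c z = z ↔ c = 1 := by
  constructor
  · intro h
    have h1 : (c : ℂ) * z.1.1 = z.1.1 := congrArg (fun w : S3 => w.1.1) h
    have h2 : (c : ℂ) * z.1.2 = z.1.2 := congrArg (fun w : S3 => w.1.2) h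
    have h3 : (c : ℂ) = 1 := by
      by_cases h0 : z.1.1 = 0
      · have h4 : z.1.2 ≠ 0 := by
          intro h5
          have := z.2
          rw [h0, h5] at this
          simp at this
        exact mul_right_cancel₀ h4 (by rw [h2, one_mul])
      · exact mul_right_cancel₀ h0 (by rw [h1, one_mul])
    apply Circle.ext
    rw [h3, Circle.coe_one]
  · rintro rfl
    exact rot_one z

theorem coe_ztC3 (n : ℕ) : ((ztC n : Circle) : ℂ) = zt n := by
  rw [ztC, zt, Circle.coe_exp]
  congr 1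
  push_cast
  ring

theorem ztC_pow_self (n : ℕ) (hn : n ≠ 0) : ztC n ^ n = 1 := by
  apply Circle.ext
  rw [Circle.coe_pow, coe_ztC3, Circle.coe_one]
  exact (Complex.isPrimitiveRoot_exp n hn).pow_eq_one

theorem ztC_pow_eq_one_iff (n i : ℕ) (hn : n ≠ 0) : ztC n ^ i = 1 ↔ n ∣ i := by
  rw [← (Complex.isPrimitiveRoot_exp n hn).pow_eq_one_iff_dvd i]
  have h : ((ztC n ^ i : Circle) : ℂ) = zt n ^ i := by rw [Circle.coe_pow, coe_ztC3]
  constructor
  · intro h1
    rw [h1, Circle.coe_one] at h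
    exact h.symm
  · intro h1
    apply Circle.ext
    rw [h, Circle.coe_one]
    exact h1

theorem ztC_mul_pow (n m : ℕ) (hn : n ≠ 0) (hm : m ≠ 0) : ztC (n * m) ^ m = ztC n := by
  apply Circle.ext
  rw [Circle.coe_pow, coe_ztC3, coe_ztC3, zt, zt, ← Complex.exp_nat_mul]
  congr 1
  have h1 : (n : ℂ) ≠ 0 := by exact_mod_cast hn
  have h2 : (m : ℂ) ≠ 0 := by exact_mod_cast hm
  push_cast
  field_simp

end Pool.Agent.CRC
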