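import Pool.Agent.Lib.MP_13800a_gt.OrbMap

/-! TASK O3: the fibres of `f`, complete regularity, cell-likeness of the fibres. -/

set_option autoImplicit false

namespace Pool.Agent.CRC

open Set Topology

variable {E A : Type} [MetricSpace E] [MetricSpace A] {actE : ℤ_[2] → E → E}
  {actA : ℤ_[2] → A → A}

/-- The fibre over `pr e` is parametrised by `A`: `a ↦ pr (e, a)` (injective because `K` acts freely
on `E`; a continuous bijection from a compact space to a Hausdorff space). -/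
theorem exists_fibre_homeo [CompactSpace A] (hE : IsKAct actE) (hA : IsKAct actA) (e : E)
    (y : Orb hE) (hy : y = pr hE e) :
    ∃ φ : A ≃ₜ ↥(fmap hE hA ⁻¹' {y}), ∀ a, ((φ a : ↥(fmap hE hA ⁻¹' {y})) : Orb (hE.prod hA)) =
      pr (hE.prod hA) (e, a) := by
  have hmem : ∀ a, pr (hE.prod hA) (e, a) ∈ fmap hE hA ⁻¹' {y} := fun a => by
    rw [mem_preimage, mem_singleton_iff, fmap_pr, hy]
  let g : A → ↥(fmap hE hA ⁻¹' {y}) := fun a => ⟨pr (hE.prod hA) (e, a), hmem a⟩
  have hgc : Continuous g :=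
    ((continuous_pr (hE.prod hA)).comp (Continuous.prodMk continuous_const continuous_id)).subtype_mk _
  have hgb : Function.Bijective g := by
    constructor
    · intro a a' haa
      have h1 : pr (hE.prod hA) (e, a) = pr (hE.prod hA) (e, a') := congrArg Subtype.val haa
      obtain ⟨k, hk⟩ := (pr_eq_iff (hE.prod hA)).1 h1
      have h2 : actE k e = e := congrArg Prod.fst hk
      have h3 : actA k a' = a := congrArg Prod.snd hk
      rw [hE.free k e h2, hA.zero] at h3
      exact h3.symm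
    · rintro ⟨O, hO⟩
      obtain ⟨⟨e', a'⟩, rfl⟩ := pr_surjective (hE.prod hA) O
      have h1 : pr hE e' = pr hE e := by
        have h2 : fmap hE hA (pr (hE.prod hA) (e', a')) = y := hO
        rw [fmap_pr, hy] at h2
        exact h2
      obtain ⟨k, hk⟩ := (pr_eq_iff hE).1 h1.symm
      refine ⟨actA k a', Subtype.ext ?_⟩
      change pr (hE.prod hA) (e, actA k a') = pr (hE.prod hA) (e', a')
      refine (pr_eq_iff (hE.prod hA)).2 ⟨k, ?_⟩
      exact Prod.ext hk rfl
  refine ⟨Continuous.homeoOfEquivCompactToT2 (f := Equiv.ofBijective g hgb) hgc, fun a => rfl⟩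

theorem CellLike.of_homeo {A B : Type} [TopologicalSpace A] [TopologicalSpace B] (φ : A ≃ₜ B)
    (h : CellLike A) : CellLike B := by
  intro e he U hU hr
  obtain ⟨H, hH, h0, ⟨q, hq⟩, hin⟩ := h (e ∘ φ) (he.comp φ.isEmbedding) U hU (by
    rw [Set.range_comp, φ.surjective.range_eq, Set.image_univ]
    exact hr)
  refine ⟨fun p => H (p.1, φ.symm p.2),
    hH.comp (Continuous.prodMk continuous_fst (φ.symm.continuous.comp continuous_snd)), ?_,
    ⟨q, fun k => hq _⟩, fun t k => hin t _⟩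
  intro k
  change H (0, φ.symm k) = e k
  rw [h0, Function.comp_apply, φ.apply_symm_apply]

theorem cellLike_fibre [CompactSpace A] (hE : IsKAct actE) (hA : IsKAct actA) (hc : CellLike A)
    (y : Orb hE) : CellLike ↥(fmap hE hA ⁻¹' {y}) := by
  obtain ⟨e, he⟩ := pr_surjective hE y
  obtain ⟨φ, -⟩ := exists_fibre_homeo hE hA e y he.symm
  exact CellLike.of_homeo φ hc

/-- complete regularity, with `δ = ε`: if `dist y' (pr e) < ε` there is `e'` with `pr e' = y'`,
`dist e e' < ε`, and `h : pr (e, a) ↦ pr (e', a)`. -/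
theorem fmap_regular [CompactSpace A] (hE : IsKAct actE) (hA : IsKAct actA) :
    ∀ ε : ℝ, 0 < ε → ∀ y : Orb hE, ∃ δ : ℝ, 0 < δ ∧ ∀ y' : Orb hE, dist y' y < δ →
        ∃ h : ↥(fmap hE hA ⁻¹' {y}) ≃ₜ ↥(fmap hE hA ⁻¹' {y'}),
          ∀ x : ↥(fmap hE hA ⁻¹' {y}),
            dist (x : Orb (hE.prod hA)) ((h x : ↥(fmap hE hA ⁻¹' {y'})) : Orb (hE.prod hA)) < ε := by
  intro ε hε y
  refine ⟨ε, hε, fun y' hy' => ?_⟩
  obtain ⟨e, rfl⟩ := pr_surjective hE y
  obtain ⟨t, rfl⟩ := pr_surjective hE y'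
  rw [dist_comm] at hy'
  obtain ⟨k, hk⟩ := exists_act_of_dist_lt hE hy'
  obtain ⟨φ, hφ⟩ := exists_fibre_homeo hE hA e (pr hE e) rfl
  obtain ⟨ψ, hψ⟩ := exists_fibre_homeo hE hA (actE k t) (pr hE t) (pr_act hE k t).symm
  refine ⟨φ.symm.trans ψ, fun x => ?_⟩
  obtain ⟨a, rfl⟩ := φ.surjective x
  have h1 : (φ.symm.trans ψ) (φ a) = ψ a := by
    rw [Homeomorph.trans_apply, φ.symm_apply_apply]
  rw [h1, hφ, hψ]
  refine lt_of_le_of_lt (dist_pr_le (hE.prod hA) _ _) ?_
  rw [Prod.dist_eq]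
  change max (dist e (actE k t)) (dist a a) < ε
  rw [dist_self, max_lt_iff]
  exact ⟨hk, hε⟩

end Pool.Agent.CRC
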