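import Pool.Agent.Lib.MP_13800a_gt.Rot

/-! TASK NullC: calculus of stable null-homotopies. -/

set_option autoImplicit false

open scoped Matrix Kronecker
open Matrix

namespace Pool.Agent.CRC

section
variable {n : ℕ} {Q ι κ : Type} [TopologicalSpace Q]
  [Fintype ι] [DecidableEq ι] [Fintype κ] [DecidableEq κ]
  {ρ : Matrix ι ι ℂ} {ρ' : Matrix κ κ ℂ} {τ : Q → Q} {Z : Set Q}
  {u v : Q → UI → MM ι} {w : Q → UI → MM κ}

private theorem nullc_iff : Null n ρ τ Z u ↔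
    ∃ (κ : Type) (_ : Fintype κ) (_ : DecidableEq κ) (σ : Matrix κ κ ℂ), IsRep n σ ∧
      Ht (dg ρ σ) τ Z (fun q t => bs (u q t) (1 : MM κ)) (fun _ _ => 1) := by
  constructor
  · rintro ⟨κ, h1, h2, σ, U, h3, h4⟩
    exact ⟨κ, h1, h2, σ, h3, U, h4⟩
  · rintro ⟨κ, h1, h2, σ, h3, U, h4⟩
    exact ⟨κ, h1, h2, σ, U, h3, h4⟩

theorem Null.one : Null n ρ τ Z (fun _ _ => (1 : MM ι)) := by
  rw [nullc_iff]
  refine ⟨Fin 0, inferInstance, inferInstance, 1, IsRep.one n, ?_⟩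
  simp only [bs_one]
  exact Ht.refl IsEl.const_one

theorem Null.of_ht (h : Ht ρ τ Z u v) (hv : Null n ρ τ Z v) : Null n ρ τ Z u := by
  rw [nullc_iff] at hv ⊢
  obtain ⟨κ', _, _, σ, hσ, h2⟩ := hv
  exact ⟨κ', inferInstance, inferInstance, σ, hσ,
    (h.bsum (Ht.refl (IsEl.const_one (ρ := σ) (τ := τ) (Z := Z)))).trans h2⟩

/-- cast of a homotopy along equalities -/
private theorem nullc_cast {ρ₂ : Matrix ι ι ℂ} {u₂ v₂ : Q → UI → MM ι} (h : Ht ρ τ Z u v)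
    (h1 : ρ = ρ₂) (h2 : u = u₂) (h3 : v = v₂) : Ht ρ₂ τ Z u₂ v₂ := by
  subst h1 h2 h3; exact h

theorem Null.bsum (hu : Null n ρ τ Z u) (hw : Null n ρ' τ Z w) :
    Null n (dg ρ ρ') τ Z (fun q t => bs (u q t) (w q t)) := by
  rw [nullc_iff] at hu hw ⊢
  obtain ⟨κ1, _, _, σ1, hσ1, h1⟩ := hu
  obtain ⟨κ2, _, _, σ2, hσ2, h2⟩ := hw
  refine ⟨κ1 ⊕ κ2, inferInstance, inferInstance, dg σ1 σ2, hσ1.dsum hσ2, ?_⟩
  have h3 := (h1.bsum h2).reindex (Equiv.sumSumSumComm ι κ1 κ κ2)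
  refine nullc_cast h3 ?_ ?_ ?_
  · ext x y
    rcases x with (x | x) | (x | x) <;> rcases y with (y | y) | (y | y) <;>
      simp [dg]
  · funext q t
    ext ⟨x, s⟩ ⟨y, r⟩
    rcases x with (x | x) | (x | x) <;> rcases y with (y | y) | (y | y) <;>
      simp [bs, Matrix.one_apply]
  · funext q t
    rw [bs_one]
    ext ⟨x, s⟩ ⟨y, r⟩
    rcases x with (x | x) | (x | x) <;> rcases y with (y | y) | (y | y) <;>
      simp [Matrix.one_apply]

theorem Null.reindex (hu : Null n ρ τ Z u) (e : ι ≃ κ) :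
    Null n (ρ.submatrix e.symm e.symm) τ Z
      (fun q t => (u q t).submatrix (Prod.map e.symm id) (Prod.map e.symm id)) := by
  rw [nullc_iff] at hu ⊢
  obtain ⟨κ1, _, _, σ1, hσ1, h1⟩ := hu
  refine ⟨κ1, inferInstance, inferInstance, σ1, hσ1, ?_⟩
  have h3 := h1.reindex (Equiv.sumCongr e (Equiv.refl κ1))
  refine nullc_cast h3 ?_ ?_ ?_
  · ext x y
    rcases x with x | x <;> rcases y with y | y <;> simp [dg]
  · funext q t
    ext ⟨x, s⟩ ⟨y, r⟩
    rcases x with x | x <;> rcases y with y | y <;> simp [bs]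
  · funext q t
    ext ⟨x, s⟩ ⟨y, r⟩
    rcases x with x | x <;> rcases y with y | y <;> simp [Matrix.one_apply]

/-- cancellation -/
theorem Null.cancel (hρ' : IsRep n ρ') (hu : IsEl ρ τ Z u)
    (h : Null n (dg ρ ρ') τ Z (fun q t => bs (u q t) (w q t)))
    (hw : Null n ρ' τ Z w) : Null n ρ τ Z u := by
  rw [nullc_iff] at h hw ⊢
  obtain ⟨κ1, _, _, σ1, hσ1, h1⟩ := h
  obtain ⟨κ2, _, _, σ2, hσ2, h2⟩ := hw
  refine ⟨(κ ⊕ κ2) ⊕ κ1, inferInstance, inferInstance, dg (dg ρ' σ2) σ1,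
    (hρ'.dsum hσ2).dsum hσ1, ?_⟩
  have h3 := (Ht.refl hu).bsum
    (h2.bsum (Ht.refl (IsEl.const_one (ρ := σ1) (τ := τ) (Z := Z))))
  have h4 := h1.bsum (Ht.refl (IsEl.const_one (ρ := σ2) (τ := τ) (Z := Z)))
  let e : ((ι ⊕ κ) ⊕ κ1) ⊕ κ2 ≃ ι ⊕ ((κ ⊕ κ2) ⊕ κ1) :=
    { toFun := fun x => match x with
        | Sum.inl (Sum.inl (Sum.inl i)) => Sum.inl i
        | Sum.inl (Sum.inl (Sum.inr i)) => Sum.inr (Sum.inl (Sum.inl i))
        | Sum.inl (Sum.inr i) => Sum.inr (Sum.inr i)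
        | Sum.inr i => Sum.inr (Sum.inl (Sum.inr i))
      invFun := fun x => match x with
        | Sum.inl i => Sum.inl (Sum.inl (Sum.inl i))
        | Sum.inr (Sum.inl (Sum.inl i)) => Sum.inl (Sum.inl (Sum.inr i))
        | Sum.inr (Sum.inr i) => Sum.inl (Sum.inr i)
        | Sum.inr (Sum.inl (Sum.inr i)) => Sum.inr i
      left_inv := by rintro (((i | i) | i) | i) <;> rfl
      right_inv := by rintro (i | ((i | i) | i)) <;> rfl }
  have h5 := h4.reindex e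
  have h6 : Ht (dg ρ (dg (dg ρ' σ2) σ1)) τ Z
      (fun q t => bs (u q t) (bs (bs (w q t) (1 : MM κ2)) (1 : MM κ1))) (fun _ _ => 1) := by
    refine nullc_cast h5 ?_ ?_ ?_
    · ext x y
      rcases x with x | ((x | x) | x) <;> rcases y with y | ((y | y) | y) <;>
        simp [dg, e]
    · funext q t
      ext ⟨x, s⟩ ⟨y, r⟩
      rcases x with x | ((x | x) | x) <;> rcases y with y | ((y | y) | y) <;>
        simp [bs, e, Matrix.one_apply]
    · funext q t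
      rw [bs_one]
      ext ⟨x, s⟩ ⟨y, r⟩
      rcases x with x | ((x | x) | x) <;> rcases y with y | ((y | y) | y) <;>
        simp [e, Matrix.one_apply]
  have h7 : Ht (dg ρ (dg (dg ρ' σ2) σ1)) τ Z
      (fun q t => bs (u q t) (bs (bs (w q t) (1 : MM κ2)) (1 : MM κ1)))
      (fun q t => bs (u q t) (1 : MM ((κ ⊕ κ2) ⊕ κ1))) := by
    refine nullc_cast h3 rfl rfl ?_
    funext q t
    simp only [bs_one]
  exact h7.symm.trans h6

theorem Null.cancel_one (hρ' : IsRep n ρ')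
    (h : Null n (dg ρ ρ') τ Z (fun q t => bs (u q t) (1 : MM κ))) : Null n ρ τ Z u := by
  rw [nullc_iff] at h ⊢
  obtain ⟨κ1, _, _, σ1, hσ1, h1⟩ := h
  refine ⟨κ ⊕ κ1, inferInstance, inferInstance, dg ρ' σ1, hρ'.dsum hσ1, ?_⟩
  have h3 := h1.reindex (Equiv.sumAssoc ι κ κ1)
  refine nullc_cast h3 ?_ ?_ ?_
  · ext x y
    rcases x with x | (x | x) <;> rcases y with y | (y | y) <;>
      simp [dg]
  · funext q t
    ext ⟨x, s⟩ ⟨y, r⟩
    rcases x with x | (x | x) <;> rcases y with y | (y | y) <;>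
      simp [bs, Matrix.one_apply]
  · funext q t
    ext ⟨x, s⟩ ⟨y, r⟩
    rcases x with x | (x | x) <;> rcases y with y | (y | y) <;>
      simp [Matrix.one_apply]

theorem Null.mul_iff (hρ : IsRep n ρ) (hu : IsEl ρ τ Z u) (hv : IsEl ρ τ Z v) :
    Null n (dg ρ ρ) τ Z (fun q t => bs (u q t) (v q t)) ↔
      Null n ρ τ Z (fun q t => u q t * v q t) := by
  have hr := ht_rot hu hv
  constructor
  · intro h
    exact Null.cancel_one hρ (Null.of_ht hr.symm h)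
  · intro h
    exact Null.of_ht hr (Null.bsum h Null.one)

theorem Null.isEl (hu : Null n ρ τ Z u) : IsEl ρ τ Z u := by
  rw [nullc_iff] at hu
  obtain ⟨κ1, _, _, σ1, hσ1, h1⟩ := hu
  have h := h1.left
  have key : ∀ q t, u q t = (bs (u q t) (1 : MM κ1)).submatrix (Prod.map Sum.inl id)
      (Prod.map Sum.inl id) := by
    intro q t
    ext ⟨x, s⟩ ⟨y, r⟩
    simp [bs]
  refine ⟨?_, ?_, ?_, ?_, ?_, ?_⟩
  · have h2 : (fun p : Q × UI => u p.1 p.2) = fun p : Q × UI =>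
        (bs (u p.1 p.2) (1 : MM κ1)).submatrix (Prod.map Sum.inl id) (Prod.map Sum.inl id) := by
      funext p; exact key p.1 p.2
    rw [h2]
    exact h.cont.matrix_submatrix _ _
  · intro q t
    exact ((isUnit_bs_iff _ _).1 (h.unit q t)).1
  · intro q
    obtain ⟨a, ha⟩ := h.zero q
    refine ⟨a.submatrix Sum.inl Sum.inl, ?_⟩
    rw [key q 0, ha, amp_submatrix]
  · intro q
    have h2 := h.one q
    rw [← bs_one] at h2
    exact (bs_injective h2).1
  · intro q hq t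
    have h2 := h.rel q hq t
    rw [← bs_one] at h2
    exact (bs_injective h2).1
  · intro q t
    have h2 := h.eqv q t
    rw [← bs_amp, bs_mul, bs_mul] at h2
    exact (bs_injective h2).1

theorem Null.inv (hu : Null n ρ τ Z u) : Null n ρ τ Z (fun q t => (u q t)⁻¹) := by
  have hel := hu.isEl
  rw [nullc_iff] at hu ⊢
  obtain ⟨κ1, _, _, σ1, hσ1, h1⟩ := hu
  refine ⟨κ1, inferInstance, inferInstance, σ1, hσ1, ?_⟩
  refine nullc_cast h1.inv rfl ?_ ?_
  · funext q t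
    rw [bs_inv (hel.unit q t) isUnit_one]
    simp
  · funext q t
    simp

end

end Pool.Agent.CRC
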