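import Pool.Agent.Lib.MP_13800a_gt.El
import Pool.Agent.Lib.MP_13800a_gt.SSDefs

/-! TASK OSKDefs: sections of the blow-up, the element `om`. -/

set_option autoImplicit false

open scoped Matrix Kronecker OnePoint
open Matrix

namespace Pool.Agent.CRC

/-- the homeomorphism of the Riemann sphere with the round sphere -/
noncomputable def hS : PP ≃ₜ S2 :=
  onePointEquivSphereOfFinrankEq (ι := Fin 3) (V := ℂ) (by simp)

/-- the base point of `S2` -/
noncomputable def ptS : S2 := hS ∞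

section
variable {n n' : ℕ} {E : Type} [TopologicalSpace E] {τ : E → E} (D : BUData n n' τ)

/-- the point of the blow-up given by the section over `T` -/
def BUData.secT (z : D.T) : D.set :=
  ⟨(z.1, fun c => D.sb z.1 (ZMod.castHom D.dvd (ZMod n) c)), Or.inr ⟨z.2, fun _ => rfl⟩⟩

/-- the point of the blow-up with all coordinates at the base point, over `R` -/
noncomputable def BUData.secR (z : D.R) : D.set :=
  ⟨(z.1, fun _ => ptS), Or.inl z.2⟩

/-- the action on `T`, `R` and `T ∩ R` -/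
def BUData.mapT (z : D.T) : D.T := ⟨τ z.1, D.hTi _ z.2⟩
def BUData.mapR (z : D.R) : D.R := ⟨τ z.1, D.hRi _ z.2⟩
def BUData.mapTR (z : (D.T ∩ D.R : Set E)) : (D.T ∩ D.R : Set E) :=
  ⟨τ z.1, D.hTi _ z.2.1, D.hRi _ z.2.2⟩

theorem BUData.continuous_secT : Continuous D.secT := by
  refine Continuous.subtype_mk ?_ _
  refine Continuous.prodMk continuous_subtype_val ?_
  have h : Continuous fun z : D.T => D.sb z.1 := continuousOn_iff_continuous_restrict.1 D.hsb
  exact continuous_pi fun c => (continuous_apply _).comp h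
theorem BUData.continuous_secR : Continuous D.secR :=
  Continuous.subtype_mk (Continuous.prodMk continuous_subtype_val continuous_const) _
theorem BUData.secT_map (z : D.T) : D.secT (D.mapT z) = D.map (D.secT z) := by
  apply Subtype.ext
  refine Prod.ext rfl ?_
  funext c
  change D.sb (τ z.1) (ZMod.castHom D.dvd (ZMod n) c) =
    D.sb z.1 (ZMod.castHom D.dvd (ZMod n) (c + 1))
  rw [D.hsbe _ z.2, map_add, map_one]
theorem BUData.secR_map (z : D.R) : D.secR (D.mapR z) = D.map (D.secR z) := rfl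

/-- `om(z,s) = U(secT z, s) U(secR z, s)⁻¹` over `(T ∩ R) × UI` -/
noncomputable def BUData.om {ι : Type} [Fintype ι] [DecidableEq ι]
    (U : D.set × UI → UI → MM ι) : (D.T ∩ D.R : Set E) × UI → UI → MM ι :=
  fun p t => U (D.secT ⟨p.1.1, p.1.2.1⟩, p.2) t * (U (D.secR ⟨p.1.1, p.1.2.2⟩, p.2) t)⁻¹

/-- the relative set `s ∈ {0, 1}` -/
def endsZ (Y : Type) : Set (Y × UI) := {p | p.2 = 0 ∨ p.2 = 1}

section
variable {ι : Type} [Fintype ι] [DecidableEq ι] {ρ : Matrix ι ι ℂ} {U : D.set × UI → UI → MM ι}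
  {u : E → UI → MM ι}

theorem BUData.isEl_om (hU : IsHt ρ D.map (∅ : Set D.set) U (fun p t => u p.1.1 t)
    (fun _ _ => 1)) :
    IsEl ρ (Prod.map D.mapTR (id : UI → UI)) (endsZ (D.T ∩ D.R : Set E)) (D.om U) := by
  obtain ⟨hU0, hU1, hU2⟩ := hU
  have h1 : IsEl ρ (Prod.map D.mapTR (id : UI → UI)) (∅ : Set ((D.T ∩ D.R : Set E) × UI))
      (fun p t => U ((fun p : (D.T ∩ D.R : Set E) × UI =>
        ((D.secT ⟨p.1.1, p.1.2.1⟩, p.2) : D.set × UI)) p) t) := by
    apply hU0.comp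
    · refine Continuous.prodMk (D.continuous_secT.comp ?_) continuous_snd
      exact Continuous.subtype_mk (continuous_subtype_val.comp continuous_fst) _
    · rintro ⟨q, s⟩
      refine Prod.ext ?_ rfl
      exact D.secT_map ⟨q.1, q.2.1⟩
    · intro q hq
      exact absurd hq (Set.notMem_empty q)
  have h2 : IsEl ρ (Prod.map D.mapTR (id : UI → UI)) (∅ : Set ((D.T ∩ D.R : Set E) × UI))
      (fun p t => U ((fun p : (D.T ∩ D.R : Set E) × UI =>
        ((D.secR ⟨p.1.1, p.1.2.2⟩, p.2) : D.set × UI)) p) t) := by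
    apply hU0.comp
    · refine Continuous.prodMk (D.continuous_secR.comp ?_) continuous_snd
      exact Continuous.subtype_mk (continuous_subtype_val.comp continuous_fst) _
    · rintro ⟨q, s⟩
      refine Prod.ext ?_ rfl
      exact D.secR_map ⟨q.1, q.2.2⟩
    · intro q hq
      exact absurd hq (Set.notMem_empty q)
  have h3 := h1.mul h2.inv
  refine ⟨h3.cont, h3.unit, h3.zero, h3.one, ?_, h3.eqv⟩
  rintro ⟨q, s⟩ hq t
  rcases hq with hq | hq
  · have hs : s = 0 := hq
    subst hs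
    change U (D.secT ⟨q.1, q.2.1⟩, 0) t * (U (D.secR ⟨q.1, q.2.2⟩, 0) t)⁻¹ = 1
    have h4 := hU1 (D.secT ⟨q.1, q.2.1⟩) t
    have h5 := hU1 (D.secR ⟨q.1, q.2.2⟩) t
    have h6 : U (D.secT ⟨q.1, q.2.1⟩, 0) t = U (D.secR ⟨q.1, q.2.2⟩, 0) t := h4.trans h5.symm
    rw [h6]
    exact Matrix.mul_nonsing_inv _ ((Matrix.isUnit_iff_isUnit_det _).1 (hU0.unit _ _))
  · have hs : s = 1 := hq
    subst hs
    change U (D.secT ⟨q.1, q.2.1⟩, 1) t * (U (D.secR ⟨q.1, q.2.2⟩, 1) t)⁻¹ = 1
    rw [hU2, hU2]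
    simp

end

end

end Pool.Agent.CRC
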