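import Pool.Agent.Lib.MP_13800a_gt.OSKDefs

/-! TASK OSKGlue. -/

set_option autoImplicit false

open scoped Matrix Kronecker OnePoint
open Matrix

namespace Pool.Agent.CRC

section
variable {n n' : ℕ} {E : Type} [TopologicalSpace E] {τ : E → E} (D : BUData n n' τ)
variable {ι : Type} [Fintype ι] [DecidableEq ι] {ρ : Matrix ι ι ℂ} {U : D.set × UI → UI → MM ι}
  {u : E → UI → MM ι}

/-- OSKb: gluing of two elements given over `T × UI` and `R × UI` -/
theorem BUData.glue (hu : IsEl ρ τ (∅ : Set E) u)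
    (VT : D.T × UI → UI → MM ι) (VR : D.R × UI → UI → MM ι)
    (hT : IsEl ρ (Prod.map D.mapT (id : UI → UI)) (∅ : Set (D.T × UI)) VT)
    (hR : IsEl ρ (Prod.map D.mapR (id : UI → UI)) (∅ : Set (D.R × UI)) VR)
    (hT0 : ∀ z t, VT (z, 0) t = u z.1 t) (hT1 : ∀ z t, VT (z, 1) t = 1)
    (hR0 : ∀ z t, VR (z, 0) t = u z.1 t) (hR1 : ∀ z t, VR (z, 1) t = 1)
    (hTR : ∀ (z : E) (h1 : z ∈ D.T) (h2 : z ∈ D.R) s t, VT (⟨z, h1⟩, s) t = VR (⟨z, h2⟩, s) t) :
    Ht ρ τ (∅ : Set E) u (fun _ _ => 1) := by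
  classical
  have hcov : ∀ z : E, z ∉ D.T → z ∈ D.R := by
    intro z hz
    have h1 : z ∈ D.T ∪ D.R := by rw [D.cover]; trivial
    exact h1.resolve_left hz
  let W : E × UI → UI → MM ι := fun p t =>
    if h : p.1 ∈ D.T then VT (⟨p.1, h⟩, p.2) t else VR (⟨p.1, hcov _ h⟩, p.2) t
  have hWT : ∀ (z : E) (h : z ∈ D.T) (s t : UI), W (z, s) t = VT (⟨z, h⟩, s) t := by
    intro z h s t
    simp only [W]
    rw [dif_pos h]
  have hWR : ∀ (z : E) (h : z ∈ D.R) (s t : UI), W (z, s) t = VR (⟨z, h⟩, s) t := by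
    intro z h s t
    by_cases h1 : z ∈ D.T
    · rw [hWT z h1, hTR z h1 h]
    · simp only [W]
      rw [dif_neg h1]
  -- reduction to the two pieces
  have hcase : ∀ z : E, z ∈ D.T ∨ z ∈ D.R := fun z => by
    by_cases h : z ∈ D.T
    · exact Or.inl h
    · exact Or.inr (hcov z h)
  have hcont : Continuous (fun p : (E × UI) × UI => W p.1 p.2) := by
    set ST : Set ((E × UI) × UI) := {p | p.1.1 ∈ D.T} with hST
    set SR : Set ((E × UI) × UI) := {p | p.1.1 ∈ D.R} with hSR
    have hfst : Continuous (fun p : (E × UI) × UI => p.1.1) := by fun_prop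
    have c1 : IsClosed ST := D.hT.preimage hfst
    have c2 : IsClosed SR := D.hR.preimage hfst
    have hun : ST ∪ SR = Set.univ := by
      ext p
      simp only [Set.mem_union, Set.mem_univ, iff_true]
      exact hcase p.1.1
    rw [← continuousOn_univ, ← hun]
    refine ContinuousOn.union_of_isClosed ?_ ?_ c1 c2
    · rw [continuousOn_iff_continuous_domRestrict]
      have h1 : ST.domRestrict (fun p : (E × UI) × UI => W p.1 p.2) =
          (fun p : (D.T × UI) × UI => VT p.1 p.2) ∘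
            (fun p : ST => (((⟨p.1.1.1, p.2⟩ : D.T), p.1.1.2), p.1.2)) := by
        funext p
        exact hWT _ _ _ _
      rw [h1]
      refine hT.cont.comp ?_
      fun_prop
    · rw [continuousOn_iff_continuous_domRestrict]
      have h1 : SR.domRestrict (fun p : (E × UI) × UI => W p.1 p.2) =
          (fun p : (D.R × UI) × UI => VR p.1 p.2) ∘
            (fun p : SR => (((⟨p.1.1.1, p.2⟩ : D.R), p.1.1.2), p.1.2)) := by
        funext p
        exact hWR _ _ _ _
      rw [h1]
      refine hR.cont.comp ?_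
      fun_prop
  refine ⟨W, ⟨hcont, ?_, ?_, ?_, ?_, ?_⟩, ?_, ?_⟩
  · rintro ⟨z, s⟩ t
    rcases hcase z with h | h
    · rw [hWT z h]; exact hT.unit _ _
    · rw [hWR z h]; exact hR.unit _ _
  · rintro ⟨z, s⟩
    rcases hcase z with h | h
    · rw [hWT z h]; exact hT.zero _
    · rw [hWR z h]; exact hR.zero _
  · rintro ⟨z, s⟩
    rcases hcase z with h | h
    · rw [hWT z h]; exact hT.one _
    · rw [hWR z h]; exact hR.one _
  · rintro p ⟨h, -⟩
    exact absurd h (Set.notMem_empty _)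
  · rintro ⟨z, s⟩ t
    rcases hcase z with h | h
    · have h1 := hT.eqv (⟨z, h⟩, s) t
      rw [hWT z h]
      show W (τ z, s) t * _ = _
      rw [hWT (τ z) (D.hTi _ h)]
      exact h1
    · have h1 := hR.eqv (⟨z, h⟩, s) t
      rw [hWR z h]
      show W (τ z, s) t * _ = _
      rw [hWR (τ z) (D.hRi _ h)]
      exact h1
  · intro z t
    rcases hcase z with h | h
    · rw [hWT z h, hT0]
    · rw [hWR z h, hR0]
  · intro z t
    rcases hcase z with h | h
    · rw [hWT z h, hT1]
    · rw [hWR z h, hR1]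

end

end Pool.Agent.CRC
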