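import Pool.Agent.Lib.MP_13800a_gt.OrbFacts

/-! TASK O2: the product action and the map `f : (E × A)/K → E/K`. -/

set_option autoImplicit false

namespace Pool.Agent.CRC

open Set Topology

variable {E A : Type} [MetricSpace E] [MetricSpace A] {actE : ℤ_[2] → E → E}
  {actA : ℤ_[2] → A → A}

/-- the diagonal action -/
def actProd (actE : ℤ_[2] → E → E) (actA : ℤ_[2] → A → A) : ℤ_[2] → E × A → E × A :=
  fun k p => (actE k p.1, actA k p.2)

theorem IsKAct.prod (hE : IsKAct actE) (hA : IsKAct actA) : IsKAct (actProd actE actA) where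
  zero x := Prod.ext (hE.zero x.1) (hA.zero x.2)
  add a b x := Prod.ext (hE.add a b x.1) (hA.add a b x.2)
  cont := by
    have h1 : Continuous fun p : ℤ_[2] × (E × A) => actE p.1 p.2.1 :=
      hE.cont.comp (Continuous.prodMk continuous_fst (continuous_fst.comp continuous_snd))
    have h2 : Continuous fun p : ℤ_[2] × (E × A) => actA p.1 p.2.2 :=
      hA.cont.comp (Continuous.prodMk continuous_fst (continuous_snd.comp continuous_snd))
    exact h1.prodMk h2
  isom a := by
    refine Isometry.of_dist_eq fun x y => ?_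
    change max (dist (actE a x.1) (actE a y.1)) (dist (actA a x.2) (actA a y.2)) =
      max (dist x.1 y.1) (dist x.2 y.2)
    rw [(hE.isom a).dist_eq, (hA.isom a).dist_eq]
  free a x hx := hE.free a x.1 (congrArg Prod.fst hx)

/-- the map `f` -/
noncomputable def fmap (hE : IsKAct actE) (hA : IsKAct actA) (O : Orb (hE.prod hA)) : Orb hE :=
  pr hE (Classical.choose O.2).1

theorem fmap_pr (hE : IsKAct actE) (hA : IsKAct actA) (e : E) (a : A) :
    fmap hE hA (pr (hE.prod hA) (e, a)) = pr hE e := by
  have hs := Classical.choose_spec (pr (hE.prod hA) (e, a)).2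
  have h1 : pr (hE.prod hA) (Classical.choose (pr (hE.prod hA) (e, a)).2) =
      pr (hE.prod hA) (e, a) := Subtype.ext hs
  obtain ⟨k, hk⟩ := (pr_eq_iff (hE.prod hA)).1 h1
  have h2 : (Classical.choose (pr (hE.prod hA) (e, a)).2).1 = actE k e := by
    rw [← hk]; rfl
  unfold fmap
  rw [h2]
  exact pr_act hE k e

theorem fmap_continuous (hE : IsKAct actE) (hA : IsKAct actA) : Continuous (fmap hE hA) := by
  have hq : IsQuotientMap (pr (hE.prod hA)) :=
    (isOpenMap_pr (hE.prod hA)).isQuotientMap (continuous_pr _) (pr_surjective _)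
  rw [hq.continuous_iff]
  have h : fmap hE hA ∘ pr (hE.prod hA) = fun p : E × A => pr hE p.1 := by
    funext p
    exact fmap_pr hE hA p.1 p.2
  rw [h]
  exact (continuous_pr hE).comp continuous_fst

theorem fmap_surjective [Nonempty A] (hE : IsKAct actE) (hA : IsKAct actA) :
    Function.Surjective (fmap hE hA) := by
  intro y
  obtain ⟨e, rfl⟩ := pr_surjective hE y
  obtain ⟨a⟩ := (inferInstance : Nonempty A)
  exact ⟨pr (hE.prod hA) (e, a), fmap_pr hE hA e a⟩

theorem fmap_proper [CompactSpace E] [CompactSpace A] (hE : IsKAct actE) (hA : IsKAct actA) :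
    IsProperMap (fmap hE hA) := by
  have := compactSpace_orb (hE.prod hA)
  exact (fmap_continuous hE hA).isProperMap

end Pool.Agent.CRC
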