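import Pool.Agent.Lib.MP_13800a_gt.OrbFib
import Pool.Agent.Lib.MP_13800a_gt.TowerA

/-! The counterexample in explicit form. -/

set_option autoImplicit false

namespace Pool.Agent.CRC.Own

open Set Topology

/-- `Z` is an absolute neighbourhood extensor for compact metric spaces: each continuous map from a
closed subset `C` of a compact metric space `B` to `Z` extends continuously to an open set `W`
containing `C`. Each metric ANR, and each open subset of a metric ANR, has this property. -/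
def IsANE (Z : Type) [TopologicalSpace Z] : Prop :=
  ∀ (B : Type) [MetricSpace B] [CompactSpace B] (C : Set B), IsClosed C → ∀ g : C(C, Z),
    ∃ (W : Set B) (_ : IsOpen W) (hCW : C ⊆ W) (G : C(W, Z)), ∀ c : C, G (Set.inclusion hCW c) = g c

/-- The space `A` is nonempty and compact, and each continuous map `e` (in particular each
embedding) from `A` to an absolute neighbourhood extensor `Z` is null-homotopic in each open set
`U` of `Z` that contains the image of `e`. -/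
def CellLikeSpace (A : Type) [TopologicalSpace A] : Prop :=
  Nonempty A ∧ CompactSpace A ∧ ∀ (Z : Type) [TopologicalSpace Z], IsANE Z → ∀ e : A → Z,
    Continuous e → ∀ U : Set Z, IsOpen U → Set.range e ⊆ U →
      ∃ H : unitInterval × A → Z, Continuous H ∧ (∀ a, H (0, a) = e a) ∧
        (∃ q : Z, ∀ a, H (1, a) = q) ∧ ∀ t a, H (t, a) ∈ U

theorem cellLikeSpace_of {A : Type} [MetricSpace A] [CompactSpace A] [Nonempty A]
    (h : CellLike A) : CellLikeSpace A := by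
  refine ⟨inferInstance, inferInstance, ?_⟩
  intro Z _ hZ e he U hU hr
  obtain ⟨i, hi⟩ := Metric.PiNatEmbed.exists_embedding_to_hilbert_cube (X := A)
  let _ : MetricSpace (ℕ → unitInterval) := PiCountable.metricSpace
  have hcl : IsClosed (Set.range i) := (isCompact_range hi.continuous).isClosed
  let φ : A ≃ₜ Set.range i := hi.toHomeomorph
  obtain ⟨W, hW, hCW, G, hG⟩ := hZ (ℕ → unitInterval) (Set.range i) hcl
    ⟨fun c => e (φ.symm c), he.comp φ.symm.continuous⟩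
  let V : Set (ℕ → unitInterval) := Subtype.val '' (G ⁻¹' U)
  have hV : IsOpen V := hW.isOpenMap_subtype_val _ (hU.preimage G.continuous)
  have hVW : V ⊆ W := by
    rintro _ ⟨w, -, rfl⟩
    exact w.2
  have hiV : Set.range i ⊆ V := by
    rintro _ ⟨a, rfl⟩
    refine ⟨⟨i a, hCW ⟨a, rfl⟩⟩, ?_, rfl⟩
    have h1 := hG ⟨i a, ⟨a, rfl⟩⟩
    have h2 : G ⟨i a, hCW ⟨a, rfl⟩⟩ = e (φ.symm ⟨i a, ⟨a, rfl⟩⟩) := h1
    have h3 : φ.symm ⟨i a, ⟨a, rfl⟩⟩ = a := φ.symm_apply_apply a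
    show G ⟨i a, hCW ⟨a, rfl⟩⟩ ∈ U
    rw [h2, h3]
    exact hr ⟨a, rfl⟩
  obtain ⟨H, hH, h0, ⟨q, hq⟩, hin⟩ := h i hi V hV hiV
  refine ⟨fun p => G ⟨H p, hVW (hin p.1 p.2)⟩, G.continuous.comp (hH.subtype_mk _), ?_, ?_, ?_⟩
  · intro a
    have h1 : G ⟨i a, hCW ⟨a, rfl⟩⟩ = e (φ.symm ⟨i a, ⟨a, rfl⟩⟩) := hG ⟨i a, ⟨a, rfl⟩⟩
    have h3 : φ.symm ⟨i a, ⟨a, rfl⟩⟩ = a := φ.symm_apply_apply a
    rw [h3] at h1
    rw [← h1]
    exact congrArg G (Subtype.ext (h0 a))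
  · obtain ⟨a0⟩ := (inferInstance : Nonempty A)
    refine ⟨G ⟨q, by rw [← hq a0]; exact hVW (hin 1 a0)⟩, fun a => ?_⟩
    exact congrArg G (Subtype.ext (hq a))
  · intro t a
    obtain ⟨w, hw, hwe⟩ := hin t a
    have : (⟨H (t, a), hVW (hin t a)⟩ : W) = w := Subtype.ext hwe.symm
    show G ⟨H (t, a), hVW (hin t a)⟩ ∈ U
    rw [this]
    exact hw

theorem cellLikeSpace_homeo {A B : Type} [TopologicalSpace A] [TopologicalSpace B] (φ : A ≃ₜ B)
    (h : CellLikeSpace A) : CellLikeSpace B := by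
  obtain ⟨h1, h2, h3⟩ := h
  refine ⟨h1.map φ, φ.compactSpace, ?_⟩
  intro Z _ hZ e he U hU hr
  obtain ⟨H, hH, h0, ⟨q, hq⟩, hin⟩ := h3 Z hZ (e ∘ φ) (he.comp φ.continuous) U hU (by
    rw [Set.range_comp, φ.surjective.range_eq, Set.image_univ]
    exact hr)
  refine ⟨fun p => H (p.1, φ.symm p.2),
    hH.comp (Continuous.prodMk continuous_fst (φ.symm.continuous.comp continuous_snd)), ?_,
    ⟨q, fun k => hq _⟩, fun t k => hin t _⟩
  intro k
  change H (0, φ.symm k) = e k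
  rw [h0, Function.comp_apply, φ.apply_symm_apply]

/-- Property (HA) with the explicit bound `M`. -/
def HAM (M : ℕ) {A : Type} [MetricSpace A] (act : ℤ_[2] → A → A) : Prop :=
  ∀ (N : ℕ) (ε : ℝ), 0 < ε → ∃ (N' : ℕ) (m : ℕ) (T : Fin m → Set A), N ≤ N' ∧
    (∀ i, IsOpen (T i)) ∧ (∀ i, ∀ x ∈ T i, ∀ y ∈ T i, dist x y < ε) ∧
    (∀ i, ∀ k : ℤ_[2], ∀ x ∈ T i, act k x ∈ T i → (2 : ℤ_[2]) ^ N' ∣ k) ∧
    (∀ x, ∃ i, ∃ k, act k x ∈ T i) ∧ ∀ x, Set.ncard {i | ∃ k, act k x ∈ T i} ≤ M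

theorem ham_of_levels (T : Tower) (M : ℕ)
    (h : ∀ j (r : ℝ), 0 < r → ∃ (m : ℕ) (V : Fin m → Set (T.S j)), (∀ i, IsOpen (V i)) ∧
      (∀ i, ∀ x ∈ V i, ∀ y ∈ V i, dist x y < r) ∧
      (∀ i, ∀ x ∈ V i, ∀ l, 0 < l → l < 2 ^ T.k j → (T.τ j)^[l] x ∉ V i) ∧
      (∀ x, ∃ i, ∃ l, (T.τ j)^[l] x ∈ V i) ∧
      ∀ x, Set.ncard {i | ∃ l, (T.τ j)^[l] x ∈ V i} ≤ M) : HAM M T.act := by
  intro N ε hε
  obtain ⟨j0, hj0⟩ := T.dist_lt_of_proj_dist_lt ε hε
  obtain ⟨δ, hδ, hδε⟩ := hj0 (max j0 N) (le_max_left _ _)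
  obtain ⟨m, V, hV1, hV2, hV3, hV4, hV5⟩ := h (max j0 N) δ hδ
  refine ⟨T.k (max j0 N), m, fun i => T.proj (max j0 N) ⁻¹' V i,
    (le_max_right _ _).trans (T.kmono.le_apply), ?_, ?_, ?_, ?_, ?_⟩
  · intro i
    exact (hV1 i).preimage (T.continuous_proj _)
  · intro i x hx y hy
    exact hδε x y (hV2 i _ hx _ hy)
  · intro i k x hx hkx
    rw [← T.num_eq_zero_iff]
    by_contra hne
    have hkx' : (T.τ (max j0 N))^[T.num (max j0 N) k] (T.proj (max j0 N) x) ∈ V i := hkx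
    exact hV3 i _ hx _ (Nat.pos_of_ne_zero hne) (T.num_lt _ _) hkx'
  · intro x
    obtain ⟨i, l, hl⟩ := hV4 (T.proj (max j0 N) x)
    refine ⟨i, (l : ℤ_[2]), ?_⟩
    show (T.τ (max j0 N))^[T.num (max j0 N) (l : ℤ_[2])] (T.proj (max j0 N) x) ∈ V i
    rw [T.num_natCast]
    exact hl
  · intro x
    refine le_trans (Set.ncard_le_ncard ?_ (Set.toFinite _)) (hV5 (T.proj (max j0 N) x))
    rintro i ⟨k, hk⟩
    exact ⟨T.num (max j0 N) k, hk⟩

theorem exists_A64 : ∃ (A : Type) (_ : MetricSpace A) (_ : CompactSpace A) (_ : Nonempty A)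
    (act : ℤ_[2] → A → A), IsKAct act ∧ HAM 64 act ∧ CellLike A := by
  refine ⟨towerA.Lim, inferInstance, inferInstance, inferInstance, towerA.act,
    towerA.isKAct, ham_of_levels towerA 64 ?_, towerA.cellLike ?_⟩
  · intro j r hr
    exact level_HA (2 ^ 2 ^ j) (by positivity) r hr
  · intro j
    exact (exists_bond (2 ^ 2 ^ j) (by positivity)).choose_spec.2.2

/-- Each open cover has a finite open refinement whose multiplicity is at most `M`. -/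
theorem refine_of_small_covers {X : Type} [MetricSpace X] [CompactSpace X] (M : ℕ)
    (h : ∀ ε : ℝ, 0 < ε → ∃ (m : ℕ) (W : Fin m → Set X), (∀ i, IsOpen (W i)) ∧
      (∀ i, ∀ x ∈ W i, ∀ y ∈ W i, dist x y < ε) ∧ (∀ x, ∃ i, x ∈ W i) ∧
      ∀ x, Set.ncard {i | x ∈ W i} ≤ M) :
    ∀ 𝒰 : Set (Set X), (∀ U ∈ 𝒰, IsOpen U) → ⋃₀ 𝒰 = Set.univ →
      ∃ 𝒱 : Set (Set X), 𝒱.Finite ∧ (∀ V ∈ 𝒱, IsOpen V) ∧ ⋃₀ 𝒱 = Set.univ ∧
        (∀ V ∈ 𝒱, ∃ U ∈ 𝒰, V ⊆ U) ∧ ∀ x, {V ∈ 𝒱 | x ∈ V}.encard ≤ M := by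
  intro 𝒰 hU hcov
  obtain ⟨δ, hδ, hL⟩ := lebesgue_number_lemma_of_metric_sUnion (s := (Set.univ : Set X))
    (c := 𝒰) isCompact_univ hU (by rw [hcov])
  obtain ⟨m, W, hWo, hWd, hWc, hWM⟩ := h δ hδ
  refine ⟨{V | V ∈ Set.range W ∧ V.Nonempty}, ?_, ?_, ?_, ?_, ?_⟩
  · exact (Set.finite_range W).subset fun V hV => hV.1
  · rintro _ ⟨⟨i, rfl⟩, -⟩
    exact hWo i
  · apply Set.eq_univ_of_forall
    intro x
    obtain ⟨i, hi⟩ := hWc x
    exact ⟨W i, ⟨⟨i, rfl⟩, ⟨x, hi⟩⟩, hi⟩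
  · rintro _ ⟨⟨i, rfl⟩, ⟨x, hx⟩⟩
    obtain ⟨U, hU1, hU2⟩ := hL x (Set.mem_univ x)
    refine ⟨U, hU1, fun y hy => hU2 ?_⟩
    rw [Metric.mem_ball]
    exact hWd i y hy x hx
  · intro x
    have hsub : {V ∈ {V | V ∈ Set.range W ∧ V.Nonempty} | x ∈ V} ⊆ W '' {i | x ∈ W i} := by
      rintro _ ⟨⟨⟨i, rfl⟩, -⟩, hx⟩
      exact ⟨i, hx, rfl⟩
    calc {V ∈ {V | V ∈ Set.range W ∧ V.Nonempty} | x ∈ V}.encard
        ≤ (W '' {i | x ∈ W i}).encard := Set.encard_le_encard hsub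
      _ ≤ {i | x ∈ W i}.encard := Set.encard_image_le _ _
      _ = ({i | x ∈ W i}.ncard : ℕ∞) := ((Set.toFinite _).cast_ncard_eq).symm
      _ ≤ M := by exact_mod_cast hWM x

/-- The negation of finite covering dimension (finite covers, finite refinements) on a compact
space gives finite covers without any open refinement of small multiplicity. -/
theorem not_refine_of_not_finDim {Y : Type} [TopologicalSpace Y] [CompactSpace Y]
    (h : ¬ FinDim Y) : ∀ n : ℕ, ∃ 𝒰 : Set (Set Y), 𝒰.Finite ∧ (∀ U ∈ 𝒰, IsOpen U) ∧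
      ⋃₀ 𝒰 = Set.univ ∧ ¬ ∃ 𝒱 : Set (Set Y), (∀ V ∈ 𝒱, IsOpen V) ∧ ⋃₀ 𝒱 = Set.univ ∧
        (∀ V ∈ 𝒱, ∃ U ∈ 𝒰, V ⊆ U) ∧ ∀ y, {V ∈ 𝒱 | y ∈ V}.encard ≤ n := by
  intro n
  by_contra hcon
  apply h
  refine ⟨n, fun 𝒰 hU hcov => ?_⟩
  by_contra hno
  apply hcon
  refine ⟨↑𝒰, 𝒰.finite_toSet, fun U hUU => hU U (by simpa using hUU), hcov, ?_⟩
  rintro ⟨𝒱, hV1, hV2, hV3, hV4⟩
  apply hno
  obtain ⟨T, hT⟩ := isCompact_univ.elim_finite_subcover (fun V : 𝒱 => (V : Set Y))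
    (fun V => hV1 V V.2) (by
      intro y _
      have : y ∈ ⋃₀ 𝒱 := by rw [hV2]; trivial
      obtain ⟨V, hV, hy⟩ := this
      exact mem_iUnion.2 ⟨⟨V, hV⟩, hy⟩)
  classical
  refine ⟨T.image Subtype.val, ?_, ?_, ?_, ?_⟩
  · intro V hV
    obtain ⟨v, -, rfl⟩ := Finset.mem_image.1 hV
    exact hV1 _ v.2
  · apply Set.eq_univ_of_forall
    intro y
    obtain ⟨V, hV⟩ := mem_iUnion.1 (hT (mem_univ y))
    obtain ⟨hVT, hy⟩ := mem_iUnion.1 hV
    exact ⟨V, by simpa using hVT, hy⟩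
  · intro V hV
    obtain ⟨v, -, rfl⟩ := Finset.mem_image.1 hV
    obtain ⟨U, hU1, hU2⟩ := hV3 _ v.2
    exact ⟨U, by simpa using hU1, hU2⟩
  · intro 𝒮 hS hcard
    by_contra hne
    obtain ⟨y, hy⟩ := Set.nonempty_iff_ne_empty.mpr hne
    have hsub : (↑𝒮 : Set (Set Y)) ⊆ {V ∈ 𝒱 | y ∈ V} := by
      intro V hV
      obtain ⟨v, -, rfl⟩ := Finset.mem_image.1 (hS hV)
      exact ⟨v.2, hy _ hV⟩
    have h1 : (𝒮.card : ℕ∞) ≤ n := by
      rw [← Set.encard_coe_eq_coe_finsetCard]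
      exact (Set.encard_le_encard hsub).trans (hV4 y)
    have h2 : 𝒮.card ≤ n := by exact_mod_cast h1
    omega

variable {E A : Type} [MetricSpace E] [MetricSpace A] {actE : ℤ_[2] → E → E}
  {actA : ℤ_[2] → A → A}

theorem covers_prod [CompactSpace E] [CompactSpace A] (hE : IsKAct actE) (hA : IsKAct actA)
    (h1 : HE actE) {M : ℕ} (hM : HAM M actA) (ε : ℝ) (hε : 0 < ε) :
    ∃ (m : ℕ) (W : Fin m → Set (Orb (hE.prod hA))), (∀ i, IsOpen (W i)) ∧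
      (∀ i, ∀ x ∈ W i, ∀ y ∈ W i, dist x y < ε) ∧ (∀ x, ∃ i, x ∈ W i) ∧
      ∀ x, Set.ncard {i | x ∈ W i} ≤ 3 * M := by
  classical
  obtain ⟨N, m1, V, hVo, hVd, hVi, hVc, hV3⟩ := h1 ε hε
  obtain ⟨N', m2, T, hN, hTo, hTd, hTi, hTc, hTM⟩ := hM N ε hε
  refine ⟨m1 * m2, fun l => pr (hE.prod hA) ''
    (V (finProdFinEquiv.symm l).1 ×ˢ T (finProdFinEquiv.symm l).2), ?_, ?_, ?_, ?_⟩
  · intro l
    exact isOpenMap_pr (hE.prod hA) _ ((hVo _).prod (hTo _))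
  · rintro l x ⟨⟨e, a⟩, ⟨he, ha⟩, rfl⟩ y ⟨⟨e', a'⟩, ⟨he', ha'⟩, rfl⟩
    refine (dist_pr_le (hE.prod hA) _ _).trans_lt ?_
    rw [Prod.dist_eq]
    exact max_lt (hVd _ _ he _ he') (hTd _ _ ha _ ha')
  · intro x
    obtain ⟨⟨e, a⟩, rfl⟩ := pr_surjective (hE.prod hA) x
    obtain ⟨j, k, hk⟩ := hTc a
    obtain ⟨i, hi⟩ := hVc (actE k e)
    refine ⟨finProdFinEquiv (i, j), (actE k e, actA k a), ?_, pr_act (hE.prod hA) k (e, a)⟩
    simp only [Equiv.symm_apply_apply]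
    exact ⟨hi, hk⟩
  · intro x
    obtain ⟨⟨e, a⟩, rfl⟩ := pr_surjective (hE.prod hA) x
    -- indices
    let J : Finset (Fin m2) := Finset.univ.filter fun j => ∃ k, actA k a ∈ T j
    have hJ : J.card ≤ M := by
      have := hTM a
      have h3 : (↑J : Set (Fin m2)) = {j | ∃ k, actA k a ∈ T j} := by
        ext j; simp [J]
      rw [← h3, Set.ncard_coe_finset] at this
      exact this
    have hch : ∀ j : Fin m2, ∃ k : ℤ_[2], (∃ k', actA k' a ∈ T j) → actA k a ∈ T j := by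
      intro j
      by_cases hj : ∃ k', actA k' a ∈ T j
      · obtain ⟨k, hk⟩ := hj
        exact ⟨k, fun _ => hk⟩
      · exact ⟨0, fun h => absurd h hj⟩
    choose κ hκ using hch
    let I : Fin m2 → Finset (Fin m1) := fun j => Finset.univ.filter fun i => actE (κ j) e ∈ V i
    have hI : ∀ j, (I j).card ≤ 3 := by
      intro j
      have := hV3 (actE (κ j) e)
      have h3 : (↑(I j) : Set (Fin m1)) = {i | actE (κ j) e ∈ V i} := by
        ext i; simp [I]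
      rw [← h3, Set.ncard_coe_finset] at this
      exact this
    let P : Finset (Fin (m1 * m2)) := J.biUnion fun j => (I j).image fun i => finProdFinEquiv (i, j)
    have hP : P.card ≤ 3 * M := by
      calc P.card ≤ J.card * 3 := by
            apply Finset.card_biUnion_le_card_mul
            intro j _
            exact Finset.card_image_le.trans (hI j)
        _ ≤ 3 * M := by omega
    have hsub : {l | pr (hE.prod hA) (e, a) ∈ pr (hE.prod hA) ''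
        (V (finProdFinEquiv.symm l).1 ×ˢ T (finProdFinEquiv.symm l).2)} ⊆ (↑P : Set _) := by
      intro l hl
      obtain ⟨⟨e', a'⟩, ⟨he', ha'⟩, hea⟩ := hl
      obtain ⟨k, hk⟩ := (pr_eq_iff (hE.prod hA)).mp hea
      have hk1 : actE k e = e' := congrArg Prod.fst hk
      have hk2 : actA k a = a' := congrArg Prod.snd hk
      obtain ⟨⟨i, j⟩, rfl⟩ := finProdFinEquiv.surjective l
      simp only [Equiv.symm_apply_apply] at he' ha'
      subst hk1 hk2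
      have hjJ : ∃ k', actA k' a ∈ T j := ⟨k, ha'⟩
      have hκj := hκ j hjJ
      have hdv : (2 : ℤ_[2]) ^ N' ∣ k - κ j := by
        apply hTi j (k - κ j) (actA (κ j) a) hκj
        rw [← hA.add, sub_add_cancel]
        exact ha'
      have hdv2 : (2 : ℤ_[2]) ^ N ∣ κ j - k := by
        have := (pow_dvd_pow (2 : ℤ_[2]) hN).trans hdv
        rw [← neg_sub]
        exact (dvd_neg).mpr this
      have hiI : actE (κ j) e ∈ V i := by
        have := hVi i (κ j - k) hdv2 (actE k e) he'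
        rw [← hE.add, sub_add_cancel] at this
        exact this
      simp only [P, Finset.coe_biUnion, Set.mem_iUnion, Finset.mem_coe, Finset.mem_image, I, J,
        Finset.mem_filter, Finset.mem_univ, true_and]
      exact ⟨j, hjJ, i, hiI, rfl⟩
    calc _ ≤ Set.ncard (↑P : Set (Fin (m1 * m2))) := Set.ncard_le_ncard hsub (Set.toFinite _)
      _ = P.card := Set.ncard_coe_finset P
      _ ≤ 3 * M := hP

/-- complete regularity with `δ = ε`, uniformly in the fibre -/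
theorem fmap_regular_unif [CompactSpace A] (hE : IsKAct actE) (hA : IsKAct actA) :
    ∀ (y y' : Orb hE) (ε : ℝ), dist y y' < ε →
        ∃ h : ↥(fmap hE hA ⁻¹' {y}) ≃ₜ ↥(fmap hE hA ⁻¹' {y'}),
          ∀ x : ↥(fmap hE hA ⁻¹' {y}),
            dist (x : Orb (hE.prod hA)) ((h x : ↥(fmap hE hA ⁻¹' {y'})) : Orb (hE.prod hA)) < ε := by
  intro y y' ε hy'
  have hε : 0 < ε := lt_of_le_of_lt dist_nonneg hy'
  obtain ⟨e, rfl⟩ := pr_surjective hE y
  obtain ⟨t, rfl⟩ := pr_surjective hE y'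
  obtain ⟨k, hk⟩ := exists_act_of_dist_lt hE hy'
  obtain ⟨φ, hφ⟩ := exists_fibre_homeo hE hA e (pr hE e) rfl
  obtain ⟨ψ, hψ⟩ := exists_fibre_homeo hE hA (actE k t) (pr hE t) (pr_act hE k t).symm
  refine ⟨φ.symm.trans ψ, fun x => ?_⟩
  obtain ⟨a, rfl⟩ := φ.surjective x
  have h1 : (φ.symm.trans ψ) (φ a) = ψ a := by
    rw [Homeomorph.trans_apply, φ.symm_apply_apply]
  rw [h1, hφ, hψ]
  refine lt_of_le_of_lt (dist_pr_le (hE.prod hA) _ _) ?_
  rw [Prod.dist_eq]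
  change max (dist e (actE k t)) (dist a a) < ε
  rw [dist_self, max_lt_iff]
  exact ⟨hk, hε⟩

end Pool.Agent.CRC.Own
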