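import Pool.Agent.Lib.MP_13800a_gt.El

/-! TASK Rot: rotation homotopies (on the level of elements). -/

set_option autoImplicit false

open scoped Matrix Kronecker
open Matrix

namespace Pool.Agent.CRC

/-! ### private helper lemmas -/

section rot_aux

private theorem rot_conj_mul {m n : Type} [Fintype m] [DecidableEq m] [Fintype n] [DecidableEq n]
    (W : Matrix n m ℂ) (W' : Matrix m n ℂ) (u v : Matrix m m ℂ)
    (h1 : W * W' * W = W) (h2 : W' * W * W' = W') (hv : (1 - W' * W) * v = 1 - W' * W) :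
    (W * u * W' + (1 - W * W')) * (W * v * W' + (1 - W * W')) = W * (u * v) * W' + (1 - W * W') := by
  have hv' : W' * W * v = v - (1 - W' * W) := by
    rw [Matrix.sub_mul, Matrix.one_mul] at hv
    rw [← hv]; abel
  have e1 : (W * u * W') * (W * v * W') = W * (u * v) * W' := by
    calc (W * u * W') * (W * v * W') = W * u * (W' * W * v) * W' := by
          simp only [Matrix.mul_assoc]
      _ = W * u * (v - (1 - W' * W)) * W' := by rw [hv']
      _ = W * u * v * W' - (W * u * W' - W * u * (W' * W * W')) := by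
          simp only [Matrix.mul_sub, Matrix.sub_mul, Matrix.mul_one, Matrix.mul_assoc]
      _ = W * (u * v) * W' := by rw [h2, sub_self, sub_zero, Matrix.mul_assoc W u v]
  have e2 : (W * u * W') * (1 - W * W') = 0 := by
    rw [Matrix.mul_sub, Matrix.mul_one]
    have : W * u * W' * (W * W') = W * u * (W' * W * W') := by simp only [Matrix.mul_assoc]
    rw [this, h2, sub_self]
  have e3 : (1 - W * W') * (W * v * W') = 0 := by
    rw [Matrix.sub_mul, Matrix.one_mul]
    have : W * W' * (W * v * W') = (W * W' * W) * v * W' := by simp only [Matrix.mul_assoc]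
    rw [this, h1, sub_self]
  have e4 : (1 - W * W') * (1 - W * W') = 1 - W * W' := by
    rw [Matrix.mul_sub, Matrix.mul_one, Matrix.sub_mul, Matrix.one_mul]
    have : W * W' * (W * W') = (W * W' * W) * W' := by simp only [Matrix.mul_assoc]
    rw [this, h1, sub_self, sub_zero]
  rw [Matrix.mul_add, Matrix.add_mul, Matrix.add_mul, e1, e2, e3, e4]
  abel

private theorem rot_conj_one {m n : Type} [Fintype m] [DecidableEq m] [Fintype n] [DecidableEq n]
    (W : Matrix n m ℂ) (W' : Matrix m n ℂ) :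
    W * (1 : Matrix m m ℂ) * W' + (1 - W * W') = 1 := by
  rw [Matrix.mul_one]; abel

private theorem rot_isUnit_conj {m n : Type} [Fintype m] [DecidableEq m] [Fintype n]
    [DecidableEq n] (W : Matrix n m ℂ) (W' : Matrix m n ℂ) (u : Matrix m m ℂ)
    (h1 : W * W' * W = W) (h2 : W' * W * W' = W') (hv : (1 - W' * W) * u = 1 - W' * W)
    (hu : IsUnit u) : IsUnit (W * u * W' + (1 - W * W')) := by
  obtain ⟨x, rfl⟩ := hu
  have hx : (1 - W' * W) * (↑x⁻¹ : Matrix m m ℂ) = 1 - W' * W := by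
    conv_lhs => rw [← hv]
    rw [Matrix.mul_assoc, Units.mul_inv, Matrix.mul_one]
  have a1 := rot_conj_mul W W' (↑x) (↑x⁻¹) h1 h2 hx
  rw [Units.mul_inv, rot_conj_one] at a1
  have a2 := rot_conj_mul W W' (↑x⁻¹) (↑x) h1 h2 hv
  rw [Units.inv_mul, rot_conj_one] at a2
  exact ⟨⟨_, _, a1, a2⟩, rfl⟩

private theorem rot_amp_fromBlocks {ι κ ι' κ' : Type} (a : Matrix ι ι' ℂ) (b : Matrix ι κ' ℂ)
    (c : Matrix κ ι' ℂ) (d : Matrix κ κ' ℂ) :
    amp (Matrix.fromBlocks a b c d) =
      (Matrix.fromBlocks (amp a) (amp b) (amp c) (amp d)).submatrix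
        (Equiv.sumProdDistrib ι κ (Fin 2)) (Equiv.sumProdDistrib ι' κ' (Fin 2)) := by
  ext ⟨i, x⟩ ⟨j, y⟩
  rcases i with i | i <;> rcases j with j | j <;>
    simp [amp, Matrix.submatrix_apply, Equiv.sumProdDistrib]

end rot_aux

section
variable {Q ι κ : Type} [TopologicalSpace Q]
  [Fintype ι] [DecidableEq ι] [Fintype κ] [DecidableEq κ]
  {ρ : Matrix ι ι ℂ} {ρ' : Matrix κ κ ℂ} {τ : Q → Q} {Z : Set Q}
  {u v : Q → UI → MM ι}

/-- The hypotheses of the partial isometry lemma: `w : Q → Matrix κ ι`, `w' : Q → Matrix ι κ`,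
`w w' w = w`, `w' w w' = w'`, intertwining `ρ` and `ρ'`, and `u` is the identity on the complement
of the idempotent `w' w`. -/
structure PartData (ρ : Matrix ι ι ℂ) (ρ' : Matrix κ κ ℂ) (τ : Q → Q)
    (u : Q → UI → MM ι) (w : Q → Matrix κ ι ℂ) (w' : Q → Matrix ι κ ℂ) : Prop where
  cw : Continuous w
  cw' : Continuous w'
  www : ∀ q, w q * w' q * w q = w q
  www' : ∀ q, w' q * w q * w' q = w' q
  int : ∀ q, w (τ q) * ρ = ρ' * w q
  int' : ∀ q, w' (τ q) * ρ' = ρ * w' q
  right : ∀ q t, u q t * amp (1 - w' q * w q) = amp (1 - w' q * w q)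
  left : ∀ q t, amp (1 - w' q * w q) * u q t = amp (1 - w' q * w q)

/-- the transported element `w u w' + (1 - w w')` -/
noncomputable def conjEl (u : Q → UI → MM ι) (w : Q → Matrix κ ι ℂ) (w' : Q → Matrix ι κ ℂ) :
    Q → UI → MM κ :=
  fun q t => amp (w q) * u q t * amp (w' q) + amp (1 - w q * w' q)

private theorem rot_conjEl_eq (u : Q → UI → MM ι) (w : Q → Matrix κ ι ℂ) (w' : Q → Matrix ι κ ℂ)
    (q : Q) (t : UI) :
    conjEl u w w' q t
      = amp (w q) * u q t * amp (w' q) + (1 - amp (w q) * amp (w' q)) := by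
  unfold conjEl
  rw [amp_sub, amp_one, amp_mul]

theorem PartData.isEl {w : Q → Matrix κ ι ℂ} {w' : Q → Matrix ι κ ℂ}
    (h : PartData ρ ρ' τ u w w') (hu : IsEl ρ τ Z u) : IsEl ρ' τ Z (conjEl u w w') := by
  have hW1 : ∀ q, amp (w q) * amp (w' q) * amp (w q) = amp (w q) := fun q => by
    rw [← amp_mul, ← amp_mul, h.www]
  have hW2 : ∀ q, amp (w' q) * amp (w q) * amp (w' q) = amp (w' q) := fun q => by
    rw [← amp_mul, ← amp_mul, h.www']
  have hl : ∀ q t, (1 - amp (w' q) * amp (w q)) * u q t = 1 - amp (w' q) * amp (w q) :=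
    fun q t => by
      have := h.left q t
      rwa [amp_sub, amp_one, amp_mul] at this
  refine ⟨?_, ?_, ?_, ?_, ?_, ?_⟩
  · unfold conjEl
    have c1 : Continuous (fun p : Q × UI => amp (w p.1)) :=
      continuous_amp.comp (h.cw.comp continuous_fst)
    have c2 : Continuous (fun p : Q × UI => amp (w' p.1)) :=
      continuous_amp.comp (h.cw'.comp continuous_fst)
    have c3 : Continuous (fun p : Q × UI => amp (1 - w p.1 * w' p.1)) :=
      continuous_amp.comp (continuous_const.sub
        ((h.cw.comp continuous_fst).matrix_mul (h.cw'.comp continuous_fst)))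
    exact ((c1.matrix_mul hu.cont).matrix_mul c2).add c3
  · intro q t
    rw [rot_conjEl_eq]
    exact rot_isUnit_conj _ _ _ (hW1 q) (hW2 q) (hl q t) (hu.unit q t)
  · intro q
    obtain ⟨a, ha⟩ := hu.zero q
    refine ⟨w q * a * w' q + (1 - w q * w' q), ?_⟩
    unfold conjEl
    rw [ha, amp_add, amp_mul, amp_mul]
  · intro q
    rw [rot_conjEl_eq, hu.one, rot_conj_one]
  · intro q hq t
    rw [rot_conjEl_eq, hu.rel q hq, rot_conj_one]
  · intro q t
    have i1 : amp (w (τ q)) * amp ρ = amp ρ' * amp (w q) := by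
      rw [← amp_mul, h.int, amp_mul]
    have i2 : amp (w' (τ q)) * amp ρ' = amp ρ * amp (w' q) := by
      rw [← amp_mul, h.int', amp_mul]
    have i3 := hu.eqv q t
    rw [rot_conjEl_eq, rot_conjEl_eq, Matrix.add_mul, Matrix.mul_add, Matrix.sub_mul,
      Matrix.mul_sub, Matrix.one_mul, Matrix.mul_one]
    congr 1
    · calc amp (w (τ q)) * u (τ q) t * amp (w' (τ q)) * amp ρ'
          = amp (w (τ q)) * u (τ q) t * (amp (w' (τ q)) * amp ρ') := by
            simp only [Matrix.mul_assoc]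
        _ = amp (w (τ q)) * (u (τ q) t * amp ρ) * amp (w' q) := by
            rw [i2]; simp only [Matrix.mul_assoc]
        _ = (amp (w (τ q)) * amp ρ) * (u q t * amp (w' q)) := by
            rw [i3]; simp only [Matrix.mul_assoc]
        _ = amp ρ' * (amp (w q) * u q t * amp (w' q)) := by
            rw [i1]; simp only [Matrix.mul_assoc]
    · congr 1
      calc amp (w (τ q)) * amp (w' (τ q)) * amp ρ'
          = amp (w (τ q)) * (amp (w' (τ q)) * amp ρ') := by simp only [Matrix.mul_assoc]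
        _ = (amp (w (τ q)) * amp ρ) * amp (w' q) := by rw [i2]; simp only [Matrix.mul_assoc]
        _ = amp ρ' * (amp (w q) * amp (w' q)) := by rw [i1]; simp only [Matrix.mul_assoc]

/-- the rotation matrix -/
private noncomputable def rotR (w : Matrix κ ι ℂ) (w' : Matrix ι κ ℂ) (θ : ℝ) :
    Matrix (ι ⊕ κ) (ι ⊕ κ) ℂ :=
  Matrix.fromBlocks ((1 - w' * w) + (Real.cos θ : ℂ) • (w' * w)) (-((Real.sin θ : ℂ) • w'))
    ((Real.sin θ : ℂ) • w) ((1 - w * w') + (Real.cos θ : ℂ) • (w * w'))

private theorem rotR_zero (w : Matrix κ ι ℂ) (w' : Matrix ι κ ℂ) : rotR w w' 0 = 1 := by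
  simp [rotR]

private theorem rotR_mul (w : Matrix κ ι ℂ) (w' : Matrix ι κ ℂ) (h1 : w * w' * w = w)
    (h2 : w' * w * w' = w') (θ φ : ℝ) :
    rotR w w' θ * rotR w w' φ = rotR w w' (θ + φ) := by
  have h1' : w * (w' * w) = w := by rw [← Matrix.mul_assoc, h1]
  have h2' : w' * (w * w') = w' := by rw [← Matrix.mul_assoc, h2]
  have hee : w' * w * (w' * w) = w' * w := by rw [← Matrix.mul_assoc, h2]
  have hff : w * w' * (w * w') = w * w' := by rw [← Matrix.mul_assoc, h1]
  unfold rotR
  rw [Matrix.fromBlocks_multiply, Real.cos_add, Real.sin_add]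
  push_cast
  congr 1
  · simp only [Matrix.add_mul, Matrix.mul_add, Matrix.sub_mul, Matrix.mul_sub, Matrix.one_mul,
      Matrix.mul_one, Matrix.smul_mul, Matrix.mul_smul, Matrix.neg_mul, Matrix.mul_neg, hee]
    module
  · simp only [Matrix.add_mul, Matrix.mul_add, Matrix.sub_mul, Matrix.mul_sub, Matrix.one_mul,
      Matrix.mul_one, Matrix.smul_mul, Matrix.mul_smul, Matrix.neg_mul, Matrix.mul_neg, h2, h2']
    module
  · simp only [Matrix.add_mul, Matrix.mul_add, Matrix.sub_mul, Matrix.mul_sub, Matrix.one_mul,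
      Matrix.mul_one, Matrix.smul_mul, Matrix.mul_smul, Matrix.neg_mul, Matrix.mul_neg, h1, h1']
    module
  · simp only [Matrix.add_mul, Matrix.mul_add, Matrix.sub_mul, Matrix.mul_sub, Matrix.one_mul,
      Matrix.mul_one, Matrix.smul_mul, Matrix.mul_smul, Matrix.neg_mul, Matrix.mul_neg, hff]
    module

private theorem rotR_int (w w2 : Matrix κ ι ℂ) (w' w2' : Matrix ι κ ℂ) (h1 : w2 * ρ = ρ' * w)
    (h2 : w2' * ρ' = ρ * w') (θ : ℝ) :
    rotR w2 w2' θ * dg ρ ρ' = dg ρ ρ' * rotR w w' θ := by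
  have e1 : w2' * w2 * ρ = ρ * (w' * w) := by
    rw [Matrix.mul_assoc, h1, ← Matrix.mul_assoc, h2, Matrix.mul_assoc]
  have e2 : w2 * w2' * ρ' = ρ' * (w * w') := by
    rw [Matrix.mul_assoc, h2, ← Matrix.mul_assoc, h1, Matrix.mul_assoc]
  unfold rotR dg
  rw [Matrix.fromBlocks_multiply, Matrix.fromBlocks_multiply]
  congr 1
  · simp only [Matrix.add_mul, Matrix.mul_add, Matrix.sub_mul, Matrix.mul_sub, Matrix.one_mul,
      Matrix.mul_one, Matrix.smul_mul, Matrix.mul_smul, Matrix.mul_zero, Matrix.zero_mul, smul_zero,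
      add_zero, e1]
  · simp only [Matrix.mul_zero, Matrix.zero_mul, Matrix.neg_mul, Matrix.mul_neg,
      Matrix.smul_mul, Matrix.mul_smul, h2, add_zero, zero_add]
  · simp only [Matrix.mul_zero, Matrix.zero_mul, Matrix.neg_mul, Matrix.mul_neg,
      Matrix.smul_mul, Matrix.mul_smul, h1, add_zero, zero_add]
  · simp only [Matrix.add_mul, Matrix.mul_add, Matrix.sub_mul, Matrix.mul_sub, Matrix.one_mul,
      Matrix.mul_one, Matrix.smul_mul, Matrix.mul_smul, Matrix.mul_zero, Matrix.zero_mul, smul_zero,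
      neg_zero, zero_add, e2]

private theorem continuous_rotR {X : Type} [TopologicalSpace X] {w : X → Matrix κ ι ℂ}
    {w' : X → Matrix ι κ ℂ} {θ : X → ℝ} (hw : Continuous w) (hw' : Continuous w')
    (hθ : Continuous θ) : Continuous (fun x => rotR (w x) (w' x) (θ x)) := by
  unfold rotR
  have cc : Continuous (fun x => ((Real.cos (θ x) : ℝ) : ℂ)) :=
    Complex.continuous_ofReal.comp (Real.continuous_cos.comp hθ)
  have cs : Continuous (fun x => ((Real.sin (θ x) : ℝ) : ℂ)) :=
    Complex.continuous_ofReal.comp (Real.continuous_sin.comp hθ)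
  have ce : Continuous (fun x => w' x * w x) := hw'.matrix_mul hw
  have cf : Continuous (fun x => w x * w' x) := hw.matrix_mul hw'
  exact Continuous.matrix_fromBlocks ((continuous_const.sub ce).add (cc.smul ce))
    (cs.smul hw').neg (cs.smul hw) ((continuous_const.sub cf).add (cc.smul cf))

/-- conjugation by an invertible intertwiner -/
private theorem rot_isEl_conj {U : Q → UI → MM ι} {P P' : Q → Matrix ι ι ℂ} (hP : Continuous P)
    (hP' : Continuous P') (h1 : ∀ q, P q * P' q = 1) (h2 : ∀ q, P' q * P q = 1)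
    (i1 : ∀ q, P (τ q) * ρ = ρ * P q) (i2 : ∀ q, P' (τ q) * ρ = ρ * P' q)
    (hU : IsEl ρ τ Z U) : IsEl ρ τ Z (fun q t => amp (P q) * U q t * amp (P' q)) := by
  have hd : PartData ρ ρ τ U P P' := by
    refine ⟨hP, hP', ?_, ?_, i1, i2, ?_, ?_⟩
    · intro q; rw [h1, Matrix.one_mul]
    · intro q; rw [h2, Matrix.one_mul]
    · intro q t; rw [h2, sub_self, amp_zero, Matrix.mul_zero]
    · intro q t; rw [h2, sub_self, amp_zero, Matrix.zero_mul]
  have := hd.isEl hU
  have he : conjEl U P P' = fun q t => amp (P q) * U q t * amp (P' q) := by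
    funext q t
    unfold conjEl
    rw [h1, sub_self, amp_zero, add_zero]
  rwa [he] at this

private theorem rot_final {w : Matrix κ ι ℂ} {w' : Matrix ι κ ℂ} (h1 : w * w' * w = w)
    (h2 : w' * w * w' = w') (u : MM ι) (hl : amp (1 - w' * w) * u = amp (1 - w' * w))
    (hr : u * amp (1 - w' * w) = amp (1 - w' * w)) :
    amp (rotR w w' (Real.pi / 2)) * bs u (1 : MM κ) * amp (rotR w w' (-(Real.pi / 2)))
      = bs (1 : MM ι) (amp w * u * amp w' + amp (1 - w * w')) := by
  have r1 : rotR w w' (Real.pi / 2) = Matrix.fromBlocks (1 - w' * w) (-w') w (1 - w * w') := by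
    simp [rotR]
  have r2 : rotR w w' (-(Real.pi / 2)) = Matrix.fromBlocks (1 - w' * w) w' (-w) (1 - w * w') := by
    simp [rotR]
  have hW1 : amp w * amp w' * amp w = amp w := by rw [← amp_mul, ← amp_mul, h1]
  have hW2 : amp w' * amp w * amp w' = amp w' := by rw [← amp_mul, ← amp_mul, h2]
  have n1 : amp (-w) = -amp w := by
    have := amp_smul (-1) w
    simpa using this
  have n2 : amp (-w') = -amp w' := by
    have := amp_smul (-1) w'
    simpa using this
  have s1 : amp (1 - w' * w) = 1 - amp w' * amp w := by rw [amp_sub, amp_one, amp_mul]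
  have s2 : amp (1 - w * w') = 1 - amp w * amp w' := by rw [amp_sub, amp_one, amp_mul]
  rw [r1, r2, rot_amp_fromBlocks, rot_amp_fromBlocks]
  unfold bs
  rw [Matrix.submatrix_mul_equiv, Matrix.submatrix_mul_equiv]
  congr 1
  rw [Matrix.fromBlocks_multiply, Matrix.fromBlocks_multiply, n1, n2]
  rw [s1] at hl hr ⊢
  rw [s2]
  have ee : (1 - amp w' * amp w) * (1 - amp w' * amp w) = 1 - amp w' * amp w := by
    rw [Matrix.mul_sub, Matrix.mul_one, Matrix.sub_mul, Matrix.one_mul]
    have : amp w' * amp w * (amp w' * amp w) = (amp w' * amp w * amp w') * amp w := by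
      simp only [Matrix.mul_assoc]
    rw [this, hW2, sub_self, sub_zero]
  have ff : (1 - amp w * amp w') * (1 - amp w * amp w') = 1 - amp w * amp w' := by
    rw [Matrix.mul_sub, Matrix.mul_one, Matrix.sub_mul, Matrix.one_mul]
    have : amp w * amp w' * (amp w * amp w') = (amp w * amp w' * amp w) * amp w' := by
      simp only [Matrix.mul_assoc]
    rw [this, hW1, sub_self, sub_zero]
  have ew' : (1 - amp w' * amp w) * amp w' = 0 := by
    rw [Matrix.sub_mul, Matrix.one_mul, hW2, sub_self]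
  have w'f : amp w' * (1 - amp w * amp w') = 0 := by
    rw [Matrix.mul_sub, Matrix.mul_one, ← Matrix.mul_assoc, hW2, sub_self]
  have we : amp w * (1 - amp w' * amp w) = 0 := by
    rw [Matrix.mul_sub, Matrix.mul_one, ← Matrix.mul_assoc, hW1, sub_self]
  have fw : (1 - amp w * amp w') * amp w = 0 := by
    rw [Matrix.sub_mul, Matrix.one_mul, hW1, sub_self]
  congr 1
  · rw [Matrix.mul_one, Matrix.mul_zero, add_zero, Matrix.mul_zero, zero_add, hl, ee,
      Matrix.neg_mul, Matrix.mul_neg, neg_neg]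
    abel
  · rw [Matrix.mul_one, Matrix.mul_zero, add_zero, Matrix.mul_zero, zero_add, hl, ew', zero_add,
      Matrix.neg_mul, w'f, neg_zero]
  · rw [Matrix.mul_one, Matrix.mul_zero, add_zero, Matrix.mul_zero, zero_add, Matrix.mul_assoc,
      hr, we, zero_add, Matrix.mul_neg, fw, neg_zero]
  · rw [Matrix.mul_one, Matrix.mul_zero, add_zero, Matrix.mul_zero, zero_add, ff]

/-- `u ⊕ 1 ~ 1 ⊕ v`, through conjugation with
`R_θ = [[1-e+cos θ e, -sin θ w'],[sin θ w, 1-f+cos θ f]]`. -/
theorem PartData.ht {w : Q → Matrix κ ι ℂ} {w' : Q → Matrix ι κ ℂ}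
    (h : PartData ρ ρ' τ u w w') (hu : IsEl ρ τ Z u) :
    Ht (dg ρ ρ') τ Z (fun q t => bs (u q t) (1 : MM κ))
      (fun q t => bs (1 : MM ι) (conjEl u w w' q t)) := by
  have hinv1 : ∀ q θ, rotR (w q) (w' q) θ * rotR (w q) (w' q) (-θ) = 1 := fun q θ => by
    rw [rotR_mul _ _ (h.www q) (h.www' q), add_neg_cancel, rotR_zero]
  have hinv2 : ∀ q θ, rotR (w q) (w' q) (-θ) * rotR (w q) (w' q) θ = 1 := fun q θ => by
    rw [rotR_mul _ _ (h.www q) (h.www' q), neg_add_cancel, rotR_zero]
  have hb : IsEl (dg ρ ρ') τ Z (fun q t => bs (u q t) (1 : MM κ)) :=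
    hu.bsum IsEl.const_one
  have key := Ht.of_path (ρ := dg ρ ρ') (τ := τ) (Z := Z)
    (fun (s : UI) (q : Q) (t : UI) =>
      amp (rotR (w q) (w' q) ((s : ℝ) * (Real.pi / 2))) * bs (u q t) (1 : MM κ) *
        amp (rotR (w q) (w' q) (-((s : ℝ) * (Real.pi / 2)))))
    (by
      have cθ : Continuous (fun p : (Q × UI) × UI => (p.1.2 : ℝ) * (Real.pi / 2)) := by
        fun_prop
      have c1 : Continuous (fun p : (Q × UI) × UI => w p.1.1) :=
        h.cw.comp (continuous_fst.comp continuous_fst)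
      have c2 : Continuous (fun p : (Q × UI) × UI => w' p.1.1) :=
        h.cw'.comp (continuous_fst.comp continuous_fst)
      have c3 : Continuous (fun p : (Q × UI) × UI => bs (u p.1.1 p.2) (1 : MM κ)) :=
        hb.cont.comp ((continuous_fst.comp continuous_fst).prodMk continuous_snd)
      exact ((continuous_amp.comp (continuous_rotR c1 c2 cθ)).matrix_mul c3).matrix_mul
        (continuous_amp.comp (continuous_rotR c1 c2 cθ.neg)))
    (by
      intro s
      exact rot_isEl_conj (continuous_rotR h.cw h.cw' continuous_const)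
        (continuous_rotR h.cw h.cw' continuous_const) (fun q => hinv1 q _) (fun q => hinv2 q _)
        (fun q => rotR_int _ _ _ _ (h.int q) (h.int' q) _)
        (fun q => rotR_int _ _ _ _ (h.int q) (h.int' q) _) hb)
  have e0 : (fun (q : Q) (t : UI) =>
      amp (rotR (w q) (w' q) (((0 : UI) : ℝ) * (Real.pi / 2))) * bs (u q t) (1 : MM κ) *
        amp (rotR (w q) (w' q) (-(((0 : UI) : ℝ) * (Real.pi / 2)))))
      = fun q t => bs (u q t) (1 : MM κ) := by
    funext q t
    have z : ((0 : UI) : ℝ) = 0 := rfl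
    rw [z, zero_mul, neg_zero, rotR_zero, amp_one, Matrix.one_mul, Matrix.mul_one]
  have e1 : (fun (q : Q) (t : UI) =>
      amp (rotR (w q) (w' q) (((1 : UI) : ℝ) * (Real.pi / 2))) * bs (u q t) (1 : MM κ) *
        amp (rotR (w q) (w' q) (-(((1 : UI) : ℝ) * (Real.pi / 2)))))
      = fun q t => bs (1 : MM ι) (conjEl u w w' q t) := by
    funext q t
    have z : ((1 : UI) : ℝ) = 1 := rfl
    rw [z, one_mul, rot_final (h.www q) (h.www' q) _ (h.left q t) (h.right q t)]
    rfl
  rwa [e0, e1] at key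

/-- `u ⊕ v ~ uv ⊕ 1` (same representation). -/
theorem ht_rot (hu : IsEl ρ τ Z u) (hv : IsEl ρ τ Z v) :
    Ht (dg ρ ρ) τ Z (fun q t => bs (u q t) (v q t))
      (fun q t => bs (u q t * v q t) (1 : MM ι)) := by
  have hd : PartData ρ ρ τ v (fun _ => (1 : Matrix ι ι ℂ)) (fun _ => (1 : Matrix ι ι ℂ)) := by
    refine ⟨continuous_const, continuous_const, ?_, ?_, ?_, ?_, ?_, ?_⟩
    · intro q; simp
    · intro q; simp
    · intro q; simp
    · intro q; simp
    · intro q t; rw [Matrix.one_mul, sub_self, amp_zero, Matrix.mul_zero]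
    · intro q t; rw [Matrix.one_mul, sub_self, amp_zero, Matrix.zero_mul]
  have h1 := hd.ht hv
  have he : conjEl v (fun _ => (1 : Matrix ι ι ℂ)) (fun _ => (1 : Matrix ι ι ℂ)) = v := by
    funext q t
    unfold conjEl
    rw [Matrix.one_mul, sub_self, amp_zero, add_zero, amp_one, Matrix.one_mul, Matrix.mul_one]
  rw [he] at h1
  have h2 := (Ht.refl (hu.bsum (IsEl.const_one (ρ := ρ) (τ := τ) (Z := Z)))).mul h1.symm
  have e1 : (fun (q : Q) (t : UI) => bs (u q t) (1 : MM ι) * bs (1 : MM ι) (v q t))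
      = fun q t => bs (u q t) (v q t) := by
    funext q t
    rw [bs_mul, Matrix.mul_one, Matrix.one_mul]
  have e2 : (fun (q : Q) (t : UI) => bs (u q t) (1 : MM ι) * bs (v q t) (1 : MM ι))
      = fun q t => bs (u q t * v q t) (1 : MM ι) := by
    funext q t
    rw [bs_mul, Matrix.mul_one]
  rwa [e1, e2] at h2

end

end Pool.Agent.CRC
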