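import Pool.Agent.Lib.MP_13800a_gt.Fourier

/-! TASK SSCont: continuity of `v` (section 4). -/

set_option autoImplicit false

open scoped Matrix Kronecker OnePoint
open Matrix

namespace Pool.Agent.CRC

open Filter Topology in
private lemma sscont_tendsto_infty {α : Type} {l : Filter α} {f : α → PP} :
    Tendsto f l (𝓝 ∞) ↔ ∀ R : ℝ, ∀ᶠ p in l, f p = ∞ ∨ ∃ x : ℂ, f p = (x : PP) ∧ R < ‖x‖ := by
  constructor
  · intro h R
    have hmem : ((↑) '' (Metric.closedBall (0 : ℂ) R)ᶜ ∪ {∞} : Set PP) ∈ 𝓝 (∞ : PP) :=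
      OnePoint.hasBasis_nhds_infty.mem_of_mem
        ⟨Metric.isClosed_closedBall, isCompact_closedBall _ _⟩
    filter_upwards [h hmem] with p hp
    rcases hp with ⟨x, hx, hxe⟩ | hp
    · right
      refine ⟨x, hxe.symm, ?_⟩
      simpa [Metric.mem_closedBall, dist_zero_right] using hx
    · left; exact hp
  · intro h
    rw [OnePoint.hasBasis_nhds_infty.tendsto_right_iff]
    rintro s ⟨_, hs⟩
    obtain ⟨R, hR⟩ := hs.isBounded.subset_closedBall (0 : ℂ)
    filter_upwards [h R] with p hp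
    rcases hp with hp | ⟨x, hx, hxR⟩
    · right; exact hp
    · left
      refine ⟨x, fun hxs => ?_, hx.symm⟩
      have := hR hxs
      rw [Metric.mem_closedBall, dist_zero_right] at this
      linarith

theorem continuous_addP : Continuous (fun p : PP × ℂ => addP p.1 p.2) := by
  rw [continuous_iff_continuousAt]
  rintro ⟨w, z⟩
  induction w using OnePoint.rec with
  | infty =>
    show Filter.Tendsto _ _ (nhds (addP ∞ z))
    have : addP ∞ z = ∞ := OnePoint.map_infty _
    rw [this, sscont_tendsto_infty]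
    intro R
    have h1 : Filter.Tendsto (fun p : PP × ℂ => p.1) (nhds ((∞ : PP), z)) (nhds (∞ : PP)) :=
      continuous_fst.tendsto _
    have h2 : ∀ᶠ p : PP × ℂ in nhds ((∞ : PP), z), dist p.2 z < 1 :=
      (continuous_snd.tendsto ((∞ : PP), z)).eventually (Metric.ball_mem_nhds z one_pos)
    filter_upwards [sscont_tendsto_infty.mp h1 (R + ‖z‖ + 1), h2] with p hp1 hp2
    rcases hp1 with hp | ⟨x, hx, hxR⟩
    · left
      rw [hp]; exact OnePoint.map_infty _
    · right
      refine ⟨x + p.2, ?_, ?_⟩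
      · rw [hx]; exact OnePoint.map_some _ _
      · rw [dist_eq_norm] at hp2
        have h3 : ‖x‖ ≤ ‖x + p.2‖ + ‖p.2 - z‖ + ‖z‖ := by
          have : x = (x + p.2) - (p.2 - z) - z := by ring
          calc ‖x‖ = ‖(x + p.2) - (p.2 - z) - z‖ := by rw [← this]
            _ ≤ ‖(x + p.2) - (p.2 - z)‖ + ‖z‖ := norm_sub_le _ _
            _ ≤ ‖x + p.2‖ + ‖p.2 - z‖ + ‖z‖ := by gcongr; exact norm_sub_le _ _
        linarith
  | coe x =>
    have hemb : Topology.IsOpenEmbedding (Prod.map ((↑) : ℂ → PP) (id : ℂ → ℂ)) :=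
      OnePoint.isOpenEmbedding_coe.prodMap Topology.IsOpenEmbedding.id
    have := hemb.continuousAt_iff (g := fun p : PP × ℂ => addP p.1 p.2) (x := (x, z))
    rw [show ((x : PP), z) = Prod.map ((↑) : ℂ → PP) (id : ℂ → ℂ) (x, z) from rfl, ← this]
    have h2 : (fun p : PP × ℂ => addP p.1 p.2) ∘ (Prod.map ((↑) : ℂ → PP) (id : ℂ → ℂ)) =
        fun p : ℂ × ℂ => ((p.1 + p.2 : ℂ) : PP) := by
      funext p
      exact OnePoint.map_some _ _
    rw [h2]
    exact (OnePoint.continuous_coe.comp (continuous_fst.add continuous_snd)).continuousAt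

/-- `φ` is continuous inside the disc -/
private lemma sscont_phi {d : ℂ} (hd : ‖d‖ < 1) : ContinuousAt phiD d := by
  unfold phiD
  refine ContinuousAt.mul ?_ continuousAt_id
  refine ContinuousAt.inv₀ ?_ ?_
  · exact (Complex.continuous_ofReal.comp (continuous_const.sub continuous_norm)).continuousAt
  · have : (1 : ℝ) - ‖d‖ ≠ 0 := by linarith
    exact_mod_cast this

/-- size of `φ` -/
private lemma sscont_norm_phi {d : ℂ} (hd : ‖d‖ < 1) : ‖phiD d‖ = ‖d‖ / (1 - ‖d‖) := by
  unfold phiD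
  rw [norm_mul, norm_inv, Complex.norm_real, Real.norm_of_nonneg (by linarith)]
  ring

/-- `φ` is large near the unit circle -/
private lemma sscont_phi_large (R : ℝ) : ∃ δ : ℝ, 0 < δ ∧ δ < 1 ∧ ∀ d : ℂ, 1 - δ < ‖d‖ →
    ‖d‖ < 1 → R < ‖phiD d‖ := by
  refine ⟨1 / (2 * (|R| + 1)), by positivity, ?_, ?_⟩
  · rw [div_lt_one (by positivity)]
    have := abs_nonneg R
    linarith
  · intro d h1 h2
    rw [sscont_norm_phi h2, lt_div_iff₀ (by linarith)]
    have h3 : 1 - ‖d‖ < 1 / (2 * (|R| + 1)) := by linarith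
    rw [lt_div_iff₀ (by positivity)] at h3
    have h4 : 1 / (2 * (|R| + 1)) ≤ 1 / 2 := by
      apply one_div_le_one_div_of_le (by norm_num)
      have := abs_nonneg R
      linarith
    have h5 : R * (1 - ‖d‖) ≤ |R| * (1 - ‖d‖) :=
      mul_le_mul_of_nonneg_right (le_abs_self R) (by linarith)
    nlinarith [abs_nonneg R]

/-- the point of the class with a large value of `w'` -/
private lemma sscont_exists_c {n n' h m : ℕ} [NeZero n'] [NeZero h]
    (hn' : ∃ a, n' = 2 ^ a) (hd : n ∣ n') (hh : h ∣ n') (Sb : Finset (ZMod h)) (s0 : ZMod h)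
    (k : Fin m → ℕ) (hk : Function.Injective k) (hkX : ∀ i, k i ∈ XX n n' h)
    (w : ZMod n → PP) (j : ZMod h) (d : DB m) (i : Fin m) :
    ∃ c : ZMod n', ZMod.castHom hh (ZMod h) c + j = s0 ∧
      (wP hd hh Sb s0 k w j d c = ∞ ∨ ∃ x : ℂ, wP hd hh Sb s0 k w j d c = (x : PP) ∧
        ‖phiD (d.1 i)‖ ≤ ‖x‖) := by
  classical
  by_cases hinf : ∃ c : ZMod n', ZMod.castHom hh (ZMod h) c + j = s0 ∧
      w (ZMod.castHom hd (ZMod n) c) = ∞
  · obtain ⟨c, hc1, hc2⟩ := hinf
    refine ⟨c, hc1, Or.inl ?_⟩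
    simp only [wP, if_pos hc1, hc2]
    exact OnePoint.map_infty _
  · push Not at hinf
    obtain ⟨c, hc1, hc2⟩ := fourier_bound hn' hd hh k hk hkX
      (fun a => (w a).elim 0 id) (fun i => phiD (d.1 i)) (s0 - j) i
    have hc1' : ZMod.castHom hh (ZMod h) c + j = s0 := by rw [hc1]; ring
    obtain ⟨x, hx⟩ := OnePoint.ne_infty_iff_exists.mp (hinf c hc1')
    refine ⟨c, hc1', Or.inr ⟨x + ∑ i, zt n' ^ (k i * c.val) * phiD (d.1 i), ?_, ?_⟩⟩
    · simp only [wP, if_pos hc1']
      rw [← hx]
      exact OnePoint.map_some _ _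
    · rw [← hx] at hc2
      simpa using hc2

/-- In the interior of the polydisc `v` is a composition of continuous maps. At the boundary use
ultrafilters: if `d → d*` with `|d*_i| = 1` then by `fourier_bound` some `w'(c)`, `c ≡ s0 - j`,
tends to `∞`, so all limits of `w'` have support a proper subset of `S_j`, where `u = 1`. -/
theorem continuous_vEl {K ι : Type} [TopologicalSpace K] [CompactSpace K] [T2Space K]
    [Fintype ι] [DecidableEq ι] {n n' h m : ℕ} [NeZero n'] [NeZero h]
    (hn' : ∃ a, n' = 2 ^ a)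
    (hd : n ∣ n') (hh : h ∣ n') (Sb : Finset (ZMod h)) (s0 : ZMod h) (hs0 : s0 ∈ Sb)
    (k : Fin m → ℕ) (hk : Function.Injective k) (hkX : ∀ i, k i ∈ XX n n' h)
    (u : K × (ZMod n' → PP) → UI → MM ι)
    (hu : Continuous (fun p : (K × (ZMod n' → PP)) × UI => u p.1 p.2))
    (hrel : ∀ (j : ZMod h) (x : K) (w : ZMod n' → PP), (∀ c, c ∉ Sj hh Sb j → w c = ∞) →
      (∃ c ∈ Sj hh Sb j, w c = ∞) → ∀ t, u (x, w) t = 1) :
    Continuous (fun p : (((K × (ZMod n → PP)) × ZMod h) × DB m) × UI =>
      vEl hd hh Sb s0 k u p.1 p.2) := by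
  classical
  rw [continuous_iff_ultrafilter]
  intro p0 g hg
  -- the coordinates converge
  have hx : Filter.Tendsto (fun p : (((K × (ZMod n → PP)) × ZMod h) × DB m) × UI => p.1.1.1.1) g
      (nhds p0.1.1.1.1) :=
    ((continuous_fst.comp (continuous_fst.comp (continuous_fst.comp continuous_fst))).tendsto
      p0).mono_left hg
  have hw : Filter.Tendsto (fun p : (((K × (ZMod n → PP)) × ZMod h) × DB m) × UI => p.1.1.1.2) g
      (nhds p0.1.1.1.2) :=
    ((continuous_snd.comp (continuous_fst.comp (continuous_fst.comp continuous_fst))).tendsto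
      p0).mono_left hg
  have hj : Filter.Tendsto (fun p : (((K × (ZMod n → PP)) × ZMod h) × DB m) × UI => p.1.1.2) g
      (nhds p0.1.1.2) :=
    ((continuous_snd.comp (continuous_fst.comp continuous_fst)).tendsto p0).mono_left hg
  have hD : Filter.Tendsto (fun p : (((K × (ZMod n → PP)) × ZMod h) × DB m) × UI => p.1.2.1) g
      (nhds p0.1.2.1) :=
    ((continuous_subtype_val.comp (continuous_snd.comp continuous_fst)).tendsto p0).mono_left hg
  have ht : Filter.Tendsto (fun p : (((K × (ZMod n → PP)) × ZMod h) × DB m) × UI => p.2) g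
      (nhds p0.2) := (continuous_snd.tendsto p0).mono_left hg
  have hj0 : ∀ᶠ p : (((K × (ZMod n → PP)) × ZMod h) × DB m) × UI in (g : Filter _),
      p.1.1.2 = p0.1.1.2 := by
    have := hj.eventually (IsOpen.mem_nhds (isOpen_discrete {p0.1.1.2}) rfl)
    filter_upwards [this] with p hp using hp
  have hD1 : ∀ p : (((K × (ZMod n → PP)) × ZMod h) × DB m) × UI, ‖(p.1.2.1 : Fin m → ℂ)‖ ≤ 1 :=
    fun p => by
      have := p.1.2.2
      rwa [Metric.mem_closedBall, dist_zero_right] at this
  rcases g.em (fun p => ‖(p.1.2.1 : Fin m → ℂ)‖ < 1) with hlt | hge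
  · -- the point `w'` converges
    let F : (((K × (ZMod n → PP)) × ZMod h) × DB m) × UI → (ZMod n' → PP) :=
      fun p => wP hd hh Sb s0 k p.1.1.1.2 p.1.1.2 p.1.2
    have hvF : ∀ᶠ p : (((K × (ZMod n → PP)) × ZMod h) × DB m) × UI in (g : Filter _),
        u (p.1.1.1.1, F p) p.2 = vEl hd hh Sb s0 k u p.1 p.2 := by
      filter_upwards [hlt] with p hp
      simp only [vEl, if_pos hp, F]
    have hlim : ∀ ws : ZMod n' → PP, Filter.Tendsto F g (nhds ws) →
        Filter.Tendsto (fun p : (((K × (ZMod n → PP)) × ZMod h) × DB m) × UI =>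
          vEl hd hh Sb s0 k u p.1 p.2) g (nhds (u (p0.1.1.1.1, ws) p0.2)) := by
      intro ws hws
      refine Filter.Tendsto.congr' hvF ?_
      exact (hu.tendsto ((p0.1.1.1.1, ws), p0.2)).comp
        ((hx.prodMk_nhds hws).prodMk_nhds ht)
    by_cases h0 : ‖(p0.1.2.1 : Fin m → ℂ)‖ < 1
    · -- interior point
      have hF : Filter.Tendsto F g (nhds (F p0)) := by
        rw [tendsto_pi_nhds]
        intro c
        have hwc : Filter.Tendsto (fun p : (((K × (ZMod n → PP)) × ZMod h) × DB m) × UI =>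
            p.1.1.1.2 (ZMod.castHom hd (ZMod n) c)) g
            (nhds (p0.1.1.1.2 (ZMod.castHom hd (ZMod n) c))) :=
          (tendsto_pi_nhds.mp hw) _
        by_cases h1 : ZMod.castHom hh (ZMod h) c + p0.1.1.2 = s0
        · have e1 : F p0 c = addP (p0.1.1.1.2 (ZMod.castHom hd (ZMod n) c))
              (∑ i, zt n' ^ (k i * c.val) * phiD (p0.1.2.1 i)) := by
            simp only [F, wP, if_pos h1]
          have e2 : ∀ᶠ p : (((K × (ZMod n → PP)) × ZMod h) × DB m) × UI in (g : Filter _), addP (p.1.1.1.2 (ZMod.castHom hd (ZMod n) c))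
              (∑ i, zt n' ^ (k i * c.val) * phiD (p.1.2.1 i)) = F p c := by
            filter_upwards [hj0] with p hp
            simp only [F, wP, hp, if_pos h1]
          rw [e1]
          refine Filter.Tendsto.congr' e2 ?_
          have hsum : Filter.Tendsto (fun p : (((K × (ZMod n → PP)) × ZMod h) × DB m) × UI =>
              ∑ i, zt n' ^ (k i * c.val) * phiD (p.1.2.1 i)) g
              (nhds (∑ i, zt n' ^ (k i * c.val) * phiD (p0.1.2.1 i))) := by
            refine tendsto_finsetSum _ (fun i _ => ?_)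
            refine Filter.Tendsto.const_mul _ ?_
            have hi : ‖p0.1.2.1 i‖ < 1 := (norm_le_pi_norm _ i).trans_lt h0
            exact (sscont_phi hi).tendsto.comp ((tendsto_pi_nhds.mp hD) i)
          exact (continuous_addP.tendsto (p0.1.1.1.2 (ZMod.castHom hd (ZMod n) c), _)).comp
            (hwc.prodMk_nhds hsum)
        · by_cases h2 : ZMod.castHom hh (ZMod h) c + p0.1.1.2 ∈ Sb
          · have e1 : F p0 c = p0.1.1.1.2 (ZMod.castHom hd (ZMod n) c) := by
              simp only [F, wP, if_neg h1, if_pos h2]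
            rw [e1]
            refine Filter.Tendsto.congr' ?_ hwc
            filter_upwards [hj0] with p hp
            simp only [F, wP, hp, if_neg h1, if_pos h2]
          · have e1 : F p0 c = ∞ := by
              simp only [F, wP, if_neg h1, if_neg h2]
            rw [e1]
            refine Filter.Tendsto.congr' ?_ tendsto_const_nhds
            filter_upwards [hj0] with p hp
            simp only [F, wP, hp, if_neg h1, if_neg h2]
      have h3 := hlim _ hF
      have h4 : vEl hd hh Sb s0 k u p0.1 p0.2 = u (p0.1.1.1.1, F p0) p0.2 := by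
        simp only [vEl, if_pos h0, F]
      show Filter.Tendsto _ _ (nhds (vEl hd hh Sb s0 k u p0.1 p0.2))
      rw [h4]
      exact h3
    · -- boundary point
      have h01 : ‖(p0.1.2.1 : Fin m → ℂ)‖ = 1 := le_antisymm (hD1 p0) (not_lt.mp h0)
      obtain ⟨i, hi⟩ : ∃ i, ‖p0.1.2.1 i‖ = 1 := by
        by_contra hno
        push Not at hno
        apply h0
        rw [pi_norm_lt_iff one_pos]
        intro i
        refine lt_of_le_of_ne ?_ (hno i)
        exact (norm_le_pi_norm _ i).trans h01.le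
      have hFlim : Filter.Tendsto F g (nhds (g.map F).lim) := (g.map F).le_nhds_lim
      set ws : ZMod n' → PP := (g.map F).lim with hws
      have hwsc : ∀ c, Filter.Tendsto (fun p => F p c) g (nhds (ws c)) :=
        tendsto_pi_nhds.mp hFlim
      -- coordinates outside `S_j`
      have hout : ∀ c, c ∉ Sj hh Sb p0.1.1.2 → ws c = ∞ := by
        intro c hc
        have hc2 : ZMod.castHom hh (ZMod h) c + p0.1.1.2 ∉ Sb := by
          simpa [Sj] using hc
        have hc1 : ZMod.castHom hh (ZMod h) c + p0.1.1.2 ≠ s0 := fun e => hc2 (e ▸ hs0)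
        refine tendsto_nhds_unique (hwsc c) ?_
        refine Filter.Tendsto.congr' ?_ tendsto_const_nhds
        filter_upwards [hj0] with p hp
        simp only [F, wP, hp, if_neg hc1, if_neg hc2]
      -- one coordinate tends to infinity
      have hex : ∀ᶠ p : (((K × (ZMod n → PP)) × ZMod h) × DB m) × UI in (g : Filter _), ∃ c ∈ (Set.univ : Set (ZMod n')),
          ZMod.castHom hh (ZMod h) c + p0.1.1.2 = s0 ∧
          (F p c = ∞ ∨ ∃ x : ℂ, F p c = (x : PP) ∧ ‖phiD (p.1.2.1 i)‖ ≤ ‖x‖) := by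
        filter_upwards [hj0] with p hp
        obtain ⟨c, hc1, hc2⟩ := sscont_exists_c hn' hd hh Sb s0 k hk hkX p.1.1.1.2 p.1.1.2 p.1.2 i
        rw [hp] at hc1
        exact ⟨c, Set.mem_univ c, hc1, hc2⟩
      rw [Ultrafilter.eventually_exists_mem_iff Set.finite_univ] at hex
      obtain ⟨c, _, hc⟩ := hex
      have hc1 : ZMod.castHom hh (ZMod h) c + p0.1.1.2 = s0 := by
        obtain ⟨p, hp⟩ := hc.exists
        exact hp.1
      have hcinf : ws c = ∞ := by
        refine tendsto_nhds_unique (hwsc c) ?_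
        rw [sscont_tendsto_infty]
        intro R
        obtain ⟨δ, hδ0, hδ1, hδ⟩ := sscont_phi_large R
        have hnear : ∀ᶠ p : (((K × (ZMod n → PP)) × ZMod h) × DB m) × UI in (g : Filter _), 1 - δ < ‖p.1.2.1 i‖ := by
          have hn : Filter.Tendsto (fun p : (((K × (ZMod n → PP)) × ZMod h) × DB m) × UI =>
              ‖p.1.2.1 i‖) g (nhds ‖p0.1.2.1 i‖) := ((tendsto_pi_nhds.mp hD) i).norm
          rw [hi] at hn
          exact hn.eventually (lt_mem_nhds (by linarith))
        filter_upwards [hc, hnear, hlt] with p hp1 hp2 hp3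
        rcases hp1.2 with h5 | ⟨x, h5, h6⟩
        · exact Or.inl h5
        · refine Or.inr ⟨x, h5, lt_of_lt_of_le (hδ _ hp2 ?_) h6⟩
          exact (norm_le_pi_norm _ i).trans_lt hp3
      have hone : u (p0.1.1.1.1, ws) p0.2 = 1 :=
        hrel p0.1.1.2 _ ws hout ⟨c, by
          have : ZMod.castHom hh (ZMod h) c + p0.1.1.2 ∈ Sb := by rw [hc1]; exact hs0
          unfold Sj
          exact Finset.mem_filter.mpr ⟨Finset.mem_univ _, this⟩, hcinf⟩ _
      have h4 : vEl hd hh Sb s0 k u p0.1 p0.2 = 1 := by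
        simp only [vEl, if_neg h0]
        exact Matrix.ext fun a b => by by_cases h : a = b <;> simp [Matrix.one_apply, h]
      show Filter.Tendsto _ _ (nhds (vEl hd hh Sb s0 k u p0.1 p0.2))
      rw [h4, ← hone]
      exact hlim ws hFlim
  · -- boundary values
    have h0 : ¬ ‖(p0.1.2.1 : Fin m → ℂ)‖ < 1 := by
      intro h0
      have : ∀ᶠ p : (((K × (ZMod n → PP)) × ZMod h) × DB m) × UI in (g : Filter _), ‖(p.1.2.1 : Fin m → ℂ)‖ < 1 := by
        have hn : Filter.Tendsto (fun p : (((K × (ZMod n → PP)) × ZMod h) × DB m) × UI =>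
            ‖(p.1.2.1 : Fin m → ℂ)‖) g (nhds ‖(p0.1.2.1 : Fin m → ℂ)‖) := hD.norm
        exact hn.eventually (gt_mem_nhds h0)
      obtain ⟨p, hp1, hp2⟩ := (this.and hge).exists
      exact hp2 hp1
    have h4 : vEl hd hh Sb s0 k u p0.1 p0.2 = 1 := by
      simp only [vEl, if_neg h0]
      exact Matrix.ext fun a b => by by_cases h : a = b <;> simp [Matrix.one_apply, h]
    show Filter.Tendsto _ _ (nhds (vEl hd hh Sb s0 k u p0.1 p0.2))
    rw [h4]
    refine Filter.Tendsto.congr' ?_ tendsto_const_nhds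
    filter_upwards [hge] with p hp
    simp only [vEl, if_neg hp]
    exact Matrix.ext fun a b => by by_cases h : a = b <;> simp [Matrix.one_apply, h]

end Pool.Agent.CRC
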