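import Pool.Agent.Lib.MP_13800a_gt.SSEl

/-! TASK SSTwo: the statement (SS2) of section 4. -/

set_option autoImplicit false

open scoped Matrix Kronecker OnePoint
open Matrix

namespace Pool.Agent.CRC

/-- `ζ_h^{(j+1).val} = ζ_h · ζ_h^{j.val}` -/
theorem sstwo_zt_val (h : ℕ) [NeZero h] (j : ZMod h) :
    zt h ^ (j + 1).val = zt h * zt h ^ j.val := by
  have hmod : (j + 1).val % h = (j.val + 1) % h := by
    rw [ZMod.val_add]
    rcases Nat.lt_or_ge 1 h with h1 | h1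
    · have : Fact (1 < h) := ⟨h1⟩
      rw [ZMod.val_one]
      simp
    · have h2 : h = 1 := by
        have := NeZero.pos h
        omega
      subst h2
      simp [Nat.mod_one]
  have key : ∀ a : ℕ, zt h ^ a = zt h ^ (a % h) := by
    intro a
    conv_lhs => rw [← Nat.div_add_mod a h, pow_add, pow_mul, zt_pow_self, one_pow, one_mul]
  rw [key, hmod, ← key, pow_succ']

theorem sstwo_addP_zero (w : PP) : addP w 0 = w := by
  unfold addP
  induction w using OnePoint.rec with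
  | infty => rfl
  | coe x => simp

section
variable {K ι : Type} [TopologicalSpace K] [CompactSpace K] [T2Space K]
  [Fintype ι] [DecidableEq ι] {n n' h : ℕ} [NeZero n'] [NeZero h]
  {τ : K → K} {ZK : Set K} {ρ : Matrix ι ι ℂ} {u : K × (ZMod n' → PP) → UI → MM ι}

/-- (SS2): `(1 + L^n) z_M = 0`. From `tsd`, `card_XX`, `Lh_pow_eq_self` (with
`s (x,w,j) = exp(2π i j / h)`), `prod_one_add_Lh_pow`. -/
theorem ss_two (hn : ∃ a, n = 2 ^ a) (hn' : ∃ a, n' = 2 ^ a) (hd : n ∣ n') (hh : h ∣ n')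
    (Sb : Finset (ZMod h)) (hne : Sb.Nonempty)
    (F : Finset (Finset (ZMod n'))) (hdown : ∀ A ∈ F, ∀ B, B ⊆ A → B ∈ F) (hempty : ∅ ∈ F)
    (hS : ∀ (j : ZMod h) (A : Finset (ZMod n')), A ⊂ Sj hh Sb j → A ∈ F)
    (hρ : IsRep n' ρ) (hu : IsEl ρ (shT n' τ) (ZT ZK F) u) :
    KG.mk hρ (isEl_uM (τ := τ) hd hh Sb F hdown hempty hu)
      + (Lh ^ n) (KG.mk hρ (isEl_uM (τ := τ) hd hh Sb F hdown hempty hu)) = 0 := by
  classical
  have hn'0 : 0 < n' := NeZero.pos n'
  have hh0 : 0 < h := NeZero.pos h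
  obtain ⟨s0, hs0⟩ := hne
  set m := (XX n n' h).card with hm
  let k : Fin m → ℕ := (XX n n' h).orderEmbOfFin rfl
  have hk : Function.Injective k := ((XX n n' h).orderEmbOfFin rfl).injective
  have hkX : ∀ i, k i ∈ XX n n' h := fun i => (XX n n' h).orderEmbOfFin_mem rfl i
  have hv := isEl_vEl (τ := τ) (ZK := ZK) (ρ := ρ) (u := u) hn' hd hh Sb s0 hs0 k hk hkX F
    hdown hempty hS hu
  have h0 : PullData (Prod.map (Prod.map (shT n τ) (fun j : ZMod h => j + 1)) (rotD n' k))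
      (Prod.map (shT n τ) (fun j : ZMod h => j + 1))
      (((ZM n ZK ×ˢ (Set.univ : Set (ZMod h))) ×ˢ (Set.univ : Set (DB m))) ∪
        {p | ‖(p.2.1 : Fin m → ℂ)‖ = 1}) (ZM n ZK ×ˢ (Set.univ : Set (ZMod h)))
      (fun q => (q, zeroD m)) := by
    refine ⟨by fun_prop, fun q => ?_, fun q hq => Or.inl ⟨hq, Set.mem_univ _⟩⟩
    refine Prod.ext rfl (Subtype.ext (funext fun i => ?_))
    show (0 : ℂ) = zt n' ^ (k i) * 0
    rw [mul_zero]
  obtain ⟨w, hw⟩ := tsd k hn'0 h0 (KG.mk hρ hv)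
  have e1 : pull h0 (KG.mk hρ hv) = KG.mk hρ (isEl_uM (τ := τ) hd hh Sb F hdown hempty hu) := by
    rw [pull_mk]
    refine KG.mk_congr _ _ _ _ rfl fun q t => ?_
    show vEl hd hh Sb s0 k u (q, zeroD m) t = uMEl hd hh Sb u q t
    have hz : ‖((zeroD m).1 : Fin m → ℂ)‖ < 1 := by
      show ‖(0 : Fin m → ℂ)‖ < 1
      simp
    unfold vEl uMEl
    rw [if_pos hz]
    congr 2
    funext c
    unfold wP resW Sj jM
    have hsum : (∑ i, zt n' ^ (k i * c.val) * phiD ((zeroD m).1 i)) = 0 := by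
      refine Finset.sum_eq_zero fun i _ => ?_
      have : phiD ((zeroD m).1 i) = 0 := by
        show phiD 0 = 0
        simp [phiD]
      rw [this, mul_zero]
    rw [hsum, sstwo_addP_zero]
    simp only [Finset.mem_filter, Finset.mem_univ, true_and]
    by_cases hc : ZMod.castHom hh (ZMod h) c + q.2 = s0
    · rw [if_pos hc, hc, if_pos hs0]
    · rw [if_neg hc]
  rw [← e1, hw]
  obtain ⟨A, hA⟩ := prod_one_add_Lh_pow (n := n')
    (τ := Prod.map (shT n τ) (fun j : ZMod h => j + 1))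
    (Z := ZM n ZK ×ˢ (Set.univ : Set (ZMod h))) (List.ofFn k)
  rw [hA, List.length_ofFn]
  -- the order of `L` divides `n' / h`
  obtain ⟨g, hg⟩ := hh
  have hg0 : g ≠ 0 := by
    rintro rfl
    simp at hg
    omega
  have hdiv : n' / h = g := by
    rw [hg]; exact Nat.mul_div_cancel_left g hh0
  have hLg : (Lh : AddMonoid.End (KG n' (Prod.map (shT n τ) (fun j : ZMod h => j + 1))
      (ZM n ZK ×ˢ (Set.univ : Set (ZMod h))))) ^ g = 1 := by
    refine AddMonoidHom.ext fun x => ?_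
    refine Lh_pow_eq_self (s := fun q : (K × (ZMod n → PP)) × ZMod h => zt h ^ (q.2).val)
      ?_ ?_ ?_ x
    · exact (continuous_of_discreteTopology (f := fun j : ZMod h => zt h ^ j.val)).comp
        continuous_snd
    · intro q
      exact pow_ne_zero _ (zt_ne_zero h)
    · intro q
      show zt h ^ (q.2 + 1).val = zt n' ^ g * zt h ^ q.2.val
      rw [sstwo_zt_val]
      congr 1
      rw [hg, zt_mul_pow h g hg0]
  obtain ⟨b, hb⟩ := hn'
  obtain ⟨a, ha⟩ := hn
  have hgpow : ∃ c, g = 2 ^ c := by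
    have : g ∣ 2 ^ b := by rw [← hb, hg]; exact Dvd.intro_left h rfl
    obtain ⟨c, _, hc⟩ := (Nat.dvd_prime_pow Nat.prime_two).1 this
    exact ⟨c, hc⟩
  obtain ⟨c, hc⟩ := hgpow
  have h1 : (1 + Lh : AddMonoid.End (KG n' (Prod.map (shT n τ) (fun j : ZMod h => j + 1))
      (ZM n ZK ×ˢ (Set.univ : Set (ZMod h))))) ^ g = 0 := by
    have h2 := one_add_pow_two_pow (Lh : AddMonoid.End (KG n' (Prod.map (shT n τ) (fun j : ZMod h => j + 1))
      (ZM n ZK ×ˢ (Set.univ : Set (ZMod h))))) c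
    rw [← hc, hLg] at h2
    rw [h2]
    exact end_add_self 1
  have h3 : (1 : AddMonoid.End (KG n' (Prod.map (shT n τ) (fun j : ZMod h => j + 1))
      (ZM n ZK ×ˢ (Set.univ : Set (ZMod h))))) + Lh ^ n = (1 + Lh) ^ n := by
    have h2 := one_add_pow_two_pow (Lh : AddMonoid.End (KG n' (Prod.map (shT n τ) (fun j : ZMod h => j + 1))
      (ZM n ZK ×ˢ (Set.univ : Set (ZMod h))))) a
    rw [← ha] at h2
    exact h2.symm
  have hcard := card_XX (n := n) (n' := n') (h := h) ⟨b, hb⟩ hd ⟨g, hg⟩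
  rw [hdiv, ← hm] at hcard
  have h4 : (1 + Lh : AddMonoid.End (KG n' (Prod.map (shT n τ) (fun j : ZMod h => j + 1))
      (ZM n ZK ×ˢ (Set.univ : Set (ZMod h))))) ^ n * (1 + Lh) ^ m = 0 := by
    rw [← pow_add]
    obtain ⟨r, hr⟩ := Nat.exists_eq_add_of_le hcard
    rw [hr, pow_add, h1, zero_mul]
  have h5 : ((1 : AddMonoid.End (KG n' (Prod.map (shT n τ) (fun j : ZMod h => j + 1))
      (ZM n ZK ×ˢ (Set.univ : Set (ZMod h))))) + Lh ^ n : AddMonoid.End (KG n'
      (Prod.map (shT n τ) (fun j : ZMod h => j + 1))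
      (ZM n ZK ×ˢ (Set.univ : Set (ZMod h))))) (((1 + Lh) ^ m * A : AddMonoid.End (KG n'
      (Prod.map (shT n τ) (fun j : ZMod h => j + 1))
      (ZM n ZK ×ˢ (Set.univ : Set (ZMod h))))) w) = 0 := by
    rw [h3]
    have h6 : ((1 + Lh) ^ n * ((1 + Lh) ^ m * A) : AddMonoid.End (KG n'
        (Prod.map (shT n τ) (fun j : ZMod h => j + 1))
        (ZM n ZK ×ˢ (Set.univ : Set (ZMod h))))) w = 0 := by
      rw [← mul_assoc, h4, zero_mul]
      rfl
    exact h6
  exact h5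

end

end Pool.Agent.CRC
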