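import Pool.Agent.Lib.MP_13800a_gt.Weight

set_option autoImplicit false

/-!
# Points separating a connected space
-/

namespace Pool.Agent.Lib.MP_13800a_gt

open Set

section Sep

variable {F : Type} [TopologicalSpace F]

/-- The point `e` separates `a` from `b`: the complement of `e` is the union of two disjoint open
sets, one containing `a` and the other containing `b`. -/
def Separates (e a b : F) : Prop :=
  ∃ U V : Set F, IsOpen U ∧ IsOpen V ∧ Disjoint U V ∧ U ∪ V = {e}ᶜ ∧ a ∈ U ∧ b ∈ V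

theorem Separates.symm {e a b : F} (h : Separates e a b) : Separates e b a := by
  obtain ⟨U, V, hU, hV, hd, hUV, ha, hb⟩ := h
  exact ⟨V, U, hV, hU, hd.symm, by rw [union_comm, hUV], hb, ha⟩

theorem Separates.ne_left {e a b : F} (h : Separates e a b) : a ≠ e := by
  obtain ⟨U, V, -, -, -, hUV, ha, -⟩ := h
  have : a ∈ ({e}ᶜ : Set F) := hUV ▸ Or.inl ha
  exact this

theorem Separates.ne_right {e a b : F} (h : Separates e a b) : b ≠ e := h.symm.ne_left

theorem Separates.ne {e a b : F} (h : Separates e a b) : a ≠ b := by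
  obtain ⟨U, V, -, -, hd, -, ha, hb⟩ := h
  rintro rfl
  exact (disjoint_left.1 hd ha) hb

theorem Separates.image {F' : Type} [TopologicalSpace F'] {e a b : F} (h : Separates e a b)
    (φ : F ≃ₜ F') : Separates (φ e) (φ a) (φ b) := by
  obtain ⟨U, V, hU, hV, hd, hUV, ha, hb⟩ := h
  refine ⟨φ '' U, φ '' V, φ.isOpenMap _ hU, φ.isOpenMap _ hV,
    (disjoint_image_iff φ.injective).2 hd, ?_, mem_image_of_mem _ ha, mem_image_of_mem _ hb⟩
  rw [← image_union, hUV, image_compl_eq φ.bijective, image_singleton]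

/-- A connected set avoiding `e` lies on one side of a separation by `e`. -/
theorem Separates.of_connected {e a b a' : F} (h : Separates e a b) {S : Set F}
    (hS : IsPreconnected S) (he : e ∉ S) (ha : a ∈ S) (ha' : a' ∈ S) : Separates e a' b := by
  obtain ⟨U, V, hU, hV, hd, hUV, hau, hb⟩ := h
  refine ⟨U, V, hU, hV, hd, hUV, ?_, hb⟩
  have hsub : S ⊆ U ∪ V := by
    intro x hx
    rw [hUV]
    intro hxe
    exact he (hxe ▸ hx)
  rcases hS.subset_or_subset hU hV hd hsub with h1 | h1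
  · exact h1 ha'
  · exact absurd (h1 ha) (disjoint_left.1 hd hau)

theorem Separates.not_mem_connected {e a b : F} (h : Separates e a b) {S : Set F}
    (hS : IsPreconnected S) (ha : a ∈ S) (hb : b ∈ S) : e ∈ S := by
  by_contra he
  exact (h.of_connected hS he ha hb).ne rfl

/-- If `F` is connected and `F ∖ {m} = U ⊔ V` then `U ∪ {m}` is connected. -/
theorem isPreconnected_side [PreconnectedSpace F] [T1Space F] {m : F} {U V : Set F}
    (hU : IsOpen U) (hV : IsOpen V) (hd : Disjoint U V) (hUV : U ∪ V = {m}ᶜ) :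
    IsPreconnected (insert m U) := by
  have hmU : m ∉ U := fun h => by
    have : m ∈ ({m}ᶜ : Set F) := hUV ▸ Or.inl h
    exact this rfl
  have hmV : m ∉ V := fun h => by
    have : m ∈ ({m}ᶜ : Set F) := hUV ▸ Or.inr h
    exact this rfl
  have hclosed : IsClosed (insert m U) := by
    have : insert m U = Vᶜ := by
      ext x
      constructor
      · rintro (rfl | hx)
        · exact hmV
        · exact fun hxV => disjoint_left.1 hd hx hxV
      · intro hx
        by_cases hxm : x = m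
        · exact Or.inl hxm
        · have : x ∈ U ∪ V := hUV ▸ hxm
          exact Or.inr (this.resolve_right hx)
    rw [this]
    exact hV.isClosed_compl
  rw [isPreconnected_closed_iff]
  intro P Q hP hQ hcov hPne hQne
  by_contra hcon
  rw [not_nonempty_iff_eq_empty] at hcon
  -- wlog m ∈ P
  have key : ∀ P Q : Set F, IsClosed P → IsClosed Q → insert m U ⊆ P ∪ Q →
      (insert m U ∩ Q).Nonempty → insert m U ∩ (P ∩ Q) = ∅ → m ∈ P → False := by
    intro P Q hP hQ hcov hQne hcon hmP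
    have hmQ : m ∉ Q := fun hmQ => by
      have : m ∈ insert m U ∩ (P ∩ Q) := ⟨mem_insert _ _, hmP, hmQ⟩
      rw [hcon] at this
      exact this
    -- A = (insert m U) ∩ Q is clopen in F
    have hA : IsClosed (insert m U ∩ Q) := hclosed.inter hQ
    have hA' : IsOpen (insert m U ∩ Q) := by
      have : insert m U ∩ Q = U ∩ Pᶜ := by
        ext x
        constructor
        · rintro ⟨hx, hxQ⟩
          rcases hx with rfl | hx
          · exact absurd hxQ hmQ
          · refine ⟨hx, fun hxP => ?_⟩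
            have : x ∈ insert m U ∩ (P ∩ Q) := ⟨Or.inr hx, hxP, hxQ⟩
            rw [hcon] at this
            exact this
        · rintro ⟨hx, hxP⟩
          exact ⟨Or.inr hx, (hcov (Or.inr hx)).resolve_left hxP⟩
      rw [this]
      exact hU.inter hP.isOpen_compl
    have huniv := IsClopen.eq_univ ⟨hA, hA'⟩ hQne
    have : m ∈ insert m U ∩ Q := huniv ▸ mem_univ m
    exact hmQ this.2
  rcases hcov (mem_insert m U) with hm | hm
  · exact key P Q hP hQ hcov hQne hcon hm
  · refine key Q P hQ hP (by rwa [union_comm]) hPne (by rwa [inter_comm Q P]) hm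

/-- The points of `C` between `a` and `b`. -/
def Btw (C : Set F) (a b : F) : Set F := {e | e ∈ C ∧ (e = a ∨ e = b ∨ Separates e a b)}

theorem btw_subset (C : Set F) (a b : F) : Btw C a b ⊆ C := fun _ h => h.1

theorem left_mem_btw {C : Set F} {a b : F} (ha : a ∈ C) : a ∈ Btw C a b := ⟨ha, Or.inl rfl⟩

theorem right_mem_btw {C : Set F} {a b : F} (hb : b ∈ C) : b ∈ Btw C a b :=
  ⟨hb, Or.inr (Or.inl rfl)⟩

theorem btw_comm (C : Set F) (a b : F) : Btw C a b = Btw C b a := by
  ext e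
  constructor
  · rintro ⟨h, h1 | h1 | h1⟩
    · exact ⟨h, Or.inr (Or.inl h1)⟩
    · exact ⟨h, Or.inl h1⟩
    · exact ⟨h, Or.inr (Or.inr h1.symm)⟩
  · rintro ⟨h, h1 | h1 | h1⟩
    · exact ⟨h, Or.inr (Or.inl h1)⟩
    · exact ⟨h, Or.inl h1⟩
    · exact ⟨h, Or.inr (Or.inr h1.symm)⟩

theorem btw_image {F' : Type} [TopologicalSpace F'] (φ : F ≃ₜ F') (C : Set F) (a b : F) :
    Btw (φ '' C) (φ a) (φ b) = φ '' Btw C a b := by
  ext e
  constructor
  · rintro ⟨⟨x, hx, rfl⟩, h⟩
    refine ⟨x, ⟨hx, ?_⟩, rfl⟩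
    rcases h with h | h | h
    · exact Or.inl (φ.injective h)
    · exact Or.inr (Or.inl (φ.injective h))
    · have := h.image φ.symm
      simp only [Homeomorph.symm_apply_apply] at this
      exact Or.inr (Or.inr this)
  · rintro ⟨x, ⟨hx, h⟩, rfl⟩
    refine ⟨mem_image_of_mem _ hx, ?_⟩
    rcases h with h | h | h
    · exact Or.inl (by rw [h])
    · exact Or.inr (Or.inl (by rw [h]))
    · exact Or.inr (Or.inr (h.image φ))

theorem btw_triangle {C : Set F} {a b c : F} (_hb : b ∈ C) :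
    Btw C a c ⊆ Btw C a b ∪ Btw C b c := by
  rintro e ⟨he, h⟩
  rcases h with h | h | h
  · exact Or.inl ⟨he, Or.inl h⟩
  · exact Or.inr ⟨he, Or.inr (Or.inl h)⟩
  · by_cases hbe : b = e
    · exact Or.inl ⟨he, Or.inr (Or.inl hbe.symm)⟩
    · obtain ⟨U, V, hU, hV, hd, hUV, ha, hc⟩ := h
      have : b ∈ U ∪ V := hUV ▸ hbe
      rcases this with hb | hb
      · exact Or.inr ⟨he, Or.inr (Or.inr ⟨U, V, hU, hV, hd, hUV, hb, hc⟩)⟩
      · exact Or.inl ⟨he, Or.inr (Or.inr ⟨U, V, hU, hV, hd, hUV, ha, hb⟩)⟩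

theorem btw_self (C : Set F) (a : F) : Btw C a a ⊆ {a} := by
  rintro e ⟨-, h | h | h⟩
  · exact h
  · exact h
  · exact absurd rfl h.ne

/-- If `m` separates `c` (in `U`) from `k` (in `V`), the points between `m` and `k` are in
`V ∪ {m}` and are between `c` and `k`. -/
theorem btw_side [PreconnectedSpace F] [T1Space F] {C : Set F} {m : F} {U V : Set F}
    (hU : IsOpen U) (hV : IsOpen V) (hd : Disjoint U V) (hUV : U ∪ V = {m}ᶜ)
    {c k : F} (hc : c ∈ U) (hk : k = m ∨ k ∈ V) :
    Btw C m k ⊆ Uᶜ ∩ Btw C c k := by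
  have hmU : m ∉ U := fun h => by
    have : m ∈ ({m}ᶜ : Set F) := hUV ▸ Or.inl h
    exact this rfl
  have hkU : k ∉ U := by
    rcases hk with rfl | hk
    · exact hmU
    · exact fun h => disjoint_left.1 hd h hk
  have hVc := isPreconnected_side hV hU hd.symm (by rw [union_comm, hUV])
  have hUc := isPreconnected_side hU hV hd hUV
  have hkV : k ∈ insert m V := by
    rcases hk with rfl | hk
    · exact mem_insert _ _
    · exact Or.inr hk
  rintro e ⟨he, h⟩
  rcases h with h | h | h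
  · subst h
    refine ⟨hmU, he, ?_⟩
    rcases hk with rfl | hk
    · exact Or.inr (Or.inl rfl)
    · exact Or.inr (Or.inr ⟨U, V, hU, hV, hd, hUV, hc, hk⟩)
  · subst h
    exact ⟨hkU, he, Or.inr (Or.inl rfl)⟩
  · have heV : e ∈ insert m V := h.not_mem_connected hVc (mem_insert _ _) hkV
    have hem : m ≠ e := h.ne_left
    have heU : e ∉ U := by
      rcases heV with h1 | h1
      · exact absurd h1.symm hem
      · exact fun h2 => disjoint_left.1 hd h2 h1
    refine ⟨heU, he, Or.inr (Or.inr ?_)⟩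
    refine h.of_connected hUc ?_ (mem_insert _ _) (Or.inr hc)
    rintro (h1 | h1)
    · exact hem h1.symm
    · exact heU h1

/-- Betweenness sets shrink. -/
theorem btw_shrink [PreconnectedSpace F] [T1Space F] [CompactSpace F] {C : Set F}
    (hC : IsClosed C) (hsep : ∀ a ∈ C, ∀ b ∈ C, a ≠ b → ∃ c ∈ C, Separates c a b)
    {c : F} (hc : c ∈ C) {O : Set F} (hO : IsOpen O) (hcO : c ∈ O) :
    ∃ W : Set F, IsOpen W ∧ c ∈ W ∧ ∀ c' ∈ W, c' ∈ C → Btw C c c' ⊆ O := by
  have hK : IsCompact (C ∩ Oᶜ) := (hC.inter hO.isClosed_compl).isCompact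
  have hex : ∀ e : F, ∃ U V : Set F, e ∈ C ∩ Oᶜ → IsOpen U ∧ IsOpen V ∧ c ∈ U ∧ e ∈ V ∧
      ∀ c' ∈ U, ∀ e' ∈ V, ¬ Separates e' c c' := by
    intro e
    by_cases he : e ∈ C ∩ Oᶜ
    · obtain ⟨m, hm, U, V, hU, hV, hd, hUV, hcU, heV⟩ :=
        hsep c hc e he.1 (fun h => he.2 (h ▸ hcO))
      refine ⟨U, V, fun _ => ⟨hU, hV, hcU, heV, fun c' hc' e' he' hs => ?_⟩⟩
      have hUc := isPreconnected_side hU hV hd hUV
      rcases hs.not_mem_connected hUc (Or.inr hcU) (Or.inr hc') with h1 | h1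
      · have : e' ∈ ({m}ᶜ : Set F) := hUV ▸ Or.inr he'
        exact this h1
      · exact disjoint_left.1 hd h1 he'
    · exact ⟨∅, ∅, fun h => absurd h he⟩
  choose U V hUV using hex
  obtain ⟨t, hcov⟩ := hK.elim_nhds_subcover' (fun e _ => V e)
    (fun e he => (hUV e he).2.1.mem_nhds (hUV e he).2.2.2.1)
  refine ⟨O ∩ ⋂ e ∈ t, U (e : F), hO.inter (isOpen_biInter_finset fun e _ => (hUV e e.2).1),
    ⟨hcO, mem_iInter₂.2 fun e _ => (hUV e e.2).2.2.1⟩, ?_⟩
  rintro c' ⟨hc'O, hc'⟩ hc'C e ⟨he, h⟩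
  by_contra heO
  rcases h with h | h | h
  · exact heO (h ▸ hcO)
  · exact heO (h ▸ hc'O)
  · obtain ⟨x, hx, hex⟩ := mem_iUnion₂.1 (hcov ⟨he, heO⟩)
    exact (hUV x x.2).2.2.2.2 c' (mem_iInter₂.1 hc' x hx) e hex h

end Sep

end Pool.Agent.Lib.MP_13800a_gt
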