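import Pool.Agent.Lib.MP_13800a_gt.GoodI

/-! States: compact metric spaces with a free isometric action of `Z/2^k` and a good number. -/

set_option autoImplicit false

namespace Pool.Agent.CRC

open Set Topology

structure State where
  S : Type
  [ms : MetricSpace S]
  [cs : CompactSpace S]
  [ne : Nonempty S]
  k : ℕ
  τ : S → S
  iso : Isometry τ
  ord : ∀ x, τ^[2 ^ k] x = x
  free : ∀ x i, 0 < i → i < 2 ^ k → τ^[i] x ≠ x
  m : ℕ
  good : Good (2 ^ k) τ m

attribute [instance] State.ms State.cs State.ne

/-- the ratio of a state -/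
noncomputable def State.ratio (X : State) : ℝ := (X.m + 1) / 2 ^ X.k

/-- maps of states `Y → X` -/
structure Cov (Y X : State) where
  q : Y.S → X.S
  lip : ∀ x y, dist (q x) (q y) ≤ dist x y
  surj : Function.Surjective q
  equi : ∀ y, q (Y.τ y) = X.τ (q y)
  kle : X.k ≤ Y.k

theorem Cov.continuous {Y X : State} (f : Cov Y X) : Continuous f.q :=
  (LipschitzWith.mk_one f.lip).continuous

def Cov.refl (X : State) : Cov X X := ⟨id, fun _ _ => le_rfl, Function.surjective_id, fun _ => rfl,
  le_rfl⟩

def Cov.comp {Z Y X : State} (f : Cov Y X) (g : Cov Z Y) : Cov Z X :=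
  ⟨f.q ∘ g.q, fun x y => (f.lip _ _).trans (g.lip _ _), f.surj.comp g.surj,
    fun z => by simp [Function.comp, g.equi, f.equi], f.kle.trans g.kle⟩

theorem Cov.iter {Y X : State} (f : Cov Y X) (i : ℕ) (y : Y.S) :
    f.q (Y.τ^[i] y) = X.τ^[i] (f.q y) := by
  induction i generalizing y with
  | zero => rfl
  | succ i ih => rw [Function.iterate_succ_apply, ih, f.equi, Function.iterate_succ_apply]

/-- The point is a state. -/
noncomputable def pointState : State where
  S := Unit
  k := 0
  τ := id
  iso := isometry_id
  ord := fun _ => rfl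
  free := fun x i h0 h1 => by simp at h1; omega
  m := 0
  good := by simpa using good_base

theorem pointState_ratio : pointState.ratio = 1 := by
  simp [State.ratio, pointState]

end Pool.Agent.CRC
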