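import Pool.Agent.Lib.MP_13800a_gt.ToepNorm

/-! TASK ToepAlg: band structure, middle rows and corners of `B_N`. -/

set_option autoImplicit false

open scoped Matrix Kronecker Matrix.Norms.L2Operator
open Matrix

namespace Pool.Agent.CRC

section
variable {ι : Type} [Fintype ι] [DecidableEq ι]

/-- block `(a,b)` -/
def toepalg_blk {N : ℕ} (A : MM (ι × Fin N)) (a b : Fin N) : MM ι :=
  Matrix.of fun p r => A ((p.1, a), p.2) ((r.1, b), r.2)

omit [Fintype ι] [DecidableEq ι] in
theorem toepalg_ext {N : ℕ} {A B : MM (ι × Fin N)}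
    (h : ∀ a b, toepalg_blk A a b = toepalg_blk B a b) : A = B := by
  ext ⟨⟨i, a⟩, x⟩ ⟨⟨j, b⟩, y⟩
  exact congrFun (congrFun (h a b) (i, x)) (j, y)

omit [DecidableEq ι] in
theorem toepalg_blk_mul {N : ℕ} (A B : MM (ι × Fin N)) (a b : Fin N) :
    toepalg_blk (A * B) a b = ∑ c, toepalg_blk A a c * toepalg_blk B c b := by
  ext ⟨i, x⟩ ⟨j, y⟩
  simp only [toepalg_blk, Matrix.of_apply, Matrix.mul_apply, Matrix.sum_apply,
    Fintype.sum_prod_type]
  rw [Finset.sum_comm]

theorem toepalg_blk_one {N : ℕ} (a b : Fin N) :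
    toepalg_blk (1 : MM (ι × Fin N)) a b = if a = b then 1 else 0 := by
  ext ⟨i, x⟩ ⟨j, y⟩
  by_cases h : a = b
  · subst h
    simp only [toepalg_blk, Matrix.of_apply, Matrix.one_apply, if_true, Prod.mk.injEq, and_true]
  · simp [toepalg_blk, Matrix.of_apply, Matrix.one_apply, h]

omit [Fintype ι] [DecidableEq ι] in
theorem toepalg_blk_toep {N : ℕ} (C : ℤ → MM ι) (a b : Fin N) :
    toepalg_blk (toep N C) a b = C (((b : ℕ) : ℤ) - ((a : ℕ) : ℤ)) := by
  ext ⟨i, x⟩ ⟨j, y⟩
  rfl

omit [Fintype ι] [DecidableEq ι] in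
theorem toepalg_blk_cdiag {N : ℕ} (v : MM ι) (a b : Fin N) :
    toepalg_blk (cdiag N v) a b = if a = b then v else 0 := by
  ext ⟨i, x⟩ ⟨j, y⟩
  by_cases h : a = b
  · simp [toepalg_blk, cdiag, h]
  · simp [toepalg_blk, cdiag, h]

omit [DecidableEq ι] in
theorem toepalg_blk_cdiag_mul {N : ℕ} (v : MM ι) (A : MM (ι × Fin N)) (a b : Fin N) :
    toepalg_blk (cdiag N v * A) a b = v * toepalg_blk A a b := by
  rw [toepalg_blk_mul]
  simp only [toepalg_blk_cdiag, ite_mul, zero_mul]
  simp

theorem toep_one (N : ℕ) : toep N (fun m => if m = 0 then (1 : MM ι) else 0) = 1 := by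
  apply toepalg_ext
  intro a b
  rw [toepalg_blk_toep, toepalg_blk_one]
  have : (((b : ℕ) : ℤ) - ((a : ℕ) : ℤ) = 0) ↔ a = b := by
    rw [Fin.ext_iff]; omega
  simp only [this]

theorem cdiag_mul (N : ℕ) (v w : MM ι) : cdiag N (v * w) = cdiag N v * cdiag N w := by
  apply toepalg_ext
  intro a b
  rw [toepalg_blk_cdiag_mul, toepalg_blk_cdiag, toepalg_blk_cdiag]
  split_ifs <;> simp

theorem cdiag_one (N : ℕ) : cdiag N (1 : MM ι) = 1 := by
  apply toepalg_ext
  intro a b
  rw [toepalg_blk_cdiag, toepalg_blk_one]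

/-- band structure of a product -/
theorem toepalg_prod_band (d N : ℕ) (l : List (ℤ → MM ι))
    (hl : ∀ C ∈ l, ∀ m : ℤ, (d : ℤ) < |m| → C m = 0)
    (a b : Fin N) (hab : ((l.length * d : ℕ) : ℤ) < |((b : ℕ) : ℤ) - ((a : ℕ) : ℤ)|) :
    toepalg_blk (l.map (toep N)).prod a b = 0 := by
  induction l generalizing a with
  | nil =>
    simp only [List.map_nil, List.prod_nil]
    rw [toepalg_blk_one, if_neg]
    rintro rfl
    simp at hab
  | cons C l ih =>
    simp only [List.map_cons, List.prod_cons]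
    rw [toepalg_blk_mul]
    apply Finset.sum_eq_zero
    intro c _
    rw [toepalg_blk_toep]
    by_cases hc : (d : ℤ) < |((c : ℕ) : ℤ) - ((a : ℕ) : ℤ)|
    · rw [hl C (by simp) _ hc, zero_mul]
    · rw [ih (fun C' hC' => hl C' (by simp [hC'])) c, mul_zero]
      simp only [List.length_cons, add_mul, one_mul] at hab
      push_cast at hab ⊢
      have h1 : |((b : ℕ) : ℤ) - ((a : ℕ) : ℤ)| ≤
          |((b : ℕ) : ℤ) - ((c : ℕ) : ℤ)| + |((c : ℕ) : ℤ) - ((a : ℕ) : ℤ)| :=
        abs_sub_le _ _ _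
      linarith

/-- band structure: blocks `(a,b)` with `|a-b| > D` vanish -/
theorem BN_band (d N D : ℕ) (v : MM ι) (l : List (ℤ → MM ι))
    (hl : ∀ C ∈ l, ∀ m : ℤ, (d : ℤ) < |m| → C m = 0) (hD : l.length * d ≤ D)
    (a b : Fin N) (hab : (D : ℤ) < |((b : ℕ) : ℤ) - ((a : ℕ) : ℤ)|) (i j : ι) (x y : Fin 2) :
    BN N v l ((i, a), x) ((j, b), y) = 0 := by
  have h1 : toepalg_blk (BN N v l) a b = 0 := by
    rw [BN, toepalg_blk_cdiag_mul, toepalg_prod_band d N l hl a b, mul_zero]
    have : ((l.length * d : ℕ) : ℤ) ≤ (D : ℤ) := by exact_mod_cast hD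
    linarith
  exact congrFun (congrFun h1 (i, x)) (j, y)

/-- coefficients of the product -/
noncomputable def toepalg_cf (d : ℕ) : List (ℤ → MM ι) → (ℤ → MM ι)
  | [] => fun m => if m = 0 then 1 else 0
  | C :: l => fun m => ∑ k ∈ Finset.Icc (-(d : ℤ)) d, C k * toepalg_cf d l (m - k)

theorem toepalg_cf_supp (d : ℕ) (l : List (ℤ → MM ι)) (m : ℤ)
    (hm : ((l.length * d : ℕ) : ℤ) < |m|) : toepalg_cf d l m = 0 := by
  induction l generalizing m with
  | nil =>
    simp only [toepalg_cf]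
    rw [if_neg]
    rintro rfl
    simp at hm
  | cons C l ih =>
    simp only [toepalg_cf]
    apply Finset.sum_eq_zero
    intro k hk
    rw [Finset.mem_Icc] at hk
    rw [ih (m - k), mul_zero]
    simp only [List.length_cons, add_mul, one_mul] at hm
    push_cast at hm ⊢
    have h1 : |m| ≤ |m - k| + |k| := by
      have := abs_add_le (m - k) k
      simpa using this
    have h2 : |k| ≤ d := abs_le.mpr ⟨hk.1, hk.2⟩
    linarith

theorem toepalg_ev_cf (d : ℕ) (l : List (ℤ → MM ι)) (z : Circle) :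
    evTP (l.length * d) (toepalg_cf d l) z = (l.map (fun C => evTP d C (z : ℂ))).prod := by
  induction l with
  | nil =>
    simp [evTP, toepalg_cf]
  | cons C l ih =>
    simp only [List.map_cons, List.prod_cons]
    rw [← ih]
    have hz : (z : ℂ) ≠ 0 := z.coe_ne_zero
    simp only [evTP, toepalg_cf, List.length_cons]
    rw [Finset.sum_mul]
    simp only [Finset.smul_sum]
    rw [Finset.sum_comm]
    apply Finset.sum_congr rfl
    intro k hk
    rw [Finset.mem_Icc] at hk
    -- shift of the summation index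
    have h1 : ∀ m : ℤ, (z : ℂ) ^ m • (C k * toepalg_cf d l (m - k)) =
        ((z : ℂ) ^ k • C k) * ((z : ℂ) ^ (m - k) • toepalg_cf d l (m - k)) := by
      intro m
      rw [smul_mul_smul_comm, ← zpow_add₀ hz]
      congr 2
      ring
    simp only [h1]
    rw [← Finset.mul_sum]
    congr 1
    -- both are the sum over the support
    have h2 : ∑ m ∈ Finset.Icc (-(((l.length + 1) * d : ℕ) : ℤ)) (((l.length + 1) * d : ℕ) : ℤ),
        (z : ℂ) ^ (m - k) • toepalg_cf d l (m - k) =
        ∑ m ∈ (Finset.Icc (-(((l.length + 1) * d : ℕ) : ℤ)) (((l.length + 1) * d : ℕ) : ℤ)).map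
          (Equiv.subRight k).toEmbedding, (z : ℂ) ^ m • toepalg_cf d l m := by
      rw [Finset.sum_map]
      rfl
    rw [h2]
    symm
    apply Finset.sum_subset
    · intro m hm
      rw [Finset.mem_map]
      rw [Finset.mem_Icc] at hm
      refine ⟨m + k, ?_, ?_⟩
      · rw [Finset.mem_Icc]
        push_cast at hm ⊢
        constructor
        · linarith [hm.1, hk.1]
        · linarith [hm.2, hk.2]
      · simp
    · intro m _ hm2
      rw [toepalg_cf_supp d l m, smul_zero]
      by_contra h3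
      apply hm2
      rw [Finset.mem_Icc]
      have h4 := abs_le.mp (not_lt.mp h3)
      exact h4

/-- middle rows of the product -/
theorem toepalg_prod_mid (d N : ℕ) (l : List (ℤ → MM ι))
    (hl : ∀ C ∈ l, ∀ m : ℤ, (d : ℤ) < |m| → C m = 0)
    (a b : Fin N) (h1 : l.length * d ≤ (a : ℕ)) (h2 : (a : ℕ) + l.length * d < N) :
    toepalg_blk (l.map (toep N)).prod a b =
      toepalg_cf d l (((b : ℕ) : ℤ) - ((a : ℕ) : ℤ)) := by
  induction l generalizing a with
  | nil =>
    simp only [List.map_nil, List.prod_nil, toepalg_cf]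
    rw [toepalg_blk_one]
    have : (((b : ℕ) : ℤ) - ((a : ℕ) : ℤ) = 0) ↔ a = b := by
      rw [Fin.ext_iff]; omega
    simp only [this]
  | cons C l ih =>
    simp only [List.map_cons, List.prod_cons, toepalg_cf]
    rw [toepalg_blk_mul]
    simp only [List.length_cons, add_mul, one_mul] at h1 h2
    have e1 : ∀ c : Fin N, toepalg_blk (toep N C) a c * toepalg_blk (l.map (toep N)).prod c b =
        C (((c : ℕ) : ℤ) - ((a : ℕ) : ℤ)) *
          toepalg_cf d l (((b : ℕ) : ℤ) - ((a : ℕ) : ℤ) - (((c : ℕ) : ℤ) - ((a : ℕ) : ℤ))) := by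
      intro c
      rw [toepalg_blk_toep]
      by_cases hc : (d : ℤ) < |((c : ℕ) : ℤ) - ((a : ℕ) : ℤ)|
      · rw [hl C (by simp) _ hc, zero_mul, zero_mul]
      · have h3 := abs_le.mp (not_lt.mp hc)
        rw [ih (fun C' hC' => hl C' (by simp [hC'])) c (by omega) (by omega)]
        congr 2
        ring
    simp only [e1]
    -- reindex
    have e2 : ∑ c : Fin N, C (((c : ℕ) : ℤ) - ((a : ℕ) : ℤ)) *
          toepalg_cf d l (((b : ℕ) : ℤ) - ((a : ℕ) : ℤ) - (((c : ℕ) : ℤ) - ((a : ℕ) : ℤ))) =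
        ∑ k ∈ (Finset.univ : Finset (Fin N)).map
          ⟨fun c : Fin N => (((c : ℕ) : ℤ) - ((a : ℕ) : ℤ)), fun c c' h => by
            apply Fin.ext
            have h' : (((c : ℕ) : ℤ) - ((a : ℕ) : ℤ)) = (((c' : ℕ) : ℤ) - ((a : ℕ) : ℤ)) := h
            omega⟩, C k * toepalg_cf d l (((b : ℕ) : ℤ) - ((a : ℕ) : ℤ) - k) := by
      rw [Finset.sum_map]
      rfl
    rw [e2]
    symm
    apply Finset.sum_subset
    · intro k hk
      rw [Finset.mem_Icc] at hk
      rw [Finset.mem_map]
      refine ⟨⟨((a : ℕ) + k).toNat, by omega⟩, Finset.mem_univ _, ?_⟩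
      show ((((a : ℕ) : ℤ) + k).toNat : ℤ) - ((a : ℕ) : ℤ) = k
      rw [Int.toNat_of_nonneg (by omega)]
      ring
    · intro k _ hk2
      rw [hl C (by simp) k, zero_mul]
      by_contra h3
      apply hk2
      rw [Finset.mem_Icc]
      exact abs_le.mp (not_lt.mp h3)

/-- the middle rows of `B_N` are close to those of the identity -/
theorem BN_mid (d N D : ℕ) (v : MM ι) (l : List (ℤ → MM ι))
    (hl : ∀ C ∈ l, ∀ m : ℤ, (d : ℤ) < |m| → C m = 0) (hD : l.length * d ≤ D) {M : ℝ}
    (hM : ∀ z : Circle, ‖v * (l.map (fun C => evTP d C z)).prod - 1‖ ≤ M) :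
    ‖amp (prj ι N (fun a => D ≤ a ∧ a + D < N)) * (BN N v l - 1)‖ ≤ M := by
  set C' : ℤ → MM ι := fun m => v * toepalg_cf d l m - (if m = 0 then 1 else 0) with hC'
  have key : amp (prj ι N (fun a => D ≤ a ∧ a + D < N)) * (BN N v l - 1) =
      amp (prj ι N (fun a => D ≤ a ∧ a + D < N)) * toep N C' := by
    ext ⟨⟨i, a⟩, x⟩ ⟨⟨j, b⟩, y⟩
    have hdiag : ∀ A : MM (ι × Fin N),
        (amp (prj ι N (fun a => D ≤ a ∧ a + D < N)) * A) ((i, a), x) ((j, b), y) =
          (if D ≤ (a : ℕ) ∧ (a : ℕ) + D < N then 1 else 0) * A ((i, a), x) ((j, b), y) := by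
      intro A
      have : amp (prj ι N (fun a => D ≤ a ∧ a + D < N)) =
          Matrix.diagonal (fun p : (ι × Fin N) × Fin 2 =>
            (if D ≤ (p.1.2 : ℕ) ∧ (p.1.2 : ℕ) + D < N then (1 : ℂ) else 0)) := by
        ext ⟨p, x'⟩ ⟨q, y'⟩
        simp only [amp, prj, Matrix.kroneckerMap_apply, Matrix.diagonal_apply, Matrix.one_apply,
          Prod.mk.injEq]
        by_cases h1 : p = q
        · by_cases h2 : x' = y'
          · simp [h1, h2]
          · simp [h2]
        · simp [h1]
      rw [this, Matrix.diagonal_mul]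
    rw [hdiag, hdiag]
    by_cases ha : D ≤ (a : ℕ) ∧ (a : ℕ) + D < N
    · rw [if_pos ha, one_mul, one_mul]
      have h1 : toepalg_blk (BN N v l - 1) a b = toepalg_blk (toep N C') a b := by
        have h2 : toepalg_blk (BN N v l - 1) a b =
            toepalg_blk (BN N v l) a b - toepalg_blk 1 a b := rfl
        rw [h2, BN, toepalg_blk_cdiag_mul, toepalg_prod_mid d N l hl a b (by omega) (by omega),
          toepalg_blk_toep, toepalg_blk_one, hC']
        have : (((b : ℕ) : ℤ) - ((a : ℕ) : ℤ) = 0) ↔ a = b := by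
          rw [Fin.ext_iff]; omega
        simp only [this]
      exact congrFun (congrFun h1 (i, x)) (j, y)
    · rw [if_neg ha, zero_mul, zero_mul]
  rw [key]
  refine (norm_amp_prj_mul_le N _ _).trans ?_
  apply toep_norm (l.length * d) N C'
  · intro m hm
    rw [hC']
    simp only
    rw [toepalg_cf_supp d l m hm, mul_zero, if_neg, sub_zero]
    rintro rfl
    simp only [abs_zero] at hm
    exact absurd hm (not_lt.mpr (by positivity))
  · intro z
    refine le_trans (le_of_eq ?_) (hM z)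
    congr 1
    rw [← toepalg_ev_cf]
    simp only [evTP, hC', smul_sub, Finset.sum_sub_distrib, Finset.mul_sum]
    congr 1
    · apply Finset.sum_congr rfl
      intro m _
      rw [mul_smul_comm]
    · rw [Finset.sum_eq_single (0 : ℤ)]
      · simp
      · intro m _ hm
        rw [if_neg hm, smul_zero]
      · intro h
        exfalso
        apply h
        rw [Finset.mem_Icc]
        constructor
        · have : (0 : ℤ) ≤ ((l.length * d : ℕ) : ℤ) := by positivity
          linarith
        · positivity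

/-- the top left corner does not depend on `N` -/
theorem toepalg_top (d N : ℕ) (l : List (ℤ → MM ι))
    (hl : ∀ C ∈ l, ∀ m : ℤ, (d : ℤ) < |m| → C m = 0)
    (a b : Fin N) (ha : (a : ℕ) + l.length * d < N) :
    toepalg_blk (l.map (toep N)).prod a b =
      toepalg_blk (l.map (toep (N + 1))).prod a.castSucc b.castSucc := by
  induction l generalizing a with
  | nil =>
    simp only [List.map_nil, List.prod_nil]
    rw [toepalg_blk_one, toepalg_blk_one]
    simp
  | cons C l ih =>
    simp only [List.length_cons, add_mul, one_mul] at ha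
    simp only [List.map_cons, List.prod_cons]
    rw [toepalg_blk_mul, toepalg_blk_mul, Fin.sum_univ_castSucc]
    have h0 : toepalg_blk (toep (N + 1) C) a.castSucc (Fin.last N) = 0 := by
      rw [toepalg_blk_toep]
      apply hl C (by simp)
      rw [lt_abs]
      left
      simp only [Fin.val_last, Fin.val_castSucc]
      omega
    rw [h0, zero_mul, add_zero]
    apply Finset.sum_congr rfl
    intro c _
    rw [toepalg_blk_toep, toepalg_blk_toep]
    simp only [Fin.val_castSucc]
    by_cases hc : (d : ℤ) < |((c : ℕ) : ℤ) - ((a : ℕ) : ℤ)|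
    · rw [hl C (by simp) _ hc, zero_mul, zero_mul]
    · have h3 := abs_le.mp (not_lt.mp hc)
      rw [ih (fun C' hC' => hl C' (by simp [hC'])) c (by omega)]

/-- the top left corner does not depend on `N` -/
theorem BN_top (d N D : ℕ) (v : MM ι) (l : List (ℤ → MM ι))
    (hl : ∀ C ∈ l, ∀ m : ℤ, (d : ℤ) < |m| → C m = 0) (hD : l.length * d ≤ D)
    (a b : Fin N) (ha : (a : ℕ) + D < N) (i j : ι) (x y : Fin 2) :
    BN N v l ((i, a), x) ((j, b), y)
      = BN (N + 1) v l ((i, a.castSucc), x) ((j, b.castSucc), y) := by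
  have h1 : toepalg_blk (BN N v l) a b = toepalg_blk (BN (N + 1) v l) a.castSucc b.castSucc := by
    rw [BN, BN, toepalg_blk_cdiag_mul, toepalg_blk_cdiag_mul,
      toepalg_top d N l hl a b (by omega)]
  exact congrFun (congrFun h1 (i, x)) (j, y)

theorem toepalg_bot (d N : ℕ) (l : List (ℤ → MM ι))
    (hl : ∀ C ∈ l, ∀ m : ℤ, (d : ℤ) < |m| → C m = 0)
    (a b : Fin N) (ha : l.length * d ≤ (a : ℕ)) :
    toepalg_blk (l.map (toep N)).prod a b =
      toepalg_blk (l.map (toep (N + 1))).prod a.succ b.succ := by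
  induction l generalizing a with
  | nil =>
    simp only [List.map_nil, List.prod_nil]
    rw [toepalg_blk_one, toepalg_blk_one]
    simp
  | cons C l ih =>
    simp only [List.length_cons, add_mul, one_mul] at ha
    simp only [List.map_cons, List.prod_cons]
    rw [toepalg_blk_mul, toepalg_blk_mul, Fin.sum_univ_succ]
    have h0 : toepalg_blk (toep (N + 1) C) a.succ 0 = 0 := by
      rw [toepalg_blk_toep]
      apply hl C (by simp)
      rw [lt_abs]
      right
      simp only [Fin.val_zero, Fin.val_succ]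
      push_cast
      omega
    rw [h0, zero_mul, zero_add]
    apply Finset.sum_congr rfl
    intro c _
    rw [toepalg_blk_toep, toepalg_blk_toep]
    have e1 : (((c.succ : Fin (N + 1)) : ℕ) : ℤ) - (((a.succ : Fin (N + 1)) : ℕ) : ℤ) =
        ((c : ℕ) : ℤ) - ((a : ℕ) : ℤ) := by
      simp only [Fin.val_succ]
      push_cast
      ring
    rw [e1]
    by_cases hc : (d : ℤ) < |((c : ℕ) : ℤ) - ((a : ℕ) : ℤ)|
    · rw [hl C (by simp) _ hc, zero_mul, zero_mul]
    · have h3 := abs_le.mp (not_lt.mp hc)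
      rw [ih (fun C' hC' => hl C' (by simp [hC'])) c (by omega)]

/-- the bottom right corner does not depend on `N` -/
theorem BN_bot (d N D : ℕ) (v : MM ι) (l : List (ℤ → MM ι))
    (hl : ∀ C ∈ l, ∀ m : ℤ, (d : ℤ) < |m| → C m = 0) (hD : l.length * d ≤ D)
    (a b : Fin N) (ha : D ≤ (a : ℕ)) (i j : ι) (x y : Fin 2) :
    BN N v l ((i, a), x) ((j, b), y)
      = BN (N + 1) v l ((i, a.succ), x) ((j, b.succ), y) := by
  have h1 : toepalg_blk (BN N v l) a b = toepalg_blk (BN (N + 1) v l) a.succ b.succ := by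
    rw [BN, BN, toepalg_blk_cdiag_mul, toepalg_blk_cdiag_mul,
      toepalg_bot d N l hl a b (by omega)]
  exact congrFun (congrFun h1 (i, x)) (j, y)

end

end Pool.Agent.CRC
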