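import Pool.Agent.Lib.MP_13800a_gt.Chop
import Pool.Agent.Lib.MP_13800a_gt.Homs
import Pool.Agent.Lib.MP_13800a_gt.ToepAlg

/-! TASK ToepEl: Toeplitz matrices as elements. -/

set_option autoImplicit false

open scoped Matrix Kronecker Matrix.Norms.L2Operator
open Matrix

namespace Pool.Agent.CRC

section
variable {n d k : ℕ} {Q ι : Type} [TopologicalSpace Q] [Fintype ι] [DecidableEq ι]
  {ρ : Matrix ι ι ℂ} {τ : Q → Q} {Z : Set Q}

theorem toepel_zt_mul_star (n : ℕ) : star (zt n) * zt n = 1 := by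
  rw [Complex.star_def, Complex.conj_mul', norm_zt]
  norm_num

theorem toepel_diag_unitary (n k N : ℕ) :
    (Matrix.diagonal (fun a : Fin N => zt n ^ (k * (a : ℕ)))) ∈ unitary (Matrix (Fin N) (Fin N) ℂ) := by
  have h1 : ∀ a : Fin N, star (zt n ^ (k * (a : ℕ))) * zt n ^ (k * (a : ℕ)) = 1 := by
    intro a
    rw [star_pow, ← mul_pow, toepel_zt_mul_star, one_pow]
  rw [Unitary.mem_iff]
  constructor
  · rw [star_eq_conjTranspose, Matrix.diagonal_conjTranspose, Matrix.diagonal_mul_diagonal]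
    ext i j
    by_cases h : i = j
    · subst h
      simpa using h1 i
    · simp [h]
  · rw [star_eq_conjTranspose, Matrix.diagonal_conjTranspose, Matrix.diagonal_mul_diagonal]
    ext i j
    by_cases h : i = j
    · subst h
      rw [Matrix.diagonal_apply_eq, Matrix.one_apply_eq]
      rw [← h1 i, mul_comm]
      rfl
    · simp [h]

theorem toepel_kron_pow {κ : Type} [Fintype κ] [DecidableEq κ] (A : Matrix ι ι ℂ)
    (B : Matrix κ κ ℂ) (m : ℕ) : (A ⊗ₖ B) ^ m = (A ^ m) ⊗ₖ (B ^ m) := by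
  induction m with
  | zero => simp
  | succ m ih => rw [pow_succ, ih, ← Matrix.mul_kronecker_mul, ← pow_succ, ← pow_succ]

theorem isRep_tRep (hρ : IsRep n ρ) (k N : ℕ) : IsRep n (tRep n k N ρ) := by
  constructor
  · exact kronecker_mem_unitary hρ.1 (toepel_diag_unitary n k N)
  · rw [tRep, toepel_kron_pow, hρ.2, Matrix.diagonal_pow]
    have : (fun a : Fin N => zt n ^ (k * (a : ℕ))) ^ n = fun _ => 1 := by
      funext a
      rw [Pi.pow_apply, ← pow_mul, mul_comm, pow_mul, zt_pow_self, one_pow]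
    rw [this]
    simp

theorem toepel_blk_tRep (N : ℕ) (a b : Fin N) :
    toepalg_blk (amp (tRep n k N ρ)) a b = if a = b then zt n ^ (k * (a : ℕ)) • amp ρ else 0 := by
  ext ⟨i, x⟩ ⟨j, y⟩
  by_cases h : a = b
  · subst h
    simp only [toepalg_blk, amp, tRep, Matrix.of_apply, Matrix.kroneckerMap_apply,
      Matrix.diagonal_apply_eq, if_true, Matrix.smul_apply, smul_eq_mul]
    ring
  · simp [toepalg_blk, amp, tRep, Matrix.kroneckerMap_apply, h]

theorem toepel_mul_tRep (N : ℕ) (A : MM (ι × Fin N)) (a b : Fin N) :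
    toepalg_blk (A * amp (tRep n k N ρ)) a b =
      zt n ^ (k * (b : ℕ)) • (toepalg_blk A a b * amp ρ) := by
  rw [toepalg_blk_mul]
  simp only [toepel_blk_tRep, mul_ite, mul_zero, mul_smul_comm]
  simp

theorem toepel_tRep_mul (N : ℕ) (A : MM (ι × Fin N)) (a b : Fin N) :
    toepalg_blk (amp (tRep n k N ρ) * A) a b =
      zt n ^ (k * (a : ℕ)) • (amp ρ * toepalg_blk A a b) := by
  rw [toepalg_blk_mul]
  simp only [toepel_blk_tRep, ite_mul, zero_mul, smul_mul_assoc]
  simp

theorem isEl_cdiag (N : ℕ) {u : Q → UI → MM ι} (hu : IsEl ρ τ Z u) :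
    IsEl (tRep n k N ρ) τ Z (fun q t => cdiag N (u q t)) := by
  refine ⟨?_, ?_, ?_, ?_, ?_, ?_⟩
  · apply continuous_matrix
    intro p r
    simp only [cdiag, Matrix.of_apply]
    split_ifs
    · exact hu.cont.matrix_elem _ _
    · exact continuous_const
  · intro q t
    obtain ⟨w, hw⟩ := hu.unit q t
    refine ⟨⟨cdiag N (w : MM ι), cdiag N ((w⁻¹ : (MM ι)ˣ) : MM ι), ?_, ?_⟩, ?_⟩
    · rw [← cdiag_mul, Units.mul_inv, cdiag_one]
    · rw [← cdiag_mul, Units.inv_mul, cdiag_one]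
    · show cdiag N (w : MM ι) = cdiag N (u q t)
      rw [hw]
  · intro q
    obtain ⟨a, ha⟩ := hu.zero q
    refine ⟨a ⊗ₖ (1 : Matrix (Fin N) (Fin N) ℂ), ?_⟩
    show cdiag N (u q 0) = _
    rw [ha]
    ext ⟨⟨i, a1⟩, x⟩ ⟨⟨j, b1⟩, y⟩
    by_cases h : a1 = b1
    · simp [cdiag, amp, Matrix.kroneckerMap_apply, h]
    · simp [cdiag, amp, Matrix.kroneckerMap_apply, h]
  · intro q
    show cdiag N (u q 1) = 1
    rw [hu.one, cdiag_one]
  · intro q hq t
    show cdiag N (u q t) = 1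
    rw [hu.rel q hq, cdiag_one]
  · intro q t
    apply toepalg_ext
    intro a b
    rw [toepel_mul_tRep, toepel_tRep_mul, toepalg_blk_cdiag, toepalg_blk_cdiag]
    by_cases h : a = b
    · rw [if_pos h, if_pos h, hu.eqv, h]
    · rw [if_neg h, if_neg h, zero_mul, mul_zero, smul_zero, smul_zero]

theorem toepel_norm (N : ℕ) {C : ℤ → MM ι} (hC : ∀ m : ℤ, (d : ℤ) < |m| → C m = 0)
    (h4 : ∀ z : Circle, ‖evTP d C z - 1‖ ≤ 1 / 4) : ‖toep N C - 1‖ ≤ 1 / 4 := by
  have h1 : toep N C - 1 = toep N (fun m => C m - (if m = 0 then 1 else 0)) := by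
    rw [← toep_one N]
    ext ⟨⟨i, a⟩, x⟩ ⟨⟨j, b⟩, y⟩
    simp [toep]
  rw [h1]
  apply toep_norm d N
  · intro m hm
    rw [hC m hm, if_neg, sub_zero]
    rintro rfl
    simp only [abs_zero] at hm
    exact absurd hm (not_lt.mpr (by positivity))
  · intro z
    refine le_trans (le_of_eq ?_) (h4 z)
    congr 1
    simp only [evTP, smul_sub, Finset.sum_sub_distrib]
    congr 1
    rw [Finset.sum_eq_single (0 : ℤ)]
    · simp
    · intro m _ hm
      rw [if_neg hm, smul_zero]
    · intro h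
      exfalso
      apply h
      rw [Finset.mem_Icc]
      constructor
      · have : (0 : ℤ) ≤ (d : ℤ) := by positivity
        linarith
      · positivity

theorem toepel_isUnit {κ : Type} [Fintype κ] [DecidableEq κ] {A : Matrix κ κ ℂ}
    (h : ‖A - 1‖ < 1) : IsUnit A := by
  have h1 : ‖1 - A‖ < 1 := by rwa [norm_sub_rev]
  have h2 := isUnit_one_sub_of_norm_lt_one h1
  rwa [sub_sub_cancel] at h2

theorem isEl_toep (N : ℕ) {C : ℤ → Q → UI → MM ι} (hC : IsTP n d k ρ τ Z C)
    (h4 : ∀ q t (z : Circle), ‖evTP d (fun m => C m q t) z - 1‖ ≤ 1 / 4) :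
    IsEl (tRep n k N ρ) τ Z (fun q t => toep N (fun m => C m q t)) ∧
      ∀ q t, ‖toep N (fun m => C m q t) - 1‖ ≤ 1 / 4 := by
  have hn : ∀ q t, ‖toep N (fun m => C m q t) - 1‖ ≤ 1 / 4 := fun q t =>
    toepel_norm N (fun m hm => hC.supp m hm q t) (h4 q t)
  refine ⟨⟨?_, ?_, ?_, ?_, ?_, ?_⟩, hn⟩
  · apply continuous_matrix
    intro p r
    simp only [toep, Matrix.of_apply]
    exact (hC.cont _).matrix_elem _ _
  · intro q t
    exact toepel_isUnit (lt_of_le_of_lt (hn q t) (by norm_num))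
  · intro q
    choose a ha using fun m => hC.zero m q
    refine ⟨Matrix.of fun p r => a (((r.2 : ℕ) : ℤ) - ((p.2 : ℕ) : ℤ)) p.1 r.1, ?_⟩
    show toep N (fun m => C m q 0) = _
    ext ⟨⟨i, a1⟩, x⟩ ⟨⟨j, b1⟩, y⟩
    simp only [toep, Matrix.of_apply, ha, amp, Matrix.kroneckerMap_apply]
  · intro q
    show toep N (fun m => C m q 1) = 1
    simp only [hC.one]
    exact toep_one N
  · intro q hq t
    show toep N (fun m => C m q t) = 1
    simp only [hC.rel _ q hq t]
    exact toep_one N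
  · intro q t
    apply toepalg_ext
    intro a b
    rw [toepel_mul_tRep, toepel_tRep_mul, toepalg_blk_toep, toepalg_blk_toep, ← hC.eqv,
      smul_smul]
    congr 1
    have hz := zt_ne_zero n
    rw [← zpow_natCast, ← zpow_natCast, ← zpow_natCast, ← _root_.zpow_mul, ← zpow_add₀ hz]
    congr 1
    push_cast
    ring

/-- splitting off the last block -/
def toepel_e (ι : Type) (N : ℕ) : ι × Fin (N + 1) ≃ (ι × Fin N) ⊕ ι where
  toFun p := Fin.lastCases (motive := fun _ => (ι × Fin N) ⊕ ι) (Sum.inr p.1)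
    (fun a => Sum.inl (p.1, a)) p.2
  invFun := Sum.elim (fun p => (p.1, p.2.castSucc)) (fun i => (i, Fin.last N))
  left_inv := by
    rintro ⟨i, a⟩
    refine Fin.lastCases ?_ (fun a => ?_) a <;> simp
  right_inv := by
    rintro (⟨i, a⟩ | i) <;> simp

/-- `mk (u ⊗ 1_N) = ∑_{a<N} L^{ka} mk u` -/
theorem mk_cdiag (N : ℕ) {u : Q → UI → MM ι} (hρ : IsRep n ρ) (hu : IsEl ρ τ Z u) :
    KG.mk (isRep_tRep hρ k N) (isEl_cdiag (n := n) (k := k) N hu) =
      ∑ a ∈ Finset.range N, (Lh ^ (k * a)) (KG.mk hρ hu) := by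
  induction N with
  | zero =>
    rw [Finset.sum_range_zero, ← KG.mk_one (isRep_tRep hρ k 0)]
    apply KG.mk_congr _ _ _ _ rfl
    intro q t
    ext ⟨⟨i, a⟩, x⟩
    exact a.elim0
  | succ N ih =>
    rw [Finset.sum_range_succ, ← ih, Lh_pow_mk, ← KG.mk_bs,
      ← KG.mk_reindex (isRep_tRep hρ k (N + 1)) (isEl_cdiag (n := n) (k := k) (N + 1) hu)
        (toepel_e ι N)]
    apply KG.mk_congr
    · ext (⟨i, a⟩ | i) (⟨j, b⟩ | j)
      · simp only [tRep, dg, Matrix.submatrix_apply, toepel_e, Equiv.coe_fn_symm_mk, Sum.elim_inl,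
          Matrix.kroneckerMap_apply, Matrix.fromBlocks_apply₁₁]
        by_cases h : a = b
        · subst h; simp
        · rw [Matrix.diagonal_apply_ne _ (by simpa using h), Matrix.diagonal_apply_ne _ h]
      · simp only [tRep, dg, Matrix.submatrix_apply, toepel_e, Equiv.coe_fn_symm_mk, Sum.elim_inl,
          Sum.elim_inr, Matrix.kroneckerMap_apply, Matrix.fromBlocks_apply₁₂, Matrix.zero_apply]
        rw [Matrix.diagonal_apply_ne _ (Fin.castSucc_lt_last a).ne, mul_zero]
      · simp only [tRep, dg, Matrix.submatrix_apply, toepel_e, Equiv.coe_fn_symm_mk, Sum.elim_inl,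
          Sum.elim_inr, Matrix.kroneckerMap_apply, Matrix.fromBlocks_apply₂₁, Matrix.zero_apply]
        rw [Matrix.diagonal_apply_ne _ (Fin.castSucc_lt_last b).ne', mul_zero]
      · simp only [tRep, dg, Matrix.submatrix_apply, toepel_e, Equiv.coe_fn_symm_mk,
          Sum.elim_inr, Matrix.kroneckerMap_apply, Matrix.fromBlocks_apply₂₂,
          Matrix.smul_apply, Matrix.diagonal_apply_eq, Fin.val_last, smul_eq_mul]
        ring
    · intro q t
      ext ⟨(⟨i, a⟩ | i), x⟩ ⟨(⟨j, b⟩ | j), y⟩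
      · simp only [cdiag, bs, Matrix.submatrix_apply, toepel_e, Equiv.coe_fn_symm_mk,
          Prod.map_apply, id_eq, Sum.elim_inl, Matrix.of_apply, Equiv.sumProdDistrib_apply_left,
          Matrix.fromBlocks_apply₁₁]
        by_cases h : a = b
        · subst h; simp
        · rw [if_neg (by simpa using h), if_neg h]
      · simp only [cdiag, bs, Matrix.submatrix_apply, toepel_e, Equiv.coe_fn_symm_mk,
          Prod.map_apply, id_eq, Sum.elim_inl, Sum.elim_inr, Matrix.of_apply,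
          Equiv.sumProdDistrib_apply_left, Equiv.sumProdDistrib_apply_right,
          Matrix.fromBlocks_apply₁₂, Matrix.zero_apply]
        rw [if_neg (Fin.castSucc_lt_last a).ne]
      · simp only [cdiag, bs, Matrix.submatrix_apply, toepel_e, Equiv.coe_fn_symm_mk,
          Prod.map_apply, id_eq, Sum.elim_inl, Sum.elim_inr, Matrix.of_apply,
          Equiv.sumProdDistrib_apply_left, Equiv.sumProdDistrib_apply_right,
          Matrix.fromBlocks_apply₂₁, Matrix.zero_apply]
        rw [if_neg (Fin.castSucc_lt_last b).ne']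
      · simp only [cdiag, bs, Matrix.submatrix_apply, toepel_e, Equiv.coe_fn_symm_mk,
          Prod.map_apply, id_eq, Sum.elim_inr, Matrix.of_apply,
          Equiv.sumProdDistrib_apply_right, Matrix.fromBlocks_apply₂₂, if_true]

theorem toepel_norm_one_le {κ : Type} [Fintype κ] [DecidableEq κ] :
    ‖(1 : Matrix κ κ ℂ)‖ ≤ 1 := by
  rcases isEmpty_or_nonempty κ with h | h
  · have : (1 : Matrix κ κ ℂ) = 0 := Subsingleton.elim _ _
    rw [this, norm_zero]
    norm_num
  · exact le_of_eq (CStarRing.norm_one)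

theorem toepel_inv_norm {κ : Type} [Fintype κ] [DecidableEq κ] {A : Matrix κ κ ℂ}
    (h : ‖A - 1‖ ≤ 1 / 4) : ‖A⁻¹‖ ≤ 4 / 3 := by
  have hu : IsUnit A := toepel_isUnit (lt_of_le_of_lt h (by norm_num))
  have hdet := (Matrix.isUnit_iff_isUnit_det A).mp hu
  have h1 : A⁻¹ = 1 - (A - 1) * A⁻¹ := by
    rw [sub_mul, Matrix.mul_nonsing_inv _ hdet, one_mul]
    abel
  have h2 : ‖A⁻¹‖ ≤ 1 + 1 / 4 * ‖A⁻¹‖ := by
    calc ‖A⁻¹‖ = ‖1 - (A - 1) * A⁻¹‖ := by rw [← h1]
      _ ≤ ‖(1 : Matrix κ κ ℂ)‖ + ‖(A - 1) * A⁻¹‖ := norm_sub_le _ _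
      _ ≤ 1 + ‖A - 1‖ * ‖A⁻¹‖ := add_le_add toepel_norm_one_le (norm_mul_le _ _)
      _ ≤ 1 + 1 / 4 * ‖A⁻¹‖ := by
        have := mul_le_mul_of_nonneg_right h (norm_nonneg A⁻¹)
        linarith
  linarith

/-- `B_N` is an element with class `∑_{a<N} L^{ka} mk v`, and its inverse is bounded independently
of `N`. -/
theorem mk_BN (N : ℕ) (hρ : IsRep n ρ) {v : Q → UI → MM ι} (hv : IsEl ρ τ Z v)
    (l : List (ℤ → Q → UI → MM ι)) (hl : ∀ C ∈ l, IsTP n d k ρ τ Z C)
    (h4 : ∀ C ∈ l, ∀ q t (z : Circle), ‖evTP d (fun m => C m q t) z - 1‖ ≤ 1 / 4) :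
    ∃ h : IsEl (tRep n k N ρ) τ Z (fun q t => BN N (v q t) (l.map (fun C m => C m q t))),
      KG.mk (isRep_tRep hρ k N) h = ∑ a ∈ Finset.range N, (Lh ^ (k * a)) (KG.mk hρ hv) ∧
      ∀ q t, ‖(BN N (v q t) (l.map (fun C m => C m q t)))⁻¹‖ ≤
        (4 / 3) ^ l.length * ‖(v q t)⁻¹‖ := by
  -- the list of Toeplitz elements
  have hprod : ∃ h : IsEl (tRep n k N ρ) τ Z
      (fun q t => ((l.map (fun C m => C m q t)).map (toep N)).prod),
      KG.mk (isRep_tRep hρ k N) h = 0 ∧
      ∀ q t, ‖(((l.map (fun C m => C m q t)).map (toep N)).prod)⁻¹‖ ≤ (4 / 3) ^ l.length := by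
    induction l with
    | nil =>
      refine ⟨?_, ?_, ?_⟩
      · simpa using IsEl.const_one
      · exact (KG.mk_congr _ _ (isRep_tRep hρ k N) IsEl.const_one rfl (fun q t => by simp)).trans
          (KG.mk_one _)
      · intro q t
        simpa using toepel_norm_one_le
    | cons C l ih =>
      obtain ⟨h1, h2, h3⟩ := ih (fun C' hC' => hl C' (by simp [hC']))
        (fun C' hC' => h4 C' (by simp [hC']))
      obtain ⟨g1, g2⟩ := isEl_toep N (hl C (by simp)) (h4 C (by simp))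
      have e : ∀ q t, (((C :: l).map (fun C m => C m q t)).map (toep N)).prod =
          toep N (fun m => C m q t) * ((l.map (fun C m => C m q t)).map (toep N)).prod := by
        intro q t
        simp
      have hEl : IsEl (tRep n k N ρ) τ Z
          (fun q t => (((C :: l).map (fun C m => C m q t)).map (toep N)).prod) := by
        have := g1.mul h1
        convert this using 3
        exact e _ _
      refine ⟨hEl, ?_, ?_⟩
      · refine (KG.mk_congr _ hEl (isRep_tRep hρ k N) (g1.mul h1) rfl e).trans ?_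
        refine (KG.mk_mul (isRep_tRep hρ k N) g1 h1).trans ?_
        rw [h2, add_zero]
        exact mk_small _ g1 (fun q t => lt_of_le_of_lt (g2 q t) (by norm_num))
      · intro q t
        rw [e q t, Matrix.mul_inv_rev, List.length_cons, pow_succ]
        exact (norm_mul_le _ _).trans
          (mul_le_mul (h3 q t) (toepel_inv_norm (g2 q t)) (norm_nonneg _) (by positivity))
  obtain ⟨h1, h2, h3⟩ := hprod
  refine ⟨(isEl_cdiag N hv).mul h1, ?_, ?_⟩
  · refine (KG.mk_mul (isRep_tRep hρ k N) (isEl_cdiag (n := n) (k := k) N hv) h1).trans ?_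
    rw [h2, add_zero, mk_cdiag]
  · intro q t
    rw [BN, Matrix.mul_inv_rev]
    have hinv : (cdiag N (v q t))⁻¹ = cdiag N (v q t)⁻¹ := by
      apply Matrix.inv_eq_right_inv
      rw [← cdiag_mul, Matrix.mul_nonsing_inv _
        ((Matrix.isUnit_iff_isUnit_det _).mp (hv.unit q t)), cdiag_one]
    rw [hinv]
    exact (norm_mul_le _ _).trans
      (mul_le_mul (h3 q t) (norm_cdiag_le N _) (norm_nonneg _) (by positivity))

end

end Pool.Agent.CRC
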