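import Pool.Agent.Lib.MP_13800a_gt.CutBN
import Pool.Agent.Lib.MP_13800a_gt.ToepEl
import Pool.Agent.Lib.MP_13800a_gt.Two

/-! TASK TSCore: comparison of `B_N` and `B_{N+1}` (end of the proof of (TS), section 3). -/

set_option autoImplicit false

open scoped Matrix Kronecker Matrix.Norms.L2Operator
open Matrix

namespace Pool.Agent.CRC

section tscore_lin

/-- truncated permutation matrix -/
def tscore_W {α β : Type} [DecidableEq β] (f : α → β) (s : α → Prop) [DecidablePred s] :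
    Matrix β α ℂ := Matrix.of fun b a => if f a = b ∧ s a then 1 else 0

variable {α β γ : Type} [Fintype α] [DecidableEq α] [Fintype β] [DecidableEq β]
  {f : α → β} {s : α → Prop} [DecidablePred s]

theorem tscore_mul_W (A : Matrix γ β ℂ) (c : γ) (a : α) :
    (A * tscore_W f s) c a = if s a then A c (f a) else 0 := by
  rw [Matrix.mul_apply]
  simp only [tscore_W, Matrix.of_apply]
  rw [Finset.sum_eq_single (f a)]
  · by_cases h : s a <;> simp [h]
  · intro b _ hb
    rw [if_neg, mul_zero]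
    rintro ⟨h, -⟩
    exact hb h.symm
  · intro h
    exact absurd (Finset.mem_univ _) h

theorem tscore_WT_mul (A : Matrix β γ ℂ) (c : γ) (a : α) :
    ((tscore_W f s)ᵀ * A) a c = if s a then A (f a) c else 0 := by
  rw [Matrix.mul_apply]
  simp only [tscore_W, Matrix.of_apply, Matrix.transpose_apply]
  rw [Finset.sum_eq_single (f a)]
  · by_cases h : s a <;> simp [h]
  · intro b _ hb
    rw [if_neg, zero_mul]
    rintro ⟨h, -⟩
    exact hb h.symm
  · intro h
    exact absurd (Finset.mem_univ _) h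

theorem tscore_W_mul (hf : Function.Injective f) (A : Matrix α γ ℂ) (c : γ) (a : α) :
    (tscore_W f s * A) (f a) c = if s a then A a c else 0 := by
  rw [Matrix.mul_apply]
  simp only [tscore_W, Matrix.of_apply]
  rw [Finset.sum_eq_single a]
  · by_cases h : s a <;> simp [h]
  · intro b _ hb
    rw [if_neg, zero_mul]
    rintro ⟨h, -⟩
    exact hb (hf h)
  · intro h
    exact absurd (Finset.mem_univ _) h

theorem tscore_W_mul_not (A : Matrix α γ ℂ) (c : γ) (b : β) (hb : ∀ a, s a → f a ≠ b) :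
    (tscore_W f s * A) b c = 0 := by
  rw [Matrix.mul_apply]
  refine Finset.sum_eq_zero fun a _ => ?_
  simp only [tscore_W, Matrix.of_apply]
  rw [if_neg, zero_mul]
  rintro ⟨h, h'⟩
  exact hb a h' h

theorem tscore_mul_WT (hf : Function.Injective f) (A : Matrix γ α ℂ) (c : γ) (a : α) :
    (A * (tscore_W f s)ᵀ) c (f a) = if s a then A c a else 0 := by
  rw [Matrix.mul_apply]
  simp only [tscore_W, Matrix.of_apply, Matrix.transpose_apply]
  rw [Finset.sum_eq_single a]
  · by_cases h : s a <;> simp [h]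
  · intro b _ hb
    rw [if_neg, mul_zero]
    rintro ⟨h, -⟩
    exact hb (hf h)
  · intro h
    exact absurd (Finset.mem_univ _) h

theorem tscore_mul_WT_not (A : Matrix γ α ℂ) (c : γ) (b : β) (hb : ∀ a, s a → f a ≠ b) :
    (A * (tscore_W f s)ᵀ) c b = 0 := by
  rw [Matrix.mul_apply]
  refine Finset.sum_eq_zero fun a _ => ?_
  simp only [tscore_W, Matrix.of_apply, Matrix.transpose_apply]
  rw [if_neg, mul_zero]
  rintro ⟨h, h'⟩
  exact hb a h' h

theorem tscore_WT_W (hf : Function.Injective f) :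
    (tscore_W f s)ᵀ * tscore_W f s = Matrix.diagonal fun a => if s a then (1 : ℂ) else 0 := by
  ext a b
  rw [tscore_WT_mul, Matrix.diagonal_apply]
  simp only [tscore_W, Matrix.of_apply]
  by_cases h : a = b
  · subst h
    by_cases h2 : s a <;> simp [h2]
  · rw [if_neg h]
    have h2 : ¬ (f b = f a ∧ s b) := fun h1 => h (hf h1.1).symm
    rw [if_neg h2, ite_self]

theorem tscore_amp_W : amp (tscore_W f s) =
    tscore_W (Prod.map f (id : Fin 2 → Fin 2)) (fun a => s a.1) := by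
  ext ⟨b, x⟩ ⟨a, y⟩
  simp only [amp, Matrix.kroneckerMap_apply, tscore_W, Matrix.of_apply, Prod.map_apply, id,
    Prod.mk.injEq, Matrix.one_apply]
  rcases eq_or_ne x y with rfl | h3
  · by_cases h1 : f a = b <;> by_cases h2 : s a <;> simp [h1, h2]
  · have h3' := h3.symm
    simp [h3, h3']

theorem tscore_amp_transpose (a : Matrix α β ℂ) : amp aᵀ = (amp a)ᵀ := by
  ext ⟨b, x⟩ ⟨a, y⟩
  simp only [amp, Matrix.kroneckerMap_apply, Matrix.transpose_apply, Matrix.one_apply]
  by_cases h3 : x = y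
  · simp [h3]
  · have h3' : ¬ y = x := fun h => h3 h.symm
    simp [h3, h3']

end tscore_lin

section
variable {n d k : ℕ} {Q ι : Type} [TopologicalSpace Q] [Fintype ι] [DecidableEq ι]
  {ρ : Matrix ι ι ℂ} {τ : Q → Q} {Z : Set Q}

theorem tscore_prj_sq (N : ℕ) (s : ℕ → Prop) [DecidablePred s] :
    prj ι N s * prj ι N s = prj ι N s := by
  unfold prj
  rw [Matrix.diagonal_mul_diagonal]
  congr 1
  ext p
  by_cases h : s (p.2 : ℕ) <;> simp [h]

theorem tscore_tRep_apply (N : ℕ) (i j : ι) (a b : Fin N) :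
    tRep n k N ρ (i, a) (j, b) = if a = b then ρ i j * zt n ^ (k * (a : ℕ)) else 0 := by
  unfold tRep
  rw [Matrix.kroneckerMap_apply]
  by_cases h : a = b
  · simp [h]
  · simp [h]

theorem tscore_prj_comm (N : ℕ) (s : ℕ → Prop) [DecidablePred s] :
    prj ι N s * tRep n k N ρ = tRep n k N ρ * prj ι N s := by
  unfold prj
  ext ⟨i, a⟩ ⟨j, b⟩
  rw [Matrix.diagonal_mul, Matrix.mul_diagonal, tscore_tRep_apply]
  by_cases h : a = b
  · subst h
    simp [mul_comm]
  · simp [h]

theorem tscore_compare {N : ℕ} (e : Fin N → Fin (N + 1)) (he : Function.Injective e)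
    (s s' : ℕ → Prop) [DecidablePred s] [DecidablePred s'] (hs : ∀ a : Fin N, s' (e a) ↔ s a)
    (hs' : ∀ b : Fin (N + 1), s' b → ∃ a, e a = b) (c : ℂ)
    (hc : ∀ a : Fin N, c * zt n ^ (k * (a : ℕ)) = zt n ^ (k * (e a : ℕ)))
    (hρN : IsRep n (c • tRep n k N ρ)) (hρM : IsRep n (tRep n k (N + 1) ρ))
    {B : Q → UI → MM (ι × Fin N)} {B' : Q → UI → MM (ι × Fin (N + 1))}
    (hB : ∀ q t (a b : Fin N), s a → s b → ∀ (i j : ι) (x y : Fin 2),
      B q t ((i, a), x) ((j, b), y) = B' q t ((i, e a), x) ((j, e b), y))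
    (hN : IsEl (c • tRep n k N ρ) τ Z (fun q t => amp (prj ι N s) * B q t * amp (prj ι N s) +
      amp (1 - prj ι N s)))
    (hM : IsEl (tRep n k (N + 1) ρ) τ Z (fun q t => amp (prj ι (N + 1) s') * B' q t *
      amp (prj ι (N + 1) s') + amp (1 - prj ι (N + 1) s'))) :
    KG.mk hρM hM = KG.mk hρN hN := by
  obtain ⟨f, hf⟩ : ∃ f : ι × Fin N → ι × Fin (N + 1), f = Prod.map id e := ⟨_, rfl⟩
  have hfi : Function.Injective f := by
    rw [hf]
    exact Function.injective_id.prodMap he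
  obtain ⟨W, hW⟩ : ∃ W : Matrix (ι × Fin (N + 1)) (ι × Fin N) ℂ,
      W = tscore_W f (fun a => s (a.2 : ℕ)) := ⟨_, rfl⟩
  have hWW : Wᵀ * W = prj ι N s := by
    rw [hW, tscore_WT_W hfi]
    rfl
  have hWW' : W * Wᵀ = prj ι (N + 1) s' := by
    unfold prj
    ext ⟨i, b⟩ ⟨j, c⟩
    by_cases hb : ∃ a : ι × Fin N, s (a.2 : ℕ) ∧ f a = (i, b)
    · obtain ⟨a, ha, hab⟩ := hb
      rw [← hab, hW, tscore_W_mul hfi, if_pos ha, Matrix.diagonal_apply, Matrix.transpose_apply]
      simp only [tscore_W, Matrix.of_apply]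
      have h2 : s' ((f a).2 : ℕ) := by
        rw [hf]
        exact (hs a.2).2 ha
      rw [if_pos h2]
      by_cases h : f a = (j, c)
      · rw [if_pos h, if_pos ⟨h, ha⟩]
      · rw [if_neg h, if_neg (fun h' => h h'.1)]
    · rw [hW, tscore_W_mul_not _ _ _ (fun a ha h => hb ⟨a, ha, h⟩), Matrix.diagonal_apply]
      by_cases h : (i, b) = (j, c)
      · rw [if_pos h, if_neg]
        intro h'
        obtain ⟨a, ha⟩ := hs' b h'
        refine hb ⟨(i, a), ?_, ?_⟩
        · rw [← hs a, ha]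
          exact h'
        · rw [hf]
          simp [ha]
      · rw [if_neg h]
  have hWP : W * prj ι N s = W := by
    unfold prj
    ext p ⟨j, a⟩
    rw [Matrix.mul_diagonal, hW]
    simp only [tscore_W, Matrix.of_apply]
    by_cases h : s (a : ℕ) <;> simp [h]
  have hPW : prj ι N s * Wᵀ = Wᵀ := by
    unfold prj
    ext ⟨j, a⟩ p
    rw [Matrix.diagonal_mul, hW, Matrix.transpose_apply]
    simp only [tscore_W, Matrix.of_apply]
    by_cases h : s (a : ℕ) <;> simp [h]
  have hint : W * (c • tRep n k N ρ) = tRep n k (N + 1) ρ * W := by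
    ext ⟨i, b⟩ ⟨j, a⟩
    have hfa : f (j, a) = (j, e a) := by rw [hf]; rfl
    rw [hW, tscore_mul_W, hfa, tscore_tRep_apply]
    by_cases hb : ∃ a' : ι × Fin N, s (a'.2 : ℕ) ∧ f a' = (i, b)
    · obtain ⟨⟨i', a'⟩, ha', hab⟩ := hb
      have hfa' : f (i', a') = (i', e a') := by rw [hf]; rfl
      rw [hfa', Prod.mk.injEq] at hab
      obtain ⟨rfl, rfl⟩ := hab
      rw [← hfa', tscore_W_mul hfi, Matrix.smul_apply, tscore_tRep_apply]
      simp only at ha' ⊢
      rw [if_pos ha']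
      by_cases h : a' = a
      · subst h
        rw [if_pos rfl, if_pos ha', if_pos rfl, smul_eq_mul, ← hc a']
        ring
      · rw [if_neg h, if_neg (fun h' => h (he h')), smul_zero, ite_self]
    · rw [tscore_W_mul_not _ _ _ (fun a ha h => hb ⟨a, ha, h⟩)]
      by_cases h : b = e a
      · subst h
        rw [if_neg (c := s (a : ℕ))]
        intro h
        exact hb ⟨(i, a), h, by rw [hf]; rfl⟩
      · rw [if_neg h, ite_self]
  have hint' : Wᵀ * tRep n k (N + 1) ρ = (c • tRep n k N ρ) * Wᵀ := by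
    ext ⟨j, a⟩ ⟨i, b⟩
    have hfa : f (j, a) = (j, e a) := by rw [hf]; rfl
    rw [hW, tscore_WT_mul, hfa, tscore_tRep_apply]
    by_cases hb : ∃ a' : ι × Fin N, s (a'.2 : ℕ) ∧ f a' = (i, b)
    · obtain ⟨⟨i', a'⟩, ha', hab⟩ := hb
      have hfa' : f (i', a') = (i', e a') := by rw [hf]; rfl
      rw [hfa', Prod.mk.injEq] at hab
      obtain ⟨rfl, rfl⟩ := hab
      rw [← hfa', tscore_mul_WT hfi, Matrix.smul_apply, tscore_tRep_apply]
      simp only at ha' ⊢
      rw [if_pos ha']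
      by_cases h : a = a'
      · subst h
        rw [if_pos rfl, if_pos ha', if_pos rfl, smul_eq_mul, ← hc a]
        ring
      · rw [if_neg h, if_neg (fun h' => h (he h')), smul_zero, ite_self]
    · rw [tscore_mul_WT_not _ _ _ (fun a ha h => hb ⟨a, ha, h⟩)]
      by_cases h : e a = b
      · subst h
        rw [if_neg (c := s (a : ℕ))]
        intro h
        exact hb ⟨(i, a), h, by rw [hf]; rfl⟩
      · rw [if_neg h, ite_self]
  have hPP : amp (prj ι N s) * amp (1 - prj ι N s) = 0 := by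
    rw [← amp_mul, mul_sub, mul_one, tscore_prj_sq, sub_self, amp_zero]
  have hPP' : amp (1 - prj ι N s) * amp (prj ι N s) = 0 := by
    rw [← amp_mul, sub_mul, one_mul, tscore_prj_sq, sub_self, amp_zero]
  have hPP2 : amp (1 - prj ι N s) * amp (1 - prj ι N s) = amp (1 - prj ι N s) := by
    rw [← amp_mul, mul_sub, mul_one, sub_mul, one_mul, tscore_prj_sq, sub_self, sub_zero]
  have part : PartData (c • tRep n k N ρ) (tRep n k (N + 1) ρ) τ
      (fun q t => amp (prj ι N s) * B q t * amp (prj ι N s) + amp (1 - prj ι N s))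
      (fun _ => W) (fun _ => Wᵀ) :=
    { cw := continuous_const
      cw' := continuous_const
      www := fun q => by rw [Matrix.mul_assoc, hWW, hWP]
      www' := fun q => by rw [hWW, hPW]
      int := fun q => hint
      int' := fun q => hint'
      right := fun q t => by
        rw [hWW, Matrix.add_mul, Matrix.mul_assoc, hPP, Matrix.mul_zero, zero_add, hPP2]
      left := fun q t => by
        rw [hWW, Matrix.mul_add, ← Matrix.mul_assoc, ← Matrix.mul_assoc, hPP', Matrix.zero_mul,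
          Matrix.zero_mul, zero_add, hPP2] }
  rw [← KG.mk_part hρN hρM hN part]
  refine KG.mk_congr hρM hM hρM _ rfl ?_
  intro q t
  unfold conjEl
  have h1 : amp W * amp (prj ι N s) = amp W := by rw [← amp_mul, hWP]
  have h2 : amp (prj ι N s) * amp Wᵀ = amp Wᵀ := by rw [← amp_mul, hPW]
  have h3 : amp W * amp (1 - prj ι N s) = 0 := by
    rw [← amp_mul, Matrix.mul_sub, hWP, Matrix.mul_one, sub_self, amp_zero]
  rw [Matrix.mul_add, h3, add_zero, ← Matrix.mul_assoc, ← Matrix.mul_assoc, h1,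
    Matrix.mul_assoc _ _ (amp Wᵀ), h2, hWW']
  congr 1
  ext ⟨⟨i, a⟩, x⟩ ⟨⟨j, b⟩, y⟩
  have hP : ∀ (s' : ℕ → Prop) [DecidablePred s'], amp (prj ι (N + 1) s') =
      Matrix.diagonal fun p : (ι × Fin (N + 1)) × Fin 2 => if s' (p.1.2 : ℕ) then 1 else 0 := by
    intro s' _
    unfold prj amp
    rw [← Matrix.diagonal_one, Matrix.diagonal_kronecker_diagonal]
    simp
  rw [hP, Matrix.mul_diagonal, Matrix.diagonal_mul, tscore_amp_transpose, hW, tscore_amp_W]
  simp only
  obtain ⟨g, hg⟩ : ∃ g : (ι × Fin N) × Fin 2 → (ι × Fin (N + 1)) × Fin 2,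
      g = Prod.map f (id : Fin 2 → Fin 2) := ⟨_, rfl⟩
  have hgi : Function.Injective g := by
    rw [hg]
    exact hfi.prodMap Function.injective_id
  have hga : ∀ (i : ι) (a : Fin N) (x : Fin 2), g ((i, a), x) = ((i, e a), x) := by
    intro i a x
    rw [hg, hf]
    rfl
  rw [← hg]
  have hnot : ∀ (i : ι) (b : Fin (N + 1)) (x : Fin 2), ¬ s' (b : ℕ) →
      ∀ a : (ι × Fin N) × Fin 2, s (a.1.2 : ℕ) → g a ≠ ((i, b), x) := by
    rintro i b x hb ⟨⟨i', a⟩, x'⟩ ha h
    rw [hga, Prod.mk.injEq, Prod.mk.injEq] at h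
    refine hb ?_
    rw [← h.1.2]
    exact (hs a).2 ha
  by_cases ha : s' (a : ℕ)
  · by_cases hb : s' (b : ℕ)
    · obtain ⟨a0, rfl⟩ := hs' a ha
      obtain ⟨b0, rfl⟩ := hs' b hb
      have ha0 := (hs a0).1 ha
      have hb0 := (hs b0).1 hb
      rw [if_pos ha, if_pos hb, one_mul, mul_one, ← hga i a0 x, ← hga j b0 y,
        tscore_mul_WT hgi, if_pos hb0, tscore_W_mul hgi, if_pos ha0, hga, hga,
        hB q t a0 b0 ha0 hb0]
    · rw [if_neg hb, mul_zero, tscore_mul_WT_not _ _ _ (hnot j b y hb)]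
  · rw [if_neg ha, zero_mul, zero_mul, Matrix.mul_assoc,
      tscore_W_mul_not _ _ _ (hnot i a x ha)]

theorem tscore_mul_apply {A : Type*} [AddCommGroup A] (f g : AddMonoid.End A) (x : A) :
    (f * g) x = f (g x) := rfl

theorem ts_core (hn : 0 < n) (hρ : IsRep n ρ) {u : Q → UI → MM ι} (hu : IsEl ρ τ Z u)
    (l : List (ℤ → Q → UI → MM ι)) (hl : ∀ C ∈ l, IsTP n d k ρ τ Z C)
    (h4 : ∀ C ∈ l, ∀ q t (z : Circle), ‖evTP d (fun m => C m q t) z - 1‖ ≤ 1 / 4)
    {M : ℝ} (hM : ∀ q t, (4 / 3) ^ l.length * ‖u q t‖ * M < 1)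
    (hM' : ∀ q t (z : Circle),
      ‖(u q t)⁻¹ * (l.map (fun C => evTP d (fun m => C m q t) z)).prod - 1‖ ≤ M) :
    ∃ w : KG n τ Z, KG.mk hρ hu = w + (Lh ^ k) w := by
  obtain ⟨D, hD⟩ : ∃ D, D = l.length * d := ⟨_, rfl⟩
  obtain ⟨N, hN⟩ : ∃ N, N = 4 * D + 4 := ⟨_, rfl⟩
  obtain ⟨BB, hBB⟩ : ∃ BB : (N : ℕ) → Q → UI → MM (ι × Fin N),
      BB = fun N q t => BN N ((u q t)⁻¹) (l.map (fun C m => C m q t)) := ⟨_, rfl⟩
  -- the coefficients have small support
  have hsupp : ∀ q t, ∀ C ∈ l.map (fun (C : ℤ → Q → UI → MM ι) m => C m q t), ∀ m : ℤ,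
      (d : ℤ) < |m| → C m = 0 := by
    intro q t C hC m hm
    obtain ⟨C', hC', rfl⟩ := List.mem_map.1 hC
    exact (hl C' hC').supp m hm q t
  have hlen : ∀ q t, (l.map (fun (C : ℤ → Q → UI → MM ι) m => C m q t)).length * d ≤ D := by
    intro q t
    rw [List.length_map, hD]
  -- classes
  have hcl : ∀ N' : ℕ, 4 * D + 4 ≤ N' → ∃ (hF : IsEl (tRep n k N' ρ) τ Z (fun q t =>
        amp (prj ι N' (fun a => a < D)) * BB N' q t *
        amp (prj ι N' (fun a => a < D)) + amp (1 - prj ι N' (fun a => a < D))))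
      (hR : IsEl (tRep n k N' ρ) τ Z (fun q t => amp (prj ι N' (fun a => N' ≤ a + D)) * BB N' q t *
        amp (prj ι N' (fun a => N' ≤ a + D)) + amp (1 - prj ι N' (fun a => N' ≤ a + D)))),
      ∑ a ∈ Finset.range N', (Lh ^ (k * a)) (KG.mk hρ hu) =
        KG.mk (isRep_tRep hρ k N') hF + KG.mk (isRep_tRep hρ k N') hR := by
    intro N' hN'
    obtain ⟨hB, hB1, hB2⟩ := mk_BN (n := n) (d := d) (k := k) N' hρ hu.inv l hl h4
    have hcut := cut_BN (n := n) (D := D) hN' (isRep_tRep hρ k N')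
      (fun s _ => tscore_prj_comm N' s) hB (by
        intro q t a b hab i j x y
        exact BN_band d N' D _ _ (hsupp q t) (hlen q t) a b hab i j x y) (by
        intro q t
        have h1 := BN_mid d N' D ((u q t)⁻¹) (l.map (fun (C : ℤ → Q → UI → MM ι) m => C m q t))
          (hsupp q t) (hlen q t) (M := M) (by
            intro z
            rw [List.map_map]
            exact hM' q t z)
        have h2 := hB2 q t
        have h3 : ((u q t)⁻¹)⁻¹ = u q t :=
          Matrix.nonsing_inv_nonsing_inv _ ((Matrix.isUnit_iff_isUnit_det _).1 (hu.unit q t))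
        rw [h3] at h2
        refine lt_of_le_of_lt (mul_le_mul h2 h1 (norm_nonneg _) ?_) (hM q t)
        positivity)
    obtain ⟨hF, hR, hFR⟩ := hcut
    have hBB' : BB N' = fun q t => BN N' ((u q t)⁻¹) (l.map (fun C m => C m q t)) := by rw [hBB]
    rw [hBB']
    refine ⟨hF, hR, ?_⟩
    rw [← hFR, hB1, KG.mk_inv hρ hu]
    refine Finset.sum_congr rfl fun a _ => ?_
    rw [map_neg]
    exact eq_neg_of_add_eq_zero_left (KG.add_self _)
  obtain ⟨hF, hR, h1⟩ := hcl N (by omega)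
  obtain ⟨hF', hR', h2⟩ := hcl (N + 1) (by omega)
  -- top
  have htop : KG.mk (isRep_tRep hρ k (N + 1)) hF' = KG.mk (isRep_tRep hρ k N) hF := by
    have hρ1 : IsRep n ((1 : ℂ) • tRep n k N ρ) := by
      rw [one_smul]
      exact isRep_tRep hρ k N
    have hF1 : IsEl ((1 : ℂ) • tRep n k N ρ) τ Z (fun q t =>
        amp (prj ι N (fun a => a < D)) * BB N q t *
        amp (prj ι N (fun a => a < D)) + amp (1 - prj ι N (fun a => a < D))) := by
      rw [one_smul]
      exact hF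
    have h := tscore_compare (B := BB N) (B' := BB (N + 1)) Fin.castSucc
      (Fin.castSucc_injective N) (fun a => a < D) (fun a => a < D)
      (fun a => by simp) (fun b hb => ⟨⟨b, by omega⟩, by ext; rfl⟩) 1
      (fun a => by simp) hρ1 (isRep_tRep hρ k (N + 1)) (by
        intro q t a b ha hb i j x y
        rw [hBB]
        exact BN_top d N D _ _ (hsupp q t) (hlen q t) a b (by omega) i j x y) hF1 hF'
    rw [h]
    exact KG.mk_congr _ _ _ _ (one_smul _ _) (fun _ _ => rfl)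
  have hbot : KG.mk (isRep_tRep hρ k (N + 1)) hR' =
      (Lh ^ k) (KG.mk (isRep_tRep hρ k N) hR) := by
    rw [Lh_pow_mk]
    exact tscore_compare (B := BB N) (B' := BB (N + 1)) Fin.succ
      (Fin.succ_injective N) (fun a => N ≤ a + D) (fun a => N + 1 ≤ a + D)
      (fun a => by simp only [Fin.val_succ]; omega)
      (fun b hb => ⟨b.pred (by
        intro h0
        rw [h0] at hb
        simp only [Fin.val_zero] at hb
        omega), Fin.succ_pred _ _⟩) (zt n ^ k)
      (fun a => by rw [Fin.val_succ, ← pow_add]; congr 1; ring)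
      ((isRep_tRep hρ k N).smul k) (isRep_tRep hρ k (N + 1)) (by
        intro q t a b ha hb i j x y
        rw [hBB]
        exact BN_bot d N D _ _ (hsupp q t) (hlen q t) a b (by omega) i j x y)
      (hR.smulRep _) hR'
  obtain ⟨X, hX⟩ : ∃ X, X = KG.mk hρ hu := ⟨_, rfl⟩
  obtain ⟨F, hFF⟩ : ∃ F, F = KG.mk (isRep_tRep hρ k N) hF := ⟨_, rfl⟩
  obtain ⟨R, hRR⟩ : ∃ R, R = KG.mk (isRep_tRep hρ k N) hR := ⟨_, rfl⟩
  rw [htop, hbot] at h2
  rw [← hX, ← hFF, ← hRR] at h1 h2
  rw [← hX]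
  rw [Finset.sum_range_succ, h1] at h2
  -- `L^{kN} X = R + L^k R`
  have h3 : (Lh ^ (k * N)) X = R + (Lh ^ k) R := by
    have h4 : F + R + (Lh ^ (k * N)) X + R = F + (Lh ^ k) R + R := by rw [h2]
    have h5 := KG.add_self R
    have h6 : F + ((Lh ^ (k * N)) X + (R + R)) = F + (R + (Lh ^ k) R) := by
      calc F + ((Lh ^ (k * N)) X + (R + R)) = F + R + (Lh ^ (k * N)) X + R := by abel
        _ = F + (Lh ^ k) R + R := h4
        _ = _ := by abel
    rw [h5, add_zero] at h6
    exact add_left_cancel h6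
  refine ⟨(Lh ^ (k * N * (n - 1))) R, ?_⟩
  have h7 : (Lh ^ (k * N * (n - 1))) ((Lh ^ (k * N)) X) = X := by
    rw [← tscore_mul_apply, ← pow_add]
    have h8 : k * N * (n - 1) + k * N = n * (k * N) := by
      obtain ⟨m, rfl⟩ : ∃ m, n = m + 1 := ⟨n - 1, by omega⟩
      rw [Nat.add_sub_cancel]
      ring
    rw [h8, pow_mul, Lh_pow_n, one_pow]
    rfl
  rw [← h7, h3, map_add, ← tscore_mul_apply, ← tscore_mul_apply, ← pow_add,
    ← pow_add, Nat.add_comm]

end

end Pool.Agent.CRC
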