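import Pool.Agent.Lib.MP_13800a_gt.Mat
import Pool.Agent.Lib.MP_13800a_gt.TP

/-! TASK ToepNorm: the norm of a Toeplitz matrix is at most the sup of its symbol. -/

set_option autoImplicit false

open scoped Matrix Kronecker Matrix.Norms.L2Operator
open Matrix

namespace Pool.Agent.CRC

section
variable {ι : Type} [Fintype ι] [DecidableEq ι]

/-- block diagonal matrix -/
def toepnorm_bd {κ : Type} [DecidableEq κ] (B : κ → MM ι) : MM (ι × κ) :=
  Matrix.of fun p r => if p.1.2 = r.1.2 then B p.1.2 (p.1.1, p.2) (r.1.1, r.2) else 0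

theorem toepnorm_bd_norm {κ : Type} [Fintype κ] [DecidableEq κ] (B : κ → MM ι) {M : ℝ}
    (hM : 0 ≤ M) (hB : ∀ a, ‖B a‖ ≤ M) : ‖toepnorm_bd B‖ ≤ M := by
  rw [Matrix.l2_opNorm_def]
  refine ContinuousLinearMap.opNorm_le_bound _ hM fun v => ?_
  have hsq : ‖(Matrix.toEuclideanLin (toepnorm_bd B)) v‖ ^ 2 ≤ (M * ‖v‖) ^ 2 := by
    have h1 : ∀ a : κ, ∑ p : ι × Fin 2,
        ‖((Matrix.toEuclideanLin (toepnorm_bd B)) v) ((p.1, a), p.2)‖ ^ 2 ≤
        M ^ 2 * ∑ p : ι × Fin 2, ‖v ((p.1, a), p.2)‖ ^ 2 := by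
      intro a
      set va : EuclideanSpace ℂ (ι × Fin 2) := WithLp.toLp 2 (fun p => v ((p.1, a), p.2)) with hva
      have h2 : ∀ p : ι × Fin 2, ((Matrix.toEuclideanLin (toepnorm_bd B)) v) ((p.1, a), p.2) =
          ((Matrix.toEuclideanLin (B a)) va) p := by
        intro p
        simp only [Matrix.toLpLin_apply, Matrix.mulVec, dotProduct, toepnorm_bd,
          Matrix.of_apply, hva]
        rw [Fintype.sum_prod_type, Fintype.sum_prod_type, Fintype.sum_prod_type]
        refine Finset.sum_congr rfl fun j _ => ?_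
        rw [Finset.sum_comm]
        refine Finset.sum_congr rfl fun y _ => ?_
        rw [Finset.sum_eq_single a]
        · simp
        · intro b _ hb
          rw [if_neg (fun h => hb h.symm), zero_mul]
        · intro h
          exact absurd (Finset.mem_univ a) h
      simp_rw [h2]
      have h3 : ‖(Matrix.toEuclideanLin (B a)) va‖ ≤ M * ‖va‖ := by
        refine le_trans (Matrix.l2_opNorm_mulVec (B a) va) ?_
        exact mul_le_mul_of_nonneg_right (hB a) (norm_nonneg _)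
      have h4 : ‖(Matrix.toEuclideanLin (B a)) va‖ ^ 2 ≤ (M * ‖va‖) ^ 2 :=
        pow_le_pow_left₀ (norm_nonneg _) h3 2
      rw [mul_pow, EuclideanSpace.norm_sq_eq, EuclideanSpace.norm_sq_eq] at h4
      exact h4
    rw [mul_pow, EuclideanSpace.norm_sq_eq, EuclideanSpace.norm_sq_eq]
    have h5 : ∀ f : (ι × κ) × Fin 2 → ℝ, ∑ q, f q = ∑ a : κ, ∑ p : ι × Fin 2, f ((p.1, a), p.2) := by
      intro f
      rw [Fintype.sum_prod_type, Fintype.sum_prod_type_right]
      refine Finset.sum_congr rfl fun a _ => ?_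
      rw [Fintype.sum_prod_type]
    rw [h5, h5, Finset.mul_sum]
    exact Finset.sum_le_sum fun a _ => h1 a
  exact (sq_le_sq₀ (norm_nonneg _) (by positivity)).mp hsq

theorem toepnorm_sum_single {κ : Type} [Fintype κ] (i0 : ι) (y0 : Fin 2)
    (F : (ι × κ) × Fin 2 → ℂ) (hF : ∀ i s y, (i ≠ i0 ∨ y ≠ y0) → F ((i, s), y) = 0) :
    ∑ x, F x = ∑ s, F ((i0, s), y0) := by
  rw [Fintype.sum_prod_type, Fintype.sum_prod_type, Finset.sum_eq_single i0]
  · refine Finset.sum_congr rfl fun s _ => ?_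
    rw [Finset.sum_eq_single y0]
    · intro y _ hy
      exact hF _ _ _ (Or.inr hy)
    · intro h
      exact absurd (Finset.mem_univ _) h
  · intro i _ hi
    refine Finset.sum_eq_zero fun s _ => Finset.sum_eq_zero fun y _ => hF _ _ _ (Or.inl hi)
  · intro h
    exact absurd (Finset.mem_univ _) h

/-- orthogonality of the characters of the group of roots of unity -/
theorem toepnorm_orth {n : ℕ} (hn : 0 < n) (e : ℤ) :
    ∑ s : Fin n, (zt n ^ (s : ℕ)) ^ e = if (n : ℤ) ∣ e then (n : ℂ) else 0 := by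
  have hprim : IsPrimitiveRoot (zt n) n := zt_isPrimitiveRoot hn.ne'
  have h1 : ∀ s : ℕ, (zt n ^ s) ^ e = (zt n ^ e) ^ s := by
    intro s
    rw [← zpow_natCast, ← _root_.zpow_mul, ← zpow_natCast, ← _root_.zpow_mul, mul_comm]
  simp_rw [h1]
  rw [Fin.sum_univ_eq_sum_range (fun s => (zt n ^ e) ^ s) n]
  split_ifs with hd
  · rw [(hprim.zpow_eq_one_iff_dvd e).mpr hd]
    simp
  · have h2 : zt n ^ e ≠ 1 := fun hcon => hd ((hprim.zpow_eq_one_iff_dvd e).mp hcon)
    rw [geom_sum_eq h2]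
    have h3 : (zt n ^ e) ^ n = 1 := by
      rw [← zpow_natCast, ← _root_.zpow_mul, mul_comm, _root_.zpow_mul, zpow_natCast, zt_pow_self, _root_.one_zpow]
    rw [h3, sub_self, zero_div]

/-- the (unnormalised) isometry -/
noncomputable def toepnorm_V (ι : Type) [DecidableEq ι] (N n : ℕ) :
    Matrix ((ι × Fin N) × Fin 2) ((ι × Fin n) × Fin 2) ℂ :=
  Matrix.of fun p r => if p.1.1 = r.1.1 ∧ p.2 = r.2 then
    (zt n ^ (r.1.2 : ℕ)) ^ ((p.1.2 : ℕ) : ℤ) else 0

theorem toepnorm_star (n s : ℕ) (a : ℤ) :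
    star ((zt n ^ s) ^ a) = (zt n ^ s) ^ (-a) := by
  have h1 : ‖(zt n ^ s) ^ a‖ = 1 := by
    rw [norm_zpow, norm_pow, norm_zt, one_pow, _root_.one_zpow]
  rw [_root_.zpow_neg, Complex.inv_eq_conj h1]
  rfl

theorem toepnorm_V_mul (N n : ℕ) (hn : 0 < n) (hNn : N ≤ n) :
    toepnorm_V ι N n * (toepnorm_V ι N n)ᴴ = (n : ℂ) • 1 := by
  ext ⟨⟨i, a⟩, x⟩ ⟨⟨j, b⟩, y⟩
  rw [Matrix.mul_apply]
  simp only [Matrix.conjTranspose_apply, Matrix.smul_apply, smul_eq_mul]
  rw [toepnorm_sum_single i x]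
  · simp only [toepnorm_V, Matrix.of_apply, true_and, and_self, if_true]
    by_cases hij : j = i ∧ y = x
    · obtain ⟨rfl, rfl⟩ := hij
      simp only [and_self, if_true]
      have h1 : ∀ s : Fin n, (zt n ^ (s : ℕ)) ^ ((a : ℕ) : ℤ) *
          star ((zt n ^ (s : ℕ)) ^ ((b : ℕ) : ℤ)) =
          (zt n ^ (s : ℕ)) ^ (((a : ℕ) : ℤ) - ((b : ℕ) : ℤ)) := by
        intro s
        rw [toepnorm_star, ← zpow_add₀ (pow_ne_zero _ (zt_ne_zero n)), sub_eq_add_neg]
      simp_rw [h1]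
      rw [toepnorm_orth hn, Matrix.one_apply]
      by_cases hab : a = b
      · subst hab
        simp
      · rw [if_neg, if_neg, mul_zero]
        · intro hcon
          simp only [Prod.mk.injEq] at hcon
          exact hab hcon.1.2
        · intro hdv
          apply hab
          have ha := a.2
          have hb := b.2
          obtain ⟨q, hq⟩ := hdv
          have h2 : |((a : ℕ) : ℤ) - ((b : ℕ) : ℤ)| < n := by
            rw [abs_lt]
            constructor <;> omega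
          have h3 := Int.eq_zero_of_abs_lt_dvd ⟨q, hq⟩ h2
          apply Fin.ext
          omega
    · have h1 : ∀ s : Fin n, (if j = i ∧ y = x then (zt n ^ (s : ℕ)) ^ ((b : ℕ) : ℤ) else 0) = 0 :=
        fun s => if_neg hij
      simp only [h1, star_zero, mul_zero, Finset.sum_const_zero]
      rw [Matrix.one_apply, if_neg, mul_zero]
      intro hcon
      simp only [Prod.mk.injEq] at hcon
      exact hij ⟨hcon.1.1.symm, hcon.2.symm⟩
  · intro i' s y' hne
    simp only [toepnorm_V, Matrix.of_apply]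
    rw [if_neg, zero_mul]
    rintro ⟨h1, h2⟩
    rcases hne with h | h
    · exact h h1.symm
    · exact h h2.symm

theorem toepnorm_mul (d N n : ℕ) (hn : N + d < n) (C : ℤ → MM ι)
    (hC : ∀ m : ℤ, (d : ℤ) < |m| → C m = 0) :
    toepnorm_V ι N n * toepnorm_bd (fun s : Fin n => evTP d C (zt n ^ (s : ℕ))) *
      (toepnorm_V ι N n)ᴴ = (n : ℂ) • toep N C := by
  have hVB : ∀ (p : (ι × Fin N) × Fin 2) (r : (ι × Fin n) × Fin 2),
      (toepnorm_V ι N n * toepnorm_bd (fun s : Fin n => evTP d C (zt n ^ (s : ℕ)))) p r =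
      (zt n ^ (r.1.2 : ℕ)) ^ ((p.1.2 : ℕ) : ℤ) *
        evTP d C (zt n ^ (r.1.2 : ℕ)) (p.1.1, p.2) (r.1.1, r.2) := by
    intro p r
    rw [Matrix.mul_apply, toepnorm_sum_single p.1.1 p.2]
    · rw [Finset.sum_eq_single r.1.2]
      · simp [toepnorm_V, toepnorm_bd]
      · intro s _ hs
        simp [toepnorm_bd, hs]
      · intro h
        exact absurd (Finset.mem_univ _) h
    · intro i s y hne
      simp only [toepnorm_V, Matrix.of_apply]
      rw [if_neg, zero_mul]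
      rintro ⟨h1, h2⟩
      rcases hne with h | h
      · exact h h1.symm
      · exact h h2.symm
  ext ⟨⟨i, a⟩, x⟩ ⟨⟨j, b⟩, y⟩
  rw [Matrix.mul_apply]
  simp only [Matrix.conjTranspose_apply, Matrix.smul_apply, smul_eq_mul, hVB]
  rw [toepnorm_sum_single j y]
  · simp only [toepnorm_V, Matrix.of_apply, and_self, if_true, toep]
    have h1 : ∀ s : Fin n, (zt n ^ (s : ℕ)) ^ ((a : ℕ) : ℤ) *
        evTP d C (zt n ^ (s : ℕ)) (i, x) (j, y) * star ((zt n ^ (s : ℕ)) ^ ((b : ℕ) : ℤ)) =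
        ∑ m ∈ Finset.Icc (-(d : ℤ)) d, C m (i, x) (j, y) *
          (zt n ^ (s : ℕ)) ^ (((a : ℕ) : ℤ) - ((b : ℕ) : ℤ) + m) := by
      intro s
      rw [toepnorm_star, evTP, Matrix.sum_apply, Finset.mul_sum, Finset.sum_mul]
      refine Finset.sum_congr rfl fun m _ => ?_
      rw [Matrix.smul_apply, smul_eq_mul, zpow_add₀ (pow_ne_zero _ (zt_ne_zero n)), sub_eq_add_neg,
        zpow_add₀ (pow_ne_zero _ (zt_ne_zero n))]
      ring
    simp_rw [h1]
    rw [Finset.sum_comm]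
    simp_rw [← Finset.mul_sum, toepnorm_orth (show 0 < n by omega)]
    have ha := a.2
    have hb := b.2
    by_cases hmem : (((b : ℕ) : ℤ) - ((a : ℕ) : ℤ)) ∈ Finset.Icc (-(d : ℤ)) d
    · rw [Finset.sum_eq_single (((b : ℕ) : ℤ) - ((a : ℕ) : ℤ))]
      · rw [if_pos (by simp), mul_comm]
      · intro m hm hne
        rw [if_neg, mul_zero]
        intro hdv
        apply hne
        rw [Finset.mem_Icc] at hm
        have h2 : |((a : ℕ) : ℤ) - ((b : ℕ) : ℤ) + m| < n := by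
          rw [abs_lt]
          constructor <;> omega
        have h3 := Int.eq_zero_of_abs_lt_dvd hdv h2
        omega
      · intro h
        exact absurd hmem h
    · rw [hC (((b : ℕ) : ℤ) - ((a : ℕ) : ℤ)), Matrix.zero_apply, mul_zero]
      · refine Finset.sum_eq_zero fun m hm => ?_
        rw [if_neg, mul_zero]
        intro hdv
        rw [Finset.mem_Icc] at hm
        have h2 : |((a : ℕ) : ℤ) - ((b : ℕ) : ℤ) + m| < n := by
          rw [abs_lt]
          constructor <;> omega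
        have h3 := Int.eq_zero_of_abs_lt_dvd hdv h2
        apply hmem
        rw [Finset.mem_Icc]
        constructor <;> omega
      · rw [Finset.mem_Icc, ← abs_le] at hmem
        exact not_le.mp hmem
  · intro i' s y' hne
    simp only [toepnorm_V, Matrix.of_apply]
    rw [if_neg, star_zero, mul_zero]
    rintro ⟨h1, h2⟩
    rcases hne with h | h
    · exact h h1.symm
    · exact h h2.symm

/-- Average over the roots of unity of order `N0 > N + d`:
`⟨T v, w⟩ = (1/N0) ∑_ω ⟨C(ω) v(ω), w(ω)⟩`. -/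
theorem toep_norm (d N : ℕ) (C : ℤ → MM ι) (hC : ∀ m : ℤ, (d : ℤ) < |m| → C m = 0) {M : ℝ}
    (h : ∀ z : Circle, ‖evTP d C z‖ ≤ M) : ‖toep N C‖ ≤ M := by
  have hM : 0 ≤ M := (norm_nonneg _).trans (h 1)
  obtain ⟨n, hn⟩ : ∃ n, n = N + d + 1 := ⟨_, rfl⟩
  have hnpos : 0 < n := by omega
  have hnR : (0 : ℝ) < n := by exact_mod_cast hnpos
  have h1 := toepnorm_mul d N n (by omega) C hC
  have h2 := toepnorm_V_mul (ι := ι) N n hnpos (by omega)
  have hone : ‖(1 : MM (ι × Fin N))‖ ≤ 1 := by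
    rw [← Matrix.diagonal_one, Matrix.l2_opNorm_diagonal]
    refine (pi_norm_le_iff_of_nonneg zero_le_one).mpr fun p => ?_
    simp
  have h3 : ‖toepnorm_V ι N n‖ * ‖toepnorm_V ι N n‖ ≤ n := by
    have h4 := Matrix.l2_opNorm_conjTranspose_mul_self (toepnorm_V ι N n)ᴴ
    rw [Matrix.conjTranspose_conjTranspose, h2, Matrix.l2_opNorm_conjTranspose] at h4
    rw [← h4, norm_smul, Complex.norm_natCast]
    calc (n : ℝ) * ‖(1 : MM (ι × Fin N))‖ ≤ n * 1 := mul_le_mul_of_nonneg_left hone hnR.le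
      _ = n := mul_one _
  have h5 : ‖toepnorm_bd (fun s : Fin n => evTP d C (zt n ^ (s : ℕ)))‖ ≤ M := by
    apply toepnorm_bd_norm _ hM
    intro s
    have h6 := h (ztC n ^ (s : ℕ))
    rwa [Circle.coe_pow, coe_ztC] at h6
  have h7 : (n : ℝ) * ‖toep N C‖ ≤ n * M := by
    calc (n : ℝ) * ‖toep N C‖ = ‖(n : ℂ) • toep N C‖ := by
          rw [norm_smul, Complex.norm_natCast]
      _ = ‖toepnorm_V ι N n * toepnorm_bd (fun s : Fin n => evTP d C (zt n ^ (s : ℕ))) *
          (toepnorm_V ι N n)ᴴ‖ := by rw [h1]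
      _ ≤ ‖toepnorm_V ι N n * toepnorm_bd (fun s : Fin n => evTP d C (zt n ^ (s : ℕ)))‖ *
          ‖(toepnorm_V ι N n)ᴴ‖ := Matrix.l2_opNorm_mul _ _
      _ ≤ (‖toepnorm_V ι N n‖ * ‖toepnorm_bd (fun s : Fin n => evTP d C (zt n ^ (s : ℕ)))‖) *
          ‖(toepnorm_V ι N n)ᴴ‖ :=
        mul_le_mul_of_nonneg_right (Matrix.l2_opNorm_mul _ _) (norm_nonneg _)
      _ = (‖toepnorm_V ι N n‖ * ‖toepnorm_V ι N n‖) *
          ‖toepnorm_bd (fun s : Fin n => evTP d C (zt n ^ (s : ℕ)))‖ := by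
        rw [Matrix.l2_opNorm_conjTranspose]
        ring
      _ ≤ n * M := mul_le_mul h3 h5 (norm_nonneg _) hnR.le
  exact le_of_mul_le_mul_left h7 hnR

theorem norm_amp_prj_mul_le (N : ℕ) (s : ℕ → Prop) [DecidablePred s] (A : MM (ι × Fin N)) :
    ‖amp (prj ι N s) * A‖ ≤ ‖A‖ := by
  have h1 : amp (prj ι N s) =
      Matrix.diagonal (fun p : (ι × Fin N) × Fin 2 => if s (p.1.2 : ℕ) then (1 : ℂ) else 0) := by
    rw [amp, prj, ← Matrix.diagonal_one, Matrix.diagonal_kronecker_diagonal]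
    congr 1
    funext p
    simp
  have h2 : ‖amp (prj ι N s)‖ ≤ 1 := by
    rw [h1, Matrix.l2_opNorm_diagonal]
    refine (pi_norm_le_iff_of_nonneg zero_le_one).mpr fun p => ?_
    split_ifs <;> simp
  calc ‖amp (prj ι N s) * A‖ ≤ ‖amp (prj ι N s)‖ * ‖A‖ := Matrix.l2_opNorm_mul _ _
    _ ≤ 1 * ‖A‖ := mul_le_mul_of_nonneg_right h2 (norm_nonneg _)
    _ = ‖A‖ := one_mul _

theorem norm_cdiag_le (N : ℕ) (v : MM ι) : ‖cdiag N v‖ ≤ ‖v‖ :=
  toepnorm_bd_norm (κ := Fin N) (fun _ => v) (norm_nonneg v) (fun _ => le_rfl)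

end

end Pool.Agent.CRC
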