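import Pool.Agent.Lib.MP_13800a_gt.Homs

/-! TASK Tr: the transfer homomorphism for a finite set `S` with a permutation. -/

set_option autoImplicit false

open scoped Matrix Kronecker
open Matrix

namespace Pool.Agent.CRC

section
variable {n : ℕ} {Q Q1 S ι : Type} [TopologicalSpace Q] [TopologicalSpace Q1]
  [Fintype S] [DecidableEq S] [TopologicalSpace S] [DiscreteTopology S]
  [Fintype ι] [DecidableEq ι]
  {τ : Q → Q} {τ1 : Q1 → Q1} {Z : Set Q} {Z1 : Set Q1} {π : S → S}

/-- permutation matrix `e_b ↦ e_{π b}` -/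
def permMat (π : S → S) : Matrix S S ℂ := Matrix.of fun a b => if a = π b then 1 else 0

/-- `ρ ⊗ P_π` -/
noncomputable def trRep (π : S → S) (ρ : Matrix ι ι ℂ) : Matrix (ι × S) (ι × S) ℂ :=
  ρ ⊗ₖ permMat π

/-- block diagonal matrix over `S` -/
def trEl (u : Q × S → UI → MM ι) : Q → UI → MM (ι × S) := fun q t =>
  Matrix.of fun p r => if p.1.2 = r.1.2 then u (q, p.1.2) t (p.1.1, p.2) (r.1.1, r.2) else 0

private theorem tr_permMat_mul (f g : S → S) : permMat f * permMat g = permMat (f ∘ g) := by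
  ext a b
  simp [permMat, Matrix.mul_apply]

private theorem tr_permMat_id : permMat (id : S → S) = 1 := by
  ext a b
  simp [permMat, Matrix.one_apply]

private theorem tr_permMat_pow (f : S → S) (m : ℕ) : permMat f ^ m = permMat (f^[m]) := by
  induction m with
  | zero => simp [tr_permMat_id]
  | succ m ih => rw [pow_succ, ih, tr_permMat_mul, Function.iterate_succ]

private theorem tr_bij {S' : Type} {π' : S' → S'} (hπ : π'^[n] = id) (hn : 0 < n) :
    Function.Bijective π' := by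
  obtain ⟨m, rfl⟩ := Nat.exists_eq_succ_of_ne_zero hn.ne'
  constructor
  · have h : Function.LeftInverse (π'^[m]) π' := by
      intro x
      have := congrFun hπ x
      rwa [Function.iterate_succ_apply] at this
    exact h.injective
  · intro x
    refine ⟨π'^[m] x, ?_⟩
    have := congrFun hπ x
    rwa [Function.iterate_succ_apply'] at this

theorem isRep_trRep {ρ : Matrix ι ι ℂ} (hρ : IsRep n ρ) (hπ : π^[n] = id) (hn : 0 < n) :
    IsRep n (trRep π ρ) := by
  have hinj := (tr_bij hπ hn).injective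
  constructor
  · rw [Matrix.mem_unitaryGroup_iff']
    have h1 : star ρ * ρ = 1 := (Matrix.mem_unitaryGroup_iff'.1 hρ.1)
    have h2 : (permMat π)ᴴ * permMat π = 1 := by
      ext a b
      simp only [permMat, Matrix.mul_apply, Matrix.conjTranspose_apply, Matrix.of_apply,
        Matrix.one_apply]
      by_cases h : a = b
      · subst h; simp
      · rw [if_neg h]
        apply Finset.sum_eq_zero
        intro c _
        by_cases hc : c = π a
        · have : c ≠ π b := fun h' => h (hinj (hc.symm.trans h'))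
          simp [this]
        · simp [hc]
    rw [trRep, Matrix.star_eq_conjTranspose, Matrix.conjTranspose_kronecker,
      ← Matrix.mul_kronecker_mul, h2, ← Matrix.star_eq_conjTranspose, h1,
      Matrix.one_kronecker_one]
  · have : ∀ m : ℕ, (ρ ⊗ₖ permMat π) ^ m = (ρ ^ m) ⊗ₖ (permMat π ^ m) := by
      intro m
      induction m with
      | zero => simp
      | succ m ih => rw [pow_succ, ih, ← Matrix.mul_kronecker_mul, ← pow_succ, ← pow_succ]
    rw [trRep, this, hρ.2, tr_permMat_pow, hπ, tr_permMat_id, Matrix.one_kronecker_one]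

/-- the reindexing `(ι × S) × Fin 2 ≃ (ι × Fin 2) × S` -/
private def tr_eqv (ι S : Type) : (ι × S) × Fin 2 ≃ (ι × Fin 2) × S where
  toFun p := ((p.1.1, p.2), p.1.2)
  invFun p := ((p.1.1, p.2), p.1.2)
  left_inv _ := rfl
  right_inv _ := rfl

private theorem tr_trEl_eq (u : Q × S → UI → MM ι) (q : Q) (t : UI) :
    trEl u q t = (Matrix.blockDiagonal fun s => u (q, s) t).submatrix (tr_eqv ι S)
      (tr_eqv ι S) := by
  ext p r
  rfl

private theorem tr_amp_kron (ρ : Matrix ι ι ℂ) (P : Matrix S S ℂ) :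
    amp (ρ ⊗ₖ P) = ((amp ρ) ⊗ₖ P).submatrix (tr_eqv ι S) (tr_eqv ι S) := by
  ext p r
  simp only [amp, Matrix.submatrix_apply, Matrix.kroneckerMap_apply, tr_eqv, Equiv.coe_fn_mk]
  ring

theorem isEl_trEl {ρ : Matrix ι ι ℂ} {u : Q × S → UI → MM ι} (hπ : Function.Bijective π)
    (hu : IsEl ρ (Prod.map τ π) (Z ×ˢ (Set.univ : Set S)) u) :
    IsEl (trRep π ρ) τ Z (trEl u) := by
  refine ⟨?_, ?_, ?_, ?_, ?_, ?_⟩
  · simp only [tr_trEl_eq]
    apply Continuous.matrix_submatrix
    apply Continuous.matrix_blockDiagonal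
    refine continuous_pi fun s => ?_
    exact hu.cont.comp (by fun_prop : Continuous fun p : Q × UI => ((p.1, s), p.2))
  · intro q t
    rw [tr_trEl_eq, Matrix.isUnit_submatrix_equiv]
    have h1 : IsUnit (fun s => u (q, s) t) := Pi.isUnit_iff.2 fun s => hu.unit (q, s) t
    exact h1.map (Matrix.blockDiagonalRingHom (ι × Fin 2) S ℂ)
  · intro q
    choose a ha using fun s => hu.zero (q, s)
    refine ⟨Matrix.blockDiagonal a, ?_⟩
    rw [tr_trEl_eq]
    ext p r
    simp only [ha, Matrix.submatrix_apply, tr_eqv, Equiv.coe_fn_mk, Matrix.blockDiagonal_apply,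
      amp, Matrix.kroneckerMap_apply]
    split_ifs <;> simp
  · intro q
    rw [tr_trEl_eq]
    have : (fun s => u (q, s) 1) = 1 := funext fun s => hu.one (q, s)
    rw [this, Matrix.blockDiagonal_one, Matrix.submatrix_one_equiv]
  · intro q hq t
    rw [tr_trEl_eq]
    have : (fun s => u (q, s) t) = 1 := funext fun s => hu.rel (q, s) ⟨hq, Set.mem_univ _⟩ t
    rw [this, Matrix.blockDiagonal_one, Matrix.submatrix_one_equiv]
  · intro q t
    rw [tr_trEl_eq, tr_trEl_eq, trRep, tr_amp_kron, Matrix.submatrix_mul_equiv,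
      Matrix.submatrix_mul_equiv]
    congr 1
    ext ⟨x, s⟩ ⟨y, s'⟩
    simp only [Matrix.mul_apply, Fintype.sum_prod_type, Matrix.blockDiagonal_apply,
      Matrix.kroneckerMap_apply, permMat, Matrix.of_apply]
    have hE := congrFun (congrFun (hu.eqv (q, s') t) x) y
    simp only [Prod.map_apply, Matrix.mul_apply] at hE
    by_cases hs : s = π s'
    · subst hs
      simpa [Fintype.sum_prod_type] using hE
    · have h1 : ∀ s'' : S, (if s = s'' then (1:ℂ) else 0) * (if s'' = π s' then 1 else 0) = 0 := by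
        intro s''
        by_cases h : s = s''
        · subst h; simp [hs]
        · simp [h]
      rw [Finset.sum_eq_zero, Finset.sum_eq_zero]
      · intro z _
        apply Finset.sum_eq_zero
        intro z' _
        apply Finset.sum_eq_zero
        intro s'' _
        by_cases h : s'' = s'
        · subst h; simp [hs]
        · simp [h]
      · intro z _
        apply Finset.sum_eq_zero
        intro z' _
        apply Finset.sum_eq_zero
        intro s'' _
        by_cases h : s = s''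
        · subst h; simp [hs]
        · simp [h]

theorem bijective_of_iterate (hπ : π^[n] = id) (hn : 0 < n) : Function.Bijective π :=
  tr_bij hπ hn

noncomputable def KObj.tr (hπ : π^[n] = id) (hn : 0 < n)
    (x : KObj n (Prod.map τ π) (Z ×ˢ (Set.univ : Set S))) : KObj n τ Z :=
  { ι := x.ι × S
    ρ := trRep π x.ρ
    u := trEl x.u
    hρ := isRep_trRep x.hρ hπ hn
    hu := isEl_trEl (bijective_of_iterate hπ hn) x.hu }

private theorem tr_trRep_dg {κ : Type} [Fintype κ] [DecidableEq κ] (a : Matrix ι ι ℂ)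
    (b : Matrix κ κ ℂ) :
    (trRep π (dg a b)).submatrix (Equiv.sumProdDistrib ι κ S).symm
      (Equiv.sumProdDistrib ι κ S).symm = dg (trRep π a) (trRep π b) := by
  ext p r
  rcases p with ⟨i, s⟩ | ⟨i, s⟩ <;> rcases r with ⟨j, s'⟩ | ⟨j, s'⟩ <;>
    simp [trRep, dg, Matrix.kroneckerMap_apply]

private theorem tr_trEl_bs {κ : Type} [Fintype κ] [DecidableEq κ] (u : Q × S → UI → MM ι)
    (v : Q × S → UI → MM κ) (q : Q) (t : UI) :
    (trEl (fun q t => bs (u q t) (v q t)) q t).submatrix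
      (Prod.map (Equiv.sumProdDistrib ι κ S).symm id)
      (Prod.map (Equiv.sumProdDistrib ι κ S).symm id) = bs (trEl u q t) (trEl v q t) := by
  ext p r
  rcases p with ⟨⟨i, s⟩ | ⟨i, s⟩, k⟩ <;> rcases r with ⟨⟨j, s'⟩ | ⟨j, s'⟩, k'⟩ <;>
    simp [trEl, bs]

private theorem tr_trEl_one (q : Q) (t : UI) :
    trEl (fun _ _ => (1 : MM ι)) q t = (1 : MM (ι × S)) := by
  rw [tr_trEl_eq]
  have : (fun s : S => (1 : MM ι)) = 1 := rfl
  rw [this, Matrix.blockDiagonal_one, Matrix.submatrix_one_equiv]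

theorem KObj.tr_add (hπ : π^[n] = id) (hn : 0 < n)
    (x y : KObj n (Prod.map τ π) (Z ×ˢ (Set.univ : Set S))) :
    KG.mkO ((x.add y).tr hπ hn) = KG.mkO (x.tr hπ hn) + KG.mkO (y.tr hπ hn) := by
  have h1 := KG.mk_bs (x.tr hπ hn).hρ (x.tr hπ hn).hu (y.tr hπ hn).hρ (y.tr hπ hn).hu
  have h2 := KG.mk_reindex ((x.add y).tr hπ hn).hρ ((x.add y).tr hπ hn).hu
    (Equiv.sumProdDistrib x.ι y.ι S)
  refine (h2.symm.trans ?_).trans h1
  refine KG.mk_congr _ _ _ _ ?_ ?_
  · exact tr_trRep_dg _ _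
  · intro q t
    exact tr_trEl_bs x.u y.u q t

theorem KObj.tr_null (hπ : π^[n] = id) (hn : 0 < n)
    (x : KObj n (Prod.map τ π) (Z ×ˢ (Set.univ : Set S)))
    (hx : Null n x.ρ (Prod.map τ π) (Z ×ˢ (Set.univ : Set S)) x.u) :
    KG.mkO (x.tr hπ hn) = 0 := by
  refine (KG.mk_eq_zero_iff (x.tr hπ hn).hρ (x.tr hπ hn).hu).2 ?_
  obtain ⟨κ, hκ, hκd, σ, U, hσ, hU, hU0, hU1⟩ := hx
  have hb := bijective_of_iterate hπ hn
  -- the homotopy over `(Q × UI) × S`
  have h1 : IsEl (dg x.ρ σ) (Prod.map (Prod.map τ id) π)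
      ((Z ×ˢ (Set.univ : Set UI)) ×ˢ (Set.univ : Set S))
      (fun (p : (Q × UI) × S) t => U ((p.1.1, p.2), p.1.2) t) := by
    refine hU.comp (f := fun p : (Q × UI) × S => ((p.1.1, p.2), p.1.2)) (by fun_prop) ?_ ?_
    · intro p; rfl
    · rintro ⟨⟨q, s⟩, b⟩ ⟨⟨hq, _⟩, _⟩
      exact ⟨⟨hq, Set.mem_univ _⟩, Set.mem_univ _⟩
  have h2 := isEl_trEl hb h1
  have h3 : Ht (trRep π (dg x.ρ σ)) τ Z (trEl (fun q t => bs (x.u q t) (1 : MM κ)))
      (fun _ _ => 1) := by
    refine ⟨_, h2, ?_, ?_⟩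
    · intro q t
      ext p r
      simp only [trEl, Matrix.of_apply]
      split_ifs with h
      · rw [hU0]
      · rfl
    · intro q t
      rw [← tr_trEl_one (S := S) q t]
      ext p r
      simp only [trEl, Matrix.of_apply]
      split_ifs with h
      · rw [hU1]
      · rfl
  have h4 := h3.reindex (Equiv.sumProdDistrib x.ι κ S)
  rw [tr_trRep_dg] at h4
  obtain ⟨V, hV, hV0, hV1⟩ := h4
  refine ⟨κ × S, inferInstance, inferInstance, trRep π σ, V, isRep_trRep hσ hπ hn, hV, ?_, ?_⟩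
  · intro q t
    refine (hV0 q t).trans ((tr_trEl_bs x.u (fun _ _ => (1 : MM κ)) q t).trans ?_)
    rw [tr_trEl_one]
    rfl
  · intro q t
    refine (hV1 q t).trans ?_
    exact Matrix.submatrix_one_equiv ((Equiv.sumProdDistrib x.ι κ S).symm.prodCongr (Equiv.refl _))

/-- the transfer -/
noncomputable def tr (hπ : π^[n] = id) (hn : 0 < n) :
    KG n (Prod.map τ π) (Z ×ˢ (Set.univ : Set S)) →+ KG n τ Z :=
  KG.lift (fun x => KG.mkO (x.tr hπ hn)) (KObj.tr_add hπ hn) (KObj.tr_null hπ hn)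

theorem tr_mk (hπ : π^[n] = id) (hn : 0 < n) {ρ : Matrix ι ι ℂ} {u : Q × S → UI → MM ι}
    (hρ : IsRep n ρ) (hu : IsEl ρ (Prod.map τ π) (Z ×ˢ (Set.univ : Set S)) u) :
    tr hπ hn (KG.mk hρ hu) =
      KG.mk (isRep_trRep hρ hπ hn) (isEl_trEl (bijective_of_iterate hπ hn) hu) := rfl

theorem tr_Lh (hπ : π^[n] = id) (hn : 0 < n) (k : ℕ)
    (x : KG n (Prod.map τ π) (Z ×ˢ (Set.univ : Set S))) :
    tr hπ hn ((Lh ^ k) x) = (Lh ^ k) (tr hπ hn x) := by
  obtain ⟨ι, _, _, ρ, u, hρ, hu, rfl⟩ := KG.ind x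
  rw [Lh_pow_mk, tr_mk, tr_mk, Lh_pow_mk]
  refine KG.mk_congr _ _ _ _ ?_ (fun _ _ => rfl)
  rw [trRep, trRep, Matrix.smul_kronecker]

theorem tr_pull (hπ : π^[n] = id) (hn : 0 < n) {j : Q1 → Q} (h : PullData τ τ1 Z Z1 j)
    (h' : PullData (Prod.map τ π) (Prod.map τ1 π) (Z ×ˢ (Set.univ : Set S))
      (Z1 ×ˢ (Set.univ : Set S)) (Prod.map j id))
    (x : KG n (Prod.map τ π) (Z ×ˢ (Set.univ : Set S))) :
    pull h (tr hπ hn x) = tr hπ hn (pull h' x) := by
  obtain ⟨ι, _, _, ρ, u, hρ, hu, rfl⟩ := KG.ind x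
  rw [pull_mk, tr_mk, tr_mk, pull_mk]
  exact KG.mk_congr _ _ _ _ rfl (fun _ _ => rfl)

end

end Pool.Agent.CRC
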