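import Mathlib

set_option autoImplicit false

/-!
# A size function on subsets of a metric space
-/

namespace Pool.Agent.Lib.MP_13800a_gt

open Set

section Weight

variable {X : Type} [MetricSpace X]

/-- `r ∈ [0,1]` is a separation of some `n`-tuple in `K`. -/
def SepSet (n : ℕ) (K : Set X) : Set ℝ :=
  {r | 0 ≤ r ∧ r ≤ 1 ∧ ∃ t : Fin n → X, (∀ i, t i ∈ K) ∧ ∀ i j, i ≠ j → r ≤ dist (t i) (t j)}

/-- The supremum of the separations of `n`-tuples of `K`, truncated at `1`. -/
noncomputable def lam (n : ℕ) (K : Set X) : ℝ := sSup (SepSet n K)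

theorem sepSet_bddAbove (n : ℕ) (K : Set X) : BddAbove (SepSet n K) :=
  ⟨1, fun _ hr => hr.2.1⟩

theorem lam_nonneg (n : ℕ) (K : Set X) : 0 ≤ lam n K :=
  Real.sSup_nonneg fun _ hr => hr.1

theorem lam_le_one (n : ℕ) (K : Set X) : lam n K ≤ 1 :=
  Real.sSup_le (fun _ hr => hr.2.1) zero_le_one

theorem le_lam {n : ℕ} {K : Set X} {r : ℝ} (h : r ∈ SepSet n K) : r ≤ lam n K :=
  le_csSup (sepSet_bddAbove n K) h

theorem lam_mono {n : ℕ} {K K' : Set X} (h : K ⊆ K') : lam n K ≤ lam n K' := by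
  refine Real.sSup_le (fun r hr => ?_) (lam_nonneg _ _)
  obtain ⟨h0, h1, t, ht, hd⟩ := hr
  exact le_lam ⟨h0, h1, t, fun i => h (ht i), hd⟩

theorem lam_le_add {n : ℕ} {K K' : Set X} {ε : ℝ} (hε : 0 ≤ ε)
    (h : ∀ x ∈ K', ∃ z ∈ K, dist x z ≤ ε) : lam n K' ≤ lam n K + 2 * ε := by
  refine Real.sSup_le (fun r hr => ?_) (by linarith [lam_nonneg n K])
  obtain ⟨h0, h1, t, ht, hd⟩ := hr
  rcases le_total r (2 * ε) with hle | hle
  · linarith [lam_nonneg n K]
  choose! g hg hg' using h
  have : r - 2 * ε ≤ lam n K := by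
    refine le_lam ⟨by linarith, by linarith, fun i => g (t i), fun i => hg _ (ht i), ?_⟩
    intro i j hij
    have h1 := hd i j hij
    have h2 := hg' (t i) (ht i)
    have h3 := hg' (t j) (ht j)
    have h4 := dist_triangle4 (t i) (g (t i)) (g (t j)) (t j)
    rw [dist_comm (g (t j)) (t j)] at h4
    linarith
  linarith

/-- The size of a set. -/
noncomputable def wt (K : Set X) : ℝ := ∑' n : ℕ, (1 / 2 : ℝ) ^ n * lam n K

theorem summable_wt (K : Set X) : Summable fun n : ℕ => (1 / 2 : ℝ) ^ n * lam n K := by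
  refine Summable.of_nonneg_of_le (fun n => mul_nonneg (by positivity) (lam_nonneg _ _))
    (fun n => ?_) summable_geometric_two
  calc (1 / 2 : ℝ) ^ n * lam n K ≤ (1 / 2 : ℝ) ^ n * 1 :=
        mul_le_mul_of_nonneg_left (lam_le_one _ _) (by positivity)
    _ = (1 / 2 : ℝ) ^ n := mul_one _

theorem wt_nonneg (K : Set X) : 0 ≤ wt K :=
  tsum_nonneg fun _ => mul_nonneg (by positivity) (lam_nonneg _ _)

theorem wt_le_two (K : Set X) : wt K ≤ 2 := by
  rw [← tsum_geometric_two]
  refine (summable_wt K).tsum_le_tsum (fun n => ?_) summable_geometric_two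
  calc (1 / 2 : ℝ) ^ n * lam n K ≤ (1 / 2 : ℝ) ^ n * 1 :=
        mul_le_mul_of_nonneg_left (lam_le_one _ _) (by positivity)
    _ = (1 / 2 : ℝ) ^ n := mul_one _

theorem wt_mono {K K' : Set X} (h : K ⊆ K') : wt K ≤ wt K' :=
  (summable_wt K).tsum_le_tsum
    (fun n => mul_le_mul_of_nonneg_left (lam_mono h) (by positivity)) (summable_wt K')

theorem wt_le_add {K K' : Set X} {ε : ℝ} (hε : 0 ≤ ε)
    (h : ∀ x ∈ K', ∃ z ∈ K, dist x z ≤ ε) : wt K' ≤ wt K + 4 * ε := by
  have h1 : Summable fun n : ℕ => (1 / 2 : ℝ) ^ n * (2 * ε) :=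
    summable_geometric_two.mul_right _
  have h2 : wt K + 4 * ε = ∑' n : ℕ, ((1 / 2 : ℝ) ^ n * lam n K + (1 / 2 : ℝ) ^ n * (2 * ε)) := by
    rw [(summable_wt K).tsum_add h1, tsum_mul_right, tsum_geometric_two]
    unfold wt
    ring
  rw [h2]
  refine (summable_wt K').tsum_le_tsum (fun n => ?_) ((summable_wt K).add h1)
  rw [← mul_add]
  exact mul_le_mul_of_nonneg_left (lam_le_add hε h) (by positivity)

/-- Adding a point at distance at least `η`. -/
theorem lam_insert {n : ℕ} {K : Set X} {c : X} {η : ℝ} (hη : 0 ≤ η) (hη1 : η ≤ 1)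
    (hc : ∀ x ∈ K, η ≤ dist c x) : min (lam n K) η ≤ lam (n + 1) (insert c K) := by
  rcases (SepSet n K).eq_empty_or_nonempty with he | hne
  · have : lam n K = 0 := by simp [lam, he]
    rw [this, min_eq_left hη]
    exact lam_nonneg _ _
  refine le_of_forall_pos_lt_add fun ε hε => ?_
  obtain ⟨r, hr, hr'⟩ := exists_lt_of_lt_csSup hne (show lam n K - ε < sSup (SepSet n K) by
    unfold lam; linarith)
  obtain ⟨h0, h1, t, ht, hd⟩ := hr
  have : min r η ≤ lam (n + 1) (insert c K) := by
    refine le_lam ⟨le_min h0 hη, (min_le_right _ _).trans hη1,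
      Fin.cons c t, ?_, ?_⟩
    · intro i
      refine Fin.cases ?_ (fun j => ?_) i
      · simp
      · simp [ht j]
    · intro i j
      refine Fin.cases ?_ (fun i => ?_) i <;> refine Fin.cases ?_ (fun j => ?_) j
      · intro h; exact absurd rfl h
      · intro _
        simpa using Or.inr (hc _ (ht j))
      · intro _
        rw [dist_comm]
        simpa using Or.inr (hc _ (ht i))
      · intro h
        simpa using Or.inl (hd i j (fun h' => h (by rw [h'])))
  have h2 : min (lam n K) η < min r η + ε := by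
    rcases min_cases r η with ⟨h3, -⟩ | ⟨h3, -⟩
    · rw [h3]
      exact (min_le_left _ _).trans_lt (by linarith)
    · rw [h3]
      exact (min_le_right _ _).trans_lt (by linarith)
  linarith

/-- In a totally bounded set there are no long separated tuples. -/
theorem exists_lam_lt {S : Set X} (hS : TotallyBounded S) {η : ℝ} (hη : 0 < η) :
    ∃ N : ℕ, ∀ n, N ≤ n → ∀ K ⊆ S, lam n K ≤ η := by
  obtain ⟨t, ht, hcov⟩ := Metric.totallyBounded_iff.1 hS (η / 2) (by linarith)
  refine ⟨ht.toFinset.card + 1, fun n hn K hK => ?_⟩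
  refine Real.sSup_le (fun r hr => ?_) hη.le
  obtain ⟨h0, h1, u, hu, hd⟩ := hr
  by_contra hlt
  push Not at hlt
  have hex : ∀ i, ∃ z ∈ ht.toFinset, dist (u i) z < η / 2 := by
    intro i
    have := hcov (hK (hu i))
    simp only [mem_iUnion, Metric.mem_ball] at this
    obtain ⟨z, hz, hz'⟩ := this
    exact ⟨z, ht.mem_toFinset.2 hz, hz'⟩
  choose g hg hg' using hex
  have hinj : Function.Injective g := by
    intro i j hij
    by_contra hne
    have h2 := hd i j hne
    have h3 := hg' i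
    have h4 := hg' j
    rw [← hij] at h4
    have h5 := dist_triangle_right (u i) (u j) (g i)
    linarith
  have h6 : Fintype.card (Fin n) ≤ ht.toFinset.card :=
    Finset.card_le_card_of_injOn g (fun i _ => hg i) hinj.injOn
  rw [Fintype.card_fin] at h6
  omega

/-- A uniform gain from a point at distance at least `η`. -/
theorem exists_gain {S : Set X} (hS : TotallyBounded S) {η : ℝ} (hη : 0 < η) :
    ∃ g : ℝ, 0 < g ∧ ∀ K ⊆ S, K.Nonempty → ∀ c : X, (∀ x ∈ K, η ≤ dist c x) →
      wt K + g ≤ wt (insert c K) := by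
  wlog h1 : η ≤ 1 generalizing η
  · obtain ⟨g, hg, h⟩ := this (η := 1) one_pos le_rfl
    exact ⟨g, hg, fun K hK hne c hc => h K hK hne c fun x hx => by linarith [hc x hx]⟩
  obtain ⟨N, hN⟩ := exists_lam_lt hS (half_pos hη)
  refine ⟨(1 / 2 : ℝ) ^ (N + 1) * (η / 2), by positivity, fun K hK hne c hc => ?_⟩
  set a : ℕ → ℝ := fun n => lam n K with ha
  set b : ℕ → ℝ := fun n => lam n (insert c K) with hb
  have hab : ∀ n, a n ≤ b n := fun n => lam_mono (subset_insert _ _)
  have hab' : ∀ n, min (a n) η ≤ b (n + 1) := fun n => lam_insert hη.le h1 hc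
  have ha0 : a 1 = 1 := by
    refine le_antisymm (lam_le_one _ _) ?_
    obtain ⟨x, hx⟩ := hne
    refine le_lam ⟨zero_le_one, le_rfl, fun _ => x, fun _ => hx, fun i j hij => ?_⟩
    exact absurd (Subsingleton.elim i j) hij
  -- total gain
  have hsum : ∀ M : ℕ, η - min (a (M + 1)) η ≤ ∑ n ∈ Finset.range M, (b (n + 2) - a (n + 2)) := by
    intro M
    induction M with
    | zero => simp [ha0, h1]
    | succ M ih =>
      rw [Finset.sum_range_succ]
      have h2 : min (a (M + 1)) η - min (a (M + 1 + 1)) η ≤ b (M + 2) - a (M + 2) := by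
        have h3 := hab' (M + 1)
        have h4 := hab (M + 2)
        rcases le_total (a (M + 2)) η with h5 | h5
        · rw [min_eq_left h5]
          linarith
        · have h6 : min (a (M + 1 + 1)) η = η := min_eq_right h5
          have h7 : min (a (M + 1)) η ≤ η := min_le_right _ _
          rw [h6]
          linarith
      linarith
  have hM := hsum N
  have h8 : a (N + 1) ≤ η / 2 := hN (N + 1) (by omega) K hK
  have h9 : η / 2 ≤ ∑ n ∈ Finset.range N, (b (n + 2) - a (n + 2)) := by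
    have : min (a (N + 1)) η ≤ η / 2 := (min_le_left _ _).trans h8
    linarith
  have h10 : (1 / 2 : ℝ) ^ (N + 1) * (η / 2) ≤
      ∑ n ∈ Finset.range (N + 2), (1 / 2 : ℝ) ^ n * (b n - a n) := by
    have h11 : (1 / 2 : ℝ) ^ (N + 1) * (η / 2) ≤
        ∑ n ∈ Finset.range N, (1 / 2 : ℝ) ^ (n + 2) * (b (n + 2) - a (n + 2)) := by
      calc (1 / 2 : ℝ) ^ (N + 1) * (η / 2)
          ≤ (1 / 2 : ℝ) ^ (N + 1) * ∑ n ∈ Finset.range N, (b (n + 2) - a (n + 2)) :=
            mul_le_mul_of_nonneg_left h9 (by positivity)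
        _ = ∑ n ∈ Finset.range N, (1 / 2 : ℝ) ^ (N + 1) * (b (n + 2) - a (n + 2)) :=
            Finset.mul_sum _ _ _
        _ ≤ _ := by
            refine Finset.sum_le_sum fun n hn => ?_
            refine mul_le_mul_of_nonneg_right ?_ (by linarith [hab (n + 2)])
            refine pow_le_pow_of_le_one (by norm_num) (by norm_num) ?_
            have := Finset.mem_range.1 hn
            omega
    rw [Finset.sum_range_succ' , Finset.sum_range_succ']
    have h12 : 0 ≤ (1 / 2 : ℝ) ^ (0 + 1) * (b (0 + 1) - a (0 + 1)) :=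
      mul_nonneg (by positivity) (by linarith [hab (0 + 1)])
    have h13 : 0 ≤ (1 / 2 : ℝ) ^ 0 * (b 0 - a 0) :=
      mul_nonneg (by positivity) (by linarith [hab 0])
    have h14 : ∑ n ∈ Finset.range N, (1 / 2 : ℝ) ^ (n + 1 + 1) * (b (n + 1 + 1) - a (n + 1 + 1)) =
      ∑ n ∈ Finset.range N, (1 / 2 : ℝ) ^ (n + 2) * (b (n + 2) - a (n + 2)) := rfl
    linarith
  have h15 : wt (insert c K) - wt K = ∑' n : ℕ, (1 / 2 : ℝ) ^ n * (b n - a n) := by
    unfold wt
    rw [← (summable_wt (insert c K)).tsum_sub (summable_wt K)]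
    refine tsum_congr fun n => ?_
    rw [mul_sub]
  have h16 : Summable fun n : ℕ => (1 / 2 : ℝ) ^ n * (b n - a n) := by
    refine ((summable_wt (insert c K)).sub (summable_wt K)).congr fun n => ?_
    rw [mul_sub]
  have h17 := h16.sum_le_tsum (Finset.range (N + 2))
    (fun n _ => mul_nonneg (by positivity) (by linarith [hab n]))
  linarith

end Weight

end Pool.Agent.Lib.MP_13800a_gt
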